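import Pool.Agent.Helper706_NS.Defs2

set_option autoImplicit false
open Set Filter Topology MeasureTheory
open scoped ComplexConjugate ContDiff

namespace H706N

theorem aux_wt : Integrable (fun k : E => (1 + ‖k‖) ^ (-4 : ℝ)) volume := by
  apply integrable_one_add_norm
  simp only [finrank_euclideanSpace, Fintype.card_fin]
  norm_num

/-- TARGET -/
theorem int_dec {F : Type*} [NormedAddCommGroup F] {f : E → F} (hm : AEStronglyMeasurable f volume)
    {C : ℝ} (h : ∀ k, (1 + ‖k‖) ^ 4 * ‖f k‖ ≤ C) : Integrable f volume := by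
  refine (aux_wt.const_mul C).mono' hm (Eventually.of_forall fun k => ?_)
  have h1 : (0 : ℝ) < 1 + ‖k‖ := by positivity
  have h2 : (1 + ‖k‖) ^ (-4 : ℝ) = ((1 + ‖k‖) ^ 4)⁻¹ := by
    rw [Real.rpow_neg h1.le]
    congr 1
    exact_mod_cast Real.rpow_natCast (1 + ‖k‖) 4
  rw [h2, ← div_eq_mul_inv, le_div_iff₀ (by positivity), mul_comm]
  exact h k

/-- TARGET -/
theorem Adm.int_pow {g : E → W} (hg : Adm g) (n : ℕ) : Integrable fun k : E => (1 + ‖k‖) ^ n * ‖g k‖ := by
  obtain ⟨C, hC⟩ := hg.dec (n + 4)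
  have hgm := hg.meas
  refine int_dec (C := C) ?_ ?_
  · exact (((measurable_const.add measurable_norm).pow_const n).mul hgm.norm).aestronglyMeasurable
  · intro k
    rw [Real.norm_of_nonneg (by positivity)]
    refine le_trans (le_of_eq ?_) (hC k)
    ring

/-- TARGET -/
theorem Adm.int {g : E → W} (hg : Adm g) : Integrable g volume := by
  obtain ⟨C, hC⟩ := hg.dec 4
  exact int_dec hg.meas.aestronglyMeasurable hC

theorem Adm.exists_bd {g : E → W} (hg : Adm g) : ∃ C : ℝ, 0 ≤ C ∧ ∀ k, ‖g k‖ ≤ C := by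
  obtain ⟨C, hC⟩ := hg.dec 0
  have h : ∀ k, ‖g k‖ ≤ C := fun k => by simpa using hC k
  exact ⟨C, (norm_nonneg _).trans (h 0), h⟩

theorem aux_pow_int {a : ℝ} (ha : -(3 / 2) < a) :
    IntegrableOn (fun k : E => ‖k‖ ^ (2 * a)) (Metric.ball 0 1) := by
  rw [integrableOn_fun_norm_addHaar (μ := (volume : Measure E)) (f := fun y : ℝ => y ^ (2 * a))]
  simp only [finrank_euclideanSpace, Fintype.card_fin, smul_eq_mul]
  have h : IntegrableOn (fun y : ℝ => y ^ (2 * a + 2)) (Ioo 0 1) :=
    (intervalIntegral.integrableOn_Ioo_rpow_iff (by norm_num)).2 (by linarith)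
  refine h.congr_fun (fun y hy => ?_) measurableSet_Ioo
  have hy0 : 0 < y := hy.1
  simp only
  rw [Real.rpow_add hy0, mul_comm]
  norm_num

/-- TARGET -/
theorem Adm.int_sq {g : E → W} (hg : Adm g) {a : ℝ} (ha : -(3 / 2) < a) :
    Integrable fun k : E => ‖k‖ ^ (2 * a) * ‖g k‖ ^ 2 := by
  obtain ⟨C, hC0, hC⟩ := hg.exists_bd
  obtain ⟨m, hm⟩ := exists_nat_ge (2 * a)
  have hgm := hg.meas
  have i1 : Integrable (fun k : E => (Metric.ball (0 : E) 1).indicator (fun k : E => ‖k‖ ^ (2 * a)) k) :=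
    (integrable_indicator_iff measurableSet_ball).2 (aux_pow_int ha)
  have i2 := hg.int_pow m
  refine ((i1.mul_const (C ^ 2)).add (i2.mul_const C)).mono' ?_ (Eventually.of_forall fun k => ?_)
  · exact ((measurable_norm.pow_const (2 * a)).mul (hgm.norm.pow_const 2)).aestronglyMeasurable
  · have h0 : 0 ≤ ‖k‖ ^ (2 * a) := Real.rpow_nonneg (norm_nonneg _) _
    rw [Real.norm_of_nonneg (by positivity)]
    simp only [Pi.add_apply]
    by_cases hk : k ∈ Metric.ball (0 : E) 1
    · rw [indicator_of_mem hk]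
      have h1 : ‖g k‖ ^ 2 ≤ C ^ 2 := pow_le_pow_left₀ (norm_nonneg _) (hC k) 2
      have h2 := mul_le_mul_of_nonneg_left h1 h0
      have h3 : 0 ≤ (1 + ‖k‖) ^ m * ‖g k‖ * C := by positivity
      linarith
    · rw [indicator_of_notMem hk]
      have hk1 : 1 ≤ ‖k‖ := by simpa using hk
      have h1 : ‖k‖ ^ (2 * a) ≤ (1 + ‖k‖) ^ m := by
        calc ‖k‖ ^ (2 * a) ≤ ‖k‖ ^ (m : ℝ) := Real.rpow_le_rpow_of_exponent_le hk1 hm
          _ = ‖k‖ ^ m := Real.rpow_natCast _ _
          _ ≤ (1 + ‖k‖) ^ m := pow_le_pow_left₀ (norm_nonneg _) (by linarith) m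
      have h2 : ‖g k‖ ^ 2 ≤ ‖g k‖ * C := by
        rw [sq]; exact mul_le_mul_of_nonneg_left (hC k) (norm_nonneg _)
      calc ‖k‖ ^ (2 * a) * ‖g k‖ ^ 2 ≤ (1 + ‖k‖) ^ m * (‖g k‖ * C) :=
            mul_le_mul h1 h2 (by positivity) (by positivity)
        _ = 0 * C ^ 2 + (1 + ‖k‖) ^ m * ‖g k‖ * C := by ring

theorem kd_add_smul (k : E) (c d : W) (r : ℝ) : kd k (c + r • d) = kd k c + r * kd k d := by
  simp only [kd, PiLp.add_apply, PiLp.smul_apply, Complex.real_smul, Finset.mul_sum,
    ← Finset.sum_add_distrib]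
  refine Finset.sum_congr rfl fun j _ => ?_
  ring

theorem kd_zero (k : E) : kd k 0 = 0 := by
  simp [kd]

/-- TARGET -/
theorem adm_add {g h : E → W} (hg : Adm g) (hh : Adm h) (c : ℝ) : Adm (g + c • h) where
  meas := hg.meas.add (hh.meas.const_smul c)
  dec := by
    intro n
    obtain ⟨C, hC⟩ := hg.dec n
    obtain ⟨D, hD⟩ := hh.dec n
    refine ⟨C + |c| * D, fun k => ?_⟩
    have h1 : ‖(g + c • h) k‖ ≤ ‖g k‖ + |c| * ‖h k‖ := by
      simp only [Pi.add_apply, Pi.smul_apply]
      refine (norm_add_le _ _).trans ?_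
      rw [norm_smul, Real.norm_eq_abs]
    have h2 : (0 : ℝ) ≤ (1 + ‖k‖) ^ n := by positivity
    calc (1 + ‖k‖) ^ n * ‖(g + c • h) k‖ ≤ (1 + ‖k‖) ^ n * (‖g k‖ + |c| * ‖h k‖) :=
          mul_le_mul_of_nonneg_left h1 h2
      _ = (1 + ‖k‖) ^ n * ‖g k‖ + |c| * ((1 + ‖k‖) ^ n * ‖h k‖) := by ring
      _ ≤ C + |c| * D := add_le_add (hC k) (mul_le_mul_of_nonneg_left (hD k) (abs_nonneg c))
  herm := by
    intro k j
    simp only [Pi.add_apply, Pi.smul_apply, PiLp.add_apply, PiLp.smul_apply, hg.herm k j,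
      hh.herm k j, Complex.real_smul, map_add, map_mul, Complex.conj_ofReal]
  divf := by
    intro k
    simp only [Pi.add_apply, Pi.smul_apply, kd_add_smul, hg.divf k, hh.divf k, mul_zero, add_zero]

theorem measurableSet_cone (c : ℝ) : MeasurableSet (cone c) := by
  apply IsClosed.measurableSet
  unfold cone
  apply isClosed_le <;> fun_prop

theorem neg_mem_cone (c : ℝ) (k : E) : -k ∈ cone c ↔ k ∈ cone c := by
  simp [cone]

theorem norm_cut_le (c : ℝ) (g : E → W) (k : E) : ‖cut c g k‖ ≤ ‖g k‖ :=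
  norm_indicator_le_norm_self g k

/-- TARGET -/
theorem adm_cut {g : E → W} (hg : Adm g) (c : ℝ) : Adm (cut c g) where
  meas := hg.meas.indicator (measurableSet_cone c)
  dec := by
    intro n
    obtain ⟨C, hC⟩ := hg.dec n
    exact ⟨C, fun k => (mul_le_mul_of_nonneg_left (norm_cut_le c g k) (by positivity)).trans (hC k)⟩
  herm := by
    intro k j
    by_cases hk : k ∈ cone c
    · have hk' := (neg_mem_cone c k).2 hk
      simp only [cut, indicator_of_mem hk, indicator_of_mem hk', hg.herm k j]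
    · have hk' : -k ∉ cone c := fun h => hk ((neg_mem_cone c k).1 h)
      simp only [cut, indicator_of_notMem hk, indicator_of_notMem hk', PiLp.zero_apply, map_zero]
  divf := by
    intro k
    by_cases hk : k ∈ cone c
    · simp only [cut, indicator_of_mem hk, hg.divf k]
    · simp only [cut, indicator_of_notMem hk, kd_zero]

/-- TARGET -/
theorem nrm_cut {g : E → W} (hg : Adm g) (c : ℝ) {a : ℝ} (ha : -(3 / 2) < a) :
    nrm a (cut c g) ≤ nrm a g := by
  unfold nrm
  refine Real.sqrt_le_sqrt (integral_mono ((adm_cut hg c).int_sq ha) (hg.int_sq ha) fun k => ?_)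
  exact mul_le_mul_of_nonneg_left (pow_le_pow_left₀ (norm_nonneg _) (norm_cut_le c g k) 2)
    (Real.rpow_nonneg (norm_nonneg _) _)

/-- TARGET -/
theorem nrm_nonneg (a : ℝ) (g : E → W) : 0 ≤ nrm a g := Real.sqrt_nonneg _

/-- TARGET -/
theorem nrm_sq (a : ℝ) (g : E → W) : nrm a g ^ 2 = ∫ k : E, ‖k‖ ^ (2 * a) * ‖g k‖ ^ 2 := by
  unfold nrm
  refine Real.sq_sqrt (integral_nonneg fun k => ?_)
  exact mul_nonneg (Real.rpow_nonneg (norm_nonneg _) _) (by positivity)

/-- TARGET -/
theorem pr_int {g h : E → W} (hg : Adm g) (hh : Adm h) :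
    Integrable fun k : E => (inner ℂ (g k) (h k)).re := by
  obtain ⟨C, hC0, hC⟩ := hg.exists_bd
  have hgm := hg.meas
  have hhm := hh.meas
  refine (hh.int.norm.const_mul C).mono' ?_ (Eventually.of_forall fun k => ?_)
  · exact (Complex.measurable_re.comp (hgm.inner hhm)).aestronglyMeasurable
  · rw [Real.norm_eq_abs]
    refine (Complex.abs_re_le_norm _).trans ((norm_inner_le_norm _ _).trans ?_)
    exact mul_le_mul_of_nonneg_right (hC k) (norm_nonneg _)

/-- TARGET -/
theorem pr_add_left {g g' h : E → W} (hg : Adm g) (hg' : Adm g') (hh : Adm h) (c : ℝ) :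
    pr (g + c • g') h = pr g h + c * pr g' h := by
  unfold pr
  rw [← integral_const_mul, ← integral_add (pr_int hg hh) ((pr_int hg' hh).const_mul c)]
  refine integral_congr_ae (Eventually.of_forall fun k => ?_)
  have h1 : c • g' k = (c : ℂ) • g' k := by
    ext j
    simp [Complex.real_smul]
  simp only [Pi.add_apply, Pi.smul_apply, inner_add_left, Complex.add_re]
  rw [h1, inner_smul_left, Complex.conj_ofReal, Complex.re_ofReal_mul]

/-- TARGET -/
theorem pr_comm (g h : E → W) : pr g h = pr h g := by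
  unfold pr
  refine integral_congr_ae (Eventually.of_forall fun k => ?_)
  exact inner_re_symm (𝕜 := ℂ) (g k) (h k)

theorem nrm_zero_eq (g : E → W) : nrm 0 g = Real.sqrt (∫ k : E, ‖g k‖ ^ 2) := by
  unfold nrm
  simp only [mul_zero, Real.rpow_zero, one_mul]

/-- TARGET -/
theorem pr_abs_le {g h : E → W} (hg : Adm g) (hh : Adm h) : |pr g h| ≤ nrm 0 g * nrm 0 h := by
  have hgm := hg.meas
  have hhm := hh.meas
  have ig : Integrable fun k : E => ‖g k‖ ^ 2 := by
    simpa using hg.int_sq (a := 0) (by norm_num)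
  have ih : Integrable fun k : E => ‖h k‖ ^ 2 := by
    simpa using hh.int_sq (a := 0) (by norm_num)
  have mg : MemLp (fun k : E => ‖g k‖) (ENNReal.ofReal 2) volume := by
    have := (memLp_two_iff_integrable_sq hgm.norm.aestronglyMeasurable (μ := (volume : Measure E))).2 ig
    simpa using this
  have mh : MemLp (fun k : E => ‖h k‖) (ENNReal.ofReal 2) volume := by
    have := (memLp_two_iff_integrable_sq hhm.norm.aestronglyMeasurable (μ := (volume : Measure E))).2 ih
    simpa using this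
  have h1 : |pr g h| ≤ ∫ k : E, ‖g k‖ * ‖h k‖ := by
    unfold pr
    refine (abs_integral_le_integral_abs).trans ?_
    refine integral_mono_of_nonneg (Eventually.of_forall fun k => abs_nonneg _) ?_
      (Eventually.of_forall fun k => ?_)
    · obtain ⟨C, hC0, hC⟩ := hg.exists_bd
      refine (hh.int.norm.const_mul C).mono' (hgm.norm.mul hhm.norm).aestronglyMeasurable
        (Eventually.of_forall fun k => ?_)
      rw [Real.norm_of_nonneg (by positivity)]
      exact mul_le_mul_of_nonneg_right (hC k) (norm_nonneg _)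
    · exact (Complex.abs_re_le_norm _).trans (norm_inner_le_norm _ _)
  refine h1.trans ?_
  have h2 := integral_mul_le_Lp_mul_Lq_of_nonneg (μ := (volume : Measure E)) Real.HolderConjugate.two_two
    (f := fun k : E => ‖g k‖) (g := fun k : E => ‖h k‖) (Eventually.of_forall fun k => norm_nonneg _)
    (Eventually.of_forall fun k => norm_nonneg _) mg mh
  refine h2.trans (le_of_eq ?_)
  rw [nrm_zero_eq, nrm_zero_eq, Real.sqrt_eq_rpow, Real.sqrt_eq_rpow]
  simp only [Real.rpow_two]

/-- TARGET -/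
theorem pr_self (g : E → W) : pr g g = nrm 0 g ^ 2 := by
  rw [nrm_sq]
  unfold pr
  refine integral_congr_ae (Eventually.of_forall fun k => ?_)
  simp only [mul_zero, Real.rpow_zero, one_mul]
  exact inner_self_eq_norm_sq (𝕜 := ℂ) (g k)

end H706N
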