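import Pool.Agent.Helper706_NS.Defs2
import Pool.Agent.Helper706_NS.A1

set_option autoImplicit false
open Set Filter Topology MeasureTheory
open scoped ComplexConjugate ContDiff

namespace H706N.JA2

theorem kd_eq_inner (k : E) (c : W) : kd k c = inner ℂ (toW k) c := by
  rw [kd, toW, PiLp.inner_apply]
  refine Finset.sum_congr rfl fun j _ => ?_
  simp [mul_comm]

theorem norm_toW (k : E) : ‖toW k‖ = ‖k‖ := by
  rw [toW, EuclideanSpace.norm_eq, EuclideanSpace.norm_eq]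
  simp

theorem kd_add_right (k : E) (c d : W) : kd k (c + d) = kd k c + kd k d := by
  rw [kd_eq_inner, kd_eq_inner, kd_eq_inner, inner_add_right]

theorem kd_smul_right (k : E) (z : ℂ) (c : W) : kd k (z • c) = z * kd k c := by
  rw [kd_eq_inner, kd_eq_inner, inner_smul_right]

theorem kd_toW (k : E) : kd k (toW k) = ((‖k‖ ^ 2 : ℝ) : ℂ) := by
  rw [kd_eq_inner, inner_self_eq_norm_sq_to_K, norm_toW]
  simp

theorem kd_sub_right (k : E) (c d : W) : kd k (c - d) = kd k c - kd k d := by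
  rw [kd_eq_inner, kd_eq_inner, kd_eq_inner, inner_sub_right]

theorem kd_lp (k : E) (c : W) : kd k (lp k c) = 0 := by
  rcases eq_or_ne k 0 with rfl | hk
  · simp [kd]
  · have h0 : ((‖k‖ ^ 2 : ℝ) : ℂ) ≠ 0 := by
      have : ‖k‖ ^ 2 ≠ 0 := pow_ne_zero _ (norm_ne_zero_iff.2 hk)
      exact_mod_cast this
    rw [lp, kd_sub_right, kd_smul_right, kd_toW, div_mul_cancel₀ _ h0, sub_self]

/-- TARGET -/
theorem lp_norm (k : E) (c : W) : ‖lp k c‖ ≤ ‖c‖ := by
  have h1 : inner ℂ (toW k) (lp k c) = 0 := by rw [← kd_eq_inner, kd_lp]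
  have h2 : c = lp k c + (kd k c / ((‖k‖ ^ 2 : ℝ) : ℂ)) • toW k := by
    rw [lp]; abel
  have h3 : inner ℂ (lp k c) ((kd k c / ((‖k‖ ^ 2 : ℝ) : ℂ)) • toW k) = 0 := by
    rw [inner_smul_right, ← inner_conj_symm, h1]; simp
  have h4 := norm_add_sq_eq_norm_sq_add_norm_sq_of_inner_eq_zero _ _ h3
  rw [← h2] at h4
  nlinarith [norm_nonneg c, norm_nonneg (lp k c),
    norm_nonneg ((kd k c / ((‖k‖ ^ 2 : ℝ) : ℂ)) • toW k)]

/-- TARGET -/
theorem kd_norm (k : E) (c : W) : ‖kd k c‖ ≤ ‖k‖ * ‖c‖ := by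
  rw [kd_eq_inner, ← norm_toW k]
  exact norm_inner_le_norm _ _

theorem meas_kd {α : Type*} [MeasurableSpace α] {f : α → E} {g : α → W} (hf : Measurable f)
    (hg : Measurable g) : Measurable fun x => kd (f x) (g x) := by
  unfold kd
  refine Finset.measurable_sum _ fun j _ => ?_
  refine Measurable.mul ?_ ?_
  · refine Complex.measurable_ofReal.comp ?_
    exact (EuclideanSpace.proj j : E →L[ℝ] ℝ).continuous.measurable.comp hf
  · exact (EuclideanSpace.proj j : W →L[ℂ] ℂ).continuous.measurable.comp hg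

theorem meas_toW : Measurable toW := by
  have : Continuous toW := by
    unfold toW
    fun_prop
  exact this.measurable

theorem adv_int_meas {g h : E → W} (hg : Adm g) (hh : Adm h) :
    Measurable fun p : E × E => (Complex.I * kd p.2 (g (p.1 - p.2))) • h p.2 := by
  refine Measurable.smul (Measurable.const_mul (meas_kd measurable_snd ?_) _) (hh.meas.comp measurable_snd)
  exact hg.meas.comp (measurable_fst.sub measurable_snd)

theorem adv_term_norm (g h : E → W) (k η : E) :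
    ‖(Complex.I * kd η (g (k - η))) • h η‖ ≤ ‖g (k - η)‖ * ((1 + ‖η‖) * ‖h η‖) := by
  rw [norm_smul, norm_mul, Complex.norm_I, one_mul]
  have h1 := kd_norm η (g (k - η))
  have h2 := norm_nonneg (g (k - η))
  have h3 := norm_nonneg (h η)
  have h4 := norm_nonneg η
  calc ‖kd η (g (k - η))‖ * ‖h η‖ ≤ (‖η‖ * ‖g (k - η)‖) * ‖h η‖ := by gcongr
    _ ≤ ((1 + ‖η‖) * ‖g (k - η)‖) * ‖h η‖ := by gcongr; linarith
    _ = _ := by ring

theorem adm_bound {g : E → W} (hg : Adm g) : ∃ C : ℝ, 0 ≤ C ∧ ∀ k, ‖g k‖ ≤ C := by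
  obtain ⟨C, hC⟩ := hg.dec 0
  refine ⟨C, ?_, fun k => by simpa using hC k⟩
  exact le_trans (norm_nonneg _) (by simpa using hC 0)

/-- TARGET -/
theorem adv_int {g h : E → W} (hg : Adm g) (hh : Adm h) (k : E) :
    Integrable fun η : E => (Complex.I * kd η (g (k - η))) • h η := by
  obtain ⟨C, hC0, hC⟩ := adm_bound hg
  obtain ⟨D, hD⟩ := hh.dec 5
  refine int_dec (C := C * D) ?_ fun η => ?_
  · have h1 := adv_int_meas hg hh
    exact (h1.comp (measurable_const.prodMk measurable_id :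
      Measurable fun η : E => (k, η))).aestronglyMeasurable
  · have h1 := adv_term_norm g h k η
    have h2 := hC (k - η)
    have h3 := hD η
    have h4 := norm_nonneg η
    have h5 := norm_nonneg (h η)
    have h6 := norm_nonneg (g (k - η))
    calc (1 + ‖η‖) ^ 4 * ‖(Complex.I * kd η (g (k - η))) • h η‖
        ≤ (1 + ‖η‖) ^ 4 * (‖g (k - η)‖ * ((1 + ‖η‖) * ‖h η‖)) := by gcongr
      _ = ‖g (k - η)‖ * ((1 + ‖η‖) ^ 5 * ‖h η‖) := by ring
      _ ≤ C * ((1 + ‖η‖) ^ 5 * ‖h η‖) := by gcongr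
      _ ≤ C * D := by gcongr

theorem w_int : Integrable fun η : E => ((1 + ‖η‖) ^ 4)⁻¹ := by
  refine int_dec (C := 1) ?_ fun η => ?_
  · refine Continuous.aestronglyMeasurable ?_
    refine Continuous.inv₀ (by fun_prop) fun η => ?_
    positivity
  · have h4 : 0 < (1 + ‖η‖) ^ 4 := by positivity
    rw [Real.norm_eq_abs, abs_of_pos (inv_pos.2 h4), mul_inv_cancel₀ h4.ne']

theorem adv_bdd {g h : E → W} (hg : Adm g) (hh : Adm h) (n : ℕ) {C D : ℝ}
    (hC : ∀ k, (1 + ‖k‖) ^ n * ‖g k‖ ≤ C) (hD : ∀ k, (1 + ‖k‖) ^ (n + 5) * ‖h k‖ ≤ D) (k : E) :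
    (1 + ‖k‖) ^ n * ‖adv g h k‖ ≤ (∫ η : E, ((1 + ‖η‖) ^ 4)⁻¹) * C * D := by
  have hC0 : 0 ≤ C := le_trans (by positivity) (hC 0)
  have hD0 : 0 ≤ D := le_trans (by positivity) (hD 0)
  have hk := norm_nonneg k
  have h1 : ‖adv g h k‖ ≤ ∫ η, ‖(Complex.I * kd η (g (k - η))) • h η‖ := norm_integral_le_integral_norm _
  have h2 : (1 + ‖k‖) ^ n * ‖adv g h k‖ ≤
      ∫ η, (1 + ‖k‖) ^ n * ‖(Complex.I * kd η (g (k - η))) • h η‖ := by
    rw [integral_const_mul]
    gcongr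
  refine h2.trans ?_
  have h3 : (∫ η : E, ((1 + ‖η‖) ^ 4)⁻¹) * C * D = ∫ η : E, ((1 + ‖η‖) ^ 4)⁻¹ * (C * D) := by
    rw [integral_mul_const, mul_assoc]
  rw [h3]
  refine integral_mono ((adv_int hg hh k).norm.const_mul _) (w_int.mul_const _) fun η => ?_
  have h4 := adv_term_norm g h k η
  have hη := norm_nonneg η
  have h5 : 1 + ‖k‖ ≤ (1 + ‖k - η‖) * (1 + ‖η‖) := by
    have : ‖k‖ ≤ ‖k - η‖ + ‖η‖ := by
      have := norm_add_le (k - η) η
      simpa using this
    nlinarith [norm_nonneg (k - η), norm_nonneg η, mul_nonneg (norm_nonneg (k - η)) (norm_nonneg η)]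
  have h6 : (1 + ‖k‖) ^ n ≤ (1 + ‖k - η‖) ^ n * (1 + ‖η‖) ^ n := by
    rw [← mul_pow]
    exact pow_le_pow_left₀ (by positivity) h5 n
  have h7 := hC (k - η)
  have h8 := hD η
  have h9 : 0 < (1 + ‖η‖) ^ 4 := by positivity
  show (1 + ‖k‖) ^ n * ‖(Complex.I * kd η (g (k - η))) • h η‖ ≤ ((1 + ‖η‖) ^ 4)⁻¹ * (C * D)
  rw [inv_mul_eq_div, le_div_iff₀ h9]
  calc (1 + ‖k‖) ^ n * ‖(Complex.I * kd η (g (k - η))) • h η‖ * (1 + ‖η‖) ^ 4
      ≤ ((1 + ‖k - η‖) ^ n * (1 + ‖η‖) ^ n) * (‖g (k - η)‖ * ((1 + ‖η‖) * ‖h η‖)) * (1 + ‖η‖) ^ 4 := by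
        gcongr
    _ = ((1 + ‖k - η‖) ^ n * ‖g (k - η)‖) * ((1 + ‖η‖) ^ (n + 5) * ‖h η‖) := by ring
    _ ≤ C * D := by gcongr

theorem adm_bound_n {g : E → W} (hg : Adm g) (n : ℕ) : ∃ C : ℝ, ∀ k, (1 + ‖k‖) ^ n * ‖g k‖ ≤ C :=
  hg.dec n

theorem toW_neg (k : E) : toW (-k) = -toW k := by
  ext j
  simp [toW]

theorem adm_neg {g : E → W} (hg : Adm g) (k : E) : g (-k) = WithLp.toLp 2 fun j => conj (g k j) := by
  ext j
  simpa using hg.herm k j

theorem kd_neg_conj (k : E) (c d : W) (h : ∀ j, d j = conj (c j)) : kd (-k) d = -conj (kd k c) := by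
  rw [kd, kd, map_sum, ← Finset.sum_neg_distrib]
  refine Finset.sum_congr rfl fun j _ => ?_
  rw [h j]
  simp

theorem adv_meas {g h : E → W} (hg : Adm g) (hh : Adm h) : Measurable (adv g h) := by
  have h1 := (adv_int_meas hg hh).stronglyMeasurable
  have h2 := h1.integral_prod_right' (ν := (volume : Measure E))
  exact h2.measurable

theorem adv_apply {g h : E → W} (hg : Adm g) (hh : Adm h) (k : E) (j : Fin 3) :
    adv g h k j = ∫ η, Complex.I * kd η (g (k - η)) * h η j := by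
  have := (EuclideanSpace.proj j : W →L[ℂ] ℂ).integral_comp_comm (adv_int hg hh k)
  rw [adv]
  have h2 : (∫ η, (Complex.I * kd η (g (k - η))) • h η).ofLp j =
    (EuclideanSpace.proj j : W →L[ℂ] ℂ) (∫ η, (Complex.I * kd η (g (k - η))) • h η) := rfl
  rw [h2, ← this]
  rfl

theorem adv_herm {g h : E → W} (hg : Adm g) (hh : Adm h) (k : E) (j : Fin 3) :
    adv g h (-k) j = conj (adv g h k j) := by
  rw [adv_apply hg hh, adv_apply hg hh, ← integral_conj, ← integral_neg_eq_self]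
  refine integral_congr_ae (Filter.Eventually.of_forall fun η => ?_)
  simp only
  rw [show -k - -η = -(k - η) by abel, hh.herm,
    kd_neg_conj η (g (k - η)) (g (-(k - η))) (hg.herm (k - η)), map_mul, map_mul, Complex.conj_I]
  ring

theorem lp_herm (k : E) (c d : W) (h : ∀ j, d j = conj (c j)) (j : Fin 3) :
    lp (-k) d j = conj (lp k c j) := by
  have h1 : lp (-k) d j = d j - (kd (-k) d / ((‖-k‖ ^ 2 : ℝ) : ℂ)) * toW (-k) j := rfl
  have h2 : lp k c j = c j - (kd k c / ((‖k‖ ^ 2 : ℝ) : ℂ)) * toW k j := rfl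
  have h3 : conj (toW k j) = toW k j := by simp [toW]
  have h4 : toW (-k) j = - toW k j := by rw [toW_neg]; rfl
  rw [h1, h2, kd_neg_conj k c d h, h j, map_sub, map_mul, map_div₀, Complex.conj_ofReal, h3, h4, norm_neg]
  ring

/-- TARGET -/
theorem adm_NL {g h : E → W} (hg : Adm g) (hh : Adm h) : Adm (NL g h) where
  meas := by
    unfold NL lp
    have h1 := adv_meas hg hh
    refine h1.sub (Measurable.smul (Measurable.div (meas_kd measurable_id h1) ?_) meas_toW)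
    exact Complex.measurable_ofReal.comp (by fun_prop)
  dec := fun n => by
    obtain ⟨C, hC⟩ := hg.dec n
    obtain ⟨D, hD⟩ := hh.dec (n + 5)
    refine ⟨(∫ η : E, ((1 + ‖η‖) ^ 4)⁻¹) * C * D, fun k => ?_⟩
    refine le_trans ?_ (adv_bdd hg hh n hC hD k)
    have := lp_norm k (adv g h k)
    unfold NL
    gcongr
  herm := fun k j => lp_herm k _ _ (adv_herm hg hh k) j
  divf := fun k => kd_lp k _

/-- TARGET -/
theorem NL_bdd (n : ℕ) : ∃ K : ℝ, ∀ g h : E → W, Adm g → Adm h → ∀ C D : ℝ,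
    (∀ k, (1 + ‖k‖) ^ (n + 5) * ‖g k‖ ≤ C) → (∀ k, (1 + ‖k‖) ^ (n + 5) * ‖h k‖ ≤ D) →
      ∀ k, (1 + ‖k‖) ^ n * ‖NL g h k‖ ≤ K * C * D := by
  refine ⟨∫ η : E, ((1 + ‖η‖) ^ 4)⁻¹, fun g h hg hh C D hC hD k => ?_⟩
  have hC' : ∀ k, (1 + ‖k‖) ^ n * ‖g k‖ ≤ C := fun k => by
    refine le_trans ?_ (hC k)
    have : (1 + ‖k‖) ^ n ≤ (1 + ‖k‖) ^ (n + 5) :=
      pow_le_pow_right₀ (by linarith [norm_nonneg k]) (by omega)
    gcongr
  refine le_trans ?_ (adv_bdd hg hh n hC' hD k)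
  have := lp_norm k (adv g h k)
  unfold NL
  gcongr

theorem lp_add (k : E) (c d : W) : lp k (c + d) = lp k c + lp k d := by
  simp only [lp, kd_add_right, add_div, add_smul]
  abel

theorem lp_smul (k : E) (z : ℂ) (c : W) : lp k (z • c) = z • lp k c := by
  simp only [lp, kd_smul_right, smul_sub, smul_smul, mul_div_assoc]

theorem rsmul (c : ℝ) (w : W) : c • w = (c : ℂ) • w := rfl

/-- TARGET -/
theorem NL_lin₁ {g g' h : E → W} (hg : Adm g) (hg' : Adm g') (hh : Adm h) (c : ℝ) :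
    NL (g + c • g') h = NL g h + c • NL g' h := by
  funext k
  have h1 : adv (g + c • g') h k = adv g h k + (c : ℂ) • adv g' h k := by
    unfold adv
    have hi : Integrable fun η : E => (c : ℂ) • ((Complex.I * kd η (g' (k - η))) • h η) :=
      (adv_int hg' hh k).smul (c : ℂ)
    rw [← integral_smul, ← integral_add (adv_int hg hh k) hi]
    refine integral_congr_ae (Filter.Eventually.of_forall fun η => ?_)
    simp only [Pi.add_apply, Pi.smul_apply, rsmul, kd_add_right, kd_smul_right, smul_smul, ← add_smul]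
    congr 1
    ring
  show lp k (adv (g + c • g') h k) = lp k (adv g h k) + c • lp k (adv g' h k)
  rw [h1, lp_add, lp_smul, rsmul]

/-- TARGET -/
theorem NL_lin₂ {g h h' : E → W} (hg : Adm g) (hh : Adm h) (hh' : Adm h') (c : ℝ) :
    NL g (h + c • h') = NL g h + c • NL g h' := by
  funext k
  have h1 : adv g (h + c • h') k = adv g h k + (c : ℂ) • adv g h' k := by
    unfold adv
    have hi : Integrable fun η : E => (c : ℂ) • ((Complex.I * kd η (g (k - η))) • h' η) :=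
      (adv_int hg hh' k).smul (c : ℂ)
    rw [← integral_smul, ← integral_add (adv_int hg hh k) hi]
    refine integral_congr_ae (Filter.Eventually.of_forall fun η => ?_)
    simp only [Pi.add_apply, Pi.smul_apply, rsmul, smul_add, smul_smul]
    congr 2
    ring
  show lp k (adv g (h + c • h') k) = lp k (adv g h k) + c • lp k (adv g h' k)
  rw [h1, lp_add, lp_smul, rsmul]

end H706N.JA2

namespace H706N

alias lp_norm := JA2.lp_norm
alias kd_norm := JA2.kd_norm
alias adv_int := JA2.adv_int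
alias adm_NL := JA2.adm_NL
alias NL_bdd := JA2.NL_bdd
alias NL_lin₁ := JA2.NL_lin₁
alias NL_lin₂ := JA2.NL_lin₂

end H706N
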