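import Pool.Agent.Helper706_NS.Defs4

set_option autoImplicit false
open Set Filter Topology MeasureTheory
open scoped ComplexConjugate ContDiff

namespace H706N.JHV1

/-- TARGET -/
theorem norm_dt (a b : W) : ‖dt a b‖ ≤ ‖a‖ * ‖b‖ := by
  have h : dt a b = inner ℂ (cj a) b := by
    simp [dt, cj, PiLp.inner_apply, Fin.sum_univ_three]
    ring
  have hc : ‖cj a‖ = ‖a‖ := by
    rw [EuclideanSpace.norm_eq, EuclideanSpace.norm_eq]
    congr 1
    refine Finset.sum_congr rfl fun j _ => ?_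
    simp [cj]
  rw [h, ← hc]
  exact norm_inner_le_norm _ _

/-- TARGET -/
theorem norm_cj (a : W) : ‖cj a‖ = ‖a‖ := by
  rw [EuclideanSpace.norm_eq, EuclideanSpace.norm_eq]
  congr 1
  refine Finset.sum_congr rfl fun j _ => ?_
  simp [cj]

/-- TARGET -/
theorem cj_cj (a : W) : cj (cj a) = a := by
  ext j
  simp [cj]

/-- TARGET -/
theorem cj_add (a b : W) : cj (a + b) = cj a + cj b := by
  ext j
  simp [cj]

/-- TARGET -/
theorem cj_smul (c : ℂ) (a : W) : cj (c • a) = conj c • cj a := by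
  ext j
  simp [cj]

/-- TARGET -/
theorem cj_toW (k : E) : cj (toW k) = toW k := by
  ext j
  simp [cj, toW]

/-- TARGET -/
theorem dt_cj (a b : W) : dt (cj a) (cj b) = conj (dt a b) := by
  simp [dt, cj, Fin.sum_univ_three]

/-- TARGET -/
theorem dt_comm (a b : W) : dt a b = dt b a := by
  simp only [dt, Fin.sum_univ_three]
  ring

/-- TARGET -/
theorem dt_add (a b c : W) : dt a (b + c) = dt a b + dt a c := by
  simp only [dt, Fin.sum_univ_three, PiLp.add_apply]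
  ring

/-- TARGET -/
theorem dt_smul (z : ℂ) (a b : W) : dt a (z • b) = z * dt a b := by
  simp only [dt, Fin.sum_univ_three, PiLp.smul_apply, smul_eq_mul]
  ring

/-- TARGET -/
theorem dt_toW (k : E) (a : W) : dt (toW k) a = kd k a := by
  simp [dt, kd, toW]

/-- TARGET -/
theorem kd_cj (k : E) (a : W) : kd k (cj a) = conj (kd k a) := by
  simp [kd, cj, Fin.sum_univ_three]

/-- TARGET -/
theorem kd_neg (k : E) (a : W) : kd (-k) a = -kd k a := by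
  simp only [kd, Fin.sum_univ_three, PiLp.neg_apply]
  push_cast
  ring

/-- TARGET -/
theorem cu_herm (k : E) (a : W) : cu (-k) (cj a) = cj (cu k a) := by
  ext j
  fin_cases j <;> simp [cu, crw, cj, toW] <;> ring

/-- TARGET -/
theorem kd_cu (k : E) (a : W) : kd k (cu k a) = 0 := by
  simp [kd, cu, crw, toW, Fin.sum_univ_three]
  ring

/-- TARGET -/
theorem norm_cu (k : E) (a : W) : ‖cu k a‖ ≤ 2 * ‖k‖ * ‖a‖ := by
  have hk : ‖k‖ ^ 2 = k 0 ^ 2 + k 1 ^ 2 + k 2 ^ 2 := by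
    rw [EuclideanSpace.real_norm_sq_eq, Fin.sum_univ_three]
  have hsq : ‖cu k a‖ ^ 2 ≤ (2 * ‖k‖ * ‖a‖) ^ 2 := by
    rw [EuclideanSpace.norm_sq_eq, mul_pow, EuclideanSpace.norm_sq_eq a, Fin.sum_univ_three,
      Fin.sum_univ_three, mul_pow, hk]
    have key : ∀ (u v : ℝ) (z w : ℂ), ‖(u : ℂ) * z - v * w‖ ^ 2 ≤
        2 * u ^ 2 * ‖z‖ ^ 2 + 2 * v ^ 2 * ‖w‖ ^ 2 := by
      intro u v z w
      have h1 : ‖(u : ℂ) * z - v * w‖ ≤ |u| * ‖z‖ + |v| * ‖w‖ := by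
        refine (norm_sub_le _ _).trans ?_
        rw [norm_mul, norm_mul, Complex.norm_real, Complex.norm_real, Real.norm_eq_abs,
          Real.norm_eq_abs]
      have h2 : ‖(u : ℂ) * z - v * w‖ ^ 2 ≤ (|u| * ‖z‖ + |v| * ‖w‖) ^ 2 :=
        pow_le_pow_left₀ (norm_nonneg _) h1 2
      have h3 : |u| ^ 2 = u ^ 2 := sq_abs u
      have h4 : |v| ^ 2 = v ^ 2 := sq_abs v
      nlinarith [sq_nonneg (|u| * ‖z‖ - |v| * ‖w‖)]
    have e0 : ‖cu k a 0‖ ^ 2 ≤ 2 * k 1 ^ 2 * ‖a 2‖ ^ 2 + 2 * k 2 ^ 2 * ‖a 1‖ ^ 2 := by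
      have : cu k a 0 = Complex.I * ((k 1 : ℂ) * a 2 - (k 2 : ℂ) * a 1) := by
        simp [cu, crw, toW]
      rw [this, norm_mul, Complex.norm_I, one_mul]
      exact key _ _ _ _
    have e1 : ‖cu k a 1‖ ^ 2 ≤ 2 * k 2 ^ 2 * ‖a 0‖ ^ 2 + 2 * k 0 ^ 2 * ‖a 2‖ ^ 2 := by
      have : cu k a 1 = Complex.I * ((k 2 : ℂ) * a 0 - (k 0 : ℂ) * a 2) := by
        simp [cu, crw, toW]
      rw [this, norm_mul, Complex.norm_I, one_mul]
      exact key _ _ _ _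
    have e2 : ‖cu k a 2‖ ^ 2 ≤ 2 * k 0 ^ 2 * ‖a 1‖ ^ 2 + 2 * k 1 ^ 2 * ‖a 0‖ ^ 2 := by
      have : cu k a 2 = Complex.I * ((k 0 : ℂ) * a 1 - (k 1 : ℂ) * a 0) := by
        simp [cu, crw, toW]
      rw [this, norm_mul, Complex.norm_I, one_mul]
      exact key _ _ _ _
    nlinarith [mul_nonneg (sq_nonneg (k 0)) (sq_nonneg ‖a 0‖),
      mul_nonneg (sq_nonneg (k 1)) (sq_nonneg ‖a 1‖), mul_nonneg (sq_nonneg (k 2)) (sq_nonneg ‖a 2‖),
      mul_nonneg (sq_nonneg (k 0)) (sq_nonneg ‖a 1‖), mul_nonneg (sq_nonneg (k 0)) (sq_nonneg ‖a 2‖),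
      mul_nonneg (sq_nonneg (k 1)) (sq_nonneg ‖a 0‖), mul_nonneg (sq_nonneg (k 1)) (sq_nonneg ‖a 2‖),
      mul_nonneg (sq_nonneg (k 2)) (sq_nonneg ‖a 0‖), mul_nonneg (sq_nonneg (k 2)) (sq_nonneg ‖a 1‖)]
  exact le_of_sq_le_sq hsq (by positivity)

/-- TARGET -/
theorem dt_cu (k : E) (a b : W) : dt (cu k a) b = -dt a (cu k b) := by
  simp [dt, cu, crw, toW, Fin.sum_univ_three]
  ring

/-- TARGET -/
theorem dt_rzW (θ : ℝ) (a b : W) : dt (rzW θ a) (rzW θ b) = dt a b := by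
  have h : Complex.cos (θ : ℂ) ^ 2 + Complex.sin (θ : ℂ) ^ 2 = 1 := Complex.cos_sq_add_sin_sq _
  simp [dt, rzW, Fin.sum_univ_three]
  linear_combination (a 0 * b 0 + a 1 * b 1) * h

/-- TARGET -/
theorem kd_rz (θ : ℝ) (k : E) (a : W) : kd (rz θ k) (rzW θ a) = kd k a := by
  have h : Complex.cos (θ : ℂ) ^ 2 + Complex.sin (θ : ℂ) ^ 2 = 1 := Complex.cos_sq_add_sin_sq _
  simp [kd, rz, rzW, Fin.sum_univ_three]
  linear_combination ((k 0 : ℂ) * a 0 + (k 1 : ℂ) * a 1) * h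

end H706N.JHV1

namespace H706N

alias norm_dt := JHV1.norm_dt
alias norm_cj := JHV1.norm_cj
alias cj_cj := JHV1.cj_cj
alias cj_add := JHV1.cj_add
alias cj_smul := JHV1.cj_smul
alias cj_toW := JHV1.cj_toW
alias dt_cj := JHV1.dt_cj
alias dt_comm := JHV1.dt_comm
alias dt_add := JHV1.dt_add
alias dt_smul := JHV1.dt_smul
alias dt_toW := JHV1.dt_toW
alias kd_cj := JHV1.kd_cj
alias kd_neg := JHV1.kd_neg
alias cu_herm := JHV1.cu_herm
alias kd_cu := JHV1.kd_cu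
alias norm_cu := JHV1.norm_cu
alias dt_cu := JHV1.dt_cu
alias dt_rzW := JHV1.dt_rzW
alias kd_rz := JHV1.kd_rz

end H706N
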