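import Pool.Agent.Helper706_NS.Defs4
import Pool.Agent.Helper706_NS.A1
import Pool.Agent.Helper706_NS.A2
import Pool.Agent.Helper706_NS.HV1

set_option autoImplicit false
open Set Filter Topology MeasureTheory
open scoped ComplexConjugate ContDiff

namespace H706N.JH1

theorem TD.kd_eq_inner (k : E) (c : W) : kd k c = inner ℂ (toW k) c := by
  rw [kd, toW, PiLp.inner_apply]
  refine Finset.sum_congr rfl fun j _ => ?_
  simp [mul_comm]

theorem TD.O_meas {M : E → E → W → W → W} (hM : Sym M) {g h : E → W} (hg : Adm g) (hh : Adm h) :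
    Measurable fun z : E × E => M (z.1 - z.2) z.2 (g (z.1 - z.2)) (h z.2) := by
  have h1 := hM.meas g h hg.meas hh.meas
  have h2 : Measurable fun z : E × E => (z.1 - z.2, z.2) :=
    (measurable_fst.sub measurable_snd).prodMk measurable_snd
  exact h1.comp h2

theorem TD.O_norm {M : E → E → W → W → W} {C : ℝ} (hC : Bdd C M) {g h : E → W} (hg : Adm g)
    (k q : E) :
    ‖M (k - q) q (g (k - q)) (h q)‖ ≤ C * (‖g (k - q)‖ * ((1 + ‖q‖) * ‖h q‖)) := by
  have h1 := hC.2 (k - q) q (g (k - q)) (h q) (hg.divf (k - q))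
  have h0 := hC.1
  have h2 : min ‖q‖ ‖k - q + q‖ ≤ 1 + ‖q‖ := (min_le_left _ _).trans (by linarith)
  refine h1.trans ?_
  have h3 := norm_nonneg (h q)
  have h4 := norm_nonneg (g (k - q))
  calc C * min ‖q‖ ‖k - q + q‖ * (‖g (k - q)‖ * ‖h q‖)
      ≤ C * (1 + ‖q‖) * (‖g (k - q)‖ * ‖h q‖) := by gcongr
    _ = _ := by ring

theorem TD.adm_bound {g : E → W} (hg : Adm g) : ∃ C : ℝ, 0 ≤ C ∧ ∀ k, ‖g k‖ ≤ C := by
  obtain ⟨C, hC⟩ := hg.dec 0
  refine ⟨C, ?_, fun k => by simpa using hC k⟩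
  exact le_trans (norm_nonneg _) (by simpa using hC 0)

/-- TARGET -/
theorem op_int {M : E → E → W → W → W} {C : ℝ} (hM : Sym M) (hC : Bdd C M) {g h : E → W}
    (hg : Adm g) (hh : Adm h) (k : E) : Integrable fun q : E => M (k - q) q (g (k - q)) (h q) := by
  obtain ⟨A, hA0, hA⟩ := TD.adm_bound hg
  obtain ⟨D, hD⟩ := hh.dec 5
  have hB0 := hC.1
  refine int_dec (C := C * (A * D)) ?_ fun η => ?_
  · have h1 := TD.O_meas hM hg hh
    exact (h1.comp (measurable_const.prodMk measurable_id :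
      Measurable fun η : E => (k, η))).aestronglyMeasurable
  · have h1 := TD.O_norm (h := h) hC hg k η
    have h2 := hA (k - η)
    have h3 := hD η
    have h4 := norm_nonneg η
    have h5 := norm_nonneg (h η)
    have h6 := norm_nonneg (g (k - η))
    calc (1 + ‖η‖) ^ 4 * ‖M (k - η) η (g (k - η)) (h η)‖
        ≤ (1 + ‖η‖) ^ 4 * (C * (‖g (k - η)‖ * ((1 + ‖η‖) * ‖h η‖))) := by gcongr
      _ = C * (‖g (k - η)‖ * ((1 + ‖η‖) ^ 5 * ‖h η‖)) := by ring
      _ ≤ C * (A * ((1 + ‖η‖) ^ 5 * ‖h η‖)) := by gcongr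
      _ ≤ C * (A * D) := by gcongr

theorem TD.w_int : Integrable fun η : E => ((1 + ‖η‖) ^ 4)⁻¹ := by
  refine int_dec (C := 1) ?_ fun η => ?_
  · refine Continuous.aestronglyMeasurable ?_
    refine Continuous.inv₀ (by fun_prop) fun η => ?_
    positivity
  · have h4 : 0 < (1 + ‖η‖) ^ 4 := by positivity
    rw [Real.norm_eq_abs, abs_of_pos (inv_pos.2 h4), mul_inv_cancel₀ h4.ne']

theorem TD.op_bdd' {M : E → E → W → W → W} {B : ℝ} (hM : Sym M) (hB : Bdd B M) {g h : E → W}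
    (hg : Adm g) (hh : Adm h) (n : ℕ)
    {C D : ℝ} (hC : ∀ k, (1 + ‖k‖) ^ n * ‖g k‖ ≤ C) (hD : ∀ k, (1 + ‖k‖) ^ (n + 5) * ‖h k‖ ≤ D)
    (k : E) :
    (1 + ‖k‖) ^ n * ‖op M g h k‖ ≤ (B * ∫ η : E, ((1 + ‖η‖) ^ 4)⁻¹) * C * D := by
  have hB0 := hB.1
  have hC0 : 0 ≤ C := le_trans (by positivity) (hC 0)
  have hD0 : 0 ≤ D := le_trans (by positivity) (hD 0)
  have hk := norm_nonneg k
  have h1 : ‖op M g h k‖ ≤ ∫ η, ‖M (k - η) η (g (k - η)) (h η)‖ :=
    norm_integral_le_integral_norm _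
  have h2 : (1 + ‖k‖) ^ n * ‖op M g h k‖ ≤
      ∫ η, (1 + ‖k‖) ^ n * ‖M (k - η) η (g (k - η)) (h η)‖ := by
    rw [integral_const_mul]
    gcongr
  refine h2.trans ?_
  have h3 : (B * ∫ η : E, ((1 + ‖η‖) ^ 4)⁻¹) * C * D =
      ∫ η : E, ((1 + ‖η‖) ^ 4)⁻¹ * (B * (C * D)) := by
    rw [integral_mul_const]
    ring
  rw [h3]
  refine integral_mono ((op_int hM hB hg hh k).norm.const_mul _) (TD.w_int.mul_const _) fun η => ?_
  have h4 := TD.O_norm (h := h) hB hg k η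
  have hη := norm_nonneg η
  have h5 : 1 + ‖k‖ ≤ (1 + ‖k - η‖) * (1 + ‖η‖) := by
    have : ‖k‖ ≤ ‖k - η‖ + ‖η‖ := by
      have := norm_add_le (k - η) η
      simpa using this
    nlinarith [norm_nonneg (k - η), norm_nonneg η, mul_nonneg (norm_nonneg (k - η)) (norm_nonneg η)]
  have h6 : (1 + ‖k‖) ^ n ≤ (1 + ‖k - η‖) ^ n * (1 + ‖η‖) ^ n := by
    rw [← mul_pow]
    exact pow_le_pow_left₀ (by positivity) h5 n
  have h7 := hC (k - η)
  have h8 := hD η
  have h9 : 0 < (1 + ‖η‖) ^ 4 := by positivity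
  change (1 + ‖k‖) ^ n * ‖M (k - η) η (g (k - η)) (h η)‖ ≤ ((1 + ‖η‖) ^ 4)⁻¹ * (B * (C * D))
  rw [inv_mul_eq_div, le_div_iff₀ h9]
  calc (1 + ‖k‖) ^ n * ‖M (k - η) η (g (k - η)) (h η)‖ * (1 + ‖η‖) ^ 4
      ≤ ((1 + ‖k - η‖) ^ n * (1 + ‖η‖) ^ n) *
          (B * (‖g (k - η)‖ * ((1 + ‖η‖) * ‖h η‖))) * (1 + ‖η‖) ^ 4 := by
        gcongr
    _ = B * (((1 + ‖k - η‖) ^ n * ‖g (k - η)‖) * ((1 + ‖η‖) ^ (n + 5) * ‖h η‖)) := by ring
    _ ≤ B * (C * D) := by gcongr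

theorem TD.adm_neg {g : E → W} (hg : Adm g) (k : E) : g (-k) = cj (g k) := by
  ext j
  rw [hg.herm k j]
  rfl

theorem TD.int_apply {f : E → W} (hf : Integrable f) (j : Fin 3) :
    (∫ q, f q) j = ∫ q, f q j :=
  ((EuclideanSpace.proj j : W →L[ℂ] ℂ).integral_comp_comm hf).symm

/-- TARGET -/
theorem adm_op {M : E → E → W → W → W} {C : ℝ} (hM : Sym M) (hC : Bdd C M) {g h : E → W}
    (hg : Adm g) (hh : Adm h) : Adm (op M g h) where
  meas := by
    have h1 := (TD.O_meas hM hg hh).stronglyMeasurable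
    have h2 := h1.integral_prod_right' (ν := (volume : Measure E))
    exact h2.measurable
  dec := fun n => by
    obtain ⟨A, hA⟩ := hg.dec n
    obtain ⟨D, hD⟩ := hh.dec (n + 5)
    exact ⟨_, TD.op_bdd' hM hC hg hh n hA hD⟩
  herm := fun k j => by
    unfold op
    rw [TD.int_apply (op_int hM hC hg hh (-k)), TD.int_apply (op_int hM hC hg hh k),
      ← integral_conj, ← integral_neg_eq_self]
    refine integral_congr_ae (Filter.Eventually.of_forall fun q => ?_)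
    change M (-k - -q) (-q) (g (-k - -q)) (h (-q)) j = conj (M (k - q) q (g (k - q)) (h q) j)
    rw [show -k - -q = -(k - q) by abel, TD.adm_neg hg, TD.adm_neg hh, hM.herm]
    rfl
  divf := fun k => by
    rw [TD.kd_eq_inner]
    unfold op
    have h1 := (innerSL ℂ (toW k)).integral_comp_comm (op_int hM hC hg hh k)
    have h2 : (∫ q, inner ℂ (toW k) (M (k - q) q (g (k - q)) (h q))) =
        inner ℂ (toW k) (∫ q, M (k - q) q (g (k - q)) (h q)) := h1
    rw [← h2]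
    have h3 : ∀ q, inner ℂ (toW k) (M (k - q) q (g (k - q)) (h q)) = 0 := fun q => by
      rw [← TD.kd_eq_inner]
      have h4 := hM.divf (k - q) q (g (k - q)) (h q)
      rwa [sub_add_cancel] at h4
    simp [h3]

/-- TARGET -/
theorem op_bdd {M : E → E → W → W → W} {C₀ : ℝ} (hM : Sym M) (hC : Bdd C₀ M) (n : ℕ) : ∃ K : ℝ,
    ∀ g h : E → W, Adm g → Adm h →
    ∀ C D : ℝ, (∀ k, (1 + ‖k‖) ^ (n + 5) * ‖g k‖ ≤ C) → (∀ k, (1 + ‖k‖) ^ (n + 5) * ‖h k‖ ≤ D) →
      ∀ k, (1 + ‖k‖) ^ n * ‖op M g h k‖ ≤ K * C * D := by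
  refine ⟨C₀ * ∫ η : E, ((1 + ‖η‖) ^ 4)⁻¹, fun g h hg hh A D hA hD k => ?_⟩
  have hA' : ∀ k, (1 + ‖k‖) ^ n * ‖g k‖ ≤ A := fun k => by
    refine le_trans ?_ (hA k)
    have : (1 + ‖k‖) ^ n ≤ (1 + ‖k‖) ^ (n + 5) :=
      pow_le_pow_right₀ (by linarith [norm_nonneg k]) (by omega)
    gcongr
  exact TD.op_bdd' hM hC hg hh n hA' hD k

/-- TARGET -/
theorem op_lin₁ {M : E → E → W → W → W} {C : ℝ} (hM : Sym M) (hC : Bdd C M) {g g' h : E → W}
    (hg : Adm g) (hg' : Adm g') (hh : Adm h) (c : ℝ) : op M (g + c • g') h = op M g h + c • op M g' h := by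
  funext k
  change op M (g + c • g') h k = op M g h k + (c : ℂ) • op M g' h k
  unfold op
  have hs : Integrable fun q : E => (c : ℂ) • M (k - q) q (g' (k - q)) (h q) :=
    (op_int hM hC hg' hh k).smul (c : ℂ)
  rw [← integral_smul, ← integral_add (op_int hM hC hg hh k) hs]
  refine integral_congr_ae (Filter.Eventually.of_forall fun η => ?_)
  exact hM.lin₁ (k - η) η (c : ℂ) (g (k - η)) (g' (k - η)) (h η)

/-- TARGET -/
theorem op_lin₂ {M : E → E → W → W → W} {C : ℝ} (hM : Sym M) (hC : Bdd C M) {g h h' : E → W}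
    (hg : Adm g) (hh : Adm h) (hh' : Adm h') (c : ℝ) : op M g (h + c • h') = op M g h + c • op M g h' := by
  funext k
  change op M g (h + c • h') k = op M g h k + (c : ℂ) • op M g h' k
  unfold op
  have hs : Integrable fun q : E => (c : ℂ) • M (k - q) q (g (k - q)) (h' q) :=
    (op_int hM hC hg hh' k).smul (c : ℂ)
  rw [← integral_smul, ← integral_add (op_int hM hC hg hh k) hs]
  refine integral_congr_ae (Filter.Eventually.of_forall fun η => ?_)
  exact hM.lin₂ (k - η) η (c : ℂ) (g (k - η)) (h η) (h' η)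

end H706N.JH1

namespace H706N

alias op_int := JH1.op_int
alias adm_op := JH1.adm_op
alias op_bdd := JH1.op_bdd
alias op_lin₁ := JH1.op_lin₁
alias op_lin₂ := JH1.op_lin₂

end H706N
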