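import Pool.Agent.Helper706_NS.Defs4
import Pool.Agent.Helper706_NS.A1
import Pool.Agent.Helper706_NS.A2
import Pool.Agent.Helper706_NS.HV1
import Pool.Agent.Helper706_NS.H1

set_option autoImplicit false
open Set Filter Topology MeasureTheory
open scoped ComplexConjugate ContDiff

namespace H706N.JH4

theorem cu_cont : Continuous (fun z : E × W => cu z.1 z.2) := by
  have h1 : ∀ i : Fin 3, Continuous fun z : E × W => z.1 i := fun i => by fun_prop
  have h2 : ∀ i : Fin 3, Continuous fun z : E × W => z.2 i := fun i => by fun_prop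
  have h3 : ∀ i : Fin 3, Continuous fun z : E × W => ((z.1 i : ℝ) : ℂ) := fun i =>
    Complex.continuous_ofReal.comp (h1 i)
  have h : Continuous fun z : E × W => crw (toW z.1) z.2 := by
    unfold crw toW
    refine (PiLp.continuous_toLp 2 (fun _ : Fin 3 => ℂ)).comp (continuous_pi fun i => ?_)
    fin_cases i
    · exact ((h3 1).mul (h2 2)).sub ((h3 2).mul (h2 1))
    · exact ((h3 2).mul (h2 0)).sub ((h3 0).mul (h2 2))
    · exact ((h3 0).mul (h2 1)).sub ((h3 1).mul (h2 0))
  exact h.const_smul Complex.I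

theorem dt_cont : Continuous (fun z : W × W => dt z.1 z.2) := by
  unfold dt
  fun_prop

/-- The integrand in the helicity. -/
noncomputable def XX (M : E → E → W → W → W) (g : E → W) (z : E × E) : ℝ :=
  (dt (M z.1 z.2 (g z.1) (g z.2)) (cu (-(z.1 + z.2)) (g (-(z.1 + z.2))))).re

theorem XX_meas {M : E → E → W → W → W} (hM : Sym M) {g : E → W} (hg : Adm g) :
    Measurable (XX M g) := by
  have h1 : Measurable fun z : E × E => M z.1 z.2 (g z.1) (g z.2) :=
    hM.meas g g hg.meas hg.meas
  have h0 : Measurable fun z : E × E => -(z.1 + z.2) := by fun_prop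
  have h5 : Measurable fun z : E × W => cu z.1 z.2 := cu_cont.measurable
  have h2 : Measurable fun z : E × E => cu (-(z.1 + z.2)) (g (-(z.1 + z.2))) := by
    have h7 : Measurable fun z : E × E => g (-(z.1 + z.2)) := hg.meas.comp h0
    have h6 : Measurable fun z : E × E => ((-(z.1 + z.2), g (-(z.1 + z.2))) : E × W) :=
      h0.prodMk h7
    have h8 := h5.comp h6
    simpa only [Function.comp_def] using h8
  have h3 : Measurable fun z : E × E => ((M z.1 z.2 (g z.1) (g z.2),
      cu (-(z.1 + z.2)) (g (-(z.1 + z.2)))) : W × W) := h1.prodMk h2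
  have h4 : Measurable fun w : W × W => (dt w.1 w.2).re :=
    (Complex.continuous_re.comp dt_cont).measurable
  have h9 := h4.comp h3
  have e : XX M g = fun z : E × E =>
    (dt (M z.1 z.2 (g z.1) (g z.2)) (cu (-(z.1 + z.2)) (g (-(z.1 + z.2))))).re := rfl
  rw [e]
  simpa only [Function.comp_def] using h9

theorem XX_int {M : E → E → W → W → W} {C : ℝ} (hM : Sym M) (hC : Bdd C M) {g : E → W}
    (hg : Adm g) : Integrable (XX M g) ((volume : Measure E).prod (volume : Measure E)) := by
  obtain ⟨C₁, hC₁⟩ := hg.dec 1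
  have hC₁0 : 0 ≤ C₁ := le_trans (by positivity) (hC₁ 0)
  have hb : Integrable (fun z : E × E => (2 * C * C₁) * (‖g z.1‖ * ((1 + ‖z.2‖) ^ 1 * ‖g z.2‖)))
      ((volume : Measure E).prod (volume : Measure E)) :=
    (hg.int.norm.mul_prod (hg.int_pow 1)).const_mul _
  refine hb.mono' (XX_meas hM hg).aestronglyMeasurable (Filter.Eventually.of_forall fun z => ?_)
  obtain ⟨p, q⟩ := z
  unfold XX
  simp only
  have hC0 := hC.1
  have h1 : ‖M p q (g p) (g q)‖ ≤ C * ‖q‖ * (‖g p‖ * ‖g q‖) := by
    refine (hC.2 p q (g p) (g q) (hg.divf p)).trans ?_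
    have := min_le_left ‖q‖ ‖p + q‖
    gcongr
  have h2 : ‖cu (-(p + q)) (g (-(p + q)))‖ ≤ 2 * C₁ := by
    refine (norm_cu _ _).trans ?_
    have h3 := hC₁ (-(p + q))
    rw [pow_one] at h3
    have h4 := norm_nonneg (g (-(p + q)))
    nlinarith
  calc ‖(dt (M p q (g p) (g q)) (cu (-(p + q)) (g (-(p + q))))).re‖
      ≤ ‖dt (M p q (g p) (g q)) (cu (-(p + q)) (g (-(p + q))))‖ := Complex.abs_re_le_norm _
    _ ≤ ‖M p q (g p) (g q)‖ * ‖cu (-(p + q)) (g (-(p + q)))‖ := norm_dt _ _
    _ ≤ (C * ‖q‖ * (‖g p‖ * ‖g q‖)) * (2 * C₁) := by gcongr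
    _ ≤ 2 * C * C₁ * (‖g p‖ * ((1 + ‖q‖) ^ 1 * ‖g q‖)) := by
      rw [pow_one]
      have e : C * ‖q‖ * (‖g p‖ * ‖g q‖) * (2 * C₁) = 2 * C * C₁ * (‖g p‖ * (‖q‖ * ‖g q‖)) := by ring
      rw [e]
      gcongr
      linarith

theorem mp_int {ψ : E × E → E × E} (hψ : MeasurePreserving ψ
    ((volume : Measure E).prod (volume : Measure E))
    ((volume : Measure E).prod (volume : Measure E))) {f : E × E → ℝ} (hf : Measurable f) :
    ∫ z, f (ψ z) ∂((volume : Measure E).prod (volume : Measure E)) =
      ∫ z, f z ∂((volume : Measure E).prod (volume : Measure E)) := by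
  conv_rhs => rw [← hψ.map_eq]
  rw [integral_map hψ.measurable.aemeasurable hf.aestronglyMeasurable]

theorem mp_tau : MeasurePreserving (fun z : E × E => (z.2, -(z.2 + z.1)))
    ((volume : Measure E).prod (volume : Measure E))
    ((volume : Measure E).prod (volume : Measure E)) := by
  have h1 := measurePreserving_prod_add_swap (volume : Measure E) (volume : Measure E)
  have h2 := (MeasurePreserving.id (volume : Measure E)).prod
    (Measure.measurePreserving_neg (volume : Measure E))
  exact h2.comp h1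

theorem g_neg {g : E → W} (hg : Adm g) (k : E) : g (-k) = cj (g k) := by
  ext j
  rw [hg.herm]
  rfl

theorem inner_re_eq (x y : W) : (inner ℂ x y).re = (dt x (cj y)).re := by
  unfold dt cj
  rw [PiLp.inner_apply, Complex.re_sum, Complex.re_sum]
  refine Finset.sum_congr rfl fun j _ => ?_
  simp only [RCLike.inner_apply, Complex.mul_re, Complex.conj_re, Complex.conj_im]
  ring

theorem XX_hel {M : E → E → W → W → W} (hM : Sym M) {g : E → W} (hg : Adm g) (p q : E) :
    XX M g (p, q) + XX M g (q, p) + (XX M g (q, -(p + q)) + XX M g (-(p + q), q)) +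
      (XX M g (-(p + q), p) + XX M g (p, -(p + q))) = 0 := by
  have h := hM.hel p q (g p) (g q) (g (-(p + q))) (hg.divf p) (hg.divf q) (by
    have h1 := hg.divf (-(p + q))
    rw [kd_neg] at h1
    exact neg_eq_zero.1 h1)
  have hl : ∀ x y z : W, dt (x + y) z = dt x z + dt y z := by
    intro x y z
    rw [dt_comm, dt_add, dt_comm z x, dt_comm z y]
  rw [hl, hl, hl] at h
  have h2 := congrArg Complex.re h
  simp only [Complex.add_re, Complex.zero_re] at h2
  unfold XX
  simp only
  have e1 : -(q + p) = -(p + q) := by abel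
  have e2 : -(q + -(p + q)) = p := by abel
  have e3 : -(-(p + q) + q) = p := by abel
  have e4 : -(-(p + q) + p) = q := by abel
  have e5 : -(p + -(p + q)) = q := by abel
  rw [e1, e2, e3, e4, e5]
  linarith

theorem XX_zero {M : E → E → W → W → W} {C : ℝ} (hM : Sym M) (hC : Bdd C M) {g : E → W}
    (hg : Adm g) :
    ∫ z, XX M g z ∂((volume : Measure E).prod (volume : Measure E)) = 0 := by
  set μ := (volume : Measure E).prod (volume : Measure E) with hμ
  have hI := XX_int hM hC hg
  have hm := XX_meas hM hg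
  have hswap : MeasurePreserving (Prod.swap : E × E → E × E) μ μ := Measure.measurePreserving_swap
  set Z : E × E → ℝ := fun z => XX M g z + XX M g z.swap with hZ
  have hI2 : Integrable (fun z : E × E => XX M g z.swap) μ := hswap.integrable_comp_of_integrable hI
  have hZm : Measurable Z := hm.add (hm.comp measurable_swap)
  have hZI : Integrable Z μ := hI.add hI2
  have hZ1 : ∫ z, Z z ∂μ = 2 * ∫ z, XX M g z ∂μ := by
    rw [hZ, integral_add hI hI2, mp_int hswap hm]
    ring
  have ht := mp_tau
  rw [← hμ] at ht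
  have hτ1 : ∫ z : E × E, Z (z.2, -(z.2 + z.1)) ∂μ = ∫ z, Z z ∂μ := mp_int ht hZm
  have hZI1 : Integrable (fun z : E × E => Z (z.2, -(z.2 + z.1))) μ :=
    ht.integrable_comp_of_integrable hZI
  have hm1 : Measurable (fun z : E × E => Z (z.2, -(z.2 + z.1))) := hZm.comp ht.measurable
  have hτ2 : ∫ z : E × E, Z (-(z.2 + z.1), -(-(z.2 + z.1) + z.2)) ∂μ = ∫ z, Z z ∂μ := by
    rw [← hτ1]
    exact mp_int ht hm1
  have hZI2 : Integrable (fun z : E × E => Z (-(z.2 + z.1), -(-(z.2 + z.1) + z.2))) μ :=
    ht.integrable_comp_of_integrable hZI1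
  have hsum : ∫ z : E × E, (Z z + Z (z.2, -(z.2 + z.1)) + Z (-(z.2 + z.1), -(-(z.2 + z.1) + z.2))) ∂μ
      = 0 := by
    have : (fun z : E × E => Z z + Z (z.2, -(z.2 + z.1)) +
        Z (-(z.2 + z.1), -(-(z.2 + z.1) + z.2))) = fun _ => 0 := by
      funext z
      obtain ⟨p, q⟩ := z
      have h := XX_hel hM hg p q
      simp only [hZ, Prod.swap_prod_mk]
      have e1 : -(q + p) = -(p + q) := by abel
      have e2 : -(-(p + q) + q) = p := by abel
      rw [e1, e2]
      linarith
    rw [this, integral_zero]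
  have hs1 : Integrable (fun z : E × E => Z z + Z (z.2, -(z.2 + z.1))) μ := hZI.add hZI1
  rw [integral_add hs1 hZI2, integral_add hZI hZI1, hτ1, hτ2, hZ1] at hsum
  linarith

/-- TARGET -/
theorem op_hel {M : E → E → W → W → W} {C : ℝ} (hM : Sym M) (hC : Bdd C M) {g : E → W}
    (hg : Adm g) : pr (op M g g) (crl g) = 0 := by
  have hψ : MeasurePreserving (fun z : E × E => (z.1 - z.2, z.2))
      ((volume : Measure E).prod (volume : Measure E))
      ((volume : Measure E).prod (volume : Measure E)) :=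
    measurePreserving_sub_prod (volume : Measure E) (volume : Measure E)
  have hI := XX_int hM hC hg
  have hm := XX_meas hM hg
  have hpt : ∀ k : E, (inner ℂ (op M g g k) (crl g k)).re = ∫ q : E, XX M g (k - q, q) := by
    intro k
    have hV := op_int hM hC hg hg k
    have h1 : (inner ℂ (op M g g k) (crl g k)).re = (inner ℂ (crl g k) (op M g g k)).re := by
      rw [← inner_conj_symm, Complex.conj_re]
    have h2 : inner ℂ (crl g k) (op M g g k) =
        ∫ q : E, inner ℂ (crl g k) (M (k - q) q (g (k - q)) (g q)) :=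
      (integral_inner hV (crl g k)).symm
    have h3 : (∫ q : E, inner ℂ (crl g k) (M (k - q) q (g (k - q)) (g q))).re =
        ∫ q : E, (inner ℂ (crl g k) (M (k - q) q (g (k - q)) (g q))).re :=
      (integral_re (hV.const_inner (𝕜 := ℂ) (crl g k))).symm
    rw [h1, h2, h3]
    refine integral_congr_ae (Filter.Eventually.of_forall fun q => ?_)
    simp only
    have h4 : (inner ℂ (crl g k) (M (k - q) q (g (k - q)) (g q))).re =
        (inner ℂ (M (k - q) q (g (k - q)) (g q)) (crl g k)).re := by
      rw [← inner_conj_symm, Complex.conj_re]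
    rw [h4, inner_re_eq]
    unfold XX crl
    simp only
    rw [sub_add_cancel, g_neg hg, cu_herm]
  unfold pr
  rw [integral_congr_ae (Filter.Eventually.of_forall hpt)]
  have hIψ : Integrable (fun z : E × E => XX M g (z.1 - z.2, z.2))
      ((volume : Measure E).prod (volume : Measure E)) := hψ.integrable_comp_of_integrable hI
  rw [← integral_prod (fun z : E × E => XX M g (z.1 - z.2, z.2)) hIψ, mp_int hψ hm]
  exact XX_zero hM hC hg

end H706N.JH4

namespace H706N

alias op_hel := JH4.op_hel

end H706N
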