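import Pool.Agent.Helper706_NS.Defs3

set_option autoImplicit false
open Set Filter Topology MeasureTheory
open scoped ComplexConjugate ContDiff

namespace H706N.JTC

theorem aux_vt0 (k : E) : vt k 0 = (Real.sqrt (k 0 ^ 2 + k 1 ^ 2))⁻¹ * (-k 1) := by
  simp [vt]

theorem aux_vt1 (k : E) : vt k 1 = (Real.sqrt (k 0 ^ 2 + k 1 ^ 2))⁻¹ * k 0 := by
  simp [vt]

theorem aux_vt2 (k : E) : vt k 2 = 0 := by
  simp [vt]

theorem aux_norm_sq (k : E) : ‖k‖ ^ 2 = k 0 ^ 2 + k 1 ^ 2 + k 2 ^ 2 := by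
  rw [EuclideanSpace.norm_eq, Real.sq_sqrt (by positivity), Fin.sum_univ_three]
  simp [Real.norm_eq_abs, sq_abs]

theorem aux_vt_sq {k : E} (hk : k 0 ^ 2 + k 1 ^ 2 ≠ 0) : ‖vt k‖ ^ 2 = 1 := by
  rw [aux_norm_sq, aux_vt0, aux_vt1, aux_vt2]
  have h : 0 < k 0 ^ 2 + k 1 ^ 2 := lt_of_le_of_ne (by positivity) (Ne.symm hk)
  have hs := Real.sq_sqrt h.le
  have hs0 : Real.sqrt (k 0 ^ 2 + k 1 ^ 2) ≠ 0 := (Real.sqrt_pos.2 h).ne'
  field_simp
  rw [hs]
  ring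

theorem aux_vt_zero {k : E} (hk : k 0 ^ 2 + k 1 ^ 2 = 0) : vt k = 0 := by
  rw [vt, hk]
  simp

/-- TARGET -/
theorem vt_norm (k : E) : ‖vt k‖ ≤ 1 := by
  by_cases hk : k 0 ^ 2 + k 1 ^ 2 = 0
  · rw [aux_vt_zero hk, norm_zero]
    exact zero_le_one
  · have h := aux_vt_sq hk
    nlinarith [norm_nonneg (vt k)]

/-- TARGET -/
theorem vt_unit {k : E} (hk : k 0 ^ 2 + k 1 ^ 2 ≠ 0) : ‖vt k‖ = 1 := by
  have h := aux_vt_sq hk
  have h1 := norm_nonneg (vt k)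
  nlinarith

/-- TARGET -/
theorem vt_neg (k : E) : vt (-k) = -vt k := by
  ext i
  fin_cases i
  · simp [vt]
  · simp [vt]
  · simp [vt]

/-- TARGET -/
theorem vt_smul {r : ℝ} (hr : 0 < r) (k : E) : vt (r • k) = vt k := by
  have h1 : Real.sqrt ((r * k 0) ^ 2 + (r * k 1) ^ 2) = r * Real.sqrt (k 0 ^ 2 + k 1 ^ 2) := by
    have : (r * k 0) ^ 2 + (r * k 1) ^ 2 = r ^ 2 * (k 0 ^ 2 + k 1 ^ 2) := by ring
    rw [this, Real.sqrt_mul (by positivity), Real.sqrt_sq hr.le]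
  have h2 : ∀ a : ℝ, (r * Real.sqrt (k 0 ^ 2 + k 1 ^ 2))⁻¹ * (r * a)
      = (Real.sqrt (k 0 ^ 2 + k 1 ^ 2))⁻¹ * a := by
    intro a
    rw [mul_inv]
    field_simp
  ext i
  fin_cases i
  · change vt (r • k) 0 = vt k 0
    rw [aux_vt0, aux_vt0]
    simp only [PiLp.smul_apply, smul_eq_mul]
    rw [h1, ← mul_neg, h2]
  · change vt (r • k) 1 = vt k 1
    rw [aux_vt1, aux_vt1]
    simp only [PiLp.smul_apply, smul_eq_mul]
    rw [h1, h2]
  · change vt (r • k) 2 = vt k 2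
    rw [aux_vt2, aux_vt2]

/-- TARGET -/
theorem vt_meas : Measurable vt := by
  have h0 : ∀ i : Fin 3, Measurable fun k : E => k i := fun i => by fun_prop
  have hs : Measurable fun k : E => (Real.sqrt (k 0 ^ 2 + k 1 ^ 2))⁻¹ := by
    have a0 := h0 0
    have a1 := h0 1
    fun_prop
  have hv : Measurable fun k : E => (!₂[-k 1, k 0, 0] : E) := by
    have : Measurable fun k : E => (![-k 1, k 0, 0] : Fin 3 → ℝ) := by
      rw [measurable_pi_iff]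
      intro i
      fin_cases i
      · exact (h0 1).neg
      · exact h0 0
      · exact measurable_const
    exact (WithLp.measurable_toLp 2 (Fin 3 → ℝ)).comp this
  exact hs.smul hv

/-- TARGET -/
theorem kd_vt (k : E) : kd k (toW (vt k)) = 0 := by
  simp only [kd, toW, Fin.sum_univ_three]
  rw [aux_vt0, aux_vt1, aux_vt2]
  push_cast
  ring

/-- TARGET -/
theorem kd_vt_toW (k : E) : kd (vt k) (toW (vt k)) = ((‖vt k‖ ^ 2 : ℝ) : ℂ) := by
  rw [aux_norm_sq]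
  simp only [kd, toW, Fin.sum_univ_three]
  push_cast
  ring

/-- TARGET -/
theorem norm_toW (k : E) : ‖toW k‖ = ‖k‖ := by
  rw [EuclideanSpace.norm_eq, EuclideanSpace.norm_eq]
  congr 1
  refine Finset.sum_congr rfl fun i _ => ?_
  simp [toW]

/-- TARGET -/
theorem rz_norm (θ : ℝ) (k : E) : ‖rz θ k‖ = ‖k‖ := by
  have h : ‖rz θ k‖ ^ 2 = ‖k‖ ^ 2 := by
    rw [aux_norm_sq, aux_norm_sq]
    simp only [rz]
    simp only [PiLp.toLp_apply, Matrix.cons_val_zero, Matrix.cons_val_one, Matrix.cons_val]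
    have := Real.sin_sq_add_cos_sq θ
    nlinarith [this]
  have h1 := norm_nonneg (rz θ k)
  have h2 := norm_nonneg k
  exact (pow_left_inj₀ h1 h2 two_ne_zero).1 h

/-- TARGET -/
theorem vt_rz (θ : ℝ) (k : E) : vt (rz θ k) = rz θ (vt k) := by
  have e0 : rz θ k 0 = Real.cos θ * k 0 - Real.sin θ * k 1 := by simp [rz]
  have e1 : rz θ k 1 = Real.sin θ * k 0 + Real.cos θ * k 1 := by simp [rz]
  have hs : (rz θ k 0) ^ 2 + (rz θ k 1) ^ 2 = k 0 ^ 2 + k 1 ^ 2 := by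
    rw [e0, e1]
    have := Real.sin_sq_add_cos_sq θ
    have h2 : Real.sin θ ^ 2 = 1 - Real.cos θ ^ 2 := by linarith
    ring_nf
    rw [h2]
    ring
  have r0 : ∀ v : E, rz θ v 0 = Real.cos θ * v 0 - Real.sin θ * v 1 := fun v => by simp [rz]
  have r1 : ∀ v : E, rz θ v 1 = Real.sin θ * v 0 + Real.cos θ * v 1 := fun v => by simp [rz]
  have r2 : ∀ v : E, rz θ v 2 = v 2 := fun v => by simp [rz]
  ext i
  fin_cases i
  · change vt (rz θ k) 0 = rz θ (vt k) 0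
    rw [aux_vt0, r0 (vt k), aux_vt0, aux_vt1, hs, e1]
    ring
  · change vt (rz θ k) 1 = rz θ (vt k) 1
    rw [aux_vt1, r1 (vt k), aux_vt0, aux_vt1, hs, e0]
    ring
  · change vt (rz θ k) 2 = rz θ (vt k) 2
    rw [aux_vt2, r2 (vt k), aux_vt2]

end H706N.JTC

namespace H706N

alias vt_norm := JTC.vt_norm
alias vt_unit := JTC.vt_unit
alias vt_neg := JTC.vt_neg
alias vt_smul := JTC.vt_smul
alias vt_meas := JTC.vt_meas
alias kd_vt := JTC.kd_vt
alias kd_vt_toW := JTC.kd_vt_toW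
alias norm_toW := JTC.norm_toW
alias rz_norm := JTC.rz_norm
alias vt_rz := JTC.vt_rz

end H706N
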