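import Pool.Agent.Helper706_NS.Defs4
import Pool.Agent.Helper706_NS.A2
import Pool.Agent.Helper706_NS.HV1
import Pool.Agent.Helper706_NS.TC

set_option autoImplicit false
open Set Filter Topology MeasureTheory
open scoped ComplexConjugate ContDiff

namespace H706N.JH6

section Aux

theorem x_kd (k : E) (c : W) : kd k c = (k 0 : ℂ) * c 0 + (k 1 : ℂ) * c 1 + (k 2 : ℂ) * c 2 := by
  simp [kd, Fin.sum_univ_three]

theorem x_dt (a b : W) : dt a b = a 0 * b 0 + a 1 * b 1 + a 2 * b 2 := by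
  simp [dt, Fin.sum_univ_three]

theorem x_kd_add (k : E) (a b : W) : kd k (a + b) = kd k a + kd k b := by
  simp only [x_kd, PiLp.add_apply]; ring

theorem x_kd_smul (k : E) (z : ℂ) (a : W) : kd k (z • a) = z * kd k a := by
  simp only [x_kd, PiLp.smul_apply, smul_eq_mul]; ring

theorem x_kd_sub (k : E) (a b : W) : kd k (a - b) = kd k a - kd k b := by
  simp only [x_kd, PiLp.sub_apply]; ring

theorem x_kd_add_left (k l : E) (a : W) : kd (k + l) a = kd k a + kd l a := by
  simp only [x_kd, PiLp.add_apply, Complex.ofReal_add]; ring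

theorem x_kd_smul_left (r : ℝ) (k : E) (a : W) : kd (r • k) a = r * kd k a := by
  simp only [x_kd, PiLp.smul_apply, smul_eq_mul, Complex.ofReal_mul]; ring

theorem x_toW_apply (k : E) (i : Fin 3) : toW k i = (k i : ℂ) := rfl

theorem x_kd_toW (k : E) : kd k (toW k) = ((‖k‖ ^ 2 : ℝ) : ℂ) := by
  rw [EuclideanSpace.norm_sq_eq]
  simp only [x_kd, x_toW_apply, Fin.sum_univ_three, Real.norm_eq_abs, sq_abs]
  push_cast
  ring

theorem x_kd_lp (k : E) (c : W) : kd k (lp k c) = 0 := by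
  unfold lp
  rw [x_kd_sub, x_kd_smul, x_kd_toW]
  by_cases h : k = 0
  · subst h
    simp [x_kd]
  · have : ((‖k‖ ^ 2 : ℝ) : ℂ) ≠ 0 := by
      have : ‖k‖ ≠ 0 := norm_ne_zero_iff.mpr h
      exact_mod_cast pow_ne_zero 2 this
    field_simp
    ring

theorem x_lp_add (k : E) (a b : W) : lp k (a + b) = lp k a + lp k b := by
  unfold lp
  rw [x_kd_add, add_div, add_smul]
  abel

theorem x_lp_smul (k : E) (z : ℂ) (a : W) : lp k (z • a) = z • lp k a := by
  unfold lp
  rw [x_kd_smul, smul_sub, smul_smul, mul_div_assoc]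

theorem x_dt_sub_left (a b c : W) : dt (a - b) c = dt a c - dt b c := by
  simp only [x_dt, PiLp.sub_apply]; ring

theorem x_dt_add_left (a b c : W) : dt (a + b) c = dt a c + dt b c := by
  simp only [x_dt, PiLp.add_apply]; ring

theorem x_dt_smul_left (z : ℂ) (a b : W) : dt (z • a) b = z * dt a b := by
  simp only [x_dt, PiLp.smul_apply, smul_eq_mul]; ring

theorem x_dt_lp (k : E) (c d : W) (hd : kd k d = 0) : dt (lp k c) d = dt c d := by
  unfold lp
  rw [x_dt_sub_left, x_dt_smul_left, dt_toW, hd, mul_zero, sub_zero]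

theorem x_crw (a b d : W) : dt (crw a b) d =
    (a 1 * b 2 - a 2 * b 1) * d 0 + (a 2 * b 0 - a 0 * b 2) * d 1 + (a 0 * b 1 - a 1 * b 0) * d 2 := by
  simp [x_dt, crw]

theorem x_crw_anti (a b d : W) : dt (crw a b) d + dt (crw d b) a = 0 := by
  rw [x_crw, x_crw]; ring

theorem x_cu_crw (k : E) (a b d : W) :
    dt (crw (cu k a) b) d = Complex.I * (kd k b * dt a d - dt a b * kd k d) := by
  rw [x_crw]
  simp only [cu, crw, x_kd, x_dt, PiLp.smul_apply, smul_eq_mul, x_toW_apply]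
  simp
  ring

theorem x_nls_dt (ζ : E → E → ℝ) (p q : E) (a b d : W) (hd : kd (p + q) d = 0) :
    dt (nls ζ p q a b) d = (ζ p q : ℂ) * (Complex.I * kd q a) * dt b d := by
  unfold nls
  rw [x_dt_lp _ _ _ hd, x_dt_smul_left]

theorem x_key {ζ : E → E → ℝ} (hζ : Wt ζ) (p q : E) (a b d : W) (hd : kd (p + q) d = 0) :
    dt (nls ζ p q a b + nls ζ q p b a) d =
      (ζ p q : ℂ) * (dt (crw (cu p a) b) d + dt (crw (cu q b) a) d) := by
  rw [x_dt_add_left, x_nls_dt ζ p q a b d hd, x_nls_dt ζ q p b a d (by rwa [add_comm]), hζ.swap p q,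
    x_cu_crw, x_cu_crw]
  have h : kd p d + kd q d = 0 := by rw [← x_kd_add_left]; exact hd
  have h2 : kd q d = - kd p d := by linear_combination h
  rw [h2, dt_comm b a]
  ring

theorem x_cont_kd : Continuous fun z : E × W => kd z.1 z.2 := by
  simp only [x_kd]
  fun_prop

theorem x_cont_toW : Continuous toW := by
  unfold toW
  fun_prop

theorem x_meas_kd {α : Type*} [MeasurableSpace α] (f : α → E) (g : α → W) (hf : Measurable f)
    (hg : Measurable g) : Measurable fun z => kd (f z) (g z) := by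
  have h := x_cont_kd.measurable.comp (hf.prodMk hg)
  exact h

theorem x_meas_toW {α : Type*} [MeasurableSpace α] (f : α → E) (hf : Measurable f) :
    Measurable fun z => toW (f z) := by
  have h := x_cont_toW.measurable.comp hf
  exact h

theorem x_meas_lp {α : Type*} [MeasurableSpace α] (f : α → E) (g : α → W) (hf : Measurable f)
    (hg : Measurable g) : Measurable fun z => lp (f z) (g z) := by
  unfold lp
  have h4 := x_meas_kd f g hf hg
  have h5 : Measurable fun z => ((‖f z‖ ^ 2 : ℝ) : ℂ) :=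
    Complex.measurable_ofReal.comp (hf.norm.pow_const 2)
  have h6 := x_meas_toW f hf
  exact hg.sub ((h4.div h5).smul h6)

theorem x_cj_apply (a : W) (i : Fin 3) : cj a i = conj (a i) := rfl

theorem x_cj_sub (a b : W) : cj (a - b) = cj a - cj b := by
  ext i; simp [x_cj_apply]

theorem x_lp_cj (k : E) (c : W) : lp k (cj c) = cj (lp k c) := by
  unfold lp
  rw [x_cj_sub, cj_smul, cj_toW, kd_cj, map_div₀, Complex.conj_ofReal]

theorem x_toW_neg (k : E) : toW (-k) = -toW k := by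
  ext i; simp [x_toW_apply]

theorem x_lp_neg (k : E) (c : W) : lp (-k) c = lp k c := by
  unfold lp
  rw [kd_neg, norm_neg, x_toW_neg, neg_div, neg_smul, smul_neg, neg_neg]

theorem x_toW_smul (r : ℝ) (k : E) : toW (r • k) = (r : ℂ) • toW k := by
  ext i; simp [x_toW_apply]

theorem x_lp_rsmul (r : ℝ) (hr : 0 < r) (k : E) (c : W) : lp (r • k) c = lp k c := by
  unfold lp
  rw [x_kd_smul_left, norm_smul, x_toW_smul, smul_smul]
  congr 2
  have hr' : (r : ℂ) ≠ 0 := by exact_mod_cast hr.ne'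
  rw [Real.norm_eq_abs, mul_pow, sq_abs]
  push_cast
  by_cases hk : ((‖k‖ : ℝ) : ℂ) = 0
  · simp [hk]
  · field_simp

theorem x_rzW_add (θ : ℝ) (a b : W) : rzW θ (a + b) = rzW θ a + rzW θ b := by
  ext i; fin_cases i <;> simp [rzW] <;> ring

theorem x_rzW_sub (θ : ℝ) (a b : W) : rzW θ (a - b) = rzW θ a - rzW θ b := by
  ext i; fin_cases i <;> simp [rzW] <;> ring

theorem x_rzW_smul (θ : ℝ) (z : ℂ) (a : W) : rzW θ (z • a) = z • rzW θ a := by
  ext i; fin_cases i <;> simp [rzW] <;> ring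

theorem x_toW_rz (θ : ℝ) (k : E) : toW (rz θ k) = rzW θ (toW k) := by
  ext i; fin_cases i <;> simp [rzW, rz, x_toW_apply]

theorem x_rz_add (θ : ℝ) (a b : E) : rz θ (a + b) = rz θ a + rz θ b := by
  ext i; fin_cases i <;> simp [rz] <;> ring

theorem x_lp_rz (θ : ℝ) (k : E) (c : W) : lp (rz θ k) (rzW θ c) = rzW θ (lp k c) := by
  unfold lp
  rw [kd_rz, rz_norm, x_toW_rz, x_rzW_sub, x_rzW_smul]

end Aux

/-- TARGET -/
theorem nls_sym {ζ : E → E → ℝ} (hζ : Wt ζ) : Sym (nls ζ) := by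
  refine ⟨?_, ?_, ?_, ?_, ?_, ?_, ?_⟩
  · intro p q c a a' b
    unfold nls
    rw [x_kd_add, x_kd_smul, ← x_lp_smul, ← x_lp_add, smul_smul, ← add_smul]
    congr 2
    ring
  · intro p q c a b b'
    unfold nls
    rw [smul_add, x_lp_add, smul_comm, x_lp_smul (p + q) c]
  · intro g h hg hh
    unfold nls
    have h1 : Measurable fun z : E × E => kd z.2 (g z.1) :=
      x_meas_kd _ _ measurable_snd (hg.comp measurable_fst)
    have h2 : Measurable fun z : E × E =>
        (((ζ z.1 z.2 : ℂ) * (Complex.I * kd z.2 (g z.1))) • h z.2 : W) := by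
      have h3 : Measurable fun z : E × E => (ζ z.1 z.2 : ℂ) * (Complex.I * kd z.2 (g z.1)) :=
        (Complex.measurable_ofReal.comp hζ.meas).mul (measurable_const.mul h1)
      exact h3.smul (hh.comp measurable_snd)
    exact x_meas_lp _ _ (measurable_fst.add measurable_snd) h2
  · intro p q a b
    unfold nls
    rw [hζ.neg, kd_cj, kd_neg, ← neg_add, x_lp_neg, ← x_lp_cj, cj_smul]
    congr 2
    simp
  · intro p q a b
    exact x_kd_lp _ _
  · intro p q a b c ha hb hc
    rw [x_nls_dt ζ p q a b (cj c) (by rw [kd_cj, hc, map_zero]),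
      x_nls_dt ζ (-p) (p + q) (cj a) c (cj b) (by rw [neg_add_cancel_left, kd_cj, hb, map_zero]),
      hζ.third, kd_cj, x_kd_add_left, ha, zero_add]
    simp only [map_mul, Complex.conj_ofReal, Complex.conj_I]
    rw [← dt_cj, cj_cj, dt_comm c (cj b)]
    ring
  · intro p q a b c ha hb hc
    have e1 : ζ q (-(p + q)) = ζ p q := by
      rw [← hζ.neg, neg_neg, add_comm p q, hζ.third q p, hζ.swap p q]
    have e2 : ζ (-(p + q)) p = ζ p q := by
      rw [hζ.swap p, ← hζ.neg, neg_neg, hζ.third]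
    rw [x_key hζ p q a b _ (by have := kd_cu (-(p + q)) c; rw [kd_neg] at this; simpa using this),
      x_key hζ q (-(p + q)) b c _ (by
        have h : q + -(p + q) = -p := by abel
        rw [h, kd_neg, kd_cu, neg_zero]),
      x_key hζ (-(p + q)) p c a _ (by
        have h : -(p + q) + p = -q := by abel
        rw [h, kd_neg, kd_cu, neg_zero]), e1, e2]
    have h1 := x_crw_anti (cu p a) b (cu (-(p + q)) c)
    have h2 := x_crw_anti (cu q b) a (cu (-(p + q)) c)
    have h3 := x_crw_anti (cu q b) c (cu p a)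
    linear_combination (ζ p q : ℂ) * (h1 + h2 + h3)

/-- TARGET -/
theorem nls_bdd {ζ : E → E → ℝ} (hζ : Wt ζ) : Bdd 1 (nls ζ) := by
  refine ⟨zero_le_one, fun p q a b ha => ?_⟩
  have h1 : kd q a = kd (p + q) a := by rw [x_kd_add_left, ha, zero_add]
  have h2 : ‖kd q a‖ ≤ min ‖q‖ ‖p + q‖ * ‖a‖ := by
    rcases le_total ‖q‖ ‖p + q‖ with h | h
    · rw [min_eq_left h]; exact kd_norm q a
    · rw [min_eq_right h, h1]; exact kd_norm (p + q) a
  unfold nls
  refine (lp_norm _ _).trans ?_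
  rw [norm_smul, norm_mul, norm_mul, Complex.norm_I, one_mul, one_mul, Complex.norm_real,
    Real.norm_eq_abs]
  calc |ζ p q| * ‖kd q a‖ * ‖b‖ ≤ 1 * ‖kd q a‖ * ‖b‖ := by
        gcongr
        exact hζ.bd p q
    _ ≤ (min ‖q‖ ‖p + q‖ * ‖a‖) * ‖b‖ := by
        rw [one_mul]; gcongr
    _ = min ‖q‖ ‖p + q‖ * (‖a‖ * ‖b‖) := by ring

/-- TARGET -/
theorem nls_inv {ζ : E → E → ℝ} (hζ : Wt ζ) (h1 : ∀ r : ℝ, 0 < r → ∀ p q, ζ (r • p) (r • q) = ζ p q)
    (h2 : ∀ θ p q, ζ (rz θ p) (rz θ q) = ζ p q) : Inv (nls ζ) := by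
  refine ⟨?_, ?_, ?_⟩
  · intro r hr p q a b
    unfold nls
    rw [h1 r hr, x_kd_smul_left, ← smul_add, x_lp_rsmul r hr]
    rw [x_lp_smul, x_lp_smul, ← Complex.coe_smul, smul_smul]
    congr 1
    ring
  · intro θ p q a b
    unfold nls
    rw [h2, kd_rz, ← x_rz_add, ← x_rzW_smul, x_lp_rz]
  · intro p q a b
    unfold nls
    rw [hζ.neg, kd_neg, ← neg_add, x_lp_neg, x_lp_smul, x_lp_smul, ← neg_smul]
    congr 1
    ring

end H706N.JH6

namespace H706N

alias nls_sym := JH6.nls_sym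
alias nls_bdd := JH6.nls_bdd
alias nls_inv := JH6.nls_inv

end H706N
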