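import Pool.Agent.Helper706_NS.Defs4
import Pool.Agent.Helper706_NS.TC
import Pool.Agent.Helper706_NS.HV1

set_option autoImplicit false
open Set Filter Topology MeasureTheory
open scoped ComplexConjugate ContDiff

namespace H706N.JHV2

theorem hv2_cr0 (p q : E) : cr p q 0 = p 1 * q 2 - p 2 * q 1 := rfl
theorem hv2_cr1 (p q : E) : cr p q 1 = p 2 * q 0 - p 0 * q 2 := rfl
theorem hv2_cr2 (p q : E) : cr p q 2 = p 0 * q 1 - p 1 * q 0 := rfl
theorem hv2_crw0 (p q : W) : crw p q 0 = p 1 * q 2 - p 2 * q 1 := rfl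
theorem hv2_crw1 (p q : W) : crw p q 1 = p 2 * q 0 - p 0 * q 2 := rfl
theorem hv2_crw2 (p q : W) : crw p q 2 = p 0 * q 1 - p 1 * q 0 := rfl
theorem hv2_rz0 (θ : ℝ) (k : E) : rz θ k 0 = Real.cos θ * k 0 - Real.sin θ * k 1 := rfl
theorem hv2_rz1 (θ : ℝ) (k : E) : rz θ k 1 = Real.sin θ * k 0 + Real.cos θ * k 1 := rfl
theorem hv2_rz2 (θ : ℝ) (k : E) : rz θ k 2 = k 2 := rfl
theorem hv2_rzW0 (θ : ℝ) (c : W) :
    rzW θ c 0 = (Real.cos θ : ℂ) * c 0 - (Real.sin θ : ℂ) * c 1 := rfl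
theorem hv2_rzW1 (θ : ℝ) (c : W) :
    rzW θ c 1 = (Real.sin θ : ℂ) * c 0 + (Real.cos θ : ℂ) * c 1 := rfl
theorem hv2_rzW2 (θ : ℝ) (c : W) : rzW θ c 2 = c 2 := rfl
theorem hv2_toW (k : E) (j : Fin 3) : toW k j = (k j : ℂ) := rfl
theorem hv2_cj (a : W) (j : Fin 3) : cj a j = conj (a j) := rfl

theorem hv2_norm_sq (v : E) : ‖v‖ ^ 2 = v 0 ^ 2 + v 1 ^ 2 + v 2 ^ 2 := by
  rw [EuclideanSpace.norm_sq_eq, Fin.sum_univ_three]
  simp only [Real.norm_eq_abs, sq_abs]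

theorem hv2_extE {u v : E} (h0 : u 0 = v 0) (h1 : u 1 = v 1) (h2 : u 2 = v 2) : u = v := by
  ext i
  fin_cases i
  · exact h0
  · exact h1
  · exact h2

theorem hv2_extW {u v : W} (h0 : u 0 = v 0) (h1 : u 1 = v 1) (h2 : u 2 = v 2) : u = v := by
  ext i
  fin_cases i
  · exact h0
  · exact h1
  · exact h2

theorem hv2_vt0 (k : E) : vt k 0 = (Real.sqrt (k 0 ^ 2 + k 1 ^ 2))⁻¹ * (-k 1) := rfl
theorem hv2_vt1 (k : E) : vt k 1 = (Real.sqrt (k 0 ^ 2 + k 1 ^ 2))⁻¹ * k 0 := rfl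
theorem hv2_vt2 (k : E) : vt k 2 = 0 := by
  show (Real.sqrt (k 0 ^ 2 + k 1 ^ 2))⁻¹ * 0 = 0
  rw [mul_zero]

theorem hv2_k_vt (k : E) : k 0 * vt k 0 + k 1 * vt k 1 + k 2 * vt k 2 = 0 := by
  rw [hv2_vt0, hv2_vt1, hv2_vt2]
  ring

theorem hv2_cr_norm (p q : E) : ‖cr p q‖ ≤ ‖p‖ * ‖q‖ := by
  have h1 : ‖cr p q‖ ^ 2 ≤ (‖p‖ * ‖q‖) ^ 2 := by
    rw [mul_pow, hv2_norm_sq, hv2_norm_sq p, hv2_norm_sq q, hv2_cr0, hv2_cr1, hv2_cr2]
    nlinarith [sq_nonneg (p 0 * q 0 + p 1 * q 1 + p 2 * q 2)]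
  exact le_of_sq_le_sq h1 (by positivity)

theorem hv2_cr_smul_left (r : ℝ) (p q : E) : cr (r • p) q = r • cr p q := by
  apply hv2_extE
  · rw [hv2_cr0, PiLp.smul_apply, PiLp.smul_apply, PiLp.smul_apply, hv2_cr0]
    simp only [smul_eq_mul]; ring
  · rw [hv2_cr1, PiLp.smul_apply, PiLp.smul_apply, PiLp.smul_apply, hv2_cr1]
    simp only [smul_eq_mul]; ring
  · rw [hv2_cr2, PiLp.smul_apply, PiLp.smul_apply, PiLp.smul_apply, hv2_cr2]
    simp only [smul_eq_mul]; ring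

theorem hv2_cr_neg_neg (p q : E) : cr (-p) (-q) = cr p q := by
  apply hv2_extE
  · rw [hv2_cr0, hv2_cr0]; simp only [PiLp.neg_apply]; ring
  · rw [hv2_cr1, hv2_cr1]; simp only [PiLp.neg_apply]; ring
  · rw [hv2_cr2, hv2_cr2]; simp only [PiLp.neg_apply]; ring

theorem hv2_cr_rz (θ : ℝ) (p q : E) : cr (rz θ p) (rz θ q) = rz θ (cr p q) := by
  have h := Real.sin_sq_add_cos_sq θ
  apply hv2_extE
  · rw [hv2_cr0, hv2_rz0, hv2_rz1, hv2_rz1, hv2_rz2, hv2_rz2, hv2_cr0, hv2_cr1]; ring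
  · rw [hv2_cr1, hv2_rz1, hv2_rz0, hv2_rz0, hv2_rz2, hv2_rz2, hv2_cr0, hv2_cr1]; ring
  · rw [hv2_cr2, hv2_rz2, hv2_rz0, hv2_rz0, hv2_rz1, hv2_rz1, hv2_cr2]
    linear_combination (p 0 * q 1 - p 1 * q 0) * h

theorem hv2_rz_smul (θ r : ℝ) (p : E) : rz θ (r • p) = r • rz θ p := by
  apply hv2_extE
  · rw [PiLp.smul_apply, hv2_rz0, hv2_rz0]; simp only [PiLp.smul_apply, smul_eq_mul]; ring
  · rw [PiLp.smul_apply, hv2_rz1, hv2_rz1]; simp only [PiLp.smul_apply, smul_eq_mul]; ring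
  · rw [PiLp.smul_apply, hv2_rz2, hv2_rz2]; simp only [PiLp.smul_apply, smul_eq_mul]

theorem hv2_toW_rz (θ : ℝ) (p : E) : toW (rz θ p) = rzW θ (toW p) := by
  apply hv2_extW
  · rw [hv2_toW, hv2_rzW0, hv2_rz0, hv2_toW, hv2_toW]; push_cast; ring
  · rw [hv2_toW, hv2_rzW1, hv2_rz1, hv2_toW, hv2_toW]; push_cast; ring
  · rw [hv2_toW, hv2_rzW2, hv2_rz2, hv2_toW]

theorem hv2_rzW_smul (θ : ℝ) (c : ℂ) (a : W) : rzW θ (c • a) = c • rzW θ a := by
  apply hv2_extW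
  · rw [PiLp.smul_apply, hv2_rzW0, hv2_rzW0]; simp only [PiLp.smul_apply, smul_eq_mul]; ring
  · rw [PiLp.smul_apply, hv2_rzW1, hv2_rzW1]; simp only [PiLp.smul_apply, smul_eq_mul]; ring
  · rw [PiLp.smul_apply, hv2_rzW2, hv2_rzW2]; simp only [PiLp.smul_apply, smul_eq_mul]

theorem hv2_rzW_add (θ : ℝ) (a b : W) : rzW θ (a + b) = rzW θ a + rzW θ b := by
  apply hv2_extW
  · rw [PiLp.add_apply, hv2_rzW0, hv2_rzW0, hv2_rzW0]; simp only [PiLp.add_apply]; ring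
  · rw [PiLp.add_apply, hv2_rzW1, hv2_rzW1, hv2_rzW1]; simp only [PiLp.add_apply]; ring
  · rw [PiLp.add_apply, hv2_rzW2, hv2_rzW2, hv2_rzW2]; simp only [PiLp.add_apply]

theorem hv2_toW_smul (r : ℝ) (p : E) : toW (r • p) = (r : ℂ) • toW p := by
  ext j
  rw [PiLp.smul_apply, hv2_toW, hv2_toW, PiLp.smul_apply]
  simp only [smul_eq_mul, Complex.ofReal_mul]

theorem hv2_toW_neg (p : E) : toW (-p) = -toW p := by
  ext j
  rw [PiLp.neg_apply, hv2_toW, hv2_toW, PiLp.neg_apply]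
  simp only [Complex.ofReal_neg]

theorem hv2_kd_smul (k : E) (z : ℂ) (a : W) : kd k (z • a) = z * kd k a := by
  rw [← dt_toW, ← dt_toW, dt_smul]

theorem hv2_kd_add (k : E) (a b : W) : kd k (a + b) = kd k a + kd k b := by
  rw [← dt_toW, ← dt_toW, ← dt_toW, dt_add]

theorem hv2_crw_toW (p q : E) : crw (toW p) (toW q) = toW (cr p q) := by
  apply hv2_extW
  · rw [hv2_crw0, hv2_toW, hv2_toW, hv2_toW, hv2_toW, hv2_toW, hv2_cr0]; push_cast; ring
  · rw [hv2_crw1, hv2_toW, hv2_toW, hv2_toW, hv2_toW, hv2_toW, hv2_cr1]; push_cast; ring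
  · rw [hv2_crw2, hv2_toW, hv2_toW, hv2_toW, hv2_toW, hv2_toW, hv2_cr2]; push_cast; ring

theorem hv2_crw_smul (p : W) (z : ℂ) (a : W) : crw p (z • a) = z • crw p a := by
  apply hv2_extW
  · rw [PiLp.smul_apply, hv2_crw0, hv2_crw0]; simp only [PiLp.smul_apply, smul_eq_mul]; ring
  · rw [PiLp.smul_apply, hv2_crw1, hv2_crw1]; simp only [PiLp.smul_apply, smul_eq_mul]; ring
  · rw [PiLp.smul_apply, hv2_crw2, hv2_crw2]; simp only [PiLp.smul_apply, smul_eq_mul]; ring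

theorem hv2_crw_add (p a b : W) : crw p (a + b) = crw p a + crw p b := by
  apply hv2_extW
  · rw [PiLp.add_apply, hv2_crw0, hv2_crw0, hv2_crw0]; simp only [PiLp.add_apply]; ring
  · rw [PiLp.add_apply, hv2_crw1, hv2_crw1, hv2_crw1]; simp only [PiLp.add_apply]; ring
  · rw [PiLp.add_apply, hv2_crw2, hv2_crw2, hv2_crw2]; simp only [PiLp.add_apply]; ring

/-- `k × vt k = ‖k‖ vp k`. -/
theorem hv2_cr_vt (k : E) : cr k (vt k) = ‖k‖ • vp k := by
  unfold vp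
  rw [smul_smul]
  by_cases hk : ‖k‖ = 0
  · have h0 : k = 0 := norm_eq_zero.mp hk
    have h1 : cr k (vt k) = 0 := by
      rw [← norm_le_zero_iff]
      calc ‖cr k (vt k)‖ ≤ ‖k‖ * ‖vt k‖ := hv2_cr_norm _ _
        _ = 0 := by rw [hk, zero_mul]
    rw [h1, smul_zero]
  · rw [mul_inv_cancel₀ hk, one_smul]

/-- `k × vp k = -‖k‖ vt k`. -/
theorem hv2_cr_vp (k : E) : cr k (vp k) = (-‖k‖) • vt k := by
  by_cases hk : ‖k‖ = 0
  · have h1 : cr k (vp k) = 0 := by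
      rw [← norm_le_zero_iff]
      calc ‖cr k (vp k)‖ ≤ ‖k‖ * ‖vp k‖ := hv2_cr_norm _ _
        _ = 0 := by rw [hk, zero_mul]
    rw [h1, hk, neg_zero, zero_smul]
  · have h2 : cr k (cr k (vt k)) = (-‖k‖ ^ 2) • vt k := by
      have h3 := hv2_k_vt k
      have h4 := hv2_norm_sq k
      apply hv2_extE
      · rw [hv2_cr0, hv2_cr1, hv2_cr2, PiLp.smul_apply, smul_eq_mul, h4]
        linear_combination (k 0) * h3
      · rw [hv2_cr1, hv2_cr0, hv2_cr2, PiLp.smul_apply, smul_eq_mul, h4]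
        linear_combination (k 1) * h3
      · rw [hv2_cr2, hv2_cr0, hv2_cr1, PiLp.smul_apply, smul_eq_mul, h4]
        linear_combination (k 2) * h3
    have h5 : ‖k‖ • cr k (vp k) = ‖k‖ • ((-‖k‖) • vt k) := by
      have h6 : cr k (‖k‖ • vp k) = ‖k‖ • cr k (vp k) := by
        apply hv2_extE
        · rw [hv2_cr0, PiLp.smul_apply, PiLp.smul_apply, PiLp.smul_apply, hv2_cr0]
          simp only [smul_eq_mul]; ring
        · rw [hv2_cr1, PiLp.smul_apply, PiLp.smul_apply, PiLp.smul_apply, hv2_cr1]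
          simp only [smul_eq_mul]; ring
        · rw [hv2_cr2, PiLp.smul_apply, PiLp.smul_apply, PiLp.smul_apply, hv2_cr2]
          simp only [smul_eq_mul]; ring
      rw [← h6, ← hv2_cr_vt, h2, smul_smul]
      congr 1
      ring
    exact smul_right_injective E hk h5

theorem hv2_measE {f : E → E} (h : ∀ j, Measurable fun k => f k j) : Measurable f := by
  have h1 : Measurable (fun k => (WithLp.toLp 2 (fun j => f k j) : E)) :=
    (WithLp.measurable_toLp 2 (Fin 3 → ℝ)).comp (measurable_pi_lambda _ h)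
  exact h1

theorem hv2_measW {f : E → W} (h : ∀ j, Measurable fun k => f k j) : Measurable f := by
  have h1 : Measurable (fun k => (WithLp.toLp 2 (fun j => f k j) : W)) :=
    (WithLp.measurable_toLp 2 (Fin 3 → ℂ)).comp (measurable_pi_lambda _ h)
  exact h1

theorem hv2_meas_coord (j : Fin 3) : Measurable fun k : E => k j := by
  have h1 : Measurable (fun k : E => (WithLp.ofLp k) j) :=
    (measurable_pi_apply j).comp (WithLp.measurable_ofLp 2 (Fin 3 → ℝ))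
  exact h1

theorem hv2_meas_toW {f : E → E} (h : Measurable f) : Measurable fun k => toW (f k) := by
  apply hv2_measW
  intro j
  exact Complex.measurable_ofReal.comp ((hv2_meas_coord j).comp h)

/-- TARGET -/
theorem vp_norm (k : E) : ‖vp k‖ ≤ 1 := by
  unfold vp
  rw [norm_smul, norm_inv, norm_norm]
  have h1 : ‖cr k (vt k)‖ ≤ ‖k‖ * 1 :=
    (hv2_cr_norm _ _).trans (mul_le_mul_of_nonneg_left (vt_norm k) (norm_nonneg _))
  rw [mul_one] at h1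
  calc ‖k‖⁻¹ * ‖cr k (vt k)‖ ≤ ‖k‖⁻¹ * ‖k‖ :=
        mul_le_mul_of_nonneg_left h1 (inv_nonneg.mpr (norm_nonneg _))
    _ ≤ 1 := inv_mul_le_one

/-- TARGET -/
theorem vp_neg (k : E) : vp (-k) = vp k := by
  unfold vp
  rw [norm_neg, vt_neg, hv2_cr_neg_neg]

/-- TARGET -/
theorem vp_smul {r : ℝ} (hr : 0 < r) (k : E) : vp (r • k) = vp k := by
  unfold vp
  rw [vt_smul hr, hv2_cr_smul_left, smul_smul, norm_smul, Real.norm_eq_abs, abs_of_pos hr]
  congr 1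
  rw [mul_inv]
  field_simp

/-- TARGET -/
theorem vp_meas : Measurable vp := by
  apply hv2_measE
  intro j
  have hc : ∀ i : Fin 3, Measurable fun k : E => vt k i := fun i => (hv2_meas_coord i).comp vt_meas
  have hk : ∀ i : Fin 3, Measurable fun k : E => k i := hv2_meas_coord
  have hn : Measurable fun k : E => ‖k‖⁻¹ := measurable_norm.inv
  fin_cases j
  · show Measurable fun k : E => ‖k‖⁻¹ * (k 1 * vt k 2 - k 2 * vt k 1)
    exact hn.mul (((hk 1).mul (hc 2)).sub ((hk 2).mul (hc 1)))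
  · show Measurable fun k : E => ‖k‖⁻¹ * (k 2 * vt k 0 - k 0 * vt k 2)
    exact hn.mul (((hk 2).mul (hc 0)).sub ((hk 0).mul (hc 2)))
  · show Measurable fun k : E => ‖k‖⁻¹ * (k 0 * vt k 1 - k 1 * vt k 0)
    exact hn.mul (((hk 0).mul (hc 1)).sub ((hk 1).mul (hc 0)))

/-- TARGET -/
theorem kd_vp (k : E) : kd k (toW (vp k)) = 0 := by
  unfold vp
  rw [hv2_toW_smul, hv2_kd_smul]
  have h1 : kd k (toW (cr k (vt k))) = 0 := by
    unfold kd
    rw [Fin.sum_univ_three, hv2_toW, hv2_toW, hv2_toW, hv2_cr0, hv2_cr1, hv2_cr2]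
    push_cast
    ring
  rw [h1, mul_zero]

/-- TARGET -/
theorem vt_vp (k : E) : dt (toW (vt k)) (toW (vp k)) = 0 := by
  unfold vp
  rw [hv2_toW_smul, dt_smul]
  have h1 : dt (toW (vt k)) (toW (cr k (vt k))) = 0 := by
    unfold dt
    rw [Fin.sum_univ_three]
    simp only [hv2_toW]
    rw [hv2_cr0, hv2_cr1, hv2_cr2]
    push_cast
    ring
  rw [h1, mul_zero]

/-- TARGET -/
theorem vp_rz (θ : ℝ) (k : E) : vp (rz θ k) = rz θ (vp k) := by
  unfold vp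
  rw [rz_norm, vt_rz, hv2_cr_rz, hv2_rz_smul]

theorem hv2_cj_pz (s : Bool) (k : E) :
    cj (pz s k) = Complex.I • toW (vt k) + (sg s : ℂ) • toW (vp k) := by
  unfold pz
  rw [cj_add, cj_smul, cj_smul, cj_toW, cj_toW, map_neg, Complex.conj_I, neg_neg,
    Complex.conj_ofReal]

/-- TARGET -/
theorem pz_neg (s : Bool) (k : E) : pz s (-k) = cj (pz s k) := by
  rw [hv2_cj_pz]
  unfold pz
  rw [vt_neg, vp_neg, hv2_toW_neg, smul_neg, neg_smul, neg_neg]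

/-- TARGET -/
theorem pz_not (s : Bool) (k : E) : cj (pz s k) = -pz (!s) k := by
  rw [hv2_cj_pz]
  unfold pz
  have h1 : sg (!s) = -sg s := by
    cases s <;> simp [sg]
  rw [h1, Complex.ofReal_neg, neg_smul, neg_smul, neg_add, neg_neg, neg_neg]

theorem hv2_cu_pz (s : Bool) (k : E) : cu k (pz s k) = ((sg s * ‖k‖ : ℝ) : ℂ) • pz s k := by
  have hs : (sg s : ℂ) * (sg s : ℂ) = 1 := by
    cases s <;> simp [sg]
  have h1 : crw (toW k) (toW (vt k)) = (‖k‖ : ℂ) • toW (vp k) := by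
    rw [hv2_crw_toW, hv2_cr_vt, hv2_toW_smul]
  have h2 : crw (toW k) (toW (vp k)) = (-(‖k‖ : ℂ)) • toW (vt k) := by
    rw [hv2_crw_toW, hv2_cr_vp, hv2_toW_smul, Complex.ofReal_neg]
  unfold cu pz
  rw [hv2_crw_add, hv2_crw_smul, hv2_crw_smul, h1, h2]
  ext j
  simp only [PiLp.smul_apply, PiLp.add_apply, smul_eq_mul, Complex.ofReal_mul]
  have hI : Complex.I * Complex.I = -1 := Complex.I_mul_I
  linear_combination (-(‖k‖ : ℂ) * toW (vp k) j) * hI - ((‖k‖ : ℂ) * toW (vp k) j) * hs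

/-- TARGET -/
theorem pz_cu (s : Bool) (k : E) (a : W) :
    dt (pz s k) (cu k a) = ((-(sg s * ‖k‖) : ℝ) : ℂ) * dt (pz s k) a := by
  have h1 := dt_cu k (pz s k) a
  have h2 : dt (pz s k) (cu k a) = -dt (cu k (pz s k)) a := by rw [h1, neg_neg]
  rw [h2, hv2_cu_pz, dt_comm, dt_smul, dt_comm a, Complex.ofReal_neg, neg_mul]

/-- TARGET -/
theorem pz_norm (s : Bool) (k : E) : ‖pz s k‖ ≤ 2 := by
  unfold pz
  have hs : ‖(sg s : ℂ)‖ = 1 := by
    cases s <;> simp [sg]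
  calc ‖(-Complex.I) • toW (vt k) + (sg s : ℂ) • toW (vp k)‖
      ≤ ‖(-Complex.I) • toW (vt k)‖ + ‖(sg s : ℂ) • toW (vp k)‖ := norm_add_le _ _
    _ = ‖vt k‖ + ‖vp k‖ := by
        rw [norm_smul, norm_smul, hs, norm_neg, Complex.norm_I, norm_toW, norm_toW, one_mul, one_mul]
    _ ≤ 2 := by linarith [vt_norm k, vp_norm k]

/-- TARGET -/
theorem pz_smul (s : Bool) {r : ℝ} (hr : 0 < r) (k : E) : pz s (r • k) = pz s k := by
  unfold pz
  rw [vt_smul hr, vp_smul hr]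

/-- TARGET -/
theorem pz_rz (s : Bool) (θ : ℝ) (k : E) : pz s (rz θ k) = rzW θ (pz s k) := by
  unfold pz
  rw [vt_rz, vp_rz, hv2_toW_rz, hv2_toW_rz, hv2_rzW_add, hv2_rzW_smul, hv2_rzW_smul]

/-- TARGET -/
theorem cj_rzW (θ : ℝ) (a : W) : cj (rzW θ a) = rzW θ (cj a) := by
  apply hv2_extW
  · rw [hv2_cj, hv2_rzW0, hv2_rzW0, map_sub, map_mul, map_mul, Complex.conj_ofReal,
      Complex.conj_ofReal, hv2_cj, hv2_cj]
  · rw [hv2_cj, hv2_rzW1, hv2_rzW1, map_add, map_mul, map_mul, Complex.conj_ofReal,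
      Complex.conj_ofReal, hv2_cj, hv2_cj]
  · rw [hv2_cj, hv2_rzW2, hv2_rzW2, hv2_cj]

/-- TARGET -/
theorem pz_meas (s : Bool) : Measurable (pz s) := by
  have h1 : Measurable fun k : E => (-Complex.I) • toW (vt k) :=
    (hv2_meas_toW vt_meas).const_smul (-Complex.I)
  have h2 : Measurable fun k : E => (sg s : ℂ) • toW (vp k) :=
    (hv2_meas_toW vp_meas).const_smul (sg s : ℂ)
  exact h1.add h2

/-- TARGET -/
theorem kd_pz (s : Bool) (k : E) : kd k (cj (pz s k)) = 0 := by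
  rw [hv2_cj_pz, hv2_kd_add, hv2_kd_smul, hv2_kd_smul, kd_vt, kd_vp, mul_zero, mul_zero, add_zero]

end H706N.JHV2

namespace H706N

alias vp_norm := JHV2.vp_norm
alias vp_neg := JHV2.vp_neg
alias vp_smul := JHV2.vp_smul
alias vp_meas := JHV2.vp_meas
alias kd_vp := JHV2.kd_vp
alias vt_vp := JHV2.vt_vp
alias vp_rz := JHV2.vp_rz
alias pz_neg := JHV2.pz_neg
alias pz_not := JHV2.pz_not
alias pz_cu := JHV2.pz_cu
alias pz_norm := JHV2.pz_norm
alias pz_smul := JHV2.pz_smul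
alias pz_rz := JHV2.pz_rz
alias cj_rzW := JHV2.cj_rzW
alias pz_meas := JHV2.pz_meas
alias kd_pz := JHV2.kd_pz

end H706N
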