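import Pool.Agent.Helper706_NS.Defs4
import Pool.Agent.Helper706_NS.TC

set_option autoImplicit false
open Set Filter Topology MeasureTheory
open scoped ComplexConjugate ContDiff

namespace H706N.JH10

theorem mug_ee_neg (η : ℝ) (k : E) : ee η (-k) = ee η k := by
  unfold ee
  simp

theorem mug_ee_smul (η : ℝ) {r : ℝ} (hr : 0 < r) (k : E) : ee η (r • k) = r * ee η k := by
  unfold ee
  rw [norm_smul, Real.norm_of_nonneg hr.le]
  have : η ^ 2 * (r * ‖k‖) ^ 2 - (r • k) 2 ^ 2 = r ^ 2 * (η ^ 2 * ‖k‖ ^ 2 - k 2 ^ 2) := by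
    simp only [PiLp.smul_apply, smul_eq_mul]
    ring
  rw [this, Real.sqrt_mul (by positivity), Real.sqrt_sq hr.le]

theorem mug_cr_neg_neg (p q : E) : cr (-p) (-q) = cr p q := by
  ext i
  fin_cases i <;> simp [cr]

theorem mug_cr_skew (p q : E) : cr (-p) (p + q) = -cr p q := by
  ext i
  fin_cases i <;> simp [cr] <;> ring

theorem mug_cr_swap (p q : E) : cr q p = -cr p q := by
  ext i
  fin_cases i <;> simp [cr] <;> ring

theorem mug_cr_smul (r : ℝ) (p q : E) : cr (r • p) (r • q) = r ^ 2 • cr p q := by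
  ext i
  fin_cases i <;> simp [cr] <;> ring

theorem mug_cr_cont : Continuous fun z : E × E => cr z.1 z.2 := by
  unfold cr
  fun_prop

theorem mug_ee_cont (η : ℝ) : Continuous (ee η) := by
  unfold ee
  fun_prop

theorem mug_cr_rz (θ : ℝ) (p q : E) : cr (rz θ p) (rz θ q) = rz θ (cr p q) := by
  have h := Real.sin_sq_add_cos_sq θ
  ext i
  fin_cases i
  · simp [cr, rz]; ring
  · simp [cr, rz]; ring
  · simp [cr, rz]
    linear_combination (p 0 * q 1 - p 1 * q 0) * h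

theorem mug_rz_add (θ : ℝ) (p q : E) : rz θ p + rz θ q = rz θ (p + q) := by
  ext i
  fin_cases i <;> simp [rz] <;> ring

theorem mug_ee_rz (η θ : ℝ) (k : E) : ee η (rz θ k) = ee η k := by
  unfold ee
  rw [rz_norm]
  simp [rz]

/-- TARGET -/
theorem mug_meas {F : ℝ → ℝ → ℝ → ℝ} (hF : Rad F) (η : ℝ) (n : ℕ) :
    Measurable fun z : E × E => mug F η n z.1 z.2 := by
  have hcr := mug_cr_cont
  have hee := mug_ee_cont η
  have hF1 : Measurable fun z : E × E => F ‖z.1‖ ‖z.2‖ ‖z.1 + z.2‖ := by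
    have h1 : Measurable fun z : E × E => (‖z.1‖, ‖z.2‖, ‖z.1 + z.2‖) :=
      (by fun_prop : Continuous fun z : E × E => (‖z.1‖, ‖z.2‖, ‖z.1 + z.2‖)).measurable
    exact hF.meas.comp h1
  have h0 : Continuous fun z : E × E => cr z.1 z.2 0 := by unfold cr; fun_prop
  have h1 : Continuous fun z : E × E => cr z.1 z.2 1 := by unfold cr; fun_prop
  have h2 : Continuous fun z : E × E => cr z.1 z.2 2 := by unfold cr; fun_prop
  have hdd : Continuous fun z : E × E => dd ‖z.1‖ ‖z.2‖ ‖z.1 + z.2‖ := by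
    unfold dd
    fun_prop
  unfold mug
  apply Measurable.div
  · apply Measurable.mul
    · exact hF1.mul (hdd.pow (n + 3)).measurable
    · apply Continuous.measurable
      exact h2.abs.mul ((Real.continuous_sqrt.comp (((continuous_const.mul (hcr.norm.pow 2)).sub
        (h0.pow 2)).sub (h1.pow 2))).pow (2 * n + 1))
  · apply Continuous.measurable
    exact ((hcr.norm.pow (2 * n + 2)).mul (((continuous_fst.norm.mul continuous_snd.norm).mul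
        (continuous_fst.add continuous_snd).norm).pow 3)).mul
        ((((hee.comp continuous_fst).mul (hee.comp continuous_snd)).mul
          (hee.comp (continuous_fst.add continuous_snd))).pow (n + 1))

/-- TARGET -/
theorem mug_neg (F : ℝ → ℝ → ℝ → ℝ) (η : ℝ) (n : ℕ) (p q : E) :
    mug F η n (-p) (-q) = mug F η n p q := by
  unfold mug
  have h : -p + -q = -(p + q) := by abel
  rw [h, mug_cr_neg_neg, norm_neg, norm_neg, norm_neg, mug_ee_neg, mug_ee_neg, mug_ee_neg]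

/-- TARGET -/
theorem mug_third (F : ℝ → ℝ → ℝ → ℝ) (η : ℝ) (n : ℕ) (p q : E) :
    mug F η n (-p) (p + q) = mug (fun a b c => F a c b) η n p q := by
  unfold mug
  have h : -p + (p + q) = q := by abel
  rw [h, mug_cr_skew, norm_neg, norm_neg, mug_ee_neg]
  simp only [PiLp.neg_apply, abs_neg, neg_sq]
  have e0 : dd ‖p‖ ‖p + q‖ ‖q‖ = dd ‖p‖ ‖q‖ ‖p + q‖ := by unfold dd; ring
  have e2 : ‖p‖ * ‖p + q‖ * ‖q‖ = ‖p‖ * ‖q‖ * ‖p + q‖ := by ring
  have e3 : ee η p * ee η (p + q) * ee η q = ee η p * ee η q * ee η (p + q) := by ring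
  rw [e0, e2, e3]

/-- TARGET -/
theorem mug_swap (F : ℝ → ℝ → ℝ → ℝ) (η : ℝ) (n : ℕ) (p q : E) :
    mug F η n q p = mug (fun a b c => F b a c) η n p q := by
  unfold mug
  rw [add_comm q p, mug_cr_swap, norm_neg]
  simp only [PiLp.neg_apply, abs_neg, neg_sq]
  have e0 : dd ‖q‖ ‖p‖ ‖p + q‖ = dd ‖p‖ ‖q‖ ‖p + q‖ := by unfold dd; ring
  have e2 : ‖q‖ * ‖p‖ * ‖p + q‖ = ‖p‖ * ‖q‖ * ‖p + q‖ := by ring
  have e3 : ee η q * ee η p * ee η (p + q) = ee η p * ee η q * ee η (p + q) := by ring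
  rw [e0, e2, e3]

/-- TARGET -/
theorem mug_p1 (F : ℝ → ℝ → ℝ → ℝ) (η : ℝ) (n : ℕ) (p q : E) :
    mug F η n q (-(p + q)) = mug (fun a b c => F b c a) η n p q := by
  have h1 : mug F η n q (-(p + q)) = mug F η n (-q) (q + p) := by
    rw [← mug_neg F η n q (-(p + q)), neg_neg, add_comm p q]
  rw [h1, mug_third, mug_swap]

/-- TARGET -/
theorem mug_p4 (F : ℝ → ℝ → ℝ → ℝ) (η : ℝ) (n : ℕ) (p q : E) :
    mug F η n p (-(p + q)) = mug (fun a b c => F a c b) η n p q := by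
  have h1 : mug F η n p (-(p + q)) = mug F η n (-p) (p + q) := by
    rw [← mug_neg F η n p (-(p + q)), neg_neg]
  rw [h1, mug_third]

/-- TARGET -/
theorem mug_p2 (F : ℝ → ℝ → ℝ → ℝ) (η : ℝ) (n : ℕ) (p q : E) :
    mug F η n (-(p + q)) p = mug (fun a b c => F c a b) η n p q := by
  rw [mug_swap, mug_p4]

/-- TARGET -/
theorem mug_p3 (F : ℝ → ℝ → ℝ → ℝ) (η : ℝ) (n : ℕ) (p q : E) :
    mug F η n (-(p + q)) q = mug (fun a b c => F c b a) η n p q := by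
  rw [mug_swap, mug_p1]

/-- TARGET -/
theorem mug_hom {F : ℝ → ℝ → ℝ → ℝ} (hF : Rad F) (η : ℝ) (n : ℕ) {r : ℝ} (hr : 0 < r) (p q : E) :
    mug F η n (r • p) (r • q) = r * mug F η n p q := by
  unfold mug
  have h : r • p + r • q = r • (p + q) := (smul_add r p q).symm
  rw [h, mug_cr_smul, mug_ee_smul η hr, mug_ee_smul η hr, mug_ee_smul η hr]
  simp only [norm_smul, Real.norm_of_nonneg hr.le]
  rw [hF.hom r hr]
  have hdd : dd (r * ‖p‖) (r * ‖q‖) (r * ‖p + q‖) = r ^ 3 * dd ‖p‖ ‖q‖ ‖p + q‖ := by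
    unfold dd
    ring
  have hn : ‖r ^ 2‖ = r ^ 2 := Real.norm_of_nonneg (by positivity)
  have hs : Real.sqrt (η ^ 2 * (‖r ^ 2‖ * ‖cr p q‖) ^ 2 - (r ^ 2 • cr p q) 0 ^ 2 -
      (r ^ 2 • cr p q) 1 ^ 2) =
      r ^ 2 * Real.sqrt (η ^ 2 * ‖cr p q‖ ^ 2 - cr p q 0 ^ 2 - cr p q 1 ^ 2) := by
    have : η ^ 2 * (‖r ^ 2‖ * ‖cr p q‖) ^ 2 - (r ^ 2 • cr p q) 0 ^ 2 - (r ^ 2 • cr p q) 1 ^ 2 =
        (r ^ 2) ^ 2 * (η ^ 2 * ‖cr p q‖ ^ 2 - cr p q 0 ^ 2 - cr p q 1 ^ 2) := by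
      rw [hn]
      simp only [PiLp.smul_apply, smul_eq_mul]
      ring
    rw [this, Real.sqrt_mul (by positivity), Real.sqrt_sq (by positivity)]
  have ha : |(r ^ 2 • cr p q) 2| = r ^ 2 * |cr p q 2| := by
    simp only [PiLp.smul_apply, smul_eq_mul]
    rw [abs_mul, abs_of_pos (by positivity)]
  rw [hdd, hs, ha, hn]
  set S := Real.sqrt (η ^ 2 * ‖cr p q‖ ^ 2 - cr p q 0 ^ 2 - cr p q 1 ^ 2) with hS
  set A := F ‖p‖ ‖q‖ ‖p + q‖ * dd ‖p‖ ‖q‖ ‖p + q‖ ^ (n + 3) * (|cr p q 2| * S ^ (2 * n + 1)) with hA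
  set B := ‖cr p q‖ ^ (2 * n + 2) * (‖p‖ * ‖q‖ * ‖p + q‖) ^ 3 *
      (ee η p * ee η q * ee η (p + q)) ^ (n + 1) with hB
  have hnum : r ^ 4 * F ‖p‖ ‖q‖ ‖p + q‖ * (r ^ 3 * dd ‖p‖ ‖q‖ ‖p + q‖) ^ (n + 3) *
      (r ^ 2 * |cr p q 2| * (r ^ 2 * S) ^ (2 * n + 1)) = r ^ (7 * n + 16) * (r * A) := by
    rw [hA, mul_pow, mul_pow, ← pow_mul, ← pow_mul]
    have : r ^ (7 * n + 16) * r = r ^ 4 * r ^ (3 * (n + 3)) * (r ^ 2 * r ^ (2 * (2 * n + 1))) := by
      rw [← pow_succ, ← pow_add, ← pow_add, ← pow_add]; congr 1; ring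
    calc _ = (r ^ 4 * r ^ (3 * (n + 3)) * (r ^ 2 * r ^ (2 * (2 * n + 1)))) *
          (F ‖p‖ ‖q‖ ‖p + q‖ * dd ‖p‖ ‖q‖ ‖p + q‖ ^ (n + 3) * (|cr p q 2| * S ^ (2 * n + 1))) := by
            ring
      _ = _ := by rw [← this]; ring
  have hden : (r ^ 2 * ‖cr p q‖) ^ (2 * n + 2) * (r * ‖p‖ * (r * ‖q‖) * (r * ‖p + q‖)) ^ 3 *
      (r * ee η p * (r * ee η q) * (r * ee η (p + q))) ^ (n + 1) = r ^ (7 * n + 16) * B := by
    have e1 : r * ‖p‖ * (r * ‖q‖) * (r * ‖p + q‖) = r ^ 3 * (‖p‖ * ‖q‖ * ‖p + q‖) := by ring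
    have e2 : r * ee η p * (r * ee η q) * (r * ee η (p + q)) =
      r ^ 3 * (ee η p * ee η q * ee η (p + q)) := by ring
    rw [e1, e2, mul_pow (r ^ 2), mul_pow (r ^ 3) (‖p‖ * ‖q‖ * ‖p + q‖),
      mul_pow (r ^ 3) (ee η p * ee η q * ee η (p + q)), ← pow_mul, ← pow_mul, ← pow_mul, hB]
    have : r ^ (7 * n + 16) = r ^ (2 * (2 * n + 2)) * r ^ (3 * 3) * r ^ (3 * (n + 1)) := by
      rw [← pow_add, ← pow_add]; congr 1; ring
    rw [this]; ring
  rw [hnum, hden, mul_div_mul_left _ _ (by positivity), mul_div_assoc]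

/-- TARGET -/
theorem mug_rz (F : ℝ → ℝ → ℝ → ℝ) (η : ℝ) (n : ℕ) (θ : ℝ) (p q : E) :
    mug F η n (rz θ p) (rz θ q) = mug F η n p q := by
  unfold mug
  rw [mug_rz_add, mug_cr_rz, mug_ee_rz, mug_ee_rz, mug_ee_rz, rz_norm, rz_norm, rz_norm, rz_norm]
  have h2 : rz θ (cr p q) 2 = cr p q 2 := by simp [rz]
  have h01 : η ^ 2 * ‖cr p q‖ ^ 2 - rz θ (cr p q) 0 ^ 2 - rz θ (cr p q) 1 ^ 2 =
      η ^ 2 * ‖cr p q‖ ^ 2 - cr p q 0 ^ 2 - cr p q 1 ^ 2 := by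
    have h := Real.sin_sq_add_cos_sq θ
    have e0 : rz θ (cr p q) 0 = Real.cos θ * cr p q 0 - Real.sin θ * cr p q 1 := by simp [rz]
    have e1 : rz θ (cr p q) 1 = Real.sin θ * cr p q 0 + Real.cos θ * cr p q 1 := by simp [rz]
    rw [e0, e1]
    linear_combination (-(cr p q 0 ^ 2) - cr p q 1 ^ 2) * h
  rw [h2, h01]

theorem mug_ee_zero (η : ℝ) (k : E) (h : k ∉ band η) : ee η k = 0 := by
  unfold ee
  apply Real.sqrt_eq_zero_of_nonpos
  simp only [band, Set.mem_ofPred_eq, not_le] at h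
  linarith

/-- TARGET -/
theorem mug_supp (F : ℝ → ℝ → ℝ → ℝ) (η : ℝ) (n : ℕ) (p q : E)
    (h : p ∉ band η ∨ q ∉ band η ∨ p + q ∉ band η) : mug F η n p q = 0 := by
  have h0 : ee η p * ee η q * ee η (p + q) = 0 := by
    rcases h with h | h | h
    · rw [mug_ee_zero η p h]; ring
    · rw [mug_ee_zero η q h]; ring
    · rw [mug_ee_zero η (p + q) h]; ring
  unfold mug
  rw [h0, zero_pow (Nat.succ_ne_zero n), mul_zero, div_zero]

end H706N.JH10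

namespace H706N

alias mug_meas := JH10.mug_meas
alias mug_neg := JH10.mug_neg
alias mug_third := JH10.mug_third
alias mug_swap := JH10.mug_swap
alias mug_p1 := JH10.mug_p1
alias mug_p2 := JH10.mug_p2
alias mug_p3 := JH10.mug_p3
alias mug_p4 := JH10.mug_p4
alias mug_hom := JH10.mug_hom
alias mug_rz := JH10.mug_rz
alias mug_supp := JH10.mug_supp

end H706N
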