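import Pool.Agent.Helper706_NS.Defs4

set_option autoImplicit false
open Set Filter Topology MeasureTheory
open scoped ComplexConjugate ContDiff

namespace H706N.JH11

theorem AA_swap (P : ℝ → ℝ → ℝ → ℝ) (a b c : ℝ) : AA P b a c = AA P a b c := by
  unfold AA; ring

theorem HH_swap (P : ℝ → ℝ → ℝ → ℝ) (a b c : ℝ) : HH P a c b = -HH P a b c := by
  unfold HH
  rw [AA_swap P b c a, AA_swap P a b c, AA_swap P c a b, ← neg_div]
  congr 1
  · ring
  · ring

theorem gg_swap (P : ℝ → ℝ → ℝ → ℝ) (s₁ s₂ s₃ : Bool) (a b c : ℝ) :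
    gg P s₁ s₃ s₂ a c b = -gg P s₁ s₂ s₃ a b c := by
  have h1 := HH_swap P a b c
  have h2 := HH_swap P b a c
  have h3 := HH_swap P c a b
  cases s₁ <;> cases s₂ <;> cases s₃ <;> simp only [gg] <;> linarith

theorem gg_swap' (P : ℝ → ℝ → ℝ → ℝ) (s₁ s₂ s₃ : Bool) (a b c : ℝ) :
    gg P s₂ s₁ s₃ b a c = -gg P s₁ s₂ s₃ a b c := by
  have h1 := HH_swap P a b c
  have h2 := HH_swap P b a c
  have h3 := HH_swap P c a b
  cases s₁ <;> cases s₂ <;> cases s₃ <;> simp only [gg] <;> linarith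

theorem gg_not (P : ℝ → ℝ → ℝ → ℝ) (s₁ s₂ s₃ : Bool) (a b c : ℝ) :
    gg P (!s₁) (!s₂) (!s₃) a b c = -gg P s₁ s₂ s₃ a b c := by
  cases s₁ <;> cases s₂ <;> cases s₃ <;> simp [gg]

theorem sg_not (s : Bool) : sg (!s) = -sg s := by
  cases s <;> simp [sg]

theorem abs_sg (s : Bool) : |sg s| = 1 := by
  cases s <;> simp [sg]

theorem HH_hom {P : ℝ → ℝ → ℝ → ℝ} (hP : ∀ r a b c, P (r * a) (r * b) (r * c) = r ^ 4 * P a b c)
    {r : ℝ} (hr : 0 < r) (a b c : ℝ) : HH P (r * a) (r * b) (r * c) = r ^ 3 * HH P a b c := by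
  unfold HH AA
  simp only [hP]
  have h1 : (r * c - r * b) * (r ^ 4 * P b c a + r ^ 4 * P c b a) + (r * b + r * c) *
      (r ^ 4 * P c a b + r ^ 4 * P a c b - (r ^ 4 * P a b c + r ^ 4 * P b a c)) =
      r ^ 2 * (r ^ 3 * ((c - b) * (P b c a + P c b a) +
        (b + c) * (P c a b + P a c b - (P a b c + P b a c)))) := by ring
  have h2 : 4 * (r * a * (r * b) + r * b * (r * c) + r * c * (r * a)) =
      r ^ 2 * (4 * (a * b + b * c + c * a)) := by ring
  rw [h1, h2, mul_div_mul_left _ _ (by positivity), mul_div_assoc]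

theorem gg_hom {P : ℝ → ℝ → ℝ → ℝ} (hP : ∀ r a b c, P (r * a) (r * b) (r * c) = r ^ 4 * P a b c)
    (s₁ s₂ s₃ : Bool) {r : ℝ} (hr : 0 < r) (a b c : ℝ) :
    gg P s₁ s₂ s₃ (r * a) (r * b) (r * c) = r ^ 3 * gg P s₁ s₂ s₃ a b c := by
  cases s₁ <;> cases s₂ <;> cases s₃ <;> simp only [gg, HH_hom hP hr] <;> ring

theorem HH_bd {P : ℝ → ℝ → ℝ → ℝ} {C : ℝ} (hC : 0 ≤ C)
    (hP : ∀ a b c, 0 ≤ a → 0 ≤ b → 0 ≤ c → |P a b c| ≤ C * (a + b + c) ^ 4)
    {a b c : ℝ} (ha : 0 ≤ a) (hb : 0 ≤ b) (hc : 0 ≤ c) (h1 : a ≤ b + c) (h2 : b ≤ a + c)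
    (h3 : c ≤ a + b) : |HH P a b c| ≤ 12 * C * (a + b + c) ^ 3 := by
  have hAA : ∀ x y z, 0 ≤ x → 0 ≤ y → 0 ≤ z → |AA P x y z| ≤ 2 * C * (x + y + z) ^ 4 := by
    intro x y z hx hy hz
    unfold AA
    refine (abs_add_le _ _).trans ?_
    have e1 := hP x y z hx hy hz
    have e2 := hP y x z hy hx hz
    have : y + x + z = x + y + z := by ring
    rw [this] at e2
    linarith
  have hs : 0 ≤ a + b + c := by positivity
  rcases hs.eq_or_lt with h0 | h0
  · have ha0 : a = 0 := by linarith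
    have hb0 : b = 0 := by linarith
    have hc0 : c = 0 := by linarith
    subst ha0 hb0 hc0
    simp [HH]
  · have hq : (a + b + c) ^ 2 ≤ 8 * (a * b + b * c + c * a) := by
      rcases le_total a b with hab | hab
      · rcases le_total b c with hbc | hbc
        · nlinarith [mul_nonneg ha hb, mul_nonneg hb hc, mul_nonneg hc ha,
            mul_nonneg (sub_nonneg.2 h3) (sub_nonneg.2 hbc), mul_nonneg (sub_nonneg.2 h3) hc,
            mul_nonneg (sub_nonneg.2 h3) ha, mul_nonneg (sub_nonneg.2 h3) hb,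
            mul_nonneg (sub_nonneg.2 hbc) hb, mul_nonneg (sub_nonneg.2 hbc) hc,
            mul_nonneg (sub_nonneg.2 hab) hb, mul_nonneg (sub_nonneg.2 hab) ha]
        · nlinarith [mul_nonneg ha hb, mul_nonneg hb hc, mul_nonneg hc ha,
            mul_nonneg (sub_nonneg.2 h2) (sub_nonneg.2 hbc), mul_nonneg (sub_nonneg.2 h2) hc,
            mul_nonneg (sub_nonneg.2 h2) ha, mul_nonneg (sub_nonneg.2 h2) hb,
            mul_nonneg (sub_nonneg.2 hbc) hb, mul_nonneg (sub_nonneg.2 hbc) hc,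
            mul_nonneg (sub_nonneg.2 hab) hb, mul_nonneg (sub_nonneg.2 hab) ha]
      · rcases le_total a c with hac | hac
        · nlinarith [mul_nonneg ha hb, mul_nonneg hb hc, mul_nonneg hc ha,
            mul_nonneg (sub_nonneg.2 h3) hc,
            mul_nonneg (sub_nonneg.2 h3) ha, mul_nonneg (sub_nonneg.2 h3) hb,
            mul_nonneg (sub_nonneg.2 hac) hc, mul_nonneg (sub_nonneg.2 hac) ha,
            mul_nonneg (sub_nonneg.2 hab) hb, mul_nonneg (sub_nonneg.2 hab) ha]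
        · nlinarith [mul_nonneg ha hb, mul_nonneg hb hc, mul_nonneg hc ha,
            mul_nonneg (sub_nonneg.2 h1) hc,
            mul_nonneg (sub_nonneg.2 h1) ha, mul_nonneg (sub_nonneg.2 h1) hb,
            mul_nonneg (sub_nonneg.2 hac) hc, mul_nonneg (sub_nonneg.2 hac) ha,
            mul_nonneg (sub_nonneg.2 hab) hb, mul_nonneg (sub_nonneg.2 hab) ha]
    have hden : 0 < 4 * (a * b + b * c + c * a) := by
      have : 0 < (a + b + c) ^ 2 := by positivity
      linarith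
    unfold HH
    rw [abs_div, abs_of_pos hden, div_le_iff₀ hden]
    have e1 := hAA b c a hb hc ha
    have e2 := hAA c a b hc ha hb
    have e3 := hAA a b c ha hb hc
    have t1 : b + c + a = a + b + c := by ring
    have t2 : c + a + b = a + b + c := by ring
    rw [t1] at e1
    rw [t2] at e2
    have hnum : |(c - b) * AA P b c a + (b + c) * (AA P c a b - AA P a b c)| ≤
        (a + b + c) * (6 * C * (a + b + c) ^ 4) := by
      have k1 : |c - b| ≤ a + b + c := by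
        rw [abs_le]; constructor <;> linarith
      have k2 : |b + c| ≤ a + b + c := by
        rw [abs_le]; constructor <;> linarith
      calc |(c - b) * AA P b c a + (b + c) * (AA P c a b - AA P a b c)|
          ≤ |(c - b) * AA P b c a| + |(b + c) * (AA P c a b - AA P a b c)| := abs_add_le _ _
        _ = |c - b| * |AA P b c a| + |b + c| * |AA P c a b - AA P a b c| := by
            rw [abs_mul, abs_mul]
        _ ≤ (a + b + c) * (2 * C * (a + b + c) ^ 4) +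
            (a + b + c) * (4 * C * (a + b + c) ^ 4) := by
            refine add_le_add (mul_le_mul k1 e1 (abs_nonneg _) hs) ?_
            refine mul_le_mul k2 ?_ (abs_nonneg _) hs
            refine (abs_sub _ _).trans ?_
            linarith
        _ = _ := by ring
    refine hnum.trans ?_
    have hC3 : 0 ≤ C * (a + b + c) ^ 3 := by positivity
    nlinarith [mul_le_mul_of_nonneg_left hq hC3]

theorem gg_bd {P : ℝ → ℝ → ℝ → ℝ} {C : ℝ} (hC : 0 ≤ C)
    (hP : ∀ a b c, 0 ≤ a → 0 ≤ b → 0 ≤ c → |P a b c| ≤ C * (a + b + c) ^ 4) (s₁ s₂ s₃ : Bool)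
    {a b c : ℝ} (ha : 0 ≤ a) (hb : 0 ≤ b) (hc : 0 ≤ c) (h1 : a ≤ b + c) (h2 : b ≤ a + c)
    (h3 : c ≤ a + b) : |gg P s₁ s₂ s₃ a b c| ≤ 12 * C * (a + b + c) ^ 3 := by
  have e1 := HH_bd hC hP ha hb hc h1 h2 h3
  have e2 := HH_bd hC hP hb hc ha (by linarith) (by linarith) (by linarith)
  have e3 := HH_bd hC hP hc ha hb (by linarith) (by linarith) (by linarith)
  have t1 : b + c + a = a + b + c := by ring
  have t2 : c + a + b = a + b + c := by ring
  rw [t1] at e2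
  rw [t2] at e3
  have hs : 0 ≤ 12 * C * (a + b + c) ^ 3 := by positivity
  cases s₁ <;> cases s₂ <;> cases s₃ <;> simp only [gg, abs_neg, abs_zero] <;> assumption

theorem AA_meas {P : ℝ → ℝ → ℝ → ℝ} (hP : Measurable fun z : ℝ × ℝ × ℝ => P z.1 z.2.1 z.2.2)
    {f g h : ℝ × ℝ × ℝ → ℝ} (hf : Measurable f) (hg : Measurable g) (hh : Measurable h) :
    Measurable fun z => AA P (f z) (g z) (h z) := by
  unfold AA
  exact (hP.comp (hf.prodMk (hg.prodMk hh))).add (hP.comp (hg.prodMk (hf.prodMk hh)))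

theorem HH_meas {P : ℝ → ℝ → ℝ → ℝ} (hP : Measurable fun z : ℝ × ℝ × ℝ => P z.1 z.2.1 z.2.2)
    {f g h : ℝ × ℝ × ℝ → ℝ} (hf : Measurable f) (hg : Measurable g) (hh : Measurable h) :
    Measurable fun z => HH P (f z) (g z) (h z) := by
  unfold HH
  refine Measurable.div ?_ ?_
  · exact ((hh.sub hg).mul (AA_meas hP hg hh hf)).add
      ((hg.add hh).mul ((AA_meas hP hh hf hg).sub (AA_meas hP hf hg hh)))
  · exact measurable_const.mul (((hf.mul hg).add (hg.mul hh)).add (hh.mul hf))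

theorem gg_meas {P : ℝ → ℝ → ℝ → ℝ} (hP : Measurable fun z : ℝ × ℝ × ℝ => P z.1 z.2.1 z.2.2)
    (s₁ s₂ s₃ : Bool) : Measurable fun z : ℝ × ℝ × ℝ => gg P s₁ s₂ s₃ z.1 z.2.1 z.2.2 := by
  have m1 : Measurable fun z : ℝ × ℝ × ℝ => z.1 := measurable_fst
  have m2 : Measurable fun z : ℝ × ℝ × ℝ => z.2.1 := measurable_fst.comp measurable_snd
  have m3 : Measurable fun z : ℝ × ℝ × ℝ => z.2.2 := measurable_snd.comp measurable_snd
  have k1 := HH_meas hP m1 m2 m3
  have k2 := HH_meas hP m2 m3 m1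
  have k3 := HH_meas hP m3 m1 m2
  have k1' := k1.neg
  have k2' := k2.neg
  have k3' := k3.neg
  cases s₁ <;> cases s₂ <;> cases s₃ <;> simp only [gg] <;>
    first | exact measurable_const | assumption

/-- TARGET -/
theorem PS_rad {P : ℝ → ℝ → ℝ → ℝ} (hP : Pln P) (s₁ s₂ s₃ : Bool) : Rad (PS P s₁ s₂ s₃) := by
  have m1 : Measurable fun z : ℝ × ℝ × ℝ => z.1 := measurable_fst
  have m2 : Measurable fun z : ℝ × ℝ × ℝ => z.2.1 := measurable_fst.comp measurable_snd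
  have m3 : Measurable fun z : ℝ × ℝ × ℝ => z.2.2 := measurable_snd.comp measurable_snd
  refine ⟨?_, ?_, ?_⟩
  · unfold PS
    refine Measurable.div_const (Measurable.mul ?_ (gg_meas hP.cont.measurable s₁ s₂ s₃)) _
    exact ((m1.const_mul _).sub (m2.const_mul _)).sub (m3.const_mul _)
  · intro r hr a b c
    unfold PS
    rw [gg_hom hP.hom s₁ s₂ s₃ hr]
    ring
  · obtain ⟨C, hC, hb⟩ := hP.bd
    refine ⟨8 * C, by positivity, ?_⟩
    intro a b c h1 h2 h3 h4 h5 h6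
    unfold PS
    have e := gg_bd hC hb s₁ s₂ s₃ h1 h2 h3 h4 h5 h6
    have hl : |2 * sg s₁ * a - sg s₂ * b - sg s₃ * c| ≤ 2 * (a + b + c) := by
      cases s₁ <;> cases s₂ <;> cases s₃ <;> simp only [sg, if_true, Bool.false_eq_true, if_false] <;>
        rw [abs_le] <;> constructor <;> linarith
    rw [abs_div, abs_mul]
    have h3' : |(3 : ℝ)| = 3 := by norm_num
    rw [h3', div_le_iff₀ (by norm_num)]
    calc |2 * sg s₁ * a - sg s₂ * b - sg s₃ * c| * |gg P s₁ s₂ s₃ a b c|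
        ≤ (2 * (a + b + c)) * (12 * C * (a + b + c) ^ 3) :=
          mul_le_mul hl e (abs_nonneg _) (by positivity)
      _ = 8 * C * (a + b + c) ^ 4 * 3 := by ring

/-- TARGET -/
theorem PS_anti (P : ℝ → ℝ → ℝ → ℝ) (s₁ s₂ s₃ : Bool) (a b c : ℝ) :
    PS P s₁ s₃ s₂ a c b = -PS P s₁ s₂ s₃ a b c := by
  unfold PS
  rw [gg_swap P s₁ s₂ s₃ a b c]
  ring

/-- TARGET -/
theorem PS_hel (P : ℝ → ℝ → ℝ → ℝ) (s₁ s₂ s₃ : Bool) (a b c : ℝ) :
    sg s₃ * c * (PS P s₁ s₂ s₃ a b c + PS P s₂ s₁ s₃ b a c)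
      + sg s₁ * a * (PS P s₂ s₃ s₁ b c a + PS P s₃ s₂ s₁ c b a)
      + sg s₂ * b * (PS P s₃ s₁ s₂ c a b + PS P s₁ s₃ s₂ a c b) = 0 := by
  have e1 : gg P s₂ s₁ s₃ b a c = -gg P s₁ s₂ s₃ a b c := gg_swap' P s₁ s₂ s₃ a b c
  have e2 : gg P s₂ s₃ s₁ b c a = gg P s₁ s₂ s₃ a b c := by
    rw [gg_swap P s₂ s₁ s₃ b a c, e1, neg_neg]
  have e3 : gg P s₃ s₂ s₁ c b a = -gg P s₁ s₂ s₃ a b c := by
    rw [gg_swap' P s₂ s₃ s₁ b c a, e2]
  have e4 : gg P s₁ s₃ s₂ a c b = -gg P s₁ s₂ s₃ a b c := gg_swap P s₁ s₂ s₃ a b c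
  have e5 : gg P s₃ s₁ s₂ c a b = gg P s₁ s₂ s₃ a b c := by
    rw [gg_swap' P s₁ s₃ s₂ a c b, e4, neg_neg]
  unfold PS
  rw [e1, e2, e3, e4, e5]
  ring

/-- TARGET -/
theorem PS_not (P : ℝ → ℝ → ℝ → ℝ) (s₁ s₂ s₃ : Bool) (a b c : ℝ) :
    PS P (!s₁) (!s₂) (!s₃) a b c = PS P s₁ s₂ s₃ a b c := by
  unfold PS
  rw [gg_not, sg_not, sg_not, sg_not]
  ring

/-- TARGET -/
theorem PS_sum {P : ℝ → ℝ → ℝ → ℝ} (hP : ∀ a b c, P a c b = -P a b c) (s₃ : Bool) {a b c : ℝ}
    (h : a * b + b * c + c * a ≠ 0) :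
    ∑ s₁ : Bool, ∑ s₂ : Bool, (PS P s₁ s₂ s₃ a b c + PS P s₂ s₁ s₃ b a c) = P a b c + P b a c := by
  have h1 : P a c b = -P a b c := hP a b c
  have h2 : P b a c = -P b c a := hP b c a
  have h3 : P c b a = -P c a b := hP c a b
  have k1 : b * a + a * c + c * b ≠ 0 := by
    intro h'; apply h; linarith
  have k2 : b * c + c * a + a * b ≠ 0 := by
    intro h'; apply h; linarith
  have k3 : c * a + a * b + b * c ≠ 0 := by
    intro h'; apply h; linarith
  have k4 : a * c + c * b + b * a ≠ 0 := by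
    intro h'; apply h; linarith
  have k5 : c * b + b * a + a * c ≠ 0 := by
    intro h'; apply h; linarith
  have hPS : ∀ s₁ s₂ : Bool, PS P s₁ s₂ s₃ a b c + PS P s₂ s₁ s₃ b a c =
      (sg s₁ * a - sg s₂ * b) * gg P s₁ s₂ s₃ a b c := by
    intro s₁ s₂
    unfold PS
    rw [gg_swap' P s₁ s₂ s₃ a b c]
    ring
  simp only [hPS, Fintype.sum_bool]
  cases s₃
  · simp only [gg, sg, if_true, Bool.false_eq_true, if_false]
    unfold HH AA
    rw [h1, h2, h3]
    have e1 : b * c + c * a + a * b = a * b + b * c + c * a := by ring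
    have e2 : c * a + a * b + b * c = a * b + b * c + c * a := by ring
    rw [e1, e2]
    generalize hD : a * b + b * c + c * a = D at h
    field_simp
    rw [← hD]
    ring
  · simp only [gg, sg, if_true, Bool.false_eq_true, if_false]
    unfold HH AA
    rw [h1, h2, h3]
    have e1 : b * c + c * a + a * b = a * b + b * c + c * a := by ring
    have e2 : c * a + a * b + b * c = a * b + b * c + c * a := by ring
    rw [e1, e2]
    generalize hD : a * b + b * c + c * a = D at h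
    field_simp
    rw [← hD]
    ring

end H706N.JH11

namespace H706N

alias PS_rad := JH11.PS_rad
alias PS_anti := JH11.PS_anti
alias PS_hel := JH11.PS_hel
alias PS_not := JH11.PS_not
alias PS_sum := JH11.PS_sum

end H706N
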