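import Pool.Agent.Helper706_NS.Defs3

set_option autoImplicit false
open Set Filter Topology MeasureTheory
open scoped ComplexConjugate ContDiff

namespace H706N.JTI

theorem aux_nsq (v : E) : ‖v‖ ^ 2 = v 0 ^ 2 + v 1 ^ 2 + v 2 ^ 2 := by
  rw [EuclideanSpace.norm_sq_eq, Fin.sum_univ_three]
  simp only [Real.norm_eq_abs, sq_abs]

theorem aux_cr0 (p q : E) : cr p q 0 = p 1 * q 2 - p 2 * q 1 := by simp [cr]
theorem aux_cr1 (p q : E) : cr p q 1 = p 2 * q 0 - p 0 * q 2 := by simp [cr]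
theorem aux_cr2 (p q : E) : cr p q 2 = p 0 * q 1 - p 1 * q 0 := by simp [cr]

theorem aux_add (p q : E) (i : Fin 3) : (p + q) i = p i + q i := rfl

theorem aux_abs (A B c x y m : ℝ) (hA : 0 ≤ A) (hB : 0 ≤ B) (hc : c ^ 2 ≤ A * B)
    (hx : 0 ≤ x) (hy : 0 ≤ y) (hm : m ^ 2 ≤ x * y) :
    -(A * y + B * x) ≤ 2 * c * m ∧ 2 * c * m ≤ A * y + B * x := by
  apply abs_le_of_sq_le_sq'
  · have h1 : c ^ 2 * m ^ 2 ≤ (A * B) * (x * y) :=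
      mul_le_mul hc hm (sq_nonneg _) (mul_nonneg hA hB)
    have h2 : 0 ≤ (A * y - B * x) ^ 2 := sq_nonneg _
    calc (2 * c * m) ^ 2 = 4 * (c ^ 2 * m ^ 2) := by ring
      _ ≤ 4 * ((A * B) * (x * y)) := by linarith
      _ ≤ 4 * ((A * B) * (x * y)) + (A * y - B * x) ^ 2 := by linarith
      _ = (A * y + B * x) ^ 2 := by ring
  · positivity

theorem aux_pos (A B c x y m : ℝ) (hA : 0 ≤ A) (hB : 0 ≤ B) (hc : c ^ 2 ≤ A * B)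
    (h1 : 0 < x * y - m ^ 2) (h2 : 0 < A * y + B * x - 2 * c * m) : 0 < x ∧ 0 < y := by
  have hxy : 0 < x * y := by linarith [sq_nonneg m]
  rcases lt_or_ge 0 x with hx | hx
  · exact ⟨hx, (mul_pos_iff_of_pos_left hx).1 hxy⟩
  · exfalso
    have hx' : x < 0 := lt_of_le_of_ne hx (fun h0 => by rw [h0, zero_mul] at hxy; exact lt_irrefl _ hxy)
    have hy' : y < 0 := by
      by_contra h0
      exact absurd (mul_nonpos_of_nonpos_of_nonneg hx (not_lt.1 h0)) (not_le.2 hxy)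
    have := (aux_abs A B c (-x) (-y) m hA hB hc (by linarith) (by linarith)
      (by rw [neg_mul_neg]; linarith)).1
    linarith

theorem aux_pair {η : ℝ} (hη : 0 < η) (p q : E)
    (hZ : 0 < η ^ 2 * ‖cr p q‖ ^ 2 - cr p q 0 ^ 2 - cr p q 1 ^ 2) :
    0 < η ^ 2 * ‖p‖ ^ 2 - p 2 ^ 2 ∧ 0 < η ^ 2 * ‖q‖ ^ 2 - q 2 ^ 2 ∧
    η ^ 2 * (η ^ 2 * ‖cr p q‖ ^ 2 - cr p q 0 ^ 2 - cr p q 1 ^ 2)
      ≤ (η ^ 2 * ‖p‖ ^ 2 - p 2 ^ 2) * (η ^ 2 * ‖q‖ ^ 2 - q 2 ^ 2) ∧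
    η ^ 2 * ‖cr p q‖ ^ 2 ≤ 2 * (‖p‖ ^ 2 * (η ^ 2 * ‖q‖ ^ 2 - q 2 ^ 2)
      + ‖q‖ ^ 2 * (η ^ 2 * ‖p‖ ^ 2 - p 2 ^ 2)) := by
  obtain ⟨c, hc⟩ : ∃ c, c = p 0 * q 0 + p 1 * q 1 + p 2 * q 2 := ⟨_, rfl⟩
  obtain ⟨m, hm⟩ : ∃ m, m = η ^ 2 * c - p 2 * q 2 := ⟨_, rfl⟩
  have I1 : (η ^ 2 * ‖p‖ ^ 2 - p 2 ^ 2) * (η ^ 2 * ‖q‖ ^ 2 - q 2 ^ 2) - m ^ 2
      = η ^ 2 * (η ^ 2 * ‖cr p q‖ ^ 2 - cr p q 0 ^ 2 - cr p q 1 ^ 2) := by
    rw [hm, hc, aux_nsq p, aux_nsq q, aux_nsq (cr p q), aux_cr0, aux_cr1, aux_cr2]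
    ring
  have I2 : ‖p‖ ^ 2 * (η ^ 2 * ‖q‖ ^ 2 - q 2 ^ 2) + ‖q‖ ^ 2 * (η ^ 2 * ‖p‖ ^ 2 - p 2 ^ 2)
      - 2 * c * m = η ^ 2 * ‖cr p q‖ ^ 2
        + (η ^ 2 * ‖cr p q‖ ^ 2 - cr p q 0 ^ 2 - cr p q 1 ^ 2) := by
    rw [hm, hc, aux_nsq p, aux_nsq q, aux_nsq (cr p q), aux_cr0, aux_cr1, aux_cr2]
    ring
  have hcc : c ^ 2 ≤ ‖p‖ ^ 2 * ‖q‖ ^ 2 := by
    have e : ‖p‖ ^ 2 * ‖q‖ ^ 2 - c ^ 2 = ‖cr p q‖ ^ 2 := by
      rw [hc, aux_nsq p, aux_nsq q, aux_nsq (cr p q), aux_cr0, aux_cr1, aux_cr2]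
      ring
    linarith [sq_nonneg ‖cr p q‖]
  have hη2 : 0 < η ^ 2 := by positivity
  have hZ1 : 0 < η ^ 2 * (η ^ 2 * ‖cr p q‖ ^ 2 - cr p q 0 ^ 2 - cr p q 1 ^ 2) := mul_pos hη2 hZ
  have hN : 0 ≤ η ^ 2 * ‖cr p q‖ ^ 2 := by positivity
  obtain ⟨hx, hy⟩ := aux_pos (‖p‖ ^ 2) (‖q‖ ^ 2) c (η ^ 2 * ‖p‖ ^ 2 - p 2 ^ 2)
    (η ^ 2 * ‖q‖ ^ 2 - q 2 ^ 2) m (sq_nonneg _) (sq_nonneg _) hcc (by rw [I1]; exact hZ1)
    (by rw [I2]; linarith)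
  have hab := (aux_abs (‖p‖ ^ 2) (‖q‖ ^ 2) c (η ^ 2 * ‖p‖ ^ 2 - p 2 ^ 2)
    (η ^ 2 * ‖q‖ ^ 2 - q 2 ^ 2) m (sq_nonneg _) (sq_nonneg _) hcc hx.le hy.le
    (by linarith)).1
  refine ⟨hx, hy, ?_, ?_⟩
  · linarith [sq_nonneg m]
  · linarith

theorem aux_cr_add (p q : E) : cr p (p + q) = cr p q := by
  ext i
  fin_cases i
  · show cr p (p + q) 0 = cr p q 0
    rw [aux_cr0, aux_cr0, aux_add, aux_add]; ring
  · show cr p (p + q) 1 = cr p q 1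
    rw [aux_cr1, aux_cr1, aux_add, aux_add]; ring
  · show cr p (p + q) 2 = cr p q 2
    rw [aux_cr2, aux_cr2, aux_add, aux_add]; ring

theorem aux_Z_symm (η : ℝ) (p q : E) :
    η ^ 2 * ‖cr q (p + q)‖ ^ 2 - cr q (p + q) 0 ^ 2 - cr q (p + q) 1 ^ 2
      = η ^ 2 * ‖cr p q‖ ^ 2 - cr p q 0 ^ 2 - cr p q 1 ^ 2 := by
  rw [aux_nsq, aux_nsq, aux_cr0, aux_cr1, aux_cr2, aux_cr0, aux_cr1, aux_cr2, aux_add, aux_add,
    aux_add]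
  ring

/-- TARGET -/
theorem ee_pos {η : ℝ} (hη : 0 < η) {p q : E}
    (hZ : 0 < η ^ 2 * ‖cr p q‖ ^ 2 - cr p q 0 ^ 2 - cr p q 1 ^ 2) :
    0 < ee η p ∧ 0 < ee η q ∧ 0 < ee η (p + q) := by
  obtain ⟨h1, h2, -, -⟩ := aux_pair hη p q hZ
  obtain ⟨-, h3, -, -⟩ := aux_pair hη p (p + q) (by rw [aux_cr_add]; exact hZ)
  exact ⟨Real.sqrt_pos.2 h1, Real.sqrt_pos.2 h2, Real.sqrt_pos.2 h3⟩

theorem aux_three (η S n Z M u v : ℝ) (hη : 0 < η) (hS : 0 ≤ S) (hn : 0 ≤ n) (hM : 0 ≤ M) (hu : 0 ≤ u)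
    (h1 : η ^ 2 * n ^ 2 ≤ S ^ 2 * M) (h2 : η ^ 2 * Z ≤ u * v) :
    η ^ 2 * (n * Real.sqrt Z) ≤ S * (Real.sqrt M * (Real.sqrt u * Real.sqrt v)) := by
  have g1 : η * n ≤ S * Real.sqrt M := by
    have := Real.sqrt_le_sqrt h1
    rw [Real.sqrt_mul (sq_nonneg _), Real.sqrt_mul (sq_nonneg _), Real.sqrt_sq hη.le,
      Real.sqrt_sq hn, Real.sqrt_sq hS] at this
    exact this
  have g2 : η * Real.sqrt Z ≤ Real.sqrt u * Real.sqrt v := by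
    have := Real.sqrt_le_sqrt h2
    rw [Real.sqrt_mul (sq_nonneg _), Real.sqrt_sq hη.le, Real.sqrt_mul hu] at this
    exact this
  calc η ^ 2 * (n * Real.sqrt Z) = (η * n) * (η * Real.sqrt Z) := by ring
    _ ≤ (S * Real.sqrt M) * (Real.sqrt u * Real.sqrt v) :=
        mul_le_mul g1 g2 (mul_nonneg hη.le (Real.sqrt_nonneg _)) (mul_nonneg hS (Real.sqrt_nonneg _))
    _ = _ := by ring

/-- TARGET -/
theorem ee_key {η : ℝ} (hη : 0 < η) (p q : E) :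
    |cr p q 2| * Real.sqrt (η ^ 2 * ‖cr p q‖ ^ 2 - cr p q 0 ^ 2 - cr p q 1 ^ 2)
      ≤ (‖p‖ + ‖q‖ + ‖p + q‖) / η ^ 2 * (ee η p * ee η q * ee η (p + q)) := by
  have hη2 : 0 < η ^ 2 := by positivity
  have hS0 : 0 ≤ ‖p‖ + ‖q‖ + ‖p + q‖ := by positivity
  rcases le_or_gt (η ^ 2 * ‖cr p q‖ ^ 2 - cr p q 0 ^ 2 - cr p q 1 ^ 2) 0 with hZ | hZ
  · rw [Real.sqrt_eq_zero_of_nonpos hZ, mul_zero]
    exact mul_nonneg (div_nonneg hS0 hη2.le) (mul_nonneg (mul_nonneg (Real.sqrt_nonneg _)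
      (Real.sqrt_nonneg _)) (Real.sqrt_nonneg _))
  · obtain ⟨hx, hy, hxy, hN⟩ := aux_pair hη p q hZ
    obtain ⟨-, hz, hxz, -⟩ := aux_pair hη p (p + q) (by rw [aux_cr_add]; exact hZ)
    rw [aux_cr_add] at hxz
    obtain ⟨-, -, hyz, -⟩ := aux_pair hη q (p + q) (by rw [aux_Z_symm]; exact hZ)
    rw [aux_Z_symm] at hyz
    have hab1 : ‖p‖ ≤ ‖p + q‖ + ‖q‖ := by
      have := norm_sub_le (p + q) q
      rwa [add_sub_cancel_right] at this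
    have hab2 : ‖q‖ ≤ ‖p + q‖ + ‖p‖ := by
      have := norm_sub_le (p + q) p
      rwa [add_sub_cancel_left] at this
    have hS : 2 * (‖p‖ ^ 2 + ‖q‖ ^ 2) ≤ (‖p‖ + ‖q‖ + ‖p + q‖) ^ 2 := by
      have hp0 := norm_nonneg p
      have hq0 := norm_nonneg q
      rcases le_total ‖p‖ ‖q‖ with h | h
      · have h3 : 2 * ‖q‖ ≤ ‖p‖ + ‖q‖ + ‖p + q‖ := by linarith
        have h4 := pow_le_pow_left₀ (by positivity) h3 2
        have h5 := pow_le_pow_left₀ hp0 h 2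
        linarith
      · have h3 : 2 * ‖p‖ ≤ ‖p‖ + ‖q‖ + ‖p + q‖ := by linarith
        have h4 := pow_le_pow_left₀ (by positivity) h3 2
        have h5 := pow_le_pow_left₀ hq0 h 2
        linarith
    have hM : ∀ M, η ^ 2 * ‖p‖ ^ 2 - p 2 ^ 2 ≤ M → η ^ 2 * ‖q‖ ^ 2 - q 2 ^ 2 ≤ M →
        η ^ 2 * ‖cr p q‖ ^ 2 ≤ (‖p‖ + ‖q‖ + ‖p + q‖) ^ 2 * M := by
      intro M h1 h2
      have hM0 : 0 ≤ M := hx.le.trans h1
      calc η ^ 2 * ‖cr p q‖ ^ 2 ≤ 2 * (‖p‖ ^ 2 * (η ^ 2 * ‖q‖ ^ 2 - q 2 ^ 2)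
            + ‖q‖ ^ 2 * (η ^ 2 * ‖p‖ ^ 2 - p 2 ^ 2)) := hN
        _ ≤ 2 * (‖p‖ ^ 2 * M + ‖q‖ ^ 2 * M) :=
            mul_le_mul_of_nonneg_left (add_le_add (mul_le_mul_of_nonneg_left h2 (sq_nonneg _))
              (mul_le_mul_of_nonneg_left h1 (sq_nonneg _))) (by norm_num)
        _ = 2 * (‖p‖ ^ 2 + ‖q‖ ^ 2) * M := by ring
        _ ≤ _ := mul_le_mul_of_nonneg_right hS hM0
    have hN2 : |cr p q 2| ≤ ‖cr p q‖ := by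
      apply abs_le_of_sq_le_sq _ (norm_nonneg _)
      rw [aux_nsq (cr p q)]
      linarith [sq_nonneg (cr p q 0), sq_nonneg (cr p q 1)]
    have main : η ^ 2 * (‖cr p q‖ * Real.sqrt (η ^ 2 * ‖cr p q‖ ^ 2 - cr p q 0 ^ 2 - cr p q 1 ^ 2))
        ≤ (‖p‖ + ‖q‖ + ‖p + q‖) * (ee η p * ee η q * ee η (p + q)) := by
      unfold ee
      obtain ⟨x, hxd⟩ : ∃ x, x = η ^ 2 * ‖p‖ ^ 2 - p 2 ^ 2 := ⟨_, rfl⟩
      obtain ⟨y, hyd⟩ : ∃ y, y = η ^ 2 * ‖q‖ ^ 2 - q 2 ^ 2 := ⟨_, rfl⟩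
      obtain ⟨z, hzd⟩ : ∃ z, z = η ^ 2 * ‖p + q‖ ^ 2 - (p + q) 2 ^ 2 := ⟨_, rfl⟩
      rw [← hxd, ← hyd] at hxy hM
      rw [← hxd, ← hzd] at hxz
      rw [← hyd, ← hzd] at hyz
      rw [← hxd] at hx
      rw [← hyd] at hy
      rw [← hzd] at hz
      rw [← hxd, ← hyd, ← hzd]
      rcases le_total x y with h1 | h1
      · rcases le_total y z with h2 | h2
        · have := aux_three η _ _ _ z x y hη hS0 (norm_nonneg _) hz.le hx.le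
            (hM z (h1.trans h2) h2) hxy
          calc _ ≤ _ := this
            _ = _ := by ring
        · have := aux_three η _ _ _ y x z hη hS0 (norm_nonneg _) hy.le hx.le
            (hM y h1 le_rfl) hxz
          calc _ ≤ _ := this
            _ = _ := by ring
      · rcases le_total x z with h2 | h2
        · have := aux_three η _ _ _ z x y hη hS0 (norm_nonneg _) hz.le hx.le
            (hM z h2 (h1.trans h2)) hxy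
          calc _ ≤ _ := this
            _ = _ := by ring
        · have := aux_three η _ _ _ x y z hη hS0 (norm_nonneg _) hx.le hy.le
            (hM x le_rfl h1) hyz
          calc _ ≤ _ := this
            _ = _ := by ring
    have h9 : |cr p q 2| * Real.sqrt (η ^ 2 * ‖cr p q‖ ^ 2 - cr p q 0 ^ 2 - cr p q 1 ^ 2)
        ≤ ‖cr p q‖ * Real.sqrt (η ^ 2 * ‖cr p q‖ ^ 2 - cr p q 0 ^ 2 - cr p q 1 ^ 2) :=
      mul_le_mul_of_nonneg_right hN2 (Real.sqrt_nonneg _)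
    refine h9.trans ?_
    rw [div_mul_eq_mul_div, le_div_iff₀ hη2]
    linarith

/-- TARGET -/
theorem cr_heron (p q : E) :
    4 * ‖cr p q‖ ^ 2 = (‖p‖ + ‖q‖ + ‖p + q‖) * dd ‖p‖ ‖q‖ ‖p + q‖ := by
  have e : (‖p‖ + ‖q‖ + ‖p + q‖) * dd ‖p‖ ‖q‖ ‖p + q‖
      = 4 * ‖p‖ ^ 2 * ‖q‖ ^ 2 - (‖p‖ ^ 2 + ‖q‖ ^ 2 - ‖p + q‖ ^ 2) ^ 2 := by
    unfold dd
    ring
  rw [e, aux_nsq p, aux_nsq q, aux_nsq (p + q), aux_nsq (cr p q), aux_cr0, aux_cr1, aux_cr2,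
    aux_add, aux_add, aux_add]
  ring

theorem ee_key2 {η : ℝ} (hη : 0 < η) (p q : E) :
    ‖cr p q‖ * Real.sqrt (η ^ 2 * ‖cr p q‖ ^ 2 - cr p q 0 ^ 2 - cr p q 1 ^ 2)
      ≤ (‖p‖ + ‖q‖ + ‖p + q‖) / η ^ 2 * (ee η p * ee η q * ee η (p + q)) := by
  have hη2 : 0 < η ^ 2 := by positivity
  have hS0 : 0 ≤ ‖p‖ + ‖q‖ + ‖p + q‖ := by positivity
  rcases le_or_gt (η ^ 2 * ‖cr p q‖ ^ 2 - cr p q 0 ^ 2 - cr p q 1 ^ 2) 0 with hZ | hZ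
  · rw [Real.sqrt_eq_zero_of_nonpos hZ, mul_zero]
    exact mul_nonneg (div_nonneg hS0 hη2.le) (mul_nonneg (mul_nonneg (Real.sqrt_nonneg _)
      (Real.sqrt_nonneg _)) (Real.sqrt_nonneg _))
  · obtain ⟨hx, hy, hxy, hN⟩ := aux_pair hη p q hZ
    obtain ⟨-, hz, hxz, -⟩ := aux_pair hη p (p + q) (by rw [aux_cr_add]; exact hZ)
    rw [aux_cr_add] at hxz
    obtain ⟨-, -, hyz, -⟩ := aux_pair hη q (p + q) (by rw [aux_Z_symm]; exact hZ)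
    rw [aux_Z_symm] at hyz
    have hab1 : ‖p‖ ≤ ‖p + q‖ + ‖q‖ := by
      have := norm_sub_le (p + q) q
      rwa [add_sub_cancel_right] at this
    have hab2 : ‖q‖ ≤ ‖p + q‖ + ‖p‖ := by
      have := norm_sub_le (p + q) p
      rwa [add_sub_cancel_left] at this
    have hS : 2 * (‖p‖ ^ 2 + ‖q‖ ^ 2) ≤ (‖p‖ + ‖q‖ + ‖p + q‖) ^ 2 := by
      have hp0 := norm_nonneg p
      have hq0 := norm_nonneg q
      rcases le_total ‖p‖ ‖q‖ with h | h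
      · have h3 : 2 * ‖q‖ ≤ ‖p‖ + ‖q‖ + ‖p + q‖ := by linarith
        have h4 := pow_le_pow_left₀ (by positivity) h3 2
        have h5 := pow_le_pow_left₀ hp0 h 2
        linarith
      · have h3 : 2 * ‖p‖ ≤ ‖p‖ + ‖q‖ + ‖p + q‖ := by linarith
        have h4 := pow_le_pow_left₀ (by positivity) h3 2
        have h5 := pow_le_pow_left₀ hq0 h 2
        linarith
    have hM : ∀ M, η ^ 2 * ‖p‖ ^ 2 - p 2 ^ 2 ≤ M → η ^ 2 * ‖q‖ ^ 2 - q 2 ^ 2 ≤ M →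
        η ^ 2 * ‖cr p q‖ ^ 2 ≤ (‖p‖ + ‖q‖ + ‖p + q‖) ^ 2 * M := by
      intro M h1 h2
      have hM0 : 0 ≤ M := hx.le.trans h1
      calc η ^ 2 * ‖cr p q‖ ^ 2 ≤ 2 * (‖p‖ ^ 2 * (η ^ 2 * ‖q‖ ^ 2 - q 2 ^ 2)
            + ‖q‖ ^ 2 * (η ^ 2 * ‖p‖ ^ 2 - p 2 ^ 2)) := hN
        _ ≤ 2 * (‖p‖ ^ 2 * M + ‖q‖ ^ 2 * M) :=
            mul_le_mul_of_nonneg_left (add_le_add (mul_le_mul_of_nonneg_left h2 (sq_nonneg _))
              (mul_le_mul_of_nonneg_left h1 (sq_nonneg _))) (by norm_num)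
        _ = 2 * (‖p‖ ^ 2 + ‖q‖ ^ 2) * M := by ring
        _ ≤ _ := mul_le_mul_of_nonneg_right hS hM0
    have main : η ^ 2 * (‖cr p q‖ * Real.sqrt (η ^ 2 * ‖cr p q‖ ^ 2 - cr p q 0 ^ 2 - cr p q 1 ^ 2))
        ≤ (‖p‖ + ‖q‖ + ‖p + q‖) * (ee η p * ee η q * ee η (p + q)) := by
      unfold ee
      obtain ⟨x, hxd⟩ : ∃ x, x = η ^ 2 * ‖p‖ ^ 2 - p 2 ^ 2 := ⟨_, rfl⟩
      obtain ⟨y, hyd⟩ : ∃ y, y = η ^ 2 * ‖q‖ ^ 2 - q 2 ^ 2 := ⟨_, rfl⟩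
      obtain ⟨z, hzd⟩ : ∃ z, z = η ^ 2 * ‖p + q‖ ^ 2 - (p + q) 2 ^ 2 := ⟨_, rfl⟩
      rw [← hxd, ← hyd] at hxy hM
      rw [← hxd, ← hzd] at hxz
      rw [← hyd, ← hzd] at hyz
      rw [← hxd] at hx
      rw [← hyd] at hy
      rw [← hzd] at hz
      rw [← hxd, ← hyd, ← hzd]
      rcases le_total x y with h1 | h1
      · rcases le_total y z with h2 | h2
        · have := aux_three η _ _ _ z x y hη hS0 (norm_nonneg _) hz.le hx.le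
            (hM z (h1.trans h2) h2) hxy
          calc _ ≤ _ := this
            _ = _ := by ring
        · have := aux_three η _ _ _ y x z hη hS0 (norm_nonneg _) hy.le hx.le
            (hM y h1 le_rfl) hxz
          calc _ ≤ _ := this
            _ = _ := by ring
      · rcases le_total x z with h2 | h2
        · have := aux_three η _ _ _ z x y hη hS0 (norm_nonneg _) hz.le hx.le
            (hM z h2 (h1.trans h2)) hxy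
          calc _ ≤ _ := this
            _ = _ := by ring
        · have := aux_three η _ _ _ x y z hη hS0 (norm_nonneg _) hx.le hy.le
            (hM x le_rfl h1) hyz
          calc _ ≤ _ := this
            _ = _ := by ring
    rw [div_mul_eq_mul_div, le_div_iff₀ hη2]
    linarith

end H706N.JTI

namespace H706N

alias ee_pos := JTI.ee_pos
alias ee_key := JTI.ee_key
alias ee_key2 := JTI.ee_key2
alias cr_heron := JTI.cr_heron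

end H706N
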