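import Pool.Agent.Helper706_NS.Defs4
import Pool.Agent.Helper706_NS.TI

set_option autoImplicit false
open Set Filter Topology MeasureTheory
open scoped ComplexConjugate ContDiff

namespace H706N.JH9

theorem dd_sorted {a b c : ℝ} (ha : 0 < a) (hab : a ≤ b) (hbc : b ≤ c) (hc : c ≤ a + b) :
    dd a b c ^ 2 * (a + b + c) ^ 4 ≤ 4096 * ((a * b * c) ^ 3 * a) := by
  have hb : 0 < b := lt_of_lt_of_le ha hab
  have hcp : 0 < c := lt_of_lt_of_le hb hbc
  have h1 : 0 ≤ dd a b c := by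
    unfold dd
    exact mul_nonneg (mul_nonneg (by linarith) (by linarith)) (by linarith)
  have h2 : dd a b c ≤ 2 * b * (2 * a) * a := by
    unfold dd
    refine mul_le_mul (mul_le_mul (by linarith) (by linarith) (by linarith) (by linarith))
      (by linarith) (by linarith) (by positivity)
  have h3 : dd a b c ^ 2 ≤ (2 * b * (2 * a) * a) ^ 2 := pow_le_pow_left₀ h1 h2 2
  have h4 : (a + b + c) ^ 4 ≤ (4 * b) ^ 4 := pow_le_pow_left₀ (by positivity) (by linarith) 4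
  have h5 : b ^ 3 ≤ c ^ 3 := pow_le_pow_left₀ hb.le hbc 3
  calc dd a b c ^ 2 * (a + b + c) ^ 4 ≤ (2 * b * (2 * a) * a) ^ 2 * (4 * b) ^ 4 :=
        mul_le_mul h3 h4 (by positivity) (by positivity)
    _ = 4096 * (a ^ 4 * b ^ 3 * b ^ 3) := by ring
    _ ≤ 4096 * (a ^ 4 * b ^ 3 * c ^ 3) := by
        have : 0 ≤ a ^ 4 * b ^ 3 := by positivity
        nlinarith [mul_le_mul_of_nonneg_left h5 this]
    _ = _ := by ring

/-- TARGET -/
theorem dd_bd : ∃ C : ℝ, 0 ≤ C ∧ ∀ a b c : ℝ, 0 < a → 0 < b → 0 < c → a ≤ b + c → b ≤ a + c → c ≤ a + b →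
    dd a b c ^ 2 * (a + b + c) ^ 4 ≤ C * ((a * b * c) ^ 3 * min a (min b c)) := by
  refine ⟨4096, by norm_num, ?_⟩
  intro a b c ha hb hc h1 h2 h3
  rcases le_total a b with hab | hab
  · rcases le_total b c with hbc | hbc
    · rw [min_eq_left hbc, min_eq_left hab]
      exact dd_sorted ha hab hbc h3
    · rcases le_total a c with hac | hac
      · rw [min_eq_right hbc, min_eq_left hac]
        have := dd_sorted ha hac hbc (by linarith)
        convert this using 1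
        · unfold dd; ring
        · ring
      · rw [min_eq_right hbc, min_eq_right hac]
        have := dd_sorted hc hac hab (by linarith)
        convert this using 1
        · unfold dd; ring
        · ring
  · rcases le_total a c with hac | hac
    · rw [min_eq_left (hab.trans hac), min_eq_right hab]
      have := dd_sorted hb hab hac (by linarith)
      convert this using 1
      · unfold dd; ring
      · ring
    · rcases le_total b c with hbc | hbc
      · rw [min_eq_left hbc, min_eq_right hab]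
        have := dd_sorted hb hbc hac (by linarith)
        convert this using 1
        · unfold dd; ring
        · ring
      · rw [min_eq_right hbc, min_eq_right hac]
        have := dd_sorted hc hbc hab (by linarith)
        convert this using 1
        · unfold dd; ring
        · ring

theorem mug_real {CF C0 η a b c N N2 s G D Fv : ℝ} (n : ℕ) (hCF : 0 ≤ CF) (hC0 : 0 ≤ C0)
    (hη : 0 < η) (ha : 0 < a) (hb : 0 < b) (hc : 0 < c) (hN : 0 < N) (hG : 0 < G) (hD : 0 < D)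
    (hs : 0 ≤ s) (hsN : s ≤ N) (hN2 : 0 ≤ N2) (hN2N : N2 ≤ N) (hF0 : 0 ≤ Fv)
    (hF : Fv ≤ CF * (a + b + c) ^ 4) (hkey : N * s ≤ (a + b + c) / η ^ 2 * G)
    (hher : 4 * N ^ 2 = (a + b + c) * D)
    (hdd : D ^ 2 * (a + b + c) ^ 4 ≤ C0 * ((a * b * c) ^ 3 * min a (min b c))) :
    Fv * D ^ (n + 3) * (N2 * s ^ (2 * n + 1)) / (N ^ (2 * n + 2) * (a * b * c) ^ 3 * G ^ (n + 1)) ≤
      CF * (4 / η ^ 2) ^ (n + 1) * C0 * min b c := by
  have hm : min a (min b c) ≤ min b c := min_le_right _ _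
  have hm0 : 0 < min a (min b c) := lt_min ha (lt_min hb hc)
  have hη2 : (0 : ℝ) < η ^ 2 := by positivity
  have hX : 0 ≤ (a + b + c) / η ^ 2 * G := by positivity
  rw [div_le_iff₀ (by positivity)]
  have h1 : N2 * s ^ (2 * n + 1) ≤ ((a + b + c) / η ^ 2 * G) ^ (n + 1) := by
    have h2 : N2 * s ≤ (a + b + c) / η ^ 2 * G :=
      (mul_le_mul_of_nonneg_right hN2N hs).trans hkey
    have h3 : s ^ 2 ≤ (a + b + c) / η ^ 2 * G := by
      rw [sq]
      exact (mul_le_mul_of_nonneg_right hsN hs).trans hkey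
    calc N2 * s ^ (2 * n + 1) = (N2 * s) * (s ^ 2) ^ n := by rw [← pow_mul]; ring
      _ ≤ ((a + b + c) / η ^ 2 * G) * ((a + b + c) / η ^ 2 * G) ^ n :=
          mul_le_mul h2 (pow_le_pow_left₀ (by positivity) h3 n) (by positivity) hX
      _ = _ := by ring
  have h4 : Fv * D ^ (n + 3) * (N2 * s ^ (2 * n + 1)) ≤
      CF * (a + b + c) ^ 4 * D ^ (n + 3) * ((a + b + c) / η ^ 2 * G) ^ (n + 1) := by
    gcongr
  refine h4.trans ?_
  have h5 : N ^ (2 * n + 2) = ((a + b + c) * D / 4) ^ (n + 1) := by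
    rw [← hher]
    rw [show 2 * n + 2 = 2 * (n + 1) by ring, pow_mul]
    congr 1
    ring
  have h6 : ((4 : ℝ) / η ^ 2) ^ (n + 1) * ((a + b + c) * D / 4) ^ (n + 1) =
      ((a + b + c) / η ^ 2) ^ (n + 1) * D ^ (n + 1) := by
    rw [← mul_pow, ← mul_pow]
    congr 1
    field_simp
  calc CF * (a + b + c) ^ 4 * D ^ (n + 3) * ((a + b + c) / η ^ 2 * G) ^ (n + 1)
      = CF * (D ^ 2 * (a + b + c) ^ 4) *
        (((a + b + c) / η ^ 2) ^ (n + 1) * D ^ (n + 1)) * G ^ (n + 1) := by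
          rw [mul_pow]; ring
    _ ≤ CF * (C0 * ((a * b * c) ^ 3 * min a (min b c))) *
        (((a + b + c) / η ^ 2) ^ (n + 1) * D ^ (n + 1)) * G ^ (n + 1) := by gcongr
    _ ≤ CF * (C0 * ((a * b * c) ^ 3 * min b c)) *
        (((a + b + c) / η ^ 2) ^ (n + 1) * D ^ (n + 1)) * G ^ (n + 1) := by gcongr
    _ = CF * (4 / η ^ 2) ^ (n + 1) * C0 * min b c *
        (N ^ (2 * n + 2) * (a * b * c) ^ 3 * G ^ (n + 1)) := by
          rw [h5, ← h6]; ring

/-- TARGET -/
theorem mug_bd {F : ℝ → ℝ → ℝ → ℝ} (hF : Rad F) {η : ℝ} (hη : 0 < η) (hη1 : η < 1) (n : ℕ) : ∃ C : ℝ, 0 ≤ C ∧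
    ∀ p q, |mug F η n p q| ≤ C * min ‖q‖ ‖p + q‖ := by
  obtain ⟨CF, hCF, hFb⟩ := hF.bd
  obtain ⟨C0, hC0, hdd⟩ := dd_bd
  refine ⟨CF * (4 / η ^ 2) ^ (n + 1) * C0, by positivity, ?_⟩
  intro p q
  by_cases hZ : 0 < η ^ 2 * ‖cr p q‖ ^ 2 - cr p q 0 ^ 2 - cr p q 1 ^ 2
  · have hN : 0 < ‖cr p q‖ := by
      by_contra h
      have h0 : ‖cr p q‖ = 0 := le_antisymm (not_lt.1 h) (norm_nonneg _)
      rw [h0] at hZ
      nlinarith [sq_nonneg (cr p q 0), sq_nonneg (cr p q 1)]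
    obtain ⟨hG1, hG2, hG3⟩ := ee_pos hη hZ
    have hG : 0 < ee η p * ee η q * ee η (p + q) := by positivity
    have hher := cr_heron p q
    have t1 : ‖p + q‖ ≤ ‖p‖ + ‖q‖ := norm_add_le _ _
    have t2 : ‖p‖ ≤ ‖q‖ + ‖p + q‖ := by
      have := norm_sub_le (p + q) q
      rw [add_sub_cancel_right] at this
      linarith
    have t3 : ‖q‖ ≤ ‖p‖ + ‖p + q‖ := by
      have := norm_sub_le (p + q) p
      rw [add_sub_cancel_left] at this
      linarith
    have hN2 : 0 < 4 * ‖cr p q‖ ^ 2 := by positivity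
    have hdne : dd ‖p‖ ‖q‖ ‖p + q‖ ≠ 0 := by
      intro h
      rw [hher, h, mul_zero] at hN2
      exact lt_irrefl _ hN2
    have ha : 0 < ‖p‖ := by
      rcases (norm_nonneg p).lt_or_eq with h | h
      · exact h
      · exfalso
        apply hdne
        have : ‖q‖ = ‖p + q‖ := by linarith
        unfold dd
        rw [← this, ← h]; ring
    have hb : 0 < ‖q‖ := by
      rcases (norm_nonneg q).lt_or_eq with h | h
      · exact h
      · exfalso
        apply hdne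
        have : ‖p‖ = ‖p + q‖ := by linarith
        unfold dd
        rw [← this, ← h]; ring
    have hc : 0 < ‖p + q‖ := by
      rcases (norm_nonneg (p + q)).lt_or_eq with h | h
      · exact h
      · exfalso
        apply hdne
        have : ‖p‖ = ‖q‖ := by linarith
        unfold dd
        rw [← h, this]; ring
    have hD : 0 < dd ‖p‖ ‖q‖ ‖p + q‖ := by
      rw [hher] at hN2
      exact (mul_pos_iff_of_pos_left (by positivity)).1 hN2
    have hs : 0 ≤ Real.sqrt (η ^ 2 * ‖cr p q‖ ^ 2 - cr p q 0 ^ 2 - cr p q 1 ^ 2) := Real.sqrt_nonneg _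
    have hsN : Real.sqrt (η ^ 2 * ‖cr p q‖ ^ 2 - cr p q 0 ^ 2 - cr p q 1 ^ 2) ≤ ‖cr p q‖ := by
      rw [Real.sqrt_le_left (norm_nonneg _)]
      have h1 : η ^ 2 ≤ 1 := by nlinarith
      nlinarith [sq_nonneg (cr p q 0), sq_nonneg (cr p q 1), sq_nonneg ‖cr p q‖]
    have hN2N : |cr p q 2| ≤ ‖cr p q‖ := by
      have := PiLp.norm_apply_le (cr p q) 2
      rwa [Real.norm_eq_abs] at this
    have hmug : |mug F η n p q| = |F ‖p‖ ‖q‖ ‖p + q‖| * dd ‖p‖ ‖q‖ ‖p + q‖ ^ (n + 3) *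
        (|cr p q 2| * Real.sqrt (η ^ 2 * ‖cr p q‖ ^ 2 - cr p q 0 ^ 2 - cr p q 1 ^ 2) ^ (2 * n + 1))
        / (‖cr p q‖ ^ (2 * n + 2) * (‖p‖ * ‖q‖ * ‖p + q‖) ^ 3 *
        (ee η p * ee η q * ee η (p + q)) ^ (n + 1)) := by
      unfold mug
      rw [abs_div, abs_mul, abs_mul, abs_of_nonneg (pow_nonneg hD.le _),
        abs_of_nonneg (a := |cr p q 2| * _) (by positivity),
        abs_of_nonneg (a := ‖cr p q‖ ^ (2 * n + 2) * _ * _) (by positivity)]
    rw [hmug]
    exact mug_real n hCF hC0 hη ha hb hc hN hG hD hs hsN (abs_nonneg _) hN2N (abs_nonneg _)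
      (hFb _ _ _ ha.le hb.le hc.le t2 t3 t1) (ee_key2 hη p q) hher
      (hdd _ _ _ ha hb hc t2 t3 t1)
  · have hs : Real.sqrt (η ^ 2 * ‖cr p q‖ ^ 2 - cr p q 0 ^ 2 - cr p q 1 ^ 2) = 0 :=
      Real.sqrt_eq_zero_of_nonpos (not_lt.1 hZ)
    have h0 : mug F η n p q = 0 := by
      unfold mug
      rw [hs, zero_pow (by omega), mul_zero, mul_zero, zero_div]
    rw [h0, abs_zero]
    positivity

end H706N.JH9

namespace H706N

alias dd_bd := JH9.dd_bd
alias mug_bd := JH9.mug_bd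

end H706N
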