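import Pool.Agent.Helper706_NS.Defs4
import Pool.Agent.Helper706_NS.HV1
import Pool.Agent.Helper706_NS.HV2
import Pool.Agent.Helper706_NS.TC
import Pool.Agent.Helper706_NS.H9
import Pool.Agent.Helper706_NS.H10
import Pool.Agent.Helper706_NS.H11

/-!
The helical symbols.
-/

set_option autoImplicit false

open Set Filter Topology MeasureTheory
open scoped ComplexConjugate ContDiff

namespace H706N

theorem hls_lin₁ (P : ℝ → ℝ → ℝ → ℝ) (η : ℝ) (n : ℕ) (p q : E) (c : ℂ) (a a' b : W) :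
    hls P η n p q (a + c • a') b = hls P η n p q a b + c • hls P η n p q a' b := by
  unfold hls
  simp only [Fintype.sum_bool, dt_add, dt_smul, smul_add, smul_smul, add_mul, mul_add, add_smul]
  simp only [← smul_smul]
  module

theorem hls_lin₂ (P : ℝ → ℝ → ℝ → ℝ) (η : ℝ) (n : ℕ) (p q : E) (c : ℂ) (a b b' : W) :
    hls P η n p q a (b + c • b') = hls P η n p q a b + c • hls P η n p q a b' := by
  unfold hls
  simp only [Fintype.sum_bool, dt_add, dt_smul, smul_add, smul_smul, add_mul, mul_add, add_smul]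
  simp only [← smul_smul]
  module

theorem hls_herm (P : ℝ → ℝ → ℝ → ℝ) (η : ℝ) (n : ℕ) (p q : E) (a b : W) :
    hls P η n (-p) (-q) (cj a) (cj b) = cj (hls P η n p q a b) := by
  have e : -p + -q = -(p + q) := by abel
  unfold hls
  simp only [Fintype.sum_bool, cj_add, cj_smul, e, pz_neg, dt_cj, mug_neg, map_mul, map_neg,
    Complex.conj_ofReal, cj_cj]
  simp only [map_div₀, map_one, map_ofNat]

theorem hls_divf (P : ℝ → ℝ → ℝ → ℝ) (η : ℝ) (n : ℕ) (p q : E) (a b : W) :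
    kd (p + q) (hls P η n p q a b) = 0 := by
  unfold hls
  simp only [Fintype.sum_bool, ← dt_toW, dt_add, dt_smul]
  simp only [dt_toW, kd_pz, mul_zero, add_zero]

theorem hls_supp (P : ℝ → ℝ → ℝ → ℝ) (η : ℝ) (n : ℕ) (p q : E) (a b : W)
    (h : p ∉ band η ∨ q ∉ band η ∨ p + q ∉ band η) : hls P η n p q a b = 0 := by
  unfold hls
  simp only [Fintype.sum_bool, mug_supp _ η n p q h, Complex.ofReal_zero, neg_zero, zero_mul,
    zero_smul, add_zero]

theorem meas_dt {X : Type*} [MeasurableSpace X] {f g : X → W} (hf : Measurable f)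
    (hg : Measurable g) : Measurable fun x => dt (f x) (g x) := by
  unfold dt
  refine Finset.measurable_sum _ fun j _ => ?_
  have hj : Continuous fun w : W => w j := (continuous_apply j).comp (PiLp.continuous_ofLp 2 _)
  exact (hj.measurable.comp hf).mul (hj.measurable.comp hg)

theorem meas_cj {X : Type*} [MeasurableSpace X] {f : X → W} (hf : Measurable f) :
    Measurable fun x => cj (f x) := by
  unfold cj
  have hj : ∀ j, Continuous fun w : W => w j := fun j =>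
    (continuous_apply j).comp (PiLp.continuous_ofLp 2 _)
  have h1 : Measurable fun x => fun j => conj (f x j) :=
    measurable_pi_lambda _ fun j => Complex.continuous_conj.measurable.comp ((hj j).measurable.comp hf)
  exact (PiLp.continuous_toLp 2 (fun _ : Fin 3 => ℂ)).measurable.comp h1

theorem hls_meas {P : ℝ → ℝ → ℝ → ℝ} (hP : Pln P) (η : ℝ) (n : ℕ) (g h : E → W) (hg : Measurable g)
    (hh : Measurable h) : Measurable fun z : E × E => hls P η n z.1 z.2 (g z.1) (h z.2) := by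
  unfold hls
  refine Finset.measurable_sum _ fun s₁ _ => Finset.measurable_sum _ fun s₂ _ =>
    Finset.measurable_sum _ fun s₃ _ => ?_
  have h1 := mug_meas (PS_rad hP s₁ s₂ s₃) η n
  have h2 : Measurable fun z : E × E => dt (pz s₁ z.1) (g z.1) :=
    meas_dt ((pz_meas s₁).comp measurable_fst) (hg.comp measurable_fst)
  have h3 : Measurable fun z : E × E => dt (pz s₂ z.2) (h z.2) :=
    meas_dt ((pz_meas s₂).comp measurable_snd) (hh.comp measurable_snd)
  have h4 : Measurable fun z : E × E => cj (pz s₃ (z.1 + z.2)) :=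
    meas_cj ((pz_meas s₃).comp (measurable_fst.add measurable_snd))
  exact ((Complex.measurable_ofReal.comp h1).neg.mul (h2.mul h3)).smul (h4.const_smul (1 / 2 : ℂ))

theorem hls_bdd {P : ℝ → ℝ → ℝ → ℝ} (hP : Pln P) {η : ℝ} (hη : 0 < η) (hη1 : η < 1) (n : ℕ) :
    ∃ C : ℝ, Bdd C (hls P η n) := by
  choose C hC0 hC using fun s : Bool × Bool × Bool => mug_bd (PS_rad hP s.1 s.2.1 s.2.2) hη hη1 n
  refine ⟨∑ s₁ : Bool, ∑ s₂ : Bool, ∑ s₃ : Bool, 4 * C (s₁, s₂, s₃), ?_, fun p q a b _ => ?_⟩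
  · refine Finset.sum_nonneg fun _ _ => Finset.sum_nonneg fun _ _ => Finset.sum_nonneg fun _ _ => ?_
    exact mul_nonneg (by norm_num) (hC0 _)
  unfold hls
  rw [Finset.sum_mul, Finset.sum_mul]
  refine (norm_sum_le _ _).trans (Finset.sum_le_sum fun s₁ _ => ?_)
  rw [Finset.sum_mul, Finset.sum_mul]
  refine (norm_sum_le _ _).trans (Finset.sum_le_sum fun s₂ _ => ?_)
  rw [Finset.sum_mul, Finset.sum_mul]
  refine (norm_sum_le _ _).trans (Finset.sum_le_sum fun s₃ _ => ?_)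
  rw [norm_smul, norm_smul, norm_mul, norm_mul, norm_neg, Complex.norm_real, norm_cj,
    Real.norm_eq_abs]
  have h1 : ‖dt (pz s₁ p) a‖ ≤ 2 * ‖a‖ :=
    (norm_dt _ _).trans (mul_le_mul_of_nonneg_right (pz_norm _ _) (norm_nonneg _))
  have h2 : ‖dt (pz s₂ q) b‖ ≤ 2 * ‖b‖ :=
    (norm_dt _ _).trans (mul_le_mul_of_nonneg_right (pz_norm _ _) (norm_nonneg _))
  have h3 : ‖pz s₃ (p + q)‖ ≤ 2 := pz_norm _ _
  have h4 := hC (s₁, s₂, s₃) p q
  have h5 : ‖(1 / 2 : ℂ)‖ = 1 / 2 := by norm_num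
  rw [h5]
  have h0 := hC0 (s₁, s₂, s₃)
  have hm : 0 ≤ min ‖q‖ ‖p + q‖ := le_min (norm_nonneg _) (norm_nonneg _)
  calc |mug (PS P s₁ s₂ s₃) η n p q| * (‖dt (pz s₁ p) a‖ * ‖dt (pz s₂ q) b‖)
        * (1 / 2 * ‖pz s₃ (p + q)‖)
      ≤ (C (s₁, s₂, s₃) * min ‖q‖ ‖p + q‖) * ((2 * ‖a‖) * (2 * ‖b‖)) * (1 / 2 * 2) := by
        gcongr
    _ = 4 * C (s₁, s₂, s₃) * min ‖q‖ ‖p + q‖ * (‖a‖ * ‖b‖) := by ring

theorem hls_inv {P : ℝ → ℝ → ℝ → ℝ} (hP : Pln P) (η : ℝ) (n : ℕ) : Inv (hls P η n) where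
  hom r hr p q a b := by
    unfold hls
    simp only [Fintype.sum_bool, ← smul_add r p q, pz_smul _ hr, mug_hom (PS_rad hP _ _ _) η n hr]
    push_cast
    simp only [← Complex.coe_smul]
    module
  rot θ p q a b := by
    have e : rz θ p + rz θ q = rz θ (p + q) := by
      unfold rz
      ext i
      fin_cases i <;> simp <;> ring
    have hz : ∀ (z : ℂ) (x : W), rzW θ (z • x) = z • rzW θ x := by
      intro z x
      unfold rzW
      ext i
      fin_cases i <;> simp <;> ring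
    have ha : ∀ (x y : W), rzW θ (x + y) = rzW θ x + rzW θ y := by
      intro x y
      unfold rzW
      ext i
      fin_cases i <;> simp <;> ring
    unfold hls
    simp only [Fintype.sum_bool, e, pz_rz, dt_rzW, mug_rz, cj_rzW, ha, hz]
  par p q a b := by
    have e : -p + -q = -(p + q) := by abel
    have hn : ∀ x y : W, dt (-x) y = -dt x y := by
      intro x y
      have := dt_smul (-1) y x
      rw [dt_comm, show (-1 : ℂ) • x = -x by simp] at this
      rw [this, dt_comm]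
      ring
    have hc : ∀ x : W, cj (-x) = -cj x := by
      intro x
      have := cj_smul (-1) x
      simpa using this
    unfold hls
    simp only [e, pz_neg, pz_not, mug_neg, hn, hc]
    simp only [Fintype.sum_bool, Bool.not_true, Bool.not_false]
    have k : ∀ s₁ s₂ s₃ : Bool, mug (PS P (!s₁) (!s₂) (!s₃)) η n p q = mug (PS P s₁ s₂ s₃) η n p q := by
      intro s₁ s₂ s₃
      congr 1
      funext a b c
      exact PS_not P s₁ s₂ s₃ a b c
    have k1 := k true true true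
    have k2 := k true true false
    have k3 := k true false true
    have k4 := k true false false
    simp only [Bool.not_true, Bool.not_false] at k1 k2 k3 k4
    rw [k1, k2, k3, k4]
    module

/-- The common factor of the scalar symbols. -/
noncomputable def mwt (η : ℝ) (n : ℕ) (p q : E) : ℝ :=
  dd ‖p‖ ‖q‖ ‖p + q‖ ^ (n + 3) *
      (|cr p q 2| * Real.sqrt (η ^ 2 * ‖cr p q‖ ^ 2 - cr p q 0 ^ 2 - cr p q 1 ^ 2) ^ (2 * n + 1))
    / (‖cr p q‖ ^ (2 * n + 2) * (‖p‖ * ‖q‖ * ‖p + q‖) ^ 3 *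
      (ee η p * ee η q * ee η (p + q)) ^ (n + 1))

theorem mug_mwt (F : ℝ → ℝ → ℝ → ℝ) (η : ℝ) (n : ℕ) (p q : E) :
    mug F η n p q = F ‖p‖ ‖q‖ ‖p + q‖ * mwt η n p q := by
  unfold mug mwt
  ring

theorem hls_dt (P : ℝ → ℝ → ℝ → ℝ) (η : ℝ) (n : ℕ) (p q : E) (a b c : W) :
    dt (hls P η n p q a b) (cj c) = ∑ s₁ : Bool, ∑ s₂ : Bool, ∑ s₃ : Bool,
      ((-(1 / 2 * mug (PS P s₁ s₂ s₃) η n p q) : ℝ) : ℂ) *
        (dt (pz s₁ p) a * dt (pz s₂ q) b * conj (dt (pz s₃ (p + q)) c)) := by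
  have key : ∀ (s₃ : Bool) (z : ℂ), dt (z • ((1 / 2 : ℂ) • cj (pz s₃ (p + q)))) (cj c)
      = z * (1 / 2) * conj (dt (pz s₃ (p + q)) c) := by
    intro s₃ z
    rw [dt_comm, dt_smul, dt_smul, dt_comm, dt_cj]
    ring
  have hadd : ∀ x y z : W, dt (x + y) z = dt x z + dt y z := fun x y z => by
    rw [dt_comm, dt_add, dt_comm z x, dt_comm z y]
  unfold hls
  simp only [Fintype.sum_bool, hadd, key]
  push_cast
  ring

theorem hls_skew (P : ℝ → ℝ → ℝ → ℝ) (η : ℝ) (n : ℕ) (p q : E) (a b c : W) :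
    dt (hls P η n (-p) (p + q) (cj a) c) (cj b) = -conj (dt (hls P η n p q a b) (cj c)) := by
  rw [hls_dt, hls_dt]
  have e : -p + (p + q) = q := by abel
  simp only [e, mug_third, pz_neg, dt_cj]
  simp only [mug_mwt]
  have hh := PS_anti P
  have k : ∀ s₁ s₂ s₃ : Bool, (PS P s₁ s₃ s₂ ‖p‖ ‖p + q‖ ‖q‖) = -PS P s₁ s₂ s₃ ‖p‖ ‖q‖ ‖p + q‖ :=
    fun s₁ s₂ s₃ => hh s₁ s₂ s₃ _ _ _
  simp only [Fintype.sum_bool, k, map_add, map_mul, Complex.conj_ofReal, Complex.conj_conj]
  push_cast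
  ring

theorem hls_cu (P : ℝ → ℝ → ℝ → ℝ) (η : ℝ) (n : ℕ) (p q r : E) (a b c : W) (h : p + q = -r) :
    dt (hls P η n p q a b) (cu r c) = ∑ s₁ : Bool, ∑ s₂ : Bool, ∑ s₃ : Bool,
      ((1 / 2 * (sg s₃ * ‖r‖ * mug (PS P s₁ s₂ s₃) η n p q) : ℝ) : ℂ) *
        (dt (pz s₁ p) a * dt (pz s₂ q) b * dt (pz s₃ r) c) := by
  have key : ∀ (s₃ : Bool) (z : ℂ), dt (z • ((1 / 2 : ℂ) • cj (pz s₃ (p + q)))) (cu r c)
      = z * (1 / 2) * (((-(sg s₃ * ‖r‖) : ℝ) : ℂ) * dt (pz s₃ r) c) := by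
    intro s₃ z
    rw [h, pz_neg, cj_cj, dt_comm, dt_smul, dt_smul, dt_comm, pz_cu]
    ring
  have hadd : ∀ x y z : W, dt (x + y) z = dt x z + dt y z := fun x y z => by
    rw [dt_comm, dt_add, dt_comm z x, dt_comm z y]
  unfold hls
  simp only [Fintype.sum_bool, hadd, key]
  push_cast
  ring

theorem hls_hel (P : ℝ → ℝ → ℝ → ℝ) (η : ℝ) (n : ℕ) (p q : E) (a b c : W) :
    dt (hls P η n p q a b + hls P η n q p b a) (cu (-(p + q)) c)
      + dt (hls P η n q (-(p + q)) b c + hls P η n (-(p + q)) q c b) (cu p a)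
      + dt (hls P η n (-(p + q)) p c a + hls P η n p (-(p + q)) a c) (cu q b) = 0 := by
  have hadd : ∀ x y z : W, dt (x + y) z = dt x z + dt y z := fun x y z => by
    rw [dt_comm, dt_add, dt_comm z x, dt_comm z y]
  rw [hadd, hadd, hadd,
    hls_cu P η n p q (-(p + q)) a b c (by abel),
    hls_cu P η n q p (-(p + q)) b a c (by abel),
    hls_cu P η n q (-(p + q)) p b c a (by abel),
    hls_cu P η n (-(p + q)) q p c b a (by abel),
    hls_cu P η n (-(p + q)) p q c a b (by abel),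
    hls_cu P η n p (-(p + q)) q a c b (by abel)]
  simp only [mug_swap _ η n p q, mug_p1, mug_p2, mug_p3, mug_p4, norm_neg]
  simp only [mug_mwt]
  have hh := PS_hel P
  set A := ‖p‖
  set B := ‖q‖
  set C := ‖p + q‖
  set w := mwt η n p q
  simp only [Fintype.sum_bool]
  have k : ∀ s₁ s₂ s₃ : Bool, ((sg s₃ * C * (PS P s₁ s₂ s₃ A B C + PS P s₂ s₁ s₃ B A C)
      + sg s₁ * A * (PS P s₂ s₃ s₁ B C A + PS P s₃ s₂ s₁ C B A)
      + sg s₂ * B * (PS P s₃ s₁ s₂ C A B + PS P s₁ s₃ s₂ A C B) : ℝ) : ℂ) = 0 := by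
    intro s₁ s₂ s₃
    rw [hh]
    simp
  have k1 := k true true true
  have k2 := k true true false
  have k3 := k true false true
  have k4 := k true false false
  have k5 := k false true true
  have k6 := k false true false
  have k7 := k false false true
  have k8 := k false false false
  push_cast at k1 k2 k3 k4 k5 k6 k7 k8 ⊢
  set r : E := -(p + q)
  linear_combination
    (1 / 2 * (w : ℂ) * (dt (pz true p) a * dt (pz true q) b * dt (pz true r) c)) * k1
    + (1 / 2 * (w : ℂ) * (dt (pz true p) a * dt (pz true q) b * dt (pz false r) c)) * k2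
    + (1 / 2 * (w : ℂ) * (dt (pz true p) a * dt (pz false q) b * dt (pz true r) c)) * k3
    + (1 / 2 * (w : ℂ) * (dt (pz true p) a * dt (pz false q) b * dt (pz false r) c)) * k4
    + (1 / 2 * (w : ℂ) * (dt (pz false p) a * dt (pz true q) b * dt (pz true r) c)) * k5
    + (1 / 2 * (w : ℂ) * (dt (pz false p) a * dt (pz true q) b * dt (pz false r) c)) * k6
    + (1 / 2 * (w : ℂ) * (dt (pz false p) a * dt (pz false q) b * dt (pz true r) c)) * k7
    + (1 / 2 * (w : ℂ) * (dt (pz false p) a * dt (pz false q) b * dt (pz false r) c)) * k8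

theorem hls_sym {P : ℝ → ℝ → ℝ → ℝ} (hP : Pln P) {η : ℝ} (_hη : 0 < η) (_hη1 : η < 1) (n : ℕ) :
    Sym (hls P η n) where
  lin₁ := hls_lin₁ P η n
  lin₂ := hls_lin₂ P η n
  meas g h hg hh := hls_meas hP η n g h hg hh
  herm := hls_herm P η n
  divf := hls_divf P η n
  skew p q a b c _ _ _ := hls_skew P η n p q a b c
  hel p q a b c _ _ _ := hls_hel P η n p q a b c

end H706N
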