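import Pool.Agent.Helper706_NS.Defs4
import Pool.Agent.Helper706_NS.A2
import Pool.Agent.Helper706_NS.TC

set_option autoImplicit false
open Set Filter Topology MeasureTheory
open scoped ComplexConjugate ContDiff

namespace H706N.JH7

lemma neg_apply2 (k : E) : (-k) 2 = -(k 2) := by simp

lemma mem_band_neg (η : ℝ) (k : E) : -k ∈ band η ↔ k ∈ band η := by
  simp [band]

lemma mem_band_smul (η : ℝ) {r : ℝ} (hr : 0 < r) (k : E) : r • k ∈ band η ↔ k ∈ band η := by
  have h1 : (r • k) 2 = r * k 2 := by simp
  have h2 : ‖r • k‖ = r * ‖k‖ := by rw [norm_smul, Real.norm_of_nonneg hr.le]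
  simp only [band, Set.mem_ofPred_eq, h1, h2]
  have h3 : 0 < r ^ 2 := by positivity
  constructor
  · intro h
    have : r ^ 2 * (k 2 ^ 2) ≤ r ^ 2 * (η ^ 2 * ‖k‖ ^ 2) := by nlinarith
    exact le_of_mul_le_mul_left this h3
  · intro h
    have := mul_le_mul_of_nonneg_left h h3.le
    nlinarith

lemma rz_two (θ : ℝ) (k : E) : (rz θ k) 2 = k 2 := by simp [rz]

lemma mem_band_rz (η θ : ℝ) (k : E) : rz θ k ∈ band η ↔ k ∈ band η := by
  simp only [band, Set.mem_ofPred_eq, rz_two, rz_norm]

lemma rz_add (θ : ℝ) (p q : E) : rz θ p + rz θ q = rz θ (p + q) := by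
  ext i
  fin_cases i <;> simp [rz] <;> ring

lemma bi_congr {η : ℝ} {k l : E} (h : k ∈ band η ↔ l ∈ band η) : bi η k = bi η l := by
  unfold bi
  by_cases hk : k ∈ band η
  · rw [Set.indicator_of_mem hk, Set.indicator_of_mem (h.1 hk)]
  · rw [Set.indicator_of_notMem hk, Set.indicator_of_notMem (fun hl => hk (h.2 hl))]

lemma bi_zero {η : ℝ} {k : E} (h : k ∉ band η) : bi η k = 0 := Set.indicator_of_notMem h _

lemma bi_one {η : ℝ} {k : E} (h : k ∈ band η) : bi η k = 1 := Set.indicator_of_mem h _

lemma bi_cases (η : ℝ) (k : E) : bi η k = 0 ∨ bi η k = 1 := by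
  by_cases h : k ∈ band η
  · exact Or.inr (bi_one h)
  · exact Or.inl (bi_zero h)

lemma measurableSet_band (η : ℝ) : MeasurableSet (band η) := by
  have : IsClosed (band η) := by
    unfold band
    exact isClosed_le (by fun_prop) (by fun_prop)
  exact this.measurableSet

lemma measurable_bi (η : ℝ) : Measurable (bi η) := by
  unfold bi
  exact (measurable_const).indicator (measurableSet_band η)

/-- TARGET -/
theorem zt_wt (η : ℝ) : Wt (zt η) := by
  refine ⟨?_, ?_, ?_, ?_, ?_⟩
  · have h := measurable_bi η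
    have h1 : Measurable fun z : E × E => bi η z.1 := h.comp measurable_fst
    have h2 : Measurable fun z : E × E => bi η z.2 := h.comp measurable_snd
    have h3 : Measurable fun z : E × E => bi η (z.1 + z.2) :=
      h.comp (measurable_fst.add measurable_snd)
    unfold zt
    exact (((h1.mul h2).add (h1.mul h3)).add (h2.mul h3)).sub (((h1.mul h2).mul h3).const_mul 2)
  · intro p q
    unfold zt
    rcases bi_cases η p with a | a <;> rcases bi_cases η q with b | b <;>
      rcases bi_cases η (p + q) with c | c <;> rw [a, b, c] <;> norm_num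
  · intro p q
    unfold zt
    rw [add_comm q p]
    ring
  · intro p q
    unfold zt
    have h1 : bi η (-p) = bi η p := bi_congr (mem_band_neg η p)
    have h2 : -p + (p + q) = q := by abel
    rw [h1, h2]
    ring
  · intro p q
    unfold zt
    have h1 : bi η (-p) = bi η p := bi_congr (mem_band_neg η p)
    have h2 : bi η (-q) = bi η q := bi_congr (mem_band_neg η q)
    have h3 : bi η (-p + -q) = bi η (p + q) := by
      rw [show -p + -q = -(p + q) by abel]
      exact bi_congr (mem_band_neg η (p + q))
    rw [h1, h2, h3]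

/-- TARGET -/
theorem zt_hom (η : ℝ) {r : ℝ} (hr : 0 < r) (p q : E) : zt η (r • p) (r • q) = zt η p q := by
  unfold zt
  rw [← smul_add, bi_congr (mem_band_smul η hr p), bi_congr (mem_band_smul η hr q),
    bi_congr (mem_band_smul η hr (p + q))]

/-- TARGET -/
theorem zt_rz (η θ : ℝ) (p q : E) : zt η (rz θ p) (rz θ q) = zt η p q := by
  unfold zt
  rw [rz_add, bi_congr (mem_band_rz η θ p), bi_congr (mem_band_rz η θ q),
    bi_congr (mem_band_rz η θ (p + q))]

/-- TARGET -/
theorem zt_supp (η : ℝ) (p q : E)
    (h : (p ∉ band η ∧ q ∉ band η) ∨ (p ∉ band η ∧ p + q ∉ band η) ∨ (q ∉ band η ∧ p + q ∉ band η)) :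
    zt η p q = 0 := by
  unfold zt
  rcases h with ⟨a, b⟩ | ⟨a, b⟩ | ⟨a, b⟩ <;> rw [bi_zero a, bi_zero b] <;> ring

/-- TARGET -/
theorem zt_le (η : ℝ) (p q : E) : 0 ≤ zt η p q ∧ zt η p q ≤ bi η p + bi η q := by
  unfold zt
  rcases bi_cases η p with a | a <;> rcases bi_cases η q with b | b <;>
    rcases bi_cases η (p + q) with c | c <;> rw [a, b, c] <;> norm_num

lemma kd_add' (k : E) (c c' : W) : kd k (c + c') = kd k c + kd k c' := by
  simp only [kd, PiLp.add_apply, mul_add, Finset.sum_add_distrib]

lemma kd_smul' (k : E) (z : ℂ) (c : W) : kd k (z • c) = z * kd k c := by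
  simp only [kd, PiLp.smul_apply, smul_eq_mul, Finset.mul_sum]
  refine Finset.sum_congr rfl fun j _ => ?_
  ring

/-- `lp k` as a continuous linear map. -/
noncomputable def lpL (k : E) : W →L[ℂ] W :=
  LinearMap.toContinuousLinearMap
    { toFun := fun c => lp k c
      map_add' := by
        intro c c'
        simp only [lp, kd_add', add_div, add_smul]
        abel
      map_smul' := by
        intro z c
        simp only [lp, kd_smul', RingHom.id_apply, smul_sub, smul_smul]
        rw [mul_div_assoc] }

lemma lpL_apply (k : E) (c : W) : lpL k c = lp k c := rfl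

/-- TARGET -/
theorem op_nls_band {η : ℝ} {g : E → W} (hg : Adm g) (hb : ∀ k, k ∉ band η → g k = 0) :
    op (nls (zt η)) g g = NL g g := by
  funext k
  have h1 : ∀ q : E, nls (zt η) (k - q) q (g (k - q)) (g q)
      = lpL k ((Complex.I * kd q (g (k - q))) • g q) := by
    intro q
    rw [lpL_apply]
    unfold nls
    rw [sub_add_cancel]
    by_cases hq : q ∈ band η
    · by_cases hp : k - q ∈ band η
      · have hz : zt η (k - q) q = 1 := by
          unfold zt
          rw [bi_one hq, bi_one hp]
          ring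
        rw [hz]
        simp
      · rw [hb _ hp]
        simp [kd]
    · rw [hb _ hq]
      simp
  unfold op NL adv
  rw [← lpL_apply, ← ContinuousLinearMap.integral_comp_comm _ (adv_int hg hg k)]
  exact integral_congr_ae (Eventually.of_forall h1)

end H706N.JH7

namespace H706N

alias zt_wt := JH7.zt_wt
alias zt_hom := JH7.zt_hom
alias zt_rz := JH7.zt_rz
alias zt_supp := JH7.zt_supp
alias zt_le := JH7.zt_le
alias op_nls_band := JH7.op_nls_band

end H706N
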