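import Pool.Agent.Helper706_NS.Defs3

/-!
Definitions for the perturbations which conserve energy and helicity.
-/

set_option autoImplicit false

open Set Filter Topology MeasureTheory
open scoped ComplexConjugate ContDiff

namespace H706N

/-- The dot product (complex bilinear) of `ℂ³`. -/
noncomputable def dt (a b : W) : ℂ := ∑ j, a j * b j

/-- The complex conjugate. -/
noncomputable def cj (a : W) : W := WithLp.toLp 2 fun j => conj (a j)

/-- The vector product in `ℂ³`. -/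
noncomputable def crw (a b : W) : W :=
  !₂[a 1 * b 2 - a 2 * b 1, a 2 * b 0 - a 0 * b 2, a 0 * b 1 - a 1 * b 0]

/-- `i k × a`. -/
noncomputable def cu (k : E) (a : W) : W := Complex.I • crw (toW k) a

/-- The Fourier transform of the curl of the field with the Fourier transform `g`. -/
noncomputable def crl (g : E → W) (k : E) : W := cu k (g k)

/-- The bilinear Fourier multiplier operator with the symbol `M`. -/
noncomputable def op (M : E → E → W → W → W) (g h : E → W) (k : E) : W :=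
  ∫ q, M (k - q) q (g (k - q)) (h q)

/-- Bilinear symbols of real operators into the divergence free fields, which conserve the energy and
the helicity. -/
structure Sym (M : E → E → W → W → W) : Prop where
  lin₁ : ∀ (p q : E) (c : ℂ) (a a' b : W), M p q (a + c • a') b = M p q a b + c • M p q a' b
  lin₂ : ∀ (p q : E) (c : ℂ) (a b b' : W), M p q a (b + c • b') = M p q a b + c • M p q a b'
  meas : ∀ g h : E → W, Measurable g → Measurable h →
    Measurable fun z : E × E => M z.1 z.2 (g z.1) (h z.2)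
  herm : ∀ p q a b, M (-p) (-q) (cj a) (cj b) = cj (M p q a b)
  divf : ∀ p q a b, kd (p + q) (M p q a b) = 0
  skew : ∀ p q a b c, kd p a = 0 → kd q b = 0 → kd (p + q) c = 0 →
    dt (M (-p) (p + q) (cj a) c) (cj b) = -conj (dt (M p q a b) (cj c))
  hel : ∀ p q a b c, kd p a = 0 → kd q b = 0 → kd (p + q) c = 0 →
    dt (M p q a b + M q p b a) (cu (-(p + q)) c)
      + dt (M q (-(p + q)) b c + M (-(p + q)) q c b) (cu p a)
      + dt (M (-(p + q)) p c a + M p (-(p + q)) a c) (cu q b) = 0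

/-- Symbols of order one. -/
def Bdd (C : ℝ) (M : E → E → W → W → W) : Prop :=
  0 ≤ C ∧ ∀ p q a b, kd p a = 0 → ‖M p q a b‖ ≤ C * min ‖q‖ ‖p + q‖ * (‖a‖ * ‖b‖)

/-- Symbols which are homogeneous of degree one and invariant under the rotations about the third axis
and under the reflection. -/
structure Inv (M : E → E → W → W → W) : Prop where
  hom : ∀ (r : ℝ), 0 < r → ∀ p q a b, M (r • p) (r • q) a b = r • M p q a b
  rot : ∀ θ p q a b, M (rz θ p) (rz θ q) (rzW θ a) (rzW θ b) = rzW θ (M p q a b)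
  par : ∀ p q a b, M (-p) (-q) a b = -M p q a b

/-- The symbol of the Navier-Stokes nonlinearity, multiplied by the weight `ζ`. -/
noncomputable def nls (ζ : E → E → ℝ) (p q : E) (a b : W) : W :=
  lp (p + q) (((ζ p q : ℂ) * (Complex.I * kd q a)) • b)

/-- Weights on the triads. -/
structure Wt (ζ : E → E → ℝ) : Prop where
  meas : Measurable fun z : E × E => ζ z.1 z.2
  bd : ∀ p q, |ζ p q| ≤ 1
  swap : ∀ p q, ζ q p = ζ p q
  third : ∀ p q, ζ (-p) (p + q) = ζ p q
  neg : ∀ p q, ζ (-p) (-q) = ζ p q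

/-- The characteristic function of the band. -/
noncomputable def bi (η : ℝ) (k : E) : ℝ := (band η).indicator (fun _ => (1 : ℝ)) k

/-- `1` if at least two of the frequencies `p`, `q`, `p + q` are nearly horizontal, otherwise `0`. -/
noncomputable def zt (η : ℝ) (p q : E) : ℝ :=
  bi η p * bi η q + bi η p * bi η (p + q) + bi η q * bi η (p + q)
    - 2 * (bi η p * bi η q * bi η (p + q))

/-- The unit vector `k × vt k / |k|`. -/
noncomputable def vp (k : E) : E := ‖k‖⁻¹ • cr k (vt k)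

/-- The sign of a truth value. -/
def sg (s : Bool) : ℝ := if s then 1 else -1

/-- The helical polarization vectors. -/
noncomputable def pz (s : Bool) (k : E) : W := (-Complex.I) • toW (vt k) + (sg s : ℂ) • toW (vp k)

/-- Symmetrized coefficients. -/
noncomputable def AA (P : ℝ → ℝ → ℝ → ℝ) (a b c : ℝ) : ℝ := P a b c + P b a c

/-- Helical coefficients. -/
noncomputable def HH (P : ℝ → ℝ → ℝ → ℝ) (a b c : ℝ) : ℝ :=
  ((c - b) * AA P b c a + (b + c) * (AA P c a b - AA P a b c)) / (4 * (a * b + b * c + c * a))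

/-- Helical coefficients. -/
noncomputable def gg (P : ℝ → ℝ → ℝ → ℝ) : Bool → Bool → Bool → ℝ → ℝ → ℝ → ℝ
  | true, true, true, _, _, _ => 0
  | false, true, true, a, b, c => HH P a b c
  | true, false, true, a, b, c => HH P b c a
  | true, true, false, a, b, c => HH P c a b
  | true, false, false, a, b, c => -HH P a b c
  | false, true, false, a, b, c => -HH P b c a
  | false, false, true, a, b, c => -HH P c a b
  | false, false, false, _, _, _ => 0

/-- Helical coefficients. -/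
noncomputable def PS (P : ℝ → ℝ → ℝ → ℝ) (s₁ s₂ s₃ : Bool) (a b c : ℝ) : ℝ :=
  (2 * sg s₁ * a - sg s₂ * b - sg s₃ * c) * gg P s₁ s₂ s₃ a b c / 3

/-- The scalar symbols. -/
noncomputable def mug (F : ℝ → ℝ → ℝ → ℝ) (η : ℝ) (n : ℕ) (p q : E) : ℝ :=
  F ‖p‖ ‖q‖ ‖p + q‖ * dd ‖p‖ ‖q‖ ‖p + q‖ ^ (n + 3) *
      (|cr p q 2| * Real.sqrt (η ^ 2 * ‖cr p q‖ ^ 2 - cr p q 0 ^ 2 - cr p q 1 ^ 2) ^ (2 * n + 1))
    / (‖cr p q‖ ^ (2 * n + 2) * (‖p‖ * ‖q‖ * ‖p + q‖) ^ 3 *
      (ee η p * ee η q * ee η (p + q)) ^ (n + 1))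

/-- The helical symbols. -/
noncomputable def hls (P : ℝ → ℝ → ℝ → ℝ) (η : ℝ) (n : ℕ) (p q : E) (a b : W) : W :=
  ∑ s₁ : Bool, ∑ s₂ : Bool, ∑ s₃ : Bool,
    ((-(mug (PS P s₁ s₂ s₃) η n p q : ℂ)) * (dt (pz s₁ p) a * dt (pz s₂ q) b)) •
      ((1 / 2 : ℂ) • cj (pz s₃ (p + q)))

/-- Coefficient functions. -/
structure Rad (F : ℝ → ℝ → ℝ → ℝ) : Prop where
  meas : Measurable fun z : ℝ × ℝ × ℝ => F z.1 z.2.1 z.2.2
  hom : ∀ r : ℝ, 0 < r → ∀ a b c, F (r * a) (r * b) (r * c) = r ^ 4 * F a b c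
  bd : ∃ C : ℝ, 0 ≤ C ∧ ∀ a b c, 0 ≤ a → 0 ≤ b → 0 ≤ c → a ≤ b + c → b ≤ a + c → c ≤ a + b →
    |F a b c| ≤ C * (a + b + c) ^ 4

/-- The polynomials used for the Navier-Stokes equations. -/
noncomputable def PNn (n : ℕ) (a b c : ℝ) : ℝ :=
  (b - c) * ((2 * n + 11) * (3 * a ^ 2 * (b + c) - 4 * a * (b ^ 2 + c ^ 2) + (b ^ 3 + c ^ 3))
    + (2 * n + 7) * (a * b * c))

/-- The polynomials used for the Euler equations. -/
noncomputable def PEn (n : ℕ) (a b c : ℝ) : ℝ :=
  (b - c) * ((2 * n + 11) * (2 * n + 12) * (a ^ 2 * (b + c - a))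
    - (4 * n ^ 2 + 39 * n + 96) * (a * b * c) - (3 * n + 16) * (b * c * (b + c)))

/-- Polynomials. -/
structure Pln (P : ℝ → ℝ → ℝ → ℝ) : Prop where
  cont : Continuous fun z : ℝ × ℝ × ℝ => P z.1 z.2.1 z.2.2
  hom : ∀ r a b c, P (r * a) (r * b) (r * c) = r ^ 4 * P a b c
  anti : ∀ a b c, P a c b = -P a b c
  bd : ∃ C : ℝ, 0 ≤ C ∧ ∀ a b c, 0 ≤ a → 0 ≤ b → 0 ≤ c → |P a b c| ≤ C * (a + b + c) ^ 4

/-- The radial and angular part of the profile. -/
noncomputable def wfn (n : ℕ) (η : ℝ) (k : E) : ℝ := ‖k‖ ^ 2 * Real.exp (-‖k‖) * ee η k ^ (n + 1)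

/-- The Fourier transform of the profile. -/
noncomputable def prn (n : ℕ) (η : ℝ) (k : E) : W := (Complex.I * (wfn n η k : ℂ)) • toW (vt k)

/-- A constant. -/
noncomputable def angc (n : ℕ) : ℝ := 2 * ∫ v in Ioo (-1 : ℝ) 1, Real.sqrt (1 - v ^ 2) ^ (2 * n + 1)

end H706N
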