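import Pool.Agent.Helper706_NS.Defs4

set_option autoImplicit false
open Set Filter Topology MeasureTheory
open scoped ComplexConjugate ContDiff

namespace H706N.JH13

theorem ang_aux_disc (n : ℕ) (R a : ℝ) (hR : 0 < R) (ha : R ≤ a) :
    ∫ w in (-a)..a, Real.sqrt (R ^ 2 - w ^ 2) ^ (2 * n + 1) =
      R ^ (2 * n + 2) * ∫ v in (-1 : ℝ)..1, Real.sqrt (1 - v ^ 2) ^ (2 * n + 1) := by
  have hcont : Continuous fun w : ℝ => Real.sqrt (R ^ 2 - w ^ 2) ^ (2 * n + 1) := by fun_prop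
  have hint : ∀ u v : ℝ, IntervalIntegrable
      (fun w : ℝ => Real.sqrt (R ^ 2 - w ^ 2) ^ (2 * n + 1)) volume u v :=
    fun u v => hcont.intervalIntegrable u v
  have h1 : ∫ w in (-a)..a, Real.sqrt (R ^ 2 - w ^ 2) ^ (2 * n + 1) =
      (∫ w in (-a)..(-R), Real.sqrt (R ^ 2 - w ^ 2) ^ (2 * n + 1)) +
      (∫ w in (-R)..R, Real.sqrt (R ^ 2 - w ^ 2) ^ (2 * n + 1))
      + ∫ w in R..a, Real.sqrt (R ^ 2 - w ^ 2) ^ (2 * n + 1) := by
    rw [intervalIntegral.integral_add_adjacent_intervals (hint _ _) (hint _ _),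
      intervalIntegral.integral_add_adjacent_intervals (hint _ _) (hint _ _)]
  have h2 : ∫ w in (-a)..(-R), Real.sqrt (R ^ 2 - w ^ 2) ^ (2 * n + 1) = 0 := by
    rw [intervalIntegral.integral_congr (g := fun _ => (0 : ℝ)), intervalIntegral.integral_zero]
    intro w hw
    rw [uIcc_of_le (by linarith)] at hw
    have h0 : Real.sqrt (R ^ 2 - w ^ 2) = 0 := by
      apply Real.sqrt_eq_zero_of_nonpos
      nlinarith [hw.1, hw.2]
    simp [h0]
  have h3 : ∫ w in R..a, Real.sqrt (R ^ 2 - w ^ 2) ^ (2 * n + 1) = 0 := by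
    rw [intervalIntegral.integral_congr (g := fun _ => (0 : ℝ)), intervalIntegral.integral_zero]
    intro w hw
    rw [uIcc_of_le ha] at hw
    have h0 : Real.sqrt (R ^ 2 - w ^ 2) = 0 := by
      apply Real.sqrt_eq_zero_of_nonpos
      nlinarith [hw.1, hw.2]
    simp [h0]
  have h4 : ∫ w in (-R)..R, Real.sqrt (R ^ 2 - w ^ 2) ^ (2 * n + 1) =
      R ^ (2 * n + 2) * ∫ v in (-1 : ℝ)..1, Real.sqrt (1 - v ^ 2) ^ (2 * n + 1) := by
    have h5 := intervalIntegral.integral_comp_mul_left (a := -1) (b := 1)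
      (fun w : ℝ => Real.sqrt (R ^ 2 - w ^ 2) ^ (2 * n + 1)) hR.ne'
    have h6 : ∫ x in (-1 : ℝ)..1, Real.sqrt (R ^ 2 - (R * x) ^ 2) ^ (2 * n + 1) =
        R ^ (2 * n + 1) * ∫ v in (-1 : ℝ)..1, Real.sqrt (1 - v ^ 2) ^ (2 * n + 1) := by
      rw [← intervalIntegral.integral_const_mul]
      apply intervalIntegral.integral_congr
      intro x _
      show Real.sqrt (R ^ 2 - (R * x) ^ 2) ^ (2 * n + 1) =
        R ^ (2 * n + 1) * Real.sqrt (1 - x ^ 2) ^ (2 * n + 1)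
      have : R ^ 2 - (R * x) ^ 2 = R ^ 2 * (1 - x ^ 2) := by ring
      rw [this, Real.sqrt_mul (by positivity), Real.sqrt_sq hR.le, mul_pow]
    rw [h6] at h5
    rw [mul_neg, mul_one] at h5
    rw [smul_eq_mul, eq_comm, inv_mul_eq_iff_eq_mul₀ hR.ne'] at h5
    rw [h5]
    ring
  rw [h1, h2, h3, h4]
  ring

theorem ang_aux_half (n : ℕ) {c₀ ρ : ℝ} (hc : 0 ≤ c₀) (hρ : 0 ≤ ρ) :
    ∫ φ in (-(Real.pi / 2))..(Real.pi / 2),
      Real.sqrt (ρ * Real.cos φ ^ 2) * Real.sqrt (ρ * Real.cos φ ^ 2 - c₀) ^ (2 * n + 1)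
      = (∫ v in (-1 : ℝ)..1, Real.sqrt (1 - v ^ 2) ^ (2 * n + 1)) *
        max (ρ - c₀) 0 ^ (n + 1) := by
  have h1 : ∫ φ in (-(Real.pi / 2))..(Real.pi / 2),
      Real.sqrt (ρ * Real.cos φ ^ 2) * Real.sqrt (ρ * Real.cos φ ^ 2 - c₀) ^ (2 * n + 1) =
      ∫ φ in (-(Real.pi / 2))..(Real.pi / 2),
        ((fun w : ℝ => Real.sqrt ((ρ - c₀) - w ^ 2) ^ (2 * n + 1)) ∘
          (fun φ => Real.sqrt ρ * Real.sin φ)) φ * (Real.sqrt ρ * Real.cos φ) := by
    apply intervalIntegral.integral_congr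
    intro φ hφ
    rw [uIcc_of_le (by linarith [Real.pi_pos])] at hφ
    have hcos : 0 ≤ Real.cos φ := Real.cos_nonneg_of_mem_Icc hφ
    simp only [Function.comp]
    have e1 : Real.sqrt (ρ * Real.cos φ ^ 2) = Real.sqrt ρ * Real.cos φ := by
      rw [Real.sqrt_mul hρ, Real.sqrt_sq hcos]
    have e2 : ρ * Real.cos φ ^ 2 - c₀ = (ρ - c₀) - (Real.sqrt ρ * Real.sin φ) ^ 2 := by
      rw [mul_pow, Real.sq_sqrt hρ, Real.cos_sq']
      ring
    rw [e1, e2]
    ring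
  rw [h1, intervalIntegral.integral_comp_mul_deriv]
  · rw [Real.sin_neg, Real.sin_pi_div_two, mul_neg, mul_one]
    by_cases h : ρ - c₀ ≤ 0
    · rw [max_eq_right h, zero_pow (Nat.succ_ne_zero n), mul_zero,
        intervalIntegral.integral_congr (g := fun _ => (0 : ℝ)), intervalIntegral.integral_zero]
      intro w _
      have h0 : Real.sqrt ((ρ - c₀) - w ^ 2) = 0 := by
        apply Real.sqrt_eq_zero_of_nonpos
        nlinarith [sq_nonneg w]
      simp [h0]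
    · have h' : 0 < ρ - c₀ := not_le.1 h
      rw [max_eq_left h'.le]
      have h2 := ang_aux_disc n (Real.sqrt (ρ - c₀)) (Real.sqrt ρ) (Real.sqrt_pos.2 h')
        (Real.sqrt_le_sqrt (by linarith))
      rw [Real.sq_sqrt h'.le] at h2
      rw [h2]
      have h3 : Real.sqrt (ρ - c₀) ^ (2 * n + 2) = (ρ - c₀) ^ (n + 1) := by
        have : 2 * n + 2 = 2 * (n + 1) := by ring
        rw [this, pow_mul, Real.sq_sqrt h'.le]
      rw [h3, mul_comm]
  · intro x _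
    exact (Real.hasDerivAt_sin x).const_mul _
  · fun_prop
  · fun_prop

theorem ang_aux_c (n : ℕ) :
    angc n = 2 * ∫ v in (-1 : ℝ)..1, Real.sqrt (1 - v ^ 2) ^ (2 * n + 1) := by
  unfold angc
  rw [intervalIntegral.integral_of_le (by norm_num), integral_Ioc_eq_integral_Ioo]

/-- TARGET -/
theorem ang_int_n (n : ℕ) {c₀ ρ : ℝ} (hc : 0 ≤ c₀) (hρ : 0 ≤ ρ) :
    ∫ φ in Ioo (-Real.pi) Real.pi, Real.sqrt (ρ * Real.cos φ ^ 2) *
      Real.sqrt (ρ * Real.cos φ ^ 2 - c₀) ^ (2 * n + 1) = angc n * max (ρ - c₀) 0 ^ (n + 1) := by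
  have hper : Function.Periodic (fun φ : ℝ =>
      Real.sqrt (ρ * Real.cos φ ^ 2) * Real.sqrt (ρ * Real.cos φ ^ 2 - c₀) ^ (2 * n + 1))
        Real.pi := by
    intro φ
    simp only [Real.cos_add_pi, neg_sq]
  have hcont : Continuous (fun φ : ℝ =>
      Real.sqrt (ρ * Real.cos φ ^ 2) * Real.sqrt (ρ * Real.cos φ ^ 2 - c₀) ^ (2 * n + 1)) := by
    fun_prop
  rw [← integral_Ioc_eq_integral_Ioo, ← intervalIntegral.integral_of_le (by linarith [Real.pi_pos]),
    ← intervalIntegral.integral_add_adjacent_intervals (hcont.intervalIntegrable (-Real.pi) 0)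
      (hcont.intervalIntegrable 0 Real.pi)]
  have h1 := hper.intervalIntegral_add_eq (-Real.pi) (-(Real.pi / 2))
  have h2 := hper.intervalIntegral_add_eq 0 (-(Real.pi / 2))
  have e1 : -Real.pi + Real.pi = 0 := by ring
  have e2 : -(Real.pi / 2) + Real.pi = Real.pi / 2 := by ring
  rw [e1, e2, ang_aux_half n hc hρ] at h1
  rw [zero_add, e2, ang_aux_half n hc hρ] at h2
  rw [h1, h2, ang_aux_c]
  ring

/-- TARGET -/
theorem angc_pos (n : ℕ) : 0 < angc n := by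
  rw [ang_aux_c]
  have h : 0 < ∫ v in (-1 : ℝ)..1, Real.sqrt (1 - v ^ 2) ^ (2 * n + 1) := by
    apply intervalIntegral.intervalIntegral_pos_of_pos_on
    · apply Continuous.intervalIntegrable
      fun_prop
    · intro v hv
      apply pow_pos
      apply Real.sqrt_pos.2
      nlinarith [hv.1, hv.2]
    · norm_num
  linarith

end H706N.JH13

namespace H706N

alias ang_int_n := JH13.ang_int_n
alias angc_pos := JH13.angc_pos

end H706N
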