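import Pool.Agent.Helper706_NS.Defs4

set_option autoImplicit false
open Set Filter Topology MeasureTheory
open scoped ComplexConjugate ContDiff

namespace H706N.JH14

theorem r14_in (n : ℕ) (q0 q1 q2 q3 q4 : ℝ) :
    ∫ s in Ioo (-1 : ℝ) 1, (1 - s ^ 2) ^ (n + 3) *
      (q0 + q1 * s + q2 * s ^ 2 + q3 * s ^ 3 + q4 * s ^ 4) =
    (q0 + (q2 + 3 * q4 / (2 * n + 11)) / (2 * n + 9)) *
      ∫ s in Ioo (-1 : ℝ) 1, (1 - s ^ 2) ^ (n + 3) := by
  set g3 : ℝ := -q4 / (2 * n + 11) with hg3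
  set g2 : ℝ := -q3 / (2 * n + 10) with hg2
  set g1 : ℝ := (3 * g3 - q2) / (2 * n + 9) with hg1
  set g0 : ℝ := (2 * g2 - q1) / (2 * n + 8) with hg0
  have e3 : (2 * n + 11) * g3 = -q4 := by rw [hg3]; field_simp
  have e2 : (2 * n + 10) * g2 = -q3 := by rw [hg2]; field_simp
  have e1 : (2 * n + 9) * g1 = 3 * g3 - q2 := by rw [hg1]; field_simp
  have e0 : (2 * n + 8) * g0 = 2 * g2 - q1 := by rw [hg0]; field_simp
  have hK : (q0 + (q2 + 3 * q4 / (2 * n + 11)) / (2 * n + 9)) = q0 - g1 := by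
    rw [hg1, hg3]; field_simp; ring
  rw [hK]
  have h0 : ∫ s in Ioo (-1 : ℝ) 1, (1 - s ^ 2) ^ (n + 3) *
      ((q0 + q1 * s + q2 * s ^ 2 + q3 * s ^ 3 + q4 * s ^ 4) - (q0 - g1)) = 0 := by
    rw [← integral_Ioc_eq_integral_Ioo, ← intervalIntegral.integral_of_le (by norm_num)]
    rw [intervalIntegral.integral_eq_sub_of_hasDerivAt (f := fun s : ℝ => (1 - s ^ 2) ^ (n + 4) *
      (g0 + g1 * s + g2 * s ^ 2 + g3 * s ^ 3))]
    · norm_num
    · intro s _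
      have h1 : HasDerivAt (fun s : ℝ => 1 - s ^ 2) (-(2 * s)) s := by
        have := (hasDerivAt_pow 2 s).const_sub 1
        refine this.congr_deriv ?_
        simp
      have h2 := h1.pow (n + 4)
      have h3 : HasDerivAt (fun s : ℝ => g0 + g1 * s + g2 * s ^ 2 + g3 * s ^ 3)
          (g1 + 2 * g2 * s + 3 * g3 * s ^ 2) s := by
        have := ((((hasDerivAt_id s).const_mul g1).const_add g0).add
          ((hasDerivAt_pow 2 s).const_mul g2)).add ((hasDerivAt_pow 3 s).const_mul g3)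
        refine this.congr_deriv ?_
        push_cast
        ring
      have h4 := h2.mul h3
      refine h4.congr_deriv ?_
      push_cast
      simp only [Pi.pow_apply]
      linear_combination (-(1 - s ^ 2) ^ (n + 3)) * (e0 * s + e1 * s ^ 2 + e2 * s ^ 3 + e3 * s ^ 4)
    · apply Continuous.intervalIntegrable
      fun_prop
  have hi : ∀ f : ℝ → ℝ, Continuous f → IntegrableOn f (Ioo (-1 : ℝ) 1) := fun f hf =>
    (hf.integrableOn_Icc).mono_set Ioo_subset_Icc_self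
  have h5 : ∫ s in Ioo (-1 : ℝ) 1, (1 - s ^ 2) ^ (n + 3) *
      ((q0 + q1 * s + q2 * s ^ 2 + q3 * s ^ 3 + q4 * s ^ 4) - (q0 - g1)) =
      (∫ s in Ioo (-1 : ℝ) 1, (1 - s ^ 2) ^ (n + 3) *
      (q0 + q1 * s + q2 * s ^ 2 + q3 * s ^ 3 + q4 * s ^ 4)) -
      ∫ s in Ioo (-1 : ℝ) 1, (q0 - g1) * (1 - s ^ 2) ^ (n + 3) := by
    rw [← integral_sub (hi _ (by fun_prop)) (hi _ (by fun_prop))]
    congr 1
    funext s
    ring
  rw [integral_const_mul] at h5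
  linarith

theorem r14_pos (n : ℕ) : 0 < ∫ s in Ioo (-1 : ℝ) 1, (1 - s ^ 2) ^ (n + 3) := by
  rw [← integral_Ioc_eq_integral_Ioo, ← intervalIntegral.integral_of_le (by norm_num)]
  apply intervalIntegral.intervalIntegral_pos_of_pos_on
  · apply Continuous.intervalIntegrable
    fun_prop
  · intro s hs
    have : 0 < 1 - s ^ 2 := by nlinarith [hs.1, hs.2]
    positivity
  · norm_num

theorem r14_exp (n : ℕ) : IntegrableOn (fun x : ℝ => Real.exp (-x) * x ^ n) (Ioi 0) ∧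
    ∫ x in Ioi (0 : ℝ), Real.exp (-x) * x ^ n = n.factorial := by
  have h1 := Real.GammaIntegral_convergent (s := (n : ℝ) + 1) (by positivity)
  have h2 := Real.Gamma_eq_integral (s := (n : ℝ) + 1) (by positivity)
  have e : ∀ x : ℝ, Real.exp (-x) * x ^ ((n : ℝ) + 1 - 1) = Real.exp (-x) * x ^ n := by
    intro x
    rw [add_sub_cancel_right, Real.rpow_natCast]
  simp_rw [e] at h1 h2
  refine ⟨h1, ?_⟩
  rw [← h2, Real.Gamma_nat_eq_factorial]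

theorem r14_out (m : ℕ) (A1 A2 A3 : ℝ) : ∫ x in Ioi (0 : ℝ), Real.exp (-x) *
    (A1 * x ^ (m + 1) + A2 * x ^ (m + 2) + A3 * x ^ (m + 3)) =
      (m.factorial : ℝ) * (((m : ℝ) + 1) * A1 + ((m : ℝ) + 1) * ((m : ℝ) + 2) * A2 +
        ((m : ℝ) + 1) * ((m : ℝ) + 2) * ((m : ℝ) + 3) * A3) := by
  have h : (fun x : ℝ => Real.exp (-x) * (A1 * x ^ (m + 1) + A2 * x ^ (m + 2) + A3 * x ^ (m + 3))) =
      fun x : ℝ => A1 * (Real.exp (-x) * x ^ (m + 1)) + A2 * (Real.exp (-x) * x ^ (m + 2)) +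
        A3 * (Real.exp (-x) * x ^ (m + 3)) := by
    funext x
    ring
  obtain ⟨i4, e4⟩ := r14_exp (m + 1)
  obtain ⟨i5, e5⟩ := r14_exp (m + 2)
  obtain ⟨i6, e6⟩ := r14_exp (m + 3)
  have j45 : Integrable (fun x : ℝ => A1 * (Real.exp (-x) * x ^ (m + 1)) +
      A2 * (Real.exp (-x) * x ^ (m + 2)))
      (volume.restrict (Ioi 0)) := (i4.const_mul _).add (i5.const_mul _)
  rw [h, integral_add j45 (i6.const_mul _),
    integral_add (i4.const_mul _) (i5.const_mul _), integral_const_mul, integral_const_mul,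
    integral_const_mul, e4, e5, e6]
  simp only [Nat.factorial_succ]
  push_cast
  ring

theorem r14_inN (n : ℕ) (c x : ℝ) :
    ∫ s in Ioo (-1 : ℝ) 1, x ^ (n + 3) * (1 - s ^ 2) ^ (n + 3) * Real.exp (-x) *
      PNn n ((c + x + c * s) / 2) ((c + x - c * s) / 2) c =
      Real.exp (-x) * (((-(c ^ 3 * (n + 6) / (2 * n + 9))) * ∫ s in Ioo (-1 : ℝ) 1, (1 - s ^ 2) ^ (n + 3)) * x ^ (n + 3 + 1) +
        ((-((n + 6) * c ^ 2)) * ∫ s in Ioo (-1 : ℝ) 1, (1 - s ^ 2) ^ (n + 3)) * x ^ (n + 3 + 2) +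
        (((n + 5) * c) * ∫ s in Ioo (-1 : ℝ) 1, (1 - s ^ 2) ^ (n + 3)) * x ^ (n + 3 + 3)) := by
  have h : (fun s : ℝ => x ^ (n + 3) * (1 - s ^ 2) ^ (n + 3) * Real.exp (-x) *
      PNn n ((c + x + c * s) / 2) ((c + x - c * s) / 2) c) = fun s : ℝ =>
      (Real.exp (-x) * x ^ (n + 3)) * ((1 - s ^ 2) ^ (n + 3) * (
      ((1/2) * c ^ 4 + (1/2) * c ^ 3 * x + (-(n + 6)) * c ^ 2 * x ^ 2 + (n + 5) * c * x ^ 3) +
      ((1/2) * c ^ 4 + (-(5/2) * n - 51/4) * c ^ 3 * x + (n + 6) * c ^ 2 * x ^ 2 +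
        ((1/2) * n + 11/4) * c * x ^ 3) * s +
      ((-(n + 6)) * c ^ 4 + (-2 * n - 21/2) * c ^ 3 * x) * s ^ 2 +
      ((-1/2) * c ^ 4 + (-(3/2) * n - 33/4) * c ^ 3 * x) * s ^ 3 +
      ((n + 11/2) * c ^ 4) * s ^ 4)) := by
    funext s
    unfold PNn
    ring
  rw [h, integral_const_mul, r14_in]
  field_simp
  ring

theorem r14_inE (n : ℕ) (c x : ℝ) :
    ∫ s in Ioo (-1 : ℝ) 1, x ^ (n + 3) * (1 - s ^ 2) ^ (n + 3) * Real.exp (-x) *
      PEn n ((c + x + c * s) / 2) ((c + x - c * s) / 2) c =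
      Real.exp (-x) * (0 * x ^ (n + 3 + 1) +
        ((-((n + 6) * (n + 5) * c ^ 2 / (2 * n + 9))) * ∫ s in Ioo (-1 : ℝ) 1, (1 - s ^ 2) ^ (n + 3)) * x ^ (n + 3 + 2) +
        (((n + 5) * c / 2) * ∫ s in Ioo (-1 : ℝ) 1, (1 - s ^ 2) ^ (n + 3)) * x ^ (n + 3 + 3)) := by
  have h : (fun s : ℝ => x ^ (n + 3) * (1 - s ^ 2) ^ (n + 3) * Real.exp (-x) *
      PEn n ((c + x + c * s) / 2) ((c + x - c * s) / 2) c) = fun s : ℝ =>
      (Real.exp (-x) * x ^ (n + 3)) * ((1 - s ^ 2) ^ (n + 3) * (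
      (((1/4) * n + 3/2) * c ^ 4 + (-(1/2) * n - 5/2) * c ^ 3 * x +
        (-(1/4) * n - 3/2) * c ^ 2 * x ^ 2 + ((1/2) * n + 5/2) * c * x ^ 3) +
      ((-(1/2) * n ^ 2 - 7 * n - 23) * c ^ 4 + ((1/2) * n ^ 2 + (25/4) * n + 39/2) * c ^ 3 * x +
        ((1/2) * n ^ 2 + 6 * n + 18) * c ^ 2 * x ^ 2 +
        (-(1/2) * n ^ 2 - (23/4) * n - 33/2) * c * x ^ 3) * s +
      ((-(1/2) * n ^ 2 - 6 * n - 18) * c ^ 4 + (n ^ 2 + (19/2) * n + 45/2) * c ^ 3 * x +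
        (-(1/2) * n ^ 2 - (23/4) * n - 33/2) * c ^ 2 * x ^ 2) * s ^ 2 +
      (((1/2) * n ^ 2 + 7 * n + 23) * c ^ 4 + ((1/2) * n ^ 2 + (23/4) * n + 33/2) * c ^ 3 * x) * s ^ 3 +
      (((1/2) * n ^ 2 + (23/4) * n + 33/2) * c ^ 4) * s ^ 4)) := by
    funext s
    unfold PEn
    ring
  rw [h, integral_const_mul, r14_in]
  field_simp
  ring

/-- TARGET -/
theorem rad_Nn (n : ℕ) : ∃ C > 0, ∀ c : ℝ,
    ∫ x in Ioi (0 : ℝ), ∫ s in Ioo (-1 : ℝ) 1, x ^ (n + 3) * (1 - s ^ 2) ^ (n + 3) * Real.exp (-x) *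
      PNn n ((c + x + c * s) / 2) ((c + x - c * s) / 2) c
      = C * (c * ((n + 5) ^ 2 * (2 * n + 9) - (n + 5) * (2 * n + 9) * c - c ^ 2)) := by
  have hp := r14_pos n
  refine ⟨((n + 3).factorial : ℝ) * (((n : ℝ) + 4) * ((n : ℝ) + 6) / (2 * n + 9)) *
    ∫ s in Ioo (-1 : ℝ) 1, (1 - s ^ 2) ^ (n + 3), by positivity, fun c => ?_⟩
  simp_rw [r14_inN]
  rw [r14_out (n + 3)]
  push_cast
  field_simp
  ring

/-- TARGET -/
theorem rad_En (n : ℕ) : ∃ C > 0, ∀ c : ℝ,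
    ∫ x in Ioi (0 : ℝ), ∫ s in Ioo (-1 : ℝ) 1, x ^ (n + 3) * (1 - s ^ 2) ^ (n + 3) * Real.exp (-x) *
      PEn n ((c + x + c * s) / 2) ((c + x - c * s) / 2) c
      = C * (c * (n + 9 / 2 - c)) := by
  have hp := r14_pos n
  refine ⟨((n + 3).factorial : ℝ) * (((n : ℝ) + 4) * ((n : ℝ) + 5) ^ 2 * ((n : ℝ) + 6) / (2 * n + 9)) *
    ∫ s in Ioo (-1 : ℝ) 1, (1 - s ^ 2) ^ (n + 3), by positivity, fun c => ?_⟩
  simp_rw [r14_inE]
  rw [r14_out (n + 3)]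
  push_cast
  field_simp
  ring

/-- TARGET -/
theorem rad_int_n (n : ℕ) {P : ℝ → ℝ → ℝ → ℝ} (hP : Pln P) {c : ℝ} (hc : 0 ≤ c) :
    Integrable (fun z : ℝ × ℝ => z.1 ^ (n + 3) * (1 - z.2 ^ 2) ^ (n + 3) * Real.exp (-z.1) *
      P ((c + z.1 + c * z.2) / 2) ((c + z.1 - c * z.2) / 2) c)
      ((volume.restrict (Ioi 0)).prod (volume.restrict (Ioo (-1) 1))) := by
  obtain ⟨C, hC0, hC⟩ := hP.bd
  have hc1 : Continuous (fun z : ℝ × ℝ => P ((c + z.1 + c * z.2) / 2) ((c + z.1 - c * z.2) / 2) c) :=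
    hP.cont.comp (f := fun z : ℝ × ℝ => ((c + z.1 + c * z.2) / 2, (c + z.1 - c * z.2) / 2, c))
      (by fun_prop)
  have hg : Integrable (fun x : ℝ => C * (Real.exp (-x) * (x ^ (n + 3) * (2 * c + x) ^ 4)))
      (volume.restrict (Ioi 0)) := by
    have e : (fun x : ℝ => C * (Real.exp (-x) * (x ^ (n + 3) * (2 * c + x) ^ 4))) = fun x : ℝ =>
        C * (16 * c ^ 4 * (Real.exp (-x) * x ^ (n + 3)) + 32 * c ^ 3 * (Real.exp (-x) * x ^ (n + 4)) +
          24 * c ^ 2 * (Real.exp (-x) * x ^ (n + 5)) + 8 * c * (Real.exp (-x) * x ^ (n + 6)) +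
          1 * (Real.exp (-x) * x ^ (n + 7))) := by
      funext x
      ring
    rw [e]
    exact ((((((r14_exp (n + 3)).1.const_mul _).add ((r14_exp (n + 4)).1.const_mul _)).add
      ((r14_exp (n + 5)).1.const_mul _)).add ((r14_exp (n + 6)).1.const_mul _)).add
      ((r14_exp (n + 7)).1.const_mul _)).const_mul _
  have hg2 : Integrable (fun _ : ℝ => (1 : ℝ)) (volume.restrict (Ioo (-1 : ℝ) 1)) :=
    integrable_const _
  refine Integrable.mono' (hg.mul_prod hg2) ?_ ?_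
  · have hc2 : Continuous (fun z : ℝ × ℝ => z.1 ^ (n + 3) * (1 - z.2 ^ 2) ^ (n + 3) *
        Real.exp (-z.1)) := by
      fun_prop
    exact (hc2.mul hc1).aestronglyMeasurable
  · rw [Measure.prod_restrict]
    refine (ae_restrict_iff' (measurableSet_Ioi.prod measurableSet_Ioo)).2
      (Filter.Eventually.of_forall ?_)
    rintro ⟨x, s⟩ ⟨hx, hs1, hs2⟩
    simp only [mem_Ioi] at hx hs1 hs2
    simp only
    have ha : 0 ≤ (c + x + c * s) / 2 := by nlinarith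
    have hb : 0 ≤ (c + x - c * s) / 2 := by nlinarith
    have h := hC _ _ _ ha hb hc
    have e : (c + x + c * s) / 2 + (c + x - c * s) / 2 + c = 2 * c + x := by ring
    rw [e] at h
    have h1 : 0 ≤ 1 - s ^ 2 := by nlinarith
    have h2 : (1 - s ^ 2) ^ (n + 3) ≤ 1 := pow_le_one₀ h1 (by nlinarith [sq_nonneg s])
    have h3 : 0 ≤ (1 - s ^ 2) ^ (n + 3) := by positivity
    rw [norm_mul, norm_mul, norm_mul, Real.norm_eq_abs, Real.norm_eq_abs, Real.norm_eq_abs,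
      Real.norm_eq_abs, abs_of_nonneg h3, abs_of_pos (Real.exp_pos _),
      abs_of_nonneg (by positivity : (0:ℝ) ≤ x ^ (n + 3))]
    calc x ^ (n + 3) * (1 - s ^ 2) ^ (n + 3) * Real.exp (-x) *
          |P ((c + x + c * s) / 2) ((c + x - c * s) / 2) c|
        ≤ x ^ (n + 3) * 1 * Real.exp (-x) * (C * (2 * c + x) ^ 4) := by gcongr
      _ = _ := by ring

theorem r14_hom_bd {P : ℝ → ℝ → ℝ → ℝ} (hc : Continuous fun z : ℝ × ℝ × ℝ => P z.1 z.2.1 z.2.2)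
    (hom : ∀ r a b c, P (r * a) (r * b) (r * c) = r ^ 4 * P a b c) :
    ∃ C : ℝ, 0 ≤ C ∧ ∀ a b c, 0 ≤ a → 0 ≤ b → 0 ≤ c → |P a b c| ≤ C * (a + b + c) ^ 4 := by
  obtain ⟨C, hC⟩ := (isCompact_Icc (a := ((0 : ℝ), (0 : ℝ), (0 : ℝ)))
    (b := ((1 : ℝ), (1 : ℝ), (1 : ℝ)))).exists_bound_of_continuousOn hc.continuousOn
  have h1 : ∀ a b c : ℝ, 0 ≤ a → 0 ≤ b → 0 ≤ c → a ≤ 1 → b ≤ 1 → c ≤ 1 → |P a b c| ≤ C := by
    intro a b c ha hb hc' ha1 hb1 hc1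
    have := hC (a, b, c) ⟨⟨ha, hb, hc'⟩, ⟨ha1, hb1, hc1⟩⟩
    simpa using this
  have hC0 : 0 ≤ C := le_trans (abs_nonneg _) (h1 0 0 0 le_rfl le_rfl le_rfl zero_le_one zero_le_one
    zero_le_one)
  refine ⟨C, hC0, fun a b c ha hb hc' => ?_⟩
  rcases (show 0 ≤ a + b + c by positivity).eq_or_lt with h0 | h0
  · have ha0 : a = 0 := by linarith
    have hb0 : b = 0 := by linarith
    have hc0 : c = 0 := by linarith
    have := hom 0 0 0 0
    simp only [mul_zero, ne_eq, OfNat.ofNat_ne_zero, not_false_eq_true, zero_pow, zero_mul] at this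
    rw [ha0, hb0, hc0, this]
    simp
  · have e : P a b c = (a + b + c) ^ 4 *
        P (a / (a + b + c)) (b / (a + b + c)) (c / (a + b + c)) := by
      rw [← hom]
      congr 1 <;> field_simp
    have h := h1 (a / (a + b + c)) (b / (a + b + c)) (c / (a + b + c)) (by positivity)
      (by positivity) (by positivity) (by rw [div_le_one h0]; linarith)
      (by rw [div_le_one h0]; linarith) (by rw [div_le_one h0]; linarith)
    rw [e, abs_mul, abs_of_nonneg (by positivity : (0:ℝ) ≤ (a + b + c) ^ 4), mul_comm C]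
    gcongr

/-- TARGET -/
theorem pln_N (n : ℕ) : Pln (PNn n) := by
  have hc : Continuous fun z : ℝ × ℝ × ℝ => PNn n z.1 z.2.1 z.2.2 := by
    unfold PNn
    fun_prop
  have hh : ∀ r a b c, PNn n (r * a) (r * b) (r * c) = r ^ 4 * PNn n a b c := by
    intro r a b c
    unfold PNn
    ring
  refine ⟨hc, hh, fun a b c => ?_, r14_hom_bd hc hh⟩
  unfold PNn
  ring

/-- TARGET -/
theorem pln_E (n : ℕ) : Pln (PEn n) := by
  have hc : Continuous fun z : ℝ × ℝ × ℝ => PEn n z.1 z.2.1 z.2.2 := by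
    unfold PEn
    fun_prop
  have hh : ∀ r a b c, PEn n (r * a) (r * b) (r * c) = r ^ 4 * PEn n a b c := by
    intro r a b c
    unfold PEn
    ring
  refine ⟨hc, hh, fun a b c => ?_, r14_hom_bd hc hh⟩
  unfold PEn
  ring

end H706N.JH14

namespace H706N

alias rad_Nn := JH14.rad_Nn
alias rad_En := JH14.rad_En
alias rad_int_n := JH14.rad_int_n
alias pln_N := JH14.pln_N
alias pln_E := JH14.pln_E

end H706N
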