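import Pool.Agent.Helper706_NS.Defs3

set_option autoImplicit false
open Set Filter Topology MeasureTheory
open scoped ComplexConjugate ContDiff

namespace H706N.JTL1

/-- the radicand -/
noncomputable def bpP (c : ℝ) (p : ℝ × ℝ) : ℝ := ((c + p.1) ^ 2 - c ^ 2) * (1 - p.2 ^ 2)

/-- the bipolar coordinates of the half plane -/
noncomputable def bpM (c : ℝ) (p : ℝ × ℝ) : ℝ × ℝ :=
  ((c - (c + p.1) * p.2) / 2, Real.sqrt (bpP c p) / 2)

/-- the derivative of `bpM` -/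
noncomputable def bpD (c : ℝ) (p : ℝ × ℝ) : ℝ × ℝ →L[ℝ] ℝ × ℝ :=
  (Matrix.toLin (.finTwoProd ℝ) (.finTwoProd ℝ)
    !![-p.2 / 2, -(c + p.1) / 2;
       (c + p.1) * (1 - p.2 ^ 2) / (2 * Real.sqrt (bpP c p)),
       -(p.2 * ((c + p.1) ^ 2 - c ^ 2)) / (2 * Real.sqrt (bpP c p))]).toContinuousLinearMap

theorem bpD_det (c : ℝ) (p : ℝ × ℝ) (h : 0 < bpP c p) :
    (bpD c p).det = ((c + p.1) ^ 2 - (c * p.2) ^ 2) / (4 * Real.sqrt (bpP c p)) := by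
  unfold bpD
  simp only [LinearMap.det_toContinuousLinearMap, LinearMap.det_toLin, Matrix.det_fin_two_of]
  have : Real.sqrt (bpP c p) ≠ 0 := (Real.sqrt_pos.2 h).ne'
  field_simp
  ring

theorem bpM_fderiv (c : ℝ) (p : ℝ × ℝ) (h : 0 < bpP c p) : HasFDerivAt (bpM c) (bpD c p) p := by
  have hs : Real.sqrt (bpP c p) ≠ 0 := (Real.sqrt_pos.2 h).ne'
  have h1 : HasFDerivAt (fun p : ℝ × ℝ => p.1) (ContinuousLinearMap.fst ℝ ℝ ℝ) p := hasFDerivAt_fst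
  have h2 : HasFDerivAt (fun p : ℝ × ℝ => p.2) (ContinuousLinearMap.snd ℝ ℝ ℝ) p := hasFDerivAt_snd
  have hX := h1.const_add c
  have a1 := ((hX.mul h2).const_sub c).mul_const (1 / 2 : ℝ)
  have b1 := ((hX.mul hX).sub_const (c ^ 2)).mul ((h2.mul h2).const_sub 1)
  have e : ((c + p.1) * (c + p.1) - c ^ 2) * (1 - p.2 * p.2) = bpP c p := by
    unfold bpP; ring
  have b2 := (b1.sqrt (by
    simp only [Pi.mul_apply]
    rw [e]; exact h.ne')).mul_const (1 / 2 : ℝ)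
  have key := a1.prodMk b2
  simp only [Pi.mul_apply] at key
  rw [e] at key
  unfold bpD
  rw [Matrix.toLin_finTwoProd_toContinuousLinearMap]
  refine (key.congr_fderiv ?_).congr_of_eventuallyEq (Filter.Eventually.of_forall fun q => ?_)
  · ext
    · simp
      ring
    · simp
      field_simp
      ring
    · simp
      ring
    · simp
      field_simp
      ring
  · simp only [bpM, bpP]
    refine Prod.ext ?_ ?_
    · simp
      ring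
    · simp
      ring_nf

theorem bpP_pos {c : ℝ} (hc : 0 < c) {p : ℝ × ℝ} (hp : p ∈ Ioi (0 : ℝ) ×ˢ Ioo (-1 : ℝ) 1) :
    0 < bpP c p := by
  obtain ⟨h1, h2, h3⟩ := hp
  simp only [mem_Ioi] at h1
  unfold bpP
  have e1 : 0 < (c + p.1) ^ 2 - c ^ 2 := by nlinarith
  have e2 : 0 < 1 - p.2 ^ 2 := by nlinarith
  exact mul_pos e1 e2

theorem bpM_a (c : ℝ) (p : ℝ × ℝ) (h : 0 < bpP c p) :
    (bpM c p).2 ^ 2 + (bpM c p).1 ^ 2 = ((c + p.1 - c * p.2) / 2) ^ 2 := by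
  have h1 := Real.sq_sqrt h.le
  simp only [bpM]
  rw [div_pow, h1]
  unfold bpP
  ring

theorem bpM_b (c : ℝ) (p : ℝ × ℝ) (h : 0 < bpP c p) :
    (bpM c p).2 ^ 2 + (c - (bpM c p).1) ^ 2 = ((c + p.1 + c * p.2) / 2) ^ 2 := by
  have h1 := Real.sq_sqrt h.le
  simp only [bpM]
  rw [div_pow, h1]
  unfold bpP
  ring

theorem bpM_sa {c : ℝ} (hc : 0 < c) {p : ℝ × ℝ} (hp : p ∈ Ioi (0 : ℝ) ×ˢ Ioo (-1 : ℝ) 1) :
    Real.sqrt ((bpM c p).2 ^ 2 + (bpM c p).1 ^ 2) = (c + p.1 - c * p.2) / 2 := by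
  rw [bpM_a c p (bpP_pos hc hp)]
  obtain ⟨h1, h2, h3⟩ := hp
  simp only [mem_Ioi] at h1
  exact Real.sqrt_sq (by nlinarith)

theorem bpM_sb {c : ℝ} (hc : 0 < c) {p : ℝ × ℝ} (hp : p ∈ Ioi (0 : ℝ) ×ˢ Ioo (-1 : ℝ) 1) :
    Real.sqrt ((bpM c p).2 ^ 2 + (c - (bpM c p).1) ^ 2) = (c + p.1 + c * p.2) / 2 := by
  rw [bpM_b c p (bpP_pos hc hp)]
  obtain ⟨h1, h2, h3⟩ := hp
  simp only [mem_Ioi] at h1
  exact Real.sqrt_sq (by nlinarith)

theorem bpM_inj {c : ℝ} (hc : 0 < c) : InjOn (bpM c) (Ioi (0 : ℝ) ×ˢ Ioo (-1 : ℝ) 1) := by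
  intro p hp q hq h
  have h1 := bpM_sa hc hp
  have h2 := bpM_sb hc hp
  rw [h] at h1 h2
  rw [bpM_sa hc hq] at h1
  rw [bpM_sb hc hq] at h2
  have e1 : p.1 = q.1 := by linarith
  have e2 : c * p.2 = c * q.2 := by linarith
  exact Prod.ext e1 (mul_left_cancel₀ hc.ne' e2)

theorem bpM_image {c : ℝ} (hc : 0 < c) :
    bpM c '' (Ioi (0 : ℝ) ×ˢ Ioo (-1 : ℝ) 1) = univ ×ˢ Ioi (0 : ℝ) := by
  ext w
  constructor
  · rintro ⟨p, hp, rfl⟩
    refine ⟨mem_univ _, ?_⟩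
    have := Real.sqrt_pos.2 (bpP_pos hc hp)
    simp only [bpM, mem_Ioi]
    linarith
  · rintro ⟨-, hw⟩
    obtain ⟨ζ, ρ⟩ := w
    simp only [mem_Ioi] at hw
    obtain ⟨r1, hr1⟩ : ∃ r1, r1 = Real.sqrt (ρ ^ 2 + ζ ^ 2) := ⟨_, rfl⟩
    obtain ⟨r2, hr2⟩ : ∃ r2, r2 = Real.sqrt (ρ ^ 2 + (c - ζ) ^ 2) := ⟨_, rfl⟩
    have s1 : r1 ^ 2 = ρ ^ 2 + ζ ^ 2 := by rw [hr1]; exact Real.sq_sqrt (by positivity)
    have s2 : r2 ^ 2 = ρ ^ 2 + (c - ζ) ^ 2 := by rw [hr2]; exact Real.sq_sqrt (by positivity)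
    have p1 : 0 < r1 := by rw [hr1]; exact Real.sqrt_pos.2 (by positivity)
    have p2 : 0 < r2 := by rw [hr2]; exact Real.sqrt_pos.2 (by positivity)
    have q1 : |ζ| < r1 := by
      rw [hr1]
      exact Real.lt_sqrt_of_sq_lt (by rw [sq_abs]; nlinarith)
    have q2 : |c - ζ| < r2 := by
      rw [hr2]
      exact Real.lt_sqrt_of_sq_lt (by rw [sq_abs]; nlinarith)
    have q3 := abs_lt.1 q1
    have q4 := abs_lt.1 q2
    have hX : c < r1 + r2 := by linarith [q3.2, q4.2]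
    have hprod : (r2 - r1) * (r1 + r2) = c * (c - 2 * ζ) := by linear_combination s2 - s1
    have hu : r2 - r1 < c := by
      by_contra hcon
      push Not at hcon
      have : c * (r1 + r2) ≤ (r2 - r1) * (r1 + r2) :=
        mul_le_mul_of_nonneg_right hcon (by linarith)
      rw [hprod] at this
      have := le_of_mul_le_mul_left this hc
      linarith [q3.1, q4.1, q3.2, q4.2]
    have hl : -c < r2 - r1 := by
      by_contra hcon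
      push Not at hcon
      have : (r2 - r1) * (r1 + r2) ≤ -c * (r1 + r2) :=
        mul_le_mul_of_nonneg_right hcon (by linarith)
      rw [hprod] at this
      have h5 : c - 2 * ζ ≤ -(r1 + r2) := le_of_mul_le_mul_left (by linarith) hc
      linarith [q3.1, q4.1, q3.2, q4.2]
    refine ⟨(r1 + r2 - c, (r2 - r1) / c), ⟨?_, ?_, ?_⟩, ?_⟩
    · simp only [mem_Ioi]; linarith
    · simp only
      rw [lt_div_iff₀ hc]; linarith
    · simp only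
      rw [div_lt_one hc]; exact hu
    · have e0 : (c + (r1 + r2 - c)) * ((r2 - r1) / c) = c - 2 * ζ := by
        field_simp
        linear_combination hprod
      have e1 : bpP c (r1 + r2 - c, (r2 - r1) / c) = (2 * ρ) ^ 2 := by
        unfold bpP
        simp only
        field_simp
        have : (c + (r1 + r2 - c)) = r1 + r2 := by ring
        rw [this]
        have h6 : (r1 + r2) ^ 2 * (r2 - r1) ^ 2 = c ^ 2 * (c - 2 * ζ) ^ 2 := by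
          rw [← mul_pow, ← mul_pow, mul_comm (r1 + r2), hprod]
        linear_combination (-1 : ℝ) * h6 + 2 * c ^ 2 * s1 + 2 * c ^ 2 * s2
      refine Prod.ext ?_ ?_
      · simp only [bpM]
        rw [e0]; ring
      · simp only [bpM]
        rw [e1, Real.sqrt_sq (by linarith)]
        ring

theorem lint_half {c : ℝ} (hc : 0 < c) (F : ℝ → ℝ → ENNReal) :
    ∫⁻ p in (univ ×ˢ Ioi (0 : ℝ) : Set (ℝ × ℝ)),
        ENNReal.ofReal p.2 * F (Real.sqrt (p.2 ^ 2 + (c - p.1) ^ 2)) (Real.sqrt (p.2 ^ 2 + p.1 ^ 2))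
      = ∫⁻ p in (Ioi (0 : ℝ) ×ˢ Ioo (-1 : ℝ) 1 : Set (ℝ × ℝ)),
          F ((c + p.1 + c * p.2) / 2) ((c + p.1 - c * p.2) / 2)
            * ENNReal.ofReal (((c + p.1) ^ 2 - (c * p.2) ^ 2) / 8) := by
  have hS : MeasurableSet (Ioi (0 : ℝ) ×ˢ Ioo (-1 : ℝ) 1 : Set (ℝ × ℝ)) :=
    measurableSet_Ioi.prod measurableSet_Ioo
  rw [← bpM_image hc, lintegral_image_eq_lintegral_abs_det_fderiv_mul volume hS
    (fun p hp => (bpM_fderiv c p (bpP_pos hc hp)).hasFDerivWithinAt) (bpM_inj hc)]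
  refine setLIntegral_congr_fun hS fun p hp => ?_
  rw [bpM_sa hc hp, bpM_sb hc hp, bpD_det c p (bpP_pos hc hp), ← mul_assoc, mul_comm]
  congr 1
  have h0 := Real.sqrt_pos.2 (bpP_pos hc hp)
  obtain ⟨h1, h2, h3⟩ := hp
  simp only [mem_Ioi] at h1
  have h4 : 0 < (c + p.1) ^ 2 - (c * p.2) ^ 2 := by
    have : (c * p.2) ^ 2 ≤ c ^ 2 := by
      rw [mul_pow]
      have : p.2 ^ 2 ≤ 1 := by nlinarith
      nlinarith [sq_nonneg c]
    nlinarith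
  rw [abs_of_pos (by positivity), ← ENNReal.ofReal_mul (by positivity)]
  congr 1
  simp only [bpM]
  field_simp
  ring

theorem exists_m (k : E) : ∃ m : E, ‖m‖ = 1 ∧ inner ℝ k m = 0 ∧
    ∀ q : E, (k 0 * q 1 - k 1 * q 0) ^ 2 = (k 0 ^ 2 + k 1 ^ 2) * (inner ℝ m q) ^ 2 := by
  by_cases h : k 0 ^ 2 + k 1 ^ 2 = 0
  · have h0 : k 0 = 0 := by nlinarith [sq_nonneg (k 0), sq_nonneg (k 1)]
    have h1 : k 1 = 0 := by nlinarith [sq_nonneg (k 0), sq_nonneg (k 1)]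
    refine ⟨EuclideanSpace.single 0 1, by simp, ?_, fun q => ?_⟩
    · simp [PiLp.inner_apply, Fin.sum_univ_three, h0]
    · rw [h0, h1]; simp
  · have hpos : 0 < k 0 ^ 2 + k 1 ^ 2 := lt_of_le_of_ne (by positivity) (Ne.symm h)
    obtain ⟨h0, hh0⟩ : ∃ h0, h0 = Real.sqrt (k 0 ^ 2 + k 1 ^ 2) := ⟨_, rfl⟩
    have hp : 0 < h0 := by rw [hh0]; exact Real.sqrt_pos.2 hpos
    have hsq : h0 ^ 2 = k 0 ^ 2 + k 1 ^ 2 := by rw [hh0]; exact Real.sq_sqrt hpos.le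
    have hw : ∀ q : E, inner ℝ (h0⁻¹ • (!₂[-k 1, k 0, 0] : E)) q
        = h0⁻¹ * (k 0 * q 1 - k 1 * q 0) := by
      intro q
      rw [inner_smul_left]
      simp [PiLp.inner_apply, Fin.sum_univ_three]
      left
      ring
    refine ⟨h0⁻¹ • !₂[-k 1, k 0, 0], ?_, ?_, fun q => ?_⟩
    · have h2 : ‖(!₂[-k 1, k 0, 0] : E)‖ = h0 := by
        rw [EuclideanSpace.norm_eq, hh0]
        congr 1
        simp [Fin.sum_univ_three]
        ring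
      rw [norm_smul, h2, Real.norm_of_nonneg (inv_pos.2 hp).le, inv_mul_cancel₀ hp.ne']
    · rw [real_inner_comm, hw]
      ring
    · rw [hw, mul_pow, ← hsq]
      field_simp

theorem exists_frame {k : E} (hk : k ≠ 0) : ∃ b : OrthonormalBasis (Fin 3) ℝ E,
    b 2 = ‖k‖⁻¹ • k ∧
    ∀ q : E, (k 0 * q 1 - k 1 * q 0) ^ 2 = (k 0 ^ 2 + k 1 ^ 2) * (inner ℝ (b 0) q) ^ 2 := by
  obtain ⟨m, hm1, hm2, hm3⟩ := exists_m k
  have hk0 : 0 < ‖k‖ := norm_pos_iff.2 hk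
  have hn : ‖‖k‖⁻¹ • k‖ = 1 := by
    rw [norm_smul, norm_inv, norm_norm, inv_mul_cancel₀ hk0.ne']
  have hv : Orthonormal ℝ (Set.domRestrict ({0, 2} : Set (Fin 3)) ![m, 0, ‖k‖⁻¹ • k]) := by
    constructor
    · rintro ⟨i, hi⟩
      rcases hi with rfl | hi
      · simpa using hm1
      · rw [Set.mem_singleton_iff] at hi
        subst hi
        simpa using hn
    · rintro ⟨i, hi⟩ ⟨j, hj⟩ hij
      rw [Set.mem_insert_iff, Set.mem_singleton_iff] at hi hj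
      rcases hi with rfl | rfl <;> rcases hj with rfl | rfl
      · exact absurd rfl hij
      · simp only [Set.domRestrict_apply]
        show inner ℝ m (‖k‖⁻¹ • k) = 0
        rw [inner_smul_right, real_inner_comm, hm2, mul_zero]
      · simp only [Set.domRestrict_apply]
        show inner ℝ (‖k‖⁻¹ • k) m = 0
        rw [inner_smul_left, hm2, mul_zero]
      · exact absurd rfl hij
  obtain ⟨b, hb⟩ := hv.exists_orthonormalBasis_extension_of_card_eq (by simp)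
  refine ⟨b, ?_, fun q => ?_⟩
  · rw [hb 2 (by simp)]
    rfl
  · rw [hb 0 (by simp), hm3 q]
    rfl

/-- the integrand in cylindrical coordinates -/
noncomputable def cyl (F : ℝ → ℝ → ENNReal) (β : ℝ → ENNReal) (c h z A B : ℝ) : ENNReal :=
  F (Real.sqrt (A ^ 2 + B ^ 2 + (c - z) ^ 2)) (Real.sqrt (A ^ 2 + B ^ 2 + z ^ 2))
    * β (h * A ^ 2 / (c ^ 2 * (A ^ 2 + B ^ 2)))

theorem frame_val {k : E} (hk : k ≠ 0) (F : ℝ → ℝ → ENNReal) (β : ℝ → ENNReal)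
    (b : OrthonormalBasis (Fin 3) ℝ E) (hb2 : b 2 = ‖k‖⁻¹ • k)
    (hb0 : ∀ q : E, (k 0 * q 1 - k 1 * q 0) ^ 2 = (k 0 ^ 2 + k 1 ^ 2) * (inner ℝ (b 0) q) ^ 2)
    (y : EuclideanSpace ℝ (Fin 3)) :
    F ‖k - b.repr.symm y‖ ‖b.repr.symm y‖
        * β (cr (k - b.repr.symm y) (b.repr.symm y) 2 ^ 2
          / ‖cr (k - b.repr.symm y) (b.repr.symm y)‖ ^ 2)
      = cyl F β ‖k‖ (k 0 ^ 2 + k 1 ^ 2) (y 2) (y 0) (y 1) := by
  have hk0 : 0 < ‖k‖ := norm_pos_iff.2 hk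
  obtain ⟨q, hq⟩ : ∃ q, q = b.repr.symm y := ⟨_, rfl⟩
  have hy : ∀ i, inner ℝ (b i) q = y i := by
    intro i
    rw [← b.repr_apply_apply, hq, LinearIsometryEquiv.apply_symm_apply]
  have hnq : ‖q‖ ^ 2 = y 0 ^ 2 + y 1 ^ 2 + y 2 ^ 2 := by
    rw [hq, LinearIsometryEquiv.norm_map, EuclideanSpace.norm_sq_eq, Fin.sum_univ_three]
    simp
  have hkq : inner ℝ k q = ‖k‖ * y 2 := by
    have := hy 2
    rw [hb2, inner_smul_left] at this
    simp only [conj_trivial] at this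
    rw [← this]
    field_simp
  have hnk : ‖k - q‖ ^ 2 = y 0 ^ 2 + y 1 ^ 2 + (‖k‖ - y 2) ^ 2 := by
    rw [@norm_sub_sq_real, hkq, hnq]
    ring
  have hc2 : cr (k - q) q 2 = k 0 * q 1 - k 1 * q 0 := by
    simp [cr]
    ring
  have hcn : ‖cr (k - q) q‖ ^ 2 = ‖k‖ ^ 2 * (y 0 ^ 2 + y 1 ^ 2) := by
    have e1 : ‖cr (k - q) q‖ ^ 2 = ‖k‖ ^ 2 * ‖q‖ ^ 2 - (inner ℝ k q) ^ 2 := by
      rw [EuclideanSpace.norm_sq_eq, EuclideanSpace.norm_sq_eq, EuclideanSpace.norm_sq_eq]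
      simp [cr, PiLp.inner_apply, Fin.sum_univ_three]
      ring
    rw [e1, hnq, hkq]
    ring
  rw [← hq]
  unfold cyl
  have r1 : ‖k - q‖ = Real.sqrt (y 0 ^ 2 + y 1 ^ 2 + (‖k‖ - y 2) ^ 2) := by
    rw [← hnk, Real.sqrt_sq (norm_nonneg _)]
  have r2 : ‖q‖ = Real.sqrt (y 0 ^ 2 + y 1 ^ 2 + y 2 ^ 2) := by
    rw [← hnq, Real.sqrt_sq (norm_nonneg _)]
  rw [r1, r2, hc2, hb0, hy, hcn]

theorem cyl_meas {F : ℝ → ℝ → ENNReal} (hF : Measurable (Function.uncurry F))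
    {β : ℝ → ENNReal} (hβ : Measurable β) (c h : ℝ) :
    Measurable fun w : ℝ × (ℝ × ℝ) => cyl F β c h w.1 w.2.1 w.2.2 := by
  unfold cyl
  refine Measurable.mul ?_ (hβ.comp (by fun_prop))
  have : Measurable fun w : ℝ × (ℝ × ℝ) =>
      ((Real.sqrt (w.2.1 ^ 2 + w.2.2 ^ 2 + (c - w.1) ^ 2),
        Real.sqrt (w.2.1 ^ 2 + w.2.2 ^ 2 + w.1 ^ 2)) : ℝ × ℝ) := by fun_prop
  exact hF.comp this

theorem lint_frame {f : E → ENNReal} {g : ℝ → ℝ → ℝ → ENNReal}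
    (b : OrthonormalBasis (Fin 3) ℝ E)
    (hg : Measurable fun w : ℝ × (ℝ × ℝ) => g w.1 w.2.1 w.2.2)
    (hfg : ∀ y, f (b.repr.symm y) = g (y 2) (y 0) (y 1)) :
    ∫⁻ q, f q = ∫⁻ z, ∫⁻ p : ℝ × ℝ, g z p.1 p.2 := by
  rw [← b.measurePreserving_repr_symm.lintegral_comp_emb
    b.repr.symm.toHomeomorph.measurableEmbedding]
  simp only [hfg]
  rw [← (PiLp.volume_preserving_toLp (Fin 3)).lintegral_comp_emb
    (MeasurableEquiv.toLp 2 (Fin 3 → ℝ)).measurableEmbedding]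
  have e1 : ∀ z : Fin 3 → ℝ, g ((WithLp.toLp 2 z : EuclideanSpace ℝ (Fin 3)) 2)
      ((WithLp.toLp 2 z : EuclideanSpace ℝ (Fin 3)) 0)
      ((WithLp.toLp 2 z : EuclideanSpace ℝ (Fin 3)) 1)
      = (fun w : ℝ × (Fin 2 → ℝ) => g w.1 (w.2 0) (w.2 1))
        (MeasurableEquiv.piFinSuccAbove (fun _ : Fin 3 => ℝ) 2 z) := by
    intro z
    rfl
  simp only [e1]
  have hm : Measurable fun w : ℝ × (Fin 2 → ℝ) => g w.1 (w.2 0) (w.2 1) := by
    have : Measurable fun w : ℝ × (Fin 2 → ℝ) => ((w.1, (w.2 0, w.2 1)) : ℝ × (ℝ × ℝ)) := by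
      fun_prop
    exact hg.comp this
  rw [(volume_preserving_piFinSuccAbove (fun _ : Fin 3 => ℝ) 2).lintegral_comp_emb
    (MeasurableEquiv.measurableEmbedding _) (fun w : ℝ × (Fin 2 → ℝ) => g w.1 (w.2 0) (w.2 1))]
  rw [Measure.volume_eq_prod, lintegral_prod _ hm.aemeasurable]
  refine lintegral_congr fun z => ?_
  exact (volume_preserving_finTwoArrow ℝ).lintegral_comp_emb
    (MeasurableEquiv.measurableEmbedding _) (fun p : ℝ × ℝ => g z p.1 p.2)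

theorem cyl_polar (F : ℝ → ℝ → ENNReal) (hF : Measurable (Function.uncurry F))
    {β : ℝ → ENNReal} (hβ : Measurable β) (c h z : ℝ) (hc : 0 < c) :
    ∫⁻ p : ℝ × ℝ, cyl F β c h z p.1 p.2
      = (∫⁻ ρ in Ioi (0 : ℝ), ENNReal.ofReal ρ *
          F (Real.sqrt (ρ ^ 2 + (c - z) ^ 2)) (Real.sqrt (ρ ^ 2 + z ^ 2)))
        * ∫⁻ φ in Ioo (-Real.pi) Real.pi, β (h / c ^ 2 * Real.cos φ ^ 2) := by
  rw [← lintegral_comp_polarCoord_symm]
  have hT : polarCoord.target = Ioi (0 : ℝ) ×ˢ Ioo (-Real.pi) Real.pi := rfl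
  rw [hT]
  have hS : MeasurableSet (Ioi (0 : ℝ) ×ˢ Ioo (-Real.pi) Real.pi : Set (ℝ × ℝ)) :=
    measurableSet_Ioi.prod measurableSet_Ioo
  have e1 : ∫⁻ p in (Ioi (0 : ℝ) ×ˢ Ioo (-Real.pi) Real.pi : Set (ℝ × ℝ)),
      ENNReal.ofReal p.1 • cyl F β c h z (polarCoord.symm p).1 (polarCoord.symm p).2
      = ∫⁻ p in (Ioi (0 : ℝ) ×ˢ Ioo (-Real.pi) Real.pi : Set (ℝ × ℝ)),
        (ENNReal.ofReal p.1 * F (Real.sqrt (p.1 ^ 2 + (c - z) ^ 2)) (Real.sqrt (p.1 ^ 2 + z ^ 2)))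
          * β (h / c ^ 2 * Real.cos p.2 ^ 2) := by
    refine setLIntegral_congr_fun hS fun p hp => ?_
    obtain ⟨h1, h2, h3⟩ := hp
    simp only [mem_Ioi] at h1
    simp only [polarCoord_symm_apply, smul_eq_mul, cyl]
    have e2 : (p.1 * Real.cos p.2) ^ 2 + (p.1 * Real.sin p.2) ^ 2 = p.1 ^ 2 := by
      have := Real.sin_sq_add_cos_sq p.2
      linear_combination p.1 ^ 2 * this
    rw [e2, ← mul_assoc]
    congr 2
    field_simp
  rw [e1, Measure.volume_eq_prod, ← Measure.prod_restrict]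
  have hm1 : Measurable fun ρ : ℝ => ENNReal.ofReal ρ *
      F (Real.sqrt (ρ ^ 2 + (c - z) ^ 2)) (Real.sqrt (ρ ^ 2 + z ^ 2)) := by
    refine Measurable.mul (by fun_prop) ?_
    have : Measurable fun ρ : ℝ => ((Real.sqrt (ρ ^ 2 + (c - z) ^ 2),
        Real.sqrt (ρ ^ 2 + z ^ 2)) : ℝ × ℝ) := by fun_prop
    exact hF.comp this
  have hm2 : Measurable fun φ : ℝ => β (h / c ^ 2 * Real.cos φ ^ 2) := hβ.comp (by fun_prop)
  exact lintegral_prod_mul hm1.aemeasurable hm2.aemeasurable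

/-- TARGET -/
theorem bipolar {k : E} (hk : k ≠ 0) {F : ℝ → ℝ → ENNReal} (hF : Measurable (Function.uncurry F))
    {β : ℝ → ENNReal} (hβ : Measurable β) :
    ∫⁻ q : E, F ‖k - q‖ ‖q‖ * β (cr (k - q) q 2 ^ 2 / ‖cr (k - q) q‖ ^ 2)
      = (∫⁻ x in Ioi (0 : ℝ), ∫⁻ s in Ioo (-1 : ℝ) 1,
          F ((‖k‖ + x + ‖k‖ * s) / 2) ((‖k‖ + x - ‖k‖ * s) / 2)
            * ENNReal.ofReal (((‖k‖ + x) ^ 2 - (‖k‖ * s) ^ 2) / 8))
          * ∫⁻ φ in Ioo (-Real.pi) Real.pi, β ((k 0 ^ 2 + k 1 ^ 2) / ‖k‖ ^ 2 * Real.cos φ ^ 2) := by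
  obtain ⟨b, hb2, hb0⟩ := exists_frame hk
  have hc : 0 < ‖k‖ := norm_pos_iff.2 hk
  rw [lint_frame (g := cyl F β ‖k‖ (k 0 ^ 2 + k 1 ^ 2)) b (cyl_meas hF hβ _ _)
    (frame_val hk F β b hb2 hb0)]
  simp only [cyl_polar F hF hβ ‖k‖ (k 0 ^ 2 + k 1 ^ 2) _ hc]
  have hm1 : Measurable fun p : ℝ × ℝ => ENNReal.ofReal p.2 *
      F (Real.sqrt (p.2 ^ 2 + (‖k‖ - p.1) ^ 2)) (Real.sqrt (p.2 ^ 2 + p.1 ^ 2)) := by
    refine Measurable.mul (by fun_prop) ?_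
    have : Measurable fun p : ℝ × ℝ => ((Real.sqrt (p.2 ^ 2 + (‖k‖ - p.1) ^ 2),
        Real.sqrt (p.2 ^ 2 + p.1 ^ 2)) : ℝ × ℝ) := by fun_prop
    exact hF.comp this
  have hm3 : Measurable fun z : ℝ => ∫⁻ ρ in Ioi (0 : ℝ), ENNReal.ofReal ρ *
      F (Real.sqrt (ρ ^ 2 + (‖k‖ - z) ^ 2)) (Real.sqrt (ρ ^ 2 + z ^ 2)) :=
    Measurable.lintegral_prod_right' (ν := volume.restrict (Ioi (0 : ℝ))) hm1
  rw [lintegral_mul_const _ hm3]
  congr 1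
  have hF2 : Measurable fun p : ℝ × ℝ => F ((‖k‖ + p.1 + ‖k‖ * p.2) / 2)
      ((‖k‖ + p.1 - ‖k‖ * p.2) / 2)
        * ENNReal.ofReal (((‖k‖ + p.1) ^ 2 - (‖k‖ * p.2) ^ 2) / 8) := by
    refine Measurable.mul ?_ (by fun_prop)
    have : Measurable fun p : ℝ × ℝ => (((‖k‖ + p.1 + ‖k‖ * p.2) / 2,
        (‖k‖ + p.1 - ‖k‖ * p.2) / 2) : ℝ × ℝ) := by fun_prop
    exact hF.comp this
  have key := lint_half hc F
  rw [Measure.volume_eq_prod, ← Measure.prod_restrict, ← Measure.prod_restrict,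
    lintegral_prod _ hm1.aemeasurable, lintegral_prod _ hF2.aemeasurable,
    Measure.restrict_univ] at key
  exact key

end H706N.JTL1

namespace H706N

alias bipolar := JTL1.bipolar

end H706N
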