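import Pool.Agent.Helper706_NS.Defs3
import Pool.Agent.Helper706_NS.TL1

set_option autoImplicit false
open Set Filter Topology MeasureTheory
open scoped ComplexConjugate ContDiff

namespace H706N.JTL2

theorem bpr_cr (k : E) : Continuous fun q : E => cr (k - q) q := by
  unfold cr
  refine (PiLp.continuous_toLp 2 _).comp (continuous_pi fun i => ?_)
  fin_cases i <;> simp <;> fun_prop

theorem bpr_meas (k : E) {F : ℝ → ℝ → ℝ} (hF : Measurable (Function.uncurry F))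
    {β : ℝ → ℝ} (hβ : Measurable β) :
    Measurable fun q : E => F ‖k - q‖ ‖q‖ * β (cr (k - q) q 2 ^ 2 / ‖cr (k - q) q‖ ^ 2) := by
  have h1 : Measurable fun q : E => F ‖k - q‖ ‖q‖ := by
    have h2 : Measurable fun q : E => (‖k - q‖, ‖q‖) := by fun_prop
    exact hF.comp h2
  have h3 : Measurable fun q : E => ‖cr (k - q) q‖ ^ 2 := ((bpr_cr k).norm.pow 2).measurable
  have h4 : Measurable fun q : E => cr (k - q) q 2 ^ 2 := by
    have h5 : Continuous fun q : E => (cr (k - q) q) 2 :=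
      (EuclideanSpace.proj (𝕜 := ℝ) (2 : Fin 3)).continuous.comp (bpr_cr k)
    exact (h5.pow 2).measurable
  exact h1.mul (hβ.comp (h4.div h3))

theorem bpr_enorm (x : ℝ) : ‖x‖ₑ = ENNReal.ofReal x + ENNReal.ofReal (-x) := by
  rcases le_total 0 x with h | h
  · rw [ENNReal.ofReal_of_nonpos (by linarith : -x ≤ 0), add_zero, Real.enorm_eq_ofReal h]
  · rw [ENNReal.ofReal_of_nonpos h, zero_add, ← enorm_neg, Real.enorm_eq_ofReal (by linarith)]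

/-- integrability and the value of the integral from the two parts -/
theorem bpr_int {α : Type*} [MeasurableSpace α] {μ : Measure α} {f : α → ℝ} (hf : Measurable f)
    {a b : ENNReal} (ha : ∫⁻ x, ENNReal.ofReal (f x) ∂μ = a) (hb : ∫⁻ x, ENNReal.ofReal (-f x) ∂μ = b)
    (ha' : a ≠ ⊤) (hb' : b ≠ ⊤) : ∫ x, f x ∂μ = a.toReal - b.toReal := by
  have hi : Integrable f μ := by
    refine ⟨hf.aestronglyMeasurable, ?_⟩
    rw [hasFiniteIntegral_iff_enorm]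
    simp_rw [bpr_enorm]
    rw [lintegral_add_left hf.ennreal_ofReal, ha, hb]
    exact ENNReal.add_lt_top.2 ⟨ha'.lt_top, hb'.lt_top⟩
  rw [integral_eq_lintegral_pos_part_sub_lintegral_neg_part hi, ha, hb]

theorem bpr_pos {N x s : ℝ} (hN : 0 < N) (hx : 0 < x) (hs : s ∈ Ioo (-1 : ℝ) 1) :
    0 ≤ ((N + x) ^ 2 - (N * s) ^ 2) / 8 := by
  have h1 : s ^ 2 ≤ 1 := by nlinarith [hs.1, hs.2]
  have h2 : (N * s) ^ 2 ≤ N ^ 2 := by
    rw [mul_pow]; nlinarith [sq_nonneg N]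
  nlinarith [mul_pos hN hx, sq_nonneg x]

theorem bpr_iter {N : ℝ} (hN : 0 < N) {F : ℝ → ℝ → ℝ}
    (hint : Integrable (fun z : ℝ × ℝ => F ((N + z.1 + N * z.2) / 2) ((N + z.1 - N * z.2) / 2)
      * (((N + z.1) ^ 2 - (N * z.2) ^ 2) / 8))
      ((volume.restrict (Ioi 0)).prod (volume.restrict (Ioo (-1) 1)))) :
    (∫⁻ x in Ioi (0 : ℝ), ∫⁻ s in Ioo (-1 : ℝ) 1,
        ENNReal.ofReal (F ((N + x + N * s) / 2) ((N + x - N * s) / 2))
          * ENNReal.ofReal (((N + x) ^ 2 - (N * s) ^ 2) / 8))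
      = ∫⁻ z : ℝ × ℝ, ENNReal.ofReal (F ((N + z.1 + N * z.2) / 2) ((N + z.1 - N * z.2) / 2)
        * (((N + z.1) ^ 2 - (N * z.2) ^ 2) / 8))
        ∂((volume.restrict (Ioi 0)).prod (volume.restrict (Ioo (-1) 1))) ∧
    (∫⁻ z : ℝ × ℝ, ENNReal.ofReal (F ((N + z.1 + N * z.2) / 2) ((N + z.1 - N * z.2) / 2)
        * (((N + z.1) ^ 2 - (N * z.2) ^ 2) / 8))
        ∂((volume.restrict (Ioi 0)).prod (volume.restrict (Ioo (-1) 1)))) ≠ ⊤ := by
  constructor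
  · have hm : AEMeasurable (fun z : ℝ × ℝ =>
        ENNReal.ofReal (F ((N + z.1 + N * z.2) / 2) ((N + z.1 - N * z.2) / 2)
        * (((N + z.1) ^ 2 - (N * z.2) ^ 2) / 8)))
        ((volume.restrict (Ioi 0)).prod (volume.restrict (Ioo (-1) 1))) :=
      hint.aestronglyMeasurable.aemeasurable.ennreal_ofReal
    rw [lintegral_prod _ hm]
    refine setLIntegral_congr_fun measurableSet_Ioi fun x hx => ?_
    refine setLIntegral_congr_fun measurableSet_Ioo fun s hs => ?_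
    exact (ENNReal.ofReal_mul' (bpr_pos hN hx hs)).symm
  · refine (lt_of_le_of_lt (lintegral_mono fun z => ?_) hint.hasFiniteIntegral).ne
    exact Real.ofReal_le_enorm _

/-- TARGET -/
theorem bipolar_real {k : E} (hk : k ≠ 0) {F : ℝ → ℝ → ℝ} (hF : Measurable (Function.uncurry F))
    {β : ℝ → ℝ} (hβ : Measurable β) (hβ0 : ∀ t, 0 ≤ β t) (hβ1 : ∀ t ≤ 1, β t ≤ 1)
    (hint : Integrable (fun z : ℝ × ℝ => F ((‖k‖ + z.1 + ‖k‖ * z.2) / 2) ((‖k‖ + z.1 - ‖k‖ * z.2) / 2)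
      * (((‖k‖ + z.1) ^ 2 - (‖k‖ * z.2) ^ 2) / 8))
      ((volume.restrict (Ioi 0)).prod (volume.restrict (Ioo (-1) 1)))) :
    ∫ q : E, F ‖k - q‖ ‖q‖ * β (cr (k - q) q 2 ^ 2 / ‖cr (k - q) q‖ ^ 2)
      = (∫ x in Ioi (0 : ℝ), ∫ s in Ioo (-1 : ℝ) 1,
          F ((‖k‖ + x + ‖k‖ * s) / 2) ((‖k‖ + x - ‖k‖ * s) / 2)
            * (((‖k‖ + x) ^ 2 - (‖k‖ * s) ^ 2) / 8))
          * ∫ φ in Ioo (-Real.pi) Real.pi, β ((k 0 ^ 2 + k 1 ^ 2) / ‖k‖ ^ 2 * Real.cos φ ^ 2) := by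
  have hN : 0 < ‖k‖ := norm_pos_iff.2 hk
  have hFp : Measurable (Function.uncurry fun a b => ENNReal.ofReal (F a b)) :=
    hF.ennreal_ofReal
  have hFm : Measurable (Function.uncurry fun a b => ENNReal.ofReal (-F a b)) :=
    hF.neg.ennreal_ofReal
  have hβe : Measurable fun t => ENNReal.ofReal (β t) := hβ.ennreal_ofReal
  have hbp := bipolar hk hFp hβe
  have hbm := bipolar hk hFm hβe
  obtain ⟨hp1, hp2⟩ := bpr_iter hN hint
  have hint' : Integrable (fun z : ℝ × ℝ =>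
      (fun a b => -F a b) ((‖k‖ + z.1 + ‖k‖ * z.2) / 2) ((‖k‖ + z.1 - ‖k‖ * z.2) / 2)
      * (((‖k‖ + z.1) ^ 2 - (‖k‖ * z.2) ^ 2) / 8))
      ((volume.restrict (Ioi 0)).prod (volume.restrict (Ioo (-1) 1))) := by
    refine hint.neg.congr (Eventually.of_forall fun z => ?_)
    simp only [Pi.neg_apply, neg_mul]
  obtain ⟨hm1, hm2⟩ := bpr_iter hN (F := fun a b => -F a b) hint'
  have hratio : (k 0 ^ 2 + k 1 ^ 2) / ‖k‖ ^ 2 ≤ 1 := by
    rw [div_le_one (by positivity), EuclideanSpace.real_norm_sq_eq, Fin.sum_univ_three]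
    nlinarith [sq_nonneg (k 2)]
  have hratio0 : 0 ≤ (k 0 ^ 2 + k 1 ^ 2) / ‖k‖ ^ 2 := by positivity
  have hval : ∀ φ : ℝ, (k 0 ^ 2 + k 1 ^ 2) / ‖k‖ ^ 2 * Real.cos φ ^ 2 ≤ 1 := fun φ => by
    have h1 : Real.cos φ ^ 2 ≤ 1 := Real.cos_sq_le_one φ
    exact mul_le_one₀ hratio (sq_nonneg _) h1
  set Bv : ENNReal := ∫⁻ φ in Ioo (-Real.pi) Real.pi,
    ENNReal.ofReal (β ((k 0 ^ 2 + k 1 ^ 2) / ‖k‖ ^ 2 * Real.cos φ ^ 2)) with hBv
  have hBfin : Bv ≠ ⊤ := by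
    refine (lt_of_le_of_lt (lintegral_mono (g := fun _ => (1 : ENNReal)) fun φ => ?_) ?_).ne
    · exact ENNReal.ofReal_le_one.2 (hβ1 _ (hval φ))
    · simp [Real.volume_Ioo]
  have hBint : ∫ φ in Ioo (-Real.pi) Real.pi,
      β ((k 0 ^ 2 + k 1 ^ 2) / ‖k‖ ^ 2 * Real.cos φ ^ 2) = Bv.toReal := by
    rw [integral_eq_lintegral_of_nonneg_ae (Eventually.of_forall fun φ => hβ0 _)]
    exact (hβ.comp (by fun_prop)).aestronglyMeasurable
  rw [hp1] at hbp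
  have hm1' : (∫⁻ x in Ioi (0 : ℝ), ∫⁻ s in Ioo (-1 : ℝ) 1,
        ENNReal.ofReal (-F ((‖k‖ + x + ‖k‖ * s) / 2) ((‖k‖ + x - ‖k‖ * s) / 2))
          * ENNReal.ofReal (((‖k‖ + x) ^ 2 - (‖k‖ * s) ^ 2) / 8)) = _ := hm1
  rw [hm1'] at hbm
  set Pp : ENNReal := ∫⁻ z : ℝ × ℝ,
    ENNReal.ofReal (F ((‖k‖ + z.1 + ‖k‖ * z.2) / 2) ((‖k‖ + z.1 - ‖k‖ * z.2) / 2)
        * (((‖k‖ + z.1) ^ 2 - (‖k‖ * z.2) ^ 2) / 8))
        ∂((volume.restrict (Ioi 0)).prod (volume.restrict (Ioo (-1) 1))) with hPp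
  set Pm : ENNReal := ∫⁻ z : ℝ × ℝ,
    ENNReal.ofReal ((fun a b => -F a b) ((‖k‖ + z.1 + ‖k‖ * z.2) / 2)
        ((‖k‖ + z.1 - ‖k‖ * z.2) / 2) * (((‖k‖ + z.1) ^ 2 - (‖k‖ * z.2) ^ 2) / 8))
        ∂((volume.restrict (Ioi 0)).prod (volume.restrict (Ioo (-1) 1))) with hPm
  have hL : ∫ q : E, F ‖k - q‖ ‖q‖ * β (cr (k - q) q 2 ^ 2 / ‖cr (k - q) q‖ ^ 2)
      = (Pp * Bv).toReal - (Pm * Bv).toReal := by
    apply bpr_int (bpr_meas k hF hβ)
    · rw [← hbp]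
      refine lintegral_congr fun q => ?_
      exact ENNReal.ofReal_mul' (hβ0 _)
    · rw [← hbm]
      refine lintegral_congr fun q => ?_
      rw [← neg_mul]
      exact ENNReal.ofReal_mul' (hβ0 _)
    · exact ENNReal.mul_ne_top hp2 hBfin
    · exact ENNReal.mul_ne_top hm2 hBfin
  have hR : (∫ x in Ioi (0 : ℝ), ∫ s in Ioo (-1 : ℝ) 1,
          F ((‖k‖ + x + ‖k‖ * s) / 2) ((‖k‖ + x - ‖k‖ * s) / 2)
            * (((‖k‖ + x) ^ 2 - (‖k‖ * s) ^ 2) / 8)) = Pp.toReal - Pm.toReal := by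
    have h1 := integral_prod _ hint
    rw [← h1, integral_eq_lintegral_pos_part_sub_lintegral_neg_part hint, hPp, hPm]
    simp only [neg_mul]
  rw [hL, hR, hBint, ENNReal.toReal_mul, ENNReal.toReal_mul]
  ring

end H706N.JTL2

namespace H706N

alias bipolar_real := JTL2.bipolar_real

end H706N
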