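import Pool.Agent.Helper706_NS.Defs4
import Pool.Agent.Helper706_NS.TI
import Pool.Agent.Helper706_NS.TL2
import Pool.Agent.Helper706_NS.H13
import Pool.Agent.Helper706_NS.H14

set_option autoImplicit false
open Set Filter Topology MeasureTheory
open scoped ComplexConjugate ContDiff

namespace H706N.JH15

theorem aux_norm_sq (N : E) : ‖N‖ ^ 2 = N 0 ^ 2 + N 1 ^ 2 + N 2 ^ 2 := by
  rw [EuclideanSpace.norm_sq_eq]
  simp [Fin.sum_univ_three]

theorem aux_cr_left (q : E) : cr 0 q = 0 := by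
  ext i
  fin_cases i <;> simp [cr]

theorem aux_cr_right (p : E) : cr p 0 = 0 := by
  ext i
  fin_cases i <;> simp [cr]

/-- The function `β`. -/
noncomputable def auxB (n : ℕ) (η t : ℝ) : ℝ :=
  Real.sqrt t * Real.sqrt (t - (1 - η ^ 2)) ^ (2 * n + 1)

/-- The function `F`. -/
noncomputable def auxF (P : ℝ → ℝ → ℝ → ℝ) (n : ℕ) (c e a b : ℝ) : ℝ :=
  (c ^ 3 * e ^ (n + 1))⁻¹ * (P a b c * dd a b c ^ (n + 3) * Real.exp (-a - b)) / (a * b)

theorem aux_point {P : ℝ → ℝ → ℝ → ℝ} (n : ℕ) {η : ℝ} (hη : 0 < η) (hη1 : η < 1) {p q : E}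
    (he : 0 < ee η (p + q)) (hc : 0 < ‖p + q‖) :
    mug P η n p q * (wfn n η p * wfn n η q)
      = auxF P n ‖p + q‖ (ee η (p + q)) ‖p‖ ‖q‖ * auxB n η (cr p q 2 ^ 2 / ‖cr p q‖ ^ 2) := by
  have hη2 : 0 < 1 - η ^ 2 := by nlinarith
  by_cases hZ : 0 < η ^ 2 * ‖cr p q‖ ^ 2 - cr p q 0 ^ 2 - cr p q 1 ^ 2
  · obtain ⟨hp, hq, -⟩ := ee_pos hη hZ
    have hN : 0 < ‖cr p q‖ := by
      rw [norm_pos_iff]
      intro h
      rw [h] at hZ
      simp at hZ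
    have ha : 0 < ‖p‖ := by
      rw [norm_pos_iff]
      rintro rfl
      rw [aux_cr_left] at hN
      simp at hN
    have hb : 0 < ‖q‖ := by
      rw [norm_pos_iff]
      rintro rfl
      rw [aux_cr_right] at hN
      simp at hN
    have h1 := aux_norm_sq (cr p q)
    have e1 : Real.sqrt (cr p q 2 ^ 2 / ‖cr p q‖ ^ 2) = |cr p q 2| / ‖cr p q‖ := by
      rw [Real.sqrt_div (sq_nonneg _), Real.sqrt_sq_eq_abs, Real.sqrt_sq hN.le]
    have e2 : Real.sqrt (cr p q 2 ^ 2 / ‖cr p q‖ ^ 2 - (1 - η ^ 2)) =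
        Real.sqrt (η ^ 2 * ‖cr p q‖ ^ 2 - cr p q 0 ^ 2 - cr p q 1 ^ 2) / ‖cr p q‖ := by
      have h3 : cr p q 2 ^ 2 / ‖cr p q‖ ^ 2 - (1 - η ^ 2) =
          (η ^ 2 * ‖cr p q‖ ^ 2 - cr p q 0 ^ 2 - cr p q 1 ^ 2) / ‖cr p q‖ ^ 2 := by
        field_simp
        linarith
      rw [h3, Real.sqrt_div hZ.le, Real.sqrt_sq hN.le]
    rw [auxB, e1, e2, mug, auxF, wfn, wfn]
    have e3 : Real.exp (-‖p‖ - ‖q‖) = Real.exp (-‖p‖) * Real.exp (-‖q‖) := by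
      rw [← Real.exp_add]
      ring_nf
    rw [e3, div_pow, mul_pow (ee η p * ee η q) (ee η (p + q)), mul_pow (ee η p) (ee η q)]
    have e4 : ‖cr p q‖ ^ (2 * n + 2) = ‖cr p q‖ * ‖cr p q‖ ^ (2 * n + 1) := by
      rw [show 2 * n + 2 = (2 * n + 1) + 1 from rfl, pow_succ]
      ring
    rw [e4]
    have hp' : ee η p ^ (n + 1) ≠ 0 := pow_ne_zero _ hp.ne'
    have hq' : ee η q ^ (n + 1) ≠ 0 := pow_ne_zero _ hq.ne'
    have he' : ee η (p + q) ^ (n + 1) ≠ 0 := pow_ne_zero _ he.ne'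
    have hN' : ‖cr p q‖ ^ (2 * n + 1) ≠ 0 := pow_ne_zero _ hN.ne'
    generalize ee η p ^ (n + 1) = u1 at *
    generalize ee η q ^ (n + 1) = u2 at *
    generalize ee η (p + q) ^ (n + 1) = u3 at *
    generalize ‖cr p q‖ ^ (2 * n + 1) = u4 at *
    generalize Real.sqrt (η ^ 2 * ‖cr p q‖ ^ 2 - cr p q 0 ^ 2 - cr p q 1 ^ 2) ^ (2 * n + 1) = u5
    generalize dd ‖p‖ ‖q‖ ‖p + q‖ ^ (n + 3) = u6
    field_simp
  · have h3 : Real.sqrt (η ^ 2 * ‖cr p q‖ ^ 2 - cr p q 0 ^ 2 - cr p q 1 ^ 2) = 0 :=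
      Real.sqrt_eq_zero'.2 (not_lt.1 hZ)
    have h4 : auxB n η (cr p q 2 ^ 2 / ‖cr p q‖ ^ 2) = 0 := by
      rcases eq_or_ne (‖cr p q‖) 0 with h5 | h5
      · rw [h5, auxB]
        simp
      · rw [auxB]
        have h6 : 0 < ‖cr p q‖ ^ 2 := by positivity
        have h7 : cr p q 2 ^ 2 / ‖cr p q‖ ^ 2 ≤ 1 - η ^ 2 := by
          rw [div_le_iff₀ h6]
          have := aux_norm_sq (cr p q)
          nlinarith
        rw [Real.sqrt_eq_zero'.2 (sub_nonpos.2 h7), zero_pow (by omega), mul_zero]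
    rw [h4, mul_zero, mug, h3, zero_pow (by omega)]
    simp

theorem aux_rad {P : ℝ → ℝ → ℝ → ℝ} (n : ℕ) {c e x s : ℝ} (hc : 0 < c) (he : 0 < e) (hx : 0 < x)
    (hs : -1 < s) (hs1 : s < 1) :
    auxF P n c e ((c + x + c * s) / 2) ((c + x - c * s) / 2) * (((c + x) ^ 2 - (c * s) ^ 2) / 8)
      = (c ^ (2 * n + 3) * Real.exp (-c) / (2 * e ^ (n + 1))) * (x ^ (n + 3) *
        (1 - s ^ 2) ^ (n + 3) * Real.exp (-x) *
        P ((c + x + c * s) / 2) ((c + x - c * s) / 2) c) := by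
  have h1 : 0 < c + x + c * s := by nlinarith
  have h2 : 0 < c + x - c * s := by nlinarith
  have h3 : dd ((c + x + c * s) / 2) ((c + x - c * s) / 2) c = c ^ 2 * ((1 - s ^ 2) * x) := by
    rw [dd]
    ring
  have h4 : Real.exp (-((c + x + c * s) / 2) - (c + x - c * s) / 2) =
      Real.exp (-c) * Real.exp (-x) := by
    rw [← Real.exp_add]
    ring_nf
  have h5 : (c + x) ^ 2 - (c * s) ^ 2 = (c + x + c * s) * (c + x - c * s) := by ring
  have h6 : (c ^ 2 * ((1 - s ^ 2) * x)) ^ (n + 3) =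
      c ^ (2 * n + 3) * c ^ 3 * ((1 - s ^ 2) ^ (n + 3) * x ^ (n + 3)) := by
    rw [mul_pow, mul_pow, ← pow_mul, ← pow_add]
    congr 2
  rw [auxF, h3, h4, h5, h6]
  have he' : e ^ (n + 1) ≠ 0 := pow_ne_zero _ he.ne'
  generalize e ^ (n + 1) = u1 at *
  generalize (1 - s ^ 2) ^ (n + 3) = u2 at *
  generalize x ^ (n + 3) = u3 at *
  generalize c ^ (2 * n + 3) = u4 at *
  field_simp
  ring

theorem aux_measF {P : ℝ → ℝ → ℝ → ℝ} (hP : Pln P) (n : ℕ) (c e : ℝ) :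
    Measurable (Function.uncurry (auxF P n c e)) := by
  have h1 : Measurable fun z : ℝ × ℝ => P z.1 z.2 c := by
    have h2 : Continuous fun z : ℝ × ℝ => P z.1 z.2 c :=
      hP.cont.comp (continuous_fst.prodMk (continuous_snd.prodMk continuous_const))
    exact h2.measurable
  show Measurable fun z : ℝ × ℝ => (c ^ 3 * e ^ (n + 1))⁻¹ *
    (P z.1 z.2 c * dd z.1 z.2 c ^ (n + 3) * Real.exp (-z.1 - z.2)) / (z.1 * z.2)
  have h3 : Measurable fun z : ℝ × ℝ => dd z.1 z.2 c := by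
    unfold dd
    fun_prop
  fun_prop

theorem aux_measB (n : ℕ) (η : ℝ) : Measurable (auxB n η) := by
  unfold auxB
  fun_prop

/-- TARGET -/
theorem mug_prof {P : ℝ → ℝ → ℝ → ℝ} (hP : Pln P) {η : ℝ} (hη : 0 < η) (hη1 : η < 1) (n : ℕ) (k : E) :
    ∫ q, mug P η n (k - q) q * (wfn n η (k - q) * wfn n η q)
      = angc n / 2 * (‖k‖ * Real.exp (-‖k‖) * ee η k ^ (n + 1)) *
        ∫ x in Ioi (0 : ℝ), ∫ s in Ioo (-1 : ℝ) 1, x ^ (n + 3) * (1 - s ^ 2) ^ (n + 3) * Real.exp (-x) *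
          P ((‖k‖ + x + ‖k‖ * s) / 2) ((‖k‖ + x - ‖k‖ * s) / 2) ‖k‖ := by
  rcases eq_or_lt_of_le (Real.sqrt_nonneg (η ^ 2 * ‖k‖ ^ 2 - k 2 ^ 2)) with h0 | h0
  · have h1 : ee η k = 0 := h0.symm
    have h2 : ∀ q : E, mug P η n (k - q) q * (wfn n η (k - q) * wfn n η q) = 0 := by
      intro q
      rw [mug, sub_add_cancel, h1, mul_zero, zero_pow (by omega)]
      simp
    simp only [h2, h1, integral_zero]
    rw [zero_pow (by omega)]
    ring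
  · have he : 0 < ee η k := h0
    have hee : ee η k ^ 2 = η ^ 2 * ‖k‖ ^ 2 - k 2 ^ 2 := Real.sq_sqrt (Real.sqrt_pos.1 h0).le
    have hk : k ≠ 0 := by
      rintro rfl
      simp [ee] at he
    have hc : 0 < ‖k‖ := norm_pos_iff.2 hk
    have h1 : ∀ q : E, mug P η n (k - q) q * (wfn n η (k - q) * wfn n η q) =
        auxF P n ‖k‖ (ee η k) ‖k - q‖ ‖q‖ *
          auxB n η (cr (k - q) q 2 ^ 2 / ‖cr (k - q) q‖ ^ 2) := by
      intro q
      have h2 := aux_point (P := P) n hη hη1 (p := k - q) (q := q) (by rwa [sub_add_cancel])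
        (by rwa [sub_add_cancel])
      rwa [sub_add_cancel] at h2
    simp only [h1]
    have hη2 : 0 < 1 - η ^ 2 := by nlinarith
    have hrad : ∀ x ∈ Ioi (0 : ℝ), ∀ s ∈ Ioo (-1 : ℝ) 1,
        auxF P n ‖k‖ (ee η k) ((‖k‖ + x + ‖k‖ * s) / 2) ((‖k‖ + x - ‖k‖ * s) / 2)
          * (((‖k‖ + x) ^ 2 - (‖k‖ * s) ^ 2) / 8) =
        (‖k‖ ^ (2 * n + 3) * Real.exp (-‖k‖) / (2 * ee η k ^ (n + 1))) *
        (x ^ (n + 3) * (1 - s ^ 2) ^ (n + 3) * Real.exp (-x) *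
          P ((‖k‖ + x + ‖k‖ * s) / 2) ((‖k‖ + x - ‖k‖ * s) / 2) ‖k‖) :=
      fun x hx s hs => aux_rad n hc he hx hs.1 hs.2
    have hβ1 : ∀ t ≤ 1, auxB n η t ≤ 1 := by
      intro t ht
      have h2 : Real.sqrt t ≤ 1 := Real.sqrt_le_one.2 ht
      have h3 : Real.sqrt (t - (1 - η ^ 2)) ≤ 1 := Real.sqrt_le_one.2 (by nlinarith)
      have h4 : Real.sqrt (t - (1 - η ^ 2)) ^ (2 * n + 1) ≤ 1 := pow_le_one₀ (Real.sqrt_nonneg _) h3
      exact mul_le_one₀ h2 (pow_nonneg (Real.sqrt_nonneg _) _) h4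
    rw [bipolar_real hk (F := auxF P n ‖k‖ (ee η k)) (aux_measF hP _ _ _) (β := auxB n η)
      (aux_measB n η)
      (fun t => mul_nonneg (Real.sqrt_nonneg _) (pow_nonneg (Real.sqrt_nonneg _) _)) hβ1 ?_]
    · have h2 : (∫ x in Ioi (0 : ℝ), ∫ s in Ioo (-1 : ℝ) 1,
          auxF P n ‖k‖ (ee η k) ((‖k‖ + x + ‖k‖ * s) / 2) ((‖k‖ + x - ‖k‖ * s) / 2)
            * (((‖k‖ + x) ^ 2 - (‖k‖ * s) ^ 2) / 8)) =
          (‖k‖ ^ (2 * n + 3) * Real.exp (-‖k‖) / (2 * ee η k ^ (n + 1))) *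
            ∫ x in Ioi (0 : ℝ), ∫ s in Ioo (-1 : ℝ) 1, (x ^ (n + 3) * (1 - s ^ 2) ^ (n + 3) *
          Real.exp (-x) *
          P ((‖k‖ + x + ‖k‖ * s) / 2) ((‖k‖ + x - ‖k‖ * s) / 2) ‖k‖) := by
        rw [← integral_const_mul]
        refine setIntegral_congr_fun measurableSet_Ioi fun x hx => ?_
        beta_reduce
        rw [← integral_const_mul]
        exact setIntegral_congr_fun measurableSet_Ioo fun s hs => hrad x hx s hs
      rw [h2]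
      have h3 : ∫ φ in Ioo (-Real.pi) Real.pi,
          auxB n η ((k 0 ^ 2 + k 1 ^ 2) / ‖k‖ ^ 2 * Real.cos φ ^ 2) =
          angc n * (ee η k ^ 2 / ‖k‖ ^ 2) ^ (n + 1) := by
        have h4 := ang_int_n n (c₀ := 1 - η ^ 2) (ρ := (k 0 ^ 2 + k 1 ^ 2) / ‖k‖ ^ 2) hη2.le
          (by positivity)
        have h5 : (k 0 ^ 2 + k 1 ^ 2) / ‖k‖ ^ 2 - (1 - η ^ 2) = ee η k ^ 2 / ‖k‖ ^ 2 := by
          rw [hee]
          have := aux_norm_sq k
          field_simp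
          linarith
        rw [h5, max_eq_left (by positivity)] at h4
        exact h4
      rw [h3, div_pow, ← pow_mul, ← pow_mul]
      have e1 : ee η k ^ (2 * (n + 1)) = ee η k ^ (n + 1) * ee η k ^ (n + 1) := by
        rw [← pow_add]; congr 1; ring
      have e2 : ‖k‖ ^ (2 * n + 3) = ‖k‖ ^ (2 * (n + 1)) * ‖k‖ := by
        rw [← pow_succ]; congr 1
      have he' : ee η k ^ (n + 1) ≠ 0 := pow_ne_zero _ he.ne'
      have hk' : ‖k‖ ^ (2 * (n + 1)) ≠ 0 := pow_ne_zero _ hc.ne'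
      rw [e1, e2]
      generalize ee η k ^ (n + 1) = u1 at *
      generalize ‖k‖ ^ (2 * (n + 1)) = u2 at *
      field_simp
    · have h2 := (rad_int_n n hP hc.le).const_mul
        (‖k‖ ^ (2 * n + 3) * Real.exp (-‖k‖) / (2 * ee η k ^ (n + 1)))
      refine h2.congr ?_
      rw [Measure.prod_restrict]
      refine (ae_restrict_iff' (measurableSet_Ioi.prod measurableSet_Ioo)).2
        (Filter.Eventually.of_forall fun z hz => ?_)
      exact (hrad z.1 hz.1 z.2 hz.2).symm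

end H706N.JH15

namespace H706N

alias mug_prof := JH15.mug_prof

end H706N
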