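import Pool.Agent.Helper706_NS.Defs4
import Pool.Agent.Helper706_NS.TC

set_option autoImplicit false
open Set Filter Topology MeasureTheory
open scoped ComplexConjugate ContDiff

namespace H706N.JH16

theorem h16_kd_smul (k : E) (c : ℂ) (w : W) : kd k (c • w) = c * kd k w := by
  unfold kd
  rw [Finset.mul_sum]
  apply Finset.sum_congr rfl
  intro j _
  rw [PiLp.smul_apply, smul_eq_mul]
  ring

theorem h16_real_smul (A : ℝ) (w : W) : A • w = (A : ℂ) • w := by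
  ext j
  rw [PiLp.smul_apply, PiLp.smul_apply, smul_eq_mul, Complex.real_smul]

theorem h16_prn (n : ℕ) (η A : ℝ) (k : E) :
    (A • prn n η) k = ((A : ℂ) * (Complex.I * (wfn n η k : ℂ))) • toW (vt k) := by
  rw [Pi.smul_apply, h16_real_smul]
  unfold prn
  rw [smul_smul]

theorem h16_ee_le {η : ℝ} (hη : 0 < η) (k : E) : ee η k ≤ η * ‖k‖ := by
  unfold ee
  apply Real.sqrt_le_iff.2
  refine ⟨by positivity, ?_⟩
  nlinarith [sq_nonneg (k 2)]

theorem h16_ee_nonneg (η : ℝ) (k : E) : 0 ≤ ee η k := Real.sqrt_nonneg _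

theorem h16_ee_neg (η : ℝ) (k : E) : ee η (-k) = ee η k := by
  unfold ee
  rw [norm_neg, PiLp.neg_apply, neg_sq]

theorem h16_wfn_neg (n : ℕ) (η : ℝ) (k : E) : wfn n η (-k) = wfn n η k := by
  unfold wfn
  rw [norm_neg, h16_ee_neg]

theorem h16_wfn_nonneg (n : ℕ) (η : ℝ) (k : E) : 0 ≤ wfn n η k := by
  unfold wfn
  have := h16_ee_nonneg η k
  positivity

theorem h16_norm_prn (n : ℕ) (η A : ℝ) (k : E) : ‖(A • prn n η) k‖ ≤ |A| * wfn n η k := by
  rw [h16_prn, norm_smul, norm_toW, norm_mul, norm_mul, Complex.norm_I, Complex.norm_real,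
    Complex.norm_real, Real.norm_eq_abs, Real.norm_eq_abs, abs_of_nonneg (h16_wfn_nonneg n η k),
    one_mul]
  have h1 : 0 ≤ |A| * wfn n η k := mul_nonneg (abs_nonneg _) (h16_wfn_nonneg n η k)
  calc |A| * wfn n η k * ‖vt k‖ ≤ |A| * wfn n η k * 1 := mul_le_mul_of_nonneg_left (vt_norm k) h1
    _ = _ := mul_one _

theorem h16_toW_meas : Measurable toW := by
  unfold toW
  apply (WithLp.measurable_toLp 2 (Fin 3 → ℂ)).comp
  apply measurable_pi_lambda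
  intro j
  apply Complex.measurable_ofReal.comp
  have : Continuous fun k : E => k j := by fun_prop
  exact this.measurable

theorem h16_wfn_cont (n : ℕ) (η : ℝ) : Continuous (wfn n η) := by
  unfold wfn ee
  fun_prop

/-- TARGET -/
theorem adm_prn (n : ℕ) {η : ℝ} (hη : 0 < η) (hη1 : η < 1) (A : ℝ) : Adm (A • prn n η) := by
  constructor
  · have e : (A • prn n η) = fun k => ((A : ℂ) * (Complex.I * (wfn n η k : ℂ))) • toW (vt k) := by
      funext k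
      exact h16_prn n η A k
    rw [e]
    refine Measurable.smul (f := fun k => ((A : ℂ) * (Complex.I * (wfn n η k : ℂ))))
      (g := fun k => toW (vt k)) ?_ ?_
    · exact (measurable_const.mul (measurable_const.mul
        (Complex.measurable_ofReal.comp (h16_wfn_cont n η).measurable)))
    · exact h16_toW_meas.comp vt_meas
  · intro m
    refine ⟨|A| * η ^ (n + 1) * ((m + (n + 3)).factorial * Real.exp 1), fun k => ?_⟩
    have hx : 0 ≤ ‖k‖ := norm_nonneg k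
    have h1 : wfn n η k ≤ η ^ (n + 1) * (‖k‖ ^ (n + 3) * Real.exp (-‖k‖)) := by
      unfold wfn
      have h0 : ee η k ^ (n + 1) ≤ (η * ‖k‖) ^ (n + 1) :=
        pow_le_pow_left₀ (h16_ee_nonneg η k) (h16_ee_le hη k) _
      have h2 : 0 ≤ ‖k‖ ^ 2 * Real.exp (-‖k‖) := by positivity
      calc ‖k‖ ^ 2 * Real.exp (-‖k‖) * ee η k ^ (n + 1)
          ≤ ‖k‖ ^ 2 * Real.exp (-‖k‖) * (η * ‖k‖) ^ (n + 1) :=
            mul_le_mul_of_nonneg_left h0 h2
        _ = _ := by rw [mul_pow]; ring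
    have h2 : (1 + ‖k‖) ^ (m + (n + 3)) * Real.exp (-‖k‖) ≤
        (m + (n + 3)).factorial * Real.exp 1 := by
      have h3 := Real.pow_div_factorial_le_exp (1 + ‖k‖) (by positivity) (m + (n + 3))
      have hf : (0 : ℝ) < (m + (n + 3)).factorial := by exact_mod_cast Nat.factorial_pos _
      rw [div_le_iff₀ hf] at h3
      calc (1 + ‖k‖) ^ (m + (n + 3)) * Real.exp (-‖k‖)
          ≤ (Real.exp (1 + ‖k‖) * (m + (n + 3)).factorial) * Real.exp (-‖k‖) :=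
            mul_le_mul_of_nonneg_right h3 (Real.exp_pos _).le
        _ = (m + (n + 3)).factorial * (Real.exp (1 + ‖k‖) * Real.exp (-‖k‖)) := by ring
        _ = _ := by rw [← Real.exp_add]; congr 2; ring
    have h4 : ‖k‖ ^ (n + 3) ≤ (1 + ‖k‖) ^ (n + 3) := pow_le_pow_left₀ hx (by linarith) _
    have hη' : 0 ≤ η ^ (n + 1) := by positivity
    calc (1 + ‖k‖) ^ m * ‖(A • prn n η) k‖ ≤ (1 + ‖k‖) ^ m * (|A| * wfn n η k) :=
          mul_le_mul_of_nonneg_left (h16_norm_prn n η A k) (by positivity)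
      _ ≤ (1 + ‖k‖) ^ m * (|A| * (η ^ (n + 1) * (‖k‖ ^ (n + 3) * Real.exp (-‖k‖)))) := by
          apply mul_le_mul_of_nonneg_left _ (by positivity)
          exact mul_le_mul_of_nonneg_left h1 (abs_nonneg _)
      _ ≤ (1 + ‖k‖) ^ m * (|A| * (η ^ (n + 1) * ((1 + ‖k‖) ^ (n + 3) * Real.exp (-‖k‖)))) := by
          gcongr
      _ = |A| * η ^ (n + 1) * ((1 + ‖k‖) ^ (m + (n + 3)) * Real.exp (-‖k‖)) := by
          rw [pow_add (1 + ‖k‖) m (n + 3)]; ring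
      _ ≤ _ := by
          apply mul_le_mul_of_nonneg_left h2
          exact mul_nonneg (abs_nonneg _) hη'
  · intro k j
    rw [h16_prn, h16_prn, h16_wfn_neg, vt_neg, PiLp.smul_apply, PiLp.smul_apply, smul_eq_mul,
      smul_eq_mul, map_mul, map_mul, map_mul, Complex.conj_ofReal, Complex.conj_ofReal,
      Complex.conj_I]
    have e1 : toW (-vt k) j = -(toW (vt k) j) := by
      unfold toW
      simp
    have e2 : conj (toW (vt k) j) = toW (vt k) j := by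
      unfold toW
      simp
    rw [e1, e2]
    ring
  · intro k
    rw [h16_prn, h16_kd_smul, kd_vt, mul_zero]

/-- TARGET -/
theorem prn_band (n : ℕ) {η : ℝ} (hη : 0 < η) (A : ℝ) (k : E) (hk : k ∉ band η) : (A • prn n η) k = 0 := by
  have h' : η ^ 2 * ‖k‖ ^ 2 < k 2 ^ 2 := not_le.1 hk
  have he : ee η k = 0 := by
    unfold ee
    apply Real.sqrt_eq_zero_of_nonpos
    linarith
  rw [h16_prn]
  unfold wfn
  rw [he, zero_pow (Nat.succ_ne_zero n)]
  simp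

theorem h16_ee_smul {r : ℝ} (hr : 0 < r) (η : ℝ) (k : E) : ee η (r • k) = r * ee η k := by
  unfold ee
  rw [norm_smul, PiLp.smul_apply, smul_eq_mul, Real.norm_eq_abs, abs_of_pos hr]
  have : η ^ 2 * (r * ‖k‖) ^ 2 - (r * k 2) ^ 2 = r ^ 2 * (η ^ 2 * ‖k‖ ^ 2 - k 2 ^ 2) := by ring
  rw [this, Real.sqrt_mul (sq_nonneg r), Real.sqrt_sq hr.le]

theorem h16_prn_smul (n : ℕ) {l : ℝ} (hl : 0 < l) (η c : ℝ) (k : E) : c • prn n η (l⁻¹ • k) =
    (c * ((l⁻¹) ^ (n + 3) * Real.exp (-(l⁻¹ * ‖k‖)))) •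
      ((Complex.I * ((‖k‖ ^ 2 * ee η k ^ (n + 1) : ℝ) : ℂ)) • toW (vt k)) := by
  have hl' : 0 < l⁻¹ := inv_pos.2 hl
  unfold prn wfn
  rw [vt_smul hl', h16_ee_smul hl', norm_smul, Real.norm_eq_abs, abs_of_pos hl', h16_real_smul,
    h16_real_smul, smul_smul, smul_smul]
  congr 1
  push_cast
  ring

/-- TARGET -/
theorem prn_deriv (n : ℕ) (η : ℝ) {c l : ℝ → ℝ} {c' l' t : ℝ} (hc : HasDerivAt c c' t)
    (hl : HasDerivAt l l' t) (hl0 : 0 < l t) (k : E) :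
    HasDerivAt (fun s => c s • prn n η ((l s)⁻¹ • k))
      ((c' + c t * l' * (l t)⁻¹ * (‖(l t)⁻¹ • k‖ - (n + 3))) • prn n η ((l t)⁻¹ • k)) t := by
  have hne : l t ≠ 0 := hl0.ne'
  have hi : HasDerivAt (fun s => (l s)⁻¹) (-l' / (l t) ^ 2) t := hl.inv hne
  have h1 : HasDerivAt (fun s => c s * (((l s)⁻¹) ^ (n + 3) * Real.exp (-((l s)⁻¹ * ‖k‖))))
      ((c' + c t * l' * (l t)⁻¹ * ((l t)⁻¹ * ‖k‖ - (n + 3))) *
        (((l t)⁻¹) ^ (n + 3) * Real.exp (-((l t)⁻¹ * ‖k‖)))) t := by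
    have hE : HasDerivAt (fun s => Real.exp (-((l s)⁻¹ * ‖k‖)))
        (Real.exp (-((l t)⁻¹ * ‖k‖)) * -(-l' / (l t) ^ 2 * ‖k‖)) t := (hi.mul_const ‖k‖).neg.exp
    have hP : HasDerivAt (fun s => ((l s)⁻¹) ^ (n + 3)) (((n + 3 : ℕ) : ℝ) *
        ((l t)⁻¹) ^ (n + 3 - 1) * (-l' / (l t) ^ 2)) t := hi.pow (n + 3)
    have h2 : HasDerivAt (fun s => c s * (((l s)⁻¹) ^ (n + 3) * Real.exp (-((l s)⁻¹ * ‖k‖))))
        (c' * (((l t)⁻¹) ^ (n + 3) * Real.exp (-((l t)⁻¹ * ‖k‖))) +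
          c t * ((((n + 3 : ℕ) : ℝ) * ((l t)⁻¹) ^ (n + 3 - 1) * (-l' / (l t) ^ 2)) *
            Real.exp (-((l t)⁻¹ * ‖k‖)) +
            ((l t)⁻¹) ^ (n + 3) * (Real.exp (-((l t)⁻¹ * ‖k‖)) * -(-l' / (l t) ^ 2 * ‖k‖)))) t :=
      hc.mul (hP.mul hE)
    refine h2.congr_deriv ?_
    have hx : n + 3 - 1 = n + 2 := rfl
    rw [hx]
    have hy : ((l t)⁻¹) ^ (n + 3) = ((l t)⁻¹) ^ (n + 2) * (l t)⁻¹ := pow_succ _ _
    rw [hy]
    generalize Real.exp (-((l t)⁻¹ * ‖k‖)) = X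
    generalize ((l t)⁻¹) ^ (n + 2) = Y
    push_cast
    field_simp
    ring
  have h3 := h1.smul_const ((Complex.I * ((‖k‖ ^ 2 * ee η k ^ (n + 1) : ℝ) : ℂ)) • toW (vt k))
  have hl1 : 0 < (l t)⁻¹ := inv_pos.2 hl0
  have e1 : (c' + c t * l' * (l t)⁻¹ * (‖(l t)⁻¹ • k‖ - (n + 3))) • prn n η ((l t)⁻¹ • k) =
      ((c' + c t * l' * (l t)⁻¹ * ((l t)⁻¹ * ‖k‖ - (n + 3))) *
        (((l t)⁻¹) ^ (n + 3) * Real.exp (-((l t)⁻¹ * ‖k‖)))) •
        ((Complex.I * ((‖k‖ ^ 2 * ee η k ^ (n + 1) : ℝ) : ℂ)) • toW (vt k)) := by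
    rw [h16_prn_smul n hl0, norm_smul, Real.norm_eq_abs, abs_of_pos hl1]
  rw [e1]
  refine h3.congr_of_eventuallyEq ?_
  have hev : ∀ᶠ s in 𝓝 t, 0 < l s := hl.continuousAt.eventually (lt_mem_nhds hl0)
  filter_upwards [hev] with s hs
  exact h16_prn_smul n hs η (c s) k

end H706N.JH16

namespace H706N

alias adm_prn := JH16.adm_prn
alias prn_band := JH16.prn_band
alias prn_deriv := JH16.prn_deriv

end H706N
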