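import Pool.Agent.Helper706_NS.Defs2
import Pool.Agent.Helper706_NS.A1

set_option autoImplicit false
open Set Filter Topology MeasureTheory
open scoped ComplexConjugate ContDiff

namespace H706N

/-! ### Auxiliary: comparison with Mathlib's Fourier integral -/

/-- The bilinear form with `𝐞 (-LL k x) = exp (i k·x)`. -/
noncomputable def LL : E →L[ℝ] E →L[ℝ] ℝ := (-(2 * Real.pi)⁻¹ : ℝ) • innerSL ℝ

theorem LL_apply (k x : E) : LL k x = -(2 * Real.pi)⁻¹ * inner ℝ k x := by
  simp [LL, innerSL_apply_apply ℝ]

theorem char_LL (k x : E) :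
    ((Real.fourierChar (-LL k x) : Circle) : ℂ) =
      Complex.exp (((inner ℝ k x : ℝ) : ℂ) * Complex.I) := by
  rw [Real.fourierChar_apply, LL_apply]
  congr 1
  push_cast
  have : (Real.pi : ℂ) ≠ 0 := by exact_mod_cast Real.pi_ne_zero
  field_simp

theorem fl_eq (f : E → ℂ) :
    fl f = VectorFourier.fourierIntegral Real.fourierChar volume LL.toLinearMap₁₂ f := by
  funext x
  unfold fl VectorFourier.fourierIntegral
  refine integral_congr_ae (Filter.Eventually.of_forall fun k => ?_)
  have : (LL.toLinearMap₁₂ k) x = LL k x := rfl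
  simp only [this, Circle.smul_def, smul_eq_mul, char_LL]

theorem Wi.int {f : E → ℂ} (hf : Wi f) : Integrable f volume := by
  have h := hf.2 0
  simp only [pow_zero, one_mul] at h
  exact (integrable_norm_iff hf.1).mp h

theorem Wi.int1 {f : E → ℂ} (hf : Wi f) : Integrable (fun k => ‖k‖ * ‖f k‖) volume := by
  have h := hf.2 1
  simpa only [pow_one] using h

theorem fl_hasFDerivAt {f : E → ℂ} (hf : Wi f) (x : E) :
    HasFDerivAt (fl f) (VectorFourier.fourierIntegral Real.fourierChar volume LL.toLinearMap₁₂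
      (VectorFourier.fourierSMulRight LL f) x) x := by
  rw [fl_eq]
  exact VectorFourier.hasFDerivAt_fourierIntegral LL hf.int hf.int1 x

/-- TARGET -/
theorem fl_smooth {f : E → ℂ} (hf : Wi f) : ContDiff ℝ ∞ (fl f) := by
  rw [fl_eq]
  exact VectorFourier.contDiff_fourierIntegral (N := ⊤) LL (fun n _ => hf.2 n)

/-- TARGET -/
theorem fl_pd {f : E → ℂ} (hf : Wi f) (j : Fin 3) (x : E) :
    fderiv ℝ (fl f) x (EuclideanSpace.single j 1) = fl (fun k => Complex.I * (k j : ℂ) * f k) x := by
  rw [(fl_hasFDerivAt hf x).fderiv]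
  unfold VectorFourier.fourierIntegral
  have hint : Integrable (fun v => Real.fourierChar (-(LL.toLinearMap₁₂ v) x) •
      VectorFourier.fourierSMulRight LL f v) volume := by
    refine (Real.fourierIntegral_convergent_iff' LL x).mpr ?_
    apply (hf.int1.const_mul (2 * Real.pi * ‖LL‖)).mono'
    · exact hf.1.fourierSMulRight
    · refine Filter.Eventually.of_forall fun v => ?_
      calc _ ≤ _ := VectorFourier.norm_fourierSMulRight_le LL f v
        _ = _ := by ring
  rw [ContinuousLinearMap.integral_apply hint]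
  unfold fl
  refine integral_congr_ae (Filter.Eventually.of_forall fun k => ?_)
  have h1 : (LL.toLinearMap₁₂ k) x = LL k x := rfl
  simp only [h1, Circle.smul_def, _root_.smul_apply, char_LL,
    VectorFourier.fourierSMulRight_apply, smul_eq_mul]
  rw [LL_apply]
  have h2 : inner ℝ k (EuclideanSpace.single j (1 : ℝ)) = k j := by
    simp [EuclideanSpace.inner_single_right]
  rw [h2]
  have hpi : (Real.pi : ℂ) ≠ 0 := by exact_mod_cast Real.pi_ne_zero
  rw [Complex.real_smul]
  push_cast
  field_simp

/-- TARGET -/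
theorem fl_pd_re {f : E → ℂ} (hf : Wi f) (j : Fin 3) (x : E) :
    pd j (fun y => (fl f y).re) x = (fl (fun k => Complex.I * (k j : ℂ) * f k) x).re := by
  rw [← fl_pd hf j x]
  unfold pd
  have h := (fl_hasFDerivAt hf x)
  have h2 : HasFDerivAt (fun y => (fl f y).re) (Complex.reCLM.comp _) x :=
    Complex.reCLM.hasFDerivAt.comp x h
  rw [h2.fderiv, h.fderiv]
  rfl

theorem norm_coord_le (k : E) (j : Fin 3) : |k j| ≤ ‖k‖ := by
  have := PiLp.norm_apply_le k j
  simpa using this

/-- TARGET -/
theorem Wi_mul {f : E → ℂ} (hf : Wi f) (j : Fin 3) : Wi fun k => Complex.I * (k j : ℂ) * f k := by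
  have hm : AEStronglyMeasurable (fun k : E => Complex.I * (k j : ℂ) * f k) volume := by
    refine AEStronglyMeasurable.mul ?_ hf.1
    apply Continuous.aestronglyMeasurable
    fun_prop
  refine ⟨hm, fun n => ?_⟩
  apply (hf.2 (n + 1)).mono'
  · exact ((continuous_norm.pow n).aestronglyMeasurable).mul hm.norm
  · refine Filter.Eventually.of_forall fun k => ?_
    have h1 := norm_coord_le k j
    have h4 : ‖Complex.I * (k j : ℂ) * f k‖ = |k j| * ‖f k‖ := by
      rw [norm_mul, norm_mul, Complex.norm_I, one_mul, Complex.norm_real, Real.norm_eq_abs]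
    have h5 : ‖‖k‖ ^ n * ‖Complex.I * (k j : ℂ) * f k‖‖ = ‖k‖ ^ n * (|k j| * ‖f k‖) := by
      rw [h4, Real.norm_of_nonneg (by positivity)]
    rw [h5, pow_succ]
    calc ‖k‖ ^ n * (|k j| * ‖f k‖) ≤ ‖k‖ ^ n * (‖k‖ * ‖f k‖) := by gcongr
      _ = _ := by ring

/-- TARGET -/
theorem fl_mul {f g : E → ℂ} (hf : Integrable f volume) (hg : Integrable g volume) (x : E) :
    fl f x * fl g x = fl (fun k => ∫ η, f (k - η) * g η) x := by
  have hexp : ∀ {h : E → ℂ}, Integrable h volume → Integrable (fun k : E =>
      Complex.exp (((inner ℝ k x : ℝ) : ℂ) * Complex.I) * h k) volume := by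
    intro h hh
    apply hh.norm.mono'
    · exact (Continuous.aestronglyMeasurable (by fun_prop)).mul hh.1
    · refine Filter.Eventually.of_forall fun k => ?_
      rw [norm_mul, Complex.norm_exp_ofReal_mul_I, one_mul]
  have h := integral_convolution (μ := (volume : Measure E)) (ν := (volume : Measure E))
    (ContinuousLinearMap.mul ℝ ℂ) (hexp hg) (hexp hf)
  simp only [convolution, ContinuousLinearMap.mul_apply'] at h
  unfold fl
  rw [mul_comm, ← h]
  refine integral_congr_ae (Filter.Eventually.of_forall fun k => ?_)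
  simp only
  rw [← integral_const_mul]
  refine integral_congr_ae (Filter.Eventually.of_forall fun η => ?_)
  simp only
  have : Complex.exp (((inner ℝ k x : ℝ) : ℂ) * Complex.I) =
      Complex.exp (((inner ℝ η x : ℝ) : ℂ) * Complex.I) *
        Complex.exp (((inner ℝ (k - η) x : ℝ) : ℂ) * Complex.I) := by
    rw [← Complex.exp_add, inner_sub_left]
    congr 1
    push_cast
    ring
  rw [this]
  ring

/-- TARGET -/
theorem fl_im {f : E → ℂ} (hf : ∀ k, f (-k) = conj (f k)) (x : E) : (fl f x).im = 0 := by
  rw [← Complex.conj_eq_iff_im]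
  unfold fl
  rw [← integral_conj, ← integral_neg_eq_self]
  refine integral_congr_ae (Filter.Eventually.of_forall fun k => ?_)
  simp only [map_mul, hf, Complex.conj_conj, inner_neg_left]
  rw [← Complex.exp_conj]
  congr 2
  simp

/-- TARGET -/
theorem Adm.wi {g : E → W} (hg : Adm g) (i : Fin 3) : Wi fun k => g k i := by
  have hm : Measurable fun k => g k i := by
    have h1 : Continuous fun w : W => w i := by fun_prop
    exact h1.measurable.comp hg.meas
  refine ⟨hm.aestronglyMeasurable, fun n => ?_⟩
  apply (hg.int_pow n).mono'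
  · exact ((continuous_norm.pow n).aestronglyMeasurable).mul hm.norm.aestronglyMeasurable
  · refine Filter.Eventually.of_forall fun k => ?_
    rw [norm_mul, norm_pow, norm_norm, norm_norm]
    have h1 : ‖g k i‖ ≤ ‖g k‖ := PiLp.norm_apply_le (g k) i
    have h2 : ‖k‖ ^ n ≤ (1 + ‖k‖) ^ n := by
      gcongr
      linarith [norm_nonneg k]
    gcongr

end H706N
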