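import Pool.Agent.Helper706_NS.Defs4
import Pool.Agent.Helper706_NS.TC
import Pool.Agent.Helper706_NS.H16
import Pool.Agent.Helper706_NS.D1

set_option autoImplicit false
open Set Filter Topology MeasureTheory
open scoped ComplexConjugate ContDiff

namespace H706N.JH17

/-- TARGET -/
theorem vel_prn_ne (n : ℕ) {η : ℝ} (hη : 0 < η) (hη1 : η < 1) : ∃ x, vel (prn n η) x ≠ 0 := by
  by_contra hcon
  push Not at hcon
  have hadm : Adm (prn n η) := by
    have h := adm_prn n hη hη1 1
    rwa [one_smul] at h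
  have hW : Wi fun k => prn n η k 1 := hadm.wi 1
  have hzero : (fun y => (fl (fun k => prn n η k 1) y).re) = fun _ => (0 : ℝ) := by
    funext y
    have h := congrArg (fun v : E => v 1) (hcon y)
    simpa [vel] using h
  have hpd := fl_pd_re hW 0 0
  rw [hzero] at hpd
  have hpd0 : pd 0 (fun _ : E => (0 : ℝ)) 0 = 0 := by
    simp [pd]
  rw [hpd0] at hpd
  -- the integrand
  have hF : ∀ k : E, Complex.exp (((inner ℝ k (0 : E) : ℝ) : ℂ) * Complex.I) *
      (Complex.I * (k 0 : ℂ) * prn n η k 1) =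
      ((-(wfn n η k * k 0 ^ 2 * (Real.sqrt (k 0 ^ 2 + k 1 ^ 2))⁻¹) : ℝ) : ℂ) := by
    intro k
    have h1 : prn n η k 1 = Complex.I * (wfn n η k : ℂ) * ((vt k 1 : ℝ) : ℂ) := by
      simp [prn, toW]
    have h2 : vt k 1 = (Real.sqrt (k 0 ^ 2 + k 1 ^ 2))⁻¹ * k 0 := by
      simp [vt]
    rw [h1, h2, inner_zero_right]
    push_cast
    rw [zero_mul, Complex.exp_zero, one_mul]
    have hI : Complex.I * Complex.I = -1 := Complex.I_mul_I
    linear_combination (((wfn n η k : ℂ) * (k 0 : ℂ) ^ 2 *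
      ((Real.sqrt (k 0 ^ 2 + k 1 ^ 2) : ℝ) : ℂ)⁻¹)) * hI
  have hfl : fl (fun k => Complex.I * (k 0 : ℂ) * prn n η k 1) 0 =
      ((∫ k : E, -(wfn n η k * k 0 ^ 2 * (Real.sqrt (k 0 ^ 2 + k 1 ^ 2))⁻¹) : ℝ) : ℂ) := by
    unfold fl
    refine (integral_congr_ae (Filter.Eventually.of_forall hF)).trans ?_
    exact integral_ofReal
  rw [hfl, Complex.ofReal_re, integral_neg] at hpd
  have hnn : ∀ k : E, 0 ≤ wfn n η k * k 0 ^ 2 * (Real.sqrt (k 0 ^ 2 + k 1 ^ 2))⁻¹ := by
    intro k
    unfold wfn ee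
    positivity
  have hint : Integrable fun k : E =>
      wfn n η k * k 0 ^ 2 * (Real.sqrt (k 0 ^ 2 + k 1 ^ 2))⁻¹ := by
    have h1 : Integrable fun k : E => Complex.I * (k 0 : ℂ) * prn n η k 1 := by
      refine (hW.2 1).mono' ?_ ?_
      · refine AEStronglyMeasurable.mul ?_ hW.1
        have hc : Continuous fun k : E => Complex.I * ((k 0 : ℝ) : ℂ) := by fun_prop
        exact hc.aestronglyMeasurable
      · refine Filter.Eventually.of_forall fun k => ?_
        rw [norm_mul, norm_mul, Complex.norm_I, one_mul, pow_one, Complex.norm_real]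
        exact mul_le_mul_of_nonneg_right (PiLp.norm_apply_le k 0) (norm_nonneg _)
    have h2 := h1.re.neg
    refine h2.congr (Filter.Eventually.of_forall fun k => ?_)
    have h3 := hF k
    rw [inner_zero_right, Complex.ofReal_zero, zero_mul, Complex.exp_zero, one_mul] at h3
    show -(RCLike.re (Complex.I * (k 0 : ℂ) * prn n η k 1)) = _
    rw [h3]
    rw [RCLike.re_eq_complex_re, Complex.ofReal_re, neg_neg]
  have hpos : 0 < ∫ k : E, wfn n η k * k 0 ^ 2 * (Real.sqrt (k 0 ^ 2 + k 1 ^ 2))⁻¹ := by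
    rw [integral_pos_iff_support_of_nonneg hnn hint]
    have hopen : IsOpen {k : E | 0 < k 0 ∧ 0 < η ^ 2 * ‖k‖ ^ 2 - k 2 ^ 2} := by
      have c1 : Continuous fun k : E => k 0 := by fun_prop
      have c2 : Continuous fun k : E => η ^ 2 * ‖k‖ ^ 2 - k 2 ^ 2 := by fun_prop
      exact (isOpen_lt continuous_const c1).inter (isOpen_lt continuous_const c2)
    have hne : ({k : E | 0 < k 0 ∧ 0 < η ^ 2 * ‖k‖ ^ 2 - k 2 ^ 2}).Nonempty := by
      refine ⟨EuclideanSpace.single 0 1, ?_⟩
      simp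
      positivity
    refine lt_of_lt_of_le (hopen.measure_pos volume hne) (measure_mono ?_)
    rintro k ⟨hk0, hk⟩
    have hk2 : 0 < ‖k‖ := by
      rw [norm_pos_iff]
      rintro rfl
      simp at hk0
    rw [Function.mem_support]
    apply ne_of_gt
    unfold wfn ee
    have h1 : 0 < k 0 ^ 2 + k 1 ^ 2 := by positivity
    positivity
  linarith

end H706N.JH17

namespace H706N

alias vel_prn_ne := JH17.vel_prn_ne

end H706N
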