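import Pool.Agent.Helper706_NS.Defs4
import Pool.Agent.Helper706_NS.HV1
import Pool.Agent.Helper706_NS.HV2
import Pool.Agent.Helper706_NS.TC
import Pool.Agent.Helper706_NS.H9
import Pool.Agent.Helper706_NS.H10
import Pool.Agent.Helper706_NS.H11
import Pool.Agent.Helper706_NS.H16

set_option autoImplicit false
open Set Filter Topology MeasureTheory
open scoped ComplexConjugate ContDiff

namespace H706N.JH18

theorem ohp_w_vt (n : ℕ) {η : ℝ} (hη : 0 < η) (hη1 : η < 1) (p : E) :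
    wfn n η p * ‖vt p‖ = wfn n η p := by
  by_cases h : ee η p = 0
  · have : wfn n η p = 0 := by
      unfold wfn
      rw [h]
      simp
    rw [this, zero_mul]
  · have h1 : 0 < η ^ 2 * ‖p‖ ^ 2 - p 2 ^ 2 := by
      by_contra hc
      exact h (Real.sqrt_eq_zero_of_nonpos (not_lt.mp hc))
    have h2 : ‖p‖ ^ 2 = p 0 ^ 2 + p 1 ^ 2 + p 2 ^ 2 := by
      rw [EuclideanSpace.norm_sq_eq, Fin.sum_univ_three]
      simp
    have h3 : η ^ 2 < 1 := by nlinarith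
    have h4 : p 0 ^ 2 + p 1 ^ 2 ≠ 0 := by
      intro h5
      have h6 : ‖p‖ ^ 2 = p 2 ^ 2 := by rw [h2, h5, zero_add]
      nlinarith [sq_nonneg (p 2), sq_nonneg ‖p‖]
    rw [vt_unit h4, mul_one]

theorem ohp_dt (n : ℕ) {η : ℝ} (hη : 0 < η) (hη1 : η < 1) (A : ℝ) (s : Bool) (p : E) :
    dt (pz s p) ((A • prn n η) p) = ((A * wfn n η p : ℝ) : ℂ) := by
  have h1 : (A • prn n η) p = (A : ℂ) • ((Complex.I * (wfn n η p : ℂ)) • toW (vt p)) := by
    show A • prn n η p = _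
    rw [← Complex.coe_smul]
    rfl
  have h2 : dt (pz s p) (toW (vt p)) = -Complex.I * ((‖vt p‖ ^ 2 : ℝ) : ℂ) := by
    rw [dt_comm]
    unfold pz
    rw [dt_add, dt_smul, dt_smul, vt_vp, mul_zero, add_zero, dt_toW, kd_vt_toW]
  have h3 : wfn n η p * ‖vt p‖ ^ 2 = wfn n η p := by
    rw [pow_two, ← mul_assoc, ohp_w_vt n hη hη1, ohp_w_vt n hη hη1]
  rw [h1, dt_smul, dt_smul, h2]
  have h4 : ((wfn n η p : ℝ) : ℂ) * ((‖vt p‖ ^ 2 : ℝ) : ℂ) = ((wfn n η p : ℝ) : ℂ) := by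
    rw [← Complex.ofReal_mul, h3]
  have h5 : (A : ℂ) * (Complex.I * (wfn n η p : ℂ) * (-Complex.I * ((‖vt p‖ ^ 2 : ℝ) : ℂ))) =
      (A : ℂ) * (-(Complex.I * Complex.I) * ((wfn n η p : ℂ) * ((‖vt p‖ ^ 2 : ℝ) : ℂ))) := by ring
  rw [h5, h4, Complex.I_mul_I]
  push_cast
  ring

theorem ohp_w_meas (n : ℕ) (η : ℝ) : Measurable (wfn n η) := by
  have h : Continuous (wfn n η) := by
    unfold wfn ee
    fun_prop
  exact h.measurable

theorem ohp_w_dec (n : ℕ) {η : ℝ} (hη : 0 < η) (hη1 : η < 1) (m : ℕ) :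
    ∃ C : ℝ, ∀ k, (1 + ‖k‖) ^ m * |wfn n η k| ≤ C := by
  obtain ⟨C, hC⟩ := (adm_prn n hη hη1 1).dec m
  refine ⟨C, fun k => ?_⟩
  have h1 : ‖((1 : ℝ) • prn n η) k‖ = |wfn n η k| := by
    show ‖(1 : ℝ) • prn n η k‖ = _
    rw [one_smul]
    unfold prn
    rw [norm_smul, norm_toW, norm_mul, Complex.norm_I, one_mul, Complex.norm_real,
      Real.norm_eq_abs]
    conv_rhs => rw [← ohp_w_vt n hη hη1 k]
    rw [abs_mul, abs_norm]
  rw [← h1]
  exact hC k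

theorem ohp_int {F : ℝ → ℝ → ℝ → ℝ} (hF : Rad F) (n : ℕ) {η : ℝ} (hη : 0 < η) (hη1 : η < 1)
    (k : E) : Integrable fun q => mug F η n (k - q) q * (wfn n η (k - q) * wfn n η q) := by
  obtain ⟨C, hC0, hC⟩ := mug_bd hF hη hη1 n
  obtain ⟨D, hD⟩ := ohp_w_dec n hη hη1 0
  obtain ⟨D', hD'⟩ := ohp_w_dec n hη hη1 5
  have hint : Integrable fun q : E => (1 + ‖q‖) ^ (-(4 : ℝ)) :=
    integrable_one_add_norm (by simp; norm_num)
  have hm : Measurable fun q : E => mug F η n (k - q) q * (wfn n η (k - q) * wfn n η q) := by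
    have hsub : Measurable fun q : E => k - q := measurable_const.sub measurable_id
    have hpair : Measurable fun q : E => ((k - q, q) : E × E) := hsub.prodMk measurable_id
    have h1 : Measurable ((fun z : E × E => mug F η n z.1 z.2) ∘ fun q : E => (k - q, q)) :=
      Measurable.comp (mug_meas hF η n) hpair
    have h2 : Measurable (wfn n η ∘ fun q : E => k - q) :=
      Measurable.comp (ohp_w_meas n η) hsub
    exact Measurable.mul h1 (Measurable.mul h2 (ohp_w_meas n η))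
  refine (hint.const_mul (C * D * D')).mono' hm.aestronglyMeasurable (ae_of_all _ fun q => ?_)
  rw [Real.norm_eq_abs, abs_mul, abs_mul]
  have h1 : |mug F η n (k - q) q| ≤ C * ‖q‖ :=
    (hC _ _).trans (mul_le_mul_of_nonneg_left (min_le_left _ _) hC0)
  have h2 : |wfn n η (k - q)| ≤ D := by simpa using hD (k - q)
  have h3 := hD' q
  have hq : 0 < 1 + ‖q‖ := by positivity
  have h4 : (1 + ‖q‖) ^ (-(4 : ℝ)) = ((1 + ‖q‖) ^ 4)⁻¹ := by
    rw [Real.rpow_neg hq.le]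
    congr 1
    exact_mod_cast Real.rpow_natCast (1 + ‖q‖) 4
  have hD0 : 0 ≤ D := (abs_nonneg _).trans h2
  have h5 : ‖q‖ * |wfn n η q| ≤ D' * (1 + ‖q‖) ^ (-(4 : ℝ)) := by
    rw [h4, ← div_eq_mul_inv, le_div_iff₀ (by positivity)]
    calc ‖q‖ * |wfn n η q| * (1 + ‖q‖) ^ 4
        ≤ (1 + ‖q‖) * |wfn n η q| * (1 + ‖q‖) ^ 4 := by gcongr; linarith
      _ = (1 + ‖q‖) ^ 5 * |wfn n η q| := by ring
      _ ≤ D' := h3
  calc |mug F η n (k - q) q| * (|wfn n η (k - q)| * |wfn n η q|)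
      ≤ (C * ‖q‖) * (D * |wfn n η q|) := by gcongr
    _ = (C * D) * (‖q‖ * |wfn n η q|) := by ring
    _ ≤ (C * D) * (D' * (1 + ‖q‖) ^ (-(4 : ℝ))) :=
        mul_le_mul_of_nonneg_left h5 (mul_nonneg hC0 hD0)
    _ = C * D * D' * (1 + ‖q‖) ^ (-(4 : ℝ)) := by ring

theorem ohp_rad {P : ℝ → ℝ → ℝ → ℝ} (hP : Pln P) : Rad P := by
  refine ⟨hP.cont.measurable, fun r _ a b c => hP.hom r a b c, ?_⟩
  obtain ⟨C, hC0, hC⟩ := hP.bd
  exact ⟨C, hC0, fun a b c ha hb hc _ _ _ => hC a b c ha hb hc⟩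

/-- the factor of the scalar symbol -/
noncomputable def ohp_G (η : ℝ) (n : ℕ) (p q : E) : ℝ :=
  dd ‖p‖ ‖q‖ ‖p + q‖ ^ (n + 3) *
      (|cr p q 2| * Real.sqrt (η ^ 2 * ‖cr p q‖ ^ 2 - cr p q 0 ^ 2 - cr p q 1 ^ 2) ^ (2 * n + 1))
    / (‖cr p q‖ ^ (2 * n + 2) * (‖p‖ * ‖q‖ * ‖p + q‖) ^ 3 *
      (ee η p * ee η q * ee η (p + q)) ^ (n + 1))

theorem ohp_mug (F : ℝ → ℝ → ℝ → ℝ) (η : ℝ) (n : ℕ) (p q : E) :
    mug F η n p q = F ‖p‖ ‖q‖ ‖p + q‖ * ohp_G η n p q := by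
  unfold mug ohp_G
  ring

theorem ohp_G_zero (η : ℝ) (n : ℕ) (p q : E)
    (h : ‖p‖ * ‖q‖ + ‖q‖ * ‖p + q‖ + ‖p + q‖ * ‖p‖ = 0) : ohp_G η n p q = 0 := by
  have h1 : ‖p‖ * ‖q‖ = 0 := by
    have a1 : 0 ≤ ‖p‖ * ‖q‖ := by positivity
    have a2 : 0 ≤ ‖q‖ * ‖p + q‖ := by positivity
    have a3 : 0 ≤ ‖p + q‖ * ‖p‖ := by positivity
    linarith
  unfold ohp_G
  rw [h1]
  simp

theorem ohp_sum {P : ℝ → ℝ → ℝ → ℝ} (hP : Pln P) (n : ℕ) {η : ℝ} (hη : 0 < η) (hη1 : η < 1)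
    (k : E) (s₃ : Bool) :
    ∑ s₁ : Bool, ∑ s₂ : Bool,
      ∫ q, mug (PS P s₁ s₂ s₃) η n (k - q) q * (wfn n η (k - q) * wfn n η q) =
    ∫ q, mug P η n (k - q) q * (wfn n η (k - q) * wfn n η q) := by
  -- symmetrization
  have hsym : ∀ F : ℝ → ℝ → ℝ → ℝ, ∫ q, mug F η n (k - q) q * (wfn n η (k - q) * wfn n η q) =
      ∫ q, mug (fun a b c => F b a c) η n (k - q) q * (wfn n η (k - q) * wfn n η q) := by
    intro F
    rw [← integral_sub_left_eq_self _ volume k]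
    congr 1
    funext q
    rw [sub_sub_cancel, mug_swap]
    ring
  have hradP := ohp_rad hP
  have hswap : ∀ F : ℝ → ℝ → ℝ → ℝ, Rad F → Rad (fun a b c => F b a c) := by
    intro F hF
    refine ⟨?_, fun r hr a b c => hF.hom r hr b a c, ?_⟩
    · exact hF.meas.comp (by fun_prop : Measurable fun z : ℝ × ℝ × ℝ => (z.2.1, z.1, z.2.2))
    · obtain ⟨C, hC0, hC⟩ := hF.bd
      refine ⟨C, hC0, fun a b c ha hb hc h1 h2 h3 => ?_⟩
      have := hC b a c hb ha hc h2 h1 (by linarith)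
      have e : (b + a + c) = (a + b + c) := by ring
      rwa [e] at this
  have key : ∫ q, (∑ s₁ : Bool, ∑ s₂ : Bool,
        (mug (PS P s₁ s₂ s₃) η n (k - q) q * (wfn n η (k - q) * wfn n η q) +
          mug (fun a b c => PS P s₁ s₂ s₃ b a c) η n (k - q) q *
            (wfn n η (k - q) * wfn n η q))) =
      ∫ q, (mug P η n (k - q) q * (wfn n η (k - q) * wfn n η q) +
        mug (fun a b c => P b a c) η n (k - q) q * (wfn n η (k - q) * wfn n η q)) := by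
    congr 1
    funext q
    set a := ‖k - q‖ with ha
    set b := ‖q‖ with hb
    set c := ‖k - q + q‖ with hc
    have e1 : ∀ F : ℝ → ℝ → ℝ → ℝ, mug F η n (k - q) q = F a b c * ohp_G η n (k - q) q :=
      fun F => ohp_mug F η n (k - q) q
    simp only [e1]
    by_cases h : a * b + b * c + c * a = 0
    · rw [ohp_G_zero η n (k - q) q h]
      simp
    · have h1 := PS_sum hP.anti s₃ h
      simp only [Fintype.sum_bool] at h1 ⊢
      linear_combination (ohp_G η n (k - q) q * (wfn n η (k - q) * wfn n η q)) * h1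
  have hI : ∀ s₁ s₂, Integrable fun q =>
      mug (PS P s₁ s₂ s₃) η n (k - q) q * (wfn n η (k - q) * wfn n η q) :=
    fun s₁ s₂ => ohp_int (PS_rad hP s₁ s₂ s₃) n hη hη1 k
  have hI' : ∀ s₁ s₂, Integrable fun q =>
      mug (fun a b c => PS P s₁ s₂ s₃ b a c) η n (k - q) q * (wfn n η (k - q) * wfn n η q) :=
    fun s₁ s₂ => ohp_int (hswap _ (PS_rad hP s₁ s₂ s₃)) n hη hη1 k
  have hIa : ∀ s₁ s₂, Integrable fun q =>
      (mug (PS P s₁ s₂ s₃) η n (k - q) q * (wfn n η (k - q) * wfn n η q) +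
        mug (fun a b c => PS P s₁ s₂ s₃ b a c) η n (k - q) q *
          (wfn n η (k - q) * wfn n η q)) := fun s₁ s₂ => (hI s₁ s₂).add (hI' s₁ s₂)
  rw [integral_finsetSum _ (fun s₁ _ => integrable_finsetSum _ (fun s₂ _ => hIa s₁ s₂))] at key
  have e2 : ∀ s₁ : Bool, ∫ q, ∑ s₂ : Bool,
        (mug (PS P s₁ s₂ s₃) η n (k - q) q * (wfn n η (k - q) * wfn n η q) +
          mug (fun a b c => PS P s₁ s₂ s₃ b a c) η n (k - q) q *
            (wfn n η (k - q) * wfn n η q)) = ∑ s₂ : Bool,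
        2 * ∫ q, mug (PS P s₁ s₂ s₃) η n (k - q) q * (wfn n η (k - q) * wfn n η q) := by
    intro s₁
    rw [integral_finsetSum _ (fun s₂ _ => hIa s₁ s₂)]
    refine Finset.sum_congr rfl fun s₂ _ => ?_
    rw [integral_add (hI s₁ s₂) (hI' s₁ s₂), ← hsym (PS P s₁ s₂ s₃)]
    ring
  simp only [e2] at key
  rw [integral_add (ohp_int hradP n hη hη1 k) (ohp_int (hswap _ hradP) n hη hη1 k),
    ← hsym P] at key
  simp only [Fintype.sum_bool] at key ⊢
  linarith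

theorem ohp_pz (k : E) : (1 / 2 : ℂ) • cj (pz true k) + (1 / 2 : ℂ) • cj (pz false k) =
    Complex.I • toW (vt k) := by
  have h : ∀ s, cj (pz s k) = Complex.I • toW (vt k) + (sg s : ℂ) • toW (vp k) := by
    intro s
    unfold pz
    rw [cj_add, cj_smul, cj_smul, cj_toW, cj_toW]
    simp
  rw [h, h]
  have e1 : (sg true : ℂ) = 1 := by simp [sg]
  have e2 : (sg false : ℂ) = -1 := by simp [sg]
  rw [e1, e2]
  module

/-- TARGET -/
theorem op_hls_prof {P : ℝ → ℝ → ℝ → ℝ} (hP : Pln P) (n : ℕ) {η : ℝ} (hη : 0 < η) (hη1 : η < 1)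
    (A : ℝ) (k : E) :
    op (hls P η n) (A • prn n η) (A • prn n η) k
      = (-(A ^ 2 * ∫ q, mug P η n (k - q) q * (wfn n η (k - q) * wfn n η q))) •
        (Complex.I • toW (vt k)) := by
  have hk : ∀ q : E, k - q + q = k := fun q => sub_add_cancel k q
  have e1 : ∀ q : E, hls P η n (k - q) q ((A • prn n η) (k - q)) ((A • prn n η) q) =
      ∑ s₁ : Bool, ∑ s₂ : Bool, ∑ s₃ : Bool,
        (mug (PS P s₁ s₂ s₃) η n (k - q) q * (wfn n η (k - q) * wfn n η q)) •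
          ((-(A ^ 2) : ℝ) • ((1 / 2 : ℂ) • cj (pz s₃ k))) := by
    intro q
    unfold hls
    refine Finset.sum_congr rfl fun s₁ _ => Finset.sum_congr rfl fun s₂ _ =>
      Finset.sum_congr rfl fun s₃ _ => ?_
    rw [ohp_dt n hη hη1, ohp_dt n hη hη1, hk, smul_smul (M := ℝ), ← Complex.coe_smul]
    congr 1
    push_cast
    ring
  unfold op
  simp only [e1]
  have hI : ∀ s₁ s₂ s₃, Integrable fun q =>
      (mug (PS P s₁ s₂ s₃) η n (k - q) q * (wfn n η (k - q) * wfn n η q)) •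
          ((-(A ^ 2) : ℝ) • ((1 / 2 : ℂ) • cj (pz s₃ k))) :=
    fun s₁ s₂ s₃ => (ohp_int (PS_rad hP s₁ s₂ s₃) n hη hη1 k).smul_const _
  rw [integral_finsetSum _ (fun s₁ _ => integrable_finsetSum _
    (fun s₂ _ => integrable_finsetSum _ (fun s₃ _ => hI s₁ s₂ s₃)))]
  have e2 : ∀ s₁ : Bool, ∫ q, ∑ s₂ : Bool, ∑ s₃ : Bool,
      (mug (PS P s₁ s₂ s₃) η n (k - q) q * (wfn n η (k - q) * wfn n η q)) •
          ((-(A ^ 2) : ℝ) • ((1 / 2 : ℂ) • cj (pz s₃ k))) = ∑ s₂ : Bool, ∑ s₃ : Bool,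
      (∫ q, mug (PS P s₁ s₂ s₃) η n (k - q) q * (wfn n η (k - q) * wfn n η q)) •
          ((-(A ^ 2) : ℝ) • ((1 / 2 : ℂ) • cj (pz s₃ k))) := by
    intro s₁
    rw [integral_finsetSum _ (fun s₂ _ => integrable_finsetSum _ (fun s₃ _ => hI s₁ s₂ s₃))]
    refine Finset.sum_congr rfl fun s₂ _ => ?_
    rw [integral_finsetSum _ (fun s₃ _ => hI s₁ s₂ s₃)]
    refine Finset.sum_congr rfl fun s₃ _ => ?_
    rw [integral_smul_const]
  simp only [e2]
  have h1 := ohp_sum hP n hη hη1 k true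
  have h2 := ohp_sum hP n hη hη1 k false
  set X := ∫ q, mug P η n (k - q) q * (wfn n η (k - q) * wfn n η q) with hX
  rw [← ohp_pz k]
  simp only [Fintype.sum_bool] at h1 h2 ⊢
  generalize (∫ q, mug (PS P true true true) η n (k - q) q * (wfn n η (k - q) * wfn n η q)) = t1 at *
  generalize (∫ q, mug (PS P true false true) η n (k - q) q * (wfn n η (k - q) * wfn n η q)) = t2 at *
  generalize (∫ q, mug (PS P false true true) η n (k - q) q * (wfn n η (k - q) * wfn n η q)) = t3 at *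
  generalize (∫ q, mug (PS P false false true) η n (k - q) q * (wfn n η (k - q) * wfn n η q)) = t4 at *
  generalize (∫ q, mug (PS P true true false) η n (k - q) q * (wfn n η (k - q) * wfn n η q)) = u1 at *
  generalize (∫ q, mug (PS P true false false) η n (k - q) q * (wfn n η (k - q) * wfn n η q)) = u2 at *
  generalize (∫ q, mug (PS P false true false) η n (k - q) q * (wfn n η (k - q) * wfn n η q)) = u3 at *
  generalize (∫ q, mug (PS P false false false) η n (k - q) q * (wfn n η (k - q) * wfn n η q)) = u4 at *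
  have hX2 : (-(A ^ 2 * X)) • ((1 / 2 : ℂ) • cj (pz true k) + (1 / 2 : ℂ) • cj (pz false k)) =
      (-(A ^ 2 * (t1 + t2 + (t3 + t4)))) • ((1 / 2 : ℂ) • cj (pz true k)) +
      (-(A ^ 2 * (u1 + u2 + (u3 + u4)))) • ((1 / 2 : ℂ) • cj (pz false k)) := by
    rw [h1, h2, smul_add]
  rw [hX2]
  generalize ((1 / 2 : ℂ) • cj (pz true k)) = v1
  generalize ((1 / 2 : ℂ) • cj (pz false k)) = v2
  module

end H706N.JH18

namespace H706N

alias op_hls_prof := JH18.op_hls_prof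

end H706N
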