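import Pool.Agent.Helper706_NS.Defs4
import Pool.Agent.Helper706_NS.A1
import Pool.Agent.Helper706_NS.A2
import Pool.Agent.Helper706_NS.HV1
import Pool.Agent.Helper706_NS.H1

set_option autoImplicit false
open Set Filter Topology MeasureTheory
open scoped ComplexConjugate ContDiff

namespace H706N.JH2

namespace OT

lemma X_meas0 {F G : E × E → W} (hF : Measurable F) (hG : Measurable G) :
    Measurable fun z => (inner ℂ (F z) (G z)).re :=
  Complex.measurable_re.comp (hF.inner hG)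

lemma B_meas {f g h : E → W} (hf : Adm f) (hg : Adm g) (hh : Adm h) :
    Measurable fun p : E × E =>
      ENNReal.ofReal (‖f (p.1 - p.2)‖ * ‖g p.2‖ * ‖h p.1‖ * min ‖p.2‖ ‖p.1‖) := by
  apply Measurable.ennreal_ofReal
  exact ((((hf.meas.comp (measurable_fst.sub measurable_snd)).norm).mul
    (hg.meas.comp measurable_snd).norm).mul (hh.meas.comp measurable_fst).norm).mul
    (measurable_snd.norm.min measurable_fst.norm)

lemma bdd {g : E → W} (hg : Adm g) : ∃ C : ℝ, 0 ≤ C ∧ ∀ k, ‖g k‖ ≤ C := by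
  obtain ⟨C, hC⟩ := hg.dec 0
  refine ⟨C, ?_, fun k => by simpa using hC k⟩
  have := hC 0
  simp only [pow_zero, one_mul] at this
  exact le_trans (norm_nonneg _) this

lemma nrm_zero_sq (g : E → W) : nrm 0 g = Real.sqrt (∫ k : E, ‖g k‖ ^ 2) := by
  unfold nrm
  simp

lemma sqi {g : E → W} (hg : Adm g) : Integrable fun k : E => ‖g k‖ ^ 2 := by
  have := hg.int_sq (a := 0) (by norm_num)
  simpa using this

lemma cs {f g : E → W} (hf : Adm f) (hg : Adm g) (η : E) :
    ∫⁻ k : E, ENNReal.ofReal (‖f (k - η)‖ * ‖g k‖) ≤ ENNReal.ofReal (nrm 0 f * nrm 0 g) := by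
  have hf2 : MemLp (fun k : E => ‖f (k - η)‖) 2 volume := by
    rw [memLp_two_iff_integrable_sq]
    · exact (sqi hf).comp_sub_right η
    · exact ((hf.meas.comp (measurable_id.sub_const η)).norm).aestronglyMeasurable
  have hg2 : MemLp (fun k : E => ‖g k‖) 2 volume := by
    rw [memLp_two_iff_integrable_sq]
    · exact sqi hg
    · exact hg.meas.norm.aestronglyMeasurable
  have hint : Integrable (fun k : E => ‖f (k - η)‖ * ‖g k‖) := hf2.integrable_mul hg2
  rw [← ofReal_integral_eq_lintegral_ofReal hint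
    (Filter.Eventually.of_forall fun k => by positivity)]
  apply ENNReal.ofReal_le_ofReal
  have h2 : ENNReal.ofReal 2 = 2 := by norm_num
  have hc := integral_mul_le_Lp_mul_Lq_of_nonneg (μ := (volume : Measure E)) (p := 2) (q := 2)
    (Real.HolderConjugate.two_two) (f := fun k : E => ‖f (k - η)‖) (g := fun k : E => ‖g k‖)
    (Filter.Eventually.of_forall fun k => norm_nonneg _)
    (Filter.Eventually.of_forall fun k => norm_nonneg _)
    (by rw [h2]; exact hf2) (by rw [h2]; exact hg2)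
  refine le_trans hc ?_
  have h3 : ∫ k : E, ‖f (k - η)‖ ^ (2 : ℝ) = ∫ k : E, ‖f k‖ ^ (2 : ℝ) :=
    integral_sub_right_eq_self (fun k => ‖f k‖ ^ (2 : ℝ)) η
  rw [nrm_zero_sq, nrm_zero_sq, Real.sqrt_eq_rpow, Real.sqrt_eq_rpow]
  have h4 : ∀ u : E → W, (∫ k : E, ‖u k‖ ^ (2 : ℝ)) = ∫ k : E, ‖u k‖ ^ 2 := by
    intro u
    congr 1
    funext k
    exact Real.rpow_two _
  rw [h3, h4, h4]

/-- The integrand of the trilinear form. -/
noncomputable def X (M : E → E → W → W → W) (f g h : E → W) (k q : E) : ℝ :=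
  (inner ℂ (h k) (M (k - q) q (f (k - q)) (g q))).re

lemma inner_dt (a b : W) : inner ℂ a b = dt b (cj a) := by
  unfold dt cj
  rw [PiLp.inner_apply]
  rfl

lemma pr_eq {M : E → E → W → W → W} {C : ℝ} (hM : Sym M) (hC : Bdd C M) {f g h : E → W}
    (hf : Adm f) (hg : Adm g) : pr (op M f g) h = ∫ k, ∫ q, X M f g h k q := by
  rw [pr_comm]
  unfold pr
  congr 1
  funext k
  have h1 := op_int hM hC hf hg k
  unfold op
  rw [← integral_inner h1 (h k)]
  exact (integral_re (h1.const_inner (𝕜 := ℂ) (h k))).symm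

lemma X_le {M : E → E → W → W → W} {C : ℝ} (hC : Bdd C M) {f : E → W} (hf : Adm f)
    (g h : E → W) (k η : E) :
    |X M f g h k η| ≤ C * (‖f (k - η)‖ * ‖g η‖ * ‖h k‖ * min ‖η‖ ‖k‖) := by
  have h1 := hC.2 (k - η) η (f (k - η)) (g η) (hf.divf _)
  rw [sub_add_cancel] at h1
  unfold X
  refine (Complex.abs_re_le_norm _).trans ((norm_inner_le_norm _ _).trans ?_)
  calc ‖h k‖ * ‖M (k - η) η (f (k - η)) (g η)‖
      ≤ ‖h k‖ * (C * min ‖η‖ ‖k‖ * (‖f (k - η)‖ * ‖g η‖)) := by gcongr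
    _ = _ := by ring

lemma X_meas {M : E → E → W → W → W} (hM : Sym M) {f g h : E → W} (hf : Adm f) (hg : Adm g)
    (hh : Adm h) : Measurable fun p : E × E => X M f g h p.1 p.2 := by
  unfold X
  apply X_meas0 (hh.meas.comp measurable_fst)
  exact (hM.meas f g hf.meas hg.meas).comp
    ((measurable_fst.sub measurable_snd).prodMk measurable_snd)

lemma X_int {M : E → E → W → W → W} {C : ℝ} (hM : Sym M) (hC : Bdd C M) {f g h : E → W}
    (hf : Adm f) (hg : Adm g) (hh : Adm h) :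
    Integrable (fun p : E × E => X M f g h p.1 p.2) ((volume : Measure E).prod volume) := by
  obtain ⟨D, hD0, hD⟩ := bdd hf
  have hC0 := hC.1
  have h1 : Integrable (fun k : E => ‖h k‖) := hh.int.norm
  have h2 : Integrable (fun k : E => (1 + ‖k‖) ^ 1 * ‖g k‖) := hg.int_pow 1
  have h3 := (h1.mul_prod h2).const_mul (C * D)
  refine h3.mono (X_meas hM hf hg hh).aestronglyMeasurable ?_
  filter_upwards with p
  rw [Real.norm_eq_abs, Real.norm_eq_abs]
  refine le_trans (X_le hC hf g h p.1 p.2) ?_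
  refine le_trans ?_ (le_abs_self _)
  have h4 : min ‖p.2‖ ‖p.1‖ ≤ 1 + ‖p.2‖ := le_trans (min_le_left _ _) (by linarith)
  have h5 : 0 ≤ min ‖p.2‖ ‖p.1‖ := le_min (norm_nonneg _) (norm_nonneg _)
  calc C * (‖f (p.1 - p.2)‖ * ‖g p.2‖ * ‖h p.1‖ * min ‖p.2‖ ‖p.1‖)
      ≤ C * (D * ‖g p.2‖ * ‖h p.1‖ * (1 + ‖p.2‖)) := by
        gcongr
        exact hD _
    _ = C * D * (‖h p.1‖ * ((1 + ‖p.2‖) ^ 1 * ‖g p.2‖)) := by ring

lemma adm_neg {g : E → W} (hg : Adm g) (p : E) : g (-p) = cj (g p) := by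
  ext j
  exact hg.herm p j

lemma X_skew {M : E → E → W → W → W} (hM : Sym M) {g h : E → W} (hg : Adm g) (hh : Adm h)
    (k η : E) : X M g h h η k = - X M g h h k η := by
  unfold X
  rw [inner_dt, inner_dt]
  have h1 : g (η - k) = cj (g (k - η)) := by
    rw [← adm_neg hg, neg_sub]
  have h2 := hM.skew (k - η) η (g (k - η)) (h η) (h k) (hg.divf _) (hh.divf _)
    (by rw [sub_add_cancel]; exact hh.divf k)
  rw [neg_sub, sub_add_cancel] at h2
  rw [h1, h2, Complex.neg_re, Complex.conj_re]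

end OT

/-- TARGET -/
theorem op_abs {M : E → E → W → W → W} {C : ℝ} (hM : Sym M) (hC : Bdd C M) {f g h : E → W}
    (hf : Adm f) (hg : Adm g) (hh : Adm h) :
    ENNReal.ofReal |pr (op M f g) h| ≤ ENNReal.ofReal C * ∫⁻ η : E, ∫⁻ k : E,
      ENNReal.ofReal (‖f (k - η)‖ * ‖g η‖ * ‖h k‖ * min ‖η‖ ‖k‖) := by
  have hC0 := hC.1
  rw [OT.pr_eq hM hC hf hg]
  have e1 : ∀ F : E → ℝ, ENNReal.ofReal |∫ k, F k| ≤ ∫⁻ k, ENNReal.ofReal |F k| := by
    intro F
    have := enorm_integral_le_lintegral_enorm (μ := (volume : Measure E)) F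
    rw [← ofReal_norm, Real.norm_eq_abs] at this
    refine le_trans this (le_of_eq ?_)
    congr 1
    funext k
    rw [← ofReal_norm, Real.norm_eq_abs]
  have hB := OT.B_meas hf hg hh
  rw [← lintegral_prod_symm' (μ := (volume : Measure E)) (ν := (volume : Measure E)) _ hB,
    lintegral_prod _ hB.aemeasurable, ← lintegral_const_mul]
  · refine le_trans (e1 _) (lintegral_mono fun k => ?_)
    have hBk : Measurable fun η : E =>
        ENNReal.ofReal (‖f (k - η)‖ * ‖g η‖ * ‖h k‖ * min ‖η‖ ‖k‖) := by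
      apply Measurable.ennreal_ofReal
      have a1 : Measurable fun η : E => ‖f (k - η)‖ :=
        (hf.meas.comp (measurable_const.sub measurable_id)).norm
      have a2 : Measurable fun η : E => ‖g η‖ := hg.meas.norm
      exact ((a1.mul a2).mul measurable_const).mul (measurable_norm.min measurable_const)
    refine le_trans (e1 _) ?_
    show _ ≤ ENNReal.ofReal C * ∫⁻ η : E,
      ENNReal.ofReal (‖f (k - η)‖ * ‖g η‖ * ‖h k‖ * min ‖η‖ ‖k‖)
    rw [← lintegral_const_mul _ hBk]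
    refine lintegral_mono fun η => ?_
    rw [← ENNReal.ofReal_mul hC0]
    exact ENNReal.ofReal_le_ofReal (OT.X_le hC hf g h k η)
  · exact hB.lintegral_prod_right'

/-- TARGET -/
theorem op_skew {M : E → E → W → W → W} {C : ℝ} (hM : Sym M) (hC : Bdd C M) {g h : E → W}
    (hg : Adm g) (hh : Adm h) : pr (op M g h) h = 0 := by
  rw [OT.pr_eq hM hC hg hh]
  have hi := OT.X_int hM hC hg hh hh
  have h1 := integral_prod _ hi
  have h2 : ∫ z : E × E, OT.X M g h h z.swap.1 z.swap.2 ∂((volume : Measure E).prod volume)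
      = ∫ z : E × E, OT.X M g h h z.1 z.2 ∂((volume : Measure E).prod volume) :=
    integral_prod_swap (μ := (volume : Measure E)) (ν := (volume : Measure E))
      (fun z : E × E => OT.X M g h h z.1 z.2)
  have h3 : ∫ z : E × E, OT.X M g h h z.swap.1 z.swap.2 ∂((volume : Measure E).prod volume)
      = - ∫ z : E × E, OT.X M g h h z.1 z.2 ∂((volume : Measure E).prod volume) := by
    rw [← integral_neg]
    congr 1
    funext z
    exact OT.X_skew hM hg hh z.1 z.2
  have h4 : ∫ z : E × E, OT.X M g h h z.1 z.2 ∂((volume : Measure E).prod volume) = 0 := by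
    linarith
  rw [← h1]
  exact h4

/-- TARGET -/
theorem op_diag {M : E → E → W → W → W} {C : ℝ} (hM : Sym M) (hC : Bdd C M) : ∃ K : ℝ,
    ∀ f g h : E → W, Adm f → Adm g → Adm h →
    ∀ D : ℝ, (∀ k, (1 + ‖k‖) ^ 5 * ‖h k‖ ≤ D) → |pr (op M f h) g| ≤ K * D * nrm 0 f * nrm 0 g := by
  have hC0 := hC.1
  have hK : Integrable (fun k : E => (((1 + ‖k‖) ^ 4)⁻¹ : ℝ)) := by
    apply int_dec (C := 1)
    · apply Measurable.aestronglyMeasurable
      exact ((measurable_const.add measurable_norm).pow_const 4).inv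
    · intro k
      have : 0 < (1 + ‖k‖) ^ 4 := by positivity
      rw [norm_inv, Real.norm_of_nonneg this.le, mul_inv_cancel₀ this.ne']
  refine ⟨C * ∫ k : E, (((1 + ‖k‖) ^ 4)⁻¹ : ℝ), ?_⟩
  intro f g h hf hg hh D hD
  have hD0 : 0 ≤ D := le_trans (by positivity) (hD 0)
  set K : ℝ := ∫ k : E, (((1 + ‖k‖) ^ 4)⁻¹ : ℝ) with hKd
  have hK0 : 0 ≤ K := integral_nonneg fun k => by positivity
  have h1 := op_abs hM hC hf hh hg
  have h2 : ∫⁻ η : E, ∫⁻ k : E, ENNReal.ofReal (‖f (k - η)‖ * ‖h η‖ * ‖g k‖ * min ‖η‖ ‖k‖)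
      ≤ ∫⁻ η : E, ENNReal.ofReal (D * ((1 + ‖η‖) ^ 4)⁻¹) * ENNReal.ofReal (nrm 0 f * nrm 0 g) := by
    apply lintegral_mono
    intro η
    show ∫⁻ k : E, ENNReal.ofReal (‖f (k - η)‖ * ‖h η‖ * ‖g k‖ * min ‖η‖ ‖k‖) ≤ _
    have hb : ‖η‖ * ‖h η‖ ≤ D * ((1 + ‖η‖) ^ 4)⁻¹ := by
      have hp : 0 < (1 + ‖η‖) ^ 4 := by positivity
      rw [← div_eq_mul_inv, le_div_iff₀ hp]
      refine le_trans ?_ (hD η)
      have : ‖η‖ * ‖h η‖ * (1 + ‖η‖) ^ 4 ≤ (1 + ‖η‖) * ‖h η‖ * (1 + ‖η‖) ^ 4 := by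
        gcongr
        linarith
      refine le_trans this (le_of_eq (by ring))
    calc ∫⁻ k : E, ENNReal.ofReal (‖f (k - η)‖ * ‖h η‖ * ‖g k‖ * min ‖η‖ ‖k‖)
        ≤ ∫⁻ k : E, ENNReal.ofReal (D * ((1 + ‖η‖) ^ 4)⁻¹) * ENNReal.ofReal (‖f (k - η)‖ * ‖g k‖) := by
          apply lintegral_mono
          intro k
          show ENNReal.ofReal (‖f (k - η)‖ * ‖h η‖ * ‖g k‖ * min ‖η‖ ‖k‖) ≤ 
            ENNReal.ofReal (D * ((1 + ‖η‖) ^ 4)⁻¹) * ENNReal.ofReal (‖f (k - η)‖ * ‖g k‖)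
          rw [← ENNReal.ofReal_mul (by positivity)]
          apply ENNReal.ofReal_le_ofReal
          calc ‖f (k - η)‖ * ‖h η‖ * ‖g k‖ * min ‖η‖ ‖k‖
              ≤ ‖f (k - η)‖ * ‖h η‖ * ‖g k‖ * ‖η‖ := by
                gcongr
                exact min_le_left _ _
            _ = (‖η‖ * ‖h η‖) * (‖f (k - η)‖ * ‖g k‖) := by ring
            _ ≤ _ := by gcongr
      _ = ENNReal.ofReal (D * ((1 + ‖η‖) ^ 4)⁻¹) * ∫⁻ k : E, ENNReal.ofReal (‖f (k - η)‖ * ‖g k‖) := by
          rw [lintegral_const_mul]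
          exact (((hf.meas.comp (measurable_id.sub_const η)).norm).mul hg.meas.norm).ennreal_ofReal
      _ ≤ _ := mul_le_mul_right (OT.cs hf hg η) _
  have h3 : ∫⁻ η : E, ENNReal.ofReal (D * ((1 + ‖η‖) ^ 4)⁻¹) * ENNReal.ofReal (nrm 0 f * nrm 0 g)
      = ENNReal.ofReal (K * D * nrm 0 f * nrm 0 g) := by
    rw [lintegral_mul_const]
    · rw [← ofReal_integral_eq_lintegral_ofReal (hK.const_mul D)
        (Filter.Eventually.of_forall fun k => by positivity), integral_const_mul,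
        ← ENNReal.ofReal_mul (by positivity)]
      congr 1
      ring
    · exact (((measurable_const.add measurable_norm).pow_const 4).inv.const_mul D).ennreal_ofReal
  have h4 := le_trans h1 (mul_le_mul_right (le_trans h2 (le_of_eq h3)) (ENNReal.ofReal C))
  rw [← ENNReal.ofReal_mul hC0] at h4
  have h5 : 0 ≤ C * (K * D * nrm 0 f * nrm 0 g) := by
    have := nrm_nonneg 0 f
    have := nrm_nonneg 0 g
    positivity
  have h6 := (ENNReal.ofReal_le_ofReal_iff h5).1 h4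
  refine h6.trans (le_of_eq ?_)
  ring

end H706N.JH2

namespace H706N

alias op_abs := JH2.op_abs
alias op_skew := JH2.op_skew
alias op_diag := JH2.op_diag

end H706N
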