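import Pool.Agent.Helper706_NS.Defs4
import Pool.Agent.Helper706_NS.A1

set_option autoImplicit false
open Set Filter Topology MeasureTheory
open scoped ComplexConjugate ContDiff

namespace H706N.JH20

theorem vel_decay_int {N : ℕ} {g : E → W} (hg : ContDiff ℝ N g)
    (hd : ∀ i ≤ N, ∀ r : ℕ, ∃ C : ℝ, ∀ k : E, ‖k‖ ^ r * ‖iteratedFDeriv ℝ i g k‖ ≤ C) (a n : ℕ)
    (hn : n ≤ N) : Integrable (fun v : E => ‖v‖ ^ a * ‖iteratedFDeriv ℝ n g v‖) volume := by
  have hc : Continuous fun v : E => ‖v‖ ^ a * ‖iteratedFDeriv ℝ n g v‖ :=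
    (continuous_norm.pow a).mul
      (hg.continuous_iteratedFDeriv (by exact_mod_cast hn)).norm
  obtain ⟨C1, h1⟩ := hd n hn a
  obtain ⟨C2, h2⟩ := hd n hn (a + 4)
  refine int_dec hc.aestronglyMeasurable (C := 8 * (C1 + C2)) fun k => ?_
  have h3 : (1 + ‖k‖) ^ 4 ≤ 8 * (1 + ‖k‖ ^ 4) := by
    have := add_pow_le (zero_le_one (α := ℝ)) (norm_nonneg k) 4
    norm_num at this
    exact this
  have h4 : 0 ≤ ‖k‖ ^ a * ‖iteratedFDeriv ℝ n g k‖ := by positivity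
  rw [Real.norm_of_nonneg h4]
  calc (1 + ‖k‖) ^ 4 * (‖k‖ ^ a * ‖iteratedFDeriv ℝ n g k‖)
      ≤ (8 * (1 + ‖k‖ ^ 4)) * (‖k‖ ^ a * ‖iteratedFDeriv ℝ n g k‖) :=
        mul_le_mul_of_nonneg_right h3 h4
    _ = 8 * (‖k‖ ^ a * ‖iteratedFDeriv ℝ n g k‖ + ‖k‖ ^ (a + 4) * ‖iteratedFDeriv ℝ n g k‖) := by
        ring
    _ ≤ 8 * (C1 + C2) := by
        have := h1 k
        have := h2 k
        linarith

open FourierTransform in
theorem vel_decay_fourier (N : ℕ) {g : E → W} (hg : ContDiff ℝ N g)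
    (hd : ∀ i ≤ N, ∀ r : ℕ, ∃ C : ℝ, ∀ k : E, ‖k‖ ^ r * ‖iteratedFDeriv ℝ i g k‖ ≤ C) (r : ℕ) :
    ContDiff ℝ r (𝓕 g) ∧ ∀ n ≤ N, ∃ C : ℝ, ∀ w : E, ‖w‖ ^ n * ‖iteratedFDeriv ℝ r (𝓕 g) w‖ ≤ C := by
  have hi := fun a n hn => vel_decay_int hg hd a n hn
  constructor
  · have h0 : ∀ n : ℕ, (n : ℕ∞) ≤ (r : ℕ∞) → Integrable (fun v => ‖v‖ ^ n * ‖g v‖) volume := by
      intro n _
      have := hi n 0 (Nat.zero_le _)
      simpa [norm_iteratedFDeriv_zero] using this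
    exact_mod_cast Real.contDiff_fourier h0
  · intro n hn
    refine ⟨_, fun w => Real.pow_mul_norm_iteratedFDeriv_fourier_le (K := r) (N := N)
      (by exact_mod_cast hg) (fun a b _ hb => hi a b (by exact_mod_cast hb)) le_rfl
      (by exact_mod_cast hn) w⟩

/-- the real part of a vector in `ℂ³`, as a real-linear map -/
noncomputable def vel_decay_re : W →L[ℝ] E :=
  LinearMap.toContinuousLinearMap
    { toFun := fun c => WithLp.toLp 2 fun i => (c i).re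
      map_add' := fun a b => by
        ext i
        simp
      map_smul' := fun r a => by
        ext i
        simp }

open FourierTransform in
theorem vel_decay_eq {g : E → W} (hc : Continuous g) (hi : Integrable g volume) :
    vel g = vel_decay_re ∘ ((𝓕 g) ∘ ((-(2 * Real.pi)⁻¹) • ContinuousLinearMap.id ℝ E)) := by
  funext x
  ext i
  have hF : Integrable (fun v : E => Complex.exp (((inner ℝ v x : ℝ) : ℂ) * Complex.I) • g v)
      volume := by
    refine hi.mono ?_ (ae_of_all _ fun v => ?_)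
    · have hcont : Continuous (fun v : E => Complex.exp (((inner ℝ v x : ℝ) : ℂ) * Complex.I)) := by
        fun_prop
      exact (hcont.smul hc).aestronglyMeasurable
    · rw [norm_smul, Complex.norm_exp_ofReal_mul_I, one_mul]
  have h1 : 𝓕 g ((-(2 * Real.pi)⁻¹) • x) =
      ∫ v : E, Complex.exp (((inner ℝ v x : ℝ) : ℂ) * Complex.I) • g v := by
    rw [Real.fourier_eq']
    refine integral_congr_ae (ae_of_all _ fun v => ?_)
    have h2 : -2 * Real.pi * inner ℝ v ((-(2 * Real.pi)⁻¹) • x) = inner ℝ v x := by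
      rw [inner_smul_right]
      have := Real.pi_ne_zero
      field_simp
    simp only [h2]
  have h3 : (𝓕 g ((-(2 * Real.pi)⁻¹) • x)) i = fl (fun k => g k i) x := by
    rw [h1]
    have h4 := (EuclideanSpace.proj i : W →L[ℂ] ℂ).integral_comp_comm hF
    unfold fl
    simpa using h4.symm
  show (fl (fun k => g k i) x).re = ((𝓕 g ((-(2 * Real.pi)⁻¹) • x)) i).re
  rw [h3]

/-- TARGET -/
theorem vel_decay (N : ℕ) {g : E → W} (hg : ContDiff ℝ N g)
    (hd : ∀ i ≤ N, ∀ r : ℕ, ∃ C : ℝ, ∀ k : E, ‖k‖ ^ r * ‖iteratedFDeriv ℝ i g k‖ ≤ C) (r : ℕ) :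
    ∃ C : ℝ, ∀ x : E, (1 + ‖x‖) ^ N * ‖iteratedFDeriv ℝ r (vel g) x‖ ≤ C := by
  obtain ⟨hF, hb⟩ := vel_decay_fourier N hg hd r
  have hi : Integrable g volume := by
    have := vel_decay_int hg hd 0 0 (Nat.zero_le _)
    simp only [pow_zero, one_mul, norm_iteratedFDeriv_zero] at this
    exact (integrable_norm_iff hg.continuous.aestronglyMeasurable).1 this
  obtain ⟨C0, h0⟩ := hb 0 (Nat.zero_le _)
  obtain ⟨C1, h1⟩ := hb N le_rfl
  set A : E →L[ℝ] E := (-(2 * Real.pi)⁻¹) • ContinuousLinearMap.id ℝ E with hA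
  refine ⟨2 ^ (N - 1) * (‖vel_decay_re‖ * ‖A‖ ^ r) * (C0 + (2 * Real.pi) ^ N * C1), fun x => ?_⟩
  have hbd : ‖iteratedFDeriv ℝ r (vel g) x‖ ≤
      ‖vel_decay_re‖ * ‖A‖ ^ r * ‖iteratedFDeriv ℝ r (FourierTransform.fourier g) (A x)‖ := by
    rw [vel_decay_eq hg.continuous hi, ← hA]
    have hcA : ContDiff ℝ r ((FourierTransform.fourier g) ∘ A) := hF.comp A.contDiff
    refine (vel_decay_re.norm_iteratedFDeriv_comp_left hcA.contDiffAt le_rfl).trans ?_
    rw [mul_assoc]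
    refine mul_le_mul_of_nonneg_left ?_ (norm_nonneg _)
    rw [A.iteratedFDeriv_comp_right hF x le_rfl]
    refine (ContinuousMultilinearMap.norm_compContinuousLinearMap_le _ _).trans ?_
    rw [Finset.prod_const, Finset.card_univ, Fintype.card_fin, mul_comm]
  have hnx : ‖x‖ = 2 * Real.pi * ‖A x‖ := by
    have : A x = (-(2 * Real.pi)⁻¹) • x := rfl
    rw [this, norm_smul, norm_neg, norm_inv, Real.norm_of_nonneg (by positivity)]
    have := Real.pi_ne_zero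
    field_simp
  have hp : (1 + ‖x‖) ^ N ≤ 2 ^ (N - 1) * (1 + ‖x‖ ^ N) := by
    have := add_pow_le (zero_le_one (α := ℝ)) (norm_nonneg x) N
    rwa [one_pow] at this
  set D : ℝ := ‖iteratedFDeriv ℝ r (FourierTransform.fourier g) (A x)‖ with hD
  have hD0 : 0 ≤ D := norm_nonneg _
  have e0 : D ≤ C0 := by
    have := h0 (A x)
    rwa [pow_zero, one_mul] at this
  have e1 : ‖A x‖ ^ N * D ≤ C1 := h1 (A x)
  have e2 : (1 + ‖x‖ ^ N) * D ≤ C0 + (2 * Real.pi) ^ N * C1 := by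
    rw [hnx, mul_pow]
    have : (2 * Real.pi) ^ N * (‖A x‖ ^ N * D) ≤ (2 * Real.pi) ^ N * C1 :=
      mul_le_mul_of_nonneg_left e1 (by positivity)
    nlinarith
  have hK : 0 ≤ ‖vel_decay_re‖ * ‖A‖ ^ r := by positivity
  calc (1 + ‖x‖) ^ N * ‖iteratedFDeriv ℝ r (vel g) x‖
      ≤ (2 ^ (N - 1) * (1 + ‖x‖ ^ N)) * (‖vel_decay_re‖ * ‖A‖ ^ r * D) :=
        mul_le_mul hp hbd (norm_nonneg _) (by positivity)
    _ = 2 ^ (N - 1) * (‖vel_decay_re‖ * ‖A‖ ^ r) * ((1 + ‖x‖ ^ N) * D) := by ring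
    _ ≤ 2 ^ (N - 1) * (‖vel_decay_re‖ * ‖A‖ ^ r) * (C0 + (2 * Real.pi) ^ N * C1) :=
        mul_le_mul_of_nonneg_left e2 (by positivity)

end H706N.JH20

namespace H706N

alias vel_decay := JH20.vel_decay

end H706N
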