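import Pool.Agent.Helper706_NS.Defs4

set_option autoImplicit false
open Set Filter Topology MeasureTheory
open scoped ComplexConjugate ContDiff

namespace H706N.JH21

/-- TARGET -/
theorem int_of_decay {v : E → E} (hv : Continuous v) {C : ℝ} (h : ∀ x, (1 + ‖x‖) ^ 4 * ‖v x‖ ≤ C) :
    (Integrable fun x => ‖v x‖ ^ 2) ∧ Integrable fun x => ‖v x‖ ^ 3 := by
  have hC : 0 ≤ C := le_trans (by positivity) (h 0)
  have hone : ∀ x : E, 1 ≤ (1 + ‖x‖) ^ 4 := fun x => one_le_pow₀ (by linarith [norm_nonneg x])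
  have hvC : ∀ x, ‖v x‖ ≤ C := fun x => by
    have h1 := h x
    nlinarith [hone x, norm_nonneg (v x)]
  have hI : Integrable (fun x : E => (1 + ‖x‖) ^ (-(4 : ℝ))) := by
    apply integrable_one_add_norm
    simp [finrank_euclideanSpace]
    norm_num
  have hvd : ∀ x, ‖v x‖ ≤ C * (1 + ‖x‖) ^ (-(4 : ℝ)) := fun x => by
    have hp : 0 < 1 + ‖x‖ := by linarith [norm_nonneg x]
    have h4 : (1 + ‖x‖) ^ (-(4 : ℝ)) = ((1 + ‖x‖) ^ 4)⁻¹ := by
      rw [Real.rpow_neg hp.le]
      congr 1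
      exact_mod_cast Real.rpow_natCast (1 + ‖x‖) 4
    rw [h4, ← div_eq_mul_inv, le_div_iff₀ (by positivity)]
    linarith [h x]
  have key : ∀ m : ℕ, Integrable fun x => ‖v x‖ ^ (m + 1) := fun m => by
    refine Integrable.mono' (hI.const_mul (C ^ m * C)) ?_ ?_
    · exact ((hv.norm).pow _).aestronglyMeasurable
    · filter_upwards with x
      rw [Real.norm_of_nonneg (by positivity), pow_succ, mul_assoc]
      exact mul_le_mul (pow_le_pow_left₀ (norm_nonneg _) (hvC x) _) (hvd x) (norm_nonneg _)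
        (pow_nonneg hC _)
  exact ⟨key 1, key 2⟩

/-- TARGET -/
theorem scale_three (v : E → E) {r : ℝ} (hr : 0 < r) :
    ∫ x, ‖r • v (r • x)‖ ^ 3 = ∫ x, ‖v x‖ ^ 3 := by
  have h1 : ∀ x, ‖r • v (r • x)‖ ^ 3 = r ^ 3 * ‖v (r • x)‖ ^ 3 := fun x => by
    rw [norm_smul, mul_pow, Real.norm_of_nonneg hr.le]
  simp_rw [h1]
  rw [integral_const_mul]
  have h2 := Measure.integral_comp_smul (volume : Measure E) (fun x => ‖v x‖ ^ 3) r
  rw [h2]
  have h3 : Module.finrank ℝ E = 3 := by simp [finrank_euclideanSpace]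
  rw [h3, smul_eq_mul, abs_of_pos (by positivity), ← mul_assoc,
    mul_inv_cancel₀ (by positivity), one_mul]

end H706N.JH21

namespace H706N

alias int_of_decay := JH21.int_of_decay
alias scale_three := JH21.scale_three

end H706N
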