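import Pool.Agent.Helper706_NS.Defs3

set_option autoImplicit false
open Set Filter Topology MeasureTheory
open scoped ComplexConjugate ContDiff

namespace H706N.JTA

namespace JTA

theorem tri_small_cs {F G : E × E → ENNReal} (hF : Measurable F) (hG : Measurable G) :
    ∫⁻ z, F z * G z ∂((volume : Measure E).prod (volume : Measure E)) ≤
      (∫⁻ z, F z ^ 2 ∂((volume : Measure E).prod (volume : Measure E))) ^ (1 / 2 : ℝ) *
        (∫⁻ z, G z ^ 2 ∂((volume : Measure E).prod (volume : Measure E))) ^ (1 / 2 : ℝ) := by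
  have h := ENNReal.lintegral_mul_le_Lp_mul_Lq ((volume : Measure E).prod (volume : Measure E))
    (p := 2) (q := 2) Real.HolderConjugate.two_two hF.aemeasurable hG.aemeasurable
  simpa only [Pi.mul_apply, ENNReal.rpow_two] using h

theorem tri_small_T1 {φ₁ φ₂ φ₃ : E → ENNReal} (h1 : Measurable φ₁) (h2 : Measurable φ₂)
    (h3 : Measurable φ₃) {u : E × E → ENNReal} (hu : Measurable u) {M : ENNReal}
    (hM : ∀ᵐ η : E, ∫⁻ k : E, u (η, k) ^ 2 ≤ M) :
    ∫⁻ z, u z * (φ₁ (z.2 - z.1) * φ₂ z.1 * φ₃ z.2) ∂((volume : Measure E).prod (volume : Measure E)) ≤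
      M ^ (1 / 2 : ℝ) * ((∫⁻ x, φ₁ x ^ 2) ^ (1 / 2 : ℝ) * (∫⁻ x, φ₂ x ^ 2) ^ (1 / 2 : ℝ) *
        (∫⁻ x, φ₃ x ^ 2) ^ (1 / 2 : ℝ)) := by
  have hF : Measurable fun z : E × E => φ₁ (z.2 - z.1) * φ₃ z.2 := by fun_prop
  have hG : Measurable fun z : E × E => u z * φ₂ z.1 := by fun_prop
  have e0 : ∀ z : E × E, u z * (φ₁ (z.2 - z.1) * φ₂ z.1 * φ₃ z.2) =
      (φ₁ (z.2 - z.1) * φ₃ z.2) * (u z * φ₂ z.1) := fun z => by ring
  simp only [e0]
  refine (tri_small_cs hF hG).trans ?_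
  have e1 : ∫⁻ z, (φ₁ (z.2 - z.1) * φ₃ z.2) ^ 2 ∂((volume : Measure E).prod (volume : Measure E)) =
      (∫⁻ x, φ₁ x ^ 2) * ∫⁻ x, φ₃ x ^ 2 := by
    rw [lintegral_prod_symm' _ (hF.pow_const 2)]
    have : ∀ k : E, ∫⁻ η : E, (φ₁ ((η, k).2 - (η, k).1) * φ₃ (η, k).2) ^ 2 =
        (∫⁻ x, φ₁ x ^ 2) * φ₃ k ^ 2 := by
      intro k
      simp only [mul_pow]
      rw [lintegral_mul_const _ (by fun_prop), lintegral_sub_left_eq_self (fun x => φ₁ x ^ 2) k]
    simp only [this]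
    rw [lintegral_const_mul _ (by fun_prop)]
  have e2 : ∫⁻ z, (u z * φ₂ z.1) ^ 2 ∂((volume : Measure E).prod (volume : Measure E)) ≤
      M * ∫⁻ x, φ₂ x ^ 2 := by
    rw [lintegral_prod _ (hG.pow_const 2).aemeasurable, ← lintegral_const_mul _ (by fun_prop)]
    apply lintegral_mono_ae
    filter_upwards [hM] with η hη
    simp only [mul_pow]
    rw [lintegral_mul_const _ (by fun_prop)]
    exact mul_le_mul_left hη _
  rw [e1]
  calc ((∫⁻ x, φ₁ x ^ 2) * ∫⁻ x, φ₃ x ^ 2) ^ (1 / 2 : ℝ) *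
        (∫⁻ z, (u z * φ₂ z.1) ^ 2 ∂((volume : Measure E).prod (volume : Measure E))) ^ (1 / 2 : ℝ)
      ≤ ((∫⁻ x, φ₁ x ^ 2) * ∫⁻ x, φ₃ x ^ 2) ^ (1 / 2 : ℝ) * (M * ∫⁻ x, φ₂ x ^ 2) ^ (1 / 2 : ℝ) := by
        gcongr
    _ = _ := by
        rw [ENNReal.mul_rpow_of_nonneg _ _ (by norm_num), ENNReal.mul_rpow_of_nonneg _ _ (by norm_num)]
        ring

theorem tri_small_T2 {φ₁ φ₂ φ₃ : E → ENNReal} (h1 : Measurable φ₁) (h2 : Measurable φ₂)
    (h3 : Measurable φ₃) {u : E × E → ENNReal} (hu : Measurable u) {M : ENNReal}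
    (hM : ∀ᵐ k : E, ∫⁻ η : E, u (η, k) ^ 2 ≤ M) :
    ∫⁻ z, u z * (φ₁ (z.2 - z.1) * φ₂ z.1 * φ₃ z.2) ∂((volume : Measure E).prod (volume : Measure E)) ≤
      M ^ (1 / 2 : ℝ) * ((∫⁻ x, φ₁ x ^ 2) ^ (1 / 2 : ℝ) * (∫⁻ x, φ₂ x ^ 2) ^ (1 / 2 : ℝ) *
        (∫⁻ x, φ₃ x ^ 2) ^ (1 / 2 : ℝ)) := by
  have hF : Measurable fun z : E × E => φ₁ (z.2 - z.1) * φ₂ z.1 := by fun_prop
  have hG : Measurable fun z : E × E => u z * φ₃ z.2 := by fun_prop
  have e0 : ∀ z : E × E, u z * (φ₁ (z.2 - z.1) * φ₂ z.1 * φ₃ z.2) =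
      (φ₁ (z.2 - z.1) * φ₂ z.1) * (u z * φ₃ z.2) := fun z => by ring
  simp only [e0]
  refine (tri_small_cs hF hG).trans ?_
  have e1 : ∫⁻ z, (φ₁ (z.2 - z.1) * φ₂ z.1) ^ 2 ∂((volume : Measure E).prod (volume : Measure E)) =
      (∫⁻ x, φ₁ x ^ 2) * ∫⁻ x, φ₂ x ^ 2 := by
    rw [lintegral_prod _ (hF.pow_const 2).aemeasurable]
    have : ∀ η : E, ∫⁻ k : E, (φ₁ ((η, k).2 - (η, k).1) * φ₂ (η, k).1) ^ 2 =
        (∫⁻ x, φ₁ x ^ 2) * φ₂ η ^ 2 := by
      intro η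
      simp only [mul_pow]
      rw [lintegral_mul_const _ (by fun_prop), lintegral_sub_right_eq_self (fun x => φ₁ x ^ 2) η]
    simp only [this]
    rw [lintegral_const_mul _ (by fun_prop)]
  have e2 : ∫⁻ z, (u z * φ₃ z.2) ^ 2 ∂((volume : Measure E).prod (volume : Measure E)) ≤
      M * ∫⁻ x, φ₃ x ^ 2 := by
    rw [lintegral_prod_symm' _ (hG.pow_const 2), ← lintegral_const_mul _ (by fun_prop)]
    apply lintegral_mono_ae
    filter_upwards [hM] with k hk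
    simp only [mul_pow]
    rw [lintegral_mul_const _ (by fun_prop)]
    exact mul_le_mul_left hk _
  rw [e1]
  calc ((∫⁻ x, φ₁ x ^ 2) * ∫⁻ x, φ₂ x ^ 2) ^ (1 / 2 : ℝ) *
        (∫⁻ z, (u z * φ₃ z.2) ^ 2 ∂((volume : Measure E).prod (volume : Measure E))) ^ (1 / 2 : ℝ)
      ≤ ((∫⁻ x, φ₁ x ^ 2) * ∫⁻ x, φ₂ x ^ 2) ^ (1 / 2 : ℝ) * (M * ∫⁻ x, φ₃ x ^ 2) ^ (1 / 2 : ℝ) := by
        gcongr
    _ = _ := by
        rw [ENNReal.mul_rpow_of_nonneg _ _ (by norm_num), ENNReal.mul_rpow_of_nonneg _ _ (by norm_num)]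
        ring

theorem tri_small_pw {t R y : ℝ} (hR : 0 < R) (h1 : R / 2 ≤ y) (h2 : y ≤ 2 * R) :
    (y ^ (-t)) ^ 2 ≤ 2 ^ (2 * |t|) * R ^ (-(2 * t)) := by
  have hy : 0 < y := by linarith
  have e1 : (y ^ (-t)) ^ 2 = (y / R) ^ (-(2 * t)) * R ^ (-(2 * t)) := by
    rw [← Real.mul_rpow (by positivity) hR.le, div_mul_cancel₀ _ hR.ne', ← Real.rpow_natCast,
      ← Real.rpow_mul hy.le]
    congr 1
    push_cast
    ring
  rw [e1]
  apply mul_le_mul_of_nonneg_right _ (by positivity)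
  have k1 : 1 / 2 ≤ y / R := by
    rw [div_le_div_iff₀ (by norm_num) hR]
    linarith
  have k2 : y / R ≤ 2 := by
    rw [div_le_iff₀ hR]
    exact h2
  rcases le_total 0 t with ht | ht
  · rw [abs_of_nonneg ht, Real.rpow_neg (by positivity)]
    have : (1 / 2 : ℝ) ^ (2 * t) ≤ (y / R) ^ (2 * t) :=
      Real.rpow_le_rpow (by norm_num) k1 (by linarith)
    have h3 : (1 / 2 : ℝ) ^ (2 * t) = ((2 : ℝ) ^ (2 * t))⁻¹ := by
      rw [one_div, Real.inv_rpow (by norm_num)]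
    rw [h3] at this
    exact inv_le_of_inv_le₀ (by positivity) this
  · rw [abs_of_nonpos ht, show 2 * -t = -(2 * t) by ring]
    exact Real.rpow_le_rpow (by positivity) k2 (by linarith)

theorem ball_bd {s : ℝ} (hs : s < 3 / 2) : ∃ B : ℝ, 0 ≤ B ∧ ∀ R > 0,
    ∫⁻ x in Metric.closedBall (0 : E) R, ENNReal.ofReal (‖x‖ ^ (-(2 * s))) ≤
      ENNReal.ofReal (B * R ^ (3 - 2 * s)) := by
  have h3 : Module.finrank ℝ E = 3 := by simp
  have h1 : IntegrableOn (fun x : E => ‖x‖ ^ (-(2 * s))) (Metric.ball (0 : E) 2) := by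
    rw [integrableOn_fun_norm_addHaar (volume : Measure E) (f := fun y : ℝ => y ^ (-(2 * s)))]
    rw [h3]
    have h2 : IntegrableOn (fun y : ℝ => y ^ (2 - 2 * s)) (Ioo 0 2) := by
      rw [← intervalIntegrable_iff_integrableOn_Ioo_of_le (by norm_num)]
      exact intervalIntegral.intervalIntegrable_rpow' (by linarith)
    refine h2.congr_fun (fun y hy => ?_) measurableSet_Ioo
    simp only [smul_eq_mul]
    rw [← Real.rpow_natCast, ← Real.rpow_add hy.1]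
    congr 1
  set I : ENNReal := ∫⁻ x in Metric.closedBall (0 : E) 1, ENNReal.ofReal (‖x‖ ^ (-(2 * s))) with hI
  have hIf : I < ⊤ := by
    have h2 := (h1.mono_set (Metric.closedBall_subset_ball (by norm_num : (1 : ℝ) < 2))).lintegral_lt_top
    exact h2
  refine ⟨I.toReal, ENNReal.toReal_nonneg, fun R hR => ?_⟩
  have h4 : ∫⁻ x in Metric.closedBall (0 : E) R, ENNReal.ofReal (‖x‖ ^ (-(2 * s))) =
      ENNReal.ofReal (R ^ 3) * ∫⁻ x, (Metric.closedBall (0 : E) R).indicator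
        (fun x => ENNReal.ofReal (‖x‖ ^ (-(2 * s)))) (R • x) := by
    have h5 := Measure.map_addHaar_smul (volume : Measure E) hR.ne'
    rw [h3] at h5
    have h6 : ∫⁻ x, (Metric.closedBall (0 : E) R).indicator
        (fun x => ENNReal.ofReal (‖x‖ ^ (-(2 * s)))) (R • x) =
        ∫⁻ x, (Metric.closedBall (0 : E) R).indicator
        (fun x => ENNReal.ofReal (‖x‖ ^ (-(2 * s)))) x ∂(Measure.map (R • ·) (volume : Measure E)) := by
      rw [lintegral_map _ (measurable_const_smul R)]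
      exact Measurable.indicator (by fun_prop) measurableSet_closedBall
    rw [h6, h5, lintegral_smul_measure, lintegral_indicator measurableSet_closedBall, smul_eq_mul,
      ← mul_assoc, ← ENNReal.ofReal_mul (by positivity), abs_of_pos (by positivity),
      mul_inv_cancel₀ (by positivity), ENNReal.ofReal_one, one_mul]
  rw [h4]
  have h7 : ∀ x : E, (Metric.closedBall (0 : E) R).indicator
        (fun x => ENNReal.ofReal (‖x‖ ^ (-(2 * s)))) (R • x) =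
      ENNReal.ofReal (R ^ (-(2 * s))) * (Metric.closedBall (0 : E) 1).indicator
        (fun x => ENNReal.ofReal (‖x‖ ^ (-(2 * s)))) x := by
    intro x
    have h8 : R • x ∈ Metric.closedBall (0 : E) R ↔ x ∈ Metric.closedBall (0 : E) 1 := by
      rw [mem_closedBall_zero_iff, mem_closedBall_zero_iff, norm_smul, Real.norm_of_nonneg hR.le]
      constructor
      · intro h9
        by_contra h10
        push Not at h10
        nlinarith
      · intro h9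
        nlinarith
    by_cases hx : x ∈ Metric.closedBall (0 : E) 1
    · rw [indicator_of_mem (h8.2 hx), indicator_of_mem hx, ← ENNReal.ofReal_mul (by positivity),
        norm_smul, Real.norm_of_nonneg hR.le, Real.mul_rpow hR.le (norm_nonneg x)]
    · rw [indicator_of_notMem (fun h9 => hx (h8.1 h9)), indicator_of_notMem hx, mul_zero]
  simp only [h7]
  rw [lintegral_const_mul _ (Measurable.indicator (by fun_prop) measurableSet_closedBall),
    lintegral_indicator measurableSet_closedBall, ← hI, ← mul_assoc,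
    ← ENNReal.ofReal_mul (by positivity)]
  apply le_of_eq
  rw [mul_comm I.toReal, ENNReal.ofReal_mul (p := R ^ (3 - 2 * s)) (by positivity),
    ENNReal.ofReal_toReal hIf.ne]
  congr 2
  rw [← Real.rpow_natCast, ← Real.rpow_add hR]
  congr 1

theorem tri_small_core {s t r δ' R : ℝ}
    (hμ : ∀ R > 0, ∫⁻ x in Metric.closedBall (0 : E) R, ENNReal.ofReal (‖x‖ ^ (-(2 * s))) ≤
        ENNReal.ofReal (δ' * R ^ (3 - 2 * s)))
    (hsum : s + t + r = 3 / 2) (hR : 0 < R) (D : Set E) (hD : MeasurableSet D) (y : E → E)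
    (hy : ∀ x ∈ D ∩ Metric.closedBall 0 R, R / 2 ≤ ‖y x‖ ∧ ‖y x‖ ≤ 2 * R) (G : E → ENNReal)
    (hG : ∀ x, G x ≤ (D ∩ Metric.closedBall 0 R).indicator (fun x => ENNReal.ofReal (‖x‖ ^ (-s)) *
      ENNReal.ofReal (‖y x‖ ^ (-t)) * ENNReal.ofReal (R ^ (-r))) x) :
    ∫⁻ x, G x ^ 2 ≤ ENNReal.ofReal (2 ^ (2 * |t|) * δ') := by
  have hB : MeasurableSet (D ∩ Metric.closedBall (0 : E) R) := hD.inter measurableSet_closedBall
  have h1 : ∀ x, G x ^ 2 ≤ (D ∩ Metric.closedBall 0 R).indicator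
      (fun x => ENNReal.ofReal (2 ^ (2 * |t|) * R ^ (-(2 * t)) * R ^ (-(2 * r))) *
        ENNReal.ofReal (‖x‖ ^ (-(2 * s)))) x := by
    intro x
    have hGx := hG x
    by_cases hx : x ∈ D ∩ Metric.closedBall 0 R
    · rw [indicator_of_mem hx] at hGx ⊢
      obtain ⟨y1, y2⟩ := hy x hx
      calc G x ^ 2 ≤ (ENNReal.ofReal (‖x‖ ^ (-s)) * ENNReal.ofReal (‖y x‖ ^ (-t)) *
            ENNReal.ofReal (R ^ (-r))) ^ 2 := by gcongr
        _ = ENNReal.ofReal (((‖x‖ ^ (-s)) * (‖y x‖ ^ (-t)) * (R ^ (-r))) ^ 2) := by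
            rw [← ENNReal.ofReal_mul (by positivity), ← ENNReal.ofReal_mul (by positivity),
              ENNReal.ofReal_pow (by positivity)]
        _ ≤ ENNReal.ofReal ((2 ^ (2 * |t|) * R ^ (-(2 * t)) * R ^ (-(2 * r))) * (‖x‖ ^ (-(2 * s)))) := by
            apply ENNReal.ofReal_le_ofReal
            have e1 : (‖x‖ ^ (-s)) ^ 2 = ‖x‖ ^ (-(2 * s)) := by
              rw [← Real.rpow_natCast, ← Real.rpow_mul (norm_nonneg x)]
              congr 1
              push_cast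
              ring
            have e2 : (R ^ (-r)) ^ 2 = R ^ (-(2 * r)) := by
              rw [← Real.rpow_natCast, ← Real.rpow_mul hR.le]
              congr 1
              push_cast
              ring
            rw [mul_pow, mul_pow, e1, e2]
            have e3 := tri_small_pw (t := t) hR y1 y2
            calc ‖x‖ ^ (-(2 * s)) * (‖y x‖ ^ (-t)) ^ 2 * R ^ (-(2 * r))
                ≤ ‖x‖ ^ (-(2 * s)) * (2 ^ (2 * |t|) * R ^ (-(2 * t))) * R ^ (-(2 * r)) := by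
                  gcongr
              _ = _ := by ring
        _ = _ := ENNReal.ofReal_mul (by positivity)
    · rw [indicator_of_notMem hx] at hGx ⊢
      rw [nonpos_iff_eq_zero.1 hGx]
      simp
  calc ∫⁻ x, G x ^ 2
      ≤ ∫⁻ x, (D ∩ Metric.closedBall 0 R).indicator
        (fun x => ENNReal.ofReal (2 ^ (2 * |t|) * R ^ (-(2 * t)) * R ^ (-(2 * r))) *
          ENNReal.ofReal (‖x‖ ^ (-(2 * s)))) x := lintegral_mono h1
    _ = ENNReal.ofReal (2 ^ (2 * |t|) * R ^ (-(2 * t)) * R ^ (-(2 * r))) *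
        ∫⁻ x in D ∩ Metric.closedBall 0 R, ENNReal.ofReal (‖x‖ ^ (-(2 * s))) := by
        rw [lintegral_indicator hB, lintegral_const_mul _ (by fun_prop)]
    _ ≤ ENNReal.ofReal (2 ^ (2 * |t|) * R ^ (-(2 * t)) * R ^ (-(2 * r))) *
        ENNReal.ofReal (δ' * R ^ (3 - 2 * s)) := by
        gcongr
        exact (lintegral_mono_set inter_subset_right).trans (hμ R hR)
    _ = ENNReal.ofReal (2 ^ (2 * |t|) * δ') := by
        rw [← ENNReal.ofReal_mul (by positivity)]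
        congr 1
        have e : R ^ (-(2 * t)) * R ^ (-(2 * r)) * R ^ (3 - 2 * s) = 1 := by
          rw [← Real.rpow_add hR, ← Real.rpow_add hR]
          have : -(2 * t) + -(2 * r) + (3 - 2 * s) = 0 := by linarith
          rw [this, Real.rpow_zero]
        calc 2 ^ (2 * |t|) * R ^ (-(2 * t)) * R ^ (-(2 * r)) * (δ' * R ^ (3 - 2 * s))
            = 2 ^ (2 * |t|) * δ' * (R ^ (-(2 * t)) * R ^ (-(2 * r)) * R ^ (3 - 2 * s)) := by ring
          _ = _ := by rw [e, mul_one]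

end JTA

open JTA

/-- TARGET -/
theorem tri_bd {a b c : ℝ} (ha : a < 3 / 2) (hb : b < 3 / 2) (hc : c < 3 / 2)
    (h : a + b + c = 3 / 2) : ∃ C : ℝ, 0 ≤ C ∧
    ∀ φ₁ φ₂ φ₃ : E → ENNReal, Measurable φ₁ → Measurable φ₂ → Measurable φ₃ →
      ∫⁻ η : E, ∫⁻ k : E,
        ((ENNReal.ofReal (‖k - η‖ ^ (-a)) * φ₁ (k - η)) * (ENNReal.ofReal (‖η‖ ^ (-b)) * φ₂ η)
          * (ENNReal.ofReal (‖k‖ ^ (-c)) * φ₃ k))
      ≤ ENNReal.ofReal C * (∫⁻ x, φ₁ x ^ 2) ^ (1 / 2 : ℝ) * (∫⁻ x, φ₂ x ^ 2) ^ (1 / 2 : ℝ)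
          * (∫⁻ x, φ₃ x ^ 2) ^ (1 / 2 : ℝ) := by
  obtain ⟨Ba, hBa0, hBa⟩ := ball_bd (s := a) ha
  obtain ⟨Bb, hBb0, hBb⟩ := ball_bd (s := b) hb
  obtain ⟨Bc, hBc0, hBc⟩ := ball_bd (s := c) hc
  -- the constants
  set K : ℝ := 2 ^ (2 * |a|) + 2 ^ (2 * |c|) with hK
  have hK0 : 0 < K := by positivity
  set δ' : ℝ := Ba + Bb + Bc with hδ'
  have hδ'0 : 0 ≤ δ' := by positivity
  have hμa : ∀ R > 0, ∫⁻ x in Metric.closedBall (0 : E) R, ENNReal.ofReal (‖x‖ ^ (-(2 * a))) ≤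
      ENNReal.ofReal (δ' * R ^ (3 - 2 * a)) := fun R hR => (hBa R hR).trans
    (ENNReal.ofReal_le_ofReal (mul_le_mul_of_nonneg_right (by linarith) (by positivity)))
  have hμb : ∀ R > 0, ∫⁻ x in Metric.closedBall (0 : E) R, ENNReal.ofReal (‖x‖ ^ (-(2 * b))) ≤
      ENNReal.ofReal (δ' * R ^ (3 - 2 * b)) := fun R hR => (hBb R hR).trans
    (ENNReal.ofReal_le_ofReal (mul_le_mul_of_nonneg_right (by linarith) (by positivity)))
  have hμc : ∀ R > 0, ∫⁻ x in Metric.closedBall (0 : E) R, ENNReal.ofReal (‖x‖ ^ (-(2 * c))) ≤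
      ENNReal.ofReal (δ' * R ^ (3 - 2 * c)) := fun R hR => (hBc R hR).trans
    (ENNReal.ofReal_le_ofReal (mul_le_mul_of_nonneg_right (by linarith) (by positivity)))
  refine ⟨3 * Real.sqrt (K * δ'), by positivity, ?_⟩
  intro φ₁ φ₂ φ₃ h1 h2 h3
  -- the weight
  let w : E × E → ENNReal := fun z => (ENNReal.ofReal (‖z.2 - z.1‖ ^ (-a)) * ENNReal.ofReal (‖z.1‖ ^ (-b)) *
      ENNReal.ofReal (‖z.2‖ ^ (-c)))
  have hw : Measurable w := by
    fun_prop
  let P1 : Set (E × E) := {z | ‖z.2 - z.1‖ ≤ ‖z.1‖} ∩ {z | ‖z.2 - z.1‖ ≤ ‖z.2‖}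
  let P2 : Set (E × E) := {z | ‖z.1‖ ≤ ‖z.2‖} ∩ {z | ‖z.1‖ ≤ ‖z.2 - z.1‖}
  let P3 : Set (E × E) := {z | ‖z.2‖ ≤ ‖z.1‖} ∩ {z | ‖z.2‖ ≤ ‖z.2 - z.1‖}
  have hP1 : MeasurableSet P1 :=
    (measurableSet_le (by fun_prop) (by fun_prop)).inter (measurableSet_le (by fun_prop) (by fun_prop))
  have hP2 : MeasurableSet P2 :=
    (measurableSet_le (by fun_prop) (by fun_prop)).inter (measurableSet_le (by fun_prop) (by fun_prop))
  have hP3 : MeasurableSet P3 :=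
    (measurableSet_le (by fun_prop) (by fun_prop)).inter (measurableSet_le (by fun_prop) (by fun_prop))
  have hcov : ∀ z, w z ≤ P1.indicator w z + P2.indicator w z + P3.indicator w z := by
    intro z
    have : z ∈ P1 ∨ z ∈ P2 ∨ z ∈ P3 := by
      have k1 : ‖z.2 - z.1‖ ≤ ‖z.1‖ → ‖z.2 - z.1‖ ≤ ‖z.2‖ → z ∈ P1 := fun h h' => ⟨h, h'⟩
      have k2 : ‖z.1‖ ≤ ‖z.2‖ → ‖z.1‖ ≤ ‖z.2 - z.1‖ → z ∈ P2 := fun h h' => ⟨h, h'⟩
      have k3 : ‖z.2‖ ≤ ‖z.1‖ → ‖z.2‖ ≤ ‖z.2 - z.1‖ → z ∈ P3 := fun h h' => ⟨h, h'⟩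
      rcases le_total ‖z.2 - z.1‖ ‖z.1‖ with q1 | q1 <;> rcases le_total ‖z.2 - z.1‖ ‖z.2‖ with q2 | q2 <;>
        rcases le_total ‖z.1‖ ‖z.2‖ with q3 | q3 <;>
        first
          | exact Or.inl (k1 (by linarith) (by linarith))
          | exact Or.inr (Or.inl (k2 (by linarith) (by linarith)))
          | exact Or.inr (Or.inr (k3 (by linarith) (by linarith)))
    rcases this with hz | hz | hz
    · rw [indicator_of_mem hz]
      exact le_add_right le_self_add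
    · rw [indicator_of_mem hz]
      exact le_add_right le_add_self
    · rw [indicator_of_mem hz]
      exact le_add_self
  have hne : ∀ᵐ x : E, x ≠ 0 := by
    rw [ae_iff]
    simp
  -- the three inner integrals
  have hgeo : ∀ x R' y : E, ‖x‖ ≤ ‖R'‖ → ‖x‖ ≤ ‖y‖ → (y = R' + x ∨ y = R' - x ∨ y = x - R') →
      ‖R'‖ / 2 ≤ ‖y‖ ∧ ‖y‖ ≤ 2 * ‖R'‖ := by
    intro x R' y q1 q2 q3
    rcases q3 with rfl | rfl | rfl
    · have k1 := norm_add_le R' x
      have k2 : ‖R'‖ ≤ ‖R' + x‖ + ‖x‖ := by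
        calc ‖R'‖ = ‖(R' + x) - x‖ := by rw [add_sub_cancel_right]
          _ ≤ _ := norm_sub_le _ _
      constructor <;> linarith
    · have k1 := norm_sub_le R' x
      have k2 : ‖R'‖ ≤ ‖R' - x‖ + ‖x‖ := by
        calc ‖R'‖ = ‖(R' - x) + x‖ := by rw [sub_add_cancel]
          _ ≤ _ := norm_add_le _ _
      constructor <;> linarith
    · have k1 := norm_sub_le x R'
      have k2 : ‖R'‖ ≤ ‖x - R'‖ + ‖x‖ := by
        calc ‖R'‖ = ‖x - (x - R')‖ := by rw [sub_sub_cancel]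
          _ ≤ ‖x‖ + ‖x - R'‖ := norm_sub_le _ _
          _ = _ := add_comm _ _
      constructor <;> linarith
  have hMa : (2 : ℝ) ^ (2 * |a|) * δ' ≤ K * δ' :=
    mul_le_mul_of_nonneg_right (le_add_of_nonneg_right (by positivity)) hδ'0
  have hMc : (2 : ℝ) ^ (2 * |c|) * δ' ≤ K * δ' :=
    mul_le_mul_of_nonneg_right (le_add_of_nonneg_left (by positivity)) hδ'0
  have I1 : ∀ᵐ η : E, ∫⁻ k : E, P1.indicator w (η, k) ^ 2 ≤ ENNReal.ofReal (K * δ') := by
    filter_upwards [hne] with η hη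
    have hR : 0 < ‖η‖ := norm_pos_iff.2 hη
    rw [← lintegral_add_left_eq_self _ η]
    refine (tri_small_core (s := a) (t := c) (r := b) hμa (by linarith) hR
      {p | ‖p‖ ≤ ‖η + p‖} ?_ (fun p => η + p) ?_ _ ?_).trans (ENNReal.ofReal_le_ofReal hMc)
    · exact measurableSet_le (by fun_prop) (by fun_prop)
    · rintro p ⟨q1, q2⟩
      rw [mem_closedBall_zero_iff] at q2
      exact hgeo p η _ q2 q1 (Or.inl rfl)
    · intro p
      by_cases hp : (η, η + p) ∈ P1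
      · rw [indicator_of_mem hp]
        have hp' : ‖p‖ ≤ ‖η‖ ∧ ‖p‖ ≤ ‖η + p‖ := by
          have hp2 : ‖(η + p) - η‖ ≤ ‖η‖ ∧ ‖(η + p) - η‖ ≤ ‖η + p‖ := ⟨hp.1, hp.2⟩
          rwa [add_sub_cancel_left] at hp2
        simp only [w, add_sub_cancel_left]
        have hmem : p ∈ {p | ‖p‖ ≤ ‖η + p‖} ∩ Metric.closedBall 0 ‖η‖ :=
            ⟨hp'.2, by rw [mem_closedBall_zero_iff]; exact hp'.1⟩
        rw [indicator_of_mem hmem]
        apply le_of_eq
        ring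
      · rw [indicator_of_notMem hp]
        exact zero_le
  have I3 : ∀ᵐ η : E, ∫⁻ k : E, P3.indicator w (η, k) ^ 2 ≤ ENNReal.ofReal (K * δ') := by
    filter_upwards [hne] with η hη
    have hR : 0 < ‖η‖ := norm_pos_iff.2 hη
    refine (tri_small_core (s := c) (t := a) (r := b) hμc (by linarith) hR
      {k | ‖k‖ ≤ ‖k - η‖} ?_ (fun k => k - η) ?_ _ ?_).trans (ENNReal.ofReal_le_ofReal hMa)
    · exact measurableSet_le (by fun_prop) (by fun_prop)
    · rintro k ⟨q1, q2⟩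
      rw [mem_closedBall_zero_iff] at q2
      exact hgeo k η _ q2 q1 (Or.inr (Or.inr rfl))
    · intro k
      by_cases hp : (η, k) ∈ P3
      · rw [indicator_of_mem hp]
        have hp' : ‖k‖ ≤ ‖η‖ ∧ ‖k‖ ≤ ‖k - η‖ := ⟨hp.1, hp.2⟩
        simp only [w]
        have hmem : k ∈ {k | ‖k‖ ≤ ‖k - η‖} ∩ Metric.closedBall 0 ‖η‖ :=
            ⟨hp'.2, by rw [mem_closedBall_zero_iff]; exact hp'.1⟩
        rw [indicator_of_mem hmem]
        apply le_of_eq
        ring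
      · rw [indicator_of_notMem hp]
        exact zero_le
  have I2 : ∀ᵐ k : E, ∫⁻ η : E, P2.indicator w (η, k) ^ 2 ≤ ENNReal.ofReal (K * δ') := by
    filter_upwards [hne] with k hk
    have hR : 0 < ‖k‖ := norm_pos_iff.2 hk
    refine (tri_small_core (s := b) (t := a) (r := c) hμb (by linarith) hR
      {η | ‖η‖ ≤ ‖k - η‖} ?_ (fun η => k - η) ?_ _ ?_).trans (ENNReal.ofReal_le_ofReal hMa)
    · exact measurableSet_le (by fun_prop) (by fun_prop)
    · rintro η ⟨q1, q2⟩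
      rw [mem_closedBall_zero_iff] at q2
      exact hgeo η k _ q2 q1 (Or.inr (Or.inl rfl))
    · intro η
      by_cases hp : (η, k) ∈ P2
      · rw [indicator_of_mem hp]
        have hp' : ‖η‖ ≤ ‖k‖ ∧ ‖η‖ ≤ ‖k - η‖ := ⟨hp.1, hp.2⟩
        simp only [w]
        have hmem : η ∈ {η | ‖η‖ ≤ ‖k - η‖} ∩ Metric.closedBall 0 ‖k‖ :=
            ⟨hp'.2, by rw [mem_closedBall_zero_iff]; exact hp'.1⟩
        rw [indicator_of_mem hmem]
        apply le_of_eq
        ring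
      · rw [indicator_of_notMem hp]
        exact zero_le
  -- conclusion
  have hφ : Measurable fun z : E × E => φ₁ (z.2 - z.1) * φ₂ z.1 * φ₃ z.2 := by fun_prop
  have J1 := tri_small_T1 h1 h2 h3 (hw.indicator hP1) I1
  have J3 := tri_small_T1 h1 h2 h3 (hw.indicator hP3) I3
  have J2 := tri_small_T2 h1 h2 h3 (hw.indicator hP2) I2
  set N : ENNReal := (∫⁻ x, φ₁ x ^ 2) ^ (1 / 2 : ℝ) * (∫⁻ x, φ₂ x ^ 2) ^ (1 / 2 : ℝ) *
        (∫⁻ x, φ₃ x ^ 2) ^ (1 / 2 : ℝ) with hN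
  have e0 : ∫⁻ η : E, ∫⁻ k : E, ((ENNReal.ofReal (‖k - η‖ ^ (-a)) * φ₁ (k - η)) * (ENNReal.ofReal (‖η‖ ^ (-b)) * φ₂ η)
          * (ENNReal.ofReal (‖k‖ ^ (-c)) * φ₃ k)) =
      ∫⁻ z, w z * (φ₁ (z.2 - z.1) * φ₂ z.1 * φ₃ z.2) ∂((volume : Measure E).prod (volume : Measure E)) := by
    have hwφ : Measurable fun z : E × E => w z * (φ₁ (z.2 - z.1) * φ₂ z.1 * φ₃ z.2) := hw.mul hφ
    rw [lintegral_prod _ hwφ.aemeasurable]
    congr 1
    ext η
    congr 1
    ext k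
    simp only [w]
    ring
  rw [e0]
  have hM : (ENNReal.ofReal (K * δ')) ^ (1 / 2 : ℝ) = ENNReal.ofReal (Real.sqrt (K * δ')) := by
    rw [ENNReal.ofReal_rpow_of_nonneg (by positivity) (by norm_num), ← Real.sqrt_eq_rpow]
  rw [hM] at J1 J2 J3
  calc ∫⁻ z, w z * (φ₁ (z.2 - z.1) * φ₂ z.1 * φ₃ z.2) ∂((volume : Measure E).prod (volume : Measure E))
      ≤ ∫⁻ z, (P1.indicator w z * (φ₁ (z.2 - z.1) * φ₂ z.1 * φ₃ z.2) +
          P2.indicator w z * (φ₁ (z.2 - z.1) * φ₂ z.1 * φ₃ z.2) +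
          P3.indicator w z * (φ₁ (z.2 - z.1) * φ₂ z.1 * φ₃ z.2))
          ∂((volume : Measure E).prod (volume : Measure E)) := by
        apply lintegral_mono
        intro z
        simp only
        rw [← add_mul, ← add_mul]
        exact mul_le_mul_left (hcov z) _
    _ = _ := by
        have m1 : Measurable fun z : E × E => P1.indicator w z * (φ₁ (z.2 - z.1) * φ₂ z.1 * φ₃ z.2) :=
          (hw.indicator hP1).mul hφ
        have m2 : Measurable fun z : E × E => P2.indicator w z * (φ₁ (z.2 - z.1) * φ₂ z.1 * φ₃ z.2) :=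
          (hw.indicator hP2).mul hφ
        have m3 : Measurable fun z : E × E => P1.indicator w z * (φ₁ (z.2 - z.1) * φ₂ z.1 * φ₃ z.2) +
          P2.indicator w z * (φ₁ (z.2 - z.1) * φ₂ z.1 * φ₃ z.2) := m1.add m2
        rw [lintegral_add_left m3, lintegral_add_left m1]
    _ ≤ ENNReal.ofReal (Real.sqrt (K * δ')) * N + ENNReal.ofReal (Real.sqrt (K * δ')) * N + ENNReal.ofReal (Real.sqrt (K * δ')) * N :=
        add_le_add (add_le_add J1 J2) J3
    _ = ENNReal.ofReal (3 * Real.sqrt (K * δ')) * N := by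
        rw [← add_mul, ← add_mul, ← ENNReal.ofReal_add (by positivity) (by positivity),
          ← ENNReal.ofReal_add (by positivity) (by positivity)]
        congr 2
        ring
    _ = _ := by
        rw [hN]
        ring

end H706N.JTA

namespace H706N

alias tri_bd := JTA.tri_bd

end H706N
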