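import Pool.Agent.Helper706_NS.Defs4
import Pool.Agent.Helper706_NS.A1
import Pool.Agent.Helper706_NS.H2
import Pool.Agent.Helper706_NS.TA

set_option autoImplicit false
open Set Filter Topology MeasureTheory
open scoped ComplexConjugate ContDiff

namespace H706N.JH3

namespace OpEst

theorem min_le_rpow_mul {x y θ : ℝ} (hx : 0 < x) (hy : 0 < y) (h0 : 0 ≤ θ) (h1 : θ ≤ 1) :
    min x y ≤ x ^ θ * y ^ (1 - θ) := by
  have hm : 0 < min x y := lt_min hx hy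
  calc min x y = (min x y) ^ θ * (min x y) ^ (1 - θ) := by
        rw [← Real.rpow_add hm]; simp
    _ ≤ x ^ θ * y ^ (1 - θ) := by
        apply mul_le_mul
        · exact Real.rpow_le_rpow hm.le (min_le_left _ _) h0
        · exact Real.rpow_le_rpow hm.le (min_le_right _ _) (by linarith)
        · positivity
        · positivity

theorem lint_sq {g : E → W} (hg : Adm g) {a : ℝ} (ha : -(3 / 2) < a) :
    (∫⁻ x : E, (ENNReal.ofReal (‖x‖ ^ a * ‖g x‖)) ^ 2) ^ (1 / 2 : ℝ) = ENNReal.ofReal (nrm a g) := by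
  have h1 : ∀ x : E, (ENNReal.ofReal (‖x‖ ^ a * ‖g x‖)) ^ 2
      = ENNReal.ofReal (‖x‖ ^ (2 * a) * ‖g x‖ ^ 2) := by
    intro x
    rw [← ENNReal.ofReal_pow (by positivity)]
    congr 1
    rw [mul_pow, mul_comm 2 a, Real.rpow_mul (norm_nonneg x)]
    norm_num
  simp_rw [h1]
  rw [← ofReal_integral_eq_lintegral_ofReal (hg.int_sq ha)
    (Filter.Eventually.of_forall fun x => by positivity)]
  unfold nrm
  rw [Real.sqrt_eq_rpow, ENNReal.ofReal_rpow_of_nonneg (integral_nonneg fun x => by positivity)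
    (by norm_num)]

end OpEst

/-- TARGET -/
theorem op_est {α β γ : ℝ} (h : α + β + γ = 5 / 2)
    (hα : -(3 / 2) < α) (hα' : α < 3 / 2) (hβ : β < 5 / 2) (hγ : γ < 5 / 2) : ∃ K : ℝ, 0 ≤ K ∧
    ∀ (M : E → E → W → W → W) (C : ℝ), Sym M → Bdd C M → ∀ f g h : E → W, Adm f → Adm g → Adm h →
      |pr (op M f g) h| ≤ K * C * nrm α f * nrm β g * nrm γ h := by
  have hβ' : -(3 / 2) < β := by linarith
  have hγ' : -(3 / 2) < γ := by linarith
  obtain ⟨θ, hθ0, hθ1, hθb, hθc⟩ : ∃ θ : ℝ, 0 ≤ θ ∧ θ ≤ 1 ∧ β - θ < 3 / 2 ∧ γ - 1 + θ < 3 / 2 := by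
    have hlt : max 0 (β - 3 / 2) < min 1 (5 / 2 - γ) := by
      apply max_lt <;> apply lt_min <;> linarith
    obtain ⟨θ, h1, h2⟩ := exists_between hlt
    have h3 := max_lt_iff.1 h1
    have h4 := lt_min_iff.1 h2
    exact ⟨θ, h3.1.le, h4.1.le, by linarith [h3.2], by linarith [h4.2]⟩
  obtain ⟨C₂, hC₂, H₂⟩ := tri_bd (a := α) (b := β - θ) (c := γ - 1 + θ) hα' hθb hθc
    (by linarith)
  refine ⟨C₂, hC₂, ?_⟩
  intro M C₁ hM hB f g h' hf hg hh
  have hC₁ : 0 ≤ C₁ := hB.1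
  have key := H₂
    (fun x => ENNReal.ofReal (‖x‖ ^ α * ‖f x‖)) (fun x => ENNReal.ofReal (‖x‖ ^ β * ‖g x‖))
    (fun x => ENNReal.ofReal (‖x‖ ^ γ * ‖h' x‖))
    (ENNReal.measurable_ofReal.comp ((measurable_norm.pow_const α).mul hf.meas.norm))
    (ENNReal.measurable_ofReal.comp ((measurable_norm.pow_const β).mul hg.meas.norm))
    (ENNReal.measurable_ofReal.comp ((measurable_norm.pow_const γ).mul hh.meas.norm))
  rw [OpEst.lint_sq hf hα, OpEst.lint_sq hg hβ', OpEst.lint_sq hh hγ'] at key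
  have hle : ENNReal.ofReal |pr (op M f g) h'| ≤
      ENNReal.ofReal C₁ * (ENNReal.ofReal C₂ * ENNReal.ofReal (nrm α f) *
        ENNReal.ofReal (nrm β g) * ENNReal.ofReal (nrm γ h')) := by
    refine (op_abs hM hB hf hg hh).trans (mul_le_mul' le_rfl (le_trans ?_ key))
    have hne : ∀ᵐ x : E, x ≠ 0 := by
      simp [ae_iff, measure_singleton]
    refine lintegral_mono_ae ?_
    filter_upwards [hne] with η hη
    refine lintegral_mono_ae ?_
    have hne' : ∀ᵐ x : E, x ≠ η := by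
      simp [ae_iff, measure_singleton]
    filter_upwards [hne, hne'] with k hk hkη
    have n1 : 0 < ‖k - η‖ := norm_pos_iff.2 (sub_ne_zero.2 hkη)
    have n2 : 0 < ‖η‖ := norm_pos_iff.2 hη
    have n3 : 0 < ‖k‖ := norm_pos_iff.2 hk
    rw [← ENNReal.ofReal_mul (by positivity), ← ENNReal.ofReal_mul (by positivity),
      ← ENNReal.ofReal_mul (by positivity), ← ENNReal.ofReal_mul (by positivity),
      ← ENNReal.ofReal_mul (by positivity)]
    apply ENNReal.ofReal_le_ofReal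
    have e1 : ‖k - η‖ ^ (-α) * (‖k - η‖ ^ α * ‖f (k - η)‖) = ‖f (k - η)‖ := by
      rw [← mul_assoc, ← Real.rpow_add n1]; simp
    have e2 : ‖η‖ ^ (-(β - θ)) * (‖η‖ ^ β * ‖g η‖) = ‖η‖ ^ θ * ‖g η‖ := by
      rw [← mul_assoc, ← Real.rpow_add n2]; congr 2; ring
    have e3 : ‖k‖ ^ (-(γ - 1 + θ)) * (‖k‖ ^ γ * ‖h' k‖) = ‖k‖ ^ (1 - θ) * ‖h' k‖ := by
      rw [← mul_assoc, ← Real.rpow_add n3]; congr 2; ring
    rw [e1, e2, e3]
    have e4 := OpEst.min_le_rpow_mul n2 n3 hθ0 hθ1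
    calc ‖f (k - η)‖ * ‖g η‖ * ‖h' k‖ * min ‖η‖ ‖k‖
        ≤ ‖f (k - η)‖ * ‖g η‖ * ‖h' k‖ * (‖η‖ ^ θ * ‖k‖ ^ (1 - θ)) :=
          mul_le_mul_of_nonneg_left e4 (by positivity)
      _ = ‖f (k - η)‖ * (‖η‖ ^ θ * ‖g η‖) * (‖k‖ ^ (1 - θ) * ‖h' k‖) := by ring
  have hn1 := nrm_nonneg α f
  have hn2 := nrm_nonneg β g
  have hn3 := nrm_nonneg γ h'
  rw [← ENNReal.ofReal_mul hC₂, ← ENNReal.ofReal_mul (by positivity),
    ← ENNReal.ofReal_mul (by positivity), ← ENNReal.ofReal_mul hC₁] at hle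
  have hfin := (ENNReal.ofReal_le_ofReal_iff (by positivity)).1 hle
  calc |pr (op M f g) h'| ≤ C₁ * (C₂ * nrm α f * nrm β g * nrm γ h') := hfin
    _ = C₂ * C₁ * nrm α f * nrm β g * nrm γ h' := by ring

end H706N.JH3

namespace H706N

alias op_est := JH3.op_est

end H706N
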