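import Pool.Agent.Helper706_NS.Defs4
import Pool.Agent.Helper706_NS.TC

set_option autoImplicit false
open Set Filter Topology MeasureTheory
open scoped ComplexConjugate ContDiff

namespace H706N.JH5

theorem so5_zero₁ {M : E → E → W → W → W} (hM : Sym M) (p q : E) (b : W) : M p q 0 b = 0 := by
  have h := hM.lin₁ p q 1 0 0 b
  rw [one_smul, one_smul, add_zero] at h
  exact left_eq_add.1 h

theorem so5_zero₂ {M : E → E → W → W → W} (hM : Sym M) (p q : E) (a : W) : M p q a 0 = 0 := by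
  have h := hM.lin₂ p q 1 a 0 0
  rw [one_smul, one_smul, add_zero] at h
  exact left_eq_add.1 h

theorem so5_smul₁ {M : E → E → W → W → W} (hM : Sym M) (p q : E) (c : ℂ) (a b : W) :
    M p q (c • a) b = c • M p q a b := by
  have h := hM.lin₁ p q c 0 a b
  rwa [zero_add, so5_zero₁ hM, zero_add] at h

theorem so5_smul₂ {M : E → E → W → W → W} (hM : Sym M) (p q : E) (c : ℂ) (a b : W) :
    M p q a (c • b) = c • M p q a b := by
  have h := hM.lin₂ p q c a 0 b
  rwa [zero_add, so5_zero₂ hM, zero_add] at h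

theorem so5_smul {M : E → E → W → W → W} (hM : Sym M) (p q : E) (c c' : ℂ) (a b : W) :
    M p q (c • a) (c' • b) = (c * c') • M p q a b := by
  rw [so5_smul₁ hM, so5_smul₂ hM, smul_smul]

theorem so5_neg {M : E → E → W → W → W} (hM : Sym M) (p q : E) (a b : W) :
    M p q (-a) (-b) = M p q a b := by
  have h := so5_smul hM p q (-1) (-1) a b
  rw [neg_one_smul, neg_one_smul] at h
  rw [h]
  norm_num

theorem so5_rz_rz (θ : ℝ) (k : E) : rz θ (rz (-θ) k) = k := by
  have h := Real.cos_sq_add_sin_sq θ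
  ext j
  fin_cases j
  · simp only [rz, PiLp.toLp_apply, Matrix.cons_val_zero, Matrix.cons_val_one, Matrix.cons_val,
      Real.cos_neg, Real.sin_neg, Fin.zero_eta, Fin.mk_one, Fin.reduceFinMk]
    linear_combination (k 0) * h
  · simp only [rz, PiLp.toLp_apply, Matrix.cons_val_zero, Matrix.cons_val_one, Matrix.cons_val,
      Real.cos_neg, Real.sin_neg, Fin.zero_eta, Fin.mk_one, Fin.reduceFinMk]
    linear_combination (k 1) * h
  · simp [rz]

theorem so5_rz_rz' (θ : ℝ) (k : E) : rz (-θ) (rz θ k) = k := by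
  have := so5_rz_rz (-θ) k
  rwa [neg_neg] at this

theorem so5_rz_sub (θ : ℝ) (k l : E) : rz θ (k - l) = rz θ k - rz θ l := by
  ext j
  fin_cases j <;> simp [rz] <;> ring

/-- the rotation as a linear isometry equivalence -/
noncomputable def so5_iso (θ : ℝ) : E ≃ₗᵢ[ℝ] E where
  toFun := rz θ
  invFun := rz (-θ)
  left_inv := so5_rz_rz' θ
  right_inv := so5_rz_rz θ
  map_add' := by
    intro k l
    ext j
    fin_cases j <;> simp [rz] <;> ring
  map_smul' := by
    intro r k
    ext j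
    fin_cases j <;> simp [rz] <;> ring
  norm_map' := rz_norm θ

theorem so5_rzW_rzW (θ : ℝ) (k : W) : rzW θ (rzW (-θ) k) = k := by
  have h : (Real.cos θ : ℂ) ^ 2 + (Real.sin θ : ℂ) ^ 2 = 1 := by
    have := Real.cos_sq_add_sin_sq θ
    exact_mod_cast this
  ext j
  fin_cases j
  · simp only [rzW, PiLp.toLp_apply, Matrix.cons_val_zero, Matrix.cons_val_one, Matrix.cons_val,
      Real.cos_neg, Real.sin_neg, Fin.zero_eta, Fin.mk_one, Fin.reduceFinMk, Complex.ofReal_neg]
    linear_combination (k 0) * h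
  · simp only [rzW, PiLp.toLp_apply, Matrix.cons_val_zero, Matrix.cons_val_one, Matrix.cons_val,
      Real.cos_neg, Real.sin_neg, Fin.zero_eta, Fin.mk_one, Fin.reduceFinMk, Complex.ofReal_neg]
    linear_combination (k 1) * h
  · simp [rzW]

theorem so5_rzW_rzW' (θ : ℝ) (k : W) : rzW (-θ) (rzW θ k) = k := by
  have := so5_rzW_rzW (-θ) k
  rwa [neg_neg] at this

/-- the complex rotation as a linear equivalence -/
noncomputable def so5_isoW (θ : ℝ) : W ≃ₗ[ℂ] W where
  toFun := rzW θ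
  invFun := rzW (-θ)
  left_inv := so5_rzW_rzW' θ
  right_inv := so5_rzW_rzW θ
  map_add' := by
    intro k l
    ext j
    fin_cases j <;> simp [rzW] <;> ring
  map_smul' := by
    intro r k
    ext j
    fin_cases j <;> simp [rzW] <;> ring

theorem so5_rzW_int (θ : ℝ) (f : E → W) : ∫ q, rzW θ (f q) = rzW θ (∫ q, f q) :=
  (so5_isoW θ).toContinuousLinearEquiv.integral_comp_comm f

/-- TARGET -/
theorem op_tr {M : E → E → W → W → W} (hM : Sym M) (g h : E → W) (a : E) :
    op M (tr a g) (tr a h) = tr a (op M g h) := by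
  funext k
  unfold op tr
  rw [← integral_smul]
  congr 1
  funext q
  rw [so5_smul hM]
  congr 1
  rw [← Complex.exp_add]
  congr 1
  rw [inner_sub_left]
  push_cast
  ring

/-- TARGET -/
theorem op_dil {M : E → E → W → W → W} (hS : Sym M) (hM : Inv M) (g h : E → W) {r : ℝ} (hr : 0 < r)
    (k : E) : op M (dil r g) (dil r h) k = op M g h (r⁻¹ • k) := by
  unfold op
  have key := Measure.integral_comp_smul (volume : Measure E)
    (fun q => M (k - q) q (dil r g (k - q)) (dil r h q)) r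
  rw [finrank_euclideanSpace, Fintype.card_fin] at key
  have h3 : |(r ^ 3)⁻¹| = (r ^ 3)⁻¹ := abs_of_pos (by positivity)
  rw [h3] at key
  have h4 : ∫ q, M (k - q) q (dil r g (k - q)) (dil r h q) =
      (r ^ 3 : ℝ) • ∫ q, M (k - r • q) (r • q) (dil r g (k - r • q)) (dil r h (r • q)) := by
    rw [key, smul_smul, mul_inv_cancel₀ (by positivity), one_smul]
  rw [h4, ← integral_smul]
  congr 1
  funext q
  have h5 : k - r • q = r • (r⁻¹ • k - q) := by
    rw [smul_sub, smul_smul, mul_inv_cancel₀ hr.ne', one_smul]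
  rw [h5, hM.hom r hr]
  unfold dil
  rw [smul_smul r⁻¹ r, smul_smul r⁻¹ r, inv_mul_cancel₀ hr.ne', one_smul, one_smul]
  have h6 : ∀ (x : ℝ) (v : W), x • v = (x : ℂ) • v := fun x v => by
    ext j
    simp
  rw [h6 ((r ^ 2)⁻¹) (g _), h6 ((r ^ 2)⁻¹) (h q), so5_smul hS, h6 r, h6 (r ^ 3), smul_smul, smul_smul]
  have hr' : (r : ℂ) ≠ 0 := by exact_mod_cast hr.ne'
  have h7 : ((r ^ 3 : ℝ) : ℂ) * (r : ℂ) * ((((r ^ 2)⁻¹ : ℝ) : ℂ) * (((r ^ 2)⁻¹ : ℝ) : ℂ)) = 1 := by
    push_cast
    field_simp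
  rw [← mul_assoc] at *
  first
    | rw [h7, one_smul]
    | (rw [show (((r ^ 3 : ℝ) : ℂ) * ((r : ℂ) * ((((r ^ 2)⁻¹ : ℝ) : ℂ) * (((r ^ 2)⁻¹ : ℝ) : ℂ)))) = 1 by
        push_cast; field_simp]; rw [one_smul])

/-- TARGET -/
theorem op_rot {M : E → E → W → W → W} (hM : Inv M) (g h : E → W) (θ : ℝ) :
    op M (rot θ g) (rot θ h) = rot θ (op M g h) := by
  funext k
  unfold op
  show _ = rzW θ (∫ q, M (rz (-θ) k - q) q (g (rz (-θ) k - q)) (h q))
  rw [← so5_rzW_int]
  have h1 := (so5_iso θ).measurePreserving.integral_comp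
    (so5_iso θ).toHomeomorph.measurableEmbedding
    (fun q => M (k - q) q (rot θ g (k - q)) (rot θ h q))
  rw [← h1]
  congr 1
  funext q
  have h2 : (so5_iso θ) q = rz θ q := rfl
  have h3 : k - rz θ q = rz θ (rz (-θ) k - q) := by
    rw [so5_rz_sub, so5_rz_rz]
  simp only [h2]
  rw [h3]
  unfold rot
  rw [so5_rz_rz', so5_rz_rz', hM.rot]

/-- TARGET -/
theorem op_par {M : E → E → W → W → W} (hS : Sym M) (hM : Inv M) (g h : E → W) :
    op M (par g) (par h) = par (op M g h) := by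
  funext k
  unfold op
  show _ = -(∫ q, M (-k - q) q (g (-k - q)) (h q))
  rw [← integral_neg_eq_self (fun q => M (-k - q) q (g (-k - q)) (h q)), ← integral_neg]
  congr 1
  funext q
  have h1 : -k - -q = -(k - q) := by abel
  simp only [h1]
  rw [hM.par, neg_neg]
  unfold par
  rw [so5_neg hS]

end H706N.JH5

namespace H706N

alias op_tr := JH5.op_tr
alias op_dil := JH5.op_dil
alias op_rot := JH5.op_rot
alias op_par := JH5.op_par

end H706N
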