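import Pool.Agent.Helper706_NS.Defs2

set_option autoImplicit false
open Set Filter Topology MeasureTheory
open scoped ComplexConjugate ContDiff

namespace H706N.JA4a

/-- TARGET -/
theorem ball_small {a : ℝ} (ha : a < 3) {δ : ℝ} (hδ : 0 < δ) : ∃ μ > 0, ∀ S : Set E,
    MeasurableSet S → ∀ R > 0, volume (S ∩ Metric.closedBall 0 R) ≤ ENNReal.ofReal (μ * R ^ 3) →
      ∫⁻ x in S ∩ Metric.closedBall 0 R, ENNReal.ofReal (‖x‖ ^ (-a)) ≤ ENNReal.ofReal (δ * R ^ (3 - a)) := by
  have hmf : Measurable (fun x : E => ENNReal.ofReal (‖x‖ ^ (-a))) :=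
    (measurable_norm.pow_const _).ennreal_ofReal
  have hfin : Module.finrank ℝ E = 3 := by simp [E]
  have hint : IntegrableOn (fun x : E => ‖x‖ ^ (-a)) (Metric.ball 0 2) volume := by
    refine integrableOn_ball_of_norm_le_rpow (C := 1) (α := a) ?_ ?_ ?_ ?_
    · rw [hfin]; norm_num
    · rw [hfin]; exact_mod_cast ha
    · refine Eventually.of_forall fun x => ?_
      rw [one_mul, Real.norm_eq_abs, abs_of_nonneg (Real.rpow_nonneg (norm_nonneg _) _)]
    · exact (measurable_norm.pow_const _).aestronglyMeasurable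
  have hint1 : IntegrableOn (fun x : E => ‖x‖ ^ (-a)) (Metric.closedBall 0 1) volume :=
    hint.mono_set (Metric.closedBall_subset_ball (by norm_num))
  have hlt : ∫⁻ x in Metric.closedBall (0 : E) 1, ENNReal.ofReal (‖x‖ ^ (-a)) ≠ ⊤ :=
    (Integrable.lintegral_lt_top hint1).ne
  have hδ0 : ENNReal.ofReal δ ≠ 0 := by
    rw [ne_eq, ENNReal.ofReal_eq_zero, not_le]; exact hδ
  obtain ⟨d, hd, hd2⟩ := exists_pos_setLIntegral_lt_of_measure_lt hlt hδ0
  obtain ⟨m, hm0, hm⟩ := ENNReal.lt_iff_exists_nnreal_btwn.1 hd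
  have hm0' : 0 < (m : ℝ) := by exact_mod_cast hm0
  refine ⟨(m : ℝ), hm0', fun S hS R hR hvol => ?_⟩
  have hA : MeasurableSet (S ∩ Metric.closedBall (0 : E) R) := hS.inter Metric.isClosed_closedBall.measurableSet
  have hmul : Measurable (fun y : E => R • y) := measurable_const_smul R
  have hT : MeasurableSet ((fun y : E => R • y) ⁻¹' (S ∩ Metric.closedBall (0 : E) R)) := hmul hA
  have hR3 : 0 < R ^ 3 := by positivity
  have hTsub : (fun y : E => R • y) ⁻¹' (S ∩ Metric.closedBall (0 : E) R) ⊆ Metric.closedBall (0 : E) 1 := by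
    intro y hy
    have h1 := hy.2
    rw [mem_closedBall_zero_iff, norm_smul, Real.norm_eq_abs, abs_of_pos hR] at h1
    rw [mem_closedBall_zero_iff]
    exact (mul_le_iff_le_one_right hR).1 h1
  have hvT : volume ((fun y : E => R • y) ⁻¹' (S ∩ Metric.closedBall (0 : E) R)) < d := by
    rw [Measure.addHaar_preimage_smul volume hR.ne', hfin, abs_of_pos (inv_pos.2 hR3)]
    refine (mul_le_mul_right hvol _).trans_lt ?_
    rw [← ENNReal.ofReal_mul (inv_pos.2 hR3).le]
    have h1 : (R ^ 3)⁻¹ * ((m : ℝ) * R ^ 3) = m := by field_simp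
    rw [h1, ENNReal.ofReal_coe_nnreal]
    exact hm
  have hmain : ∫⁻ y in (fun y : E => R • y) ⁻¹' (S ∩ Metric.closedBall (0 : E) R),
      ENNReal.ofReal (‖y‖ ^ (-a)) < ENNReal.ofReal δ := by
    have h1 := hd2 ((fun y : E => R • y) ⁻¹' (S ∩ Metric.closedBall (0 : E) R))
      ((Measure.restrict_apply_le _ _).trans_lt hvT)
    rwa [Measure.restrict_restrict hT, inter_eq_left.2 hTsub] at h1
  have hvolR : (volume : Measure E) = ENNReal.ofReal (R ^ 3) • Measure.map (fun y : E => R • y) volume := by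
    rw [Measure.map_addHaar_smul volume hR.ne', hfin, abs_of_pos (inv_pos.2 hR3), smul_smul,
      ← ENNReal.ofReal_mul hR3.le, mul_inv_cancel₀ hR3.ne', ENNReal.ofReal_one, one_smul]
  have hchange : ∫⁻ x in S ∩ Metric.closedBall 0 R, ENNReal.ofReal (‖x‖ ^ (-a))
      = ENNReal.ofReal (R ^ 3) * (ENNReal.ofReal (R ^ (-a)) *
        ∫⁻ y in (fun y : E => R • y) ⁻¹' (S ∩ Metric.closedBall (0 : E) R),
          ENNReal.ofReal (‖y‖ ^ (-a))) := by
    conv_lhs => rw [hvolR]
    rw [Measure.restrict_smul, lintegral_smul_measure, setLIntegral_map hA hmf hmul, smul_eq_mul]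
    congr 1
    rw [← lintegral_const_mul _ hmf]
    refine lintegral_congr fun y => ?_
    rw [norm_smul, Real.norm_eq_abs, abs_of_pos hR, Real.mul_rpow hR.le (norm_nonneg _),
      ENNReal.ofReal_mul (Real.rpow_nonneg hR.le _)]
  rw [hchange]
  refine (mul_le_mul_right (mul_le_mul_right hmain.le _) _).trans ?_
  rw [← ENNReal.ofReal_mul (Real.rpow_nonneg hR.le _), ← ENNReal.ofReal_mul hR3.le]
  apply ENNReal.ofReal_le_ofReal
  apply le_of_eq
  rw [Real.rpow_sub hR, Real.rpow_neg hR.le, div_eq_mul_inv]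
  have : R ^ (3 : ℝ) = R ^ 3 := by exact_mod_cast Real.rpow_natCast R 3
  rw [this]
  ring

end H706N.JA4a

namespace H706N

alias ball_small := JA4a.ball_small

end H706N
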