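import Pool.Agent.Helper706_NS.Defs4
import Pool.Agent.Helper706_NS.A1
import Pool.Agent.Helper706_NS.A2
import Pool.Agent.Helper706_NS.A4b
import Pool.Agent.Helper706_NS.HV1
import Pool.Agent.Helper706_NS.H6
import Pool.Agent.Helper706_NS.H7
import Pool.Agent.Helper706_NS.H1

set_option autoImplicit false
open Set Filter Topology MeasureTheory
open scoped ComplexConjugate ContDiff

namespace H706N.JH8

theorem h8_meas {ζ : E → E → ℝ} (hζ : Wt ζ) {f g h : E → W} (hf : Adm f) (hg : Adm g)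
    (hh : Adm h) : Measurable fun z : E × E =>
      ENNReal.ofReal (ζ (z.2 - z.1) z.1 * (‖f (z.2 - z.1)‖ * ‖g z.1‖ * ‖h z.2‖ *
        min ‖z.1‖ ‖z.2‖)) := by
  apply ENNReal.measurable_ofReal.comp
  have h1 : Measurable fun z : E × E => z.2 - z.1 := measurable_snd.sub measurable_fst
  have h2 : Measurable fun z : E × E => ζ (z.2 - z.1) z.1 :=
    hζ.meas.comp (h1.prodMk measurable_fst)
  exact h2.mul ((((hf.meas.comp h1).norm.mul (hg.meas.comp measurable_fst).norm).mul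
    (hh.meas.comp measurable_snd).norm).mul
    ((measurable_norm.comp measurable_fst).min (measurable_norm.comp measurable_snd)))

theorem h8_pt {ζ : E → E → ℝ} (h0 : ∀ p q, 0 ≤ ζ p q) {f : E → W} (hf : Adm f) (g : E → W)
    (k q : E) : ‖nls ζ (k - q) q (f (k - q)) (g q)‖ ≤
      ζ (k - q) q * (‖f (k - q)‖ * ‖g q‖ * min ‖q‖ ‖k‖) := by
  unfold nls
  rw [sub_add_cancel]
  refine (lp_norm _ _).trans ?_
  rw [norm_smul, norm_mul, norm_mul, Complex.norm_I, one_mul, Complex.norm_real,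
    Real.norm_eq_abs, abs_of_nonneg (h0 _ _)]
  have h1 : ‖kd q (f (k - q))‖ ≤ ‖q‖ * ‖f (k - q)‖ := kd_norm _ _
  have h2 : kd q (f (k - q)) = kd k (f (k - q)) := by
    have := hf.divf (k - q)
    unfold kd at this ⊢
    have e : ∑ j, ((k - q) j : ℂ) * f (k - q) j =
        ∑ j, (k j : ℂ) * f (k - q) j - ∑ j, (q j : ℂ) * f (k - q) j := by
      rw [← Finset.sum_sub_distrib]
      apply Finset.sum_congr rfl
      intro j _
      rw [PiLp.sub_apply]
      push_cast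
      ring
    rw [e] at this
    exact (sub_eq_zero.1 this).symm
  have h3 : ‖kd q (f (k - q))‖ ≤ ‖k‖ * ‖f (k - q)‖ := by rw [h2]; exact kd_norm _ _
  have h4 : ‖kd q (f (k - q))‖ ≤ min ‖q‖ ‖k‖ * ‖f (k - q)‖ := by
    rcases le_total ‖q‖ ‖k‖ with h | h
    · rw [min_eq_left h]; exact h1
    · rw [min_eq_right h]; exact h3
  calc ζ (k - q) q * ‖kd q (f (k - q))‖ * ‖g q‖
      ≤ ζ (k - q) q * (min ‖q‖ ‖k‖ * ‖f (k - q)‖) * ‖g q‖ :=
        mul_le_mul_of_nonneg_right (mul_le_mul_of_nonneg_left h4 (h0 _ _)) (norm_nonneg _)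
    _ = ζ (k - q) q * (‖f (k - q)‖ * ‖g q‖ * min ‖q‖ ‖k‖) := by ring

/-- TARGET -/
theorem nls_absw {ζ : E → E → ℝ} (hζ : Wt ζ) (h0 : ∀ p q, 0 ≤ ζ p q) {f g h : E → W} (hf : Adm f)
    (hg : Adm g) (hh : Adm h) :
    ENNReal.ofReal |pr (op (nls ζ) f g) h| ≤ ∫⁻ η : E, ∫⁻ k : E,
      ENNReal.ofReal (ζ (k - η) η * (‖f (k - η)‖ * ‖g η‖ * ‖h k‖ * min ‖η‖ ‖k‖)) := by
  rw [lintegral_lintegral_swap (h8_meas hζ hf hg hh).aemeasurable]
  unfold pr
  rw [← Real.norm_eq_abs, ofReal_norm]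
  refine (enorm_integral_le_lintegral_enorm _).trans (lintegral_mono fun k => ?_)
  show ‖(inner ℂ (op (nls ζ) f g k) (h k)).re‖ₑ ≤ _
  rw [← ofReal_norm]
  have h1 : ‖(inner ℂ (op (nls ζ) f g k) (h k)).re‖ ≤ ‖op (nls ζ) f g k‖ * ‖h k‖ := by
    refine (Complex.abs_re_le_norm _).trans ?_
    exact norm_inner_le_norm _ _
  refine (ENNReal.ofReal_le_ofReal h1).trans ?_
  rw [ENNReal.ofReal_mul (norm_nonneg _), ofReal_norm]
  have h2 : ‖op (nls ζ) f g k‖ₑ ≤ ∫⁻ q : E,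
      ENNReal.ofReal (ζ (k - q) q * (‖f (k - q)‖ * ‖g q‖ * min ‖q‖ ‖k‖)) := by
    unfold op
    refine (enorm_integral_le_lintegral_enorm _).trans (lintegral_mono fun q => ?_)
    show ‖nls ζ (k - q) q (f (k - q)) (g q)‖ₑ ≤ _
    rw [← ofReal_norm]
    exact ENNReal.ofReal_le_ofReal (h8_pt h0 hf g k q)
  refine (mul_le_mul_left h2 _).trans ?_
  rw [← lintegral_mul_const' _ _ ENNReal.ofReal_ne_top]
  apply lintegral_mono
  intro q
  show ENNReal.ofReal (ζ (k - q) q * (‖f (k - q)‖ * ‖g q‖ * min ‖q‖ ‖k‖)) *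
    ENNReal.ofReal ‖h k‖ ≤ _
  rw [← ENNReal.ofReal_mul' (norm_nonneg _)]
  apply ENNReal.ofReal_le_ofReal
  apply le_of_eq
  ring

theorem h8_min_le {x y θ : ℝ} (hx : 0 < x) (hy : 0 < y) (h0 : 0 ≤ θ) (h1 : θ ≤ 1) :
    min x y ≤ x ^ θ * y ^ (1 - θ) := by
  have hm : 0 < min x y := lt_min hx hy
  calc min x y = (min x y) ^ θ * (min x y) ^ (1 - θ) := by
        rw [← Real.rpow_add hm]; simp
    _ ≤ x ^ θ * y ^ (1 - θ) := by
        apply mul_le_mul
        · exact Real.rpow_le_rpow hm.le (min_le_left _ _) h0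
        · exact Real.rpow_le_rpow hm.le (min_le_right _ _) (by linarith)
        · positivity
        · positivity

theorem h8_lint_sq {g : E → W} (hg : Adm g) {a : ℝ} (ha : -(3 / 2) < a) :
    (∫⁻ x : E, (ENNReal.ofReal (‖x‖ ^ a * ‖g x‖)) ^ 2) ^ (1 / 2 : ℝ) = ENNReal.ofReal (nrm a g) := by
  have h1 : ∀ x : E, (ENNReal.ofReal (‖x‖ ^ a * ‖g x‖)) ^ 2
      = ENNReal.ofReal (‖x‖ ^ (2 * a) * ‖g x‖ ^ 2) := by
    intro x
    rw [← ENNReal.ofReal_pow (by positivity)]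
    congr 1
    rw [mul_pow, mul_comm 2 a, Real.rpow_mul (norm_nonneg x)]
    norm_num
  simp_rw [h1]
  rw [← ofReal_integral_eq_lintegral_ofReal (hg.int_sq ha)
    (Filter.Eventually.of_forall fun x => by positivity)]
  unfold nrm
  rw [Real.sqrt_eq_rpow, ENNReal.ofReal_rpow_of_nonneg (integral_nonneg fun x => by positivity)
    (by norm_num)]

theorem h8_band_meas (c : ℝ) : MeasurableSet (band c) := by
  apply IsClosed.measurableSet
  unfold band
  apply isClosed_le <;> fun_prop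

theorem h8_band_vol {c R : ℝ} (hc : 0 < c) (hR : 0 < R) :
    volume (band c ∩ Metric.closedBall 0 R) ≤ ENNReal.ofReal (8 * c * R ^ 3) := by
  have hsub : band c ∩ Metric.closedBall 0 R ⊆
      (WithLp.ofLp : E → Fin 3 → ℝ) ⁻¹' (Set.pi univ fun i : Fin 3 =>
        Icc (-(![R, R, c * R] i)) (![R, R, c * R] i)) := by
    rintro k ⟨hk, hkR⟩
    simp only [band, Set.mem_ofPred_eq] at hk
    have h1 : ‖k‖ ≤ R := by simpa using hkR
    have h2 : ‖k‖ ^ 2 = k 0 ^ 2 + k 1 ^ 2 + k 2 ^ 2 := by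
      rw [EuclideanSpace.norm_sq_eq]
      simp [Fin.sum_univ_three]
    have h3 : ‖k‖ ^ 2 ≤ R ^ 2 := pow_le_pow_left₀ (norm_nonneg _) h1 2
    have h0R : k 0 ^ 2 ≤ R ^ 2 := by nlinarith [sq_nonneg (k 1), sq_nonneg (k 2)]
    have h1R : k 1 ^ 2 ≤ R ^ 2 := by nlinarith [sq_nonneg (k 0), sq_nonneg (k 2)]
    have h2R : k 2 ^ 2 ≤ (c * R) ^ 2 := by
      rw [mul_pow]
      exact hk.trans (mul_le_mul_of_nonneg_left h3 (sq_nonneg c))
    have hcR : 0 ≤ c * R := by positivity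
    have a0 := abs_le_of_sq_le_sq' h0R hR.le
    have a1 := abs_le_of_sq_le_sq' h1R hR.le
    have a2 := abs_le_of_sq_le_sq' h2R hcR
    simp only [Set.mem_preimage, Set.mem_pi, Set.mem_univ, true_implies]
    intro i
    fin_cases i
    · simpa using a0
    · simpa using a1
    · simpa using a2
  refine (measure_mono hsub).trans ?_
  rw [(PiLp.volume_preserving_ofLp (Fin 3)).measure_preimage
    (MeasurableSet.univ_pi fun i => measurableSet_Icc).nullMeasurableSet]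
  rw [MeasureTheory.volume_pi_pi]
  simp only [Real.volume_Icc, Fin.prod_univ_three]
  rw [← ENNReal.ofReal_mul (by simp; positivity), ← ENNReal.ofReal_mul (by simp; positivity)]
  apply ENNReal.ofReal_le_ofReal
  simp
  nlinarith

theorem h8_term {A B Γ s₁ s₂ s₃ : ℝ} (hA : -(3 / 2) < A) (hB : -(3 / 2) < B) (hΓ : -(3 / 2) < Γ)
    (ha : A - s₁ < 3 / 2) (hb : B - s₂ < 3 / 2) (hc : Γ - s₃ < 3 / 2)
    (hs : (A - s₁) + (B - s₂) + (Γ - s₃) = 3 / 2) {δ : ℝ} (hδ : 0 < δ) :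
    ∃ c₀ > 0, ∀ c ∈ Ioc 0 c₀, ∀ f g h : E → W, Adm f → Adm g → Adm h → ∀ w : E → E → ℝ,
      (∀ η k : E, 0 < ‖k - η‖ → 0 < ‖η‖ → 0 < ‖k‖ →
        w η k ≤ ‖k - η‖ ^ s₁ * ‖η‖ ^ s₂ * ‖k‖ ^ s₃) →
      ∫⁻ η : E, ∫⁻ k : E, ENNReal.ofReal (bi c (k - η) * (‖f (k - η)‖ * ‖g η‖ * ‖h k‖ * w η k)) ≤
        ENNReal.ofReal (δ * nrm A f * nrm B g * nrm Γ h) := by
  obtain ⟨μ, hμ, H⟩ := tri_small (a := A - s₁) (b := B - s₂) (c := Γ - s₃) ha hb hc hs hδ
  refine ⟨μ / 8, by positivity, ?_⟩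
  rintro c ⟨hc0, hc⟩ f g h' hf hg hh w hw
  have hc2 : 8 * c ≤ μ := by linarith
  have key := H (band c) (h8_band_meas c) (fun R hR => (h8_band_vol hc0 hR).trans
    (ENNReal.ofReal_le_ofReal (mul_le_mul_of_nonneg_right hc2 (by positivity))))
    (fun x => ENNReal.ofReal (‖x‖ ^ A * ‖f x‖)) (fun x => ENNReal.ofReal (‖x‖ ^ B * ‖g x‖))
    (fun x => ENNReal.ofReal (‖x‖ ^ Γ * ‖h' x‖))
    (ENNReal.measurable_ofReal.comp ((measurable_norm.pow_const A).mul hf.meas.norm))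
    (ENNReal.measurable_ofReal.comp ((measurable_norm.pow_const B).mul hg.meas.norm))
    (ENNReal.measurable_ofReal.comp ((measurable_norm.pow_const Γ).mul hh.meas.norm))
  rw [h8_lint_sq hf hA, h8_lint_sq hg hB, h8_lint_sq hh hΓ] at key
  have hn1 := nrm_nonneg A f
  have hn2 := nrm_nonneg B g
  have hn3 := nrm_nonneg Γ h'
  rw [← ENNReal.ofReal_mul hδ.le, ← ENNReal.ofReal_mul (by positivity),
    ← ENNReal.ofReal_mul (by positivity)] at key
  refine le_trans ?_ key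
  have hne : ∀ᵐ x : E, x ≠ 0 := by
    simp [ae_iff, measure_singleton]
  refine lintegral_mono_ae ?_
  filter_upwards [hne] with η hη
  refine lintegral_mono_ae ?_
  have hne' : ∀ᵐ x : E, x ≠ η := by
    simp [ae_iff, measure_singleton]
  filter_upwards [hne, hne'] with k hk hkη
  by_cases hc : k - η ∈ band c
  · have n1 : 0 < ‖k - η‖ := norm_pos_iff.2 (sub_ne_zero.2 hkη)
    have n2 : 0 < ‖η‖ := norm_pos_iff.2 hη
    have n3 : 0 < ‖k‖ := norm_pos_iff.2 hk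
    unfold bi
    rw [Set.indicator_of_mem hc, Set.indicator_of_mem hc, Pi.one_apply, one_mul, one_mul]
    rw [← ENNReal.ofReal_mul (by positivity), ← ENNReal.ofReal_mul (by positivity),
      ← ENNReal.ofReal_mul (by positivity), ← ENNReal.ofReal_mul (by positivity),
      ← ENNReal.ofReal_mul (by positivity)]
    apply ENNReal.ofReal_le_ofReal
    have e1 : ‖k - η‖ ^ (-(A - s₁)) * (‖k - η‖ ^ A * ‖f (k - η)‖) =
        ‖k - η‖ ^ s₁ * ‖f (k - η)‖ := by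
      rw [← mul_assoc, ← Real.rpow_add n1]; congr 2; ring
    have e2 : ‖η‖ ^ (-(B - s₂)) * (‖η‖ ^ B * ‖g η‖) = ‖η‖ ^ s₂ * ‖g η‖ := by
      rw [← mul_assoc, ← Real.rpow_add n2]; congr 2; ring
    have e3 : ‖k‖ ^ (-(Γ - s₃)) * (‖k‖ ^ Γ * ‖h' k‖) = ‖k‖ ^ s₃ * ‖h' k‖ := by
      rw [← mul_assoc, ← Real.rpow_add n3]; congr 2; ring
    rw [e1, e2, e3]
    calc ‖f (k - η)‖ * ‖g η‖ * ‖h' k‖ * w η k
        ≤ ‖f (k - η)‖ * ‖g η‖ * ‖h' k‖ * (‖k - η‖ ^ s₁ * ‖η‖ ^ s₂ * ‖k‖ ^ s₃) :=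
          mul_le_mul_of_nonneg_left (hw η k n1 n2 n3) (by positivity)
      _ = ‖k - η‖ ^ s₁ * ‖f (k - η)‖ * (‖η‖ ^ s₂ * ‖g η‖) * (‖k‖ ^ s₃ * ‖h' k‖) := by ring
  · unfold bi
    rw [Set.indicator_of_notMem hc]
    simp

theorem h8_bi_meas (c : ℝ) : Measurable (bi c) := by
  unfold bi
  exact measurable_const.indicator (h8_band_meas c)

theorem h8_bi_nonneg (c : ℝ) (k : E) : 0 ≤ bi c k := by
  unfold bi
  exact Set.indicator_nonneg (fun _ _ => zero_le_one) _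

/-- TARGET -/
theorem op_nls_small {α β γ : ℝ} (h : α + β + γ = 5 / 2) (hα : -(3 / 2) < α) (hα' : α < 3 / 2)
    (hβ : β < 5 / 2) (hγ : γ < 5 / 2) {δ : ℝ} (hδ : 0 < δ) : ∃ c₀ > 0, ∀ c ∈ Ioc 0 c₀,
    ∀ f g h : E → W, Adm f → Adm g → Adm h →
      |pr (op (nls (zt c)) f g) h| ≤ δ * nrm α f * nrm β g * nrm γ h := by
  have hβ' : -(3 / 2) < β := by linarith
  have hγ' : -(3 / 2) < γ := by linarith
  obtain ⟨θ, hθ0, hθ1, hθb, hθc⟩ : ∃ θ : ℝ, 0 ≤ θ ∧ θ ≤ 1 ∧ β - θ < 3 / 2 ∧ γ - 1 + θ < 3 / 2 := by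
    have hlt : max 0 (β - 3 / 2) < min 1 (5 / 2 - γ) := by
      apply max_lt <;> apply lt_min <;> linarith
    obtain ⟨θ, h1, h2⟩ := exists_between hlt
    have h3 := max_lt_iff.1 h1
    have h4 := lt_min_iff.1 h2
    exact ⟨θ, h3.1.le, h4.1.le, by linarith [h3.2], by linarith [h4.2]⟩
  obtain ⟨c₁, hc₁, H₁⟩ := h8_term (A := α) (B := β) (Γ := γ) (s₁ := 0) (s₂ := θ) (s₃ := 1 - θ)
    hα hβ' hγ' (by linarith) hθb (by linarith) (by linarith) (half_pos hδ)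
  obtain ⟨c₂, hc₂, H₂⟩ := h8_term (A := β) (B := α) (Γ := γ) (s₁ := θ) (s₂ := 0) (s₃ := 1 - θ)
    hβ' hα hγ' hθb (by linarith) (by linarith) (by linarith) (half_pos hδ)
  refine ⟨min c₁ c₂, lt_min hc₁ hc₂, ?_⟩
  rintro c ⟨hc0, hc⟩ f g h' hf hg hh
  have k1 := H₁ c ⟨hc0, hc.trans (min_le_left _ _)⟩ f g h' hf hg hh (fun η k => min ‖η‖ ‖k‖)
    (by
      intro η k _ n2 n3
      rw [Real.rpow_zero, one_mul]
      exact h8_min_le n2 n3 hθ0 hθ1)
  have k2 := H₂ c ⟨hc0, hc.trans (min_le_right _ _)⟩ g f h' hg hf hh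
    (fun η k => min ‖k - η‖ ‖k‖)
    (by
      intro η k n1 _ n3
      rw [Real.rpow_zero, mul_one]
      exact h8_min_le n1 n3 hθ0 hθ1)
  -- measurability
  have hsub : Measurable fun z : E × E => z.2 - z.1 := measurable_snd.sub measurable_fst
  have m0 : Measurable fun z : E × E => ‖f (z.2 - z.1)‖ * ‖g z.1‖ * ‖h' z.2‖ * min ‖z.1‖ ‖z.2‖ :=
    (((hf.meas.comp hsub).norm.mul (hg.meas.comp measurable_fst).norm).mul
      (hh.meas.comp measurable_snd).norm).mul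
      ((measurable_norm.comp measurable_fst).min (measurable_norm.comp measurable_snd))
  have m1 : Measurable fun z : E × E => ENNReal.ofReal (bi c (z.2 - z.1) *
      (‖f (z.2 - z.1)‖ * ‖g z.1‖ * ‖h' z.2‖ * min ‖z.1‖ ‖z.2‖)) :=
    ENNReal.measurable_ofReal.comp (((h8_bi_meas c).comp hsub).mul m0)
  have m2 : Measurable fun z : E × E => ENNReal.ofReal (bi c z.1 *
      (‖f (z.2 - z.1)‖ * ‖g z.1‖ * ‖h' z.2‖ * min ‖z.1‖ ‖z.2‖)) :=
    ENNReal.measurable_ofReal.comp (((h8_bi_meas c).comp measurable_fst).mul m0)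
  have m3 : Measurable fun z : E × E => ENNReal.ofReal (bi c (z.2 - z.1) *
      (‖g (z.2 - z.1)‖ * ‖f z.1‖ * ‖h' z.2‖ * min ‖z.2 - z.1‖ ‖z.2‖)) := by
    apply ENNReal.measurable_ofReal.comp
    exact ((h8_bi_meas c).comp hsub).mul
      ((((hg.meas.comp hsub).norm.mul (hf.meas.comp measurable_fst).norm).mul
        (hh.meas.comp measurable_snd).norm).mul
        ((measurable_norm.comp hsub).min (measurable_norm.comp measurable_snd)))
  -- the second term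
  have e2 : ∫⁻ η : E, ∫⁻ k : E, ENNReal.ofReal (bi c η *
      (‖f (k - η)‖ * ‖g η‖ * ‖h' k‖ * min ‖η‖ ‖k‖)) =
      ∫⁻ η : E, ∫⁻ k : E, ENNReal.ofReal (bi c (k - η) *
        (‖g (k - η)‖ * ‖f η‖ * ‖h' k‖ * min ‖k - η‖ ‖k‖)) := by
    refine (lintegral_lintegral_swap m2.aemeasurable).trans
      (Eq.trans ?_ (lintegral_lintegral_swap m3.aemeasurable).symm)
    apply lintegral_congr
    intro k
    have := lintegral_sub_left_eq_self (μ := (volume : Measure E)) (fun η : E =>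
      ENNReal.ofReal (bi c η * (‖f (k - η)‖ * ‖g η‖ * ‖h' k‖ * min ‖η‖ ‖k‖))) k
    rw [← this]
    apply lintegral_congr
    intro η
    rw [sub_sub_cancel]
    congr 1
    ring
  have hn1 := nrm_nonneg α f
  have hn2 := nrm_nonneg β g
  have hn3 := nrm_nonneg γ h'
  have hle : ENNReal.ofReal |pr (op (nls (zt c)) f g) h'| ≤
      ENNReal.ofReal (δ * nrm α f * nrm β g * nrm γ h') := by
    refine (nls_absw (zt_wt c) (fun p q => (zt_le c p q).1) hf hg hh).trans ?_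
    calc ∫⁻ η : E, ∫⁻ k : E, ENNReal.ofReal (zt c (k - η) η *
          (‖f (k - η)‖ * ‖g η‖ * ‖h' k‖ * min ‖η‖ ‖k‖))
        ≤ ∫⁻ η : E, ∫⁻ k : E, (ENNReal.ofReal (bi c (k - η) *
            (‖f (k - η)‖ * ‖g η‖ * ‖h' k‖ * min ‖η‖ ‖k‖)) +
            ENNReal.ofReal (bi c η * (‖f (k - η)‖ * ‖g η‖ * ‖h' k‖ * min ‖η‖ ‖k‖))) := by
          apply lintegral_mono
          intro η
          apply lintegral_mono
          intro k
          have hX : 0 ≤ ‖f (k - η)‖ * ‖g η‖ * ‖h' k‖ * min ‖η‖ ‖k‖ := by positivity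
          show ENNReal.ofReal _ ≤ ENNReal.ofReal _ + ENNReal.ofReal _
          rw [← ENNReal.ofReal_add (mul_nonneg (h8_bi_nonneg _ _) hX)
            (mul_nonneg (h8_bi_nonneg _ _) hX), ← add_mul]
          exact ENNReal.ofReal_le_ofReal (mul_le_mul_of_nonneg_right (zt_le c _ _).2 hX)
      _ = ∫⁻ η : E, ((∫⁻ k : E, ENNReal.ofReal (bi c (k - η) *
            (‖f (k - η)‖ * ‖g η‖ * ‖h' k‖ * min ‖η‖ ‖k‖))) +
            ∫⁻ k : E, ENNReal.ofReal (bi c η * (‖f (k - η)‖ * ‖g η‖ * ‖h' k‖ * min ‖η‖ ‖k‖))) := by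
          apply lintegral_congr
          intro η
          exact lintegral_add_left (m1.comp (measurable_const.prodMk measurable_id)) _
      _ = (∫⁻ η : E, ∫⁻ k : E, ENNReal.ofReal (bi c (k - η) *
            (‖f (k - η)‖ * ‖g η‖ * ‖h' k‖ * min ‖η‖ ‖k‖))) +
            ∫⁻ η : E, ∫⁻ k : E, ENNReal.ofReal (bi c η *
              (‖f (k - η)‖ * ‖g η‖ * ‖h' k‖ * min ‖η‖ ‖k‖)) := by
          exact lintegral_add_left m1.lintegral_prod_right' _
      _ ≤ ENNReal.ofReal (δ / 2 * nrm α f * nrm β g * nrm γ h') +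
            ENNReal.ofReal (δ / 2 * nrm β g * nrm α f * nrm γ h') := by
          rw [e2]
          exact add_le_add k1 k2
      _ = ENNReal.ofReal (δ * nrm α f * nrm β g * nrm γ h') := by
          rw [← ENNReal.ofReal_add (by positivity) (by positivity)]
          congr 1
          ring
  exact (ENNReal.ofReal_le_ofReal_iff (by positivity)).1 hle

end H706N.JH8

namespace H706N

alias nls_absw := JH8.nls_absw
alias op_nls_small := JH8.op_nls_small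

end H706N
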