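import Pool.Agent.Helper706_NS.Defs3
import Pool.Agent.Helper706_NS.TC

set_option autoImplicit false
open Set Filter Topology MeasureTheory
open scoped ComplexConjugate ContDiff

namespace H706N.JTP

theorem tp_kd_smul (k : E) (c : ℂ) (w : W) : kd k (c • w) = c * kd k w := by
  unfold kd
  rw [Finset.mul_sum]
  apply Finset.sum_congr rfl
  intro j _
  rw [PiLp.smul_apply, smul_eq_mul]
  ring

theorem tp_real_smul (A : ℝ) (w : W) : A • w = (A : ℂ) • w := by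
  ext j
  rw [PiLp.smul_apply, PiLp.smul_apply, smul_eq_mul, Complex.real_smul]

theorem tp_prf (η A : ℝ) (k : E) :
    (A • prf η) k = ((A : ℂ) * (Complex.I * (wf η k : ℂ))) • toW (vt k) := by
  rw [Pi.smul_apply, tp_real_smul]
  unfold prf
  rw [smul_smul]

theorem tp_norm_sq (k : E) : ‖k‖ ^ 2 = k 0 ^ 2 + k 1 ^ 2 + k 2 ^ 2 := by
  rw [EuclideanSpace.norm_sq_eq, Fin.sum_univ_three]
  simp only [Real.norm_eq_abs, sq_abs]

theorem tp_wf_zero {η : ℝ} (hη : 0 < η) (hη1 : η < 1) {p : E} (hp : ¬ p 0 ^ 2 + p 1 ^ 2 ≠ 0) :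
    wf η p = 0 := by
  have h0 : p 0 ^ 2 + p 1 ^ 2 = 0 := not_not.1 hp
  have h1 := tp_norm_sq p
  rw [h0, zero_add] at h1
  have : ee η p = 0 := by
    unfold ee
    apply Real.sqrt_eq_zero_of_nonpos
    rw [h1]
    have : η ^ 2 ≤ 1 := by nlinarith
    nlinarith [sq_nonneg (p 2)]
  unfold wf
  rw [this, mul_zero]

theorem tp_kd {η : ℝ} (hη : 0 < η) (hη1 : η < 1) (A : ℝ) (p : E) :
    kd (vt p) ((A • prf η) p) = (A : ℂ) * (Complex.I * (wf η p : ℂ)) := by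
  rw [tp_prf, tp_kd_smul, kd_vt_toW]
  by_cases hp : p 0 ^ 2 + p 1 ^ 2 ≠ 0
  · rw [vt_unit hp]; simp
  · rw [tp_wf_zero hη hη1 hp]; simp

/-- TARGET -/
theorem bm_prof (m : E → E → ℝ) {η : ℝ} (hη : 0 < η) (hη1 : η < 1) (A : ℝ) (k : E) :
    bm m (A • prf η) (A • prf η) k
      = (-(A ^ 2 * ∫ q, m (k - q) q * (wf η (k - q) * wf η q))) • (Complex.I • toW (vt k)) := by
  unfold bm
  have e : ∀ q, (m (k - q) q : ℂ) * (kd (vt (k - q)) ((A • prf η) (k - q)) *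
      kd (vt q) ((A • prf η) q)) =
      ((-(A ^ 2) * (m (k - q) q * (wf η (k - q) * wf η q)) : ℝ) : ℂ) := by
    intro q
    rw [tp_kd hη hη1, tp_kd hη hη1]
    push_cast
    have := Complex.I_mul_I
    linear_combination ((m (k - q) q : ℂ) * (A : ℂ) ^ 2 * (wf η (k - q) : ℂ) * (wf η q : ℂ)) * this
  simp only [e]
  rw [integral_complex_ofReal, integral_const_mul, tp_real_smul, smul_smul]
  congr 1
  push_cast
  ring

theorem tp_ee_le {η : ℝ} (hη : 0 < η) (k : E) : ee η k ≤ η * ‖k‖ := by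
  unfold ee
  apply Real.sqrt_le_iff.2
  refine ⟨by positivity, ?_⟩
  nlinarith [sq_nonneg (k 2)]

theorem tp_ee_neg (η : ℝ) (k : E) : ee η (-k) = ee η k := by
  unfold ee
  rw [norm_neg, PiLp.neg_apply, neg_sq]

theorem tp_wf_neg (η : ℝ) (k : E) : wf η (-k) = wf η k := by
  unfold wf
  rw [norm_neg, tp_ee_neg]

theorem tp_wf_nonneg (η : ℝ) (k : E) : 0 ≤ wf η k := by
  unfold wf ee
  positivity

theorem tp_norm_prf (η A : ℝ) (k : E) : ‖(A • prf η) k‖ ≤ |A| * wf η k := by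
  rw [tp_prf, norm_smul, norm_toW, norm_mul, norm_mul, Complex.norm_I, Complex.norm_real,
    Complex.norm_real, Real.norm_eq_abs, Real.norm_eq_abs, abs_of_nonneg (tp_wf_nonneg η k),
    one_mul]
  have h1 : 0 ≤ |A| * wf η k := mul_nonneg (abs_nonneg _) (tp_wf_nonneg η k)
  calc |A| * wf η k * ‖vt k‖ ≤ |A| * wf η k * 1 := mul_le_mul_of_nonneg_left (vt_norm k) h1
    _ = _ := mul_one _

theorem tp_toW_meas : Measurable toW := by
  unfold toW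
  apply (WithLp.measurable_toLp 2 (Fin 3 → ℂ)).comp
  apply measurable_pi_lambda
  intro j
  apply Complex.measurable_ofReal.comp
  have : Continuous fun k : E => k j := by fun_prop
  exact this.measurable

theorem tp_wf_cont (η : ℝ) : Continuous (wf η) := by
  unfold wf ee
  fun_prop

/-- TARGET -/
theorem adm_prf {η : ℝ} (hη : 0 < η) (hη1 : η < 1) (A : ℝ) : Adm (A • prf η) := by
  constructor
  · have e : (A • prf η) = fun k => ((A : ℂ) * (Complex.I * (wf η k : ℂ))) • toW (vt k) := by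
      funext k
      exact tp_prf η A k
    rw [e]
    refine Measurable.smul (f := fun k => ((A : ℂ) * (Complex.I * (wf η k : ℂ))))
      (g := fun k => toW (vt k)) ?_ ?_
    · exact (measurable_const.mul (measurable_const.mul
        (Complex.measurable_ofReal.comp (tp_wf_cont η).measurable)))
    · exact tp_toW_meas.comp vt_meas
  · intro n
    refine ⟨|A| * η * ((n + 3).factorial * Real.exp 1), fun k => ?_⟩
    have hx : 0 ≤ ‖k‖ := norm_nonneg k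
    have h1 : wf η k ≤ η * (‖k‖ ^ 3 * Real.exp (-‖k‖)) := by
      unfold wf
      have := tp_ee_le hη k
      have h2 : 0 ≤ ‖k‖ ^ 2 * Real.exp (-‖k‖) := by positivity
      calc ‖k‖ ^ 2 * Real.exp (-‖k‖) * ee η k ≤ ‖k‖ ^ 2 * Real.exp (-‖k‖) * (η * ‖k‖) :=
            mul_le_mul_of_nonneg_left this h2
        _ = _ := by ring
    have h2 : (1 + ‖k‖) ^ (n + 3) * Real.exp (-‖k‖) ≤ (n + 3).factorial * Real.exp 1 := by
      have h3 := Real.pow_div_factorial_le_exp (1 + ‖k‖) (by positivity) (n + 3)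
      have hf : (0 : ℝ) < (n + 3).factorial := by exact_mod_cast Nat.factorial_pos _
      rw [div_le_iff₀ hf] at h3
      calc (1 + ‖k‖) ^ (n + 3) * Real.exp (-‖k‖)
          ≤ (Real.exp (1 + ‖k‖) * (n + 3).factorial) * Real.exp (-‖k‖) :=
            mul_le_mul_of_nonneg_right h3 (Real.exp_pos _).le
        _ = (n + 3).factorial * (Real.exp (1 + ‖k‖) * Real.exp (-‖k‖)) := by ring
        _ = _ := by rw [← Real.exp_add]; congr 2; ring
    have h4 : ‖k‖ ^ 3 ≤ (1 + ‖k‖) ^ 3 := pow_le_pow_left₀ hx (by linarith) 3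
    calc (1 + ‖k‖) ^ n * ‖(A • prf η) k‖ ≤ (1 + ‖k‖) ^ n * (|A| * wf η k) :=
          mul_le_mul_of_nonneg_left (tp_norm_prf η A k) (by positivity)
      _ ≤ (1 + ‖k‖) ^ n * (|A| * (η * (‖k‖ ^ 3 * Real.exp (-‖k‖)))) := by
          apply mul_le_mul_of_nonneg_left _ (by positivity)
          exact mul_le_mul_of_nonneg_left h1 (abs_nonneg _)
      _ ≤ (1 + ‖k‖) ^ n * (|A| * (η * ((1 + ‖k‖) ^ 3 * Real.exp (-‖k‖)))) := by
          gcongr
      _ = |A| * η * ((1 + ‖k‖) ^ (n + 3) * Real.exp (-‖k‖)) := by ring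
      _ ≤ _ := by
          apply mul_le_mul_of_nonneg_left h2
          exact mul_nonneg (abs_nonneg _) hη.le
  · intro k j
    rw [tp_prf, tp_prf, tp_wf_neg, vt_neg, PiLp.smul_apply, PiLp.smul_apply, smul_eq_mul,
      smul_eq_mul, map_mul, map_mul, map_mul, Complex.conj_ofReal, Complex.conj_ofReal,
      Complex.conj_I]
    have e1 : toW (-vt k) j = -(toW (vt k) j) := by
      unfold toW
      simp
    have e2 : conj (toW (vt k) j) = toW (vt k) j := by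
      unfold toW
      simp
    rw [e1, e2]
    ring
  · intro k
    rw [tp_prf, tp_kd_smul, kd_vt, mul_zero]

/-- TARGET -/
theorem prf_cutb {η : ℝ} (hη : 0 < η) (A : ℝ) : cutb η (A • prf η) = A • prf η := by
  unfold cutb
  rw [Set.indicator_eq_self]
  intro k hk
  by_contra h
  apply hk
  have h' : η ^ 2 * ‖k‖ ^ 2 < k 2 ^ 2 := not_le.1 h
  have he : ee η k = 0 := by
    unfold ee
    apply Real.sqrt_eq_zero_of_nonpos
    linarith
  rw [tp_prf]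
  unfold wf
  rw [he]
  simp

theorem tp_ee_smul {r : ℝ} (hr : 0 < r) (η : ℝ) (k : E) : ee η (r • k) = r * ee η k := by
  unfold ee
  rw [norm_smul, PiLp.smul_apply, smul_eq_mul, Real.norm_eq_abs, abs_of_pos hr]
  have : η ^ 2 * (r * ‖k‖) ^ 2 - (r * k 2) ^ 2 = r ^ 2 * (η ^ 2 * ‖k‖ ^ 2 - k 2 ^ 2) := by ring
  rw [this, Real.sqrt_mul (sq_nonneg r), Real.sqrt_sq hr.le]

theorem tp_prf_smul {l : ℝ} (hl : 0 < l) (η c : ℝ) (k : E) : c • prf η (l⁻¹ • k) =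
    (c * ((l⁻¹) ^ 3 * Real.exp (-(l⁻¹ * ‖k‖)))) • ((Complex.I * ((‖k‖ ^ 2 * ee η k : ℝ) : ℂ)) •
      toW (vt k)) := by
  have hl' : 0 < l⁻¹ := inv_pos.2 hl
  unfold prf wf
  rw [vt_smul hl', tp_ee_smul hl', norm_smul, Real.norm_eq_abs, abs_of_pos hl', tp_real_smul,
    tp_real_smul, smul_smul, smul_smul]
  congr 1
  push_cast
  ring

/-- TARGET -/
theorem prf_deriv (η : ℝ) {c l : ℝ → ℝ} {c' l' t : ℝ} (hc : HasDerivAt c c' t)
    (hl : HasDerivAt l l' t) (hl0 : 0 < l t) (k : E) :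
    HasDerivAt (fun s => c s • prf η ((l s)⁻¹ • k))
      ((c' + c t * l' * (l t)⁻¹ * (‖(l t)⁻¹ • k‖ - 3)) • prf η ((l t)⁻¹ • k)) t := by
  have hne : l t ≠ 0 := hl0.ne'
  have hi : HasDerivAt (fun s => (l s)⁻¹) (-l' / (l t) ^ 2) t := hl.inv hne
  have h1 : HasDerivAt (fun s => c s * (((l s)⁻¹) ^ 3 * Real.exp (-((l s)⁻¹ * ‖k‖))))
      ((c' + c t * l' * (l t)⁻¹ * ((l t)⁻¹ * ‖k‖ - 3)) *
        (((l t)⁻¹) ^ 3 * Real.exp (-((l t)⁻¹ * ‖k‖)))) t := by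
    have hE : HasDerivAt (fun s => Real.exp (-((l s)⁻¹ * ‖k‖)))
        (Real.exp (-((l t)⁻¹ * ‖k‖)) * -(-l' / (l t) ^ 2 * ‖k‖)) t := (hi.mul_const ‖k‖).neg.exp
    have hP : HasDerivAt (fun s => ((l s)⁻¹) ^ 3) (((3 : ℕ) : ℝ) * ((l t)⁻¹) ^ (3 - 1) *
        (-l' / (l t) ^ 2)) t := hi.pow 3
    have h2 : HasDerivAt (fun s => c s * (((l s)⁻¹) ^ 3 * Real.exp (-((l s)⁻¹ * ‖k‖))))
        (c' * (((l t)⁻¹) ^ 3 * Real.exp (-((l t)⁻¹ * ‖k‖))) +
          c t * ((((3 : ℕ) : ℝ) * ((l t)⁻¹) ^ (3 - 1) * (-l' / (l t) ^ 2)) *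
            Real.exp (-((l t)⁻¹ * ‖k‖)) +
            ((l t)⁻¹) ^ 3 * (Real.exp (-((l t)⁻¹ * ‖k‖)) * -(-l' / (l t) ^ 2 * ‖k‖)))) t :=
      hc.mul (hP.mul hE)
    refine h2.congr_deriv ?_
    generalize Real.exp (-((l t)⁻¹ * ‖k‖)) = X
    push_cast
    field_simp
    ring
  have h3 := h1.smul_const ((Complex.I * ((‖k‖ ^ 2 * ee η k : ℝ) : ℂ)) • toW (vt k))
  have hl1 : 0 < (l t)⁻¹ := inv_pos.2 hl0
  have e1 : (c' + c t * l' * (l t)⁻¹ * (‖(l t)⁻¹ • k‖ - 3)) • prf η ((l t)⁻¹ • k) =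
      ((c' + c t * l' * (l t)⁻¹ * ((l t)⁻¹ * ‖k‖ - 3)) *
        (((l t)⁻¹) ^ 3 * Real.exp (-((l t)⁻¹ * ‖k‖)))) •
        ((Complex.I * ((‖k‖ ^ 2 * ee η k : ℝ) : ℂ)) • toW (vt k)) := by
    rw [tp_prf_smul hl0, norm_smul, Real.norm_eq_abs, abs_of_pos hl1]
  rw [e1]
  refine h3.congr_of_eventuallyEq ?_
  have hev : ∀ᶠ s in 𝓝 t, 0 < l s := hl.continuousAt.eventually (lt_mem_nhds hl0)
  filter_upwards [hev] with s hs
  exact tp_prf_smul hs η (c s) k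

/-- TARGET -/
theorem dil_unif {g : E → W} (hg : Adm g) (n : ℕ) {a b : ℝ} (ha : 0 < a) (hab : a ≤ b) : ∃ C : ℝ,
    ∀ r ∈ Icc a b, ∀ k, (1 + ‖k‖) ^ n * ‖g (r⁻¹ • k)‖ ≤ C := by
  obtain ⟨C, hC⟩ := hg.dec n
  refine ⟨(1 + b) ^ n * C, ?_⟩
  intro r hr k
  have hr0 : 0 < r := lt_of_lt_of_le ha hr.1
  have hb : 0 < b := lt_of_lt_of_le ha hab
  have h1 : 1 + ‖k‖ ≤ (1 + b) * (1 + ‖r⁻¹ • k‖) := by
    have hk : ‖k‖ = r * ‖r⁻¹ • k‖ := by
      rw [norm_smul, Real.norm_eq_abs, abs_of_pos (inv_pos.2 hr0), ← mul_assoc,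
        mul_inv_cancel₀ hr0.ne', one_mul]
    have h0 := norm_nonneg (r⁻¹ • k)
    have h2 : r * ‖r⁻¹ • k‖ ≤ b * ‖r⁻¹ • k‖ := mul_le_mul_of_nonneg_right hr.2 h0
    nlinarith
  calc (1 + ‖k‖) ^ n * ‖g (r⁻¹ • k)‖
      ≤ ((1 + b) * (1 + ‖r⁻¹ • k‖)) ^ n * ‖g (r⁻¹ • k)‖ := by gcongr
    _ = (1 + b) ^ n * ((1 + ‖r⁻¹ • k‖) ^ n * ‖g (r⁻¹ • k)‖) := by rw [mul_pow]; ring
    _ ≤ (1 + b) ^ n * C := mul_le_mul_of_nonneg_left (hC _) (by positivity)

end H706N.JTP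

namespace H706N

alias bm_prof := JTP.bm_prof
alias adm_prf := JTP.adm_prf
alias prf_cutb := JTP.prf_cutb
alias prf_deriv := JTP.prf_deriv
alias dil_unif := JTP.dil_unif

end H706N
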