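import Pool.Agent.Helper706_NS.Main
import Pool.Agent.Helper706_NS.Defs4
import Pool.Agent.Helper706_NS.TP
import Pool.Agent.Helper706_NS.TC
import Pool.Agent.Helper706_NS.TA
import Pool.Agent.Helper706_NS.HV1
import Pool.Agent.Helper706_NS.HV2
import Pool.Agent.Helper706_NS.H1
import Pool.Agent.Helper706_NS.H2
import Pool.Agent.Helper706_NS.H3
import Pool.Agent.Helper706_NS.H4
import Pool.Agent.Helper706_NS.H5
import Pool.Agent.Helper706_NS.H6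
import Pool.Agent.Helper706_NS.H7
import Pool.Agent.Helper706_NS.H8
import Pool.Agent.Helper706_NS.H9
import Pool.Agent.Helper706_NS.H10
import Pool.Agent.Helper706_NS.H11
import Pool.Agent.Helper706_NS.H12
import Pool.Agent.Helper706_NS.H13
import Pool.Agent.Helper706_NS.H14
import Pool.Agent.Helper706_NS.H15
import Pool.Agent.Helper706_NS.H16
import Pool.Agent.Helper706_NS.H17
import Pool.Agent.Helper706_NS.H18
import Pool.Agent.Helper706_NS.H19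
import Pool.Agent.Helper706_NS.H20
import Pool.Agent.Helper706_NS.H21

/-!
Assembly: perturbations of the Navier-Stokes and Euler nonlinearities which conserve energy and helicity,
with self-similar blow-up.
-/

set_option autoImplicit false

open Set Filter Topology MeasureTheory
open scoped ComplexConjugate ContDiff

namespace H706N

/-! ### General facts on the operators -/

theorem good_op {M : E → E → W → W → W} {C : ℝ} (hM : Sym M) (hC : Bdd C M) : Good (op M) where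
  adm g h hg hh := adm_op hM hC hg hh
  lin₁ g g' h hg hg' hh r := op_lin₁ hM hC hg hg' hh r
  lin₂ g h h' hg hh hh' r := op_lin₂ hM hC hg hh hh' r
  skew g h hg hh := op_skew hM hC hg hh
  bdd n := by
    obtain ⟨K, hK⟩ := op_bdd hM hC n
    exact ⟨n + 5, K, fun g h hg hh C D hC hD => hK g h hg hh C D hC hD⟩
  diag := by
    obtain ⟨K, hK⟩ := op_diag hM hC
    refine ⟨5, K, fun g h hg hh D hD => ?_⟩
    have h1 := hK g g h hg hg hh D hD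
    calc |pr (op M g h) g| ≤ K * D * nrm 0 g * nrm 0 g := h1
      _ = K * D * nrm 0 g ^ 2 := by ring

/-- The sum of two symbols. -/
noncomputable def plus (M₁ M₂ : E → E → W → W → W) (θ : ℝ) (p q : E) (a b : W) : W :=
  M₁ p q a b + (θ : ℂ) • M₂ p q a b

theorem dt_add_left (a b c : W) : dt (a + b) c = dt a c + dt b c := by
  rw [dt_comm, dt_add, dt_comm c a, dt_comm c b]

theorem dt_smul_left (z : ℂ) (a b : W) : dt (z • a) b = z * dt a b := by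
  rw [dt_comm, dt_smul, dt_comm b a]

theorem sym_plus {M₁ M₂ : E → E → W → W → W} (h₁ : Sym M₁) (h₂ : Sym M₂) (θ : ℝ) :
    Sym (plus M₁ M₂ θ) where
  lin₁ p q c a a' b := by
    unfold plus
    rw [h₁.lin₁, h₂.lin₁, smul_add, smul_add, smul_comm (θ : ℂ) c]
    abel
  lin₂ p q c a b b' := by
    unfold plus
    rw [h₁.lin₂, h₂.lin₂, smul_add, smul_add, smul_comm (θ : ℂ) c]
    abel
  meas g h hg hh := (h₁.meas g h hg hh).add ((h₂.meas g h hg hh).const_smul (θ : ℂ))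
  herm p q a b := by
    unfold plus
    rw [h₁.herm, h₂.herm, cj_add, cj_smul, Complex.conj_ofReal]
  divf p q a b := by
    unfold plus
    rw [← dt_toW, dt_add, dt_smul, dt_toW, dt_toW, h₁.divf, h₂.divf, mul_zero, add_zero]
  skew p q a b c ha hb hc := by
    unfold plus
    rw [dt_add_left, dt_smul_left, h₁.skew p q a b c ha hb hc, h₂.skew p q a b c ha hb hc,
      dt_add_left, dt_smul_left, map_add, map_mul, Complex.conj_ofReal]
    ring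
  hel p q a b c ha hb hc := by
    have e1 := h₁.hel p q a b c ha hb hc
    have e2 := h₂.hel p q a b c ha hb hc
    unfold plus
    simp only [dt_add_left, dt_smul_left] at e1 e2 ⊢
    linear_combination e1 + (θ : ℂ) * e2

theorem bdd_plus {M₁ M₂ : E → E → W → W → W} {C₁ C₂ θ : ℝ} (h₁ : Bdd C₁ M₁) (h₂ : Bdd C₂ M₂)
    (hθ : 0 ≤ θ) : Bdd (C₁ + θ * C₂) (plus M₁ M₂ θ) := by
  refine ⟨add_nonneg h₁.1 (mul_nonneg hθ h₂.1), fun p q a b ha => ?_⟩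
  have e1 := h₁.2 p q a b ha
  have e2 := h₂.2 p q a b ha
  unfold plus
  calc ‖M₁ p q a b + (θ : ℂ) • M₂ p q a b‖ ≤ ‖M₁ p q a b‖ + ‖(θ : ℂ) • M₂ p q a b‖ := norm_add_le _ _
    _ = ‖M₁ p q a b‖ + θ * ‖M₂ p q a b‖ := by
      rw [norm_smul, Complex.norm_real, Real.norm_eq_abs, abs_of_nonneg hθ]
    _ ≤ C₁ * min ‖q‖ ‖p + q‖ * (‖a‖ * ‖b‖) + θ * (C₂ * min ‖q‖ ‖p + q‖ * (‖a‖ * ‖b‖)) := by
      gcongr
    _ = _ := by ring

theorem rzW_add (θ : ℝ) (a b : W) : rzW θ (a + b) = rzW θ a + rzW θ b := by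
  unfold rzW
  ext j
  fin_cases j <;> simp <;> ring

theorem rzW_smul (θ : ℝ) (c : ℂ) (a : W) : rzW θ (c • a) = c • rzW θ a := by
  unfold rzW
  ext j
  fin_cases j <;> simp <;> ring

theorem inv_plus {M₁ M₂ : E → E → W → W → W} (h₁ : Inv M₁) (h₂ : Inv M₂) (θ : ℝ) :
    Inv (plus M₁ M₂ θ) where
  hom r hr p q a b := by
    unfold plus
    rw [h₁.hom r hr, h₂.hom r hr, smul_add, smul_comm (θ : ℂ) r]
  rot φ p q a b := by
    unfold plus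
    rw [h₁.rot, h₂.rot, rzW_add, rzW_smul]
  par p q a b := by
    unfold plus
    rw [h₁.par, h₂.par, smul_neg, neg_add]

theorem op_plus {M₁ M₂ : E → E → W → W → W} {C₁ C₂ : ℝ} (h₁ : Sym M₁) (h₂ : Sym M₂)
    (b₁ : Bdd C₁ M₁) (b₂ : Bdd C₂ M₂) (θ : ℝ) {g h : E → W} (hg : Adm g) (hh : Adm h) :
    op (plus M₁ M₂ θ) g h = op M₁ g h + θ • op M₂ g h := by
  funext k
  unfold op plus
  have i2 : Integrable fun q => (θ : ℂ) • M₂ (k - q) q (g (k - q)) (h q) :=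
    (op_int h₂ b₂ hg hh k).smul (θ : ℂ)
  rw [integral_add (op_int h₁ b₁ hg hh k) i2, integral_smul]
  rfl

/-- The symbols of the perturbations. -/
noncomputable def MM (P : ℝ → ℝ → ℝ → ℝ) (η : ℝ) (n : ℕ) (θ : ℝ) : E → E → W → W → W :=
  plus (nls (zt η)) (hls P η n) θ

theorem nlsz_inv (η : ℝ) : Inv (nls (zt η)) :=
  nls_inv (zt_wt η) (fun _ hr p q => zt_hom η hr p q) (fun φ p q => zt_rz η φ p q)

theorem MM_sym {P : ℝ → ℝ → ℝ → ℝ} (hP : Pln P) {η : ℝ} (hη : 0 < η) (hη1 : η < 1) (n : ℕ) (θ : ℝ) :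
    Sym (MM P η n θ) := sym_plus (nls_sym (zt_wt η)) (hls_sym hP hη hη1 n) θ

theorem MM_inv {P : ℝ → ℝ → ℝ → ℝ} (hP : Pln P) (η : ℝ) (n : ℕ) (θ : ℝ) :
    Inv (MM P η n θ) := inv_plus (nlsz_inv η) (hls_inv hP η n) θ

theorem MM_supp (P : ℝ → ℝ → ℝ → ℝ) (η : ℝ) (n : ℕ) (θ : ℝ) (p q : E) (a b : W)
    (h : (p ∉ band η ∧ q ∉ band η) ∨ (p ∉ band η ∧ p + q ∉ band η) ∨ (q ∉ band η ∧ p + q ∉ band η)) :
    MM P η n θ p q a b = 0 := by
  unfold MM plus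
  rw [hls_supp P η n p q a b (by tauto)]
  unfold nls
  rw [zt_supp η p q h]
  simp [lp, kd]

theorem lp_zero (k : E) : lp k 0 = 0 := by
  simp [lp, kd]

/-- Existence of small coefficients. -/
theorem op_MM_small' {P : ℕ → ℝ → ℝ → ℝ → ℝ} (η θ : ℕ → ℝ) (n : ℕ → ℕ) (C : ℕ → ℝ)
    (hP : ∀ i, Sym (hls (P i) (η i) (n i)) ∧ Bdd (C i) (hls (P i) (η i) (n i)))
    (hη : ∀ i, 0 < η i) (hηt : Tendsto η atTop (𝓝 0)) (hθ : ∀ i, 0 ≤ θ i)
    (hθt : Tendsto (fun i => θ i * C i) atTop (𝓝 0)) {α β γ : ℝ} (h : α + β + γ = 5 / 2)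
    (hα : -(3 / 2) < α) (hα' : α < 3 / 2) (hβ : β < 5 / 2) (hγ : γ < 5 / 2) {δ : ℝ} (hδ : 0 < δ) :
    ∃ i₀, ∀ i ≥ i₀, ∀ f g h, Adm f → Adm g → Adm h →
      |pr (op (MM (P i) (η i) (n i) (θ i)) f g) h| ≤ δ * nrm α f * nrm β g * nrm γ h := by
  obtain ⟨c₀, hc₀, hsm⟩ := op_nls_small h hα hα' hβ hγ (half_pos hδ)
  obtain ⟨K, hK, hest⟩ := op_est h hα hα' hβ hγ
  have e1 : ∀ᶠ i in atTop, η i < c₀ := hηt.eventually_lt_const hc₀
  have e2 : ∀ᶠ i in atTop, θ i * C i < δ / (2 * (K + 1)) :=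
    hθt.eventually_lt_const (by positivity)
  obtain ⟨i₀, hi₀⟩ := eventually_atTop.1 (e1.and e2)
  refine ⟨i₀, fun i hi f g h hf hg hh => ?_⟩
  obtain ⟨h1, h2⟩ := hi₀ i hi
  set N := nrm α f * nrm β g * nrm γ h with hN
  have hN0 : 0 ≤ N := mul_nonneg (mul_nonneg (nrm_nonneg _ _) (nrm_nonneg _ _)) (nrm_nonneg _ _)
  have a1 := hsm (η i) ⟨hη i, h1.le⟩ f g h hf hg hh
  have a2 := hest _ _ (hP i).1 (hP i).2 f g h hf hg hh
  have s1 := nls_sym (zt_wt (η i))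
  have b1 := nls_bdd (zt_wt (η i))
  unfold MM
  rw [op_plus s1 (hP i).1 b1 (hP i).2 (θ i) hf hg,
    pr_add_left (adm_op s1 b1 hf hg) (adm_op (hP i).1 (hP i).2 hf hg) hh]
  have k1 : |pr (op (nls (zt (η i))) f g) h| ≤ δ / 2 * N := by rw [hN]; linarith [a1]
  have k2 : |pr (op (hls (P i) (η i) (n i)) f g) h| ≤ K * C i * N := by rw [hN]; linarith [a2]
  have hθi := hθ i
  calc |pr (op (nls (zt (η i))) f g) h + θ i * pr (op (hls (P i) (η i) (n i)) f g) h|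
      ≤ |pr (op (nls (zt (η i))) f g) h| + θ i * |pr (op (hls (P i) (η i) (n i)) f g) h| := by
        refine (abs_add_le _ _).trans ?_
        rw [abs_mul, abs_of_nonneg hθi]
    _ ≤ δ / 2 * N + θ i * (K * C i * N) := by gcongr
    _ = (δ / 2 + (θ i * C i) * K) * N := by ring
    _ ≤ δ * N := by
        refine mul_le_mul_of_nonneg_right ?_ hN0
        have : (θ i * C i) * K ≤ δ / 2 := by
          calc (θ i * C i) * K ≤ δ / (2 * (K + 1)) * K := by gcongr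
            _ ≤ δ / 2 := by
              rw [div_mul_eq_mul_div, div_le_div_iff₀ (by positivity) (by norm_num)]
              nlinarith [mul_nonneg hδ.le hK]
        linarith
    _ = δ * nrm α f * nrm β g * nrm γ h := by rw [hN]; ring

/-! ### The profile -/

theorem prn_eq (n : ℕ) (η : ℝ) (k : E) : prn n η k = (wfn n η k) • (Complex.I • toW (vt k)) := by
  unfold prn
  ext j
  simp [PiLp.smul_apply]
  ring

theorem op_prof_N (n : ℕ) : ∃ D > 0, ∀ {η : ℝ}, 0 < η → η < 1 → ∀ (A : ℝ) (k : E),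
    op (hls (PNn n) η n) (A • prn n η) (A • prn n η) k
      = (-(A ^ 2 * D * ((n + 5) ^ 2 * (2 * n + 9) - (n + 5) * (2 * n + 9) * ‖k‖ - ‖k‖ ^ 2))) •
        prn n η k := by
  obtain ⟨C, hC, hrad⟩ := rad_Nn n
  refine ⟨angc n / 2 * C, mul_pos (half_pos (angc_pos n)) hC, fun {η} hη hη1 A k => ?_⟩
  rw [op_hls_prof (pln_N n) n hη hη1, mug_prof (pln_N n) hη hη1, hrad, prn_eq, smul_smul]
  congr 1
  unfold wfn
  ring

theorem op_prof_E (n : ℕ) : ∃ D > 0, ∀ {η : ℝ}, 0 < η → η < 1 → ∀ (A : ℝ) (k : E),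
    op (hls (PEn n) η n) (A • prn n η) (A • prn n η) k
      = (-(A ^ 2 * D * (n + 9 / 2 - ‖k‖))) • prn n η k := by
  obtain ⟨C, hC, hrad⟩ := rad_En n
  refine ⟨angc n / 2 * C, mul_pos (half_pos (angc_pos n)) hC, fun {η} hη hη1 A k => ?_⟩
  rw [op_hls_prof (pln_E n) n hη hη1, mug_prof (pln_E n) hη hη1, hrad, prn_eq, smul_smul]
  congr 1
  unfold wfn
  ring

theorem adm_scaled {g : E → W} (hg : Adm g) {r : ℝ} (hr : 0 < r) (c : ℝ) :
    Adm (fun k => c • g (r⁻¹ • k)) where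
  meas := (hg.meas.comp (measurable_const_smul r⁻¹)).const_smul c
  dec n := by
    obtain ⟨C, hC⟩ := dil_unif hg n hr le_rfl
    refine ⟨|c| * C, fun k => ?_⟩
    have := hC r ⟨le_rfl, le_rfl⟩ k
    rw [norm_smul, Real.norm_eq_abs]
    calc (1 + ‖k‖) ^ n * (|c| * ‖g (r⁻¹ • k)‖) = |c| * ((1 + ‖k‖) ^ n * ‖g (r⁻¹ • k)‖) := by ring
      _ ≤ |c| * C := by gcongr
  herm k j := by
    have := hg.herm (r⁻¹ • k) j
    simp only [smul_neg, PiLp.smul_apply, this]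
    simp
  divf k := by
    have h1 := hg.divf (r⁻¹ • k)
    unfold kd at h1 ⊢
    have h2 : ∀ j, (k j : ℂ) * (c • g (r⁻¹ • k)) j
        = (c * r : ℝ) * ((((r⁻¹ • k) j : ℝ) : ℂ) * g (r⁻¹ • k) j) := by
      intro j
      have hr' : (r : ℂ) ≠ 0 := by exact_mod_cast hr.ne'
      simp only [PiLp.smul_apply, smul_eq_mul, Complex.real_smul]
      push_cast
      field_simp
    simp only [h2]
    rw [← Finset.mul_sum, h1, mul_zero]

theorem vel_smul' (A : ℝ) (g : E → W) (x : E) : vel (A • g) x = A • vel g x := by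
  ext i
  have e : ∀ g : E → W, vel g x i = (fl (fun k => g k i) x).re := fun _ => rfl
  rw [PiLp.smul_apply, e, e]
  unfold fl
  have : ∀ k, Complex.exp (((inner ℝ k x : ℝ) : ℂ) * Complex.I) * (A • g) k i
      = (A : ℂ) * (Complex.exp (((inner ℝ k x : ℝ) : ℂ) * Complex.I) * g k i) := by
    intro k
    simp only [Pi.smul_apply, PiLp.smul_apply, Complex.real_smul]
    ring
  simp only [this]
  rw [integral_const_mul, Complex.re_ofReal_mul, smul_eq_mul]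

theorem blow_form {v : ℝ → E → E} {a b T : ℝ} (ha : 0 < a) (hT : 0 < T)
    (hform : ∀ t ∈ Ico (0 : ℝ) T, ∀ x, v t x = (1 - t / T) ^ (-a) • v 0 ((1 - t / T) ^ (-b) • x))
    (hne : ∃ x, v 0 x ≠ 0) (M : ℝ) : ∃ t ∈ Ico (0 : ℝ) T, ∃ x, M < ‖v t x‖ := by
  obtain ⟨x₀, hx₀⟩ := hne
  have hn : 0 < ‖v 0 x₀‖ := norm_pos_iff.2 hx₀
  have h1 : Tendsto (fun s : ℝ => s ^ (-a) * ‖v 0 x₀‖) (𝓝[>] 0) atTop :=
    (tendsto_rpow_neg_nhdsGT_zero (neg_lt_zero.2 ha)).atTop_mul_const hn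
  have h2 : ∀ᶠ s : ℝ in 𝓝[>] 0, s < 1 := by
    filter_upwards [mem_nhdsWithin_of_mem_nhds (Iio_mem_nhds (zero_lt_one (α := ℝ)))] with s hs using hs
  obtain ⟨s, hs1, hs2, hs3⟩ := ((h1.eventually_gt_atTop M).and
    (h2.and self_mem_nhdsWithin)).exists
  have hs0 : 0 < s := hs3
  have hmem : T * (1 - s) ∈ Ico (0 : ℝ) T := ⟨by nlinarith, by nlinarith⟩
  have he : 1 - T * (1 - s) / T = s := by field_simp; ring
  refine ⟨T * (1 - s), hmem, (s ^ (-b))⁻¹ • x₀, ?_⟩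
  rw [hform _ hmem, he, smul_smul,
    mul_inv_cancel₀ (Real.rpow_pos_of_pos hs0 _).ne', one_smul, norm_smul, Real.norm_eq_abs,
    abs_of_pos (Real.rpow_pos_of_pos hs0 _)]
  exact hs1

/-! ### The self-similar solution of the perturbed Navier-Stokes equations -/

/-- The frequency scale at time `t`. -/
noncomputable def lamT (T t : ℝ) : ℝ := (Real.sqrt (1 - t / T))⁻¹

theorem one_sub_pos {T t : ℝ} (hT : 0 < T) (ht : t < T) : 0 < 1 - t / T := by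
  rw [sub_pos, div_lt_one hT]
  exact ht

theorem lamT_pos {T t : ℝ} (hT : 0 < T) (ht : t < T) : 0 < lamT T t :=
  inv_pos.2 (Real.sqrt_pos.2 (one_sub_pos hT ht))

theorem lamT_zero (T : ℝ) : lamT T 0 = 1 := by
  simp [lamT]

theorem lamT_deriv {T t κ : ℝ} (hT : 0 < T) (ht : t < T) (hκ : κ * (2 * T) = 1) :
    HasDerivAt (lamT T) (κ * lamT T t ^ 3) t := by
  have h0 := one_sub_pos hT ht
  have h1 : HasDerivAt (fun s : ℝ => 1 - s / T) (-(1 / T)) t := by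
    have := ((hasDerivAt_id t).div_const T).const_sub 1
    simpa using this
  have h3 := (h1.sqrt h0.ne').inv (Real.sqrt_pos.2 h0).ne'
  refine h3.congr_deriv ?_
  unfold lamT
  have hs : Real.sqrt (1 - t / T) ^ 2 = 1 - t / T := Real.sq_sqrt h0.le
  have hs0 : Real.sqrt (1 - t / T) ≠ 0 := (Real.sqrt_pos.2 h0).ne'
  have hκ' : κ = 1 / (2 * T) := by field_simp; linarith
  rw [hκ', inv_pow]
  field_simp

/-- The Fourier transform of the self-similar solution. -/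
noncomputable def uV (n : ℕ) (η A T t : ℝ) : E → W := dil (lamT T t) (A • prn n η)

theorem uV_zero (n : ℕ) (η A T : ℝ) : uV n η A T 0 = A • prn n η := by
  funext k
  unfold uV dil
  rw [lamT_zero]
  simp

theorem uV_apply (n : ℕ) (η A T t : ℝ) (k : E) :
    uV n η A T t k = (A * (lamT T t ^ 2)⁻¹) • prn n η ((lamT T t)⁻¹ • k) := by
  unfold uV dil
  rw [Pi.smul_apply, smul_smul, mul_comm]

theorem uV_adm (n : ℕ) {η A T t : ℝ} (hη : 0 < η) (hη1 : η < 1) (hT : 0 < T) (ht : t < T) :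
    Adm (uV n η A T t) :=
  adm_scaled (adm_prn n hη hη1 A) (lamT_pos hT ht) _

theorem band_smul {η r : ℝ} (hr : 0 < r) (k : E) : r • k ∈ band η ↔ k ∈ band η := by
  unfold band
  simp only [Set.mem_ofPred_eq, PiLp.smul_apply, smul_eq_mul, norm_smul, Real.norm_eq_abs, mul_pow,
    sq_abs]
  have : 0 < r ^ 2 := by positivity
  constructor
  · intro h
    have h2 : r ^ 2 * k 2 ^ 2 ≤ r ^ 2 * (η ^ 2 * ‖k‖ ^ 2) := by linarith
    exact le_of_mul_le_mul_left h2 this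
  · intro h
    have := mul_le_mul_of_nonneg_left h this.le
    linarith

theorem uV_band (n : ℕ) {η A T t : ℝ} (hη : 0 < η) (hT : 0 < T) (ht : t < T) (k : E)
    (hk : k ∉ band η) : uV n η A T t k = 0 := by
  unfold uV dil
  rw [prn_band n hη A _ (fun h => hk ((band_smul (inv_pos.2 (lamT_pos hT ht)) k).1 h)), smul_zero]

theorem op_MM_uV {P : ℝ → ℝ → ℝ → ℝ} (hP : Pln P) {η θ : ℝ} (hη : 0 < η) (hη1 : η < 1) (n : ℕ)
    {u : E → W} (hu : Adm u) (hb : ∀ k, k ∉ band η → u k = 0) (k : E) :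
    op (MM P η n θ) u u k = NL u u k + θ • op (hls P η n) u u k := by
  obtain ⟨C, hC⟩ := hls_bdd hP hη hη1 n
  unfold MM
  rw [op_plus (nls_sym (zt_wt η)) (hls_sym hP hη hη1 n) (nls_bdd (zt_wt η)) hC θ hu hu,
    Pi.add_apply, Pi.smul_apply, op_nls_band hu hb]

theorem uV_eqn (n : ℕ) {η κ A ν T t D : ℝ} (hη : 0 < η) (hη1 : η < 1)
    (hκ : κ = (n + 5) * (2 * n + 9) * ν) (hT : 0 < T) (hκT : κ * (2 * T) = 1)
    (hD : ∀ (A : ℝ) (k : E), op (hls (PNn n) η n) (A • prn n η) (A • prn n η) k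
      = (-(A ^ 2 * D * ((n + 5) ^ 2 * (2 * n + 9) - (n + 5) * (2 * n + 9) * ‖k‖ - ‖k‖ ^ 2))) •
        prn n η k)
    (ht : t < T) {θ : ℝ} (hθ : θ * A * D = ν) (k : E) :
    HasDerivAt (fun s => uV n η A T s k)
      (-NL (uV n η A T t) (uV n η A T t) k - (ν * ‖k‖ ^ 2) • uV n η A T t k
        + op (MM (PNn n) η n θ) (uV n η A T t) (uV n η A T t) k) t := by
  have hl := lamT_pos hT ht
  have hd := lamT_deriv hT ht hκT
  set l := lamT T t with hldef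
  have hc : HasDerivAt (fun s => A * (lamT T s ^ 2)⁻¹) (-2 * A * κ) t := by
    have h1 := ((hd.pow 2).inv (pow_pos hl 2).ne').const_mul A
    refine h1.congr_deriv ?_
    simp only [Pi.pow_apply, ← hldef]
    have := hl.ne'
    push_cast
    field_simp
  have h2 := prn_deriv n η hc hd hl k
  simp only [← uV_apply, ← hldef] at h2
  refine h2.congr_deriv ?_
  rw [op_MM_uV (pln_N n) hη hη1 n (uV_adm n hη hη1 hT ht) (fun k hk => uV_band n hη hT ht k hk) k]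
  have hB : op (hls (PNn n) η n) (uV n η A T t) (uV n η A T t) k
      = (-(A ^ 2 * D * ((n + 5) ^ 2 * (2 * n + 9) - (n + 5) * (2 * n + 9) * ‖l⁻¹ • k‖
          - ‖l⁻¹ • k‖ ^ 2))) • prn n η (l⁻¹ • k) := by
    unfold uV
    rw [op_dil (hls_sym (pln_N n) hη hη1 n) (hls_inv (pln_N n) η n) _ _ hl, hD]
  rw [hB, uV_apply, ← hldef]
  have hk : ‖k‖ = l * ‖l⁻¹ • k‖ := by
    rw [norm_smul, norm_inv, Real.norm_eq_abs, abs_of_pos hl]
    field_simp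
  set K := ‖l⁻¹ • k‖ with hK
  rw [show ∀ X Y Z : W, -X - Y + (X + Z) = -Y + Z by intros; abel, smul_smul, smul_smul,
    ← neg_smul, ← add_smul]
  congr 1
  rw [hk]
  have h3 : A * D * θ = ν := by rw [← hθ]; ring
  have hl' := hl.ne'
  have e1 : (-2 * A * κ + A * (l ^ 2)⁻¹ * (κ * l ^ 3) * l⁻¹ * (K - (n + 3)))
      = A * κ * (K - (n + 5)) := by
    field_simp
    ring
  have e2 : -(ν * (l * K) ^ 2 * (A * (l ^ 2)⁻¹)) = -(ν * K ^ 2 * A) := by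
    field_simp
  rw [e1, e2, hκ]
  have e3 : θ * -(A ^ 2 * D * ((n + 5) ^ 2 * (2 * n + 9) - (n + 5) * (2 * n + 9) * K - K ^ 2))
      = -(A * (A * D * θ) * ((n + 5) ^ 2 * (2 * n + 9) - (n + 5) * (2 * n + 9) * K - K ^ 2)) := by
    ring
  rw [e3, h3]
  ring

theorem uV_sol (n : ℕ) {η κ A ν T D : ℝ} (hη : 0 < η) (hη1 : η < 1)
    (hκ : κ = (n + 5) * (2 * n + 9) * ν) (hT : 0 < T) (hκT : κ * (2 * T) = 1)
    (hD : ∀ (A : ℝ) (k : E), op (hls (PNn n) η n) (A • prn n η) (A • prn n η) k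
      = (-(A ^ 2 * D * ((n + 5) ^ 2 * (2 * n + 9) - (n + 5) * (2 * n + 9) * ‖k‖ - ‖k‖ ^ 2))) •
        prn n η k)
    {θ : ℝ} (hθ : θ * A * D = ν) : Sol ν (op (MM (PNn n) η n θ)) T (uV n η A T) := by
  refine ⟨fun t ht => uV_adm n hη hη1 hT ht.2, fun T₁ hT₁ m => ?_, fun k => ?_, fun t ht k => ?_⟩
  · rcases lt_or_ge T₁ 0 with hneg | hpos
    · exact ⟨0, fun t ht => absurd (ht.1.trans ht.2) (not_le.2 hneg)⟩
    have hmono : ∀ t ∈ Icc 0 T₁, 1 ≤ lamT T t ∧ lamT T t ≤ lamT T T₁ := by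
      intro t ht
      have h0 := one_sub_pos hT hT₁
      have h1 := one_sub_pos hT (ht.2.trans_lt hT₁)
      have h2 : 1 - t / T ≤ 1 := by
        have : 0 ≤ t / T := div_nonneg ht.1 hT.le
        linarith
      have h3 : 1 - T₁ / T ≤ 1 - t / T := by
        have : t / T ≤ T₁ / T := div_le_div_of_nonneg_right ht.2 hT.le
        linarith
      unfold lamT
      constructor
      · rw [one_le_inv₀ (Real.sqrt_pos.2 h1)]
        have := Real.sqrt_le_sqrt h2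
        rwa [Real.sqrt_one] at this
      · exact inv_anti₀ (Real.sqrt_pos.2 h0) (Real.sqrt_le_sqrt h3)
    obtain ⟨C, hC⟩ := dil_unif (adm_prn n hη hη1 A) m one_pos
      ((hmono 0 ⟨le_rfl, hpos⟩).1.trans (hmono 0 ⟨le_rfl, hpos⟩).2)
    refine ⟨C, fun t ht k => ?_⟩
    have h1 := hC _ ⟨(hmono t ht).1, (hmono t ht).2⟩ k
    have h2 : 0 < lamT T t := one_pos.trans_le (hmono t ht).1
    have h4 : (lamT T t ^ 2)⁻¹ ≤ 1 := by
      rw [inv_le_one₀ (by positivity)]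
      exact one_le_pow₀ (hmono t ht).1
    unfold uV dil
    rw [norm_smul, norm_inv, norm_pow, Real.norm_eq_abs, abs_of_pos h2]
    calc (1 + ‖k‖) ^ m * ((lamT T t ^ 2)⁻¹ * ‖(A • prn n η) ((lamT T t)⁻¹ • k)‖)
        = (lamT T t ^ 2)⁻¹ * ((1 + ‖k‖) ^ m * ‖(A • prn n η) ((lamT T t)⁻¹ • k)‖) := by ring
      _ ≤ 1 * C := mul_le_mul h4 h1 (by positivity) zero_le_one
      _ = C := one_mul C
  · intro t ht
    exact (uV_eqn n hη hη1 hκ hT hκT hD ht.2 hθ k).continuousAt.continuousWithinAt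
  · exact uV_eqn n hη hη1 hκ hT hκT hD ht.2 hθ k

theorem uV_vel (n : ℕ) {η A T t : ℝ} (hT : 0 < T) (ht : t < T) (x : E) :
    vel (uV n η A T t) x
      = (Real.sqrt (1 - t / T))⁻¹ • vel (uV n η A T 0) ((Real.sqrt (1 - t / T))⁻¹ • x) := by
  rw [uV_zero]
  unfold uV
  rw [vel_dil _ (lamT_pos hT ht)]
  rfl

theorem vel_prn_decay (N : ℕ) {η : ℝ} (hη : 0 < η) (hη1 : η < 1) (A : ℝ) (r : ℕ) :
    ∃ C : ℝ, ∀ x : E, (1 + ‖x‖) ^ N * ‖iteratedFDeriv ℝ r (vel (A • prn (2 * N + 3) η)) x‖ ≤ C := by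
  obtain ⟨h1, h2⟩ := prn_reg N hη hη1
  obtain ⟨C, hC⟩ := vel_decay N h1 h2 r
  have hsm : ContDiff ℝ ∞ (vel (prn (2 * N + 3) η)) := by
    have := adm_prn (2 * N + 3) hη hη1 1
    rw [one_smul] at this
    exact vel_smooth this
  refine ⟨|A| * C, fun x => ?_⟩
  have e : vel (A • prn (2 * N + 3) η) = A • vel (prn (2 * N + 3) η) := by
    funext y
    rw [vel_smul', Pi.smul_apply]
  rw [e, iteratedFDeriv_const_smul_apply ((hsm.of_le (by exact_mod_cast le_top)).contDiffAt),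
    norm_smul, Real.norm_eq_abs]
  calc (1 + ‖x‖) ^ N * (|A| * ‖iteratedFDeriv ℝ r (vel (prn (2 * N + 3) η)) x‖)
      = |A| * ((1 + ‖x‖) ^ N * ‖iteratedFDeriv ℝ r (vel (prn (2 * N + 3) η)) x‖) := by ring
    _ ≤ |A| * C := by
      gcongr
      exact hC x

theorem int_of_decay' {v : E → E} (hv : Continuous v) {N : ℕ} {C : ℝ}
    (h : ∀ x, (1 + ‖x‖) ^ (N + 4) * ‖iteratedFDeriv ℝ 0 v x‖ ≤ C) :
    (Integrable fun x => ‖v x‖ ^ 2) ∧ Integrable fun x => ‖v x‖ ^ 3 := by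
  refine int_of_decay hv (C := C) fun x => le_trans ?_ (h x)
  rw [norm_iteratedFDeriv_zero]
  refine mul_le_mul_of_nonneg_right ?_ (norm_nonneg _)
  exact pow_le_pow_right₀ (by linarith [norm_nonneg x]) (by omega)

theorem exist_N {ν : ℝ} (hν : 0 < ν) (N : ℕ) {η θ : ℝ} (hη : 0 < η) (hη1 : η < 1) (hθ : 0 < θ) :
    ∃ (T : ℝ) (u : ℝ → E → W), 0 < T ∧
      Sol ν (op (MM (PNn (2 * (N + 4) + 3)) η (2 * (N + 4) + 3) θ)) T u ∧ (∃ x, vel (u 0) x ≠ 0) ∧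
      (∀ r : ℕ, ∃ C, ∀ x, (1 + ‖x‖) ^ (N + 4) * ‖iteratedFDeriv ℝ r (vel (u 0)) x‖ ≤ C) ∧
      (Integrable fun x => ‖vel (u 0) x‖ ^ 2) ∧ (Integrable fun x => ‖vel (u 0) x‖ ^ 3) ∧
      (∀ t ∈ Ico 0 T, (∀ x, vel (u t) x
        = (Real.sqrt (1 - t / T))⁻¹ • vel (u 0) ((Real.sqrt (1 - t / T))⁻¹ • x)) ∧
        ∫ x, ‖vel (u t) x‖ ^ 3 = ∫ x, ‖vel (u 0) x‖ ^ 3) ∧
      ∀ T' w, Sol ν (op (MM (PNn (2 * (N + 4) + 3)) η (2 * (N + 4) + 3) θ)) T' w → w 0 = u 0 →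
        T' ≤ T ∧ ∀ t ∈ Ico 0 T', vel (w t) = vel (u t) := by
  set n : ℕ := 2 * (N + 4) + 3 with hn
  obtain ⟨C, hC⟩ := hls_bdd (pln_N n) hη hη1 n
  have hgood : Good (op (MM (PNn n) η n θ)) :=
    good_op (MM_sym (pln_N _) hη hη1 _ _) (bdd_plus (nls_bdd (zt_wt _)) hC hθ.le)
  obtain ⟨D, hD, hprof⟩ := op_prof_N n
  have hprof' := fun (A : ℝ) (k : E) => hprof hη hη1 A k
  set κ : ℝ := (n + 5) * (2 * n + 9) * ν with hκ
  have hκ0 : 0 < κ := by positivity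
  set T : ℝ := 1 / (2 * κ) with hT
  have hT0 : 0 < T := by positivity
  have hκT : κ * (2 * T) = 1 := by rw [hT]; field_simp
  set A : ℝ := ν / (θ * D) with hA
  have hA0 : 0 < A := by positivity
  have hθA : θ * A * D = ν := by rw [hA]; field_simp
  have hsol : Sol ν (op (MM (PNn n) η n θ)) T (uV n η A T) :=
    uV_sol n hη hη1 hκ hT0 hκT hprof' hθA
  have hform : ∀ t ∈ Ico (0 : ℝ) T, ∀ x, vel (uV n η A T t) x
      = (Real.sqrt (1 - t / T))⁻¹ • vel (uV n η A T 0) ((Real.sqrt (1 - t / T))⁻¹ • x) :=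
    fun t ht x => uV_vel n hT0 ht.2 x
  have hne : ∃ x, vel (uV n η A T 0) x ≠ 0 := by
    obtain ⟨x, hx⟩ := vel_prn_ne n hη hη1
    refine ⟨x, ?_⟩
    rw [uV_zero, vel_smul']
    exact smul_ne_zero hA0.ne' hx
  have hdec : ∀ r : ℕ, ∃ C, ∀ x,
      (1 + ‖x‖) ^ (N + 4) * ‖iteratedFDeriv ℝ r (vel (uV n η A T 0)) x‖ ≤ C := by
    intro r
    rw [uV_zero]
    exact vel_prn_decay (N + 4) hη hη1 A r
  have hcont : Continuous (vel (uV n η A T 0)) :=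
    (vel_smooth (hsol.adm 0 ⟨le_rfl, hT0⟩)).continuous
  obtain ⟨C₀, hC₀⟩ := hdec 0
  have hints := int_of_decay' hcont hC₀
  have hblow : ∀ M : ℝ, ∃ t ∈ Ico (0 : ℝ) T, ∃ x, M < ‖vel (uV n η A T t) x‖ := by
    refine blow_form (v := fun t => vel (uV n η A T t)) (a := 1 / 2) (b := 1 / 2)
      (by norm_num) hT0 (fun t ht x => ?_) hne
    have h1 := one_sub_pos hT0 ht.2
    have : (1 - t / T) ^ (-(1 / 2) : ℝ) = (Real.sqrt (1 - t / T))⁻¹ := by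
      rw [Real.rpow_neg h1.le, Real.sqrt_eq_rpow]
    rw [this]
    exact hform t ht x
  refine ⟨T, uV n η A T, hT0, hsol, hne, hdec, hints.1, hints.2, fun t ht =>
    ⟨hform t ht, ?_⟩, fun T' w hw h0 => blow_max hgood hν.le hsol hblow hw h0⟩
  have h2 : ∀ x, ‖vel (uV n η A T t) x‖ ^ 3
      = ‖(Real.sqrt (1 - t / T))⁻¹ •
        vel (uV n η A T 0) ((Real.sqrt (1 - t / T))⁻¹ • x)‖ ^ 3 := fun x => by
    rw [hform t ht x]
  simp only [h2]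
  exact scale_three _ (lamT_pos hT0 ht.2)

/-- Small parameters. -/
theorem exist_par (P : ℕ → ℝ → ℝ → ℝ → ℝ) (hP : ∀ i, Pln (P i)) (n : ℕ → ℕ) :
    ∃ (C θ : ℕ → ℝ), (∀ i, Bdd (C i) (hls (P i) (1 / (i + 2)) (n i))) ∧ (∀ i, 0 < θ i) ∧
      Tendsto (fun i => θ i * C i) atTop (𝓝 0) := by
  have hη : ∀ i : ℕ, (0 : ℝ) < 1 / (i + 2) := fun i => by positivity
  have hη1 : ∀ i : ℕ, (1 : ℝ) / (i + 2) < 1 := fun i => by
    rw [div_lt_one (by positivity)]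
    have : (0 : ℝ) ≤ i := Nat.cast_nonneg i
    linarith
  choose C hC using fun i => hls_bdd (hP i) (hη i) (hη1 i) (n i)
  have hC0 : ∀ i, 0 ≤ C i := fun i => (hC i).1
  have hθ : ∀ i : ℕ, (0 : ℝ) < 1 / ((i + 1) * (C i + 1)) := fun i => by
    have := hC0 i
    positivity
  refine ⟨C, fun i => 1 / ((i + 1) * (C i + 1)), hC, hθ, ?_⟩
  refine squeeze_zero (fun i => mul_nonneg (hθ i).le (hC0 i)) (fun i => ?_)
    (tendsto_one_div_add_atTop_nhds_zero_nat (𝕜 := ℝ))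
  have h1 := hC0 i
  have h2 : (0 : ℝ) < (i : ℝ) + 1 := by positivity
  rw [div_mul_eq_mul_div, one_mul, div_le_div_iff₀ (by positivity) h2]
  nlinarith

theorem eta_lim : Tendsto (fun i : ℕ => (1 : ℝ) / (i + 2)) atTop (𝓝 0) := by
  have h1 : Tendsto (fun i : ℕ => ((i : ℝ) + 2)) atTop atTop :=
    tendsto_atTop_add_const_right _ _ tendsto_natCast_atTop_atTop
  have h2 := h1.inv_tendsto_atTop
  refine h2.congr fun i => ?_
  rw [Pi.inv_apply, one_div]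

theorem mainU :
    ∃ M : ℕ → E → E → W → W → W,
      (∀ i, Sym (M i) ∧ (∃ C, Bdd C (M i)) ∧ Inv (M i) ∧ ∀ p q a b,
        (p ∉ band (1 / (i + 2)) ∧ q ∉ band (1 / (i + 2))) ∨
        (p ∉ band (1 / (i + 2)) ∧ p + q ∉ band (1 / (i + 2))) ∨
        (q ∉ band (1 / (i + 2)) ∧ p + q ∉ band (1 / (i + 2))) → M i p q a b = 0) ∧
      (∀ i g h, Adm g → Adm h → Adm (op (M i) g h) ∧
        pr (op (M i) g h) h = 0 ∧ pr (op (M i) g g) (crl g) = 0 ∧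
        (∀ a, op (M i) (tr a g) (tr a h) = tr a (op (M i) g h)) ∧
        (∀ r : ℝ, 0 < r → ∀ k, op (M i) (dil r g) (dil r h) k = op (M i) g h (r⁻¹ • k)) ∧
        (∀ θ, op (M i) (rot θ g) (rot θ h) = rot θ (op (M i) g h)) ∧
        op (M i) (par g) (par h) = par (op (M i) g h)) ∧
      (∀ α β γ δ : ℝ, α + β + γ = 5 / 2 → -(3 / 2) < α → α < 3 / 2 → β < 5 / 2 → γ < 5 / 2 →
        0 < δ → ∃ i₀, ∀ i ≥ i₀, ∀ f g h, Adm f → Adm g → Adm h →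
          |pr (op (M i) f g) h| ≤ δ * nrm α f * nrm β g * nrm γ h) ∧
      (∀ i ν T u, Sol ν (op (M i)) T u →
        ∃ p, Cls ν T (fun t => vel (u t)) p fun t => vel (op (M i) (u t) (u t))) ∧
      ∀ (i : ℕ) (ν : ℝ), 0 < ν → ∃ (T : ℝ) (u : ℝ → E → W), 0 < T ∧ Sol ν (op (M i)) T u ∧ (∃ x, vel (u 0) x ≠ 0) ∧
        (∀ r : ℕ, ∃ C, ∀ x, (1 + ‖x‖) ^ (i + 4) * ‖iteratedFDeriv ℝ r (vel (u 0)) x‖ ≤ C) ∧
        (Integrable fun x => ‖vel (u 0) x‖ ^ 2) ∧ (Integrable fun x => ‖vel (u 0) x‖ ^ 3) ∧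
        (∀ t ∈ Ico 0 T, (∀ x, vel (u t) x
          = (Real.sqrt (1 - t / T))⁻¹ • vel (u 0) ((Real.sqrt (1 - t / T))⁻¹ • x)) ∧
          ∫ x, ‖vel (u t) x‖ ^ 3 = ∫ x, ‖vel (u 0) x‖ ^ 3) ∧
        ∀ T' w, Sol ν (op (M i)) T' w → w 0 = u 0 → T' ≤ T ∧ ∀ t ∈ Ico 0 T', vel (w t) = vel (u t) := by
  obtain ⟨C, θ, hC, hθ, hθt⟩ := exist_par (fun i => PNn (2 * (i + 4) + 3)) (fun i => pln_N _)
    (fun i => 2 * (i + 4) + 3)
  have hη : ∀ i : ℕ, (0 : ℝ) < 1 / (i + 2) := fun i => by positivity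
  have hη1 : ∀ i : ℕ, (1 : ℝ) / (i + 2) < 1 := fun i => by
    rw [div_lt_one (by positivity)]
    have : (0 : ℝ) ≤ i := Nat.cast_nonneg i
    linarith
  have hsym : ∀ i : ℕ, Sym (MM (PNn (2 * (i + 4) + 3)) (1 / (i + 2)) (2 * (i + 4) + 3) (θ i)) :=
    fun i => MM_sym (pln_N _) (hη i) (hη1 i) _ _
  have hinv : ∀ i : ℕ, Inv (MM (PNn (2 * (i + 4) + 3)) (1 / (i + 2)) (2 * (i + 4) + 3) (θ i)) :=
    fun i => MM_inv (pln_N _) _ _ _
  have hbdd : ∀ i : ℕ, Bdd (1 + θ i * C i)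
      (MM (PNn (2 * (i + 4) + 3)) (1 / (i + 2)) (2 * (i + 4) + 3) (θ i)) :=
    fun i => bdd_plus (nls_bdd (zt_wt _)) (hC i) (hθ i).le
  refine ⟨fun i => MM (PNn (2 * (i + 4) + 3)) (1 / (i + 2)) (2 * (i + 4) + 3) (θ i),
    fun i => ⟨hsym i, ⟨_, hbdd i⟩, hinv i, fun p q a b h => MM_supp _ _ _ _ p q a b h⟩,
    fun i g h hg hh => ⟨adm_op (hsym i) (hbdd i) hg hh, op_skew (hsym i) (hbdd i) hg hh,
      op_hel (hsym i) (hbdd i) hg, op_tr (hsym i) g h,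
      fun r hr k => op_dil (hsym i) (hinv i) g h hr k, op_rot (hinv i) g h,
      op_par (hsym i) (hinv i) g h⟩, ?_, fun i ν T u hu => sol_cls (good_op (hsym i) (hbdd i)) hu,
    fun i ν hν => exist_N hν i (hη i) (hη1 i) (hθ i)⟩
  intro α β γ δ h hα hα' hβ hγ hδ
  have key := op_MM_small' (P := fun i => PNn (2 * (i + 4) + 3)) (fun i : ℕ => (1 : ℝ) / (i + 2)) θ
    (fun i => 2 * (i + 4) + 3) C (fun i => ⟨hls_sym (pln_N _) (hη i) (hη1 i) _, hC i⟩) hη eta_lim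
    (fun i => (hθ i).le) hθt h hα hα' hβ hγ hδ
  exact key

/-! ### The self-similar solution of the perturbed Euler equations -/

/-- The Fourier transform of the self-similar solution. -/
noncomputable def uF (n : ℕ) (η A t : ℝ) : E → W :=
  dil ((1 - t) ^ (-(2 / 5) : ℝ)) ((A * (1 - t) ^ (-(1 / 5) : ℝ)) • prn n η)

theorem uF_zero (n : ℕ) (η A : ℝ) : uF n η A 0 = A • prn n η := by
  funext k
  unfold uF dil
  simp

theorem uF_apply (n : ℕ) (η A : ℝ) {t : ℝ} (ht : t < 1) (k : E) :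
    uF n η A t k = (A * (1 - t) ^ (3 / 5 : ℝ)) • prn n η (((1 - t) ^ (-(2 / 5) : ℝ))⁻¹ • k) := by
  have h0 : 0 < 1 - t := by linarith
  unfold uF dil
  rw [Pi.smul_apply, smul_smul]
  congr 1
  have h1 : (((1 - t) ^ (-(2 / 5) : ℝ)) ^ 2)⁻¹ = (1 - t) ^ (4 / 5 : ℝ) := by
    rw [← Real.rpow_natCast, ← Real.rpow_mul h0.le, ← Real.rpow_neg h0.le]
    norm_num
  rw [h1, mul_comm, mul_assoc, ← Real.rpow_add h0]
  norm_num

theorem uF_adm (n : ℕ) {η A t : ℝ} (hη : 0 < η) (hη1 : η < 1) (ht : t < 1) :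
    Adm (uF n η A t) :=
  adm_scaled (adm_prn n hη hη1 _) (Real.rpow_pos_of_pos (by linarith) _) _

theorem uF_band (n : ℕ) {η A t : ℝ} (hη : 0 < η) (ht : t < 1) (k : E)
    (hk : k ∉ band η) : uF n η A t k = 0 := by
  have hl : 0 < (1 - t) ^ (-(2 / 5) : ℝ) := Real.rpow_pos_of_pos (by linarith) _
  unfold uF dil
  rw [prn_band n hη _ _ (fun h => hk ((band_smul (inv_pos.2 hl) k).1 h)), smul_zero]

theorem uF_eqn (n : ℕ) {η A t D : ℝ} (hη : 0 < η) (hη1 : η < 1)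
    (hD : ∀ (A : ℝ) (k : E), op (hls (PEn n) η n) (A • prn n η) (A • prn n η) k
      = (-(A ^ 2 * D * (n + 9 / 2 - ‖k‖))) • prn n η k)
    (ht : t < 1) {θ : ℝ} (hθ : θ * A * D = 2 / 5) (k : E) :
    HasDerivAt (fun s => uF n η A s k)
      (-NL (uF n η A t) (uF n η A t) k - ((0 : ℝ) * ‖k‖ ^ 2) • uF n η A t k
        + op (MM (PEn n) η n θ) (uF n η A t) (uF n η A t) k) t := by
  have h0 : 0 < 1 - t := by linarith
  have hsub : HasDerivAt (fun s : ℝ => 1 - s) (-1) t := by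
    simpa using (hasDerivAt_id t).const_sub 1
  have hl : 0 < (1 - t) ^ (-(2 / 5) : ℝ) := Real.rpow_pos_of_pos h0 _
  have hd : HasDerivAt (fun s : ℝ => (1 - s) ^ (-(2 / 5) : ℝ))
      (2 / 5 * (1 - t) ^ (-(7 / 5) : ℝ)) t := by
    refine (hsub.rpow_const (p := -(2 / 5)) (Or.inl h0.ne')).congr_deriv ?_
    rw [show (-(2 / 5) - 1 : ℝ) = -(7 / 5) by norm_num]
    ring
  have hc : HasDerivAt (fun s : ℝ => A * (1 - s) ^ (3 / 5 : ℝ))
      (-(3 / 5) * A * (1 - t) ^ (-(2 / 5) : ℝ)) t := by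
    refine ((hsub.rpow_const (p := 3 / 5) (Or.inl h0.ne')).const_mul A).congr_deriv ?_
    rw [show (3 / 5 - 1 : ℝ) = -(2 / 5) by norm_num]
    ring
  have h2 := prn_deriv n η hc hd hl k
  have hev : (fun s => uF n η A s k) =ᶠ[𝓝 t]
      fun s => (A * (1 - s) ^ (3 / 5 : ℝ)) • prn n η (((1 - s) ^ (-(2 / 5) : ℝ))⁻¹ • k) := by
    filter_upwards [Iio_mem_nhds ht] with s hs using uF_apply n η A hs k
  refine (h2.congr_of_eventuallyEq hev).congr_deriv ?_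
  rw [op_MM_uV (pln_E n) hη hη1 n (uF_adm n hη hη1 ht) (fun k hk => uF_band n hη ht k hk) k]
  set l := (1 - t) ^ (-(2 / 5) : ℝ) with hldef
  have hB : op (hls (PEn n) η n) (uF n η A t) (uF n η A t) k
      = (-((A * (1 - t) ^ (-(1 / 5) : ℝ)) ^ 2 * D * (n + 9 / 2 - ‖l⁻¹ • k‖))) •
        prn n η (l⁻¹ • k) := by
    unfold uF
    rw [← hldef, op_dil (hls_sym (pln_E n) hη hη1 n) (hls_inv (pln_E n) η n) _ _ hl, hD]
  rw [hB]
  set K := ‖l⁻¹ • k‖ with hK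
  rw [zero_mul, zero_smul, show ∀ X Z : W, -X - 0 + (X + Z) = Z by intros; abel, smul_smul]
  congr 1
  have e1 : (1 - t) ^ (3 / 5 : ℝ) * (2 / 5 * (1 - t) ^ (-(7 / 5) : ℝ)) * l⁻¹
      = 2 / 5 * l := by
    have h3 : l⁻¹ = (1 - t) ^ (2 / 5 : ℝ) := by
      rw [hldef, Real.rpow_neg h0.le, inv_inv]
    rw [h3, hldef]
    calc (1 - t) ^ (3 / 5 : ℝ) * (2 / 5 * (1 - t) ^ (-(7 / 5) : ℝ)) * (1 - t) ^ (2 / 5 : ℝ)
        = 2 / 5 * ((1 - t) ^ (3 / 5 : ℝ) * (1 - t) ^ (-(7 / 5) : ℝ) * (1 - t) ^ (2 / 5 : ℝ)) := by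
          ring
      _ = 2 / 5 * (1 - t) ^ (-(2 / 5) : ℝ) := by
          rw [← Real.rpow_add h0, ← Real.rpow_add h0]
          norm_num
  have e2 : ((1 - t) ^ (-(1 / 5) : ℝ)) ^ 2 = l := by
    rw [← Real.rpow_natCast, ← Real.rpow_mul h0.le, hldef]
    norm_num
  have e3 : -(3 / 5) * A * l + A * (1 - t) ^ (3 / 5 : ℝ) * (2 / 5 * (1 - t) ^ (-(7 / 5) : ℝ)) *
      l⁻¹ * (K - (n + 3)) = A * (2 / 5) * l * (K - (n + 9 / 2)) := by
    calc _ = -(3 / 5) * A * l + A * ((1 - t) ^ (3 / 5 : ℝ) * (2 / 5 * (1 - t) ^ (-(7 / 5) : ℝ)) *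
      l⁻¹) * (K - (n + 3)) := by ring
      _ = _ := by rw [e1]; ring
  rw [e3, mul_pow, e2, ← hθ]
  ring

theorem uF_sol (n : ℕ) {η A D : ℝ} (hη : 0 < η) (hη1 : η < 1)
    (hD : ∀ (A : ℝ) (k : E), op (hls (PEn n) η n) (A • prn n η) (A • prn n η) k
      = (-(A ^ 2 * D * (n + 9 / 2 - ‖k‖))) • prn n η k) {θ : ℝ}
    (hθ : θ * A * D = 2 / 5) : Sol 0 (op (MM (PEn n) η n θ)) 1 (uF n η A) := by
  refine ⟨fun t ht => uF_adm n hη hη1 ht.2, fun T₁ hT₁ m => ?_, fun k => ?_, fun t ht k => ?_⟩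
  · rcases lt_or_ge T₁ 0 with hneg | hpos
    · exact ⟨0, fun t ht => absurd (ht.1.trans ht.2) (not_le.2 hneg)⟩
    have h1 : 0 < 1 - T₁ := by linarith
    obtain ⟨C, hC⟩ := dil_unif (adm_prn n hη hη1 1) m one_pos
      (Real.one_le_rpow_of_pos_of_le_one_of_nonpos h1 (by linarith) (by norm_num :
        (-(2 / 5) : ℝ) ≤ 0))
    refine ⟨|A| * C, fun t ht k => ?_⟩
    have h0 : 0 < 1 - t := by linarith [ht.2]
    have h2 : (1 : ℝ) ≤ (1 - t) ^ (-(2 / 5) : ℝ) :=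
      Real.one_le_rpow_of_pos_of_le_one_of_nonpos h0 (by linarith [ht.1]) (by norm_num)
    have h3 : (1 - t) ^ (-(2 / 5) : ℝ) ≤ (1 - T₁) ^ (-(2 / 5) : ℝ) :=
      Real.rpow_le_rpow_of_nonpos h1 (by linarith [ht.2]) (by norm_num)
    have h4 := hC _ ⟨h2, h3⟩ k
    have h5 : (1 - t) ^ (3 / 5 : ℝ) ≤ 1 :=
      Real.rpow_le_one h0.le (by linarith [ht.1]) (by norm_num)
    have h6 : 0 ≤ (1 - t) ^ (3 / 5 : ℝ) := Real.rpow_nonneg h0.le _
    rw [one_smul] at h4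
    rw [uF_apply n η A (by linarith [ht.2] : t < 1), norm_smul, Real.norm_eq_abs, abs_mul,
      abs_of_nonneg h6]
    have hN : 0 ≤ (1 + ‖k‖) ^ m * ‖prn n η (((1 - t) ^ (-(2 / 5) : ℝ))⁻¹ • k)‖ := by positivity
    calc (1 + ‖k‖) ^ m * (|A| * (1 - t) ^ (3 / 5 : ℝ) *
          ‖prn n η (((1 - t) ^ (-(2 / 5) : ℝ))⁻¹ • k)‖)
        = |A| * ((1 - t) ^ (3 / 5 : ℝ) *
          ((1 + ‖k‖) ^ m * ‖prn n η (((1 - t) ^ (-(2 / 5) : ℝ))⁻¹ • k)‖)) := by ring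
      _ ≤ |A| * (1 * C) := by gcongr
      _ = |A| * C := by ring
  · intro t ht
    exact (uF_eqn n hη hη1 hD ht.2 hθ k).continuousAt.continuousWithinAt
  · exact uF_eqn n hη hη1 hD ht.2 hθ k

theorem uF_vel (n : ℕ) {η A t : ℝ} (ht : t < 1) (x : E) :
    vel (uF n η A t) x
      = (1 - t) ^ (-(3 / 5) : ℝ) • vel (uF n η A 0) ((1 - t) ^ (-(2 / 5) : ℝ) • x) := by
  have h0 : 0 < 1 - t := by linarith
  have hl : 0 < (1 - t) ^ (-(2 / 5) : ℝ) := Real.rpow_pos_of_pos h0 _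
  rw [uF_zero]
  unfold uF
  rw [vel_dil _ hl, vel_smul', vel_smul', smul_smul, smul_smul]
  congr 1
  rw [show (-(3 / 5) : ℝ) = -(2 / 5) + -(1 / 5) by norm_num, Real.rpow_add h0]
  ring

theorem exist_E (N : ℕ) {η θ : ℝ} (hη : 0 < η) (hη1 : η < 1) (hθ : 0 < θ) :
    ∃ u : ℝ → E → W,
      Sol 0 (op (MM (PEn (2 * (N + 4) + 3)) η (2 * (N + 4) + 3) θ)) 1 u ∧ (∃ x, vel (u 0) x ≠ 0) ∧
      (∀ r : ℕ, ∃ C, ∀ x, (1 + ‖x‖) ^ (N + 4) * ‖iteratedFDeriv ℝ r (vel (u 0)) x‖ ≤ C) ∧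
      (Integrable fun x => ‖vel (u 0) x‖ ^ 2) ∧
      (∀ t ∈ Ico 0 1, ∀ x, vel (u t) x
        = (1 - t) ^ (-(3 / 5) : ℝ) • vel (u 0) ((1 - t) ^ (-(2 / 5) : ℝ) • x)) ∧
      ∀ T' w, Sol 0 (op (MM (PEn (2 * (N + 4) + 3)) η (2 * (N + 4) + 3) θ)) T' w → w 0 = u 0 →
        T' ≤ 1 ∧ ∀ t ∈ Ico 0 T', vel (w t) = vel (u t) := by
  set n : ℕ := 2 * (N + 4) + 3 with hn
  obtain ⟨C, hC⟩ := hls_bdd (pln_E n) hη hη1 n
  have hgood : Good (op (MM (PEn n) η n θ)) :=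
    good_op (MM_sym (pln_E _) hη hη1 _ _) (bdd_plus (nls_bdd (zt_wt _)) hC hθ.le)
  obtain ⟨D, hD, hprof⟩ := op_prof_E n
  have hprof' := fun (A : ℝ) (k : E) => hprof hη hη1 A k
  set A : ℝ := 2 / 5 / (θ * D) with hA
  have hA0 : 0 < A := by positivity
  have hθA : θ * A * D = 2 / 5 := by rw [hA]; field_simp
  have hsol : Sol 0 (op (MM (PEn n) η n θ)) 1 (uF n η A) := uF_sol n hη hη1 hprof' hθA
  have hform : ∀ t ∈ Ico (0 : ℝ) 1, ∀ x, vel (uF n η A t) x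
      = (1 - t) ^ (-(3 / 5) : ℝ) • vel (uF n η A 0) ((1 - t) ^ (-(2 / 5) : ℝ) • x) :=
    fun t ht x => uF_vel n ht.2 x
  have hne : ∃ x, vel (uF n η A 0) x ≠ 0 := by
    obtain ⟨x, hx⟩ := vel_prn_ne n hη hη1
    refine ⟨x, ?_⟩
    rw [uF_zero, vel_smul']
    exact smul_ne_zero hA0.ne' hx
  have hdec : ∀ r : ℕ, ∃ C, ∀ x,
      (1 + ‖x‖) ^ (N + 4) * ‖iteratedFDeriv ℝ r (vel (uF n η A 0)) x‖ ≤ C := by
    intro r
    rw [uF_zero]
    exact vel_prn_decay (N + 4) hη hη1 A r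
  have hcont : Continuous (vel (uF n η A 0)) :=
    (vel_smooth (hsol.adm 0 ⟨le_rfl, one_pos⟩)).continuous
  obtain ⟨C₀, hC₀⟩ := hdec 0
  have hints := int_of_decay' hcont hC₀
  have hblow : ∀ M : ℝ, ∃ t ∈ Ico (0 : ℝ) 1, ∃ x, M < ‖vel (uF n η A t) x‖ := by
    refine blow_form (v := fun t => vel (uF n η A t)) (a := 3 / 5) (b := 2 / 5)
      (by norm_num) one_pos (fun t ht x => ?_) hne
    rw [div_one]
    exact hform t ht x
  exact ⟨uF n η A, hsol, hne, hdec, hints.1, hform,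
    fun T' w hw h0 => blow_max hgood le_rfl hsol hblow hw h0⟩

theorem mainUE :
    ∃ M : ℕ → E → E → W → W → W,
      (∀ i, Sym (M i) ∧ (∃ C, Bdd C (M i)) ∧ Inv (M i) ∧ ∀ p q a b,
        (p ∉ band (1 / (i + 2)) ∧ q ∉ band (1 / (i + 2))) ∨
        (p ∉ band (1 / (i + 2)) ∧ p + q ∉ band (1 / (i + 2))) ∨
        (q ∉ band (1 / (i + 2)) ∧ p + q ∉ band (1 / (i + 2))) → M i p q a b = 0) ∧
      (∀ i g h, Adm g → Adm h → Adm (op (M i) g h) ∧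
        pr (op (M i) g h) h = 0 ∧ pr (op (M i) g g) (crl g) = 0 ∧
        (∀ a, op (M i) (tr a g) (tr a h) = tr a (op (M i) g h)) ∧
        (∀ r : ℝ, 0 < r → ∀ k, op (M i) (dil r g) (dil r h) k = op (M i) g h (r⁻¹ • k)) ∧
        (∀ θ, op (M i) (rot θ g) (rot θ h) = rot θ (op (M i) g h)) ∧
        op (M i) (par g) (par h) = par (op (M i) g h)) ∧
      (∀ α β γ δ : ℝ, α + β + γ = 5 / 2 → -(3 / 2) < α → α < 3 / 2 → β < 5 / 2 → γ < 5 / 2 →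
        0 < δ → ∃ i₀, ∀ i ≥ i₀, ∀ f g h, Adm f → Adm g → Adm h →
          |pr (op (M i) f g) h| ≤ δ * nrm α f * nrm β g * nrm γ h) ∧
      (∀ i T u, Sol 0 (op (M i)) T u →
        ∃ p, Cls 0 T (fun t => vel (u t)) p fun t => vel (op (M i) (u t) (u t))) ∧
      ∀ i, ∃ u : ℝ → E → W, Sol 0 (op (M i)) 1 u ∧ (∃ x, vel (u 0) x ≠ 0) ∧
        (∀ r : ℕ, ∃ C, ∀ x, (1 + ‖x‖) ^ (i + 4) * ‖iteratedFDeriv ℝ r (vel (u 0)) x‖ ≤ C) ∧
        (Integrable fun x => ‖vel (u 0) x‖ ^ 2) ∧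
        (∀ t ∈ Ico 0 1, ∀ x, vel (u t) x
          = (1 - t) ^ (-(3 / 5) : ℝ) • vel (u 0) ((1 - t) ^ (-(2 / 5) : ℝ) • x)) ∧
        ∀ T' w, Sol 0 (op (M i)) T' w → w 0 = u 0 → T' ≤ 1 ∧ ∀ t ∈ Ico 0 T', vel (w t) = vel (u t) := by
  obtain ⟨C, θ, hC, hθ, hθt⟩ := exist_par (fun i => PEn (2 * (i + 4) + 3)) (fun i => pln_E _)
    (fun i => 2 * (i + 4) + 3)
  have hη : ∀ i : ℕ, (0 : ℝ) < 1 / (i + 2) := fun i => by positivity
  have hη1 : ∀ i : ℕ, (1 : ℝ) / (i + 2) < 1 := fun i => by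
    rw [div_lt_one (by positivity)]
    have : (0 : ℝ) ≤ i := Nat.cast_nonneg i
    linarith
  have hsym : ∀ i : ℕ, Sym (MM (PEn (2 * (i + 4) + 3)) (1 / (i + 2)) (2 * (i + 4) + 3) (θ i)) :=
    fun i => MM_sym (pln_E _) (hη i) (hη1 i) _ _
  have hinv : ∀ i : ℕ, Inv (MM (PEn (2 * (i + 4) + 3)) (1 / (i + 2)) (2 * (i + 4) + 3) (θ i)) :=
    fun i => MM_inv (pln_E _) _ _ _
  have hbdd : ∀ i : ℕ, Bdd (1 + θ i * C i)
      (MM (PEn (2 * (i + 4) + 3)) (1 / (i + 2)) (2 * (i + 4) + 3) (θ i)) :=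
    fun i => bdd_plus (nls_bdd (zt_wt _)) (hC i) (hθ i).le
  refine ⟨fun i => MM (PEn (2 * (i + 4) + 3)) (1 / (i + 2)) (2 * (i + 4) + 3) (θ i),
    fun i => ⟨hsym i, ⟨_, hbdd i⟩, hinv i, fun p q a b h => MM_supp _ _ _ _ p q a b h⟩,
    fun i g h hg hh => ⟨adm_op (hsym i) (hbdd i) hg hh, op_skew (hsym i) (hbdd i) hg hh,
      op_hel (hsym i) (hbdd i) hg, op_tr (hsym i) g h,
      fun r hr k => op_dil (hsym i) (hinv i) g h hr k, op_rot (hinv i) g h,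
      op_par (hsym i) (hinv i) g h⟩, ?_, fun i T u hu => sol_cls (good_op (hsym i) (hbdd i)) hu,
    fun i => exist_E i (hη i) (hη1 i) (hθ i)⟩
  intro α β γ δ h hα hα' hβ hγ hδ
  have key := op_MM_small' (P := fun i => PEn (2 * (i + 4) + 3)) (fun i : ℕ => (1 : ℝ) / (i + 2)) θ
    (fun i => 2 * (i + 4) + 3) C (fun i => ⟨hls_sym (pln_E _) (hη i) (hη1 i) _, hC i⟩) hη eta_lim
    (fun i => (hθ i).le) hθt h hα hα' hβ hγ hδ
  exact key


end H706N
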