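import Pool.Agent.Helper706_NS.Defs2
import Pool.Agent.Helper706_NS.A2

set_option autoImplicit false
open Set Filter Topology MeasureTheory
open scoped ComplexConjugate ContDiff

namespace H706N.JA3

namespace A3

lemma kd_meas {α : Type*} [MeasurableSpace α] {a : α → E} {b : α → W} (ha : Measurable a)
    (hb : Measurable b) : Measurable fun x => kd (a x) (b x) := by
  unfold kd
  apply Finset.measurable_fun_sum
  intro j _
  have h1 : Measurable fun x => (a x) j :=
    (EuclideanSpace.proj (𝕜 := ℝ) j : E →L[ℝ] ℝ).continuous.measurable.comp ha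
  have h2 : Measurable fun x => (b x) j :=
    (EuclideanSpace.proj (𝕜 := ℂ) j : W →L[ℂ] ℂ).continuous.measurable.comp hb
  exact (Complex.measurable_ofReal.comp h1).mul h2

lemma kd_sub (k l : E) (c : W) : kd (k - l) c = kd k c - kd l c := by
  unfold kd
  rw [← Finset.sum_sub_distrib]
  apply Finset.sum_congr rfl
  intro j _
  rw [PiLp.sub_apply]
  push_cast
  ring

lemma kd_shift {f : E → W} (hf : Adm f) (k η : E) : kd η (f (k - η)) = kd k (f (k - η)) := by
  have := hf.divf (k - η)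
  rw [kd_sub] at this
  exact (sub_eq_zero.1 this).symm

lemma inner_toW (k : E) (c : W) : inner ℂ (toW k) c = kd k c := by
  unfold kd toW
  rw [PiLp.inner_apply]
  simp [mul_comm]

lemma inner_lp {h : E → W} (hh : Adm h) (k : E) (c : W) :
    inner ℂ (lp k c) (h k) = inner ℂ c (h k) := by
  unfold lp
  rw [inner_sub_left, inner_smul_left, inner_toW, hh.divf, mul_zero, sub_zero]

/-- The integrand of the trilinear form. -/
noncomputable def X (f g h : E → W) (k η : E) : ℝ :=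
  (inner ℂ ((Complex.I * kd η (f (k - η))) • g η) (h k)).re

lemma pr_eq {f g h : E → W} (hf : Adm f) (hg : Adm g) (hh : Adm h) :
    pr (NL f g) h = ∫ k, ∫ η, X f g h k η := by
  unfold pr NL
  congr 1
  funext k
  rw [inner_lp hh]
  unfold adv X
  have h1 := adv_int hf hg k
  rw [← inner_conj_symm, Complex.conj_re, ← integral_inner h1 (h k)]
  have h2 : Integrable (fun η : E => inner ℂ (h k) ((Complex.I * kd η (f (k - η))) • g η)) :=
    h1.const_inner (h k)
  have h3 := integral_re h2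
  have h4 : (∫ η : E, inner ℂ (h k) ((Complex.I * kd η (f (k - η))) • g η)).re
      = ∫ η : E, (inner ℂ (h k) ((Complex.I * kd η (f (k - η))) • g η)).re := h3.symm
  rw [h4]
  congr 1
  funext η
  rw [← inner_conj_symm, Complex.conj_re]

lemma X_le {f g h : E → W} (hf : Adm f) (k η : E) :
    |X f g h k η| ≤ ‖f (k - η)‖ * ‖g η‖ * ‖h k‖ * min ‖η‖ ‖k‖ := by
  unfold X
  have h1 : ‖kd η (f (k - η))‖ ≤ min ‖η‖ ‖k‖ * ‖f (k - η)‖ := by
    rcases min_choice ‖η‖ ‖k‖ with h | h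
    · rw [h]; exact kd_norm _ _
    · rw [h, kd_shift hf]; exact kd_norm _ _
  calc |(inner ℂ ((Complex.I * kd η (f (k - η))) • g η) (h k)).re|
      ≤ ‖inner ℂ ((Complex.I * kd η (f (k - η))) • g η) (h k)‖ := Complex.abs_re_le_norm _
    _ ≤ ‖(Complex.I * kd η (f (k - η))) • g η‖ * ‖h k‖ := norm_inner_le_norm _ _
    _ = ‖kd η (f (k - η))‖ * ‖g η‖ * ‖h k‖ := by
        rw [norm_smul, norm_mul, Complex.norm_I, one_mul]
    _ ≤ (min ‖η‖ ‖k‖ * ‖f (k - η)‖) * ‖g η‖ * ‖h k‖ := by gcongr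
    _ = _ := by ring

lemma X_meas {f g h : E → W} (hf : Adm f) (hg : Adm g) (hh : Adm h) :
    Measurable fun p : E × E => X f g h p.1 p.2 := by
  unfold X
  apply Complex.measurable_re.comp
  apply Measurable.inner
  · apply Measurable.fun_smul
    · exact (kd_meas measurable_snd (hf.meas.comp (measurable_fst.sub measurable_snd))).const_mul _
    · exact hg.meas.comp measurable_snd
  · exact hh.meas.comp measurable_fst

lemma B_meas {f g h : E → W} (hf : Adm f) (hg : Adm g) (hh : Adm h) :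
    Measurable fun p : E × E =>
      ENNReal.ofReal (‖f (p.1 - p.2)‖ * ‖g p.2‖ * ‖h p.1‖ * min ‖p.2‖ ‖p.1‖) := by
  apply Measurable.ennreal_ofReal
  exact ((((hf.meas.comp (measurable_fst.sub measurable_snd)).norm).mul
    (hg.meas.comp measurable_snd).norm).mul (hh.meas.comp measurable_fst).norm).mul
    (measurable_snd.norm.min measurable_fst.norm)

lemma Adm.bdd {g : E → W} (hg : Adm g) : ∃ C : ℝ, 0 ≤ C ∧ ∀ k, ‖g k‖ ≤ C := by
  obtain ⟨C, hC⟩ := hg.dec 0
  refine ⟨C, ?_, fun k => by simpa using hC k⟩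
  have := hC 0
  simp only [pow_zero, one_mul] at this
  exact le_trans (norm_nonneg _) this

lemma X_int {f g h : E → W} (hf : Adm f) (hg : Adm g) (hh : Adm h) :
    Integrable (fun p : E × E => X f g h p.1 p.2) ((volume : Measure E).prod volume) := by
  obtain ⟨C, hC0, hC⟩ := Adm.bdd hf
  have h1 : Integrable (fun k : E => ‖h k‖) := hh.int.norm
  have h2 : Integrable (fun k : E => (1 + ‖k‖) ^ 1 * ‖g k‖) := hg.int_pow 1
  have h3 := (h1.mul_prod h2).const_mul C
  refine h3.mono (X_meas hf hg hh).aestronglyMeasurable ?_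
  filter_upwards with p
  rw [Real.norm_eq_abs, Real.norm_eq_abs]
  refine le_trans (X_le hf p.1 p.2) ?_
  refine le_trans ?_ (le_abs_self _)
  have h4 : min ‖p.2‖ ‖p.1‖ ≤ 1 + ‖p.2‖ := le_trans (min_le_left _ _) (by linarith)
  calc ‖f (p.1 - p.2)‖ * ‖g p.2‖ * ‖h p.1‖ * min ‖p.2‖ ‖p.1‖
      ≤ C * ‖g p.2‖ * ‖h p.1‖ * (1 + ‖p.2‖) := by
        gcongr
        exact hC _
    _ = C * (‖h p.1‖ * ((1 + ‖p.2‖) ^ 1 * ‖g p.2‖)) := by ring

lemma X_skew {g h : E → W} (hg : Adm g) (k η : E) : X g h h η k = - X g h h k η := by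
  unfold X
  have h1 : kd k (g (η - k)) = conj (kd η (g (k - η))) := by
    rw [kd_shift hg k η]
    unfold kd
    rw [map_sum]
    apply Finset.sum_congr rfl
    intro j _
    rw [map_mul, Complex.conj_ofReal, ← hg.herm, neg_sub]
  rw [h1, inner_smul_left, inner_smul_left, ← inner_conj_symm (h k) (h η)]
  generalize inner ℂ (h η) (h k) = w
  generalize kd η (g (k - η)) = z
  simp only [map_mul, Complex.conj_I, Complex.conj_conj, Complex.mul_re, Complex.mul_im,
    Complex.neg_re, Complex.neg_im, Complex.I_re, Complex.I_im, Complex.conj_re, Complex.conj_im]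
  ring

lemma nrm_zero_sq (g : E → W) : nrm 0 g = Real.sqrt (∫ k : E, ‖g k‖ ^ 2) := by
  unfold nrm
  simp

lemma Adm.sq {g : E → W} (hg : Adm g) : Integrable fun k : E => ‖g k‖ ^ 2 := by
  have := hg.int_sq (a := 0) (by norm_num)
  simpa using this

lemma cs {f g : E → W} (hf : Adm f) (hg : Adm g) (η : E) :
    ∫⁻ k : E, ENNReal.ofReal (‖f (k - η)‖ * ‖g k‖) ≤ ENNReal.ofReal (nrm 0 f * nrm 0 g) := by
  have hf2 : MemLp (fun k : E => ‖f (k - η)‖) 2 volume := by
    rw [memLp_two_iff_integrable_sq]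
    · exact (Adm.sq hf).comp_sub_right η
    · exact ((hf.meas.comp (measurable_id.sub_const η)).norm).aestronglyMeasurable
  have hg2 : MemLp (fun k : E => ‖g k‖) 2 volume := by
    rw [memLp_two_iff_integrable_sq]
    · exact Adm.sq hg
    · exact hg.meas.norm.aestronglyMeasurable
  have hint : Integrable (fun k : E => ‖f (k - η)‖ * ‖g k‖) := hf2.integrable_mul hg2
  rw [← ofReal_integral_eq_lintegral_ofReal hint
    (Filter.Eventually.of_forall fun k => by positivity)]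
  apply ENNReal.ofReal_le_ofReal
  have h2 : ENNReal.ofReal 2 = 2 := by norm_num
  have hc := integral_mul_le_Lp_mul_Lq_of_nonneg (μ := (volume : Measure E)) (p := 2) (q := 2)
    (Real.HolderConjugate.two_two) (f := fun k : E => ‖f (k - η)‖) (g := fun k : E => ‖g k‖)
    (Filter.Eventually.of_forall fun k => norm_nonneg _)
    (Filter.Eventually.of_forall fun k => norm_nonneg _)
    (by rw [h2]; exact hf2) (by rw [h2]; exact hg2)
  refine le_trans hc ?_
  have h3 : ∫ k : E, ‖f (k - η)‖ ^ (2 : ℝ) = ∫ k : E, ‖f k‖ ^ (2 : ℝ) :=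
    integral_sub_right_eq_self (fun k => ‖f k‖ ^ (2 : ℝ)) η
  rw [nrm_zero_sq, nrm_zero_sq, Real.sqrt_eq_rpow, Real.sqrt_eq_rpow]
  have h4 : ∀ u : E → W, (∫ k : E, ‖u k‖ ^ (2 : ℝ)) = ∫ k : E, ‖u k‖ ^ 2 := by
    intro u
    congr 1
    funext k
    exact Real.rpow_two _
  rw [h3, h4, h4]

end A3

/-- TARGET -/
theorem NL_abs {f g h : E → W} (hf : Adm f) (hg : Adm g) (hh : Adm h) :
    ENNReal.ofReal |pr (NL f g) h| ≤ ∫⁻ η : E, ∫⁻ k : E,
      ENNReal.ofReal (‖f (k - η)‖ * ‖g η‖ * ‖h k‖ * min ‖η‖ ‖k‖) := by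
  rw [A3.pr_eq hf hg hh]
  have e1 : ∀ F : E → ℝ, ENNReal.ofReal |∫ k, F k| ≤ ∫⁻ k, ENNReal.ofReal |F k| := by
    intro F
    have := enorm_integral_le_lintegral_enorm (μ := (volume : Measure E)) F
    rw [← ofReal_norm, Real.norm_eq_abs] at this
    refine le_trans this (le_of_eq ?_)
    congr 1
    funext k
    rw [← ofReal_norm, Real.norm_eq_abs]
  have hm := A3.B_meas hf hg hh
  rw [← lintegral_prod_symm' (μ := (volume : Measure E)) (ν := (volume : Measure E)) _ hm,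
    lintegral_prod _ hm.aemeasurable]
  refine le_trans (e1 _) (lintegral_mono fun k => ?_)
  refine le_trans (e1 _) (lintegral_mono fun η => ?_)
  exact ENNReal.ofReal_le_ofReal (A3.X_le hf k η)

/-- TARGET -/
theorem NL_skew {g h : E → W} (hg : Adm g) (hh : Adm h) : pr (NL g h) h = 0 := by
  rw [A3.pr_eq hg hh hh]
  have hi := A3.X_int hg hh hh
  have h1 := integral_prod _ hi
  have h2 : ∫ z : E × E, A3.X g h h z.swap.1 z.swap.2 ∂((volume : Measure E).prod volume)
      = ∫ z : E × E, A3.X g h h z.1 z.2 ∂((volume : Measure E).prod volume) :=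
    integral_prod_swap (μ := (volume : Measure E)) (ν := (volume : Measure E))
      (fun z : E × E => A3.X g h h z.1 z.2)
  have h3 : ∫ z : E × E, A3.X g h h z.swap.1 z.swap.2 ∂((volume : Measure E).prod volume)
      = - ∫ z : E × E, A3.X g h h z.1 z.2 ∂((volume : Measure E).prod volume) := by
    rw [← integral_neg]
    congr 1
    funext z
    exact A3.X_skew hg z.1 z.2
  have h4 : ∫ z : E × E, A3.X g h h z.1 z.2 ∂((volume : Measure E).prod volume) = 0 := by
    linarith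
  rw [← h1]
  exact h4

/-- TARGET -/
theorem NL_diag : ∃ K : ℝ, ∀ f g h : E → W, Adm f → Adm g → Adm h → ∀ D : ℝ,
    (∀ k, (1 + ‖k‖) ^ 5 * ‖h k‖ ≤ D) → |pr (NL f h) g| ≤ K * D * nrm 0 f * nrm 0 g := by
  have hK : Integrable (fun k : E => (((1 + ‖k‖) ^ 4)⁻¹ : ℝ)) := by
    apply int_dec (C := 1)
    · apply Measurable.aestronglyMeasurable
      exact ((measurable_const.add measurable_norm).pow_const 4).inv
    · intro k
      have : 0 < (1 + ‖k‖) ^ 4 := by positivity
      rw [norm_inv, Real.norm_of_nonneg this.le, mul_inv_cancel₀ this.ne']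
  refine ⟨∫ k : E, (((1 + ‖k‖) ^ 4)⁻¹ : ℝ), ?_⟩
  intro f g h hf hg hh D hD
  have hD0 : 0 ≤ D := le_trans (by positivity) (hD 0)
  set K : ℝ := ∫ k : E, (((1 + ‖k‖) ^ 4)⁻¹ : ℝ) with hKd
  have hK0 : 0 ≤ K := integral_nonneg fun k => by positivity
  have h1 := NL_abs hf hh hg
  have h2 : ∫⁻ η : E, ∫⁻ k : E, ENNReal.ofReal (‖f (k - η)‖ * ‖h η‖ * ‖g k‖ * min ‖η‖ ‖k‖)
      ≤ ∫⁻ η : E, ENNReal.ofReal (D * ((1 + ‖η‖) ^ 4)⁻¹) * ENNReal.ofReal (nrm 0 f * nrm 0 g) := by
    apply lintegral_mono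
    intro η
    show ∫⁻ k : E, ENNReal.ofReal (‖f (k - η)‖ * ‖h η‖ * ‖g k‖ * min ‖η‖ ‖k‖) ≤ _
    have hb : ‖η‖ * ‖h η‖ ≤ D * ((1 + ‖η‖) ^ 4)⁻¹ := by
      have hp : 0 < (1 + ‖η‖) ^ 4 := by positivity
      rw [← div_eq_mul_inv, le_div_iff₀ hp]
      refine le_trans ?_ (hD η)
      have : ‖η‖ * ‖h η‖ * (1 + ‖η‖) ^ 4 ≤ (1 + ‖η‖) * ‖h η‖ * (1 + ‖η‖) ^ 4 := by
        gcongr
        linarith
      refine le_trans this (le_of_eq (by ring))
    calc ∫⁻ k : E, ENNReal.ofReal (‖f (k - η)‖ * ‖h η‖ * ‖g k‖ * min ‖η‖ ‖k‖)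
        ≤ ∫⁻ k : E, ENNReal.ofReal (D * ((1 + ‖η‖) ^ 4)⁻¹) * ENNReal.ofReal (‖f (k - η)‖ * ‖g k‖) := by
          apply lintegral_mono
          intro k
          show ENNReal.ofReal (‖f (k - η)‖ * ‖h η‖ * ‖g k‖ * min ‖η‖ ‖k‖) ≤ 
            ENNReal.ofReal (D * ((1 + ‖η‖) ^ 4)⁻¹) * ENNReal.ofReal (‖f (k - η)‖ * ‖g k‖)
          rw [← ENNReal.ofReal_mul (by positivity)]
          apply ENNReal.ofReal_le_ofReal
          calc ‖f (k - η)‖ * ‖h η‖ * ‖g k‖ * min ‖η‖ ‖k‖
              ≤ ‖f (k - η)‖ * ‖h η‖ * ‖g k‖ * ‖η‖ := by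
                gcongr
                exact min_le_left _ _
            _ = (‖η‖ * ‖h η‖) * (‖f (k - η)‖ * ‖g k‖) := by ring
            _ ≤ _ := by gcongr
      _ = ENNReal.ofReal (D * ((1 + ‖η‖) ^ 4)⁻¹) * ∫⁻ k : E, ENNReal.ofReal (‖f (k - η)‖ * ‖g k‖) := by
          rw [lintegral_const_mul]
          exact (((hf.meas.comp (measurable_id.sub_const η)).norm).mul hg.meas.norm).ennreal_ofReal
      _ ≤ _ := mul_le_mul_right (A3.cs hf hg η) _
  have h3 : ∫⁻ η : E, ENNReal.ofReal (D * ((1 + ‖η‖) ^ 4)⁻¹) * ENNReal.ofReal (nrm 0 f * nrm 0 g)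
      = ENNReal.ofReal (K * D * nrm 0 f * nrm 0 g) := by
    rw [lintegral_mul_const]
    · rw [← ofReal_integral_eq_lintegral_ofReal (hK.const_mul D)
        (Filter.Eventually.of_forall fun k => by positivity), integral_const_mul,
        ← ENNReal.ofReal_mul (by positivity)]
      congr 1
      ring
    · exact (((measurable_const.add measurable_norm).pow_const 4).inv.const_mul D).ennreal_ofReal
  have h4 := le_trans h1 (le_trans h2 (le_of_eq h3))
  have h5 : 0 ≤ K * D * nrm 0 f * nrm 0 g := by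
    have := nrm_nonneg 0 f
    have := nrm_nonneg 0 g
    positivity
  exact (ENNReal.ofReal_le_ofReal_iff h5).1 h4

end H706N.JA3

namespace H706N

alias NL_abs := JA3.NL_abs
alias NL_skew := JA3.NL_skew
alias NL_diag := JA3.NL_diag

end H706N
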