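import Pool.Agent.Helper706_NS.Defs2
import Pool.Agent.Helper706_NS.A3
import Pool.Agent.Helper706_NS.A4b

set_option autoImplicit false
open Set Filter Topology MeasureTheory
open scoped ComplexConjugate ContDiff

namespace H706N.JA5

theorem min_le_rpow_mul {x y θ : ℝ} (hx : 0 < x) (hy : 0 < y) (h0 : 0 ≤ θ) (h1 : θ ≤ 1) :
    min x y ≤ x ^ θ * y ^ (1 - θ) := by
  have hm : 0 < min x y := lt_min hx hy
  calc min x y = (min x y) ^ θ * (min x y) ^ (1 - θ) := by
        rw [← Real.rpow_add hm]; simp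
    _ ≤ x ^ θ * y ^ (1 - θ) := by
        apply mul_le_mul
        · exact Real.rpow_le_rpow hm.le (min_le_left _ _) h0
        · exact Real.rpow_le_rpow hm.le (min_le_right _ _) (by linarith)
        · positivity
        · positivity

theorem lint_sq {g : E → W} (hg : Adm g) {a : ℝ} (ha : -(3 / 2) < a) :
    (∫⁻ x : E, (ENNReal.ofReal (‖x‖ ^ a * ‖g x‖)) ^ 2) ^ (1 / 2 : ℝ) = ENNReal.ofReal (nrm a g) := by
  have h1 : ∀ x : E, (ENNReal.ofReal (‖x‖ ^ a * ‖g x‖)) ^ 2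
      = ENNReal.ofReal (‖x‖ ^ (2 * a) * ‖g x‖ ^ 2) := by
    intro x
    rw [← ENNReal.ofReal_pow (by positivity)]
    congr 1
    rw [mul_pow, mul_comm 2 a, Real.rpow_mul (norm_nonneg x)]
    norm_num
  simp_rw [h1]
  rw [← ofReal_integral_eq_lintegral_ofReal (hg.int_sq ha)
    (Filter.Eventually.of_forall fun x => by positivity)]
  unfold nrm
  rw [Real.sqrt_eq_rpow, ENNReal.ofReal_rpow_of_nonneg (integral_nonneg fun x => by positivity)
    (by norm_num)]

theorem cone_meas (c : ℝ) : MeasurableSet (cone c) := by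
  apply IsClosed.measurableSet
  unfold cone
  apply isClosed_le <;> fun_prop

theorem cone_vol {c R : ℝ} (hc : 0 < c) (hR : 0 < R) :
    volume (cone c ∩ Metric.closedBall 0 R) ≤ ENNReal.ofReal (8 * c ^ 2 * R ^ 3) := by
  have hsub : cone c ∩ Metric.closedBall 0 R ⊆
      (WithLp.ofLp : E → Fin 3 → ℝ) ⁻¹' (Set.pi univ fun i : Fin 3 =>
        Icc (-(![c * R, c * R, R] i)) (![c * R, c * R, R] i)) := by
    rintro k ⟨hk, hkR⟩
    simp only [cone, Set.mem_ofPred_eq] at hk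
    have hn : k 0 ^ 2 + k 1 ^ 2 + k 2 ^ 2 ≤ R ^ 2 := by
      have h1 : ‖k‖ ≤ R := by simpa using hkR
      have h2 : ‖k‖ ^ 2 = k 0 ^ 2 + k 1 ^ 2 + k 2 ^ 2 := by
        rw [EuclideanSpace.norm_sq_eq]
        simp [Fin.sum_univ_three]
      rw [← h2]
      exact pow_le_pow_left₀ (norm_nonneg _) h1 2
    have h2R : k 2 ^ 2 ≤ R ^ 2 := by nlinarith [sq_nonneg (k 0), sq_nonneg (k 1)]
    have h0R : k 0 ^ 2 ≤ (c * R) ^ 2 := by nlinarith [sq_nonneg (k 1), sq_nonneg c, mul_le_mul_of_nonneg_left h2R (sq_nonneg c)]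
    have h1R : k 1 ^ 2 ≤ (c * R) ^ 2 := by nlinarith [sq_nonneg (k 0), sq_nonneg c, mul_le_mul_of_nonneg_left h2R (sq_nonneg c)]
    have hcR : 0 ≤ c * R := by positivity
    have a0 := abs_le_of_sq_le_sq' h0R hcR
    have a1 := abs_le_of_sq_le_sq' h1R hcR
    have a2 := abs_le_of_sq_le_sq' h2R hR.le
    simp only [Set.mem_preimage, Set.mem_pi, Set.mem_univ, true_implies]
    intro i
    fin_cases i
    · simpa using a0
    · simpa using a1
    · simpa using a2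
  refine (measure_mono hsub).trans ?_
  rw [(PiLp.volume_preserving_ofLp (Fin 3)).measure_preimage
    (MeasurableSet.univ_pi fun i => measurableSet_Icc).nullMeasurableSet]
  rw [MeasureTheory.volume_pi_pi]
  simp only [Real.volume_Icc, Fin.prod_univ_three]
  rw [← ENNReal.ofReal_mul (by simp; positivity), ← ENNReal.ofReal_mul (by simp; positivity)]
  apply ENNReal.ofReal_le_ofReal
  simp
  nlinarith

/-- TARGET -/
theorem NL_small {α β γ : ℝ} (h : α + β + γ = 5 / 2) (hα : -(3 / 2) < α) (hα' : α < 3 / 2)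
    (hβ : β < 5 / 2) (hγ : γ < 5 / 2) {δ : ℝ} (hδ : 0 < δ) : ∃ c₀ > 0, ∀ c ∈ Ioc 0 c₀,
    ∀ f g h : E → W, Adm f → Adm g → Adm h →
      |pr (NL (cut c f) g) h| ≤ δ * nrm α f * nrm β g * nrm γ h := by
  have hβ' : -(3 / 2) < β := by linarith
  have hγ' : -(3 / 2) < γ := by linarith
  obtain ⟨θ, hθ0, hθ1, hθb, hθc⟩ : ∃ θ : ℝ, 0 ≤ θ ∧ θ ≤ 1 ∧ β - θ < 3 / 2 ∧ γ - 1 + θ < 3 / 2 := by
    have hlt : max 0 (β - 3 / 2) < min 1 (5 / 2 - γ) := by
      apply max_lt <;> apply lt_min <;> linarith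
    obtain ⟨θ, h1, h2⟩ := exists_between hlt
    have h3 := max_lt_iff.1 h1
    have h4 := lt_min_iff.1 h2
    exact ⟨θ, h3.1.le, h4.1.le, by linarith [h3.2], by linarith [h4.2]⟩
  obtain ⟨μ, hμ, H⟩ := tri_small (a := α) (b := β - θ) (c := γ - 1 + θ) hα' hθb hθc
    (by linarith) hδ
  refine ⟨Real.sqrt (μ / 8), Real.sqrt_pos.2 (by positivity), ?_⟩
  rintro c ⟨hc0, hc⟩ f g h' hf hg hh
  have hc2 : 8 * c ^ 2 ≤ μ := by
    have h1 : c ^ 2 ≤ Real.sqrt (μ / 8) ^ 2 := pow_le_pow_left₀ hc0.le hc 2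
    rw [Real.sq_sqrt (by positivity)] at h1
    linarith
  have key := H (cone c) (cone_meas c) (fun R hR => (cone_vol hc0 hR).trans
    (ENNReal.ofReal_le_ofReal (mul_le_mul_of_nonneg_right hc2 (by positivity))))
    (fun x => ENNReal.ofReal (‖x‖ ^ α * ‖f x‖)) (fun x => ENNReal.ofReal (‖x‖ ^ β * ‖g x‖))
    (fun x => ENNReal.ofReal (‖x‖ ^ γ * ‖h' x‖))
    (ENNReal.measurable_ofReal.comp ((measurable_norm.pow_const α).mul hf.meas.norm))
    (ENNReal.measurable_ofReal.comp ((measurable_norm.pow_const β).mul hg.meas.norm))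
    (ENNReal.measurable_ofReal.comp ((measurable_norm.pow_const γ).mul hh.meas.norm))
  rw [lint_sq hf hα, lint_sq hg hβ', lint_sq hh hγ'] at key
  have hle : ENNReal.ofReal |pr (NL (cut c f) g) h'| ≤
      ENNReal.ofReal δ * ENNReal.ofReal (nrm α f) * ENNReal.ofReal (nrm β g)
        * ENNReal.ofReal (nrm γ h') := by
    refine ((NL_abs (adm_cut hf c) hg hh).trans ?_).trans key
    have hne : ∀ᵐ x : E, x ≠ 0 := by
      simp [ae_iff, measure_singleton]
    refine lintegral_mono_ae ?_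
    filter_upwards [hne] with η hη
    refine lintegral_mono_ae ?_
    have hne' : ∀ᵐ x : E, x ≠ η := by
      simp [ae_iff, measure_singleton]
    filter_upwards [hne, hne'] with k hk hkη
    by_cases hc : k - η ∈ cone c
    · have n1 : 0 < ‖k - η‖ := norm_pos_iff.2 (sub_ne_zero.2 hkη)
      have n2 : 0 < ‖η‖ := norm_pos_iff.2 hη
      have n3 : 0 < ‖k‖ := norm_pos_iff.2 hk
      rw [Set.indicator_of_mem hc, Pi.one_apply, one_mul]
      simp only [cut]
      rw [Set.indicator_of_mem hc]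
      rw [← ENNReal.ofReal_mul (by positivity), ← ENNReal.ofReal_mul (by positivity),
        ← ENNReal.ofReal_mul (by positivity), ← ENNReal.ofReal_mul (by positivity),
        ← ENNReal.ofReal_mul (by positivity)]
      apply ENNReal.ofReal_le_ofReal
      have e1 : ‖k - η‖ ^ (-α) * (‖k - η‖ ^ α * ‖f (k - η)‖) = ‖f (k - η)‖ := by
        rw [← mul_assoc, ← Real.rpow_add n1]; simp
      have e2 : ‖η‖ ^ (-(β - θ)) * (‖η‖ ^ β * ‖g η‖) = ‖η‖ ^ θ * ‖g η‖ := by
        rw [← mul_assoc, ← Real.rpow_add n2]; congr 2; ring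
      have e3 : ‖k‖ ^ (-(γ - 1 + θ)) * (‖k‖ ^ γ * ‖h' k‖) = ‖k‖ ^ (1 - θ) * ‖h' k‖ := by
        rw [← mul_assoc, ← Real.rpow_add n3]; congr 2; ring
      rw [e1, e2, e3]
      have e4 := min_le_rpow_mul n2 n3 hθ0 hθ1
      calc ‖f (k - η)‖ * ‖g η‖ * ‖h' k‖ * min ‖η‖ ‖k‖
          ≤ ‖f (k - η)‖ * ‖g η‖ * ‖h' k‖ * (‖η‖ ^ θ * ‖k‖ ^ (1 - θ)) :=
            mul_le_mul_of_nonneg_left e4 (by positivity)
        _ = ‖f (k - η)‖ * (‖η‖ ^ θ * ‖g η‖) * (‖k‖ ^ (1 - θ) * ‖h' k‖) := by ring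
    · simp only [cut]
      rw [Set.indicator_of_notMem hc]
      simp
  have hn1 := nrm_nonneg α f
  have hn2 := nrm_nonneg β g
  have hn3 := nrm_nonneg γ h'
  rw [← ENNReal.ofReal_mul hδ.le, ← ENNReal.ofReal_mul (by positivity),
    ← ENNReal.ofReal_mul (by positivity)] at hle
  exact (ENNReal.ofReal_le_ofReal_iff (by positivity)).1 hle

end H706N.JA5

namespace H706N

alias NL_small := JA5.NL_small

end H706N
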