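import Pool.Agent.Helper706_NS.Defs2

set_option autoImplicit false
open Set Filter Topology MeasureTheory
open scoped ComplexConjugate ContDiff

namespace H706N.JB1

namespace B1

noncomputable def bet (x : ℝ) : ℝ := Real.smoothTransition (2 - 4 * x)

noncomputable def av (c : ℝ) (k : E) : ℝ :=
  bet ((k 0 ^ 2 + k 1 ^ 2) / (c ^ 2 * ‖k‖ ^ 2)) / ‖k‖

noncomputable def V0 (c : ℝ) (k : E) : W :=
  WithLp.toLp 2 ![((-(av c k * k 1) : ℝ) : ℂ) * Complex.I, ((av c k * k 0 : ℝ) : ℂ) * Complex.I, 0]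

lemma V0_0 (c : ℝ) (k : E) : V0 c k 0 = ((-(av c k * k 1) : ℝ) : ℂ) * Complex.I := rfl
lemma V0_1 (c : ℝ) (k : E) : V0 c k 1 = ((av c k * k 0 : ℝ) : ℂ) * Complex.I := rfl
lemma V0_2 (c : ℝ) (k : E) : V0 c k 2 = 0 := rfl

lemma nsq (k : E) : ‖k‖ ^ 2 = k 0 ^ 2 + k 1 ^ 2 + k 2 ^ 2 := by
  rw [EuclideanSpace.norm_sq_eq, Fin.sum_univ_three]
  simp [Real.norm_eq_abs, sq_abs]

lemma V0_nsq (c : ℝ) (k : E) : ‖V0 c k‖ ^ 2 = av c k ^ 2 * (k 0 ^ 2 + k 1 ^ 2) := by
  rw [EuclideanSpace.norm_sq_eq, Fin.sum_univ_three, V0_0, V0_1, V0_2]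
  simp only [norm_mul, Complex.norm_I, Complex.norm_real, Real.norm_eq_abs, norm_zero, mul_one,
    abs_neg, abs_mul, mul_pow, sq_abs]
  ring

lemma bet_nonneg (x : ℝ) : 0 ≤ bet x := Real.smoothTransition.nonneg _
lemma bet_le_one (x : ℝ) : bet x ≤ 1 := Real.smoothTransition.le_one _

lemma V0_bd (c : ℝ) (k : E) : ‖V0 c k‖ ≤ 1 := by
  have h := V0_nsq c k
  have h2 : ‖V0 c k‖ ^ 2 ≤ 1 := by
    rw [h]
    unfold av
    set b := bet ((k 0 ^ 2 + k 1 ^ 2) / (c ^ 2 * ‖k‖ ^ 2)) with hb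
    have hb0 : 0 ≤ b := bet_nonneg _
    have hb1 : b ≤ 1 := bet_le_one _
    by_cases hk : k = 0
    · subst hk; simp
    · have hk' : 0 < ‖k‖ ^ 2 := by positivity
      rw [div_pow, div_mul_eq_mul_div, div_le_one hk']
      have hh := nsq k
      have h3 : b ^ 2 ≤ 1 := by nlinarith
      have h4 : 0 ≤ k 0 ^ 2 + k 1 ^ 2 := by positivity
      have h5 : b ^ 2 * (k 0 ^ 2 + k 1 ^ 2) ≤ 1 * (k 0 ^ 2 + k 1 ^ 2) :=
        mul_le_mul_of_nonneg_right h3 h4
      nlinarith [sq_nonneg (k 2)]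
  nlinarith [norm_nonneg (V0 c k)]

lemma av_smul (c r : ℝ) (hr : 0 < r) (k : E) : av c (r • k) = av c k / r := by
  unfold av
  have h1 : ‖r • k‖ = r * ‖k‖ := by rw [norm_smul, Real.norm_eq_abs, abs_of_pos hr]
  have h2 : ((r • k) 0 ^ 2 + (r • k) 1 ^ 2) / (c ^ 2 * ‖r • k‖ ^ 2)
      = (k 0 ^ 2 + k 1 ^ 2) / (c ^ 2 * ‖k‖ ^ 2) := by
    rw [h1]
    simp only [PiLp.smul_apply, smul_eq_mul]
    have : ((r * k 0) ^ 2 + (r * k 1) ^ 2) = r ^ 2 * (k 0 ^ 2 + k 1 ^ 2) := by ring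
    rw [this]
    have : c ^ 2 * (r * ‖k‖) ^ 2 = r ^ 2 * (c ^ 2 * ‖k‖ ^ 2) := by ring
    rw [this, mul_div_mul_left _ _ (by positivity)]
  rw [h2, h1, div_div, mul_comm r]

lemma V0_hom (c r : ℝ) (hr : 0 < r) (k : E) : V0 c (r • k) = V0 c k := by
  ext j
  have h1 : av c k / r * (r * k 1) = av c k * k 1 := by field_simp
  have h2 : av c k / r * (r * k 0) = av c k * k 0 := by field_simp
  fin_cases j
  · show V0 c (r • k) 0 = V0 c k 0
    rw [V0_0, V0_0, av_smul c r hr, PiLp.smul_apply, smul_eq_mul, h1]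
  · show V0 c (r • k) 1 = V0 c k 1
    rw [V0_1, V0_1, av_smul c r hr, PiLp.smul_apply, smul_eq_mul, h2]
  · show V0 c (r • k) 2 = V0 c k 2
    rw [V0_2, V0_2]

lemma av_neg (c : ℝ) (k : E) : av c (-k) = av c k := by
  unfold av
  simp

lemma V0_herm (c : ℝ) (k : E) (j : Fin 3) : V0 c (-k) j = conj (V0 c k j) := by
  fin_cases j
  · show V0 c (-k) 0 = conj (V0 c k 0)
    rw [V0_0, V0_0, av_neg]
    simp
  · show V0 c (-k) 1 = conj (V0 c k 1)
    rw [V0_1, V0_1, av_neg]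
    simp
  · show V0 c (-k) 2 = conj (V0 c k 2)
    rw [V0_2, V0_2]
    simp

lemma V0_divf (c : ℝ) (k : E) : kd k (V0 c k) = 0 := by
  unfold kd
  rw [Fin.sum_univ_three, V0_0, V0_1, V0_2]
  push_cast
  ring

lemma av_supp {c : ℝ} (hc : 0 < c) (hc1 : c ≤ 1) (k : E) (hk : k ∉ cone c) : av c k = 0 := by
  have hk0 : k ≠ 0 := by
    rintro rfl
    exact hk (by simp [cone])
  simp only [cone, Set.mem_ofPred_eq, not_le] at hk
  unfold av
  have hn := nsq k
  have hp : 0 < ‖k‖ := norm_pos_iff.2 hk0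
  have hx : 1 / 2 ≤ (k 0 ^ 2 + k 1 ^ 2) / (c ^ 2 * ‖k‖ ^ 2) := by
    rw [le_div_iff₀ (by positivity), hn]
    have hc2 : c ^ 2 ≤ 1 := by nlinarith
    have : c ^ 2 * (k 0 ^ 2 + k 1 ^ 2) ≤ 1 * (k 0 ^ 2 + k 1 ^ 2) :=
      mul_le_mul_of_nonneg_right hc2 (by positivity)
    nlinarith
  have : bet ((k 0 ^ 2 + k 1 ^ 2) / (c ^ 2 * ‖k‖ ^ 2)) = 0 := by
    unfold bet
    apply Real.smoothTransition.zero_of_nonpos
    linarith
  rw [this, zero_div]

lemma V0_of_av {c : ℝ} {k : E} (h : av c k = 0) : V0 c k = 0 := by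
  ext j
  fin_cases j
  · show V0 c k 0 = 0
    rw [V0_0, h]; simp
  · show V0 c k 1 = 0
    rw [V0_1, h]; simp
  · show V0 c k 2 = 0
    rw [V0_2]

lemma av_zero (c : ℝ) : av c 0 = 0 := by simp [av]

lemma V0_zero (c : ℝ) : V0 c 0 = 0 := V0_of_av (av_zero c)

lemma coord_smooth (i : Fin 3) : ContDiff ℝ ∞ (fun k : E => k i) :=
  (EuclideanSpace.proj (𝕜 := ℝ) i : E →L[ℝ] ℝ).contDiff

lemma coord_meas (i : Fin 3) : Measurable (fun k : E => k i) :=
  (EuclideanSpace.proj (𝕜 := ℝ) i : E →L[ℝ] ℝ).continuous.measurable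

lemma av_smooth {c : ℝ} (hc : 0 < c) : ContDiffOn ℝ ∞ (av c) {0}ᶜ := by
  intro k hk
  have hk0 : k ≠ 0 := hk
  have hp : 0 < ‖k‖ := norm_pos_iff.2 hk0
  apply ContDiffAt.contDiffWithinAt
  unfold av
  apply ContDiffAt.div
  · have h1 : ContDiffAt ℝ ∞ (fun k : E => (k 0 ^ 2 + k 1 ^ 2) / (c ^ 2 * ‖k‖ ^ 2)) k := by
      apply ContDiffAt.div
      · exact (((coord_smooth 0).pow 2).add ((coord_smooth 1).pow 2)).contDiffAt
      · exact (contDiff_const.mul (contDiff_norm_sq ℝ)).contDiffAt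
      · positivity
    have h2 : ContDiff ℝ ∞ bet := by
      unfold bet
      exact (Real.smoothTransition.contDiff (n := ⊤)).comp
        (contDiff_const.sub (contDiff_const.mul contDiff_id))
    exact h2.contDiffAt.comp k h1
  · exact contDiffAt_norm ℝ hk0
  · exact hp.ne'

lemma V0_smooth {c : ℝ} (hc : 0 < c) : ContDiffOn ℝ ∞ (V0 c) {0}ᶜ := by
  rw [contDiffOn_piLp]
  intro i
  have ha := av_smooth hc
  have hof : ContDiff ℝ ∞ (fun x : ℝ => (x : ℂ)) := Complex.ofRealCLM.contDiff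
  fin_cases i
  · show ContDiffOn ℝ ∞ (fun k => ((-(av c k * k 1) : ℝ) : ℂ) * Complex.I) {0}ᶜ
    exact (hof.comp_contDiffOn (ha.mul (coord_smooth 1).contDiffOn).neg).mul contDiffOn_const
  · show ContDiffOn ℝ ∞ (fun k => ((av c k * k 0 : ℝ) : ℂ) * Complex.I) {0}ᶜ
    exact (hof.comp_contDiffOn (ha.mul (coord_smooth 0).contDiffOn)).mul contDiffOn_const
  · show ContDiffOn ℝ ∞ (fun k => (0 : ℂ)) {0}ᶜ
    exact contDiffOn_const

lemma av_meas (c : ℝ) : Measurable (av c) := by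
  unfold av
  have h0 := coord_meas 0
  have h1 := coord_meas 1
  have h2 : Measurable bet := by
    unfold bet
    exact (Real.smoothTransition.continuous.comp
      (continuous_const.sub (continuous_const.mul continuous_id))).measurable
  exact (h2.comp (((h0.pow_const 2).add (h1.pow_const 2)).div
    ((measurable_norm.pow_const 2).const_mul _))).div measurable_norm

lemma V0_meas (c : ℝ) : Measurable (V0 c) := by
  have h0 := coord_meas 0
  have h1 := coord_meas 1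
  have ha := av_meas c
  apply (WithLp.measurable_toLp 2 (Fin 3 → ℂ)).comp
  rw [measurable_pi_iff]
  intro i
  fin_cases i
  · show Measurable (fun k => ((-(av c k * k 1) : ℝ) : ℂ) * Complex.I)
    exact (Complex.measurable_ofReal.comp (ha.mul h1).neg).mul_const _
  · show Measurable (fun k => ((av c k * k 0 : ℝ) : ℂ) * Complex.I)
    exact (Complex.measurable_ofReal.comp (ha.mul h0)).mul_const _
  · show Measurable (fun k => (0 : ℂ))
    exact measurable_const

/-- The weight. -/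
noncomputable def wt (c : ℝ) (k : E) : ENNReal := ENNReal.ofReal (‖k‖ ^ (-3 : ℝ) * ‖V0 c k‖ ^ 2)

lemma wt_meas (c : ℝ) : Measurable (wt c) := by
  unfold wt
  exact ((measurable_norm.pow_const _).mul ((V0_meas c).norm.pow_const 2)).ennreal_ofReal

lemma wt_zero (c : ℝ) : wt c 0 = 0 := by
  unfold wt
  rw [V0_zero]
  simp

lemma wt_smul (c r : ℝ) (hr : 0 < r) (k : E) :
    wt c (r • k) = ENNReal.ofReal (r ^ (-3 : ℝ)) * wt c k := by
  unfold wt
  rw [V0_hom c r hr, norm_smul, Real.norm_eq_abs, abs_of_pos hr,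
    Real.mul_rpow hr.le (norm_nonneg k), mul_assoc, ENNReal.ofReal_mul (by positivity)]

/-- The measure on the logarithmic scale. -/
noncomputable def mu (c : ℝ) : Measure ℝ :=
  Measure.map (fun k : E => Real.log ‖k‖) ((volume : Measure E).withDensity (wt c))

lemma lognorm_meas : Measurable (fun k : E => Real.log ‖k‖) :=
  Real.measurable_log.comp measurable_norm

lemma lint_mu (c : ℝ) {φ : ℝ → ENNReal} (hφ : Measurable φ) :
    ∫⁻ s, φ s ∂(mu c) = ∫⁻ k : E, wt c k * φ (Real.log ‖k‖) := by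
  unfold mu
  rw [lintegral_map hφ lognorm_meas]
  exact lintegral_withDensity_eq_lintegral_mul _ (wt_meas c) (hφ.comp lognorm_meas)

lemma lint_smul (r : ℝ) (hr : 0 < r) {f : E → ENNReal} (hf : Measurable f) :
    ∫⁻ k : E, f (r • k) = ENNReal.ofReal (r ^ (-3 : ℝ)) * ∫⁻ k : E, f k := by
  have h := Measure.map_addHaar_smul (volume : Measure E) hr.ne'
  have h2 : ∫⁻ k : E, f (r • k) = ∫⁻ k, f k ∂(Measure.map (fun x : E => r • x) volume) := by
    rw [lintegral_map hf (measurable_const_smul r)]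
  rw [h2, h, lintegral_smul_measure, smul_eq_mul]
  congr 2
  rw [finrank_euclideanSpace, Fintype.card_fin, abs_of_nonneg (by positivity),
    Real.rpow_neg hr.le]
  norm_num

lemma mu_inv (c g : ℝ) : Measure.map (fun x => g + x) (mu c) = mu c := by
  ext s hs
  rw [Measure.map_apply (measurable_const_add g) hs]
  have hs' : MeasurableSet ((fun x => g + x) ⁻¹' s) := measurable_const_add g hs
  rw [← lintegral_indicator_one hs', ← lintegral_indicator_one hs,
    lint_mu c (measurable_one.indicator hs'), lint_mu c (measurable_one.indicator hs)]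
  set r := Real.exp g with hr
  have hr0 : 0 < r := Real.exp_pos g
  have hm : Measurable (fun k : E => wt c k * s.indicator 1 (Real.log ‖k‖)) :=
    (wt_meas c).mul ((measurable_one.indicator hs).comp lognorm_meas)
  have h1 := lint_smul r hr0 hm
  have h2 : (fun k : E => wt c (r • k) * s.indicator (1 : ℝ → ENNReal) (Real.log ‖r • k‖))
      = fun k : E => ENNReal.ofReal (r ^ (-3 : ℝ)) *
        (wt c k * ((fun x => g + x) ⁻¹' s).indicator (1 : ℝ → ENNReal) (Real.log ‖k‖)) := by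
    funext k
    by_cases hk : k = 0
    · subst hk
      rw [smul_zero, wt_zero]; simp
    · have hp : 0 < ‖k‖ := norm_pos_iff.2 hk
      have hl : Real.log ‖r • k‖ = g + Real.log ‖k‖ := by
        rw [norm_smul, Real.norm_eq_abs, abs_of_pos hr0, Real.log_mul hr0.ne' hp.ne', hr,
          Real.log_exp]
      rw [wt_smul c r hr0, hl, mul_assoc]
      rfl
  rw [h2, lintegral_const_mul] at h1
  · have hne : ENNReal.ofReal (r ^ (-3 : ℝ)) ≠ 0 := by
      rw [Ne, ENNReal.ofReal_eq_zero, not_le]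
      positivity
    exact (ENNReal.mul_right_inj hne ENNReal.ofReal_ne_top).1 h1
  · exact (wt_meas c).mul ((measurable_one.indicator hs').comp lognorm_meas)

instance (c : ℝ) : (mu c).IsAddLeftInvariant := ⟨mu_inv c⟩

instance (c : ℝ) : IsFiniteMeasureOnCompacts (mu c) := by
  refine ⟨fun K hK => ?_⟩
  obtain ⟨R, hR⟩ := hK.isBounded.subset_closedBall 0
  have hKm : MeasurableSet (Metric.closedBall (0 : ℝ) R) := measurableSet_closedBall
  refine lt_of_le_of_lt (measure_mono hR) ?_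
  rw [← lintegral_indicator_one hKm, lint_mu c (measurable_one.indicator hKm)]
  have hle : ∫⁻ k : E, wt c k * (Metric.closedBall (0 : ℝ) R).indicator 1 (Real.log ‖k‖)
      ≤ ∫⁻ k : E, (Metric.closedBall (0 : E) (Real.exp R)).indicator
          (fun _ => ENNReal.ofReal (Real.exp (3 * R))) k := by
    apply lintegral_mono
    intro k
    show wt c k * (Metric.closedBall (0 : ℝ) R).indicator 1 (Real.log ‖k‖) ≤ _
    by_cases hk : k = 0
    · subst hk; rw [wt_zero]; simp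
    have hp : 0 < ‖k‖ := norm_pos_iff.2 hk
    by_cases hl : Real.log ‖k‖ ∈ Metric.closedBall (0 : ℝ) R
    · have hl' : |Real.log ‖k‖| ≤ R := by simpa using hl
      obtain ⟨hl1, hl2⟩ := abs_le.1 hl'
      have hk1 : ‖k‖ ≤ Real.exp R := by
        rw [← Real.exp_log hp]; exact Real.exp_le_exp.2 hl2
      have hk2 : k ∈ Metric.closedBall (0 : E) (Real.exp R) := by simpa using hk1
      rw [Set.indicator_of_mem hl, Set.indicator_of_mem hk2, Pi.one_apply, mul_one]
      unfold wt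
      apply ENNReal.ofReal_le_ofReal
      have h3 : ‖k‖ ^ (-3 : ℝ) ≤ Real.exp (3 * R) := by
        rw [Real.rpow_def_of_pos hp]
        apply Real.exp_le_exp.2
        linarith
      have h4 : ‖V0 c k‖ ^ 2 ≤ 1 := by
        have := V0_bd c k
        have := norm_nonneg (V0 c k)
        nlinarith
      have h5 : 0 ≤ ‖k‖ ^ (-3 : ℝ) := by positivity
      calc ‖k‖ ^ (-3 : ℝ) * ‖V0 c k‖ ^ 2 ≤ ‖k‖ ^ (-3 : ℝ) * 1 :=
            mul_le_mul_of_nonneg_left h4 h5
        _ ≤ _ := by rw [mul_one]; exact h3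
    · rw [Set.indicator_of_notMem hl, mul_zero]
      exact zero_le
  refine lt_of_le_of_lt hle ?_
  rw [lintegral_indicator measurableSet_closedBall, lintegral_const, Measure.restrict_apply_univ]
  exact ENNReal.mul_lt_top ENNReal.ofReal_lt_top measure_closedBall_lt_top

lemma mu_ne {c : ℝ} (hc : 0 < c) : mu c ≠ 0 := by
  intro h0
  have h1 : ∫⁻ k : E, wt c k = 0 := by
    have := lint_mu c (φ := fun _ => 1) measurable_const
    rw [h0] at this
    simpa using this.symm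
  rw [lintegral_eq_zero_iff (wt_meas c)] at h1
  set U : Set E := {k | 0 < k 0 ∧ 4 * (k 0 ^ 2 + k 1 ^ 2) < c ^ 2 * ‖k‖ ^ 2} with hU
  have hUo : IsOpen U := by
    apply IsOpen.inter
    · exact isOpen_lt continuous_const (coord_smooth 0).continuous
    · exact isOpen_lt (continuous_const.mul (((coord_smooth 0).continuous.pow 2).add
        ((coord_smooth 1).continuous.pow 2))) (continuous_const.mul (continuous_norm.pow 2))
  have hUn : U.Nonempty := by
    refine ⟨WithLp.toLp 2 ![c / 4, 0, 1], ?_, ?_⟩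
    · show 0 < c / 4
      positivity
    · rw [nsq]
      show 4 * ((c / 4) ^ 2 + 0 ^ 2) < c ^ 2 * ((c / 4) ^ 2 + 0 ^ 2 + 1 ^ 2)
      nlinarith [pow_pos hc 2, pow_pos hc 4]
  have hUm : 0 < volume U := hUo.measure_pos volume hUn
  have hsub : U ⊆ {k | ¬ (wt c k = (0 : E → ENNReal) k)} := by
    rintro k ⟨hk0, hk1⟩ hw
    have hkne : k ≠ 0 := by
      rintro rfl
      simp at hk0
    have hp : 0 < ‖k‖ := norm_pos_iff.2 hkne
    have hb : bet ((k 0 ^ 2 + k 1 ^ 2) / (c ^ 2 * ‖k‖ ^ 2)) = 1 := by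
      unfold bet
      apply Real.smoothTransition.one_of_one_le
      have : (k 0 ^ 2 + k 1 ^ 2) / (c ^ 2 * ‖k‖ ^ 2) ≤ 1 / 4 := by
        rw [div_le_iff₀ (by positivity)]
        linarith
      linarith
    have hpos : 0 < ‖k‖ ^ (-3 : ℝ) * ‖V0 c k‖ ^ 2 := by
      rw [V0_nsq]
      unfold av
      rw [hb]
      positivity
    have : wt c k = 0 := hw
    unfold wt at this
    rw [ENNReal.ofReal_eq_zero] at this
    linarith
  have hz : volume {k | ¬ (wt c k = (0 : E → ENNReal) k)} = 0 := h1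
  exact absurd (measure_mono_null hsub hz) hUm.ne'

end B1

/-- TARGET -/
theorem exists_Ang {c : ℝ} (hc : 0 < c) (hc1 : c ≤ 1) : ∃ (V : E → W) (cV : ℝ), Ang c cV V := by
  have hmu := Measure.isAddLeftInvariant_eq_smul (B1.mu c) (volume : Measure ℝ)
  set q : NNReal := (B1.mu c).addHaarScalarFactor (volume : Measure ℝ) with hq
  refine ⟨B1.V0 c, (q : ℝ), B1.V0_meas c, fun r hr k => B1.V0_hom c r hr k, B1.V0_bd c, B1.V0_herm c, B1.V0_divf c,
    fun k hk => B1.V0_of_av (B1.av_supp hc hc1 k hk), B1.V0_smooth hc, ?_, ?_⟩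
  · rcases eq_or_ne q 0 with h | h
    · exfalso
      rw [h, zero_smul] at hmu
      exact B1.mu_ne hc hmu
    · exact NNReal.coe_pos.2 (pos_iff_ne_zero.2 h)
  · intro φ hφ
    have h := B1.lint_mu c hφ
    rw [hmu, lintegral_smul_measure] at h
    have h2 : (∫⁻ k : E, ENNReal.ofReal (‖k‖ ^ (-3 : ℝ) * ‖B1.V0 c k‖ ^ 2) * φ (Real.log ‖k‖))
        = ∫⁻ k : E, B1.wt c k * φ (Real.log ‖k‖) := rfl
    rw [h2, ← h, ENNReal.ofReal_coe_nnreal]
    rfl

end H706N.JB1

namespace H706N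

alias exists_Ang := JB1.exists_Ang

end H706N
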