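import Pool.Agent.Helper706_NS.Defs2
import Pool.Agent.Helper706_NS.A1

set_option autoImplicit false
open Set Filter Topology MeasureTheory
open scoped ComplexConjugate ContDiff

namespace H706N.JB2

/-- Cauchy–Schwarz with two weights. -/
theorem cs_aux {f A B : E → ℝ} (hA : Integrable A) (hB : Integrable B) (hA0 : ∀ k, 0 ≤ A k)
    (hB0 : ∀ k, 0 ≤ B k) (hf : AEStronglyMeasurable f volume) (h : ∀ᵐ k, f k ^ 2 ≤ A k * B k) :
    Integrable f ∧ (∫ k, f k) ^ 2 ≤ (∫ k, A k) * ∫ k, B k := by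
  have key : ∀ᵐ k, ∀ t : ℝ, 2 * t * |f k| ≤ t ^ 2 * A k + B k := by
    filter_upwards [h] with k hk t
    have h1 : (2 * t * |f k|) ^ 2 ≤ (t ^ 2 * A k + B k) ^ 2 := by
      have : (2 * t * |f k|) ^ 2 = 4 * t ^ 2 * f k ^ 2 := by rw [mul_pow, sq_abs]; ring
      rw [this]
      nlinarith [mul_le_mul_of_nonneg_left hk (by positivity : 0 ≤ 4 * t ^ 2),
        sq_nonneg (t ^ 2 * A k - B k)]
    have h2 : 0 ≤ t ^ 2 * A k + B k := add_nonneg (mul_nonneg (sq_nonneg t) (hA0 k)) (hB0 k)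
    exact le_of_abs_le (abs_le_of_sq_le_sq h1 h2)
  have hint : Integrable f := by
    refine Integrable.mono' (g := fun k => A k + B k) (hA.add hB) hf ?_
    filter_upwards [key] with k hk
    have := hk 1
    rw [Real.norm_eq_abs]
    have h0 : 0 ≤ |f k| := abs_nonneg _
    nlinarith
  refine ⟨hint, ?_⟩
  have h3 : ∀ t : ℝ, 0 ≤ (∫ k, A k) * (t * t) + (-(2 * ∫ k, |f k|)) * t + ∫ k, B k := by
    intro t
    have h4 : ∫ k, 2 * t * |f k| ≤ ∫ k, (t ^ 2 * A k + B k) := by
      refine integral_mono_ae (hint.abs.const_mul _) ((hA.const_mul _).add hB) ?_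
      filter_upwards [key] with k hk using hk t
    rw [integral_add (hA.const_mul _) hB, integral_const_mul, integral_const_mul] at h4
    nlinarith
  have h5 := discrim_le_zero h3
  unfold discrim at h5
  have h6 : |∫ k, f k| ≤ ∫ k, |f k| := abs_integral_le_integral_abs
  have h7 : (∫ k, f k) ^ 2 ≤ (∫ k, |f k|) ^ 2 := by
    rw [← sq_abs]
    exact pow_le_pow_left₀ (abs_nonneg _) h6 2
  nlinarith

/-- TARGET -/
theorem atm_meas {c cV : ℝ} {V : E → W} (hV : Ang c cV V) {a : ℝ → ℝ} (ha : Continuous a) :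
    Measurable fun z : ℝ × E => atm V a z.1 z.2 := by
  unfold atm
  have h1 : Measurable fun z : ℝ × E => ‖z.2‖ ^ (-(3 / 2) : ℝ) :=
    (measurable_norm.comp measurable_snd).pow_const _
  have h2 : Measurable fun z : ℝ × E => a (Real.log ‖z.2‖ - z.1) :=
    ha.measurable.comp ((Real.measurable_log.comp (measurable_norm.comp measurable_snd)).sub
      measurable_fst)
  exact (h1.mul h2).smul (hV.meas.comp measurable_snd)

/-- TARGET -/
theorem polar_int {c cV : ℝ} {V : E → W} (hV : Ang c cV V) {φ : ℝ → ℝ} (hφ : Integrable φ) :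
    Integrable (fun k : E => ‖k‖ ^ (-3 : ℝ) * ‖V k‖ ^ 2 * φ (Real.log ‖k‖)) ∧
    ∫ k : E, ‖k‖ ^ (-3 : ℝ) * ‖V k‖ ^ 2 * φ (Real.log ‖k‖) = cV * ∫ s, φ s := by
  classical
  have hL : Measurable fun k : E => Real.log ‖k‖ := Real.measurable_log.comp measurable_norm
  have hw0 : ∀ k : E, 0 ≤ ‖k‖ ^ (-3 : ℝ) * ‖V k‖ ^ 2 := fun k => by positivity
  have hw : Measurable fun k : E => ‖k‖ ^ (-3 : ℝ) * ‖V k‖ ^ 2 :=
    (measurable_norm.pow_const _).mul (hV.meas.norm.pow_const 2)
  have hwn : Measurable fun k : E => (‖k‖ ^ (-3 : ℝ) * ‖V k‖ ^ 2).toNNReal := hw.real_toNNReal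
  set μ : Measure E := volume.withDensity
    (fun k : E => (((‖k‖ ^ (-3 : ℝ) * ‖V k‖ ^ 2).toNNReal : NNReal) : ENNReal)) with hμ
  have hmap : μ.map (fun k : E => Real.log ‖k‖) = ENNReal.ofReal cV • (volume : Measure ℝ) := by
    ext s hs
    rw [Measure.map_apply hL hs, hμ, withDensity_apply _ (hL hs), Measure.smul_apply, smul_eq_mul]
    have h1 := hV.polar (s.indicator 1) (measurable_one.indicator hs)
    rw [lintegral_indicator_one hs] at h1
    rw [← h1, ← lintegral_indicator (hL hs)]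
    refine lintegral_congr fun k => ?_
    by_cases hk : Real.log ‖k‖ ∈ s
    · rw [indicator_of_mem (show k ∈ (fun k : E => Real.log ‖k‖) ⁻¹' s from hk),
        indicator_of_mem hk]
      simp [ENNReal.ofReal]
    · rw [indicator_of_notMem (show k ∉ (fun k : E => Real.log ‖k‖) ⁻¹' s from hk),
        indicator_of_notMem hk]
      simp
  have hφ' : Integrable φ (μ.map (fun k : E => Real.log ‖k‖)) := by
    rw [hmap]
    exact hφ.smul_measure ENNReal.ofReal_ne_top
  have h2 : Integrable (fun k : E => φ (Real.log ‖k‖)) μ :=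
    (integrable_map_measure hφ'.aestronglyMeasurable hL.aemeasurable).1 hφ'
  have h3 : ∫ k : E, φ (Real.log ‖k‖) ∂μ = cV * ∫ s, φ s := by
    rw [← integral_map hL.aemeasurable hφ'.aestronglyMeasurable, hmap, integral_smul_measure,
      ENNReal.toReal_ofReal hV.pos.le, smul_eq_mul]
  have h4 : ∀ k : E, (‖k‖ ^ (-3 : ℝ) * ‖V k‖ ^ 2).toNNReal • φ (Real.log ‖k‖)
      = ‖k‖ ^ (-3 : ℝ) * ‖V k‖ ^ 2 * φ (Real.log ‖k‖) := by
    intro k
    rw [NNReal.smul_def, Real.coe_toNNReal _ (hw0 k), smul_eq_mul]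
  constructor
  · have h5 := (integrable_withDensity_iff_integrable_smul hwn).1 h2
    simpa only [h4] using h5
  · rw [hμ, integral_withDensity_eq_integral_smul hwn] at h3
    rw [← h3]
    exact integral_congr_ae (Eventually.of_forall fun k => (h4 k).symm)

theorem gauss_int (β : ℝ) : Integrable fun y : ℝ => Real.exp (β * y) * Real.exp (-y ^ 2) := by
  have h1 : Integrable fun y : ℝ => Real.exp (-1 * (y - β / 2) ^ 2) :=
    (integrable_exp_neg_mul_sq one_pos).comp_sub_right (β / 2)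
  refine (h1.const_mul (Real.exp (β ^ 2 / 4))).congr (Eventually.of_forall fun y => ?_)
  simp only
  rw [← Real.exp_add, ← Real.exp_add]
  congr 1
  ring

theorem _root_.H706N.Gt.int_exp {a : ℝ → ℝ} (ha : Gt a) (β : ℝ) :
    Integrable fun y : ℝ => Real.exp (β * y) * |a y| := by
  obtain ⟨C, hC⟩ := ha.bd
  refine Integrable.mono' ((gauss_int β).const_mul C)
    (by have := ha.cont; fun_prop) (Eventually.of_forall fun y => ?_)
  rw [Real.norm_eq_abs, abs_of_nonneg (by positivity)]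
  calc Real.exp (β * y) * |a y| ≤ Real.exp (β * y) * (C * Real.exp (-y ^ 2)) :=
        mul_le_mul_of_nonneg_left (hC y) (Real.exp_pos _).le
    _ = C * (Real.exp (β * y) * Real.exp (-y ^ 2)) := by ring

theorem _root_.H706N.Gt.bdd {a : ℝ → ℝ} (ha : Gt a) : ∃ C : ℝ, 0 ≤ C ∧ ∀ y, |a y| ≤ C := by
  obtain ⟨C, hC⟩ := ha.bd
  refine ⟨|C|, abs_nonneg _, fun y => (hC y).trans ?_⟩
  have h1 : Real.exp (-y ^ 2) ≤ 1 := Real.exp_le_one_iff.2 (by nlinarith [sq_nonneg y])
  calc C * Real.exp (-y ^ 2) ≤ |C| * Real.exp (-y ^ 2) :=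
        mul_le_mul_of_nonneg_right (le_abs_self C) (Real.exp_pos _).le
    _ ≤ |C| * 1 := mul_le_mul_of_nonneg_left h1 (abs_nonneg _)
    _ = |C| := mul_one _

theorem _root_.H706N.Gt.int_exp_sq {a : ℝ → ℝ} (ha : Gt a) (β : ℝ) :
    Integrable fun y : ℝ => Real.exp (β * y) * a y ^ 2 := by
  obtain ⟨C, hC0, hC⟩ := ha.bdd
  refine Integrable.mono' ((ha.int_exp β).const_mul C)
    (by have := ha.cont; fun_prop) (Eventually.of_forall fun y => ?_)
  rw [Real.norm_eq_abs, abs_of_nonneg (by positivity)]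
  calc Real.exp (β * y) * a y ^ 2 = Real.exp (β * y) * (|a y| * |a y|) := by
        rw [← sq_abs (a y)]; ring
    _ ≤ Real.exp (β * y) * (C * |a y|) := by
        refine mul_le_mul_of_nonneg_left ?_ (Real.exp_pos _).le
        exact mul_le_mul_of_nonneg_right (hC y) (abs_nonneg _)
    _ = C * (Real.exp (β * y) * |a y|) := by ring

theorem inner_meas {c cV : ℝ} {V : E → W} (hV : Ang c cV V) {a : ℝ → ℝ} (ha : Gt a) {g : E → W}
    (hg : Adm g) : Measurable fun z : ℝ × E => (inner ℂ (atm V a z.1 z.2) (g z.2)).re := by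
  have h1 := atm_meas hV ha.cont
  have h2 : Measurable fun z : ℝ × E => g z.2 := hg.meas.comp measurable_snd
  exact Complex.measurable_re.comp (h1.inner h2)

theorem inner_sq_le {V : E → W} {a : ℝ → ℝ} {g : E → W} (σ : ℝ) (k : E) :
    (inner ℂ (atm V a σ k) (g k)).re ^ 2
      ≤ ‖k‖ ^ (-3 : ℝ) * ‖V k‖ ^ 2 * a (Real.log ‖k‖ - σ) ^ 2 * ‖g k‖ ^ 2 := by
  have h1 : |(inner ℂ (atm V a σ k) (g k)).re| ≤ ‖atm V a σ k‖ * ‖g k‖ :=
    (Complex.abs_re_le_norm _).trans (norm_inner_le_norm _ _)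
  have h2 : ‖atm V a σ k‖ = ‖k‖ ^ (-(3 / 2) : ℝ) * |a (Real.log ‖k‖ - σ)| * ‖V k‖ := by
    unfold atm
    rw [norm_smul, Real.norm_eq_abs, abs_mul, abs_of_nonneg (by positivity : 0 ≤ ‖k‖ ^ (-(3 / 2) : ℝ))]
  have h3 : (‖k‖ ^ (-(3 / 2) : ℝ)) ^ 2 = ‖k‖ ^ (-3 : ℝ) := by
    rw [← Real.rpow_natCast, ← Real.rpow_mul (norm_nonneg _)]
    norm_num
  calc (inner ℂ (atm V a σ k) (g k)).re ^ 2 = |(inner ℂ (atm V a σ k) (g k)).re| ^ 2 :=
        (sq_abs _).symm
    _ ≤ (‖atm V a σ k‖ * ‖g k‖) ^ 2 := pow_le_pow_left₀ (abs_nonneg _) h1 2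
    _ = ‖k‖ ^ (-3 : ℝ) * ‖V k‖ ^ 2 * a (Real.log ‖k‖ - σ) ^ 2 * ‖g k‖ ^ 2 := by
        rw [h2, ← h3, ← sq_abs (a _)]
        ring

theorem slice_meas {c cV : ℝ} {V : E → W} (hV : Ang c cV V) {a : ℝ → ℝ} (ha : Gt a) {g : E → W}
    (hg : Adm g) (σ : ℝ) : Measurable fun k : E => (inner ℂ (atm V a σ k) (g k)).re := by
  have h1 : Measurable fun k : E => ‖k‖ ^ (-(3 / 2) : ℝ) := measurable_norm.pow_const _
  have h2 : Measurable fun k : E => a (Real.log ‖k‖ - σ) :=
    ha.cont.measurable.comp ((Real.measurable_log.comp measurable_norm).sub_const σ)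
  have h3 : Measurable fun k : E => atm V a σ k := (h1.mul h2).smul hV.meas
  exact Complex.measurable_re.comp (h3.inner hg.meas)

/-- Weighted Cauchy–Schwarz. -/
theorem fn_key {c cV : ℝ} {V : E → W} (hV : Ang c cV V) {a : ℝ → ℝ} (ha : Gt a) {α : ℝ}
    (hα : -(3 / 2) < α) {g : E → W} (hg : Adm g) (σ : ℝ) :
    Integrable (fun k : E => (inner ℂ (atm V a σ k) (g k)).re) ∧
    pr (atm V a σ) g ^ 2 ≤
      (cV * (Real.exp (-2 * α * σ) * ∫ y, Real.exp (-2 * α * y) * a y ^ 2)) * nrm α g ^ 2 := by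
  have hφ : Integrable fun s : ℝ => Real.exp (-2 * α * s) * a (s - σ) ^ 2 := by
    have h1 := ((ha.int_exp_sq (-2 * α)).comp_sub_right σ).const_mul (Real.exp (-2 * α * σ))
    refine h1.congr (Eventually.of_forall fun s => ?_)
    simp only
    rw [← mul_assoc, ← Real.exp_add]
    congr 2
    ring
  have hφi : ∫ s : ℝ, Real.exp (-2 * α * s) * a (s - σ) ^ 2
      = Real.exp (-2 * α * σ) * ∫ y, Real.exp (-2 * α * y) * a y ^ 2 := by
    rw [← integral_const_mul, ← integral_sub_right_eq_self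
      (fun y : ℝ => Real.exp (-2 * α * σ) * (Real.exp (-2 * α * y) * a y ^ 2)) σ]
    refine integral_congr_ae (Eventually.of_forall fun s => ?_)
    simp only
    rw [← mul_assoc, ← Real.exp_add]
    congr 2
    ring
  obtain ⟨hA, hAi⟩ := polar_int hV hφ
  have hB := hg.int_sq hα
  obtain ⟨h1, h2⟩ := cs_aux (f := fun k : E => (inner ℂ (atm V a σ k) (g k)).re) hA hB
    (fun k => by positivity) (fun k => by positivity) (slice_meas hV ha hg σ).aestronglyMeasurable
    (by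
      have h0 : ∀ᵐ k : E, k ≠ 0 := by
        rw [ae_iff]
        simp
      filter_upwards [h0] with k hk
      refine (inner_sq_le σ k).trans (le_of_eq ?_)
      have hk' : 0 < ‖k‖ := norm_pos_iff.2 hk
      have h3 : Real.exp (-2 * α * Real.log ‖k‖) * ‖k‖ ^ (2 * α) = 1 := by
        rw [Real.rpow_def_of_pos hk', ← Real.exp_add]
        simp
        ring
      calc ‖k‖ ^ (-3 : ℝ) * ‖V k‖ ^ 2 * a (Real.log ‖k‖ - σ) ^ 2 * ‖g k‖ ^ 2
          = ‖k‖ ^ (-3 : ℝ) * ‖V k‖ ^ 2 * a (Real.log ‖k‖ - σ) ^ 2 * ‖g k‖ ^ 2 * 1 := by ring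
        _ = _ := by rw [← h3]; ring)
  refine ⟨h1, ?_⟩
  rw [hAi, hφi, ← nrm_sq] at h2
  exact h2

/-- TARGET -/
theorem fn_int {c cV : ℝ} {V : E → W} (hV : Ang c cV V) {a : ℝ → ℝ} (ha : Gt a) {g : E → W}
    (hg : Adm g) (σ : ℝ) : Integrable fun k : E => (inner ℂ (atm V a σ k) (g k)).re :=
  (fn_key hV ha (α := 0) (by norm_num) hg σ).1

/-- TARGET -/
theorem fn_meas {c cV : ℝ} {V : E → W} (hV : Ang c cV V) {a : ℝ → ℝ} (ha : Gt a) {g : E → W}
    (hg : Adm g) : Measurable fun σ : ℝ => pr (atm V a σ) g := by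
  have h1 := (inner_meas hV ha hg).stronglyMeasurable
  exact (MeasureTheory.StronglyMeasurable.integral_prod_right (ν := (volume : Measure E)) h1).measurable

/-- TARGET -/
theorem fn_sup {c cV : ℝ} {V : E → W} (hV : Ang c cV V) {a : ℝ → ℝ} (ha : Gt a) {α : ℝ}
    (hα : -(3 / 2) < α) : ∃ C : ℝ, ∀ g : E → W, Adm g → ∀ σ : ℝ,
      |pr (atm V a σ) g| ≤ C * Real.exp (-α * σ) * nrm α g := by
  have hI : 0 ≤ ∫ y, Real.exp (-2 * α * y) * a y ^ 2 := integral_nonneg fun y => by positivity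
  refine ⟨Real.sqrt (cV * ∫ y, Real.exp (-2 * α * y) * a y ^ 2), fun g hg σ => ?_⟩
  have h1 := (fn_key hV ha hα hg σ).2
  have h2 : 0 ≤ Real.sqrt (cV * ∫ y, Real.exp (-2 * α * y) * a y ^ 2) * Real.exp (-α * σ)
      * nrm α g := mul_nonneg (mul_nonneg (Real.sqrt_nonneg _) (Real.exp_pos _).le) (nrm_nonneg _ _)
  refine abs_le_of_sq_le_sq (h1.trans (le_of_eq ?_)) h2
  rw [mul_pow, mul_pow, Real.sq_sqrt (mul_nonneg hV.pos.le hI), ← Real.exp_nat_mul]
  have h3 : Real.exp (-2 * α * σ) = Real.exp (((2 : ℕ) : ℝ) * (-α * σ)) := by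
    congr 1
    push_cast
    ring
  rw [h3]
  ring

/-- TARGET -/
theorem fn_L2 {c cV : ℝ} {V : E → W} (hV : Ang c cV V) {a : ℝ → ℝ} (ha : Gt a) {α : ℝ}
    (hα : -(3 / 2) < α) : ∃ C : ℝ, ∀ g : E → W, Adm g →
      ∫⁻ σ : ℝ, ENNReal.ofReal (Real.exp (2 * α * σ) * (pr (atm V a σ) g) ^ 2)
        ≤ ENNReal.ofReal (C * nrm α g ^ 2) := by
  have haint : Integrable fun y : ℝ => |a y| := by
    have := ha.int_exp 0
    simpa using this
  have hM := ha.int_exp (-2 * α)
  have hN0 : 0 ≤ cV * ∫ y, |a y| := mul_nonneg hV.pos.le (integral_nonneg fun y => abs_nonneg _)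
  have hM0 : 0 ≤ ∫ y, Real.exp (-2 * α * y) * |a y| := integral_nonneg fun y => by positivity
  refine ⟨(cV * ∫ y, |a y|) * ∫ y, Real.exp (-2 * α * y) * |a y|, fun g hg => ?_⟩
  obtain ⟨D, hD0, hD⟩ := ha.bdd
  have hg2 : Integrable fun k : E => ‖g k‖ ^ 2 := by
    have := hg.int_sq (a := 0) (by norm_num)
    simpa using this
  have hBint : ∀ σ : ℝ, Integrable fun k : E => |a (Real.log ‖k‖ - σ)| * ‖g k‖ ^ 2 := by
    intro σ
    refine Integrable.mono' (hg2.const_mul D) ?_ (Eventually.of_forall fun k => ?_)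
    · have h1 : Measurable fun k : E => |a (Real.log ‖k‖ - σ)| := by
        have := ha.cont.measurable
        exact (this.comp ((Real.measurable_log.comp measurable_norm).sub_const σ)).abs
      exact (h1.mul (hg.meas.norm.pow_const 2)).aestronglyMeasurable
    · rw [Real.norm_eq_abs, abs_of_nonneg (by positivity)]
      exact mul_le_mul_of_nonneg_right (hD _) (by positivity)
  have hpr : ∀ σ : ℝ, pr (atm V a σ) g ^ 2
      ≤ (cV * ∫ y, |a y|) * ∫ k : E, |a (Real.log ‖k‖ - σ)| * ‖g k‖ ^ 2 := by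
    intro σ
    obtain ⟨hA, hAi⟩ := polar_int hV (haint.comp_sub_right σ)
    rw [integral_sub_right_eq_self (fun y : ℝ => |a y|) σ] at hAi
    rw [← hAi]
    refine (cs_aux (f := fun k : E => (inner ℂ (atm V a σ k) (g k)).re) hA (hBint σ)
      (fun k => by positivity) (fun k => by positivity)
      (slice_meas hV ha hg σ).aestronglyMeasurable (Eventually.of_forall fun k => ?_)).2
    refine (inner_sq_le σ k).trans (le_of_eq ?_)
    rw [← sq_abs (a _)]
    ring
  have hmeas : Measurable fun z : ℝ × E => ENNReal.ofReal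
      (Real.exp (2 * α * z.1) * |a (Real.log ‖z.2‖ - z.1)| * ‖g z.2‖ ^ 2) := by
    refine ENNReal.measurable_ofReal.comp (Measurable.mul (Measurable.mul ?_ ?_) ?_)
    · exact Real.measurable_exp.comp (measurable_fst.const_mul _)
    · exact (ha.cont.measurable.comp ((Real.measurable_log.comp
        (measurable_norm.comp measurable_snd)).sub measurable_fst)).abs
    · exact ((hg.meas.comp measurable_snd).norm.pow_const 2)
  calc ∫⁻ σ : ℝ, ENNReal.ofReal (Real.exp (2 * α * σ) * (pr (atm V a σ) g) ^ 2)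
      ≤ ∫⁻ σ : ℝ, ENNReal.ofReal (cV * ∫ y, |a y|) * ∫⁻ k : E, ENNReal.ofReal
          (Real.exp (2 * α * σ) * |a (Real.log ‖k‖ - σ)| * ‖g k‖ ^ 2) := by
        refine lintegral_mono fun σ => ?_
        have h1 : Real.exp (2 * α * σ) * (pr (atm V a σ) g) ^ 2
            ≤ (cV * ∫ y, |a y|) * ∫ k : E, Real.exp (2 * α * σ) * |a (Real.log ‖k‖ - σ)| * ‖g k‖ ^ 2 := by
          have h2 : ∫ k : E, Real.exp (2 * α * σ) * |a (Real.log ‖k‖ - σ)| * ‖g k‖ ^ 2
              = Real.exp (2 * α * σ) * ∫ k : E, |a (Real.log ‖k‖ - σ)| * ‖g k‖ ^ 2 := by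
            rw [← integral_const_mul]
            refine integral_congr_ae (Eventually.of_forall fun k => ?_)
            simp only
            ring
          rw [h2]
          calc Real.exp (2 * α * σ) * (pr (atm V a σ) g) ^ 2
              ≤ Real.exp (2 * α * σ) * ((cV * ∫ y, |a y|) *
                ∫ k : E, |a (Real.log ‖k‖ - σ)| * ‖g k‖ ^ 2) :=
                mul_le_mul_of_nonneg_left (hpr σ) (Real.exp_pos _).le
            _ = _ := by ring
        have h3 : Integrable fun k : E =>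
            Real.exp (2 * α * σ) * |a (Real.log ‖k‖ - σ)| * ‖g k‖ ^ 2 := by
          refine ((hBint σ).const_mul (Real.exp (2 * α * σ))).congr
            (Eventually.of_forall fun k => ?_)
          simp only
          ring
        refine (ENNReal.ofReal_le_ofReal h1).trans (le_of_eq ?_)
        rw [ENNReal.ofReal_mul hN0, ofReal_integral_eq_lintegral_ofReal h3
          (Eventually.of_forall fun k => by positivity)]
    _ = ENNReal.ofReal (cV * ∫ y, |a y|) * ∫⁻ σ : ℝ, ∫⁻ k : E, ENNReal.ofReal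
          (Real.exp (2 * α * σ) * |a (Real.log ‖k‖ - σ)| * ‖g k‖ ^ 2) := by
        rw [lintegral_const_mul]
        exact hmeas.lintegral_prod_right'
    _ = ENNReal.ofReal (cV * ∫ y, |a y|) * ∫⁻ k : E, ∫⁻ σ : ℝ, ENNReal.ofReal
          (Real.exp (2 * α * σ) * |a (Real.log ‖k‖ - σ)| * ‖g k‖ ^ 2) := by
        rw [lintegral_lintegral_swap]
        exact hmeas.aemeasurable
    _ = ENNReal.ofReal (cV * ∫ y, |a y|) * ∫⁻ k : E,
          ENNReal.ofReal (∫ y, Real.exp (-2 * α * y) * |a y|) *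
            ENNReal.ofReal (‖k‖ ^ (2 * α) * ‖g k‖ ^ 2) := by
        congr 1
        refine lintegral_congr_ae ?_
        have h0 : ∀ᵐ k : E, k ≠ 0 := by
          rw [ae_iff]
          simp
        filter_upwards [h0] with k hk
        have hk' : 0 < ‖k‖ := norm_pos_iff.2 hk
        have h4 : ∫⁻ σ : ℝ, ENNReal.ofReal
            (Real.exp (2 * α * σ) * |a (Real.log ‖k‖ - σ)| * ‖g k‖ ^ 2)
            = ∫⁻ σ : ℝ, (fun y : ℝ => ENNReal.ofReal (Real.exp (-2 * α * y) * |a y|) *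
              ENNReal.ofReal (‖k‖ ^ (2 * α) * ‖g k‖ ^ 2)) (Real.log ‖k‖ - σ) := by
          refine lintegral_congr fun σ => ?_
          simp only
          rw [← ENNReal.ofReal_mul (by positivity)]
          congr 1
          have h5 : Real.exp (2 * α * σ) = Real.exp (-2 * α * (Real.log ‖k‖ - σ)) * ‖k‖ ^ (2 * α) := by
            rw [Real.rpow_def_of_pos hk', ← Real.exp_add]
            congr 1
            ring
          rw [h5]
          ring
        rw [h4, lintegral_sub_left_eq_self (fun y : ℝ => ENNReal.ofReal (Real.exp (-2 * α * y) * |a y|) *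
              ENNReal.ofReal (‖k‖ ^ (2 * α) * ‖g k‖ ^ 2)), lintegral_mul_const,
              ofReal_integral_eq_lintegral_ofReal hM (Eventually.of_forall fun y => by positivity)]
        have := ha.cont
        exact ENNReal.measurable_ofReal.comp (by fun_prop : Continuous fun y : ℝ =>
          Real.exp (-2 * α * y) * |a y|).measurable
    _ = ENNReal.ofReal (((cV * ∫ y, |a y|) * ∫ y, Real.exp (-2 * α * y) * |a y|) * nrm α g ^ 2) := by
        rw [lintegral_const_mul', nrm_sq, ENNReal.ofReal_mul (mul_nonneg hN0 hM0),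
          ENNReal.ofReal_mul hN0, ofReal_integral_eq_lintegral_ofReal (hg.int_sq hα)
            (Eventually.of_forall fun k => by positivity), mul_assoc]
        exact ENNReal.ofReal_ne_top

end H706N.JB2

namespace H706N

alias atm_meas := JB2.atm_meas
alias polar_int := JB2.polar_int
alias fn_int := JB2.fn_int
alias fn_meas := JB2.fn_meas
alias fn_sup := JB2.fn_sup
alias fn_L2 := JB2.fn_L2

end H706N
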