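import Pool.Agent.Helper706_NS.Defs2
import Pool.Agent.Helper706_NS.B2

set_option autoImplicit false
open Set Filter Topology MeasureTheory
open scoped ComplexConjugate ContDiff

namespace H706N.JB3

/-! ### Auxiliary lemmas -/

theorem b3_gauss (γ : ℝ) : Integrable fun y : ℝ => Real.exp (-γ * y) * Real.exp (-y ^ 2) := by
  have h1 : Integrable fun y : ℝ => Real.exp (γ ^ 2 / 2) * Real.exp (-(1 / 2) * y ^ 2) :=
    (integrable_exp_neg_mul_sq (by norm_num)).const_mul _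
  refine h1.mono' (by fun_prop) (Filter.Eventually.of_forall fun y => ?_)
  rw [Real.norm_eq_abs, abs_of_nonneg (by positivity), ← Real.exp_add, ← Real.exp_add]
  apply Real.exp_le_exp.2
  nlinarith [sq_nonneg (γ + y)]

theorem b3_shift (γ s : ℝ) :
    Integrable (fun σ : ℝ => Real.exp (γ * σ) * Real.exp (-(s - σ) ^ 2)) ∧
    ∫ σ : ℝ, Real.exp (γ * σ) * Real.exp (-(s - σ) ^ 2)
      = Real.exp (γ * s) * ∫ y : ℝ, Real.exp (-γ * y) * Real.exp (-y ^ 2) := by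
  have e : (fun σ : ℝ => Real.exp (γ * σ) * Real.exp (-(s - σ) ^ 2))
      = fun σ : ℝ => (fun y : ℝ => Real.exp (γ * s) * (Real.exp (-γ * y) * Real.exp (-y ^ 2)))
        (s - σ) := by
    funext σ
    simp only
    rw [← Real.exp_add, ← Real.exp_add, ← Real.exp_add]
    congr 1
    ring
  constructor
  · rw [e]
    exact ((b3_gauss γ).const_mul _).comp_sub_left s
  · rw [e, integral_sub_left_eq_self
      (fun y : ℝ => Real.exp (γ * s) * (Real.exp (-γ * y) * Real.exp (-y ^ 2))) volume s,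
      integral_const_mul]

theorem b3_atm_zero (V : E → W) (a : ℝ → ℝ) (σ : ℝ) : atm V a σ 0 = 0 := by
  unfold atm
  rw [norm_zero, Real.zero_rpow (by norm_num)]
  simp

theorem b3_atm_le {c cV : ℝ} {V : E → W} (hV : Ang c cV V) {p : ℝ → ℝ} {B : ℝ}
    (hB : ∀ y, |p y| ≤ B * Real.exp (-y ^ 2)) (σ : ℝ) (k : E) :
    ‖atm V p σ k‖ ≤ ‖k‖ ^ (-(3 / 2) : ℝ) * (B * Real.exp (-(Real.log ‖k‖ - σ) ^ 2)) := by
  unfold atm
  have h0 : 0 ≤ ‖k‖ ^ (-(3 / 2) : ℝ) := Real.rpow_nonneg (norm_nonneg _) _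
  rw [norm_smul, Real.norm_eq_abs, abs_mul, abs_of_nonneg h0]
  have h1 := hB (Real.log ‖k‖ - σ)
  have h2 := hV.bd k
  calc ‖k‖ ^ (-(3 / 2) : ℝ) * |p (Real.log ‖k‖ - σ)| * ‖V k‖
      ≤ ‖k‖ ^ (-(3 / 2) : ℝ) * |p (Real.log ‖k‖ - σ)| * 1 :=
        mul_le_mul_of_nonneg_left h2 (by positivity)
    _ = ‖k‖ ^ (-(3 / 2) : ℝ) * |p (Real.log ‖k‖ - σ)| := mul_one _
    _ ≤ _ := mul_le_mul_of_nonneg_left h1 h0

/-- The integrand. -/
noncomputable def b3F (V : E → W) (a q p : ℝ → ℝ) (g h : E → W) (k : E) (σ : ℝ) : W :=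
  (Real.exp (5 / 2 * σ) * pr (atm V a σ) g) •
    (pr (atm V q σ) h • atm V p σ k - pr (atm V p σ) h • atm V q σ k)

theorem b3F_zero (V : E → W) (a q p : ℝ → ℝ) (g h : E → W) (σ : ℝ) :
    b3F V a q p g h 0 σ = 0 := by
  unfold b3F
  rw [b3_atm_zero, b3_atm_zero]
  simp

theorem b3F_bound {c cV : ℝ} {V : E → W} (hV : Ang c cV V) {a q p : ℝ → ℝ} (ha : Gt a) (hq : Gt q)
    (hp : Gt p) {α β : ℝ} (hα : -(3 / 2) < α) (hβ : -(3 / 2) < β) :
    ∃ M : ℝ, 0 ≤ M ∧ ∀ g h : E → W, Adm g → Adm h → ∀ (k : E) (σ : ℝ),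
      ‖b3F V a q p g h k σ‖ ≤ M * nrm α g * nrm β h * ‖k‖ ^ (-(3 / 2) : ℝ) *
        (Real.exp ((5 / 2 - α - β) * σ) * Real.exp (-(Real.log ‖k‖ - σ) ^ 2)) := by
  obtain ⟨Ca, hCa⟩ := fn_sup hV ha hα
  obtain ⟨Cq, hCq⟩ := fn_sup hV hq hβ
  obtain ⟨Cp, hCp⟩ := fn_sup hV hp hβ
  obtain ⟨Bp, hBp⟩ := hp.bd
  obtain ⟨Bq, hBq⟩ := hq.bd
  have hBp0 : 0 ≤ Bp := by
    have := (abs_nonneg _).trans (hBp 0)
    simpa using this
  have hBq0 : 0 ≤ Bq := by
    have := (abs_nonneg _).trans (hBq 0)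
    simpa using this
  refine ⟨|Ca| * (|Cq| * Bp + |Cp| * Bq), by positivity, ?_⟩
  intro g h hg hh k σ
  have ng := nrm_nonneg α g
  have nh := nrm_nonneg β h
  have hk := Real.rpow_nonneg (norm_nonneg k) (-(3 / 2) : ℝ)
  have fa : |pr (atm V a σ) g| ≤ |Ca| * Real.exp (-α * σ) * nrm α g :=
    (hCa g hg σ).trans (mul_le_mul_of_nonneg_right (mul_le_mul_of_nonneg_right (le_abs_self _)
      (Real.exp_pos _).le) ng)
  have fq : |pr (atm V q σ) h| ≤ |Cq| * Real.exp (-β * σ) * nrm β h :=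
    (hCq h hh σ).trans (mul_le_mul_of_nonneg_right (mul_le_mul_of_nonneg_right (le_abs_self _)
      (Real.exp_pos _).le) nh)
  have fp : |pr (atm V p σ) h| ≤ |Cp| * Real.exp (-β * σ) * nrm β h :=
    (hCp h hh σ).trans (mul_le_mul_of_nonneg_right (mul_le_mul_of_nonneg_right (le_abs_self _)
      (Real.exp_pos _).le) nh)
  have tp := b3_atm_le hV hBp σ k
  have tq := b3_atm_le hV hBq σ k
  set G : ℝ := Real.exp (-(Real.log ‖k‖ - σ) ^ 2) with hG
  have hG0 : 0 < G := Real.exp_pos _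
  set R : ℝ := ‖k‖ ^ (-(3 / 2) : ℝ) with hR
  have e1 : Real.exp ((5 / 2 - α - β) * σ)
      = Real.exp (5 / 2 * σ) * Real.exp (-α * σ) * Real.exp (-β * σ) := by
    rw [← Real.exp_add, ← Real.exp_add]
    congr 1
    ring
  unfold b3F
  rw [norm_smul, Real.norm_eq_abs, abs_mul, Real.abs_exp]
  have h1 : ‖pr (atm V q σ) h • atm V p σ k - pr (atm V p σ) h • atm V q σ k‖
      ≤ (|Cq| * Real.exp (-β * σ) * nrm β h) * (R * (Bp * G))
        + (|Cp| * Real.exp (-β * σ) * nrm β h) * (R * (Bq * G)) := by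
    refine (norm_sub_le _ _).trans ?_
    rw [norm_smul, norm_smul, Real.norm_eq_abs, Real.norm_eq_abs]
    exact add_le_add (mul_le_mul fq tp (norm_nonneg _) (by positivity))
      (mul_le_mul fp tq (norm_nonneg _) (by positivity))
  have h2 : Real.exp (5 / 2 * σ) * |pr (atm V a σ) g|
      ≤ Real.exp (5 / 2 * σ) * (|Ca| * Real.exp (-α * σ) * nrm α g) :=
    mul_le_mul_of_nonneg_left fa (Real.exp_pos _).le
  refine (mul_le_mul h2 h1 (norm_nonneg _) (by positivity)).trans (le_of_eq ?_)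
  rw [e1]
  ring

theorem b3F_meas {c cV : ℝ} {V : E → W} (hV : Ang c cV V) {a q p : ℝ → ℝ} (ha : Gt a) (hq : Gt q)
    (hp : Gt p) {g h : E → W} (hg : Adm g) (hh : Adm h) :
    Measurable (Function.uncurry (b3F V a q p g h)) := by
  have sw : Measurable fun z : E × ℝ => (z.2, z.1) := measurable_snd.prodMk measurable_fst
  have sn : Measurable fun z : E × ℝ => z.2 := measurable_snd
  have mp := (atm_meas hV hp.cont).comp sw
  have mq := (atm_meas hV hq.cont).comp sw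
  have na := (fn_meas hV ha hg).comp sn
  have nq := (fn_meas hV hq hh).comp sn
  have np := (fn_meas hV hp hh).comp sn
  simp only [Function.comp_def] at mp mq na nq np
  have me : Measurable fun z : E × ℝ => Real.exp (5 / 2 * z.2) := by fun_prop
  have h1 := (me.mul na).smul ((nq.smul mp).sub (np.smul mq))
  exact h1

/-- TARGET -/
theorem bt_int {c cV : ℝ} {V : E → W} (hV : Ang c cV V) {a q p : ℝ → ℝ} (ha : Gt a) (hq : Gt q)
    (hp : Gt p) {g h : E → W} (hg : Adm g) (hh : Adm h) (k : E) :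
    Integrable fun σ : ℝ => (Real.exp (5 / 2 * σ) * pr (atm V a σ) g) •
      (pr (atm V q σ) h • atm V p σ k - pr (atm V p σ) h • atm V q σ k) := by
  obtain ⟨M, -, hM⟩ := b3F_bound hV ha hq hp (α := 0) (β := 0) (by norm_num) (by norm_num)
  have h1 := ((b3_shift (5 / 2 - 0 - 0) (Real.log ‖k‖)).1).const_mul
    (M * nrm 0 g * nrm 0 h * ‖k‖ ^ (-(3 / 2) : ℝ))
  refine h1.mono' ?_ (Filter.Eventually.of_forall fun σ => hM g h hg hh k σ)
  have := (b3F_meas hV ha hq hp hg hh).comp (measurable_prodMk_left (x := k))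
  exact this.aestronglyMeasurable

theorem b3_bt_zero (V : E → W) (a q p : ℝ → ℝ) (g h : E → W) : bt V a q p g h 0 = 0 := by
  have : bt V a q p g h 0 = ∫ σ : ℝ, b3F V a q p g h 0 σ := rfl
  rw [this]
  simp only [b3F_zero, integral_zero]

theorem b3_bt_le {c cV : ℝ} {V : E → W} (hV : Ang c cV V) {a q p : ℝ → ℝ} (ha : Gt a) (hq : Gt q)
    (hp : Gt p) {α β : ℝ} (hα : -(3 / 2) < α) (hβ : -(3 / 2) < β) :
    ∃ M : ℝ, 0 ≤ M ∧ ∀ g h : E → W, Adm g → Adm h → ∀ k : E, k ≠ 0 →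
      ‖bt V a q p g h k‖ ≤ M * nrm α g * nrm β h * ‖k‖ ^ (1 - α - β) := by
  obtain ⟨M, hM0, hM⟩ := b3F_bound hV ha hq hp hα hβ
  have hI : 0 ≤ ∫ y : ℝ, Real.exp (-(5 / 2 - α - β) * y) * Real.exp (-y ^ 2) :=
    integral_nonneg fun y => by positivity
  refine ⟨M * ∫ y : ℝ, Real.exp (-(5 / 2 - α - β) * y) * Real.exp (-y ^ 2),
    mul_nonneg hM0 hI, ?_⟩
  intro g h hg hh k hk
  have hk0 : 0 < ‖k‖ := norm_pos_iff.2 hk
  obtain ⟨h1, h2⟩ := b3_shift (5 / 2 - α - β) (Real.log ‖k‖)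
  have h3 : ‖∫ σ : ℝ, b3F V a q p g h k σ‖ ≤ ∫ σ : ℝ, M * nrm α g * nrm β h *
      ‖k‖ ^ (-(3 / 2) : ℝ) * (Real.exp ((5 / 2 - α - β) * σ) *
        Real.exp (-(Real.log ‖k‖ - σ) ^ 2)) :=
    norm_integral_le_of_norm_le (h1.const_mul _)
      (Filter.Eventually.of_forall fun σ => hM g h hg hh k σ)
  rw [integral_const_mul, h2] at h3
  have e1 : Real.exp ((5 / 2 - α - β) * Real.log ‖k‖) = ‖k‖ ^ (5 / 2 - α - β) := by
    rw [Real.rpow_def_of_pos hk0, mul_comm]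
  have e2 : ‖k‖ ^ (-(3 / 2) : ℝ) * ‖k‖ ^ (5 / 2 - α - β) = ‖k‖ ^ (1 - α - β) := by
    rw [← Real.rpow_add hk0]
    congr 1
    ring
  refine (h3 : ‖bt V a q p g h k‖ ≤ _).trans (le_of_eq ?_)
  rw [e1, ← e2]
  ring

theorem b3_dec {c cV : ℝ} {V : E → W} (hV : Ang c cV V) {a q p : ℝ → ℝ} (ha : Gt a) (hq : Gt q)
    (hp : Gt p) (n : ℕ) : ∃ M : ℝ, 0 ≤ M ∧ ∀ g h : E → W, Adm g → Adm h → ∀ k : E,
      (1 + ‖k‖) ^ n * ‖bt V a q p g h k‖ ≤ M * nrm 0 g * (nrm 0 h + nrm (n + 1) h) := by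
  obtain ⟨M1, hM1, h1⟩ := b3_bt_le hV ha hq hp (α := 0) (β := 0) (by norm_num) (by norm_num)
  obtain ⟨M2, hM2, h2⟩ := b3_bt_le hV ha hq hp (α := 0) (β := (n : ℝ) + 1) (by norm_num)
    (by have : (0 : ℝ) ≤ n := Nat.cast_nonneg n
        linarith)
  refine ⟨2 ^ n * (M1 + M2), by positivity, ?_⟩
  intro g h hg hh k
  have ng := nrm_nonneg 0 g
  have nh := nrm_nonneg 0 h
  have nh' := nrm_nonneg ((n : ℝ) + 1) h
  by_cases hk : k = 0
  · subst hk
    rw [b3_bt_zero]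
    simp only [norm_zero, mul_zero]
    positivity
  · have hk0 : 0 < ‖k‖ := norm_pos_iff.2 hk
    by_cases hk1 : ‖k‖ ≤ 1
    · have b1 := h1 g h hg hh k hk
      have b2 : ‖k‖ ^ (1 - 0 - 0 : ℝ) ≤ 1 := Real.rpow_le_one hk0.le hk1 (by norm_num)
      have b3 : (1 + ‖k‖) ^ n ≤ 2 ^ n := pow_le_pow_left₀ (by positivity) (by linarith) n
      have b4 : ‖bt V a q p g h k‖ ≤ M1 * nrm 0 g * nrm 0 h :=
        b1.trans ((mul_le_mul_of_nonneg_left b2 (by positivity)).trans (le_of_eq (mul_one _)))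
      refine (mul_le_mul b3 b4 (norm_nonneg _) (by positivity)).trans ?_
      have : 2 ^ n * (M1 + M2) * nrm 0 g * (nrm 0 h + nrm ((n : ℝ) + 1) h)
          - 2 ^ n * (M1 * nrm 0 g * nrm 0 h)
          = 2 ^ n * (M2 * nrm 0 g * nrm 0 h + (M1 + M2) * nrm 0 g * nrm ((n : ℝ) + 1) h) := by ring
      have h5 : 0 ≤ 2 ^ n * (M2 * nrm 0 g * nrm 0 h
        + (M1 + M2) * nrm 0 g * nrm ((n : ℝ) + 1) h) := by positivity
      linarith
    · push Not at hk1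
      have b1 := h2 g h hg hh k hk
      have b3 : (1 + ‖k‖) ^ n ≤ (2 * ‖k‖) ^ n := pow_le_pow_left₀ (by positivity) (by linarith) n
      have b2 : ‖k‖ ^ n * ‖k‖ ^ (1 - 0 - ((n : ℝ) + 1)) = 1 := by
        rw [← Real.rpow_natCast, ← Real.rpow_add hk0]
        have : (n : ℝ) + (1 - 0 - ((n : ℝ) + 1)) = 0 := by ring
        rw [this, Real.rpow_zero]
      refine (mul_le_mul b3 b1 (norm_nonneg _) (by positivity)).trans ?_
      have e : (2 * ‖k‖) ^ n * (M2 * nrm 0 g * nrm ((n : ℝ) + 1) h *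
          ‖k‖ ^ (1 - 0 - ((n : ℝ) + 1))) = 2 ^ n * (M2 * nrm 0 g * nrm ((n : ℝ) + 1) h) *
            (‖k‖ ^ n * ‖k‖ ^ (1 - 0 - ((n : ℝ) + 1))) := by
        rw [mul_pow]; ring
      rw [e, b2, mul_one]
      have : 2 ^ n * (M1 + M2) * nrm 0 g * (nrm 0 h + nrm ((n : ℝ) + 1) h)
          - 2 ^ n * (M2 * nrm 0 g * nrm ((n : ℝ) + 1) h)
          = 2 ^ n * (M1 * nrm 0 g * nrm ((n : ℝ) + 1) h + (M1 + M2) * nrm 0 g * nrm 0 h) := by ring
      have h5 : 0 ≤ 2 ^ n * (M1 * nrm 0 g * nrm ((n : ℝ) + 1) h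
        + (M1 + M2) * nrm 0 g * nrm 0 h) := by positivity
      linarith

theorem b3_conj {c cV : ℝ} {V : E → W} (hV : Ang c cV V) (p : ℝ → ℝ) (σ : ℝ) (k : E) (j : Fin 3) :
    atm V p σ (-k) j = conj (atm V p σ k j) := by
  unfold atm
  rw [norm_neg, PiLp.smul_apply, PiLp.smul_apply, hV.herm k j, Complex.real_smul,
    Complex.real_smul, map_mul, Complex.conj_ofReal]

theorem b3F_conj {c cV : ℝ} {V : E → W} (hV : Ang c cV V) (a q p : ℝ → ℝ) (g h : E → W) (σ : ℝ)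
    (k : E) (j : Fin 3) : b3F V a q p g h (-k) σ j = conj (b3F V a q p g h k σ j) := by
  unfold b3F
  simp only [PiLp.smul_apply, PiLp.sub_apply, b3_conj hV, Complex.real_smul, map_mul, map_sub,
    Complex.conj_ofReal]

theorem b3_kd_smul (k : E) (r : ℝ) (c : W) : kd k (r • c) = r * kd k c := by
  unfold kd
  rw [Finset.mul_sum]
  refine Finset.sum_congr rfl fun j _ => ?_
  rw [PiLp.smul_apply, Complex.real_smul]
  ring

theorem b3_kd_sub (k : E) (c d : W) : kd k (c - d) = kd k c - kd k d := by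
  unfold kd
  rw [← Finset.sum_sub_distrib]
  refine Finset.sum_congr rfl fun j _ => ?_
  rw [PiLp.sub_apply]
  ring

theorem b3F_div {c cV : ℝ} {V : E → W} (hV : Ang c cV V) (a q p : ℝ → ℝ) (g h : E → W) (σ : ℝ)
    (k : E) : kd k (b3F V a q p g h k σ) = 0 := by
  have h1 : ∀ p : ℝ → ℝ, kd k (atm V p σ k) = 0 := by
    intro p
    unfold atm
    rw [b3_kd_smul, hV.divf, mul_zero]
  unfold b3F
  rw [b3_kd_smul, b3_kd_sub, b3_kd_smul, b3_kd_smul, h1, h1]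
  simp

theorem b3_bt_coord {c cV : ℝ} {V : E → W} (hV : Ang c cV V) {a q p : ℝ → ℝ} (ha : Gt a)
    (hq : Gt q) (hp : Gt p) {g h : E → W} (hg : Adm g) (hh : Adm h) (k : E) (j : Fin 3) :
    bt V a q p g h k j = ∫ σ : ℝ, b3F V a q p g h k σ j := by
  have h1 : Integrable fun σ => b3F V a q p g h k σ := bt_int hV ha hq hp hg hh k
  exact (ContinuousLinearMap.integral_comp_comm (EuclideanSpace.proj (𝕜 := ℂ) j) h1).symm

theorem b3_int_coord {c cV : ℝ} {V : E → W} (hV : Ang c cV V) {a q p : ℝ → ℝ} (ha : Gt a)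
    (hq : Gt q) (hp : Gt p) {g h : E → W} (hg : Adm g) (hh : Adm h) (k : E) (j : Fin 3) :
    Integrable fun σ : ℝ => b3F V a q p g h k σ j := by
  have h1 : Integrable fun σ => b3F V a q p g h k σ := bt_int hV ha hq hp hg hh k
  exact (EuclideanSpace.proj (𝕜 := ℂ) j).integrable_comp h1

/-- TARGET -/
theorem adm_bt {c cV : ℝ} {V : E → W} (hV : Ang c cV V) {a q p : ℝ → ℝ} (ha : Gt a) (hq : Gt q)
    (hp : Gt p) {g h : E → W} (hg : Adm g) (hh : Adm h) : Adm (bt V a q p g h) := by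
  constructor
  · have h1 := (b3F_meas hV ha hq hp hg hh).stronglyMeasurable
    exact (StronglyMeasurable.integral_prod_right (ν := volume) h1).measurable
  · intro n
    obtain ⟨M, -, hM⟩ := b3_dec hV ha hq hp n
    exact ⟨_, fun k => hM g h hg hh k⟩
  · intro k j
    rw [b3_bt_coord hV ha hq hp hg hh, b3_bt_coord hV ha hq hp hg hh, ← integral_conj]
    simp only [b3F_conj hV]
  · intro k
    unfold kd
    simp only [b3_bt_coord hV ha hq hp hg hh, ← integral_const_mul]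
    rw [← integral_finsetSum]
    · have : ∀ σ, ∑ j, (k j : ℂ) * b3F V a q p g h k σ j = 0 := fun σ =>
        b3F_div hV a q p g h σ k
      simp only [this, integral_zero]
    · intro j _
      exact (b3_int_coord hV ha hq hp hg hh k j).const_mul _

theorem b3_nrm {α : ℝ} (hα : 0 ≤ α) {m : ℕ} (hm : α + 2 ≤ m) : ∃ K : ℝ, 0 ≤ K ∧ ∀ g : E → W,
    Adm g → ∀ C : ℝ, (∀ k, (1 + ‖k‖) ^ m * ‖g k‖ ≤ C) → nrm α g ≤ K * C := by
  have hI : Integrable fun k : E => (1 + ‖k‖) ^ (-4 : ℝ) := by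
    apply integrable_one_add_norm
    rw [finrank_euclideanSpace_fin]
    norm_num
  refine ⟨Real.sqrt (∫ k : E, (1 + ‖k‖) ^ (-4 : ℝ)), Real.sqrt_nonneg _, ?_⟩
  intro g hg C hC
  have hC0 : 0 ≤ C := le_trans (by positivity) (hC 0)
  unfold nrm
  have e : Real.sqrt (∫ k : E, (1 + ‖k‖) ^ (-4 : ℝ)) * C
      = Real.sqrt ((∫ k : E, (1 + ‖k‖) ^ (-4 : ℝ)) * C ^ 2) := by
    rw [Real.sqrt_mul' _ (sq_nonneg C), Real.sqrt_sq hC0]
  rw [e]
  apply Real.sqrt_le_sqrt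
  rw [← integral_mul_const]
  refine integral_mono (hg.int_sq (by linarith)) (hI.mul_const _) ?_
  intro k
  simp only
  have h1 : 0 < 1 + ‖k‖ := by positivity
  have h2 : ‖k‖ ^ (2 * α) ≤ (1 + ‖k‖) ^ (2 * α) :=
    Real.rpow_le_rpow (norm_nonneg _) (by linarith) (by linarith)
  have h3 : ((1 + ‖k‖) ^ m * ‖g k‖) ^ 2 ≤ C ^ 2 :=
    pow_le_pow_left₀ (by positivity) (hC k) 2
  have h4 : (1 + ‖k‖) ^ (2 * α) ≤ (1 + ‖k‖) ^ (-4 : ℝ) * ((1 + ‖k‖) ^ m) ^ 2 := by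
    rw [← Real.rpow_natCast (1 + ‖k‖) m, ← Real.rpow_natCast _ 2, ← Real.rpow_mul h1.le,
      ← Real.rpow_add h1]
    apply Real.rpow_le_rpow_of_exponent_le
    · linarith [norm_nonneg k]
    · push_cast
      linarith
  calc ‖k‖ ^ (2 * α) * ‖g k‖ ^ 2 ≤ (1 + ‖k‖) ^ (2 * α) * ‖g k‖ ^ 2 :=
        mul_le_mul_of_nonneg_right h2 (by positivity)
    _ ≤ (1 + ‖k‖) ^ (-4 : ℝ) * ((1 + ‖k‖) ^ m) ^ 2 * ‖g k‖ ^ 2 :=
        mul_le_mul_of_nonneg_right h4 (by positivity)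
    _ = (1 + ‖k‖) ^ (-4 : ℝ) * ((1 + ‖k‖) ^ m * ‖g k‖) ^ 2 := by ring
    _ ≤ _ := mul_le_mul_of_nonneg_left h3 (by positivity)

/-- TARGET -/
theorem bt_bdd {c cV : ℝ} {V : E → W} (hV : Ang c cV V) {a q p : ℝ → ℝ} (ha : Gt a) (hq : Gt q)
    (hp : Gt p) (n : ℕ) : ∃ (m : ℕ) (K : ℝ), ∀ g h : E → W, Adm g → Adm h → ∀ C D : ℝ,
      (∀ k, (1 + ‖k‖) ^ m * ‖g k‖ ≤ C) → (∀ k, (1 + ‖k‖) ^ m * ‖h k‖ ≤ D) →
        ∀ k, (1 + ‖k‖) ^ n * ‖bt V a q p g h k‖ ≤ K * C * D := by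
  obtain ⟨M, hM0, hM⟩ := b3_dec hV ha hq hp n
  have hn : (0 : ℝ) ≤ n := Nat.cast_nonneg n
  obtain ⟨K0, hK0, h0⟩ := b3_nrm (α := 0) le_rfl (m := n + 3) (by push_cast; linarith)
  obtain ⟨K1, hK1, h1⟩ := b3_nrm (α := (n : ℝ) + 1) (by linarith) (m := n + 3)
    (by push_cast; linarith)
  refine ⟨n + 3, M * K0 * (K0 + K1), ?_⟩
  intro g h hg hh C D hC hD k
  have hC0 : 0 ≤ C := le_trans (by positivity) (hC 0)
  have hD0 : 0 ≤ D := le_trans (by positivity) (hD 0)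
  have a1 := h0 g hg C hC
  have a2 := h0 h hh D hD
  have a3 := h1 h hh D hD
  have ng := nrm_nonneg 0 g
  have nh := nrm_nonneg 0 h
  have nh' := nrm_nonneg ((n : ℝ) + 1) h
  calc (1 + ‖k‖) ^ n * ‖bt V a q p g h k‖ ≤ M * nrm 0 g * (nrm 0 h + nrm (n + 1) h) :=
        hM g h hg hh k
    _ ≤ M * (K0 * C) * (K0 * D + K1 * D) := by
        apply mul_le_mul
        · exact mul_le_mul_of_nonneg_left a1 hM0
        · exact add_le_add a2 a3
        · positivity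
        · positivity
    _ = M * K0 * (K0 + K1) * C * D := by ring

theorem b3_pr_add {c cV : ℝ} {V : E → W} (hV : Ang c cV V) {a : ℝ → ℝ} (ha : Gt a) {g g' : E → W}
    (hg : Adm g) (hg' : Adm g') (r σ : ℝ) :
    pr (atm V a σ) (g + r • g') = pr (atm V a σ) g + r * pr (atm V a σ) g' := by
  unfold pr
  rw [← integral_const_mul, ← integral_add (fn_int hV ha hg σ) ((fn_int hV ha hg' σ).const_mul r)]
  refine integral_congr_ae (Filter.Eventually.of_forall fun k => ?_)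
  simp only [Pi.add_apply, Pi.smul_apply]
  rw [inner_add_right, ← Complex.coe_smul, inner_smul_right, Complex.add_re, Complex.re_ofReal_mul]

/-- TARGET -/
theorem bt_lin₁ {c cV : ℝ} {V : E → W} (hV : Ang c cV V) {a q p : ℝ → ℝ} (ha : Gt a) (hq : Gt q)
    (hp : Gt p) {g g' h : E → W} (hg : Adm g) (hg' : Adm g') (hh : Adm h) (r : ℝ) :
    bt V a q p (g + r • g') h = bt V a q p g h + r • bt V a q p g' h := by
  funext k
  simp only [Pi.add_apply, Pi.smul_apply]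
  unfold bt
  have e := integral_add (bt_int hV ha hq hp hg hh k) ((bt_int hV ha hq hp hg' hh k).smul r)
  simp only [Pi.smul_apply] at e
  rw [← integral_smul, ← e]
  refine integral_congr_ae (Filter.Eventually.of_forall fun σ => ?_)
  simp only
  rw [b3_pr_add hV ha hg hg', smul_smul, ← add_smul]
  congr 1
  ring

/-- TARGET -/
theorem bt_lin₂ {c cV : ℝ} {V : E → W} (hV : Ang c cV V) {a q p : ℝ → ℝ} (ha : Gt a) (hq : Gt q)
    (hp : Gt p) {g h h' : E → W} (hg : Adm g) (hh : Adm h) (hh' : Adm h') (r : ℝ) :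
    bt V a q p g (h + r • h') = bt V a q p g h + r • bt V a q p g h' := by
  funext k
  simp only [Pi.add_apply, Pi.smul_apply]
  unfold bt
  have e := integral_add (bt_int hV ha hq hp hg hh k) ((bt_int hV ha hq hp hg hh' k).smul r)
  simp only [Pi.smul_apply] at e
  rw [← integral_smul, ← e]
  refine integral_congr_ae (Filter.Eventually.of_forall fun σ => ?_)
  simp only
  rw [b3_pr_add hV hq hh hh', b3_pr_add hV hp hh hh']
  module

end H706N.JB3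

namespace H706N

alias bt_int := JB3.bt_int
alias adm_bt := JB3.adm_bt
alias bt_bdd := JB3.bt_bdd
alias bt_lin₁ := JB3.bt_lin₁
alias bt_lin₂ := JB3.bt_lin₂

end H706N
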