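import Pool.Agent.Helper706_NS.Defs2
import Pool.Agent.Helper706_NS.B3

set_option autoImplicit false
open Set Filter Topology MeasureTheory
open scoped ComplexConjugate ContDiff

namespace H706N.JB4

/-! ### auxiliary lemmas -/

theorem B4_exp (t : ℝ) (ht : 0 ≤ t) : Real.exp (-(t / 2)) ≤ 8 * (1 + t ^ 2)⁻¹ := by
  have h1 := Real.quadratic_le_exp_of_nonneg (x := t / 2) (by positivity)
  rw [Real.exp_neg, ← div_eq_mul_inv, inv_eq_one_div, div_le_div_iff₀ (Real.exp_pos _) (by positivity)]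
  nlinarith

theorem B4_dec {c cV : ℝ} {V : E → W} (hV : Ang c cV V) {a : ℝ → ℝ} (ha : Gt a) {f : E → W}
    (hf : Adm f) : ∃ K : ℝ, 0 ≤ K ∧ ∀ σ : ℝ,
      |Real.exp (5 / 2 * σ) * pr (atm V a σ) f| ≤ K * (1 + σ ^ 2)⁻¹ := by
  obtain ⟨C2, h2⟩ := fn_sup hV ha (α := 2) (by norm_num)
  obtain ⟨C3, h3⟩ := fn_sup hV ha (α := 3) (by norm_num)
  have n2 := nrm_nonneg 2 f
  have n3 := nrm_nonneg 3 f
  refine ⟨8 * (|C2| * nrm 2 f + |C3| * nrm 3 f), by positivity, fun σ => ?_⟩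
  rw [abs_mul, abs_of_pos (Real.exp_pos _)]
  have key : ∀ (C N γ t : ℝ), 0 ≤ N → 0 ≤ t → t ^ 2 = σ ^ 2 → 5 / 2 * σ + -γ * σ = -(t / 2) →
      |pr (atm V a σ) f| ≤ C * Real.exp (-γ * σ) * N →
      Real.exp (5 / 2 * σ) * |pr (atm V a σ) f| ≤ 8 * (|C| * N) * (1 + σ ^ 2)⁻¹ := by
    intro C N γ t hN ht hts he h
    have h1 : |pr (atm V a σ) f| ≤ |C| * Real.exp (-γ * σ) * N :=
      h.trans (by gcongr; exact le_abs_self C)
    calc Real.exp (5 / 2 * σ) * |pr (atm V a σ) f|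
        ≤ Real.exp (5 / 2 * σ) * (|C| * Real.exp (-γ * σ) * N) := by gcongr
      _ = (|C| * N) * Real.exp (-(t / 2)) := by
          rw [← he, Real.exp_add]
          ring
      _ ≤ (|C| * N) * (8 * (1 + t ^ 2)⁻¹) := by
          gcongr
          exact B4_exp t ht
      _ = 8 * (|C| * N) * (1 + σ ^ 2)⁻¹ := by rw [hts]; ring
  have hi : 0 ≤ (1 + σ ^ 2)⁻¹ := by positivity
  rcases le_total 0 σ with hσ | hσ
  · refine (key C3 (nrm 3 f) 3 σ n3 hσ rfl (by ring) (h3 f hf σ)).trans ?_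
    gcongr
    have : 0 ≤ |C2| * nrm 2 f := by positivity
    linarith
  · refine (key C2 (nrm 2 f) 2 (-σ) n2 (by linarith) (by ring) (by ring) (h2 f hf σ)).trans ?_
    gcongr
    have : 0 ≤ |C3| * nrm 3 f := by positivity
    linarith

theorem B4_bd {c cV : ℝ} {V : E → W} (hV : Ang c cV V) {a : ℝ → ℝ} (ha : Gt a) {f : E → W}
    (hf : Adm f) : ∃ K : ℝ, 0 ≤ K ∧ ∀ σ : ℝ, |pr (atm V a σ) f| ≤ K := by
  obtain ⟨C, h⟩ := fn_sup hV ha (α := 0) (by norm_num)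
  have n := nrm_nonneg 0 f
  refine ⟨|C| * nrm 0 f, by positivity, fun σ => (h f hf σ).trans ?_⟩
  rw [neg_zero, zero_mul, Real.exp_zero, mul_one]
  gcongr
  exact le_abs_self C

theorem B4_sq_int {a : ℝ → ℝ} (ha : Gt a) : Integrable fun s : ℝ => a s ^ 2 := by
  obtain ⟨C, hC⟩ := ha.bd
  have h1 : Integrable fun s : ℝ => C ^ 2 * Real.exp (-2 * s ^ 2) :=
    (integrable_exp_neg_mul_sq (by norm_num : (0 : ℝ) < 2)).const_mul _
  refine h1.mono' (ha.cont.pow 2).aestronglyMeasurable (Eventually.of_forall fun s => ?_)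
  rw [Real.norm_eq_abs, abs_of_nonneg (sq_nonneg _), ← sq_abs]
  calc |a s| ^ 2 ≤ (C * Real.exp (-s ^ 2)) ^ 2 := by
        gcongr
        exact hC s
    _ = C ^ 2 * Real.exp (-2 * s ^ 2) := by
        rw [mul_pow, sq (Real.exp _), ← Real.exp_add]
        ring_nf

theorem B4_atm_sq (V : E → W) (a : ℝ → ℝ) (σ : ℝ) (k : E) :
    ‖atm V a σ k‖ ^ 2 = ‖k‖ ^ (-3 : ℝ) * ‖V k‖ ^ 2 * a (Real.log ‖k‖ - σ) ^ 2 := by
  unfold atm
  rw [norm_smul, mul_pow, Real.norm_eq_abs, sq_abs, mul_pow, ← Real.rpow_natCast (‖k‖ ^ _),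
    ← Real.rpow_mul (norm_nonneg k)]
  norm_num
  ring

theorem B4_atm_L2 {c cV : ℝ} {V : E → W} (hV : Ang c cV V) {a : ℝ → ℝ} (ha : Gt a) (σ : ℝ) :
    Integrable (fun k : E => ‖atm V a σ k‖ ^ 2) ∧
      ∫ k : E, ‖atm V a σ k‖ ^ 2 = cV * ∫ s, a s ^ 2 := by
  have h1 : Integrable fun s : ℝ => a (s - σ) ^ 2 := (B4_sq_int ha).comp_sub_right σ
  obtain ⟨h2, h3⟩ := polar_int hV h1
  have e : (fun k : E => ‖atm V a σ k‖ ^ 2) =
      fun k => ‖k‖ ^ (-3 : ℝ) * ‖V k‖ ^ 2 * a (Real.log ‖k‖ - σ) ^ 2 := by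
    funext k
    exact B4_atm_sq V a σ k
  rw [e]
  refine ⟨h2, h3.trans ?_⟩
  rw [integral_sub_right_eq_self (fun s => a s ^ 2) σ]

theorem B4_prodInt {F h : E → W} (mF : Measurable F) (mh : Measurable h)
    (h2 : Integrable fun k : E => ‖F k‖ ^ 2) (h1 : Integrable fun k : E => ‖h k‖ ^ 2) :
    Integrable (fun k : E => ‖F k‖ * ‖h k‖) ∧
      ∫ k : E, ‖F k‖ * ‖h k‖ ≤ (∫ k : E, ‖F k‖ ^ 2) + ∫ k : E, ‖h k‖ ^ 2 := by
  have hle : ∀ x y : ℝ, 0 ≤ x → 0 ≤ y → x * y ≤ x ^ 2 + y ^ 2 := by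
    intro x y hx hy
    nlinarith [sq_nonneg (x - y)]
  have h4 : Integrable (fun k : E => ‖F k‖ * ‖h k‖) := by
    refine (h2.add h1).mono' (mF.norm.mul mh.norm).aestronglyMeasurable
      (Eventually.of_forall fun k => ?_)
    rw [Real.norm_of_nonneg (mul_nonneg (norm_nonneg _) (norm_nonneg _))]
    exact hle _ _ (norm_nonneg _) (norm_nonneg _)
  refine ⟨h4, ?_⟩
  rw [← integral_add h2 h1]
  exact integral_mono h4 (h2.add h1) fun k => hle _ _ (norm_nonneg _) (norm_nonneg _)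

theorem B4_slice {c cV : ℝ} {V : E → W} (hV : Ang c cV V) {a : ℝ → ℝ} (ha : Gt a) (σ : ℝ) :
    Measurable (atm V a σ) := by
  have h0 : Measurable fun k : E => ((σ, k) : ℝ × E) := measurable_prodMk_left
  have h1 := atm_meas hV ha.cont
  have h2 := h1.comp h0
  exact h2

theorem B4_mass {c cV : ℝ} {V : E → W} (hV : Ang c cV V) {a : ℝ → ℝ} (ha : Gt a) {h : E → W}
    (hh : Adm h) : ∃ M : ℝ, 0 ≤ M ∧ ∀ σ : ℝ,
      Integrable (fun k : E => ‖atm V a σ k‖ * ‖h k‖) ∧ ∫ k : E, ‖atm V a σ k‖ * ‖h k‖ ≤ M := by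
  have h1 : Integrable fun k : E => ‖h k‖ ^ 2 := by
    have := hh.int_sq (a := 0) (by norm_num)
    simpa using this
  have hI : 0 ≤ ∫ s, a s ^ 2 := integral_nonneg fun s => sq_nonneg _
  have hI2 : 0 ≤ ∫ k : E, ‖h k‖ ^ 2 := integral_nonneg fun s => sq_nonneg _
  refine ⟨cV * (∫ s, a s ^ 2) + ∫ k : E, ‖h k‖ ^ 2,
    add_nonneg (mul_nonneg hV.pos.le hI) hI2, fun σ => ?_⟩
  obtain ⟨h2, h3⟩ := B4_atm_L2 hV ha σ
  rw [← h3]
  exact B4_prodInt (B4_slice hV ha σ) hh.meas h2 h1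

/-- the scalar coefficient -/
noncomputable def B4_c (V : E → W) (a : ℝ → ℝ) (f : E → W) (σ : ℝ) : ℝ :=
  Real.exp (5 / 2 * σ) * pr (atm V a σ) f

/-- integrability on the product, abstract form -/
theorem B4_abs {P1 P2 : ℝ → ℝ} {J : ℝ → E → ℝ} {N : ℝ → E → ℝ} {K1 K2 M : ℝ} (hK1 : 0 ≤ K1)
    (hK2 : 0 ≤ K2) (m1 : Measurable P1) (m2 : Measurable P2)
    (mJ : Measurable fun z : E × ℝ => J z.2 z.1)
    (h1 : ∀ σ, |P1 σ| ≤ K1 * (1 + σ ^ 2)⁻¹) (h2 : ∀ σ, |P2 σ| ≤ K2)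
    (hJ : ∀ σ, Integrable (J σ)) (hN : ∀ σ, Integrable (N σ)) (hJN : ∀ σ k, |J σ k| ≤ N σ k)
    (hM : ∀ σ, ∫ k, N σ k ≤ M) :
    Integrable (Function.uncurry fun (k : E) (σ : ℝ) => P1 σ * (P2 σ * J σ k))
      (volume.prod volume) := by
  have mF : Measurable (Function.uncurry fun (k : E) (σ : ℝ) => P1 σ * (P2 σ * J σ k)) :=
    (m1.comp measurable_snd).mul ((m2.comp measurable_snd).mul mJ)
  have hfi : ∀ σ, Integrable fun k : E => P1 σ * (P2 σ * J σ k) := fun σ =>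
    ((hJ σ).const_mul _).const_mul _
  rw [integrable_prod_iff' mF.aestronglyMeasurable]
  refine ⟨Eventually.of_forall fun σ => hfi σ, ?_⟩
  have hb : Integrable fun σ : ℝ => K1 * (1 + σ ^ 2)⁻¹ * (K2 * M) :=
    (integrable_inv_one_add_sq.const_mul K1).mul_const _
  refine hb.mono' (mF.norm.stronglyMeasurable.integral_prod_left' (μ := volume)).aestronglyMeasurable
    (Eventually.of_forall fun σ => ?_)
  rw [Real.norm_of_nonneg (integral_nonneg fun k => norm_nonneg _)]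
  have hn : 0 ≤ ∫ k : E, N σ k := integral_nonneg fun k => (abs_nonneg _).trans (hJN σ k)
  calc ∫ k : E, ‖P1 σ * (P2 σ * J σ k)‖
      ≤ ∫ k : E, |P1 σ| * (|P2 σ| * N σ k) := by
        refine integral_mono (hfi σ).norm (((hN σ).const_mul _).const_mul _) fun k => ?_
        change ‖P1 σ * (P2 σ * J σ k)‖ ≤ |P1 σ| * (|P2 σ| * N σ k)
        rw [Real.norm_eq_abs, abs_mul, abs_mul]
        exact mul_le_mul_of_nonneg_left (mul_le_mul_of_nonneg_left (hJN σ k) (abs_nonneg _))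
          (abs_nonneg _)
    _ = |P1 σ| * (|P2 σ| * ∫ k : E, N σ k) := by
        rw [integral_const_mul, integral_const_mul]
    _ ≤ K1 * (1 + σ ^ 2)⁻¹ * (K2 * M) := by
        refine mul_le_mul (h1 σ) (mul_le_mul (h2 σ) (hM σ) hn hK2)
          (mul_nonneg (abs_nonneg _) hn) (by positivity)

theorem B4_meas2 {c cV : ℝ} {V : E → W} (hV : Ang c cV V) {p : ℝ → ℝ} (hp : Gt p) {h : E → W}
    (hh : Adm h) : Measurable fun z : ℝ × E => (inner ℂ (atm V p z.1 z.2) (h z.2)).re := by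
  have m1 := atm_meas hV hp.cont
  have m3 : Measurable fun z : ℝ × E => h z.2 := hh.meas.comp measurable_snd
  have m4 := m1.inner (𝕜 := ℂ) m3
  exact Complex.measurable_re.comp m4

theorem B4_meas3 {J : ℝ → E → ℝ} (mJ : Measurable fun z : ℝ × E => J z.1 z.2) :
    Measurable fun z : E × ℝ => J z.2 z.1 := mJ.comp measurable_swap

theorem B4_prod {c cV : ℝ} {V : E → W} (hV : Ang c cV V) {a q p : ℝ → ℝ} (ha : Gt a) (hq : Gt q)
    (hp : Gt p) {f g h : E → W} (hf : Adm f) (hg : Adm g) (hh : Adm h) :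
    Integrable (Function.uncurry fun (k : E) (σ : ℝ) =>
      B4_c V a f σ * (pr (atm V q σ) g * (inner ℂ (atm V p σ k) (h k)).re)) (volume.prod volume) := by
  obtain ⟨K1, hK1, h1⟩ := B4_dec hV ha hf
  obtain ⟨K2, hK2, h2⟩ := B4_bd hV hq hg
  obtain ⟨M, hM, h3⟩ := B4_mass hV hp hh
  have mc : Measurable fun σ : ℝ => B4_c V a f σ :=
    (by fun_prop : Measurable fun σ : ℝ => Real.exp (5 / 2 * σ)).mul (fn_meas hV ha hf)
  have mq := fn_meas hV hq hg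
  have mi := B4_meas2 hV hp hh
  have hi := fun σ => fn_int hV hp hh σ
  have hle : ∀ σ (k : E), |(inner ℂ (atm V p σ k) (h k)).re| ≤ ‖atm V p σ k‖ * ‖h k‖ :=
    fun σ k => (Complex.abs_re_le_norm _).trans (norm_inner_le_norm _ _)
  obtain ⟨J, hJ⟩ : ∃ J : ℝ → E → ℝ, ∀ σ k, J σ k = (inner ℂ (atm V p σ k) (h k)).re :=
    ⟨_, fun _ _ => rfl⟩
  obtain ⟨N, hN⟩ : ∃ N : ℝ → E → ℝ, ∀ σ k, N σ k = ‖atm V p σ k‖ * ‖h k‖ :=
    ⟨_, fun _ _ => rfl⟩
  obtain ⟨Q, hQ⟩ : ∃ Q : ℝ → ℝ, ∀ σ, Q σ = pr (atm V q σ) g := ⟨_, fun _ => rfl⟩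
  obtain ⟨R, hR⟩ : ∃ R : ℝ → ℝ, ∀ σ, R σ = B4_c V a f σ := ⟨_, fun _ => rfl⟩
  have h1' : ∀ σ, |B4_c V a f σ| ≤ K1 * (1 + σ ^ 2)⁻¹ := h1
  simp only [← hJ] at mi hi hle ⊢
  simp only [← hN] at h3 hle
  simp only [← hQ] at h2 mq ⊢
  simp only [← hR] at h1' mc ⊢
  exact B4_abs hK1 hK2 mc mq (B4_meas3 mi) h1' h2 hi (fun σ => (h3 σ).1) hle (fun σ => (h3 σ).2)

theorem B4_pair (y : W) : ∃ L : W →L[ℝ] ℝ, ∀ w, L w = (inner ℂ w y).re := by
  refine ⟨Complex.reCLM.comp ((innerSL ℂ y).restrictScalars ℝ), fun w => ?_⟩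
  change (inner ℂ y w).re = _
  exact inner_re_symm (𝕜 := ℂ) y w

theorem B4_pairInt (y : W) {F : ℝ → W} (hF : Integrable F) :
    (inner ℂ (∫ σ, F σ) y).re = ∫ σ, (inner ℂ (F σ) y).re := by
  obtain ⟨L, hL⟩ := B4_pair y
  rw [← hL, ← L.integral_comp_comm hF]
  simp only [hL]

theorem B4_pairLin (y u v : W) (r s t : ℝ) : (inner ℂ (r • (s • u - t • v)) y).re =
    r * (s * (inner ℂ u y).re) - r * (t * (inner ℂ v y).re) := by
  obtain ⟨L, hL⟩ := B4_pair y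
  rw [← hL, ← hL, ← hL, map_smul, map_sub, map_smul, map_smul]
  simp only [smul_eq_mul]
  ring

/-- TARGET -/
theorem pr_bt {c cV : ℝ} {V : E → W} (hV : Ang c cV V) {a q p : ℝ → ℝ} (ha : Gt a) (hq : Gt q)
    (hp : Gt p) {f g h : E → W} (hf : Adm f) (hg : Adm g) (hh : Adm h) :
    pr (bt V a q p f g) h = ∫ σ : ℝ, (Real.exp (5 / 2 * σ) * pr (atm V a σ) f) *
      (pr (atm V q σ) g * pr (atm V p σ) h - pr (atm V p σ) g * pr (atm V q σ) h) := by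
  have P1 := B4_prod hV ha hq hp hf hg hh
  have P2 := B4_prod hV ha hp hq hf hg hh
  have P : Integrable (Function.uncurry fun (k : E) (σ : ℝ) =>
      B4_c V a f σ * (pr (atm V q σ) g * (inner ℂ (atm V p σ k) (h k)).re) -
      B4_c V a f σ * (pr (atm V p σ) g * (inner ℂ (atm V q σ k) (h k)).re))
      (volume.prod volume) := P1.sub P2
  have step1 : pr (bt V a q p f g) h = ∫ k : E, ∫ σ : ℝ,
      (B4_c V a f σ * (pr (atm V q σ) g * (inner ℂ (atm V p σ k) (h k)).re) -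
      B4_c V a f σ * (pr (atm V p σ) g * (inner ℂ (atm V q σ k) (h k)).re)) := by
    unfold pr
    refine integral_congr_ae (Eventually.of_forall fun k => ?_)
    have hi := B4_pairInt (h k) (bt_int hV ha hq hp hf hg k)
    refine Eq.trans hi (integral_congr_ae (Eventually.of_forall fun σ => ?_))
    exact B4_pairLin (h k) (atm V p σ k) (atm V q σ k) _ _ _
  rw [step1, integral_integral_swap P]
  refine integral_congr_ae (Eventually.of_forall fun σ => ?_)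
  change ∫ k : E, (B4_c V a f σ * (pr (atm V q σ) g * (inner ℂ (atm V p σ k) (h k)).re) -
      B4_c V a f σ * (pr (atm V p σ) g * (inner ℂ (atm V q σ k) (h k)).re)) = _
  rw [integral_sub (((fn_int hV hp hh σ).const_mul _).const_mul _)
    (((fn_int hV hq hh σ).const_mul _).const_mul _), integral_const_mul, integral_const_mul,
    integral_const_mul, integral_const_mul]
  change B4_c V a f σ * (pr (atm V q σ) g * pr (atm V p σ) h) -
    B4_c V a f σ * (pr (atm V p σ) g * pr (atm V q σ) h) = B4_c V a f σ * _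
  ring

/-- TARGET -/
theorem bt_skew {c cV : ℝ} {V : E → W} (hV : Ang c cV V) {a q p : ℝ → ℝ} (ha : Gt a) (hq : Gt q)
    (hp : Gt p) {g h : E → W} (hg : Adm g) (hh : Adm h) : pr (bt V a q p g h) h = 0 := by
  rw [pr_bt hV ha hq hp hg hh hh]
  have e : (fun σ : ℝ => (Real.exp (5 / 2 * σ) * pr (atm V a σ) g) *
      (pr (atm V q σ) h * pr (atm V p σ) h - pr (atm V p σ) h * pr (atm V q σ) h)) = fun _ => 0 := by
    funext σ
    ring
  rw [e, integral_zero]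

/-- Cauchy-Schwarz with weights -/
theorem B4_cs {A B D : ℝ → ℝ} (mA : Measurable A) (mB : Measurable B) {α β γ x y S : ℝ}
    (h : α + β + γ = 5 / 2) (hx : 0 ≤ x) (hy : 0 ≤ y) (hS : 0 ≤ S)
    (hA : ∫⁻ σ : ℝ, ENNReal.ofReal (Real.exp (2 * α * σ) * A σ ^ 2) ≤ ENNReal.ofReal (x ^ 2))
    (hB : ∫⁻ σ : ℝ, ENNReal.ofReal (Real.exp (2 * β * σ) * B σ ^ 2) ≤ ENNReal.ofReal (y ^ 2))
    (hD : ∀ σ, |D σ| ≤ S * Real.exp (-γ * σ)) :
    ∫⁻ σ : ℝ, ENNReal.ofReal |Real.exp (5 / 2 * σ) * A σ * (B σ * D σ)| ≤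
      ENNReal.ofReal (S * (x * y)) := by
  have hsq : ∀ (u : ℝ) (F : ℝ → ℝ) (σ : ℝ), ENNReal.ofReal (Real.exp (u * σ) * |F σ|) ^ (2 : ℝ) =
      ENNReal.ofReal (Real.exp (2 * u * σ) * F σ ^ 2) := by
    intro u F σ
    rw [ENNReal.ofReal_rpow_of_nonneg (by positivity) (by norm_num)]
    congr 1
    rw [Real.rpow_two, mul_pow, sq_abs, ← Real.exp_nat_mul]
    congr 2
    push_cast
    ring
  have hpt : ∀ σ, ENNReal.ofReal |Real.exp (5 / 2 * σ) * A σ * (B σ * D σ)| ≤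
      ENNReal.ofReal S * (ENNReal.ofReal (Real.exp (α * σ) * |A σ|) *
        ENNReal.ofReal (Real.exp (β * σ) * |B σ|)) := by
    intro σ
    rw [← ENNReal.ofReal_mul (by positivity), ← ENNReal.ofReal_mul hS]
    refine ENNReal.ofReal_le_ofReal ?_
    rw [abs_mul, abs_mul, abs_mul, abs_of_pos (Real.exp_pos _)]
    have he : Real.exp (5 / 2 * σ) = Real.exp (α * σ) * Real.exp (β * σ) * Real.exp (γ * σ) := by
      rw [← Real.exp_add, ← Real.exp_add, ← h]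
      ring_nf
    have h1 : Real.exp (γ * σ) * |D σ| ≤ S := by
      have h2 := mul_le_mul_of_nonneg_left (hD σ) (Real.exp_pos (γ * σ)).le
      have h3 : Real.exp (γ * σ) * (S * Real.exp (-γ * σ)) = S := by
        rw [mul_left_comm, ← Real.exp_add]
        have : γ * σ + -γ * σ = 0 := by ring
        rw [this, Real.exp_zero, mul_one]
      rwa [h3] at h2
    calc Real.exp (5 / 2 * σ) * |A σ| * (|B σ| * |D σ|)
        = (Real.exp (α * σ) * |A σ| * (Real.exp (β * σ) * |B σ|)) * (Real.exp (γ * σ) * |D σ|) := by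
          rw [he]; ring
      _ ≤ (Real.exp (α * σ) * |A σ| * (Real.exp (β * σ) * |B σ|)) * S := by gcongr
      _ = _ := by ring
  have mu : ∀ (u : ℝ) {F : ℝ → ℝ}, Measurable F →
      Measurable fun σ : ℝ => ENNReal.ofReal (Real.exp (u * σ) * |F σ|) := by
    intro u F hF
    have h1 : Measurable fun σ : ℝ => |F σ| := hF.abs
    have h2 : Measurable fun σ : ℝ => Real.exp (u * σ) := by fun_prop
    exact (h2.mul h1).ennreal_ofReal
  refine (lintegral_mono hpt).trans ?_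
  rw [lintegral_const_mul' _ _ ENNReal.ofReal_ne_top, ENNReal.ofReal_mul hS]
  refine mul_le_mul_right ?_ _
  refine (ENNReal.lintegral_mul_le_Lp_mul_Lq volume Real.HolderConjugate.two_two
    (mu α mA).aemeasurable (mu β mB).aemeasurable).trans ?_
  rw [ENNReal.ofReal_mul hx]
  have hroot : ∀ z : ℝ, 0 ≤ z → (ENNReal.ofReal (z ^ 2)) ^ (1 / (2 : ℝ)) = ENNReal.ofReal z := by
    intro z hz
    rw [ENNReal.ofReal_rpow_of_nonneg (by positivity) (by norm_num), ← Real.sqrt_eq_rpow,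
      Real.sqrt_sq hz]
  refine mul_le_mul' ?_ ?_
  · rw [← hroot x hx]
    refine ENNReal.rpow_le_rpow ?_ (by norm_num)
    refine le_trans (le_of_eq ?_) hA
    exact lintegral_congr fun σ => hsq α A σ
  · rw [← hroot y hy]
    refine ENNReal.rpow_le_rpow ?_ (by norm_num)
    refine le_trans (le_of_eq ?_) hB
    exact lintegral_congr fun σ => hsq β B σ

/-- TARGET -/
theorem bt_est {c cV : ℝ} {V : E → W} (hV : Ang c cV V) {a q p : ℝ → ℝ} (ha : Gt a) (hq : Gt q)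
    (hp : Gt p) {α β γ : ℝ} (h : α + β + γ = 5 / 2) (hα : -(3 / 2) < α) (hβ : -(3 / 2) < β)
    (hγ : -(3 / 2) < γ) : ∃ C : ℝ, 0 ≤ C ∧ ∀ f g h : E → W, Adm f → Adm g → Adm h →
      |pr (bt V a q p f g) h| ≤ C * nrm α f * nrm β g * nrm γ h := by
  obtain ⟨Ca, hCa⟩ := fn_L2 hV ha hα
  obtain ⟨Cq, hCq⟩ := fn_L2 hV hq hβ
  obtain ⟨Cp, hCp⟩ := fn_L2 hV hp hβ
  obtain ⟨Sp, hSp⟩ := fn_sup hV hp hγ
  obtain ⟨Sq, hSq⟩ := fn_sup hV hq hγ
  refine ⟨|Sp| * √|Ca| * √|Cq| + |Sq| * √|Ca| * √|Cp|, by positivity, ?_⟩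
  intro f g h' hf hg hh
  have nf := nrm_nonneg α f
  have ng := nrm_nonneg β g
  have nh := nrm_nonneg γ h'
  have mA : Measurable fun σ : ℝ => pr (atm V a σ) f := fn_meas hV ha hf
  have mQ : Measurable fun σ : ℝ => pr (atm V q σ) g := fn_meas hV hq hg
  have mP : Measurable fun σ : ℝ => pr (atm V p σ) g := fn_meas hV hp hg
  have mQh : Measurable fun σ : ℝ => pr (atm V q σ) h' := fn_meas hV hq hh
  have mPh : Measurable fun σ : ℝ => pr (atm V p σ) h' := fn_meas hV hp hh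
  have hL : ∀ (C N : ℝ), 0 ≤ N → ENNReal.ofReal (C * N ^ 2) ≤ ENNReal.ofReal ((√|C| * N) ^ 2) := by
    intro C N hN
    refine ENNReal.ofReal_le_ofReal ?_
    rw [mul_pow, Real.sq_sqrt (abs_nonneg C)]
    exact mul_le_mul_of_nonneg_right (le_abs_self C) (sq_nonneg N)
  have hD : ∀ (C S : ℝ) (F : ℝ → ℝ), (∀ σ, |F σ| ≤ S * Real.exp (-γ * σ) * nrm γ h') →
      ∀ σ, |F σ| ≤ |S| * nrm γ h' * Real.exp (-γ * σ) := by
    intro C S F hF σ
    refine (hF σ).trans ?_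
    have : S * Real.exp (-γ * σ) * nrm γ h' ≤ |S| * Real.exp (-γ * σ) * nrm γ h' := by
      gcongr
      exact le_abs_self S
    linarith
  have e1 := B4_cs mA mQ h (x := √|Ca| * nrm α f) (y := √|Cq| * nrm β g) (S := |Sp| * nrm γ h')
    (by positivity) (by positivity) (by positivity) ((hCa f hf).trans (hL _ _ nf))
    ((hCq g hg).trans (hL _ _ ng)) (hD 0 Sp _ (hSp h' hh))
  have e2 := B4_cs mA mP h (x := √|Ca| * nrm α f) (y := √|Cp| * nrm β g) (S := |Sq| * nrm γ h')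
    (by positivity) (by positivity) (by positivity) ((hCa f hf).trans (hL _ _ nf))
    ((hCp g hg).trans (hL _ _ ng)) (hD 0 Sq _ (hSq h' hh))
  rw [pr_bt hV ha hq hp hf hg hh]
  have mexp : Measurable fun σ : ℝ => Real.exp (5 / 2 * σ) := by fun_prop
  have mT1 : Measurable fun σ : ℝ => ENNReal.ofReal
      |Real.exp (5 / 2 * σ) * pr (atm V a σ) f * (pr (atm V q σ) g * pr (atm V p σ) h')| :=
    (((mexp.mul mA).mul (mQ.mul mPh)).abs).ennreal_ofReal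
  have h3 : ENNReal.ofReal |∫ σ : ℝ, (Real.exp (5 / 2 * σ) * pr (atm V a σ) f) *
      (pr (atm V q σ) g * pr (atm V p σ) h' - pr (atm V p σ) g * pr (atm V q σ) h')| ≤
      ENNReal.ofReal (|Sp| * nrm γ h' * (√|Ca| * nrm α f * (√|Cq| * nrm β g)) +
        |Sq| * nrm γ h' * (√|Ca| * nrm α f * (√|Cp| * nrm β g))) := by
    rw [ENNReal.ofReal_add (by positivity) (by positivity)]
    refine le_trans ?_ (add_le_add e1 e2)
    rw [← lintegral_add_left mT1]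
    have h4 := enorm_integral_le_lintegral_enorm (μ := volume) fun σ : ℝ =>
      (Real.exp (5 / 2 * σ) * pr (atm V a σ) f) *
      (pr (atm V q σ) g * pr (atm V p σ) h' - pr (atm V p σ) g * pr (atm V q σ) h')
    simp only [← ofReal_norm, Real.norm_eq_abs] at h4
    refine h4.trans (lintegral_mono fun σ => ?_)
    rw [← ENNReal.ofReal_add (abs_nonneg _) (abs_nonneg _)]
    refine ENNReal.ofReal_le_ofReal ?_
    rw [mul_sub]
    exact abs_sub _ _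
  have h4 := (ENNReal.ofReal_le_ofReal_iff (by positivity)).1 h3
  refine h4.trans (le_of_eq ?_)
  ring

theorem B4_nrm {h : E → W} (hh : Adm h) {D : ℝ} (hD : ∀ k, (1 + ‖k‖) ^ 5 * ‖h k‖ ≤ D) :
    nrm (5 / 2) h ≤ √(∫ k : E, ((1 + ‖k‖) ^ 4)⁻¹) * D := by
  have hD0 : 0 ≤ D := le_trans (by positivity) (hD 0)
  have hi : Integrable fun k : E => ((1 + ‖k‖) ^ 4)⁻¹ := by
    refine int_dec (C := 1) (by fun_prop) fun k => ?_
    have : 0 < (1 + ‖k‖) ^ 4 := by positivity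
    rw [Real.norm_of_nonneg (by positivity), mul_inv_cancel₀ this.ne']
  unfold nrm
  rw [← Real.sqrt_sq hD0, ← Real.sqrt_mul (integral_nonneg fun k => by positivity)]
  refine Real.sqrt_le_sqrt ?_
  rw [← integral_mul_const]
  refine integral_mono (hh.int_sq (by norm_num)) (hi.mul_const _) fun k => ?_
  change ‖k‖ ^ (2 * (5 / 2) : ℝ) * ‖h k‖ ^ 2 ≤ ((1 + ‖k‖) ^ 4)⁻¹ * D ^ 2
  have e : ‖k‖ ^ (2 * (5 / 2) : ℝ) = ‖k‖ ^ 5 := by
    rw [← Real.rpow_natCast]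
    norm_num
  have hk := norm_nonneg k
  have h1 : 0 < (1 + ‖k‖) ^ 4 := by positivity
  rw [e, inv_mul_eq_div, le_div_iff₀ h1]
  have h2 : ((1 + ‖k‖) ^ 5 * ‖h k‖) ^ 2 ≤ D ^ 2 := by
    gcongr
    exact hD k
  refine le_trans ?_ h2
  have h3 : ‖k‖ ^ 5 ≤ (1 + ‖k‖) ^ 5 := by gcongr; linarith
  have h4 : (1 + ‖k‖) ^ 4 ≤ (1 + ‖k‖) ^ 5 := pow_le_pow_right₀ (by linarith) (by norm_num)
  calc ‖k‖ ^ 5 * ‖h k‖ ^ 2 * (1 + ‖k‖) ^ 4 ≤ (1 + ‖k‖) ^ 5 * ‖h k‖ ^ 2 * (1 + ‖k‖) ^ 5 := by gcongr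
    _ = ((1 + ‖k‖) ^ 5 * ‖h k‖) ^ 2 := by ring

/-- TARGET -/
theorem bt_diag {c cV : ℝ} {V : E → W} (hV : Ang c cV V) {a q p : ℝ → ℝ} (ha : Gt a) (hq : Gt q)
    (hp : Gt p) : ∃ (m : ℕ) (K : ℝ), ∀ g h : E → W, Adm g → Adm h → ∀ D : ℝ,
      (∀ k, (1 + ‖k‖) ^ m * ‖h k‖ ≤ D) → |pr (bt V a q p g h) g| ≤ K * D * nrm 0 g ^ 2 := by
  obtain ⟨C, hC, H⟩ := bt_est hV ha hq hp (α := 0) (β := 5 / 2) (γ := 0) (by norm_num)
    (by norm_num) (by norm_num) (by norm_num)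
  refine ⟨5, C * √(∫ k : E, ((1 + ‖k‖) ^ 4)⁻¹), fun g h hg hh D hD => ?_⟩
  refine (H g h g hg hh hg).trans ?_
  have h1 := B4_nrm hh hD
  have n0 := nrm_nonneg 0 g
  calc C * nrm 0 g * nrm (5 / 2) h * nrm 0 g
      ≤ C * nrm 0 g * (√(∫ k : E, ((1 + ‖k‖) ^ 4)⁻¹) * D) * nrm 0 g := by gcongr
    _ = _ := by ring

end H706N.JB4

namespace H706N

alias pr_bt := JB4.pr_bt
alias bt_skew := JB4.bt_skew
alias bt_est := JB4.bt_est
alias bt_diag := JB4.bt_diag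

end H706N
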