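import Pool.Agent.Helper706_NS.Defs2

set_option autoImplicit false
open Set Filter Topology MeasureTheory
open scoped ComplexConjugate ContDiff

namespace H706N.JB5

theorem kd_smul_left (r : ℝ) (k : E) (c : W) : kd (r • k) c = (r : ℂ) * kd k c := by
  simp only [kd, Finset.mul_sum, PiLp.smul_apply, smul_eq_mul, Complex.ofReal_mul]
  exact Finset.sum_congr rfl fun j _ => by ring

theorem kd_smul_right (r : ℝ) (k : E) (c : W) : kd k (r • c) = (r : ℂ) * kd k c := by
  simp only [kd, Finset.mul_sum, PiLp.smul_apply, Complex.real_smul]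
  exact Finset.sum_congr rfl fun j _ => by ring

theorem toW_smul (r : ℝ) (k : E) : toW (r • k) = (r : ℂ) • toW k := by
  ext j
  simp [toW]

theorem lp_smul {r : ℝ} (hr : 0 < r) (k : E) (c : W) : lp (r • k) c = lp k c := by
  have hr0 : (r : ℂ) ≠ 0 := by exact_mod_cast hr.ne'
  unfold lp
  rw [kd_smul_left, toW_smul, smul_smul, norm_smul, Real.norm_of_nonneg hr.le]
  congr 2
  by_cases hk : k = 0
  · subst hk
    simp
  · have hk' : ((‖k‖ : ℝ) : ℂ) ≠ 0 := by exact_mod_cast (norm_pos_iff.2 hk).ne'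
    push_cast
    field_simp

theorem int_dil {G : Type*} [NormedAddCommGroup G] [NormedSpace ℝ G] (f : E → G) {r : ℝ}
    (hr : 0 < r) : ∫ k, f (r⁻¹ • k) = (r ^ 3) • ∫ k, f k := by
  rw [MeasureTheory.Measure.integral_comp_inv_smul_of_nonneg volume f hr.le]
  simp

theorem adv_dil (g h : E → W) {r : ℝ} (hr : 0 < r) (k : E) :
    adv (dil r g) (dil r h) k = adv g h (r⁻¹ • k) := by
  unfold adv
  have hr0 : (r : ℂ) ≠ 0 := by exact_mod_cast hr.ne'
  have h1 : ∀ η : E, (Complex.I * kd η (dil r g (k - η))) • dil r h η =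
      (fun x : E => (r ^ 3)⁻¹ • ((Complex.I * kd x (g (r⁻¹ • k - x))) • h x)) (r⁻¹ • η) := by
    intro η
    have h2 : kd η (dil r g (k - η)) =
        (r : ℂ) * (((r ^ 2)⁻¹ : ℝ) : ℂ) * kd (r⁻¹ • η) (g (r⁻¹ • k - r⁻¹ • η)) := by
      have h3 : η = r • (r⁻¹ • η) := by rw [smul_inv_smul₀ hr.ne']
      conv_lhs => rw [dil, kd_smul_right, smul_sub]
      conv_lhs => arg 2; rw [h3, kd_smul_left]
      rw [← h3]
      ring
    simp only
    rw [h2, dil]
    rw [← Complex.coe_smul, ← Complex.coe_smul, smul_smul, smul_smul]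
    congr 1
    push_cast
    field_simp
  simp_rw [h1]
  rw [int_dil (fun x : E => (r ^ 3)⁻¹ • ((Complex.I * kd x (g (r⁻¹ • k - x))) • h x)) hr,
    integral_smul, smul_smul, mul_inv_cancel₀ (by positivity), one_smul]

theorem atm_dil {c cV : ℝ} {V : E → W} (hV : Ang c cV V) (a : ℝ → ℝ) {r : ℝ} (hr : 0 < r) (σ : ℝ)
    (k : E) : atm V a σ k = (r ^ (-(3 / 2) : ℝ)) • atm V a (σ - Real.log r) (r⁻¹ • k) := by
  unfold atm
  by_cases hk : k = 0
  · subst hk
    have : (0 : ℝ) ^ (-(3 / 2) : ℝ) = 0 := Real.zero_rpow (by norm_num)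
    simp [this]
  · have hk' : 0 < ‖k‖ := norm_pos_iff.2 hk
    have hri : 0 < r⁻¹ := inv_pos.2 hr
    rw [hV.hom _ hri, smul_smul, norm_smul, Real.norm_of_nonneg hri.le,
      Real.mul_rpow hri.le hk'.le, Real.log_mul hri.ne' hk'.ne', Real.log_inv,
      Real.inv_rpow hr.le]
    have h1 : -Real.log r + Real.log ‖k‖ - (σ - Real.log r) = Real.log ‖k‖ - σ := by ring
    rw [h1]
    congr 1
    have h2 : r ^ (-(3 / 2) : ℝ) ≠ 0 := (Real.rpow_pos_of_pos hr _).ne'
    field_simp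

theorem pr_atm_dil {c cV : ℝ} {V : E → W} (hV : Ang c cV V) (a : ℝ → ℝ) (g : E → W) {r : ℝ}
    (hr : 0 < r) (σ : ℝ) :
    pr (atm V a σ) (dil r g) = r ^ (-(1 / 2) : ℝ) * pr (atm V a (σ - Real.log r)) g := by
  unfold pr
  have h1 : ∀ k : E, (inner ℂ (atm V a σ k) (dil r g k)).re =
      (fun x : E => (r ^ (-(3 / 2) : ℝ) * (r ^ 2)⁻¹) *
        (inner ℂ (atm V a (σ - Real.log r) x) (g x)).re) (r⁻¹ • k) := by
    intro k
    simp only
    rw [atm_dil hV a hr σ k, dil, ← Complex.coe_smul, ← Complex.coe_smul, inner_smul_left,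
      inner_smul_right, Complex.conj_ofReal, Complex.re_ofReal_mul, Complex.re_ofReal_mul]
    ring
  simp_rw [h1]
  rw [int_dil (fun x : E => (r ^ (-(3 / 2) : ℝ) * (r ^ 2)⁻¹) *
        (inner ℂ (atm V a (σ - Real.log r) x) (g x)).re) hr, integral_const_mul, smul_eq_mul,
    ← mul_assoc]
  congr 1
  have h2 : (r ^ 3 : ℝ) = r ^ (3 : ℝ) := by norm_cast
  have h3 : ((r ^ 2)⁻¹ : ℝ) = r ^ (-2 : ℝ) := by
    rw [Real.rpow_neg hr.le]; norm_cast
  rw [h2, h3, ← Real.rpow_add hr, ← Real.rpow_add hr]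
  norm_num

/-- TARGET -/
theorem NL_dil (g h : E → W) {r : ℝ} (hr : 0 < r) (k : E) :
    NL (dil r g) (dil r h) k = NL g h (r⁻¹ • k) := by
  rw [NL, NL, adv_dil g h hr, lp_smul (inv_pos.2 hr)]

/-- TARGET -/
theorem cut_dil (c : ℝ) (g : E → W) {r : ℝ} (hr : 0 < r) : cut c (dil r g) = dil r (cut c g) := by
  funext k
  have hri : 0 < r⁻¹ := inv_pos.2 hr
  have h1 : r⁻¹ • k ∈ cone c ↔ k ∈ cone c := by
    simp only [cone, mem_ofPred_eq, PiLp.smul_apply, smul_eq_mul, mul_pow]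
    have h2 : 0 < r⁻¹ ^ 2 := by positivity
    rw [← mul_add, show c ^ 2 * (r⁻¹ ^ 2 * k 2 ^ 2) = r⁻¹ ^ 2 * (c ^ 2 * k 2 ^ 2) by ring]
    exact mul_le_mul_iff_right₀ h2
  unfold cut dil
  by_cases hk : k ∈ cone c
  · rw [indicator_of_mem hk, indicator_of_mem (h1.2 hk)]
  · rw [indicator_of_notMem hk, indicator_of_notMem (fun h => hk (h1.1 h)), smul_zero]

/-- TARGET -/
theorem bt_dil {c cV : ℝ} {V : E → W} (hV : Ang c cV V) (a q p : ℝ → ℝ) (g h : E → W) {r : ℝ}
    (hr : 0 < r) (k : E) : bt V a q p (dil r g) (dil r h) k = bt V a q p g h (r⁻¹ • k) := by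
  unfold bt
  have h1 : ∀ σ : ℝ, (Real.exp (5 / 2 * σ) * pr (atm V a σ) (dil r g)) •
      (pr (atm V q σ) (dil r h) • atm V p σ k - pr (atm V p σ) (dil r h) • atm V q σ k) =
      (fun σ : ℝ => (Real.exp (5 / 2 * σ) * pr (atm V a σ) g) •
      (pr (atm V q σ) h • atm V p σ (r⁻¹ • k) - pr (atm V p σ) h • atm V q σ (r⁻¹ • k)))
      (σ - Real.log r) := by
    intro σ
    have he : Real.exp (5 / 2 * σ) = r ^ (5 / 2 : ℝ) * Real.exp (5 / 2 * (σ - Real.log r)) := by
      rw [Real.rpow_def_of_pos hr, ← Real.exp_add]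
      congr 1
      ring
    simp only
    rw [pr_atm_dil hV a g hr, pr_atm_dil hV q h hr, pr_atm_dil hV p h hr, he,
      atm_dil hV p hr σ k, atm_dil hV q hr σ k, smul_smul, smul_smul, smul_sub, smul_sub,
      smul_smul, smul_smul, smul_smul, smul_smul]
    have h3 : r ^ (5 / 2 : ℝ) * r ^ (-(1 / 2) : ℝ) * r ^ (-(1 / 2) : ℝ) * r ^ (-(3 / 2) : ℝ) = 1 := by
      rw [← Real.rpow_add hr, ← Real.rpow_add hr, ← Real.rpow_add hr]
      norm_num
    congr 2
    · linear_combination (Real.exp (5 / 2 * (σ - Real.log r)) * pr (atm V a (σ - Real.log r)) g *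
        pr (atm V q (σ - Real.log r)) h) * h3
    · linear_combination (Real.exp (5 / 2 * (σ - Real.log r)) * pr (atm V a (σ - Real.log r)) g *
        pr (atm V p (σ - Real.log r)) h) * h3
  simp_rw [h1]
  exact integral_sub_right_eq_self (fun σ : ℝ => (Real.exp (5 / 2 * σ) * pr (atm V a σ) g) •
      (pr (atm V q σ) h • atm V p σ (r⁻¹ • k) - pr (atm V p σ) h • atm V q σ (r⁻¹ • k)))
      (Real.log r)

/-- TARGET -/
theorem vel_dil (g : E → W) {r : ℝ} (hr : 0 < r) (x : E) : vel (dil r g) x = r • vel g (r • x) := by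
  have key : ∀ i : Fin 3, fl (fun k => dil r g k i) x = (r : ℂ) * fl (fun k => g k i) (r • x) := by
    intro i
    unfold fl
    have h1 : ∀ k : E, Complex.exp (((inner ℝ k x : ℝ) : ℂ) * Complex.I) * dil r g k i =
        (fun y : E => (((r ^ 2)⁻¹ : ℝ) : ℂ) *
          (Complex.exp (((inner ℝ y (r • x) : ℝ) : ℂ) * Complex.I) * g y i)) (r⁻¹ • k) := by
      intro k
      have h2 : inner ℝ (r⁻¹ • k) (r • x) = inner ℝ k x := by
        rw [real_inner_smul_left, real_inner_smul_right, inv_mul_cancel_left₀ hr.ne']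
      simp only
      rw [h2, dil, PiLp.smul_apply, Complex.real_smul]
      ring
    simp_rw [h1]
    rw [int_dil (fun y : E => (((r ^ 2)⁻¹ : ℝ) : ℂ) *
          (Complex.exp (((inner ℝ y (r • x) : ℝ) : ℂ) * Complex.I) * g y i)) hr,
      integral_const_mul, Complex.real_smul, ← mul_assoc]
    congr 1
    have hr0 : (r : ℂ) ≠ 0 := by exact_mod_cast hr.ne'
    push_cast
    field_simp
  unfold vel
  ext i
  simp only [PiLp.smul_apply, smul_eq_mul]
  rw [key i, Complex.re_ofReal_mul]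

end H706N.JB5

namespace H706N

alias NL_dil := JB5.NL_dil
alias cut_dil := JB5.cut_dil
alias bt_dil := JB5.bt_dil
alias vel_dil := JB5.vel_dil

end H706N
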