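import Pool.Agent.Helper706_NS.Defs2

set_option autoImplicit false
open Set Filter Topology MeasureTheory
open scoped ComplexConjugate ContDiff

namespace H706N.JC1

theorem aux_g1 (c τ : ℝ) : ∫ x : ℝ, Real.exp (-c * (x - τ) ^ 2) = √(Real.pi / c) := by
  rw [integral_sub_right_eq_self (fun x : ℝ => Real.exp (-c * x ^ 2)) τ]
  exact integral_gaussian c

theorem aux_g2 (c τ : ℝ) : ∫ x : ℝ, (x - τ) * Real.exp (-c * (x - τ) ^ 2) = 0 := by
  rw [integral_sub_right_eq_self (fun x : ℝ => x * Real.exp (-c * x ^ 2)) τ]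
  have h := integral_neg_eq_self (fun x : ℝ => x * Real.exp (-c * x ^ 2)) volume
  have h2 : (fun x : ℝ => -x * Real.exp (-c * (-x) ^ 2)) = fun x => -(x * Real.exp (-c * x ^ 2)) := by
    funext x
    rw [neg_sq]
    ring
  rw [h2, integral_neg] at h
  linarith

theorem aux_i1 {c : ℝ} (hc : 0 < c) (τ : ℝ) : Integrable (fun x : ℝ => Real.exp (-c * (x - τ) ^ 2)) :=
  (integrable_exp_neg_mul_sq hc).comp_sub_right τ

theorem aux_i2 {c : ℝ} (hc : 0 < c) (τ : ℝ) : Integrable (fun x : ℝ => (x - τ) * Real.exp (-c * (x - τ) ^ 2)) :=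
  (integrable_mul_exp_neg_mul_sq hc).comp_sub_right τ

theorem aux_A (σ b : ℝ) : ∫ s : ℝ, Real.exp (-(3 / 2) * (s - σ + b) ^ 2) * Fg s
    = √(Real.pi / 2) * Real.exp (-(3 / 8) * (σ - b) ^ 2) := by
  have h : (fun s : ℝ => Real.exp (-(3 / 2) * (s - σ + b) ^ 2) * Fg s) =
      fun s => Real.exp (-(3 / 8) * (σ - b) ^ 2) * Real.exp (-2 * (s - 3 * (σ - b) / 4) ^ 2) := by
    funext s
    unfold Fg
    rw [← Real.exp_add, ← Real.exp_add]
    congr 1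
    ring
  rw [h, integral_const_mul, aux_g1, mul_comm]

theorem aux_A0 (σ : ℝ) : ∫ s : ℝ, Real.exp (-(3 / 2) * (s - σ) ^ 2) * Fg s
    = √(Real.pi / 2) * Real.exp (-(3 / 8) * σ ^ 2) := by
  have h := aux_A σ 0
  simpa using h

theorem aux_B (σ b : ℝ) : ∫ s : ℝ, (s - σ + b) * Real.exp (-(3 / 2) * (s - σ + b) ^ 2) * Fg s
    = -((σ - b) / 4) * (√(Real.pi / 2) * Real.exp (-(3 / 8) * (σ - b) ^ 2)) := by
  have h : (fun s : ℝ => (s - σ + b) * Real.exp (-(3 / 2) * (s - σ + b) ^ 2) * Fg s) =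
      fun s => Real.exp (-(3 / 8) * (σ - b) ^ 2) *
          ((s - 3 * (σ - b) / 4) * Real.exp (-2 * (s - 3 * (σ - b) / 4) ^ 2)) +
        (-((σ - b) / 4) * Real.exp (-(3 / 8) * (σ - b) ^ 2)) * Real.exp (-2 * (s - 3 * (σ - b) / 4) ^ 2) := by
    funext s
    unfold Fg
    have h1 : Real.exp (-(3 / 2) * (s - σ + b) ^ 2) * Real.exp (-s ^ 2 / 2) =
        Real.exp (-(3 / 8) * (σ - b) ^ 2) * Real.exp (-2 * (s - 3 * (σ - b) / 4) ^ 2) := by
      rw [← Real.exp_add, ← Real.exp_add]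
      congr 1
      ring
    rw [mul_assoc, h1]
    ring
  rw [h, integral_add, integral_const_mul, integral_const_mul, aux_g1, aux_g2]
  · ring
  · exact (aux_i2 (by norm_num) _).const_mul _
  · exact (aux_i1 (by norm_num) _).const_mul _

theorem aux_s1 : √(Real.pi / 2) * √(Real.pi / 2) = Real.pi / 2 :=
  Real.mul_self_sqrt (by positivity)

theorem aux_s2 : Real.pi / 2 * √(Real.pi / (9 / 4)) = Real.pi ^ (3 / 2 : ℝ) / 3 := by
  have h1 : √(Real.pi / (9 / 4)) = √Real.pi * (2 / 3) := by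
    rw [Real.sqrt_div Real.pi_pos.le, show (9 / 4 : ℝ) = (3 / 2) ^ 2 by norm_num, Real.sqrt_sq (by norm_num)]
    ring
  have h2 : Real.pi ^ (3 / 2 : ℝ) = Real.pi * √Real.pi := by
    rw [Real.sqrt_eq_rpow, show (3 / 2 : ℝ) = 1 + 1 / 2 by norm_num, Real.rpow_add Real.pi_pos, Real.rpow_one]
  rw [h1, h2]
  ring

/-- TARGET -/
theorem prof1 (y : ℝ) :
    ∫ σ : ℝ, Real.exp (5 / 2 * σ) * (∫ s : ℝ, Real.exp (-(3 / 2) * (s - σ) ^ 2) * Fg s) *
      ((∫ s : ℝ, Real.exp (-(3 / 2) * (s - σ + 2) ^ 2) * Fg s) * Real.exp (-(3 / 2) * (y - σ + 2 / 3) ^ 2)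
        - (∫ s : ℝ, Real.exp (-(3 / 2) * (s - σ + 2 / 3) ^ 2) * Fg s) * Real.exp (-(3 / 2) * (y - σ + 2) ^ 2))
      = Real.pi ^ (3 / 2 : ℝ) / 3 * Real.exp (17 / 6) * ((Real.exp (2 * y - 1) - 1) * Fg y) := by
  have h : (fun σ : ℝ => Real.exp (5 / 2 * σ) * (∫ s : ℝ, Real.exp (-(3 / 2) * (s - σ) ^ 2) * Fg s) *
      ((∫ s : ℝ, Real.exp (-(3 / 2) * (s - σ + 2) ^ 2) * Fg s) * Real.exp (-(3 / 2) * (y - σ + 2 / 3) ^ 2)
        - (∫ s : ℝ, Real.exp (-(3 / 2) * (s - σ + 2 / 3) ^ 2) * Fg s) * Real.exp (-(3 / 2) * (y - σ + 2) ^ 2))) =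
      fun σ => (Real.pi / 2 * Real.exp (23 / 6 - (y - 2) ^ 2 / 2)) *
          Real.exp (-(9 / 4) * (σ - (4 / 3 + 2 * y / 3)) ^ 2) -
        (Real.pi / 2 * Real.exp (17 / 6 - y ^ 2 / 2)) * Real.exp (-(9 / 4) * (σ - (2 + 2 * y / 3)) ^ 2) := by
    funext σ
    rw [aux_A0, aux_A, aux_A]
    have e1 : Real.exp (5 / 2 * σ) * Real.exp (-(3 / 8) * σ ^ 2) * Real.exp (-(3 / 8) * (σ - 2) ^ 2) *
        Real.exp (-(3 / 2) * (y - σ + 2 / 3) ^ 2) = Real.exp (23 / 6 - (y - 2) ^ 2 / 2) *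
          Real.exp (-(9 / 4) * (σ - (4 / 3 + 2 * y / 3)) ^ 2) := by
      rw [← Real.exp_add, ← Real.exp_add, ← Real.exp_add, ← Real.exp_add]
      congr 1
      ring
    have e2 : Real.exp (5 / 2 * σ) * Real.exp (-(3 / 8) * σ ^ 2) * Real.exp (-(3 / 8) * (σ - 2 / 3) ^ 2) *
        Real.exp (-(3 / 2) * (y - σ + 2) ^ 2) = Real.exp (17 / 6 - y ^ 2 / 2) *
          Real.exp (-(9 / 4) * (σ - (2 + 2 * y / 3)) ^ 2) := by
      rw [← Real.exp_add, ← Real.exp_add, ← Real.exp_add, ← Real.exp_add]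
      congr 1
      ring
    rw [mul_assoc (Real.pi / 2), ← e1, mul_assoc (Real.pi / 2), ← e2]
    have hq := aux_s1
    generalize √(Real.pi / 2) = q at hq ⊢
    rw [← hq]
    ring
  rw [h, integral_sub, integral_const_mul, integral_const_mul, aux_g1, aux_g1]
  · have e3 : Real.exp (23 / 6 - (y - 2) ^ 2 / 2) = Real.exp (17 / 6) * (Real.exp (2 * y - 1) * Fg y) := by
      unfold Fg
      rw [← Real.exp_add, ← Real.exp_add]
      congr 1
      ring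
    have e4 : Real.exp (17 / 6 - y ^ 2 / 2) = Real.exp (17 / 6) * Fg y := by
      unfold Fg
      rw [← Real.exp_add]
      congr 1
      ring
    rw [e3, e4, ← aux_s2]
    ring
  · exact (aux_i1 (by norm_num) _).const_mul _
  · exact (aux_i1 (by norm_num) _).const_mul _

/-- TARGET -/
theorem prof2 (y : ℝ) :
    ∫ σ : ℝ, Real.exp (5 / 2 * σ) * (∫ s : ℝ, Real.exp (-(3 / 2) * (s - σ) ^ 2) * Fg s) *
      ((∫ s : ℝ, Real.exp (-(3 / 2) * (s - σ + 10 / 3) ^ 2) * Fg s)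
          * ((y - σ + 10 / 3) * Real.exp (-(3 / 2) * (y - σ + 10 / 3) ^ 2))
        - (∫ s : ℝ, (s - σ + 10 / 3) * Real.exp (-(3 / 2) * (s - σ + 10 / 3) ^ 2) * Fg s)
          * Real.exp (-(3 / 2) * (y - σ + 10 / 3) ^ 2))
      = Real.pi ^ (3 / 2 : ℝ) / 6 * Real.exp (25 / 6) * (y * Fg y) := by
  have h : (fun σ : ℝ => Real.exp (5 / 2 * σ) * (∫ s : ℝ, Real.exp (-(3 / 2) * (s - σ) ^ 2) * Fg s) *
      ((∫ s : ℝ, Real.exp (-(3 / 2) * (s - σ + 10 / 3) ^ 2) * Fg s)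
          * ((y - σ + 10 / 3) * Real.exp (-(3 / 2) * (y - σ + 10 / 3) ^ 2))
        - (∫ s : ℝ, (s - σ + 10 / 3) * Real.exp (-(3 / 2) * (s - σ + 10 / 3) ^ 2) * Fg s)
          * Real.exp (-(3 / 2) * (y - σ + 10 / 3) ^ 2))) =
      fun σ => (Real.pi / 2 * Real.exp (25 / 6 - y ^ 2 / 2) * (y / 2)) *
          Real.exp (-(9 / 4) * (σ - (10 / 3 + 2 * y / 3)) ^ 2) -
        (Real.pi / 2 * Real.exp (25 / 6 - y ^ 2 / 2) * (3 / 4)) *
          ((σ - (10 / 3 + 2 * y / 3)) * Real.exp (-(9 / 4) * (σ - (10 / 3 + 2 * y / 3)) ^ 2)) := by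
    funext σ
    rw [aux_A0, aux_A, aux_B]
    have e1 : Real.exp (5 / 2 * σ) * Real.exp (-(3 / 8) * σ ^ 2) * Real.exp (-(3 / 8) * (σ - 10 / 3) ^ 2) *
        Real.exp (-(3 / 2) * (y - σ + 10 / 3) ^ 2) = Real.exp (25 / 6 - y ^ 2 / 2) *
          Real.exp (-(9 / 4) * (σ - (10 / 3 + 2 * y / 3)) ^ 2) := by
      rw [← Real.exp_add, ← Real.exp_add, ← Real.exp_add, ← Real.exp_add]
      congr 1
      ring
    have e2 : (Real.pi / 2 * Real.exp (25 / 6 - y ^ 2 / 2) * (y / 2)) *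
          Real.exp (-(9 / 4) * (σ - (10 / 3 + 2 * y / 3)) ^ 2) -
        (Real.pi / 2 * Real.exp (25 / 6 - y ^ 2 / 2) * (3 / 4)) *
          ((σ - (10 / 3 + 2 * y / 3)) * Real.exp (-(9 / 4) * (σ - (10 / 3 + 2 * y / 3)) ^ 2)) =
        Real.pi / 2 * (y / 2 - 3 / 4 * (σ - (10 / 3 + 2 * y / 3))) * (Real.exp (25 / 6 - y ^ 2 / 2) *
          Real.exp (-(9 / 4) * (σ - (10 / 3 + 2 * y / 3)) ^ 2)) := by ring
    rw [e2, ← e1]
    have hq := aux_s1
    generalize √(Real.pi / 2) = q at hq ⊢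
    rw [← hq]
    ring
  rw [h, integral_sub, integral_const_mul, integral_const_mul, aux_g1, aux_g2]
  · have e4 : Real.exp (25 / 6 - y ^ 2 / 2) = Real.exp (25 / 6) * Fg y := by
      unfold Fg
      rw [← Real.exp_add]
      congr 1
      ring
    have e5 : Real.pi ^ (3 / 2 : ℝ) / 6 = Real.pi / 2 * √(Real.pi / (9 / 4)) / 2 := by
      rw [aux_s2]
      ring
    rw [e4, e5]
    ring
  · exact (aux_i1 (by norm_num) _).const_mul _
  · exact (aux_i2 (by norm_num) _).const_mul _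

end H706N.JC1

namespace H706N

alias prof1 := JC1.prof1
alias prof2 := JC1.prof2

end H706N
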