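import Pool.Agent.Helper706_NS.Defs2
import Pool.Agent.Helper706_NS.B2

set_option autoImplicit false
open Set Filter Topology MeasureTheory
open scoped ComplexConjugate ContDiff

namespace H706N.JC2

theorem c2_rpow (x : ℝ) (hx : 0 ≤ x) : x ^ (-(3 / 2) : ℝ) * x ^ (-(3 / 2) : ℝ) = x ^ (-3 : ℝ) := by
  rcases hx.eq_or_lt with h | h
  · rw [← h, Real.zero_rpow (by norm_num), Real.zero_rpow (by norm_num), mul_zero]
  · rw [← Real.rpow_add h]
    norm_num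

theorem c2_inner (v : W) (r s : ℝ) : (inner ℂ (r • v) (s • v)).re = r * s * ‖v‖ ^ 2 := by
  have h1 : r • v = (r : ℂ) • v := (Complex.coe_smul r v).symm
  have h2 : s • v = (s : ℂ) • v := (Complex.coe_smul s v).symm
  rw [h1, h2, inner_smul_left, inner_smul_right, inner_self_eq_norm_sq_to_K, Complex.conj_ofReal]
  have : (r : ℂ) * ((s : ℂ) * ((‖v‖ : ℂ)) ^ 2) = ((r * s * ‖v‖ ^ 2 : ℝ) : ℂ) := by
    push_cast
    ring
  exact (congrArg Complex.re this).trans (Complex.ofReal_re _)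

theorem c2_pr_smul (f g : E → W) (A : ℝ) : pr f (A • g) = A * pr f g := by
  unfold pr
  rw [← integral_const_mul]
  refine integral_congr_ae (Filter.Eventually.of_forall fun k => ?_)
  show (inner ℂ (f k) (A • g k)).re = A * (inner ℂ (f k) (g k)).re
  have h1 : A • g k = (A : ℂ) • g k := (Complex.coe_smul A (g k)).symm
  rw [h1, inner_smul_right, Complex.re_ofReal_mul]

/-- TARGET -/
theorem pr_atm {c cV : ℝ} {V : E → W} (hV : Ang c cV V) {a b : ℝ → ℝ} (ha : Continuous a)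
    (hb : Continuous b) (hab : ∀ σ τ : ℝ, Integrable fun s => a (s - σ) * b (s - τ)) (σ τ : ℝ) :
    pr (atm V a σ) (atm V b τ) = cV * ∫ s, a (s - σ) * b (s - τ) := by
  rw [← (polar_int hV (hab σ τ)).2]
  unfold pr
  refine integral_congr_ae (Filter.Eventually.of_forall fun k => ?_)
  show (inner ℂ (atm V a σ k) (atm V b τ k)).re = _
  unfold atm
  rw [c2_inner]
  dsimp only
  rw [← c2_rpow ‖k‖ (norm_nonneg _)]
  ring

theorem c2_fg_int : Integrable Fg := by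
  have h := integrable_exp_neg_mul_sq (b := 1 / 2) (by norm_num)
  refine h.congr (Filter.Eventually.of_forall fun y => ?_)
  show Real.exp (-(1 / 2) * y ^ 2) = Fg y
  unfold Fg
  congr 1
  ring

theorem c2_fg_cont : Continuous Fg := by
  unfold Fg
  fun_prop

theorem c2_int {a : ℝ → ℝ} (ha : Gt a) (σ τ : ℝ) : Integrable fun s => a (s - σ) * Fg (s - τ) := by
  obtain ⟨C, hC⟩ := ha.bd
  have h1 : Integrable fun s => Fg (s - τ) := c2_fg_int.comp_sub_right τ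
  refine h1.bdd_mul (c := |C|) (ha.cont.comp (continuous_id.sub continuous_const)).aestronglyMeasurable
    (Filter.Eventually.of_forall fun s => ?_)
  have h2 := hC (s - σ)
  have h3 : Real.exp (-(s - σ) ^ 2) ≤ 1 := Real.exp_le_one_iff.2 (by nlinarith [sq_nonneg (s - σ)])
  have h4 : 0 < Real.exp (-(s - σ) ^ 2) := Real.exp_pos _
  have h5 := le_abs_self C
  have h6 := abs_nonneg C
  rw [Real.norm_eq_abs]
  show |a (s - σ)| ≤ |C|
  nlinarith

theorem c2_pr {c cV : ℝ} {V : E → W} (hV : Ang c cV V) {a : ℝ → ℝ} (ha : Gt a) (A ℓ σ : ℝ) :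
    pr (atm V a σ) (A • atm V Fg ℓ) = A * cV * ∫ s : ℝ, a (s - (σ - ℓ)) * Fg s := by
  rw [c2_pr_smul, pr_atm hV ha.cont c2_fg_cont (c2_int ha) σ ℓ, mul_assoc]
  congr 2
  rw [← integral_add_right_eq_self (fun s => a (s - σ) * Fg (s - ℓ)) ℓ]
  refine integral_congr_ae (Filter.Eventually.of_forall fun s => ?_)
  show a (s + ℓ - σ) * Fg (s + ℓ - ℓ) = a (s - (σ - ℓ)) * Fg s
  rw [show s + ℓ - σ = s - (σ - ℓ) by ring, add_sub_cancel_right]

/-- TARGET -/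
theorem bt_prof {c cV : ℝ} {V : E → W} (hV : Ang c cV V) {a q p : ℝ → ℝ} (ha : Gt a) (hq : Gt q)
    (hp : Gt p) (A ℓ : ℝ) {k : E} (hk : k ≠ 0) :
    bt V a q p (A • atm V Fg ℓ) (A • atm V Fg ℓ) k
      = (A ^ 2 * cV ^ 2 * Real.exp (5 / 2 * ℓ) * ‖k‖ ^ (-(3 / 2) : ℝ) *
          ∫ σ : ℝ, Real.exp (5 / 2 * σ) * (∫ s : ℝ, a (s - σ) * Fg s) *
            ((∫ s : ℝ, q (s - σ) * Fg s) * p (Real.log ‖k‖ - ℓ - σ)
              - (∫ s : ℝ, p (s - σ) * Fg s) * q (Real.log ‖k‖ - ℓ - σ))) • V k := by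
  have e1 : ∀ σ : ℝ, (Real.exp (5 / 2 * σ) * pr (atm V a σ) (A • atm V Fg ℓ)) •
      (pr (atm V q σ) (A • atm V Fg ℓ) • atm V p σ k - pr (atm V p σ) (A • atm V Fg ℓ) • atm V q σ k) =
      (Real.exp (5 / 2 * σ) * (A * cV * ∫ s : ℝ, a (s - (σ - ℓ)) * Fg s) *
        ((A * cV * ∫ s : ℝ, q (s - (σ - ℓ)) * Fg s) * (‖k‖ ^ (-(3 / 2) : ℝ) * p (Real.log ‖k‖ - σ)) -
          (A * cV * ∫ s : ℝ, p (s - (σ - ℓ)) * Fg s) *
            (‖k‖ ^ (-(3 / 2) : ℝ) * q (Real.log ‖k‖ - σ)))) • V k := by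
    intro σ
    rw [c2_pr hV ha, c2_pr hV hq, c2_pr hV hp]
    unfold atm
    rw [smul_smul, smul_smul, ← sub_smul, smul_smul]
  unfold bt
  rw [integral_congr_ae (Filter.Eventually.of_forall e1), integral_smul_const]
  congr 1
  rw [← integral_const_mul, ← integral_add_right_eq_self (fun σ : ℝ => Real.exp (5 / 2 * σ) *
    (A * cV * ∫ s : ℝ, a (s - (σ - ℓ)) * Fg s) *
        ((A * cV * ∫ s : ℝ, q (s - (σ - ℓ)) * Fg s) * (‖k‖ ^ (-(3 / 2) : ℝ) * p (Real.log ‖k‖ - σ)) -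
          (A * cV * ∫ s : ℝ, p (s - (σ - ℓ)) * Fg s) *
            (‖k‖ ^ (-(3 / 2) : ℝ) * q (Real.log ‖k‖ - σ)))) ℓ]
  refine integral_congr_ae (Filter.Eventually.of_forall fun σ => ?_)
  dsimp only
  rw [add_sub_cancel_right, show Real.log ‖k‖ - (σ + ℓ) = Real.log ‖k‖ - ℓ - σ by ring, mul_add,
    Real.exp_add]
  ring

end H706N.JC2

namespace H706N

alias pr_atm := JC2.pr_atm
alias bt_prof := JC2.bt_prof

end H706N
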