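import Pool.Agent.Helper706_NS.Defs2

set_option autoImplicit false
open Set Filter Topology MeasureTheory
open scoped ComplexConjugate ContDiff

namespace H706N.JC4

/-- the norm of the profile -/
lemma prof_norm {c cV : ℝ} {V : E → W} (hV : Ang c cV V) (ℓ : ℝ) (k : E) (hk : k ≠ 0) :
    ‖atm V Fg ℓ k‖ ≤ Real.exp (-(3 / 2) * Real.log ‖k‖ - (Real.log ‖k‖ - ℓ) ^ 2 / 2) := by
  have hk0 : 0 < ‖k‖ := norm_pos_iff.2 hk
  unfold atm Fg
  have h1 : 0 ≤ ‖k‖ ^ (-(3 / 2) : ℝ) * Real.exp (-(Real.log ‖k‖ - ℓ) ^ 2 / 2) := by positivity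
  rw [norm_smul, Real.norm_eq_abs, abs_of_nonneg h1]
  refine (mul_le_of_le_one_right h1 (hV.bd k)).trans (le_of_eq ?_)
  rw [Real.rpow_def_of_pos hk0, ← Real.exp_add]
  congr 1
  ring

/-- the value at the origin -/
lemma prof_zero (V : E → W) (a : ℝ → ℝ) (ℓ : ℝ) : atm V a ℓ 0 = 0 := by
  unfold atm
  rw [norm_zero, Real.zero_rpow (by norm_num), zero_mul, zero_smul]

theorem prof_unif_aux {c cV : ℝ} {V : E → W} (hV : Ang c cV V) (n : ℕ) (L : ℝ) : ∃ C : ℝ,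
    ∀ ℓ : ℝ, |ℓ| ≤ L → ∀ k : E, (1 + ‖k‖) ^ n * ‖atm V Fg ℓ k‖ ≤ C := by
  refine ⟨2 ^ n * Real.exp ((n + 2) * L + (n + 2) ^ 2 / 2), fun ℓ hℓ k => ?_⟩
  by_cases hk : k = 0
  · subst hk
    rw [prof_zero, norm_zero, norm_zero, mul_zero]
    positivity
  have hk0 : 0 < ‖k‖ := norm_pos_iff.2 hk
  set s := Real.log ‖k‖ with hs
  have h1 : 1 + ‖k‖ ≤ 2 * Real.exp |s| := by
    have e1 : ‖k‖ = Real.exp s := (Real.exp_log hk0).symm
    have e2 : Real.exp s ≤ Real.exp |s| := Real.exp_le_exp.2 (le_abs_self s)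
    have e3 : 1 ≤ Real.exp |s| := Real.one_le_exp (abs_nonneg s)
    linarith
  have h2 : (1 + ‖k‖) ^ n ≤ 2 ^ n * Real.exp (n * |s|) := by
    calc (1 + ‖k‖) ^ n ≤ (2 * Real.exp |s|) ^ n := pow_le_pow_left₀ (by positivity) h1 n
      _ = 2 ^ n * Real.exp (n * |s|) := by
        rw [mul_pow, ← Real.exp_nat_mul]
  calc (1 + ‖k‖) ^ n * ‖atm V Fg ℓ k‖
      ≤ (2 ^ n * Real.exp (n * |s|)) * Real.exp (-(3 / 2) * s - (s - ℓ) ^ 2 / 2) :=
        mul_le_mul h2 (prof_norm hV ℓ k hk) (norm_nonneg _) (by positivity)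
    _ = 2 ^ n * Real.exp (n * |s| + (-(3 / 2) * s - (s - ℓ) ^ 2 / 2)) := by
        rw [mul_assoc, ← Real.exp_add]
    _ ≤ _ := by
        apply mul_le_mul_of_nonneg_left _ (by positivity)
        apply Real.exp_le_exp.2
        have hn : (0:ℝ) ≤ n := Nat.cast_nonneg n
        have e1 : |s| ≤ |s - ℓ| + L := by
          calc |s| = |(s - ℓ) + ℓ| := by rw [sub_add_cancel]
            _ ≤ |s - ℓ| + |ℓ| := abs_add_le _ _
            _ ≤ |s - ℓ| + L := by linarith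
        have e2 : -(3 / 2) * s ≤ 2 * |s| := by
          have := neg_abs_le s
          have := abs_nonneg s
          linarith
        have e3 : (n + 2 : ℝ) * |s| ≤ (n + 2) * (|s - ℓ| + L) :=
          mul_le_mul_of_nonneg_left e1 (by linarith)
        have e4 : (s - ℓ) ^ 2 = |s - ℓ| ^ 2 := (sq_abs _).symm
        rw [e4]
        nlinarith [sq_nonneg (|s - ℓ| - (n + 2))]

/-- TARGET -/
theorem adm_prof {c cV : ℝ} {V : E → W} (hV : Ang c cV V) (A ℓ : ℝ) : Adm (A • atm V Fg ℓ) := by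
  refine ⟨?_, ?_, ?_, ?_⟩
  · apply Measurable.const_smul
    unfold atm Fg
    refine Measurable.smul (f := fun k : E => ‖k‖ ^ (-(3 / 2) : ℝ) *
      Real.exp (-(Real.log ‖k‖ - ℓ) ^ 2 / 2)) ?_ hV.meas
    apply Measurable.mul
    · exact measurable_norm.pow_const _
    · apply Real.measurable_exp.comp
      apply Measurable.div_const
      apply Measurable.neg
      apply Measurable.pow_const
      exact (Real.measurable_log.comp measurable_norm).sub_const ℓ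
  · intro n
    obtain ⟨C, hC⟩ := prof_unif_aux hV n |ℓ|
    refine ⟨|A| * C, fun k => ?_⟩
    rw [Pi.smul_apply, norm_smul, Real.norm_eq_abs]
    have := mul_le_mul_of_nonneg_left (hC ℓ le_rfl k) (abs_nonneg A)
    linarith
  · intro k j
    have h1 : (A • atm V Fg ℓ) (-k) j =
        ((A * (‖k‖ ^ (-(3 / 2) : ℝ) * Fg (Real.log ‖k‖ - ℓ)) : ℝ) : ℂ) * V (-k) j := by
      simp only [Pi.smul_apply, atm, norm_neg, PiLp.smul_apply, Complex.real_smul]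
      push_cast
      ring
    have h2 : (A • atm V Fg ℓ) k j =
        ((A * (‖k‖ ^ (-(3 / 2) : ℝ) * Fg (Real.log ‖k‖ - ℓ)) : ℝ) : ℂ) * V k j := by
      simp only [Pi.smul_apply, atm, PiLp.smul_apply, Complex.real_smul]
      push_cast
      ring
    rw [h1, h2, map_mul, Complex.conj_ofReal, hV.herm]
  · intro k
    have h1 : kd k ((A • atm V Fg ℓ) k) =
        ((A * (‖k‖ ^ (-(3 / 2) : ℝ) * Fg (Real.log ‖k‖ - ℓ)) : ℝ) : ℂ) * kd k (V k) := by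
      unfold kd
      rw [Finset.mul_sum]
      refine Finset.sum_congr rfl fun j _ => ?_
      simp only [Pi.smul_apply, atm, PiLp.smul_apply, Complex.real_smul]
      push_cast
      ring
    rw [h1, hV.divf, mul_zero]

/-- TARGET -/
theorem prof_unif {c cV : ℝ} {V : E → W} (hV : Ang c cV V) (n : ℕ) (L : ℝ) : ∃ C : ℝ,
    ∀ ℓ : ℝ, |ℓ| ≤ L → ∀ k : E, (1 + ‖k‖) ^ n * ‖atm V Fg ℓ k‖ ≤ C :=
  prof_unif_aux hV n L

/-- TARGET -/
theorem prof_cut {c cV : ℝ} {V : E → W} (hV : Ang c cV V) (A ℓ : ℝ) :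
    cut c (A • atm V Fg ℓ) = A • atm V Fg ℓ := by
  unfold cut
  rw [Set.indicator_eq_self]
  intro k hk
  by_contra hcon
  apply hk
  simp only [Pi.smul_apply, atm, hV.supp k hcon, smul_zero]

/-- TARGET -/
theorem prof_deriv (V : E → W) {A ℓ : ℝ → ℝ} {A' ℓ' t : ℝ} (hA : HasDerivAt A A' t)
    (hℓ : HasDerivAt ℓ ℓ' t) (k : E) : HasDerivAt (fun s => A s • atm V Fg (ℓ s) k)
      (((A' + A t * ℓ' * (Real.log ‖k‖ - ℓ t)) * (‖k‖ ^ (-(3 / 2) : ℝ) * Fg (Real.log ‖k‖ - ℓ t))) • V k) t := by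
  have h1 : HasDerivAt (fun s => Real.log ‖k‖ - ℓ s) (-ℓ') t := by
    simpa using hℓ.const_sub (Real.log ‖k‖)
  have h2 : HasDerivAt (fun s => -(Real.log ‖k‖ - ℓ s) ^ 2 / 2)
      (ℓ' * (Real.log ‖k‖ - ℓ t)) t := by
    have h := ((h1.pow 2).neg).div_const 2
    refine h.congr_deriv ?_
    push_cast
    ring
  have h3 : HasDerivAt (fun s => Fg (Real.log ‖k‖ - ℓ s))
      (Fg (Real.log ‖k‖ - ℓ t) * (ℓ' * (Real.log ‖k‖ - ℓ t))) t := h2.exp
  have h4 : HasDerivAt (fun s => A s * (‖k‖ ^ (-(3 / 2) : ℝ) * Fg (Real.log ‖k‖ - ℓ s)))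
      ((A' + A t * ℓ' * (Real.log ‖k‖ - ℓ t)) *
        (‖k‖ ^ (-(3 / 2) : ℝ) * Fg (Real.log ‖k‖ - ℓ t))) t := by
    refine (hA.mul (h3.const_mul (‖k‖ ^ (-(3 / 2) : ℝ)))).congr_deriv ?_
    ring
  have h5 := h4.smul_const (V k)
  refine h5.congr_of_eventuallyEq (Eventually.of_forall fun s => ?_)
  simp only [atm, smul_smul]

/-- TARGET -/
theorem prof_dil {c cV : ℝ} {V : E → W} (hV : Ang c cV V) (A ℓ : ℝ) :
    A • atm V Fg ℓ = dil (Real.exp ℓ) ((A * Real.exp (ℓ / 2)) • atm V Fg 0) := by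
  funext k
  unfold dil
  by_cases hk : k = 0
  · subst hk
    rw [smul_zero, Pi.smul_apply, Pi.smul_apply, prof_zero, prof_zero, smul_zero, smul_zero,
      smul_zero]
  have hk0 : 0 < ‖k‖ := norm_pos_iff.2 hk
  have hr : 0 < Real.exp ℓ := Real.exp_pos ℓ
  have hn : ‖(Real.exp ℓ)⁻¹ • k‖ = Real.exp (-ℓ) * ‖k‖ := by
    rw [norm_smul, norm_inv, Real.norm_eq_abs, abs_of_pos hr, Real.exp_neg]
  have hl : Real.log (Real.exp (-ℓ) * ‖k‖) = Real.log ‖k‖ - ℓ := by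
    rw [Real.log_mul (Real.exp_pos _).ne' hk0.ne', Real.log_exp]
    ring
  rw [Pi.smul_apply, Pi.smul_apply]
  unfold atm
  rw [hV.hom _ (inv_pos.2 hr), hn, hl, sub_zero, smul_smul, smul_smul, smul_smul]
  congr 1
  rw [Real.mul_rpow (Real.exp_pos _).le hk0.le, ← Real.exp_mul]
  have h1 : (Real.exp ℓ ^ 2)⁻¹ * (A * Real.exp (ℓ / 2)) *
      (Real.exp (-ℓ * -(3 / 2)) * ‖k‖ ^ (-(3 / 2) : ℝ) * Fg (Real.log ‖k‖ - ℓ)) =
      A * (‖k‖ ^ (-(3 / 2) : ℝ) * Fg (Real.log ‖k‖ - ℓ)) *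
        ((Real.exp ℓ ^ 2)⁻¹ * (Real.exp (ℓ / 2) * Real.exp (-ℓ * -(3 / 2)))) := by ring
  rw [h1, ← Real.exp_add, ← Real.exp_nat_mul, ← Real.exp_neg, ← Real.exp_add]
  have h2 : -(((2:ℕ):ℝ) * ℓ) + (ℓ / 2 + -ℓ * -(3 / 2)) = 0 := by push_cast; ring
  rw [h2, Real.exp_zero, mul_one]

end H706N.JC4

namespace H706N

alias adm_prof := JC4.adm_prof
alias prof_unif := JC4.prof_unif
alias prof_cut := JC4.prof_cut
alias prof_deriv := JC4.prof_deriv
alias prof_dil := JC4.prof_dil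

end H706N
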