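import Pool.Agent.Helper706_NS.Defs2
import Pool.Agent.Helper706_NS.A2
import Pool.Agent.Helper706_NS.D1

set_option autoImplicit false
open Set Filter Topology MeasureTheory
open scoped ComplexConjugate ContDiff

namespace H706N.JD3

theorem d3_exp_norm (k x : E) : ‖Complex.exp (((inner ℝ k x : ℝ) : ℂ) * Complex.I)‖ = 1 :=
  Complex.norm_exp_ofReal_mul_I _

theorem d3_fl_int {f : E → ℂ} (hf : Integrable f volume) (x : E) :
    Integrable (fun k => Complex.exp (((inner ℝ k x : ℝ) : ℂ) * Complex.I) * f k) volume := by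
  refine hf.mono (AEStronglyMeasurable.mul ?_ hf.aestronglyMeasurable)
    (Eventually.of_forall fun k => by rw [norm_mul, d3_exp_norm, one_mul])
  exact (Continuous.aestronglyMeasurable (by fun_prop))

theorem d3_fl_sum {F : Fin 3 → E → ℂ} (hF : ∀ j, Integrable (F j) volume) (x : E) :
    fl (fun k => ∑ j, F j k) x = ∑ j, fl (F j) x := by
  unfold fl
  simp only [Finset.mul_sum]
  exact integral_finsetSum _ fun j _ => d3_fl_int (hF j) x

theorem d3_fl_sub {f g : E → ℂ} (hf : Integrable f volume) (hg : Integrable g volume) (x : E) :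
    fl (fun k => f k - g k) x = fl f x - fl g x := by
  unfold fl
  simp only [mul_sub]
  exact integral_sub (d3_fl_int hf x) (d3_fl_int hg x)

theorem d3_fl_neg (f : E → ℂ) (x : E) : fl (fun k => - f k) x = - fl f x := by
  unfold fl
  simp only [mul_neg]
  exact integral_neg _

theorem _root_.H706N.Wi.d3_int {f : E → ℂ} (hf : Wi f) : Integrable f volume := by
  have h := hf.2 0
  simp only [pow_zero, one_mul] at h
  exact (integrable_norm_iff hf.1).1 h

theorem d3_vel_apply (g : E → W) (i : Fin 3) : (fun y => vel g y i) = fun y => (fl (fun k => g k i) y).re := rfl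

/-- TARGET -/
theorem vel_smooth {g : E → W} (hg : Adm g) : ContDiff ℝ ∞ (vel g) := by
  rw [contDiff_euclidean]
  intro i
  exact Complex.reCLM.contDiff.comp (fl_smooth (hg.wi i))

/-- TARGET -/
theorem vel_div {g : E → W} (hg : Adm g) (x : E) : ∑ j, pd j (fun y => vel g y j) x = 0 := by
  have h1 : ∀ j, pd j (fun y => vel g y j) x = (fl (fun k => Complex.I * (k j : ℂ) * g k j) x).re :=
    fun j => fl_pd_re (hg.wi j) j x
  rw [Finset.sum_congr rfl fun j _ => h1 j, ← Complex.re_sum,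
    ← d3_fl_sum fun j => (Wi_mul (hg.wi j) j).d3_int]
  have h2 : (fun k : E => ∑ j, Complex.I * (k j : ℂ) * g k j) = fun _ => 0 := by
    funext k
    have := hg.divf k
    unfold kd at this
    rw [show (∑ j, Complex.I * (k j : ℂ) * g k j) = Complex.I * ∑ j, (k j : ℂ) * g k j by
      rw [Finset.mul_sum]; exact Finset.sum_congr rfl fun j _ => by ring, this, mul_zero]
  rw [h2]
  simp [fl]

/-- TARGET -/
theorem vel_lap {g : E → W} (hg : Adm g) (x : E) (i : Fin 3) :
    ∑ j, pd j (pd j fun y => vel g y i) x = -(fl (fun k => ((‖k‖ ^ 2 : ℝ) : ℂ) * g k i) x).re := by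
  have h1 : ∀ j, pd j (pd j fun y => vel g y i) x =
      (fl (fun k => Complex.I * (k j : ℂ) * (Complex.I * (k j : ℂ) * g k i)) x).re := by
    intro j
    have h2 : (pd j fun y => vel g y i) = fun y => (fl (fun k => Complex.I * (k j : ℂ) * g k i) y).re := by
      funext y
      exact fl_pd_re (hg.wi i) j y
    rw [h2]
    exact fl_pd_re (Wi_mul (hg.wi i) j) j x
  rw [Finset.sum_congr rfl fun j _ => h1 j, ← Complex.re_sum,
    ← d3_fl_sum fun j => (Wi_mul (Wi_mul (hg.wi i) j) j).d3_int, ← Complex.neg_re, ← d3_fl_neg]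
  congr 2
  funext k
  have h3 : ((‖k‖ ^ 2 : ℝ) : ℂ) = ∑ j, (k j : ℂ) ^ 2 := by
    rw [EuclideanSpace.real_norm_sq_eq]
    push_cast
    rfl
  rw [h3, Finset.sum_mul, ← Finset.sum_neg_distrib]
  refine Finset.sum_congr rfl fun j _ => ?_
  linear_combination ((k j : ℂ) ^ 2 * g k i) * Complex.I_sq

theorem d3_adv_meas {g h : E → W} (hg : Adm g) (hh : Adm h) : StronglyMeasurable (adv g h) := by
  unfold adv
  refine StronglyMeasurable.integral_prod_right ?_
  refine Measurable.stronglyMeasurable ?_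
  have m1 : Measurable fun p : E × E => g (p.1 - p.2) := hg.meas.comp (measurable_fst.sub measurable_snd)
  have m2 : Measurable fun p : E × E => kd p.2 (g (p.1 - p.2)) := by
    unfold kd
    refine Finset.measurable_sum _ fun j _ => ?_
    refine Measurable.mul ?_ ?_
    · have : Continuous fun p : E × E => ((p.2 j : ℝ) : ℂ) := by fun_prop
      exact this.measurable
    · have : Continuous fun w : W => w j := by fun_prop
      exact this.measurable.comp m1
  exact (m2.const_mul Complex.I).smul (hh.meas.comp measurable_snd)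

theorem d3_adv_bd {g h : E → W} (hg : Adm g) (hh : Adm h) (n : ℕ) :
    ∃ C : ℝ, ∀ k, (1 + ‖k‖) ^ n * ‖adv g h k‖ ≤ C := by
  obtain ⟨C, hC⟩ := hg.dec n
  have hC0 : 0 ≤ C := (by positivity : (0:ℝ) ≤ (1 + ‖(0:E)‖) ^ n * ‖g 0‖).trans (hC 0)
  have hI := hh.int_pow (n + 1)
  refine ⟨C * ∫ η : E, (1 + ‖η‖) ^ (n + 1) * ‖h η‖, fun k => ?_⟩
  have h1 : ‖adv g h k‖ ≤ ∫ η, ‖(Complex.I * kd η (g (k - η))) • h η‖ :=
    norm_integral_le_integral_norm _
  have hp : (0:ℝ) ≤ (1 + ‖k‖) ^ n := by positivity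
  calc (1 + ‖k‖) ^ n * ‖adv g h k‖
      ≤ (1 + ‖k‖) ^ n * ∫ η, ‖(Complex.I * kd η (g (k - η))) • h η‖ :=
        mul_le_mul_of_nonneg_left h1 hp
    _ = ∫ η, (1 + ‖k‖) ^ n * ‖(Complex.I * kd η (g (k - η))) • h η‖ := (integral_const_mul _ _).symm
    _ ≤ ∫ η : E, C * ((1 + ‖η‖) ^ (n + 1) * ‖h η‖) := by
        refine integral_mono ((adv_int hg hh k).norm.const_mul _) (hI.const_mul _) fun η => ?_
        show (1 + ‖k‖) ^ n * ‖(Complex.I * kd η (g (k - η))) • h η‖ ≤ C * ((1 + ‖η‖) ^ (n + 1) * ‖h η‖)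
        rw [norm_smul, norm_mul, Complex.norm_I, one_mul]
        have e1 : 1 + ‖k‖ ≤ (1 + ‖k - η‖) * (1 + ‖η‖) := by
          have : ‖k‖ ≤ ‖k - η‖ + ‖η‖ := by
            calc ‖k‖ = ‖(k - η) + η‖ := by rw [sub_add_cancel]
              _ ≤ _ := norm_add_le _ _
          nlinarith [norm_nonneg (k - η), norm_nonneg η]
        have e2 : (1 + ‖k‖) ^ n ≤ (1 + ‖k - η‖) ^ n * (1 + ‖η‖) ^ n := by
          rw [← mul_pow]; exact pow_le_pow_left₀ (by positivity) e1 n
        have e3 := kd_norm η (g (k - η))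
        calc (1 + ‖k‖) ^ n * (‖kd η (g (k - η))‖ * ‖h η‖)
            ≤ ((1 + ‖k - η‖) ^ n * (1 + ‖η‖) ^ n) * ((‖η‖ * ‖g (k - η)‖) * ‖h η‖) := by gcongr
          _ = ((1 + ‖k - η‖) ^ n * ‖g (k - η)‖) * ((1 + ‖η‖) ^ n * ‖η‖ * ‖h η‖) := by ring
          _ ≤ C * ((1 + ‖η‖) ^ n * (1 + ‖η‖) * ‖h η‖) := by
              gcongr
              · exact hC (k - η)
              · linarith
          _ = C * ((1 + ‖η‖) ^ (n + 1) * ‖h η‖) := by ring
    _ = C * ∫ η : E, (1 + ‖η‖) ^ (n + 1) * ‖h η‖ := integral_const_mul _ _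

theorem d3_sing : Integrable (fun k : E => ‖k‖⁻¹ * ((1 + ‖k‖) ^ 4)⁻¹) volume := by
  have h := (integrable_fun_norm_addHaar (E := E) (volume : Measure E)
    (f := fun y : ℝ => y⁻¹ * ((1 + y) ^ 4)⁻¹)).2 ?_
  · exact h
  have hd : Module.finrank ℝ E = 3 := by simp
  rw [hd]
  have h1 : Integrable (fun y : ℝ => (1 + ‖y‖) ^ (-(3:ℝ))) volume :=
    integrable_one_add_norm (by simp)
  refine Integrable.mono' h1.integrableOn ?_ ?_
  · exact Measurable.aestronglyMeasurable (by fun_prop)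
  · filter_upwards [ae_restrict_mem measurableSet_Ioi] with y hy
    have hy0 : 0 < y := hy
    rw [Real.norm_eq_abs, Real.norm_eq_abs, abs_of_pos hy0, smul_eq_mul,
      abs_of_nonneg (by positivity), Real.rpow_neg (by positivity)]
    have e1 : y ^ (3 - 1) * (y⁻¹ * ((1 + y) ^ 4)⁻¹) = y * ((1 + y) ^ 4)⁻¹ := by
      field_simp
    rw [e1]
    have e2 : (1 + y) ^ (3:ℝ) = (1 + y) ^ 3 := by
      rw [← Real.rpow_natCast]; norm_num
    rw [e2, ← div_eq_mul_inv, div_le_iff₀ (by positivity)]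
    have : ((1 + y) ^ 3)⁻¹ * (1 + y) ^ 4 = 1 + y := by
      field_simp
    rw [this]; linarith

theorem d3_P_wi {A : E → W} (hA : StronglyMeasurable A)
    (hb : ∀ n : ℕ, ∃ C : ℝ, ∀ k, (1 + ‖k‖) ^ n * ‖A k‖ ≤ C) :
    Wi (fun k => Complex.I * (kd k (A k) / ((‖k‖ ^ 2 : ℝ) : ℂ))) := by
  have hm : Measurable fun k : E => kd k (A k) := by
    unfold kd
    refine Finset.measurable_sum _ fun j _ => ?_
    refine Measurable.mul ?_ ?_
    · have : Continuous fun p : E => ((p j : ℝ) : ℂ) := by fun_prop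
      exact this.measurable
    · have : Continuous fun w : W => w j := by fun_prop
      exact this.measurable.comp hA.measurable
  have hm2 : Measurable fun k : E => Complex.I * (kd k (A k) / ((‖k‖ ^ 2 : ℝ) : ℂ)) := by
    refine (hm.div ?_).const_mul _
    have : Continuous fun k : E => ((‖k‖ ^ 2 : ℝ) : ℂ) := by fun_prop
    exact this.measurable
  refine ⟨hm2.aestronglyMeasurable, fun n => ?_⟩
  obtain ⟨C, hC⟩ := hb (n + 4)
  have hC0 : 0 ≤ C := (by positivity : (0:ℝ) ≤ (1 + ‖(0:E)‖) ^ (n + 4) * ‖A 0‖).trans (hC 0)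
  refine Integrable.mono' (d3_sing.const_mul C) ?_ (Eventually.of_forall fun k => ?_)
  · have : Measurable fun k : E => ‖k‖ ^ n * ‖Complex.I * (kd k (A k) / ((‖k‖ ^ 2 : ℝ) : ℂ))‖ :=
      (measurable_norm.pow_const n).mul hm2.norm
    exact this.aestronglyMeasurable
  · rw [Real.norm_eq_abs, abs_of_nonneg (by positivity), norm_mul, Complex.norm_I, one_mul, norm_div,
      Complex.norm_real, Real.norm_eq_abs, abs_of_nonneg (by positivity : (0:ℝ) ≤ ‖k‖ ^ 2)]
    rcases eq_or_ne k 0 with rfl | hk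
    · simp
    · have hk0 : 0 < ‖k‖ := norm_pos_iff.2 hk
      have e1 := kd_norm k (A k)
      calc ‖k‖ ^ n * (‖kd k (A k)‖ / ‖k‖ ^ 2) ≤ ‖k‖ ^ n * ((‖k‖ * ‖A k‖) / ‖k‖ ^ 2) := by gcongr
        _ = ‖k‖⁻¹ * (‖k‖ ^ n * ‖A k‖) := by field_simp
        _ ≤ ‖k‖⁻¹ * ((1 + ‖k‖) ^ n * ‖A k‖) := by
            gcongr
            linarith
        _ = ‖k‖⁻¹ * ((1 + ‖k‖) ^ 4)⁻¹ * ((1 + ‖k‖) ^ (n + 4) * ‖A k‖) := by
            rw [pow_add]; field_simp
        _ ≤ ‖k‖⁻¹ * ((1 + ‖k‖) ^ 4)⁻¹ * C := by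
            gcongr
            exact hC k
        _ = C * (‖k‖⁻¹ * ((1 + ‖k‖) ^ 4)⁻¹) := by ring

theorem d3_adv_wi {g h : E → W} (hg : Adm g) (hh : Adm h) (i : Fin 3) : Wi fun k => adv g h k i := by
  have hmeas := d3_adv_meas hg hh
  have hc : Continuous fun w : W => w i := by fun_prop
  have hm : Measurable fun k : E => adv g h k i := hc.measurable.comp hmeas.measurable
  refine ⟨hm.aestronglyMeasurable, fun n => ?_⟩
  obtain ⟨C, hC⟩ := d3_adv_bd hg hh (n + 4)
  have h1 : Integrable (fun k : E => (1 + ‖k‖) ^ n * ‖adv g h k‖) volume := by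
    refine int_dec (f := fun k : E => (1 + ‖k‖) ^ n * ‖adv g h k‖) (C := C) ?_ ?_
    · have : Measurable fun k : E => (1 + ‖k‖) ^ n * ‖adv g h k‖ :=
        ((measurable_norm.const_add 1).pow_const n).mul hmeas.measurable.norm
      exact this.aestronglyMeasurable
    · intro k
      rw [Real.norm_eq_abs, abs_of_nonneg (by positivity)]
      calc (1 + ‖k‖) ^ 4 * ((1 + ‖k‖) ^ n * ‖adv g h k‖) = (1 + ‖k‖) ^ (n + 4) * ‖adv g h k‖ := by
            rw [pow_add]; ring
        _ ≤ C := hC k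
  refine Integrable.mono' h1 ?_ (Eventually.of_forall fun k => ?_)
  · exact ((measurable_norm.pow_const n).mul hm.norm).aestronglyMeasurable
  · rw [Real.norm_eq_abs, abs_of_nonneg (by positivity)]
    have : ‖adv g h k i‖ ≤ ‖adv g h k‖ := PiLp.norm_apply_le _ i
    gcongr
    linarith

/-- TARGET -/
theorem vel_NL {g h : E → W} (hg : Adm g) (hh : Adm h) : ∃ p : E → ℝ, ContDiff ℝ ∞ p ∧
    ∀ x i, ∑ j, vel g x j * pd j (fun y => vel h y i) x + pd i p x = vel (NL g h) x i := by
  have hP := d3_P_wi (d3_adv_meas hg hh) (d3_adv_bd hg hh)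
  set P : E → ℂ := fun k => Complex.I * (kd k (adv g h k) / ((‖k‖ ^ 2 : ℝ) : ℂ)) with hPd
  refine ⟨fun x => (fl P x).re, Complex.reCLM.contDiff.comp (fl_smooth hP), fun x i => ?_⟩
  have h1 : pd i (fun x => (fl P x).re) x = (fl (fun k => Complex.I * (k i : ℂ) * P k) x).re :=
    fl_pd_re hP i x
  have hPi : Integrable (fun k => Complex.I * (k i : ℂ) * P k) volume := (Wi_mul hP i).d3_int
  -- the right hand side
  have h2 : vel (NL g h) x i = (fl (fun k => adv g h k i) x).re +
      (fl (fun k => Complex.I * (k i : ℂ) * P k) x).re := by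
    show (fl (fun k => NL g h k i) x).re = _
    have e : (fun k => NL g h k i) = fun k => adv g h k i - (-(Complex.I * (k i : ℂ) * P k)) := by
      funext k
      have e1 : NL g h k i = adv g h k i - (kd k (adv g h k) / ((‖k‖ ^ 2 : ℝ) : ℂ)) * (k i : ℂ) := rfl
      rw [e1, hPd]
      simp only
      linear_combination (-(k i : ℂ) * (kd k (adv g h k) / ((‖k‖ ^ 2 : ℝ) : ℂ))) * Complex.I_sq
    rw [e, d3_fl_sub (g := fun k => -(Complex.I * (k i : ℂ) * P k)) (d3_adv_wi hg hh i).d3_int hPi.neg x,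
      d3_fl_neg]
    rw [sub_neg_eq_add, Complex.add_re]
  rw [h1, h2]
  congr 1
  -- the convective term
  have h3 : ∀ j, vel g x j * pd j (fun y => vel h y i) x =
      (fl (fun k => ∫ η, g (k - η) j * (Complex.I * (η j : ℂ) * h η i)) x).re := by
    intro j
    have e1 : pd j (fun y => vel h y i) x = (fl (fun k => Complex.I * (k j : ℂ) * h k i) x).re :=
      fl_pd_re (hh.wi i) j x
    rw [e1, ← fl_mul (f := fun k => g k j) (hg.wi j).d3_int (Wi_mul (hh.wi i) j).d3_int, Complex.mul_re,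
      fl_im (f := fun k => g k j) (fun k => hg.herm k j), zero_mul, sub_zero]
    rfl
  rw [Finset.sum_congr rfl fun j _ => h3 j, ← Complex.re_sum]
  have h4 : ∀ j, Integrable (fun k : E => ∫ η, g (k - η) j * (Complex.I * (η j : ℂ) * h η i)) volume := by
    intro j
    have := (Wi_mul (hh.wi i) j).d3_int.integrable_convolution (ContinuousLinearMap.mul ℝ ℂ)
      (hg.wi j).d3_int
    refine this.congr (Eventually.of_forall fun k => ?_)
    show (∫ t, (ContinuousLinearMap.mul ℝ ℂ) (Complex.I * (t j : ℂ) * h t i) (g (k - t) j)) = _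
    refine integral_congr_ae (Eventually.of_forall fun t => ?_)
    show (Complex.I * (t j : ℂ) * h t i) * (g (k - t) j) = _
    ring
  rw [← d3_fl_sum h4]
  congr 2
  funext k
  have hI : ∀ j, Integrable (fun η : E => g (k - η) j * (Complex.I * (η j : ℂ) * h η i)) volume := by
    intro j
    obtain ⟨C, hC⟩ := hg.dec 0
    have e1 := (Wi_mul (hh.wi i) j).d3_int
    refine Integrable.mono' (e1.norm.const_mul C) ?_ (Eventually.of_forall fun η => ?_)
    · have hc : Continuous fun w : W => w j := by fun_prop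
      have : Measurable fun η : E => g (k - η) j :=
        hc.measurable.comp (hg.meas.comp (measurable_const.sub measurable_id))
      exact this.aestronglyMeasurable.mul e1.aestronglyMeasurable
    · rw [norm_mul]
      have e2 : ‖g (k - η) j‖ ≤ ‖g (k - η)‖ := PiLp.norm_apply_le _ j
      have e3 := hC (k - η)
      rw [pow_zero, one_mul] at e3
      exact mul_le_mul_of_nonneg_right (e2.trans e3) (norm_nonneg _)
  rw [← integral_finsetSum _ fun j _ => hI j]
  have h5 : adv g h k i = ∫ η, ((Complex.I * kd η (g (k - η))) • h η) i := by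
    have := (EuclideanSpace.proj (𝕜 := ℂ) i : W →L[ℂ] ℂ).integral_comp_comm (adv_int hg hh k)
    exact this.symm
  rw [h5]
  refine integral_congr_ae (Eventually.of_forall fun η => ?_)
  show ∑ j, g (k - η) j * (Complex.I * (η j : ℂ) * h η i) = (Complex.I * kd η (g (k - η))) * h η i
  unfold kd
  rw [Finset.mul_sum, Finset.sum_mul]
  refine Finset.sum_congr rfl fun j _ => ?_
  ring

end H706N.JD3

namespace H706N

alias vel_smooth := JD3.vel_smooth
alias vel_div := JD3.vel_div
alias vel_lap := JD3.vel_lap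
alias vel_NL := JD3.vel_NL

end H706N
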