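import Pool.Agent.Helper706_NS.Defs2
import Pool.Agent.Helper706_NS.D3

set_option autoImplicit false
open Set Filter Topology MeasureTheory
open scoped ComplexConjugate ContDiff

namespace H706N.JD4

theorem nexp (k x : E) : ‖Complex.exp (((inner ℝ k x : ℝ) : ℂ) * Complex.I)‖ = 1 :=
  Complex.norm_exp_ofReal_mul_I _

theorem cexp' : Continuous fun z : E × E =>
    Complex.exp (((inner ℝ z.1 z.2 : ℝ) : ℂ) * Complex.I) := by
  fun_prop

theorem mexp (x : E) : AEStronglyMeasurable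
    (fun k : E => Complex.exp (((inner ℝ k x : ℝ) : ℂ) * Complex.I)) volume := by
  refine Continuous.aestronglyMeasurable ?_
  fun_prop

theorem comp_le (c : W) (i : Fin 3) : ‖c i‖ ≤ ‖c‖ := PiLp.norm_apply_le c i

theorem _root_.H706N.Adm.mcomp {g : E → W} (hg : Adm g) (i : Fin 3) :
    AEStronglyMeasurable (fun k => g k i) volume := (hg.wi i).1

theorem _root_.H706N.Adm.icomp {g : E → W} (hg : Adm g) (i : Fin 3) (n : ℕ) :
    Integrable (fun k => ((‖k‖ ^ n : ℝ) : ℂ) * g k i) volume := by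
  have h := (hg.wi i).2 n
  refine h.mono' ?_ ?_
  · refine AEStronglyMeasurable.mul ?_ (hg.mcomp i)
    refine Continuous.aestronglyMeasurable ?_
    fun_prop
  · refine Eventually.of_forall fun k => ?_
    rw [norm_mul, Complex.norm_real, Real.norm_of_nonneg (by positivity)]

theorem fl_int {f : E → ℂ} (hf : Integrable f volume) (x : E) :
    Integrable (fun k => Complex.exp (((inner ℝ k x : ℝ) : ℂ) * Complex.I) * f k) volume := by
  refine hf.mono ((mexp x).mul hf.1) ?_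
  refine Eventually.of_forall fun k => ?_
  rw [norm_mul, nexp, one_mul]

theorem dom_int (M : ℝ) : Integrable (fun k : E => M * ((1 + ‖k‖) ^ 4)⁻¹) volume := by
  refine int_dec (C := |M|) ?_ ?_
  · refine Continuous.aestronglyMeasurable ?_
    refine Continuous.mul continuous_const ?_
    refine Continuous.inv₀ (by fun_prop) ?_
    intro k
    positivity
  · intro k
    have h1 : (0 : ℝ) < (1 + ‖k‖) ^ 4 := by positivity
    rw [norm_mul, norm_inv, Real.norm_eq_abs, Real.norm_of_nonneg h1.le]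
    field_simp
    exact le_rfl

theorem le_dom {M : ℝ} {k : E} {r : ℝ} (h : (1 + ‖k‖) ^ 4 * r ≤ M) :
    r ≤ M * ((1 + ‖k‖) ^ 4)⁻¹ := by
  have h1 : (0 : ℝ) < (1 + ‖k‖) ^ 4 := by positivity
  rw [← div_eq_mul_inv, le_div_iff₀ h1]
  linarith

/-- The derivative of the velocity in time. -/
theorem vel_deriv {Bp : (E → W) → (E → W) → E → W} (hB : Good Bp) {ν T : ℝ} {u : ℝ → E → W}
    (hu : Sol ν Bp T u) {t : ℝ} (ht : t ∈ Ioo 0 T) (x : E) (i : Fin 3) :
    HasDerivAt (fun s => vel (u s) x i)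
      (-vel (NL (u t) (u t)) x i - ν * (fl (fun k => ((‖k‖ ^ 2 : ℝ) : ℂ) * u t k i) x).re
        + vel (Bp (u t) (u t)) x i) t := by
  obtain ⟨T₁, h1, h2⟩ := exists_between ht.2
  have htI : t ∈ Ico 0 T := ⟨ht.1.le, ht.2⟩
  have hA : Adm (u t) := hu.adm t htI
  have hNL : Adm (NL (u t) (u t)) := adm_NL hA hA
  have hBt : Adm (Bp (u t) (u t)) := hB.adm _ _ hA hA
  obtain ⟨C6, hC6⟩ := hu.bdd T₁ h2 6
  obtain ⟨K, hK⟩ := NL_bdd 4
  obtain ⟨C9, hC9⟩ := hu.bdd T₁ h2 (4 + 5)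
  obtain ⟨m, K', hK'⟩ := hB.bdd 4
  obtain ⟨Cm, hCm⟩ := hu.bdd T₁ h2 m
  set M : ℝ := K * C9 * C9 + |ν| * C6 + K' * Cm * Cm with hM
  set D : ℝ → E → W := fun s k =>
    (-NL (u s) (u s) k - (ν * ‖k‖ ^ 2) • u s k + Bp (u s) (u s) k) with hD
  have hbd : ∀ s ∈ Ioo 0 T₁, ∀ k, ‖D s k‖ ≤ M * ((1 + ‖k‖) ^ 4)⁻¹ := by
    intro s hs k
    have hsI : s ∈ Icc 0 T₁ := ⟨hs.1.le, hs.2.le⟩
    have hsT : s ∈ Ico 0 T := ⟨hs.1.le, hs.2.trans h2⟩
    have hAs : Adm (u s) := hu.adm s hsT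
    refine le_dom ?_
    have e1 := hK (u s) (u s) hAs hAs C9 C9 (hC9 s hsI) (hC9 s hsI) k
    have e2 := hK' (u s) (u s) hAs hAs Cm Cm (hCm s hsI) (hCm s hsI) k
    have e3 := hC6 s hsI k
    have hp : (0 : ℝ) ≤ (1 + ‖k‖) ^ 4 := by positivity
    have e4 : ‖D s k‖ ≤ ‖NL (u s) (u s) k‖ + |ν| * ‖k‖ ^ 2 * ‖u s k‖ + ‖Bp (u s) (u s) k‖ := by
      refine (norm_add_le _ _).trans ?_
      refine add_le_add ?_ le_rfl
      refine (norm_sub_le _ _).trans ?_
      rw [norm_neg, norm_smul, Real.norm_eq_abs, abs_mul, abs_of_nonneg (sq_nonneg ‖k‖)]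
    have e5 : (1 + ‖k‖) ^ 4 * (‖k‖ ^ 2 * ‖u s k‖) ≤ C6 := by
      refine le_trans ?_ e3
      have : ‖k‖ ^ 2 ≤ (1 + ‖k‖) ^ 2 := by
        have := norm_nonneg k
        nlinarith
      calc (1 + ‖k‖) ^ 4 * (‖k‖ ^ 2 * ‖u s k‖) ≤ (1 + ‖k‖) ^ 4 * ((1 + ‖k‖) ^ 2 * ‖u s k‖) := by
            gcongr
        _ = (1 + ‖k‖) ^ 6 * ‖u s k‖ := by ring
    calc (1 + ‖k‖) ^ 4 * ‖D s k‖
        ≤ (1 + ‖k‖) ^ 4 * (‖NL (u s) (u s) k‖ + |ν| * ‖k‖ ^ 2 * ‖u s k‖ + ‖Bp (u s) (u s) k‖) := by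
          gcongr
      _ = (1 + ‖k‖) ^ 4 * ‖NL (u s) (u s) k‖ + |ν| * ((1 + ‖k‖) ^ 4 * (‖k‖ ^ 2 * ‖u s k‖))
          + (1 + ‖k‖) ^ 4 * ‖Bp (u s) (u s) k‖ := by ring
      _ ≤ K * C9 * C9 + |ν| * C6 + K' * Cm * Cm := by
          gcongr
  have hs : Ioo 0 T₁ ∈ 𝓝 t := Ioo_mem_nhds ht.1 h1
  have key := hasDerivAt_integral_of_dominated_loc_of_deriv_le (μ := (volume : Measure E))
    (F := fun s k => Complex.exp (((inner ℝ k x : ℝ) : ℂ) * Complex.I) * u s k i)
    (F' := fun s k => Complex.exp (((inner ℝ k x : ℝ) : ℂ) * Complex.I) * D s k i)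
    (x₀ := t) (bound := fun k => M * ((1 + ‖k‖) ^ 4)⁻¹) hs
    (by
      filter_upwards [hs] with s hs
      exact (mexp x).mul ((hu.adm s ⟨hs.1.le, hs.2.trans h2⟩).mcomp i))
    (fl_int (by simpa using hA.icomp i 0) x)
    (by
      refine (mexp x).mul ?_
      have q1 := hNL.mcomp i
      have q2 := (hA.icomp i 2).1
      have q3 := hBt.mcomp i
      have q4 : (fun k => D t k i) = fun k => -NL (u t) (u t) k i
          - (ν : ℂ) * (((‖k‖ ^ 2 : ℝ) : ℂ) * u t k i) + Bp (u t) (u t) k i := by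
        ext k
        simp [hD, mul_assoc]
      rw [q4]
      exact (q1.neg.sub (q2.const_mul _)).add q3)
    (by
      refine Eventually.of_forall fun k s hs => ?_
      rw [norm_mul, nexp, one_mul]
      exact (comp_le _ i).trans (hbd s hs k))
    (dom_int M)
    (by
      refine Eventually.of_forall fun k s hs => ?_
      have h := hu.eqn s ⟨hs.1, hs.2.trans h2⟩ k
      have h' : HasDerivAt (fun s => u s k i) (D s k i) s :=
        ((EuclideanSpace.proj i : W →L[ℂ] ℂ).restrictScalars ℝ).hasFDerivAt.comp_hasDerivAt s h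
      exact h'.const_mul _)
  have key2 := key.2
  have key3 := Complex.reCLM.hasFDerivAt.comp_hasDerivAt t key2
  have e : (∫ k, Complex.exp (((inner ℝ k x : ℝ) : ℂ) * Complex.I) * D t k i)
      = -(fl (fun k => NL (u t) (u t) k i) x)
        - ν * (fl (fun k => ((‖k‖ ^ 2 : ℝ) : ℂ) * u t k i) x)
        + fl (fun k => Bp (u t) (u t) k i) x := by
    have i1 := fl_int (by simpa using hNL.icomp i 0 : Integrable (fun k => NL (u t) (u t) k i) volume) x
    have i2 := fl_int (hA.icomp i 2) x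
    have i3 := fl_int (by simpa using hBt.icomp i 0 : Integrable (fun k => Bp (u t) (u t) k i) volume) x
    have e0 : (fun k => Complex.exp (((inner ℝ k x : ℝ) : ℂ) * Complex.I) * D t k i)
        = fun k => (-(Complex.exp (((inner ℝ k x : ℝ) : ℂ) * Complex.I) * NL (u t) (u t) k i)
          - (ν : ℂ) * (Complex.exp (((inner ℝ k x : ℝ) : ℂ) * Complex.I)
            * (((‖k‖ ^ 2 : ℝ) : ℂ) * u t k i)))
          + Complex.exp (((inner ℝ k x : ℝ) : ℂ) * Complex.I) * Bp (u t) (u t) k i := by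
      ext k
      simp [hD]
      ring
    have f1 := integral_add (i1.neg.sub (i2.const_mul (ν : ℂ))) i3
    have f2 := integral_sub i1.neg (i2.const_mul (ν : ℂ))
    rw [e0]
    simp only [Pi.neg_apply, Pi.sub_apply] at f1 f2
    rw [f1, f2, integral_neg, integral_const_mul]
    rfl
  have e2 : (∫ k, Complex.exp (((inner ℝ k x : ℝ) : ℂ) * Complex.I) * D t k i).re
      = (-vel (NL (u t) (u t)) x i - ν * (fl (fun k => ((‖k‖ ^ 2 : ℝ) : ℂ) * u t k i) x).re
        + vel (Bp (u t) (u t)) x i) := by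
    rw [e]
    simp [vel]
  rw [← e2]
  exact key3

/-- Joint continuity. -/
theorem vel_cont {Bp : (E → W) → (E → W) → E → W} {ν T : ℝ} {u : ℝ → E → W}
    (hu : Sol ν Bp T u) : ContinuousOn (fun z : ℝ × E => vel (u z.1) z.2) (Ico 0 T ×ˢ univ) := by
  intro z₀ hz₀
  obtain ⟨h0, -⟩ := hz₀
  have hcomp : ∀ i : Fin 3, ContinuousWithinAt
      (fun z : ℝ × E => (fl (fun k => u z.1 k i) z.2).re) (Ico 0 T ×ˢ univ) z₀ := by
    intro i
    refine Complex.continuous_re.continuousAt.comp_continuousWithinAt ?_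
    obtain ⟨T₁, h1, h2⟩ := exists_between h0.2
    obtain ⟨C, hC⟩ := hu.bdd T₁ h2 4
    unfold fl
    have hev : ∀ᶠ z : ℝ × E in 𝓝[Ico 0 T ×ˢ univ] z₀, z.1 ∈ Icc 0 T₁ := by
      have a1 : ∀ᶠ z : ℝ × E in 𝓝[Ico 0 T ×ˢ univ] z₀, z ∈ Ico 0 T ×ˢ (univ : Set E) :=
        self_mem_nhdsWithin
      have a2 : ∀ᶠ z : ℝ × E in 𝓝[Ico 0 T ×ˢ univ] z₀, z.1 < T₁ :=
        mem_nhdsWithin_of_mem_nhds ((continuous_fst.tendsto z₀).eventually (Iio_mem_nhds h1))
      filter_upwards [a1, a2] with z hz hz'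
      exact ⟨hz.1.1, hz'.le⟩
    refine tendsto_integral_filter_of_dominated_convergence (fun k => C * ((1 + ‖k‖) ^ 4)⁻¹)
      ?_ ?_ (dom_int C) ?_
    · filter_upwards [hev] with z hz
      exact (mexp z.2).mul ((hu.adm z.1 ⟨hz.1, hz.2.trans_lt h2⟩).mcomp i)
    · filter_upwards [hev] with z hz
      refine Eventually.of_forall fun k => ?_
      rw [norm_mul, nexp, one_mul]
      exact (comp_le _ i).trans (le_dom (hC z.1 hz k))
    · refine Eventually.of_forall fun k => ?_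
      refine Tendsto.mul ?_ ?_
      · refine tendsto_nhdsWithin_of_tendsto_nhds ?_
        have hc : Continuous fun z : ℝ × E =>
            Complex.exp (((inner ℝ k z.2 : ℝ) : ℂ) * Complex.I) := by fun_prop
        exact hc.tendsto z₀
      · have hc : ContinuousOn (fun t => u t k i) (Ico 0 T) :=
          (EuclideanSpace.proj i : W →L[ℂ] ℂ).continuous.comp_continuousOn (hu.cont k)
        have hc' := (hc z₀.1 h0)
        refine Tendsto.comp (f := Prod.fst) hc' ?_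
        refine tendsto_nhdsWithin_of_tendsto_nhds_of_eventually_within _ ?_ ?_
        · exact tendsto_nhdsWithin_of_tendsto_nhds (continuous_fst.tendsto z₀)
        · filter_upwards [self_mem_nhdsWithin] with z hz
          exact hz.1
  have hpi : ContinuousWithinAt
      (fun z : ℝ × E => fun i : Fin 3 => (fl (fun k => u z.1 k i) z.2).re) (Ico 0 T ×ˢ univ) z₀ :=
    continuousWithinAt_pi.2 hcomp
  exact (PiLp.continuous_toLp 2 _).continuousAt.comp_continuousWithinAt hpi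

/-- TARGET -/
theorem sol_cls {Bp : (E → W) → (E → W) → E → W} (hB : Good Bp) {ν T : ℝ} {u : ℝ → E → W}
    (hu : Sol ν Bp T u) : ∃ p : ℝ → E → ℝ,
      Cls ν T (fun t => vel (u t)) p fun t => vel (Bp (u t) (u t)) := by
  have hex : ∀ t : ℝ, ∃ p : E → ℝ, t ∈ Ico 0 T → (ContDiff ℝ ∞ p ∧
      ∀ x i, ∑ j, vel (u t) x j * pd j (fun y => vel (u t) y i) x + pd i p x
        = vel (NL (u t) (u t)) x i) := by
    intro t
    by_cases ht : t ∈ Ico 0 T
    · obtain ⟨p, hp⟩ := vel_NL (hu.adm t ht) (hu.adm t ht)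
      exact ⟨p, fun _ => hp⟩
    · exact ⟨0, fun h => absurd h ht⟩
  choose p hp using hex
  refine ⟨p, ?_, ?_, ?_, ?_⟩
  · intro t ht
    exact ⟨vel_smooth (hu.adm t ht), (hp t ht).1⟩
  · exact vel_cont hu
  · intro t ht x
    exact vel_div (hu.adm t ht) x
  · intro t ht x i
    have htI : t ∈ Ico 0 T := ⟨ht.1.le, ht.2⟩
    have h := vel_deriv hB hu ht x i
    have e1 := vel_lap (hu.adm t htI) x i
    have e2 := (hp t htI).2 x i
    convert h using 1
    simp only [] at *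
    rw [e1, ← e2]
    ring

end H706N.JD4

namespace H706N

alias sol_cls := JD4.sol_cls

end H706N
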