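import Mathlib

/-!
Velocity fields on `ℝ³` and their Fourier transforms: definitions.

A real divergence free field `v` with Fourier transform `g` is `v(x) = ∫ g(k) exp(i k·x) dk`.
-/

set_option autoImplicit false

open Set Filter Topology MeasureTheory
open scoped ComplexConjugate ContDiff

namespace H706N

/-- Euclidean space `ℝ³` (points and frequencies). -/
abbrev E := EuclideanSpace ℝ (Fin 3)

/-- The space `ℂ³` of amplitudes. -/
abbrev W := EuclideanSpace ℂ (Fin 3)

/-- `k · c`, for `k ∈ ℝ³` and `c ∈ ℂ³`. -/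
noncomputable def kd (k : E) (c : W) : ℂ := ∑ j, (k j : ℂ) * c j

/-- The vector `k` as an element of `ℂ³`. -/
noncomputable def toW (k : E) : W := WithLp.toLp 2 fun j => (k j : ℂ)

/-- Admissible Fourier transforms: measurable, rapidly decreasing, those of real and divergence free
fields. -/
structure Adm (g : E → W) : Prop where
  meas : Measurable g
  dec : ∀ n : ℕ, ∃ C : ℝ, ∀ k, (1 + ‖k‖) ^ n * ‖g k‖ ≤ C
  herm : ∀ k j, g (-k) j = conj (g k j)
  divf : ∀ k, kd k (g k) = 0

/-- The inner product `∫ g · conj h` (by Plancherel's theorem this is `(2π)⁻³ ∫ v · w` for the fields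
`v`, `w` with the Fourier transforms `g`, `h`). -/
noncomputable def pr (g h : E → W) : ℝ := ∫ k, (inner ℂ (g k) (h k)).re

/-- The norm of the homogeneous Sobolev space of order `a`. -/
noncomputable def nrm (a : ℝ) (g : E → W) : ℝ :=
  Real.sqrt (∫ k, ‖k‖ ^ (2 * a) * ‖g k‖ ^ 2)

/-- `∫ f(k) exp(i k·x) dk`. -/
noncomputable def fl (f : E → ℂ) (x : E) : ℂ :=
  ∫ k, Complex.exp (((inner ℝ k x : ℝ) : ℂ) * Complex.I) * f k

/-- The velocity field with the Fourier transform `g`. -/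
noncomputable def vel (g : E → W) (x : E) : E :=
  WithLp.toLp 2 fun i => (fl (fun k => g k i) x).re

/-- The Leray projection: the component of `c` orthogonal to `k`. -/
noncomputable def lp (k : E) (c : W) : W := c - (kd k c / ((‖k‖ ^ 2 : ℝ) : ℂ)) • toW k

/-- The Fourier transform of `(v·∇)w`. -/
noncomputable def adv (g h : E → W) (k : E) : W := ∫ η, (Complex.I * kd η (g (k - η))) • h η

/-- The Fourier transform of the divergence free part of `(v·∇)w`. -/
noncomputable def NL (g h : E → W) (k : E) : W := lp k (adv g h k)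

/-- The Fourier transform of `x ↦ r v(r x)`. -/
noncomputable def dil (r : ℝ) (g : E → W) (k : E) : W := (r ^ 2)⁻¹ • g (r⁻¹ • k)

/-- Solutions on `[0, T)` of the Navier-Stokes equations with viscosity `ν` and with the additional
term `Bp(u, u)`, in terms of Fourier transforms. -/
structure Sol (ν : ℝ) (Bp : (E → W) → (E → W) → E → W) (T : ℝ) (u : ℝ → E → W) : Prop where
  adm : ∀ t ∈ Ico 0 T, Adm (u t)
  bdd : ∀ T₁ < T, ∀ n : ℕ, ∃ C : ℝ, ∀ t ∈ Icc 0 T₁, ∀ k, (1 + ‖k‖) ^ n * ‖u t k‖ ≤ C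
  cont : ∀ k, ContinuousOn (fun t => u t k) (Ico 0 T)
  eqn : ∀ t ∈ Ioo 0 T, ∀ k, HasDerivAt (fun s => u s k)
    (-NL (u t) (u t) k - (ν * ‖k‖ ^ 2) • u t k + Bp (u t) (u t) k) t

/-- The partial derivative `∂ⱼ f`. -/
noncomputable def pd (j : Fin 3) (f : E → ℝ) (x : E) : ℝ := fderiv ℝ f x (EuclideanSpace.single j 1)

/-- Classical solutions `v` with pressure `p`, on `[0, T)`, of the Navier-Stokes equations
`∂ₜv + (v·∇)v + ∇p = νΔv + F`, `div v = 0`. -/
structure Cls (ν T : ℝ) (v : ℝ → E → E) (p : ℝ → E → ℝ) (F : ℝ → E → E) : Prop where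
  smooth : ∀ t ∈ Ico 0 T, ContDiff ℝ ∞ (v t) ∧ ContDiff ℝ ∞ (p t)
  cont : ContinuousOn (fun z : ℝ × E => v z.1 z.2) (Ico 0 T ×ˢ univ)
  divf : ∀ t ∈ Ico 0 T, ∀ x, ∑ j, pd j (fun y => v t y j) x = 0
  eqn : ∀ t ∈ Ioo 0 T, ∀ x i, HasDerivAt (fun s => v s x i)
    (ν * ∑ j, pd j (pd j fun y => v t y i) x - ∑ j, v t x j * pd j (fun y => v t y i) x
      - pd i (p t) x + F t x i) t

end H706N
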