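import Pool.Agent.Helper706_NS.Defs

/-!
Auxiliary definitions.
-/

set_option autoImplicit false

open Set Filter Topology MeasureTheory
open scoped ComplexConjugate ContDiff

namespace H706N

/-- A double cone around the third axis. -/
def cone (c : ℝ) : Set E := {k | k 0 ^ 2 + k 1 ^ 2 ≤ c ^ 2 * k 2 ^ 2}

/-- The part of a field with frequencies in the cone. -/
noncomputable def cut (c : ℝ) (g : E → W) : E → W := (cone c).indicator g

/-- Angular profiles. -/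
structure Ang (c cV : ℝ) (V : E → W) : Prop where
  meas : Measurable V
  hom : ∀ r : ℝ, 0 < r → ∀ k, V (r • k) = V k
  bd : ∀ k, ‖V k‖ ≤ 1
  herm : ∀ k j, V (-k) j = conj (V k j)
  divf : ∀ k, kd k (V k) = 0
  supp : ∀ k, k ∉ cone c → V k = 0
  smooth : ContDiffOn ℝ ∞ V {0}ᶜ
  pos : 0 < cV
  polar : ∀ φ : ℝ → ENNReal, Measurable φ →
    ∫⁻ k : E, ENNReal.ofReal (‖k‖ ^ (-3 : ℝ) * ‖V k‖ ^ 2) * φ (Real.log ‖k‖)
      = ENNReal.ofReal cV * ∫⁻ s, φ s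

/-- Continuous functions with Gaussian decay. -/
structure Gt (a : ℝ → ℝ) : Prop where
  cont : Continuous a
  bd : ∃ C : ℝ, ∀ y, |a y| ≤ C * Real.exp (-y ^ 2)

/-- The field with the radial profile `a`, shifted by `σ` in the logarithmic scale. -/
noncomputable def atm (V : E → W) (a : ℝ → ℝ) (σ : ℝ) (k : E) : W :=
  (‖k‖ ^ (-(3 / 2) : ℝ) * a (Real.log ‖k‖ - σ)) • V k

/-- The elementary bilinear operators. -/
noncomputable def bt (V : E → W) (a q p : ℝ → ℝ) (g h : E → W) (k : E) : W :=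
  ∫ σ : ℝ, (Real.exp (5 / 2 * σ) * pr (atm V a σ) g) •
    (pr (atm V q σ) h • atm V p σ k - pr (atm V p σ) h • atm V q σ k)

/-- Functions which are integrable with all powers of the norm. -/
def Wi (f : E → ℂ) : Prop := AEStronglyMeasurable f volume ∧ ∀ n : ℕ, Integrable fun k => ‖k‖ ^ n * ‖f k‖

/-- The Gaussian. -/
noncomputable def Fg (y : ℝ) : ℝ := Real.exp (-y ^ 2 / 2)

/-- Bilinear operators with the properties used for the uniqueness of solutions. -/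
structure Good (Bp : (E → W) → (E → W) → E → W) : Prop where
  adm : ∀ g h, Adm g → Adm h → Adm (Bp g h)
  lin₁ : ∀ g g' h, Adm g → Adm g' → Adm h → ∀ c : ℝ, Bp (g + c • g') h = Bp g h + c • Bp g' h
  lin₂ : ∀ g h h', Adm g → Adm h → Adm h' → ∀ c : ℝ, Bp g (h + c • h') = Bp g h + c • Bp g h'
  skew : ∀ g h, Adm g → Adm h → pr (Bp g h) h = 0
  bdd : ∀ n : ℕ, ∃ (m : ℕ) (K : ℝ), ∀ g h, Adm g → Adm h → ∀ C D : ℝ,
    (∀ k, (1 + ‖k‖) ^ m * ‖g k‖ ≤ C) → (∀ k, (1 + ‖k‖) ^ m * ‖h k‖ ≤ D) →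
      ∀ k, (1 + ‖k‖) ^ n * ‖Bp g h k‖ ≤ K * C * D
  diag : ∃ (m : ℕ) (K : ℝ), ∀ g h, Adm g → Adm h → ∀ D : ℝ,
    (∀ k, (1 + ‖k‖) ^ m * ‖h k‖ ≤ D) → |pr (Bp g h) g| ≤ K * D * nrm 0 g ^ 2

end H706N
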