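import Pool.Agent.Helper706_NS.Defs2

/-!
Definitions for the translation invariant perturbations.
-/

set_option autoImplicit false

open Set Filter Topology MeasureTheory
open scoped ComplexConjugate ContDiff

namespace H706N

/-- The frequencies close to the horizontal plane. -/
def band (η : ℝ) : Set E := {k | k 2 ^ 2 ≤ η ^ 2 * ‖k‖ ^ 2}

/-- The part of a field with frequencies close to the horizontal plane. -/
noncomputable def cutb (η : ℝ) (g : E → W) : E → W := (band η).indicator g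

/-- The field `e₃ × k / |e₃ × k|`. -/
noncomputable def vt (k : E) : E := (Real.sqrt (k 0 ^ 2 + k 1 ^ 2))⁻¹ • !₂[-k 1, k 0, 0]

/-- The bilinear Fourier multiplier operators with the symbol `m`, acting on the components along `vt`. -/
noncomputable def bm (m : E → E → ℝ) (g h : E → W) (k : E) : W :=
  (Complex.I * ∫ q, (m (k - q) q : ℂ) * (kd (vt (k - q)) (g (k - q)) * kd (vt q) (h q))) • toW (vt k)

/-- The conditions on the symbols. -/
structure Mlt (m : E → E → ℝ) : Prop where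
  meas : Measurable fun z : E × E => m z.1 z.2
  bd : ∃ C : ℝ, 0 ≤ C ∧ ∀ p q, |m p q| ≤ C * min ‖q‖ ‖p + q‖
  even : ∀ p q, m (-p) (-q) = m p q
  skew : ∀ p q, m (-p) (p + q) = -m p q

/-- The Fourier transform of `x ↦ v (x - a)`. -/
noncomputable def tr (a : E) (g : E → W) (k : E) : W :=
  Complex.exp (((-inner ℝ k a : ℝ) : ℂ) * Complex.I) • g k

/-- The rotation by the angle `θ` about the third axis. -/
noncomputable def rz (θ : ℝ) (k : E) : E :=
  !₂[Real.cos θ * k 0 - Real.sin θ * k 1, Real.sin θ * k 0 + Real.cos θ * k 1, k 2]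

/-- The rotation by the angle `θ` about the third axis, for complex vectors. -/
noncomputable def rzW (θ : ℝ) (c : W) : W :=
  !₂[(Real.cos θ : ℂ) * c 0 - (Real.sin θ : ℂ) * c 1, (Real.sin θ : ℂ) * c 0 + (Real.cos θ : ℂ) * c 1, c 2]

/-- The Fourier transform of `x ↦ R v (R⁻¹ x)`, `R` the rotation by the angle `θ` about the third axis. -/
noncomputable def rot (θ : ℝ) (g : E → W) (k : E) : W := rzW θ (g (rz (-θ) k))

/-- The Fourier transform of `x ↦ -v (-x)`. -/
noncomputable def par (g : E → W) (k : E) : W := -g (-k)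

/-- The square root of the positive part of `η² |k|² - k₃²`. -/
noncomputable def ee (η : ℝ) (k : E) : ℝ := Real.sqrt (η ^ 2 * ‖k‖ ^ 2 - k 2 ^ 2)

/-- The vector product. -/
noncomputable def cr (p q : E) : E :=
  !₂[p 1 * q 2 - p 2 * q 1, p 2 * q 0 - p 0 * q 2, p 0 * q 1 - p 1 * q 0]

/-- `dd a b c = 16 × (area)² / perimeter` for a triangle with the sides `a`, `b`, `c`. -/
noncomputable def dd (a b c : ℝ) : ℝ := (b + c - a) * (a + c - b) * (a + b - c)

/-- The symbols of the perturbations. -/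
noncomputable def mu (P : ℝ → ℝ → ℝ → ℝ) (η : ℝ) (p q : E) : ℝ :=
  4 * P ‖p‖ ‖q‖ ‖p + q‖ * dd ‖p‖ ‖q‖ ‖p + q‖ ^ 2 *
      (|cr p q 2| * Real.sqrt (η ^ 2 * ‖cr p q‖ ^ 2 - cr p q 0 ^ 2 - cr p q 1 ^ 2))
    / ((‖p‖ + ‖q‖ + ‖p + q‖) * (‖p‖ * ‖q‖ * ‖p + q‖) ^ 3 * (ee η p * ee η q * ee η (p + q)))

/-- The polynomial used for the Navier-Stokes equations. -/
noncomputable def PN (a b c : ℝ) : ℝ :=
  (b - c) * (33 * a ^ 2 * (b + c) - 44 * a * (b ^ 2 + c ^ 2) + 7 * a * b * c + 11 * (b ^ 3 + c ^ 3))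

/-- The polynomial used for the Euler equations. -/
noncomputable def PE (a b c : ℝ) : ℝ :=
  (b - c) * (-33 * a ^ 3 + 33 * a ^ 2 * (b + c) - 24 * a * b * c - 4 * b * c * (b + c))

/-- The radial and angular part of the profile. -/
noncomputable def wf (η : ℝ) (k : E) : ℝ := ‖k‖ ^ 2 * Real.exp (-‖k‖) * ee η k

/-- The Fourier transform of the profile. -/
noncomputable def prf (η : ℝ) (k : E) : W := (Complex.I * (wf η k : ℂ)) • toW (vt k)

/-- The conditions on the polynomials. -/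
structure Pol (P : ℝ → ℝ → ℝ → ℝ) : Prop where
  cont : Continuous fun z : ℝ × ℝ × ℝ => P z.1 z.2.1 z.2.2
  hom : ∀ r a b c, P (r * a) (r * b) (r * c) = r ^ 4 * P a b c
  anti : ∀ a b c, P a c b = -P a b c
  bd : ∃ C : ℝ, 0 ≤ C ∧ ∀ a b c, 0 ≤ a → 0 ≤ b → 0 ≤ c → |P a b c| ≤ C * (a + b + c) ^ 4

end H706N
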