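import Pool.Agent.Helper706_NS.Defs4
import Pool.Agent.Helper706_NS.TC

set_option autoImplicit false
open Set Filter Topology MeasureTheory
open scoped ComplexConjugate ContDiff

namespace H706N.JH19

/-! ### Auxiliary lemmas -/

section H19aux

variable {F : Type} [NormedAddCommGroup F] [NormedSpace ℝ F]

/-- `exp(-‖k‖) H(k)`, extended by zero. -/
noncomputable def s9T (H : E → F) (k : E) : F :=
  if k = 0 then 0 else Real.exp (-‖k‖) • H k

/-- Homogeneous functions of degree `α`, of class `C^m` off `0`. -/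
structure s9H (m : ℕ) (α : ℝ) (H : E → F) : Prop where
  smooth : ContDiffOn ℝ m H {0}ᶜ
  hom : ∀ r : ℝ, 0 < r → ∀ k : E, k ≠ 0 → H (r • k) = r ^ α • H k

theorem s9_mono {m m' : ℕ} (h : m ≤ m') {α : ℝ} {H : E → F} (hH : s9H m' α H) : s9H m α H :=
  ⟨hH.smooth.of_le (by exact_mod_cast h), hH.hom⟩

theorem s9_hom_bound {m : ℕ} {α : ℝ} {H : E → F} (hH : s9H m α H) :
    ∃ M : ℝ, 0 ≤ M ∧ ∀ k : E, k ≠ 0 → ‖H k‖ ≤ M * ‖k‖ ^ α := by
  have hc : IsCompact (Metric.sphere (0 : E) 1) := isCompact_sphere _ _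
  have hcont : ContinuousOn H (Metric.sphere (0 : E) 1) :=
    hH.smooth.continuousOn.mono (by
      intro x hx
      rw [mem_sphere_zero_iff_norm] at hx
      intro h0
      rw [Set.mem_singleton_iff] at h0
      rw [h0, norm_zero] at hx
      exact zero_ne_one hx)
  obtain ⟨M, hM⟩ := hc.exists_bound_of_continuousOn hcont
  refine ⟨max M 0, le_max_right _ _, fun k hk => ?_⟩
  have hk' : 0 < ‖k‖ := norm_pos_iff.2 hk
  have h1 : (‖k‖⁻¹ • k) ∈ Metric.sphere (0 : E) 1 := by
    rw [mem_sphere_zero_iff_norm, norm_smul, norm_inv, norm_norm, inv_mul_cancel₀ hk'.ne']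
  have h2 : H k = ‖k‖ ^ α • H (‖k‖⁻¹ • k) := by
    rw [← hH.hom ‖k‖ hk' _ (smul_ne_zero (inv_ne_zero hk'.ne') hk), smul_smul,
      mul_inv_cancel₀ hk'.ne', one_smul]
  rw [h2, norm_smul, Real.norm_of_nonneg (Real.rpow_nonneg hk'.le _), mul_comm]
  gcongr
  exact (hM _ h1).trans (le_max_left _ _)

theorem s9_T_zero (H : E → F) : s9T H 0 = 0 := by simp [s9T]

theorem s9_real_bound {β : ℝ} (hβ : 0 ≤ β) : ∃ C : ℝ, 0 ≤ C ∧ ∀ x : ℝ, 0 ≤ x →
    x ^ β * Real.exp (-x) ≤ C := by
  obtain ⟨n, hn⟩ := exists_nat_ge β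
  refine ⟨1 + n.factorial, by positivity, fun x hx => ?_⟩
  have h1 : x ^ β ≤ 1 + x ^ n := by
    rcases le_total x 1 with h | h
    · have : x ^ β ≤ 1 := Real.rpow_le_one hx h hβ
      have h2 : 0 ≤ x ^ n := by positivity
      linarith
    · have : x ^ β ≤ x ^ (n : ℝ) := Real.rpow_le_rpow_of_exponent_le h hn
      rw [Real.rpow_natCast] at this
      linarith
  have h2 : x ^ n ≤ n.factorial * Real.exp x := by
    have := Real.pow_div_factorial_le_exp x hx n
    rw [div_le_iff₀ (by positivity)] at this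
    linarith
  have h3 : Real.exp x * Real.exp (-x) = 1 := by rw [← Real.exp_add]; simp
  have h4 : Real.exp (-x) ≤ 1 := Real.exp_le_one_iff.2 (by linarith)
  have h5 : 0 < Real.exp (-x) := Real.exp_pos _
  calc x ^ β * Real.exp (-x) ≤ (1 + n.factorial * Real.exp x) * Real.exp (-x) := by
        gcongr
        linarith
    _ = Real.exp (-x) + n.factorial * (Real.exp x * Real.exp (-x)) := by ring
    _ ≤ 1 + n.factorial := by rw [h3]; linarith

theorem s9_T_bound {m : ℕ} {α : ℝ} {H : E → F} (hH : s9H m α H) :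
    ∃ C : ℝ, 0 ≤ C ∧ ∀ k : E, k ≠ 0 → ‖s9T H k‖ ≤ C * ‖k‖ ^ α := by
  obtain ⟨M, hM0, hM⟩ := s9_hom_bound hH
  refine ⟨M, hM0, fun k hk => ?_⟩
  have hk' : 0 < ‖k‖ := norm_pos_iff.2 hk
  rw [s9T, if_neg hk, norm_smul, Real.norm_of_nonneg (Real.exp_pos _).le]
  have h4 : Real.exp (-‖k‖) ≤ 1 := Real.exp_le_one_iff.2 (by linarith)
  calc Real.exp (-‖k‖) * ‖H k‖ ≤ 1 * ‖H k‖ := by gcongr
    _ = ‖H k‖ := one_mul _
    _ ≤ _ := hM k hk

theorem s9_T_decay {m : ℕ} {α : ℝ} (hα : 0 ≤ α) {H : E → F} (hH : s9H m α H) (r : ℕ) :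
    ∃ C : ℝ, ∀ k : E, ‖k‖ ^ r * ‖s9T H k‖ ≤ C := by
  obtain ⟨M, hM0, hM⟩ := s9_hom_bound hH
  obtain ⟨C, hC0, hC⟩ := s9_real_bound (β := α + r) (by positivity)
  refine ⟨C * M, fun k => ?_⟩
  rcases eq_or_ne k 0 with h | h
  · rw [h, s9_T_zero]; simp; positivity
  · have hk' : 0 < ‖k‖ := norm_pos_iff.2 h
    rw [s9T, if_neg h, norm_smul, Real.norm_of_nonneg (Real.exp_pos _).le]
    calc ‖k‖ ^ r * (Real.exp (-‖k‖) * ‖H k‖)
        ≤ ‖k‖ ^ r * (Real.exp (-‖k‖) * (M * ‖k‖ ^ α)) := by gcongr; exact hM k h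
      _ = (‖k‖ ^ (α + r) * Real.exp (-‖k‖)) * M := by
          rw [Real.rpow_add hk', Real.rpow_natCast]; ring
      _ ≤ C * M := by gcongr; exact hC _ hk'.le

theorem s9_T_bigO {m : ℕ} {α : ℝ} (H : E → F) (hH : s9H m α H) :
    s9T H =O[𝓝 (0 : E)] fun x => ‖x‖ ^ α := by
  obtain ⟨C, hC0, hC⟩ := s9_T_bound hH
  refine Asymptotics.IsBigO.of_bound C (Eventually.of_forall fun k => ?_)
  rcases eq_or_ne k 0 with h | h
  · rw [h, s9_T_zero]; simp; positivity
  · rw [Real.norm_of_nonneg (by positivity)]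
    exact hC k h

theorem s9_T_cont_zero {m : ℕ} {α : ℝ} (hα : 0 < α) {H : E → F} (hH : s9H m α H) :
    ContinuousAt (s9T H) 0 := by
  have h1 := s9_T_bigO H hH
  have h2 : Tendsto (fun x : E => ‖x‖ ^ α) (𝓝 0) (𝓝 0) := by
    have : ContinuousAt (fun x : E => ‖x‖ ^ α) 0 :=
      continuous_norm.continuousAt.rpow_const (Or.inr hα.le)
    have h3 := this.tendsto
    simpa [Real.zero_rpow hα.ne'] using h3
  have h3 := h1.trans_tendsto h2
  rw [ContinuousAt, s9_T_zero]
  exact h3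

theorem s9_T_deriv_zero {m : ℕ} {α : ℝ} (hα : 1 < α) {H : E → F} (hH : s9H m α H) :
    HasFDerivAt (s9T H) (0 : E →L[ℝ] F) 0 := by
  rw [hasFDerivAt_iff_isLittleO_nhds_zero]
  have h1 := s9_T_bigO H hH
  have h2 : (fun x : E => ‖x‖ ^ α) =o[𝓝 (0 : E)] fun x : E => x := by
    rw [← Asymptotics.isLittleO_norm_right]
    rw [Asymptotics.isLittleO_iff]
    intro c hc
    have h3 : Tendsto (fun x : E => ‖x‖ ^ (α - 1)) (𝓝 0) (𝓝 0) := by
      have : ContinuousAt (fun x : E => ‖x‖ ^ (α - 1)) 0 :=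
        continuous_norm.continuousAt.rpow_const (Or.inr (by linarith))
      have h3 := this.tendsto
      simpa [Real.zero_rpow (by linarith : α - 1 ≠ 0)] using h3
    filter_upwards [h3.eventually_le_const hc] with x hx
    rcases eq_or_ne x 0 with h | h
    · rw [h]; simp [Real.zero_rpow (by linarith : α ≠ 0)]
    · have hx' : 0 < ‖x‖ := norm_pos_iff.2 h
      rw [Real.norm_of_nonneg (by positivity), norm_norm]
      calc ‖x‖ ^ α = ‖x‖ ^ (α - 1) * ‖x‖ := by
            rw [Real.rpow_sub_one hx'.ne']; field_simp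
        _ ≤ c * ‖x‖ := by gcongr
  have h3 := h1.trans_isLittleO h2
  simpa [s9_T_zero] using h3

/-- `k ↦ -‖k‖⁻¹ ⟨k, ·⟩ ⊗ H(k)`. -/
noncomputable def s9G (H : E → F) (k : E) : E →L[ℝ] F :=
  (innerSL ℝ k).smulRight ((-‖k‖⁻¹) • H k)

theorem s9_G_hom {m : ℕ} {α : ℝ} {H : E → F} (hH : s9H m α H) : s9H m α (s9G H) where
  smooth := by
    unfold s9G
    refine ContDiffOn.smulRight ?_ ?_
    · exact (innerSL ℝ (E := E)).contDiff.contDiffOn
    · refine ContDiffOn.smul ?_ hH.smooth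
      refine ContDiffOn.neg (ContDiffOn.inv ?_ ?_)
      · intro x hx
        exact (contDiffAt_norm ℝ hx).contDiffWithinAt
      · intro x hx
        exact norm_ne_zero_iff.2 hx
  hom := by
    intro r hr k hk
    unfold s9G
    ext v
    have hk' : ‖k‖ ≠ 0 := norm_ne_zero_iff.2 hk
    rw [hH.hom r hr k hk]
    simp only [ContinuousLinearMap.smulRight_apply, innerSL_apply_apply, _root_.smul_apply,
      inner_smul_left, smul_smul, norm_smul, Real.norm_of_nonneg hr.le, conj_trivial]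
    congr 1
    field_simp

theorem s9_D_hom {m : ℕ} {α : ℝ} {H : E → F} (hH : s9H (m + 1) α H) :
    s9H m (α - 1) (fderiv ℝ H) where
  smooth := by
    refine hH.smooth.fderiv_of_isOpen isOpen_compl_singleton ?_
    push_cast
    exact le_rfl
  hom := by
    intro r hr k hk
    have hrk : r • k ≠ 0 := smul_ne_zero hr.ne' hk
    have hd : ∀ x : E, x ≠ 0 → DifferentiableAt ℝ H x := fun x hx =>
      (hH.smooth.contDiffAt (isOpen_compl_singleton.mem_nhds hx)).differentiableAt
        (by simp)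
    have h1 : HasFDerivAt (fun x : E => H (r • x)) ((fderiv ℝ H (r • k)).comp
        (r • ContinuousLinearMap.id ℝ E)) k := by
      have h2 : HasFDerivAt (fun x : E => r • x) (r • ContinuousLinearMap.id ℝ E) k :=
        (hasFDerivAt_id k).const_smul r
      exact (hd _ hrk).hasFDerivAt.comp k h2
    have h3 : HasFDerivAt (fun x : E => H (r • x)) (r ^ α • fderiv ℝ H k) k := by
      have h4 : HasFDerivAt (fun x : E => r ^ α • H x) (r ^ α • fderiv ℝ H k) k :=
        (hd _ hk).hasFDerivAt.const_smul _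
      refine h4.congr_of_eventuallyEq ?_
      filter_upwards [isOpen_compl_singleton.mem_nhds hk] with x hx
      exact hH.hom r hr x hx
    have h5 := h1.unique h3
    have h6 : r • fderiv ℝ H (r • k) = r ^ α • fderiv ℝ H k := by
      rw [← h5]
      ext v
      simp
    rw [Real.rpow_sub_one hr.ne']
    calc fderiv ℝ H (r • k) = r⁻¹ • (r • fderiv ℝ H (r • k)) := by
          rw [smul_smul, inv_mul_cancel₀ hr.ne', one_smul]
      _ = (r ^ α / r) • fderiv ℝ H k := by rw [h6, smul_smul]; congr 1; field_simp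

/-- The derivative. -/
theorem s9_T_deriv {m : ℕ} {α : ℝ} (hα : 1 < α) {H : E → F} (hH : s9H (m + 1) α H) :
    fderiv ℝ (s9T H) = s9T (s9G H) + s9T (fderiv ℝ H) := by
  funext k
  rcases eq_or_ne k 0 with h | hk
  · rw [h, (s9_T_deriv_zero hα hH).fderiv]
    simp [s9_T_zero]
  · have hk' : 0 < ‖k‖ := norm_pos_iff.2 hk
    have hd : DifferentiableAt ℝ H k :=
      (hH.smooth.contDiffAt (isOpen_compl_singleton.mem_nhds hk)).differentiableAt (by simp)
    have hnorm : HasFDerivAt (fun x : E => ‖x‖) (‖k‖⁻¹ • innerSL ℝ k) k := by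
      have h1 : HasFDerivAt (fun x : E => ‖x‖ ^ 2) (2 • innerSL ℝ k) k := by
        have := (hasFDerivAt_id k).norm_sq
        simpa using this
      have h2 := h1.sqrt (by positivity)
      have h3 : (fun x : E => Real.sqrt (‖x‖ ^ 2)) = fun x => ‖x‖ := by
        funext x
        rw [Real.sqrt_sq (norm_nonneg _)]
      rw [h3] at h2
      refine h2.congr_fderiv ?_
      ext v
      simp
      ring
    have h4 : HasFDerivAt (fun x : E => Real.exp (-‖x‖))
        (Real.exp (-‖k‖) • -(‖k‖⁻¹ • innerSL ℝ k)) k := (hnorm.neg).exp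
    have h5 := h4.fun_smul hd.hasFDerivAt
    have h6 : s9T H =ᶠ[𝓝 k] fun x : E => Real.exp (-‖x‖) • H x := by
      filter_upwards [isOpen_compl_singleton.mem_nhds hk] with x hx
      have hx0 : x ≠ 0 := hx
      rw [s9T, if_neg hx0]
    rw [h6.fderiv_eq, h5.fderiv]
    simp only [Pi.add_apply, s9T, if_neg hk, s9G]
    ext v
    simp only [_root_.add_apply, _root_.smul_apply, _root_.neg_apply,
      ContinuousLinearMap.smulRight_apply, innerSL_apply_apply, smul_smul]
    module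

theorem s9_main (n : ℕ) : ∀ (F : Type) [NormedAddCommGroup F] [NormedSpace ℝ F] (α : ℝ)
    (H : E → F), (n : ℝ) < α → s9H n α H → ContDiff ℝ n (s9T H) ∧
      ∀ r : ℕ, ∃ C : ℝ, ∀ k, ‖k‖ ^ r * ‖iteratedFDeriv ℝ n (s9T H) k‖ ≤ C := by
  induction n with
  | zero =>
    intro F _ _ α H hα hH
    have hα' : 0 < α := by simpa using hα
    refine ⟨?_, fun m => ?_⟩
    · rw [Nat.cast_zero, contDiff_zero, continuous_iff_continuousAt]
      intro k
      rcases eq_or_ne k 0 with h | hk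
      · rw [h]; exact s9_T_cont_zero hα' hH
      · have h6 : s9T H =ᶠ[𝓝 k] fun x : E => Real.exp (-‖x‖) • H x := by
          filter_upwards [isOpen_compl_singleton.mem_nhds hk] with x hx
          have hx0 : x ≠ 0 := hx
          rw [s9T, if_neg hx0]
        refine ContinuousAt.congr ?_ h6.symm
        have hHc : ContinuousAt H k :=
          hH.smooth.continuousOn.continuousAt (isOpen_compl_singleton.mem_nhds hk)
        exact (continuous_norm.continuousAt.neg.rexp).smul hHc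
    · obtain ⟨C, hC⟩ := s9_T_decay hα'.le hH m
      refine ⟨C, fun k => ?_⟩
      rw [norm_iteratedFDeriv_zero]
      exact hC k
  | succ n ih =>
    intro F _ _ α H hα hH
    push_cast at hα
    have hn0 : (0 : ℝ) ≤ n := Nat.cast_nonneg n
    have hα1 : 1 < α := by linarith
    have hdiff : Differentiable ℝ (s9T H) := by
      intro k
      rcases eq_or_ne k 0 with h | hk
      · rw [h]; exact (s9_T_deriv_zero hα1 hH).differentiableAt
      · have h6 : s9T H =ᶠ[𝓝 k] fun x : E => Real.exp (-‖x‖) • H x := by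
          filter_upwards [isOpen_compl_singleton.mem_nhds hk] with x hx
          have hx0 : x ≠ 0 := hx
          rw [s9T, if_neg hx0]
        refine DifferentiableAt.congr_of_eventuallyEq ?_ h6
        have hHd : DifferentiableAt ℝ H k :=
          (hH.smooth.contDiffAt (isOpen_compl_singleton.mem_nhds hk)).differentiableAt (by simp)
        have e1 : DifferentiableAt ℝ (fun x : E => -‖x‖) k := (differentiableAt_id.norm ℝ hk).fun_neg
        exact (e1.exp).fun_smul hHd
    obtain ⟨a1, b1⟩ := ih (E →L[ℝ] F) α _ (by linarith) (s9_mono (Nat.le_succ n) (s9_G_hom hH))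
    obtain ⟨a2, b2⟩ := ih (E →L[ℝ] F) (α - 1) _ (by linarith) (s9_D_hom hH)
    refine ⟨?_, fun m => ?_⟩
    · rw [Nat.cast_add, Nat.cast_one, contDiff_succ_iff_fderiv]
      refine ⟨hdiff, by simp, ?_⟩
      rw [s9_T_deriv hα1 hH]
      exact a1.add a2
    · obtain ⟨C1, hC1⟩ := b1 m
      obtain ⟨C2, hC2⟩ := b2 m
      refine ⟨C1 + C2, fun k => ?_⟩
      rw [← norm_iteratedFDeriv_fderiv, s9_T_deriv hα1 hH, iteratedFDeriv_add a1 a2]
      calc ‖k‖ ^ m * ‖_‖ ≤ ‖k‖ ^ m * (‖iteratedFDeriv ℝ n (s9T (s9G H)) k‖ +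
            ‖iteratedFDeriv ℝ n (s9T (fderiv ℝ H)) k‖) := by
            gcongr
            exact norm_add_le _ _
        _ ≤ C1 + C2 := by
            rw [mul_add]
            exact add_le_add (hC1 k) (hC2 k)

end H19aux

theorem s9_maxpow (n : ℕ) : ContDiff ℝ n (fun x : ℝ => (max x 0) ^ (n + 1)) := by
  induction n with
  | zero =>
    rw [Nat.cast_zero, contDiff_zero]
    fun_prop
  | succ n ih =>
    have hd : ∀ x : ℝ, HasDerivAt (fun x : ℝ => (max x 0) ^ (n + 2)) ((n + 2) * (max x 0) ^ (n + 1)) x := by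
      intro x
      rcases lt_trichotomy x 0 with h | h | h
      · have h1 : (fun x : ℝ => (max x 0) ^ (n + 2)) =ᶠ[𝓝 x] fun _ => 0 := by
          filter_upwards [Iio_mem_nhds h] with y hy
          rw [max_eq_right (le_of_lt hy)]; simp
        rw [max_eq_right h.le]
        refine HasDerivAt.congr_of_eventuallyEq ?_ h1
        simpa using hasDerivAt_const x (0 : ℝ)
      · subst h
        rw [max_self, zero_pow (by omega), mul_zero]
        rw [hasDerivAt_iff_hasFDerivAt]
        have h2 : (fun x : ℝ => (max x 0) ^ (n + 2)) =O[𝓝 (0 : ℝ)] fun x => ‖x - 0‖ ^ (n + 2) := by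
          refine Asymptotics.IsBigO.of_bound 1 (Eventually.of_forall fun y => ?_)
          rw [sub_zero, one_mul, norm_pow, norm_pow, norm_norm]
          gcongr
          rw [Real.norm_eq_abs, Real.norm_eq_abs]
          rcases le_total y 0 with hy | hy
          · rw [max_eq_right hy]; simp
          · rw [max_eq_left hy]
        have h3 := h2.hasFDerivAt (𝕜 := ℝ) (by omega)
        refine h3.congr_fderiv ?_
        ext
        simp
      · have h1 : (fun x : ℝ => (max x 0) ^ (n + 2)) =ᶠ[𝓝 x] fun x => x ^ (n + 2) := by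
          filter_upwards [Ioi_mem_nhds h] with y hy
          rw [max_eq_left (le_of_lt hy)]
        rw [max_eq_left h.le]
        refine HasDerivAt.congr_of_eventuallyEq ?_ h1
        refine (hasDerivAt_pow (n + 2) x).congr_deriv ?_
        push_cast
        simp
    rw [Nat.cast_add, Nat.cast_one, contDiff_succ_iff_deriv]
    refine ⟨fun x => (hd x).differentiableAt, by simp, ?_⟩
    have : deriv (fun x : ℝ => (max x 0) ^ (n + 2)) =
        fun x : ℝ => (((n : ℝ) + 2) * (max x 0) ^ (n + 1)) :=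
      funext fun x => (hd x).deriv
    rw [show n + 1 + 1 = n + 2 from rfl, this]
    exact contDiff_const.mul ih

theorem s9_k2 (k : E) : ‖k‖ ^ 2 = k 0 ^ 2 + k 1 ^ 2 + k 2 ^ 2 := by
  rw [EuclideanSpace.norm_sq_eq, Fin.sum_univ_three]
  simp [sq_abs]

/-- `E₊`. -/
noncomputable def s9E (η : ℝ) (k : E) : ℝ := max (η ^ 2 * ‖k‖ ^ 2 - k 2 ^ 2) 0

theorem s9_ee (η : ℝ) (N : ℕ) (k : E) : ee η k ^ (2 * N + 3 + 1) = s9E η k ^ (N + 2) := by
  have h1 : ee η k ^ 2 = s9E η k := by
    unfold ee s9E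
    rcases le_total (η ^ 2 * ‖k‖ ^ 2 - k 2 ^ 2) 0 with h | h
    · rw [Real.sqrt_eq_zero_of_nonpos h, max_eq_right h]; simp
    · rw [Real.sq_sqrt h, max_eq_left h]
  rw [show 2 * N + 3 + 1 = 2 * (N + 2) by ring, pow_mul, h1]

theorem s9_coord (i : Fin 3) {n : WithTop ℕ∞} : ContDiff ℝ n (fun k : E => k i) := by
  exact (EuclideanSpace.proj (𝕜 := ℝ) i : E →L[ℝ] ℝ).contDiff

theorem s9_E_smooth (η : ℝ) (N : ℕ) : ContDiff ℝ N (fun k : E => s9E η k ^ (N + 2)) := by
  have h1 : ContDiff ℝ N (fun x : ℝ => (max x 0) ^ (N + 2)) :=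
    (s9_maxpow (N + 1)).of_le (by norm_cast; omega)
  have h2 : ContDiff ℝ N (fun k : E => η ^ 2 * ‖k‖ ^ 2 - k 2 ^ 2) :=
    (contDiff_const.mul (contDiff_norm_sq ℝ)).sub ((s9_coord 2).pow 2)
  exact h1.comp h2

/-- `toW` as a linear map. -/
noncomputable def s9L : E →L[ℝ] W :=
  LinearMap.toContinuousLinearMap
    { toFun := toW
      map_add' := by
        intro x y
        ext j
        simp [toW]
      map_smul' := by
        intro r x
        ext j
        simp [toW] }

theorem s9_L (k : E) : s9L k = toW k := rfl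

theorem s9_vt_smooth {k : E} (hk : k 0 ^ 2 + k 1 ^ 2 ≠ 0) {n : WithTop ℕ∞} : ContDiffAt ℝ n vt k := by
  have h1 : ContDiffAt ℝ n (fun x : E => (Real.sqrt (x 0 ^ 2 + x 1 ^ 2))⁻¹) k := by
    refine ContDiffAt.inv ?_ ?_
    · refine ContDiffAt.sqrt ?_ hk
      exact (((s9_coord 0).pow 2).add ((s9_coord 1).pow 2)).contDiffAt
    · refine Real.sqrt_ne_zero'.2 ?_
      have : 0 ≤ k 0 ^ 2 + k 1 ^ 2 := by positivity
      exact lt_of_le_of_ne this (Ne.symm hk)
  have h2 : ContDiff ℝ n (fun x : E => (!₂[-x 1, x 0, 0] : E)) := by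
    rw [contDiff_euclidean]
    intro i
    fin_cases i
    · simpa using (s9_coord 1).neg
    · simpa using (s9_coord 0)
    · simpa using contDiff_const
  exact h1.smul h2.contDiffAt

/-- The homogeneous part. -/
noncomputable def s9P (N : ℕ) (η : ℝ) (k : E) : W :=
  (‖k‖ ^ 2 * s9E η k ^ (N + 2)) • (Complex.I • toW (vt k))

theorem s9_P_prn (N : ℕ) (η : ℝ) : prn (2 * N + 3) η = s9T (s9P N η) := by
  funext k
  unfold s9T s9P prn wfn
  rw [s9_ee]
  split_ifs with h
  · rw [h]; simp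
  · ext j
    simp only [PiLp.smul_apply, smul_eq_mul, Complex.real_smul]
    push_cast
    ring

theorem s9_E_hom {η r : ℝ} (hr : 0 < r) (k : E) : s9E η (r • k) = r ^ 2 * s9E η k := by
  unfold s9E
  rw [norm_smul, Real.norm_of_nonneg hr.le, PiLp.smul_apply, smul_eq_mul, mul_max_of_nonneg _ _ (by positivity)]
  congr 1
  · ring
  · ring

theorem s9_P_hom (N : ℕ) {η : ℝ} (hη : 0 < η) (hη1 : η < 1) : s9H N (2 * N + 6) (s9P N η) where
  smooth := by
    intro k hk
    have hk0 : k ≠ 0 := hk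
    refine ContDiffAt.contDiffWithinAt ?_
    by_cases h : k 0 ^ 2 + k 1 ^ 2 = 0
    · have hk2 : k 2 ≠ 0 := by
        intro h2
        apply hk0
        have h3 := s9_k2 k
        rw [h, h2] at h3
        have : ‖k‖ = 0 := by
          have : ‖k‖ ^ 2 = 0 := by rw [h3]; ring
          exact pow_eq_zero_iff (two_ne_zero) |>.1 this
        exact norm_eq_zero.1 this
      have h4 : η ^ 2 * ‖k‖ ^ 2 - k 2 ^ 2 < 0 := by
        rw [s9_k2, h, zero_add]
        have h5 : 0 < k 2 ^ 2 := by positivity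
        have h6 : η ^ 2 < 1 := by nlinarith
        nlinarith
      have hc : Continuous (fun x : E => η ^ 2 * ‖x‖ ^ 2 - x 2 ^ 2) := by
        have h2 : ContDiff ℝ 0 (fun k : E => η ^ 2 * ‖k‖ ^ 2 - k 2 ^ 2) :=
          (contDiff_const.mul (contDiff_norm_sq ℝ)).sub ((s9_coord 2).pow 2)
        exact h2.continuous
      have h7 : s9P N η =ᶠ[𝓝 k] fun _ => 0 := by
        filter_upwards [hc.continuousAt.eventually_lt continuousAt_const h4] with x hx
        unfold s9P s9E
        rw [max_eq_right hx.le]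
        simp
      exact contDiffAt_const.congr_of_eventuallyEq h7
    · have h1 : ContDiffAt ℝ N (fun x : E => s9L (vt x)) k :=
        s9L.contDiff.contDiffAt.comp k (s9_vt_smooth h)
      have h2 : ContDiffAt ℝ N (fun k : E => ‖k‖ ^ 2 * s9E η k ^ (N + 2)) k :=
        ((contDiff_norm_sq ℝ).mul (s9_E_smooth η N)).contDiffAt
      have h3 : ContDiffAt ℝ N (fun x : E => Complex.I • s9L (vt x)) k :=
        h1.const_smul Complex.I
      exact h2.smul h3
  hom := by
    intro r hr k hk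
    unfold s9P
    rw [s9_E_hom hr, vt_smul hr, norm_smul, Real.norm_of_nonneg hr.le, smul_smul]
    congr 1
    have : r ^ (2 * (N : ℝ) + 6) = r ^ (2 * N + 6) := by
      rw [← Real.rpow_natCast]; push_cast; rfl
    rw [this]
    ring

/-- TARGET -/
theorem prn_reg (N : ℕ) {η : ℝ} (hη : 0 < η) (hη1 : η < 1) :
    ContDiff ℝ N (prn (2 * N + 3) η) ∧ ∀ i ≤ N, ∀ r : ℕ, ∃ C : ℝ, ∀ k : E,
      ‖k‖ ^ r * ‖iteratedFDeriv ℝ i (prn (2 * N + 3) η) k‖ ≤ C := by
  rw [s9_P_prn]
  have h0 := s9_P_hom N hη hη1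
  have hN : (0 : ℝ) ≤ N := Nat.cast_nonneg N
  refine ⟨(s9_main N W _ _ (by linarith) h0).1, fun i hi r => ?_⟩
  have hi' : (i : ℝ) ≤ N := by exact_mod_cast hi
  exact (s9_main i W (2 * N + 6) _ (by linarith) (s9_mono hi h0)).2 r

end H706N.JH19

namespace H706N

alias prn_reg := JH19.prn_reg

end H706N
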