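import Pool.Agent.Helper706_NS.Defs2

set_option autoImplicit false
open Set Filter Topology MeasureTheory
open scoped ComplexConjugate ContDiff

namespace H706N.JS1

/-! ### Auxiliary lemmas for the target -/

section S1aux

universe u

variable {F : Type} [NormedAddCommGroup F] [NormedSpace ℝ F]

/-- `exp(-(log‖k‖)²/2) (log‖k‖)^b H(k)`, extended by zero. -/
noncomputable def s1T (b : ℕ) (H : E → F) (k : E) : F :=
  if k = 0 then 0 else
    (Real.exp (-(Real.log ‖k‖) ^ 2 / 2) * (Real.log ‖k‖) ^ b) • H k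

/-- Smooth homogeneous functions of degree `α`. -/
structure s1H (α : ℝ) (H : E → F) : Prop where
  smooth : ContDiffOn ℝ ∞ H {0}ᶜ
  hom : ∀ r : ℝ, 0 < r → ∀ k : E, k ≠ 0 → H (r • k) = r ^ α • H k

theorem s1_real_bound (b : ℕ) (β : ℝ) : ∃ C : ℝ, 0 ≤ C ∧ ∀ L : ℝ,
    Real.exp (-L ^ 2 / 2) * |L| ^ b ≤ C * Real.exp (β * L) := by
  refine ⟨b.factorial * Real.exp ((|β| + 1) ^ 2 / 2), by positivity, fun L => ?_⟩
  have h1 : |L| ^ b ≤ b.factorial * Real.exp |L| := by
    have := Real.pow_div_factorial_le_exp |L| (abs_nonneg L) b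
    rw [div_le_iff₀ (by positivity)] at this
    linarith
  have h2 : Real.exp (-L ^ 2 / 2) * Real.exp |L| ≤
      Real.exp ((|β| + 1) ^ 2 / 2) * Real.exp (β * L) := by
    rw [← Real.exp_add, ← Real.exp_add]
    apply Real.exp_le_exp.2
    have h3 : -(|β| * |L|) ≤ β * L := by
      have := neg_abs_le (β * L)
      rwa [abs_mul] at this
    have h4 : L ^ 2 = |L| ^ 2 := (sq_abs L).symm
    rw [h4]
    nlinarith [sq_nonneg (|L| - (|β| + 1))]
  calc Real.exp (-L ^ 2 / 2) * |L| ^ b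
      ≤ Real.exp (-L ^ 2 / 2) * (b.factorial * Real.exp |L|) := by gcongr
    _ = b.factorial * (Real.exp (-L ^ 2 / 2) * Real.exp |L|) := by ring
    _ ≤ b.factorial * (Real.exp ((|β| + 1) ^ 2 / 2) * Real.exp (β * L)) := by gcongr
    _ = _ := by ring

theorem s1_hom_bound {α : ℝ} {H : E → F} (hH : s1H α H) :
    ∃ M : ℝ, 0 ≤ M ∧ ∀ k : E, k ≠ 0 → ‖H k‖ ≤ M * ‖k‖ ^ α := by
  have hc : IsCompact (Metric.sphere (0 : E) 1) := isCompact_sphere _ _
  have hcont : ContinuousOn H (Metric.sphere (0 : E) 1) :=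
    hH.smooth.continuousOn.mono (by
      intro x hx
      rw [mem_sphere_zero_iff_norm] at hx
      intro h0
      rw [Set.mem_singleton_iff] at h0
      rw [h0, norm_zero] at hx
      exact zero_ne_one hx)
  obtain ⟨M, hM⟩ := hc.exists_bound_of_continuousOn hcont
  refine ⟨max M 0, le_max_right _ _, fun k hk => ?_⟩
  have hk' : 0 < ‖k‖ := norm_pos_iff.2 hk
  have h1 : (‖k‖⁻¹ • k) ∈ Metric.sphere (0 : E) 1 := by
    rw [mem_sphere_zero_iff_norm, norm_smul, norm_inv, norm_norm, inv_mul_cancel₀ hk'.ne']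
  have h2 : H k = ‖k‖ ^ α • H (‖k‖⁻¹ • k) := by
    rw [← hH.hom ‖k‖ hk' _ (smul_ne_zero (inv_ne_zero hk'.ne') hk), smul_smul,
      mul_inv_cancel₀ hk'.ne', one_smul]
  rw [h2, norm_smul, Real.norm_of_nonneg (Real.rpow_nonneg hk'.le _), mul_comm]
  gcongr
  exact (hM _ h1).trans (le_max_left _ _)

theorem s1_T_bound (b : ℕ) {α : ℝ} {H : E → F} (hH : s1H α H) (β : ℝ) :
    ∃ C : ℝ, 0 ≤ C ∧ ∀ k : E, k ≠ 0 → ‖s1T b H k‖ ≤ C * ‖k‖ ^ β := by
  obtain ⟨M, hM0, hM⟩ := s1_hom_bound hH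
  obtain ⟨C, hC0, hC⟩ := s1_real_bound b (β - α)
  refine ⟨C * M, by positivity, fun k hk => ?_⟩
  have hk' : 0 < ‖k‖ := norm_pos_iff.2 hk
  rw [s1T, if_neg hk, norm_smul, norm_mul, Real.norm_of_nonneg (Real.exp_pos _).le, norm_pow,
    Real.norm_eq_abs]
  have h1 := hC (Real.log ‖k‖)
  have h2 : Real.exp ((β - α) * Real.log ‖k‖) = ‖k‖ ^ (β - α) := by
    rw [Real.rpow_def_of_pos hk', mul_comm]
  rw [h2] at h1
  calc Real.exp (-(Real.log ‖k‖) ^ 2 / 2) * |Real.log ‖k‖| ^ b * ‖H k‖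
      ≤ (C * ‖k‖ ^ (β - α)) * (M * ‖k‖ ^ α) := by
        gcongr
        exact hM k hk
    _ = C * M * (‖k‖ ^ (β - α) * ‖k‖ ^ α) := by ring
    _ = C * M * ‖k‖ ^ β := by
        rw [← Real.rpow_add hk']; congr 2; ring

theorem s1_T_zero (b : ℕ) (H : E → F) : s1T b H 0 = 0 := by simp [s1T]

theorem s1_T_decay (b : ℕ) {α : ℝ} {H : E → F} (hH : s1H α H) (m : ℕ) :
    ∃ C : ℝ, ∀ k : E, ‖k‖ ^ m * ‖s1T b H k‖ ≤ C := by
  obtain ⟨C, hC0, hC⟩ := s1_T_bound b hH (-m)
  refine ⟨C, fun k => ?_⟩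
  rcases eq_or_ne k 0 with h | h
  · rw [h, s1_T_zero]; simpa using hC0
  · have hk' : 0 < ‖k‖ := norm_pos_iff.2 h
    have h1 := hC k h
    rw [Real.rpow_neg hk'.le, Real.rpow_natCast] at h1
    calc ‖k‖ ^ m * ‖s1T b H k‖ ≤ ‖k‖ ^ m * (C * (‖k‖ ^ m)⁻¹) := by gcongr
      _ = C := by field_simp

theorem s1_T_deriv_zero (b : ℕ) {α : ℝ} {H : E → F} (hH : s1H α H) :
    HasFDerivAt (s1T b H) (0 : E →L[ℝ] F) 0 := by
  obtain ⟨C, hC0, hC⟩ := s1_T_bound b hH 2
  have h1 : s1T b H =O[𝓝 (0 : E)] fun x => ‖x - 0‖ ^ 2 := by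
    refine Asymptotics.IsBigO.of_bound C (Eventually.of_forall fun k => ?_)
    rcases eq_or_ne k 0 with h | h
    · rw [h, s1_T_zero]; simp
    · have h2 := hC k h
      rw [sub_zero, Real.norm_of_nonneg (by positivity)]
      have h3 : ‖k‖ ^ (2 : ℝ) = ‖k‖ ^ 2 := by
        rw [← Real.rpow_natCast]; norm_num
      rwa [h3] at h2
  exact h1.hasFDerivAt (by norm_num)

/-- `k ↦ ‖k‖⁻² ⟨k, ·⟩ ⊗ H(k)`. -/
noncomputable def s1G (H : E → F) (k : E) : E →L[ℝ] F :=
  (innerSL ℝ k).smulRight ((‖k‖ ^ 2)⁻¹ • H k)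

theorem s1_G_hom {α : ℝ} {H : E → F} (hH : s1H α H) : s1H (α - 1) (s1G H) where
  smooth := by
    unfold s1G
    refine ContDiffOn.smulRight ?_ ?_
    · exact (innerSL ℝ (E := E)).contDiff.contDiffOn
    · refine ContDiffOn.smul ?_ hH.smooth
      refine ContDiffOn.inv ((contDiff_norm_sq ℝ).contDiffOn) ?_
      intro x hx
      have : ‖x‖ ≠ 0 := norm_ne_zero_iff.2 hx
      positivity
  hom := by
    intro r hr k hk
    unfold s1G
    ext v
    have hk' : ‖k‖ ≠ 0 := norm_ne_zero_iff.2 hk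
    rw [hH.hom r hr k hk]
    simp only [ContinuousLinearMap.smulRight_apply, innerSL_apply_apply, _root_.smul_apply,
      inner_smul_left, smul_smul, norm_smul, Real.norm_of_nonneg hr.le, conj_trivial]
    congr 1
    rw [Real.rpow_sub_one hr.ne']
    field_simp

theorem s1_D_hom {α : ℝ} {H : E → F} (hH : s1H α H) : s1H (α - 1) (fderiv ℝ H) where
  smooth := by
    refine hH.smooth.fderiv_of_isOpen isOpen_compl_singleton ?_
    simp
  hom := by
    intro r hr k hk
    have hrk : r • k ≠ 0 := smul_ne_zero hr.ne' hk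
    have hd : ∀ x : E, x ≠ 0 → DifferentiableAt ℝ H x := fun x hx =>
      (hH.smooth.contDiffAt (isOpen_compl_singleton.mem_nhds hx)).differentiableAt (by simp)
    have h1 : HasFDerivAt (fun x : E => H (r • x)) ((fderiv ℝ H (r • k)).comp
        (r • ContinuousLinearMap.id ℝ E)) k := by
      have h2 : HasFDerivAt (fun x : E => r • x) (r • ContinuousLinearMap.id ℝ E) k :=
        (hasFDerivAt_id k).const_smul r
      exact (hd _ hrk).hasFDerivAt.comp k h2
    have h3 : HasFDerivAt (fun x : E => H (r • x)) (r ^ α • fderiv ℝ H k) k := by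
      have h4 : HasFDerivAt (fun x : E => r ^ α • H x) (r ^ α • fderiv ℝ H k) k :=
        (hd _ hk).hasFDerivAt.const_smul _
      refine h4.congr_of_eventuallyEq ?_
      filter_upwards [isOpen_compl_singleton.mem_nhds hk] with x hx
      exact hH.hom r hr x hx
    have h5 := h1.unique h3
    have h6 : r • fderiv ℝ H (r • k) = r ^ α • fderiv ℝ H k := by
      rw [← h5]
      ext v
      simp
    rw [Real.rpow_sub_one hr.ne']
    calc fderiv ℝ H (r • k) = r⁻¹ • (r • fderiv ℝ H (r • k)) := by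
          rw [smul_smul, inv_mul_cancel₀ hr.ne', one_smul]
      _ = (r ^ α / r) • fderiv ℝ H k := by rw [h6, smul_smul]; congr 1; field_simp

theorem s1_smul_hom {α : ℝ} {H : E → F} (hH : s1H α H) (c : ℝ) : s1H α (c • H) where
  smooth := contDiffOn_const.smul hH.smooth
  hom := by
    intro r hr k hk
    rw [Pi.smul_apply, Pi.smul_apply, hH.hom r hr k hk, smul_comm]

/-- The derivative away from zero. -/
theorem s1_T_deriv (b : ℕ) {α : ℝ} {H : E → F} (hH : s1H α H) :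
    fderiv ℝ (s1T b H) = s1T (b + 1) ((-1 : ℝ) • s1G H) + s1T (b - 1) ((b : ℝ) • s1G H) +
      s1T b (fderiv ℝ H) := by
  funext k
  rcases eq_or_ne k 0 with h | hk
  · rw [h, (s1_T_deriv_zero b hH).fderiv]
    simp [s1_T_zero]
  · have hk' : 0 < ‖k‖ := norm_pos_iff.2 hk
    have hd : DifferentiableAt ℝ H k :=
      (hH.smooth.contDiffAt (isOpen_compl_singleton.mem_nhds hk)).differentiableAt (by simp)
    have hlog : HasFDerivAt (fun x : E => Real.log ‖x‖) ((‖k‖ ^ 2)⁻¹ • innerSL ℝ k) k := by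
      have h1 : HasFDerivAt (fun x : E => ‖x‖ ^ 2) (2 • innerSL ℝ k) k := by
        have := (hasFDerivAt_id k).norm_sq
        simpa using this
      have h2 := (h1.log (by positivity)).const_mul (1 / 2 : ℝ)
      have h3 : (fun x : E => (1 / 2 : ℝ) * Real.log (‖x‖ ^ 2)) = fun x => Real.log ‖x‖ := by
        funext x
        rw [Real.log_pow]; push_cast; ring
      rw [h3] at h2
      refine h2.congr_fderiv ?_
      ext v
      simp
      ring
    have hsc : HasDerivAt (fun L : ℝ => Real.exp (-L ^ 2 / 2) * L ^ b)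
        (Real.exp (-(Real.log ‖k‖) ^ 2 / 2) * (-(Real.log ‖k‖) ^ (b + 1) +
          b * (Real.log ‖k‖) ^ (b - 1))) (Real.log ‖k‖) := by
      have h1 : HasDerivAt (fun L : ℝ => -L ^ 2 / 2) (-Real.log ‖k‖) (Real.log ‖k‖) := by
        have := ((hasDerivAt_pow 2 (Real.log ‖k‖)).neg).div_const 2
        refine this.congr_deriv ?_
        simp
        ring
      have h2 := h1.exp.mul (hasDerivAt_pow b (Real.log ‖k‖))
      refine h2.congr_deriv ?_
      ring
    have h4 : HasFDerivAt (fun x : E => Real.exp (-(Real.log ‖x‖) ^ 2 / 2) * (Real.log ‖x‖) ^ b)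
        ((Real.exp (-(Real.log ‖k‖) ^ 2 / 2) * (-(Real.log ‖k‖) ^ (b + 1) +
          b * (Real.log ‖k‖) ^ (b - 1))) • ((‖k‖ ^ 2)⁻¹ • innerSL ℝ k)) k :=
      HasDerivAt.comp_hasFDerivAt (f := fun x : E => Real.log ‖x‖) k hsc hlog
    have h5 := h4.fun_smul hd.hasFDerivAt
    have h6 : s1T b H =ᶠ[𝓝 k] fun x : E =>
        (Real.exp (-(Real.log ‖x‖) ^ 2 / 2) * (Real.log ‖x‖) ^ b) • H x := by
      filter_upwards [isOpen_compl_singleton.mem_nhds hk] with x hx
      have hx0 : x ≠ 0 := hx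
      rw [s1T, if_neg hx0]
    rw [h6.fderiv_eq, h5.fderiv]
    simp only [Pi.add_apply, s1T, if_neg hk, s1G, Pi.smul_apply]
    ext v
    simp only [_root_.add_apply, _root_.smul_apply,
      ContinuousLinearMap.smulRight_apply, innerSL_apply_apply, smul_smul]
    module

theorem s1_main (n : ℕ) : ∀ (F : Type) [NormedAddCommGroup F] [NormedSpace ℝ F] (b : ℕ) (α : ℝ)
    (H : E → F), s1H α H → ContDiff ℝ n (s1T b H) ∧
      ∀ m : ℕ, ∃ C : ℝ, ∀ k, ‖k‖ ^ m * ‖iteratedFDeriv ℝ n (s1T b H) k‖ ≤ C := by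
  induction n with
  | zero =>
    intro F _ _ b α H hH
    refine ⟨?_, fun m => ?_⟩
    · rw [Nat.cast_zero, contDiff_zero, continuous_iff_continuousAt]
      intro k
      rcases eq_or_ne k 0 with h | hk
      · rw [h]; exact (s1_T_deriv_zero b hH).continuousAt
      · have h6 : s1T b H =ᶠ[𝓝 k] fun x : E =>
            (Real.exp (-(Real.log ‖x‖) ^ 2 / 2) * (Real.log ‖x‖) ^ b) • H x := by
          filter_upwards [isOpen_compl_singleton.mem_nhds hk] with x hx
          have hx0 : x ≠ 0 := hx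
          rw [s1T, if_neg hx0]
        refine ContinuousAt.congr ?_ h6.symm
        have hlog : ContinuousAt (fun x : E => Real.log ‖x‖) k :=
          continuous_norm.continuousAt.log (norm_ne_zero_iff.2 hk)
        have hHc : ContinuousAt H k :=
          hH.smooth.continuousOn.continuousAt (isOpen_compl_singleton.mem_nhds hk)
        exact (((hlog.pow 2).neg.div_const 2).rexp.mul (hlog.pow b)).smul hHc
    · obtain ⟨C, hC⟩ := s1_T_decay b hH m
      refine ⟨C, fun k => ?_⟩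
      rw [norm_iteratedFDeriv_zero]
      exact hC k
  | succ n ih =>
    intro F _ _ b α H hH
    have hdiff : Differentiable ℝ (s1T b H) := by
      intro k
      rcases eq_or_ne k 0 with h | hk
      · rw [h]; exact (s1_T_deriv_zero b hH).differentiableAt
      · have h6 : s1T b H =ᶠ[𝓝 k] fun x : E =>
            (Real.exp (-(Real.log ‖x‖) ^ 2 / 2) * (Real.log ‖x‖) ^ b) • H x := by
          filter_upwards [isOpen_compl_singleton.mem_nhds hk] with x hx
          have hx0 : x ≠ 0 := hx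
          rw [s1T, if_neg hx0]
        refine DifferentiableAt.congr_of_eventuallyEq ?_ h6
        have hlog : DifferentiableAt ℝ (fun x : E => Real.log ‖x‖) k :=
          (differentiableAt_id.norm ℝ hk).log (norm_ne_zero_iff.2 hk)
        have hHd : DifferentiableAt ℝ H k :=
          (hH.smooth.contDiffAt (isOpen_compl_singleton.mem_nhds hk)).differentiableAt (by simp)
        have e1 : DifferentiableAt ℝ (fun x : E => -(Real.log ‖x‖) ^ 2 / 2) k := by
          have e0 : DifferentiableAt ℝ (fun L : ℝ => -L ^ 2 / 2) (Real.log ‖k‖) := by fun_prop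
          exact e0.comp k hlog
        have e2 : DifferentiableAt ℝ (fun x : E => (Real.log ‖x‖) ^ b) k := hlog.fun_pow b
        exact (e1.exp.fun_mul e2).fun_smul hHd
    have hG := s1_G_hom hH
    obtain ⟨a1, b1⟩ := ih (E →L[ℝ] F) (b + 1) (α - 1) _ (s1_smul_hom hG (-1))
    obtain ⟨a2, b2⟩ := ih (E →L[ℝ] F) (b - 1) (α - 1) _ (s1_smul_hom hG (b : ℝ))
    obtain ⟨a3, b3⟩ := ih (E →L[ℝ] F) b (α - 1) _ (s1_D_hom hH)
    refine ⟨?_, fun m => ?_⟩
    · rw [Nat.cast_add, Nat.cast_one, contDiff_succ_iff_fderiv]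
      refine ⟨hdiff, by simp, ?_⟩
      rw [s1_T_deriv b hH]
      exact (a1.add a2).add a3
    · obtain ⟨C1, hC1⟩ := b1 m
      obtain ⟨C2, hC2⟩ := b2 m
      obtain ⟨C3, hC3⟩ := b3 m
      refine ⟨C1 + C2 + C3, fun k => ?_⟩
      have a12 : ContDiff ℝ n (s1T (b + 1) ((-1 : ℝ) • s1G H) + s1T (b - 1) ((b : ℝ) • s1G H)) :=
        a1.add a2
      rw [← norm_iteratedFDeriv_fderiv, s1_T_deriv b hH, iteratedFDeriv_add a12 a3,
        iteratedFDeriv_add a1 a2]
      calc ‖k‖ ^ m * ‖_‖ ≤ ‖k‖ ^ m * (‖iteratedFDeriv ℝ n (s1T (b + 1) ((-1 : ℝ) • s1G H)) k‖ +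
            ‖iteratedFDeriv ℝ n (s1T (b - 1) ((b : ℝ) • s1G H)) k‖ +
            ‖iteratedFDeriv ℝ n (s1T b (fderiv ℝ H)) k‖) := by
            gcongr
            exact norm_add₃_le
        _ ≤ C1 + C2 + C3 := by
            rw [mul_add, mul_add]
            exact add_le_add (add_le_add (hC1 k) (hC2 k)) (hC3 k)

end S1aux

/-- TARGET -/
theorem schw1 {c cV : ℝ} {V : E → W} (hV : Ang c cV V) :
    ∃ ψ : SchwartzMap E W, ∀ k, ψ k = atm V Fg 0 k := by
  have hH : s1H (-(3 / 2)) (fun k : E => (‖k‖ ^ (-(3 / 2) : ℝ)) • V k) := by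
    constructor
    · have hn : ContDiffOn ℝ ∞ (fun k : E => ‖k‖ ^ (-(3 / 2) : ℝ)) {0}ᶜ := ?_
      · exact hn.smul hV.smooth
      intro k hk
      have hk0 : ‖k‖ ≠ 0 := norm_ne_zero_iff.2 hk
      exact ((contDiffAt_norm ℝ hk).rpow_const_of_ne hk0).contDiffWithinAt
    · intro r hr k hk
      rw [hV.hom r hr k, norm_smul, Real.norm_of_nonneg hr.le,
        Real.mul_rpow hr.le (norm_nonneg _), smul_smul]
  have hfun : ∀ k, s1T 0 (fun k : E => (‖k‖ ^ (-(3 / 2) : ℝ)) • V k) k = atm V Fg 0 k := by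
    intro k
    rcases eq_or_ne k 0 with h | h
    · rw [h, s1_T_zero, atm, norm_zero, Real.zero_rpow (by norm_num), zero_mul, zero_smul]
    · rw [s1T, if_neg h, atm, Fg, sub_zero, pow_zero, mul_one, smul_smul]
      congr 1
      ring
  refine ⟨⟨s1T 0 (fun k : E => (‖k‖ ^ (-(3 / 2) : ℝ)) • V k), ?_, ?_⟩, hfun⟩
  · rw [contDiff_infty]
    intro n
    exact (s1_main n W 0 _ _ hH).1
  · intro m n
    exact (s1_main n W 0 _ _ hH).2 m

end H706N.JS1

namespace H706N

alias schw1 := JS1.schw1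

end H706N
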