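import Pool.Agent.Helper706_NS.Defs2

set_option autoImplicit false
open Set Filter Topology MeasureTheory
open scoped ComplexConjugate ContDiff

namespace H706N.JS2

/-- The real part `W → E`, as a continuous linear map. -/
noncomputable def reW : W →L[ℝ] E :=
  LinearMap.toContinuousLinearMap
    { toFun := fun c => WithLp.toLp 2 fun i => (c i).re
      map_add' := by
        intro a b
        ext i
        simp
      map_smul' := by
        intro r a
        ext i
        simp }

theorem reW_apply (c : W) (i : Fin 3) : reW c i = (c i).re := rfl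

/-- The dilation `x ↦ (2π)⁻¹ x`. -/
noncomputable def dl : E ≃L[ℝ] E :=
  ContinuousLinearEquiv.smulLeft (Units.mk0 ((2 * Real.pi)⁻¹) (by positivity))

theorem dl_apply (x : E) : dl x = (2 * Real.pi)⁻¹ • x := rfl

theorem integrable_char (ψ : SchwartzMap E W) (y : E) :
    Integrable fun k : E => Complex.exp (((inner ℝ k y : ℝ) : ℂ) * Complex.I) • ψ k := by
  have h := ψ.integrable (μ := (volume : Measure E))
  refine h.norm.mono' ?_ ?_
  · have hc : Continuous fun k : E => Complex.exp (((inner ℝ k y : ℝ) : ℂ) * Complex.I) := by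
      fun_prop
    exact (hc.smul ψ.continuous).aestronglyMeasurable
  · refine Filter.Eventually.of_forall fun k => ?_
    rw [norm_smul, Complex.norm_exp_ofReal_mul_I, one_mul]

/-- TARGET -/
theorem schw2 (ψ : SchwartzMap E W) : ∃ Φ : SchwartzMap E E, ∀ x, Φ x = vel (fun k => ψ k) x := by
  refine ⟨(SchwartzMap.compCLMOfContinuousLinearEquiv ℝ dl
    (FourierTransformInv.fourierInv ψ)).postcompCLM reW, fun x => ?_⟩
  ext i
  have h1 : (FourierTransformInv.fourierInv ψ : SchwartzMap E W) (dl x)
      = ∫ k : E, Complex.exp (((inner ℝ k x : ℝ) : ℂ) * Complex.I) • ψ k := by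
    rw [SchwartzMap.fourierInv_coe, Real.fourierInv_eq']
    refine integral_congr_ae (Filter.Eventually.of_forall fun k => ?_)
    simp only
    congr 3
    rw [dl_apply, inner_smul_right]
    have : Real.pi ≠ 0 := Real.pi_ne_zero
    congr 1
    field_simp
  rw [SchwartzMap.postcompCLM_apply, reW_apply,
    SchwartzMap.compCLMOfContinuousLinearEquiv_apply, Function.comp_apply, h1]
  unfold vel fl
  simp only
  congr 1
  have h2 := (EuclideanSpace.proj (𝕜 := ℂ) i : W →L[ℂ] ℂ).integral_comp_comm (integrable_char ψ x)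
  rw [show (∫ k : E, Complex.exp (((inner ℝ k x : ℝ) : ℂ) * Complex.I) • ψ k) i
    = (EuclideanSpace.proj (𝕜 := ℂ) i : W →L[ℂ] ℂ)
      (∫ k : E, Complex.exp (((inner ℝ k x : ℝ) : ℂ) * Complex.I) • ψ k) from rfl, ← h2]
  rfl

end H706N.JS2

namespace H706N

alias schw2 := JS2.schw2

end H706N
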