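import Pool.Agent.Helper706_NS.Defs2

set_option autoImplicit false
open Set Filter Topology MeasureTheory
open scoped ComplexConjugate ContDiff

namespace H706N.JS3

theorem fl_conj (f : E → ℂ) (hf : ∀ k, f (-k) = conj (f k)) (x : E) : conj (fl f x) = fl f x := by
  unfold fl
  rw [← integral_conj, ← integral_neg_eq_self]
  congr 1
  ext k
  rw [map_mul, hf, Complex.conj_conj, ← Complex.exp_conj, map_mul, Complex.conj_ofReal,
    Complex.conj_I, inner_neg_left]
  push_cast
  congr 2
  ring

theorem fl_fourier (f : E → ℂ) (w : E) :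
    FourierTransform.fourier f w = fl f ((-2 * Real.pi) • w) := by
  rw [Real.fourier_eq']
  unfold fl
  congr 1
  ext k
  rw [smul_eq_mul, inner_smul_right]

/-- TARGET -/
theorem vel_inj (ψ : SchwartzMap E W) (herm : ∀ k j, ψ (-k) j = conj (ψ k j))
    (h : ∀ x, vel (fun k => ψ k) x = 0) (k : E) : ψ k = 0 := by
  ext i
  have h0 : ∀ x, fl (fun k => ψ k i) x = 0 := by
    intro x
    have h1 : (fl (fun k => ψ k i) x).re = 0 := by
      have := congrArg (fun v : E => v i) (h x)
      simpa [vel] using this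
    have h2 := fl_conj (fun k => ψ k i) (fun k => herm k i) x
    rw [Complex.conj_eq_iff_im] at h2
    exact Complex.ext h1 h2
  have hF : FourierTransform.fourier (fun k => ψ k i) = (fun _ : E => (0 : ℂ)) := by
    ext w
    rw [fl_fourier, h0]
  have hc : Continuous (fun k : E => ψ k i) :=
    (EuclideanSpace.proj (𝕜 := ℂ) i).continuous.comp ψ.continuous
  have hi : Integrable (fun k : E => ψ k i) :=
    (EuclideanSpace.proj (𝕜 := ℂ) i).integrable_comp ψ.integrable
  have h3 := hc.fourierInv_fourier_eq hi (by rw [hF]; exact integrable_zero _ _ _)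
  have h4 := congrFun h3 k
  rw [hF] at h4
  rw [← h4, Real.fourierInv_eq']
  simp

/-- TARGET -/
theorem schw_scale (Φ : SchwartzMap E E) {r : ℝ} (hr : r ≠ 0) :
    ∃ Ψ : SchwartzMap E E, ∀ x, Ψ x = r • Φ (r • x) := by
  refine ⟨r • SchwartzMap.compCLMOfContinuousLinearEquiv ℝ
    (ContinuousLinearEquiv.smulLeft (Units.mk0 r hr) : E ≃L[ℝ] E) Φ, fun x => ?_⟩
  rfl

end H706N.JS3

namespace H706N

alias vel_inj := JS3.vel_inj
alias schw_scale := JS3.schw_scale

end H706N
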