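import Pool.Agent.Helper706_NS.Defs2
import Pool.Agent.Helper706_NS.A3

set_option autoImplicit false
open Set Filter Topology MeasureTheory
open scoped ComplexConjugate ContDiff

namespace H706N.JU1

theorem hasDerivAt_energy {d d' : ℝ → E → W} {T₁ M M' : ℝ}
    (hm : ∀ t ∈ Icc 0 T₁, Measurable (d t))
    (hb : ∀ t ∈ Icc 0 T₁, ∀ k, (1 + ‖k‖) ^ 4 * ‖d t k‖ ≤ M)
    (hm' : ∀ t ∈ Ioo 0 T₁, Measurable (d' t))
    (hb' : ∀ t ∈ Ioo 0 T₁, ∀ k, ‖d' t k‖ ≤ M')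
    (hd : ∀ t ∈ Ioo 0 T₁, ∀ k, HasDerivAt (fun s => d s k) (d' t k) t) :
    ∀ t ∈ Ioo 0 T₁, HasDerivAt (fun s => pr (d s) (d s)) (2 * pr (d' t) (d t)) t := by
  intro t ht
  have hMM : ∀ t ∈ Icc 0 T₁, ∀ k, ‖d t k‖ ≤ M := by
    intro s hs k
    have h1 := hb s hs k
    have h2 : (1 : ℝ) ≤ (1 + ‖k‖) ^ 4 := one_le_pow₀ (by linarith [norm_nonneg k])
    have h3 : ‖d s k‖ ≤ (1 + ‖k‖) ^ 4 * ‖d s k‖ := le_mul_of_one_le_left (norm_nonneg _) h2
    linarith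
  have hM0 : 0 ≤ M := le_trans (norm_nonneg _) (hMM t (Ioo_subset_Icc_self ht) 0)
  have hM0' : 0 ≤ M' := le_trans (norm_nonneg _) (hb' t ht 0)
  have hmeas : ∀ f g : E → W, Measurable f → Measurable g →
      Measurable fun k => (inner ℂ (f k) (g k)).re := fun f g hf hg =>
    Complex.measurable_re.comp (hf.inner hg)
  have hnn : ∀ c c' : W, |(inner ℂ c c').re| ≤ ‖c‖ * ‖c'‖ := fun c c' =>
    (Complex.abs_re_le_norm _).trans (norm_inner_le_norm _ _)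
  have key := hasDerivAt_integral_of_dominated_loc_of_deriv_le (μ := (volume : Measure E))
    (F := fun s k => (inner ℂ (d s k) (d s k)).re)
    (F' := fun s k => 2 * (inner ℂ (d' s k) (d s k)).re)
    (bound := fun k => 2 * M' * M / (1 + ‖k‖) ^ 4) (s := Ioo 0 T₁) (x₀ := t)
    (Ioo_mem_nhds ht.1 ht.2) ?_ ?_ ?_ ?_ ?_ ?_
  · have h2 := key.2
    rw [integral_const_mul] at h2
    exact h2
  · filter_upwards [Ioo_mem_nhds ht.1 ht.2] with s hs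
    exact (hmeas _ _ (hm s (Ioo_subset_Icc_self hs)) (hm s (Ioo_subset_Icc_self hs))).aestronglyMeasurable
  · apply int_dec (C := M * M)
      (hmeas _ _ (hm t (Ioo_subset_Icc_self ht)) (hm t (Ioo_subset_Icc_self ht))).aestronglyMeasurable
    intro k
    rw [Real.norm_eq_abs]
    have h1 := hb t (Ioo_subset_Icc_self ht) k
    have h2 := hMM t (Ioo_subset_Icc_self ht) k
    calc (1 + ‖k‖) ^ 4 * |(inner ℂ (d t k) (d t k)).re|
        ≤ (1 + ‖k‖) ^ 4 * (‖d t k‖ * ‖d t k‖) := by gcongr; exact hnn _ _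
      _ = ((1 + ‖k‖) ^ 4 * ‖d t k‖) * ‖d t k‖ := by ring
      _ ≤ M * M := by gcongr
  · exact ((hmeas _ _ (hm' t ht) (hm t (Ioo_subset_Icc_self ht))).const_mul 2).aestronglyMeasurable
  · refine ae_of_all _ fun k s hs => ?_
    have h1 := hb s (Ioo_subset_Icc_self hs) k
    have h3 := hb' s hs k
    rw [Real.norm_eq_abs, le_div_iff₀ (by positivity), abs_mul, abs_two]
    calc 2 * |(inner ℂ (d' s k) (d s k)).re| * (1 + ‖k‖) ^ 4
        ≤ 2 * (‖d' s k‖ * ‖d s k‖) * (1 + ‖k‖) ^ 4 := by gcongr; exact hnn _ _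
      _ = 2 * ‖d' s k‖ * ((1 + ‖k‖) ^ 4 * ‖d s k‖) := by ring
      _ ≤ 2 * M' * M := by gcongr
  · apply int_dec (C := 2 * M' * M)
    · exact (measurable_const.div ((measurable_const.add measurable_norm).pow_const 4)).aestronglyMeasurable
    · intro k
      rw [Real.norm_eq_abs, abs_of_nonneg (by positivity)]
      rw [mul_div_cancel₀ _ (by positivity)]
  · refine ae_of_all _ fun k s hs => ?_
    have h1 := (hd s hs k)
    have h2 : HasDerivAt (fun s => inner ℂ (d s k) (d s k))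
      (inner ℂ (d s k) (d' s k) + inner ℂ (d' s k) (d s k)) s := HasDerivAt.inner ℂ h1 h1
    have h3 := Complex.reCLM.hasFDerivAt.comp_hasDerivAt s h2
    have h4 : (inner ℂ (d s k) (d' s k)).re = (inner ℂ (d' s k) (d s k)).re := by
      rw [← inner_conj_symm, Complex.conj_re]
    have h5 : 2 * (inner ℂ (d' s k) (d s k)).re
        = Complex.reCLM (inner ℂ (d s k) (d' s k) + inner ℂ (d' s k) (d s k)) := by
      change _ = (inner ℂ (d s k) (d' s k) + inner ℂ (d' s k) (d s k) : ℂ).re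
      rw [Complex.add_re, h4]
      ring
    rw [h5]
    exact h3

theorem continuousOn_energy {d : ℝ → E → W} {T₁ M : ℝ}
    (hm : ∀ t ∈ Icc 0 T₁, Measurable (d t))
    (hb : ∀ t ∈ Icc 0 T₁, ∀ k, (1 + ‖k‖) ^ 4 * ‖d t k‖ ≤ M)
    (hc : ∀ k, ContinuousOn (fun t => d t k) (Icc 0 T₁)) :
    ContinuousOn (fun s => pr (d s) (d s)) (Icc 0 T₁) := by
  intro t ht
  have hMM : ∀ t ∈ Icc 0 T₁, ∀ k, ‖d t k‖ ≤ M := by
    intro s hs k
    have h1 := hb s hs k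
    have h2 : (1 : ℝ) ≤ (1 + ‖k‖) ^ 4 := one_le_pow₀ (by linarith [norm_nonneg k])
    have h3 : ‖d s k‖ ≤ (1 + ‖k‖) ^ 4 * ‖d s k‖ := le_mul_of_one_le_left (norm_nonneg _) h2
    linarith
  have hM0 : 0 ≤ M := le_trans (norm_nonneg _) (hMM t ht 0)
  have hmeas : ∀ f g : E → W, Measurable f → Measurable g →
      Measurable fun k => (inner ℂ (f k) (g k)).re := fun f g hf hg =>
    Complex.measurable_re.comp (hf.inner hg)
  have hnn : ∀ c c' : W, |(inner ℂ c c').re| ≤ ‖c‖ * ‖c'‖ := fun c c' =>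
    (Complex.abs_re_le_norm _).trans (norm_inner_le_norm _ _)
  refine continuousWithinAt_of_dominated (μ := (volume : Measure E))
    (F := fun s k => (inner ℂ (d s k) (d s k)).re)
    (bound := fun k => M * M / (1 + ‖k‖) ^ 4) ?_ ?_ ?_ ?_
  · filter_upwards [self_mem_nhdsWithin] with s hs
    exact (hmeas _ _ (hm s hs) (hm s hs)).aestronglyMeasurable
  · filter_upwards [self_mem_nhdsWithin] with s hs
    refine ae_of_all _ fun k => ?_
    have h1 := hb s hs k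
    have h2 := hMM s hs k
    rw [Real.norm_eq_abs, le_div_iff₀ (by positivity)]
    calc |(inner ℂ (d s k) (d s k)).re| * (1 + ‖k‖) ^ 4
        ≤ (‖d s k‖ * ‖d s k‖) * (1 + ‖k‖) ^ 4 := by gcongr; exact hnn _ _
      _ = ((1 + ‖k‖) ^ 4 * ‖d s k‖) * ‖d s k‖ := by ring
      _ ≤ M * M := by gcongr
  · apply int_dec (C := M * M)
    · exact (measurable_const.div ((measurable_const.add measurable_norm).pow_const 4)).aestronglyMeasurable
    · intro k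
      rw [Real.norm_eq_abs, abs_of_nonneg (by positivity)]
      rw [mul_div_cancel₀ _ (by positivity)]
  · refine ae_of_all _ fun k => ?_
    have h1 := hc k t ht
    exact Complex.continuous_re.continuousAt.comp_continuousWithinAt (h1.inner h1)

theorem energy_est {Bp : (E → W) → (E → W) → E → W} (hB : Good Bp) {ν : ℝ} (hν : 0 ≤ ν)
    {U V : E → W} (hU : Adm U) (hV : Adm V) {K₁ K₂ : ℝ}
    (h1 : |pr (NL (V + (-1 : ℝ) • U) U) (V + (-1 : ℝ) • U)|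
      ≤ K₁ * nrm 0 (V + (-1 : ℝ) • U) * nrm 0 (V + (-1 : ℝ) • U))
    (h2 : |pr (Bp (V + (-1 : ℝ) • U) U) (V + (-1 : ℝ) • U)|
      ≤ K₂ * nrm 0 (V + (-1 : ℝ) • U) ^ 2) :
    pr (fun k => (-NL V V k - (ν * ‖k‖ ^ 2) • V k + Bp V V k)
        - (-NL U U k - (ν * ‖k‖ ^ 2) • U k + Bp U U k)) (V + (-1 : ℝ) • U)
      ≤ (K₁ + K₂) * pr (V + (-1 : ℝ) • U) (V + (-1 : ℝ) • U) := by
  have hδ : Adm (V + (-1 : ℝ) • U) := adm_add hV hU (-1)
  have e1 := NL_lin₂ hV hV hU (-1)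
  have e2 := NL_lin₁ hV hU hU (-1)
  have e3 := hB.lin₂ V V U hV hV hU (-1)
  have e4 := hB.lin₁ V U U hV hU hU (-1)
  have hδV : (V + (-1 : ℝ) • U) = V + (-1 : ℝ) • U := rfl
  generalize hδdef : V + (-1 : ℝ) • U = δ at *
  have a1 : Adm (NL V δ) := adm_NL hV hδ
  have a2 : Adm (NL δ U) := adm_NL hδ hU
  have a3 : Adm (Bp V δ) := hB.adm V δ hV hδ
  have a4 : Adm (Bp δ U) := hB.adm δ U hδ hU
  have aP : Adm (Bp V δ + (1 : ℝ) • Bp δ U) := adm_add a3 a4 1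
  have aQ : Adm (Bp V δ + (1 : ℝ) • Bp δ U + (-1 : ℝ) • NL V δ) := adm_add aP a1 (-1)
  have aR : Adm (Bp V δ + (1 : ℝ) • Bp δ U + (-1 : ℝ) • NL V δ + (-1 : ℝ) • NL δ U) :=
    adm_add aQ a2 (-1)
  have pR : pr (Bp V δ + (1 : ℝ) • Bp δ U + (-1 : ℝ) • NL V δ + (-1 : ℝ) • NL δ U) δ
      = pr (Bp δ U) δ - pr (NL δ U) δ := by
    rw [pr_add_left aQ a2 hδ, pr_add_left aP a1 hδ, pr_add_left a3 a4 hδ, hB.skew V δ hV hδ,
      NL_skew hV hδ]
    ring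
  have hpt : ∀ k, (inner ℂ ((-NL V V k - (ν * ‖k‖ ^ 2) • V k + Bp V V k)
        - (-NL U U k - (ν * ‖k‖ ^ 2) • U k + Bp U U k)) (δ k)).re
      = (inner ℂ ((Bp V δ + (1 : ℝ) • Bp δ U + (-1 : ℝ) • NL V δ + (-1 : ℝ) • NL δ U) k) (δ k)).re
        - ν * (‖k‖ ^ (2 * (1 : ℝ)) * ‖δ k‖ ^ 2) := by
    intro k
    have f1 := congrFun e1 k
    have f2 := congrFun e2 k
    have f3 := congrFun e3 k
    have f4 := congrFun e4 k
    have f5 := congrFun hδdef k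
    simp only [Pi.add_apply, Pi.smul_apply] at f1 f2 f3 f4 f5
    have hE : (-NL V V k - (ν * ‖k‖ ^ 2) • V k + Bp V V k)
        - (-NL U U k - (ν * ‖k‖ ^ 2) • U k + Bp U U k)
        = (Bp V δ + (1 : ℝ) • Bp δ U + (-1 : ℝ) • NL V δ + (-1 : ℝ) • NL δ U) k
          - (ν * ‖k‖ ^ 2) • δ k := by
      simp only [Pi.add_apply, Pi.smul_apply]
      rw [f1, f2, f3, f4, ← f5]
      simp only [smul_add, smul_smul]
      module
    rw [hE, inner_sub_left, Complex.sub_re]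
    congr 1
    have h6 : ((ν * ‖k‖ ^ 2) • δ k : W) = (((ν * ‖k‖ ^ 2 : ℝ) : ℂ)) • δ k := by
      ext i
      simp
    rw [h6, inner_smul_left, Complex.conj_ofReal, inner_self_eq_norm_sq_to_K]
    have h7 : ‖k‖ ^ (2 * (1 : ℝ)) = ‖k‖ ^ 2 := by
      rw [mul_one]
      exact Real.rpow_two _
    rw [h7]
    have h8 : (((ν * ‖k‖ ^ 2 : ℝ) : ℂ) * (((‖δ k‖ : ℝ) : ℂ) ^ 2))
      = ((ν * (‖k‖ ^ 2 * ‖δ k‖ ^ 2) : ℝ) : ℂ) := by
      push_cast
      ring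
    exact (congrArg Complex.re h8).trans (Complex.ofReal_re _)
  have hle : pr (fun k => (-NL V V k - (ν * ‖k‖ ^ 2) • V k + Bp V V k)
        - (-NL U U k - (ν * ‖k‖ ^ 2) • U k + Bp U U k)) δ
      ≤ pr (Bp V δ + (1 : ℝ) • Bp δ U + (-1 : ℝ) • NL V δ + (-1 : ℝ) • NL δ U) δ := by
    unfold pr
    simp only [hpt]
    have i1 := pr_int aR hδ
    have i2 := (hδ.int_sq (a := 1) (by norm_num)).const_mul ν
    refine integral_mono (i1.sub i2) i1 fun k => ?_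
    have : 0 ≤ ν * (‖k‖ ^ (2 * (1 : ℝ)) * ‖δ k‖ ^ 2) := by positivity
    simp only
    linarith
  have hs := pr_self δ
  rw [pR] at hle
  have b1 := abs_le.1 h1
  have b2 := abs_le.1 h2
  rw [hs]
  have : K₁ * nrm 0 δ * nrm 0 δ = K₁ * nrm 0 δ ^ 2 := by ring
  nlinarith [b1.1, b2.2]

/-- TARGET -/
theorem uniq {Bp : (E → W) → (E → W) → E → W} (hB : Good Bp) {ν T T' : ℝ} (hν : 0 ≤ ν)
    {u w : ℝ → E → W} (hu : Sol ν Bp T u) (hw : Sol ν Bp T' w) (h0 : w 0 = u 0) :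
    ∀ t ∈ Ico 0 (min T T'), w t =ᵐ[volume] u t := by
  intro t₀ ht₀
  obtain ⟨T₁, hT₁, hT₁'⟩ := exists_between ht₀.2
  have hT₁0 : 0 < T₁ := lt_of_le_of_lt ht₀.1 hT₁
  have hTT : T₁ < T := lt_of_lt_of_le hT₁' (min_le_left _ _)
  have hTT' : T₁ < T' := lt_of_lt_of_le hT₁' (min_le_right _ _)
  have hau : ∀ t ∈ Icc 0 T₁, Adm (u t) := fun t ht => hu.adm t ⟨ht.1, lt_of_le_of_lt ht.2 hTT⟩
  have haw : ∀ t ∈ Icc 0 T₁, Adm (w t) := fun t ht => hw.adm t ⟨ht.1, lt_of_le_of_lt ht.2 hTT'⟩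
  have had : ∀ t ∈ Icc 0 T₁, Adm (w t + (-1 : ℝ) • u t) := fun t ht =>
    adm_add (haw t ht) (hau t ht) (-1)
  have hbu := hu.bdd T₁ hTT
  have hbw := hw.bdd T₁ hTT'
  -- bounds for the difference
  obtain ⟨Cu4, hCu4⟩ := hbu 4
  obtain ⟨Cw4, hCw4⟩ := hbw 4
  have hd4 : ∀ t ∈ Icc 0 T₁, ∀ k, (1 + ‖k‖) ^ 4 * ‖(w t + (-1 : ℝ) • u t) k‖ ≤ Cw4 + Cu4 := by
    intro t ht k
    have h1 : ‖(w t + (-1 : ℝ) • u t) k‖ ≤ ‖w t k‖ + ‖u t k‖ := by
      have := norm_add_le (w t k) ((-1 : ℝ) • u t k)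
      rw [norm_smul, norm_neg, norm_one, one_mul] at this
      exact this
    calc (1 + ‖k‖) ^ 4 * ‖(w t + (-1 : ℝ) • u t) k‖
        ≤ (1 + ‖k‖) ^ 4 * (‖w t k‖ + ‖u t k‖) := by gcongr
      _ = (1 + ‖k‖) ^ 4 * ‖w t k‖ + (1 + ‖k‖) ^ 4 * ‖u t k‖ := by ring
      _ ≤ Cw4 + Cu4 := add_le_add (hCw4 t ht k) (hCu4 t ht k)
  -- a general bound for the right hand side
  have hrhs : ∀ v : ℝ → E → W, (∀ t ∈ Icc 0 T₁, Adm (v t)) →
      (∀ n : ℕ, ∃ C : ℝ, ∀ t ∈ Icc 0 T₁, ∀ k, (1 + ‖k‖) ^ n * ‖v t k‖ ≤ C) →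
      ∃ M : ℝ, ∀ t ∈ Icc 0 T₁, ∀ k,
        ‖-NL (v t) (v t) k - (ν * ‖k‖ ^ 2) • v t k + Bp (v t) (v t) k‖ ≤ M := by
    intro v hv hbv
    obtain ⟨K, hK⟩ := NL_bdd 0
    obtain ⟨m, K', hK'⟩ := hB.bdd 0
    obtain ⟨C5, hC5⟩ := hbv (0 + 5)
    obtain ⟨C2, hC2⟩ := hbv 2
    obtain ⟨Cm, hCm⟩ := hbv m
    refine ⟨K * C5 * C5 + ν * C2 + K' * Cm * Cm, fun t ht k => ?_⟩
    have h1 := hK (v t) (v t) (hv t ht) (hv t ht) C5 C5 (hC5 t ht) (hC5 t ht) k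
    have h2 := hK' (v t) (v t) (hv t ht) (hv t ht) Cm Cm (hCm t ht) (hCm t ht) k
    rw [pow_zero, one_mul] at h1 h2
    have h3 : ‖(ν * ‖k‖ ^ 2) • v t k‖ ≤ ν * C2 := by
      rw [norm_smul, Real.norm_eq_abs, abs_of_nonneg (by positivity), mul_assoc]
      refine mul_le_mul_of_nonneg_left ?_ hν
      refine le_trans ?_ (hC2 t ht k)
      gcongr
      linarith [norm_nonneg k]
    calc ‖-NL (v t) (v t) k - (ν * ‖k‖ ^ 2) • v t k + Bp (v t) (v t) k‖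
        ≤ ‖-NL (v t) (v t) k - (ν * ‖k‖ ^ 2) • v t k‖ + ‖Bp (v t) (v t) k‖ := norm_add_le _ _
      _ ≤ ‖-NL (v t) (v t) k‖ + ‖(ν * ‖k‖ ^ 2) • v t k‖ + ‖Bp (v t) (v t) k‖ := by
          gcongr
          exact norm_sub_le _ _
      _ ≤ K * C5 * C5 + ν * C2 + K' * Cm * Cm := by
          rw [norm_neg]
          gcongr
  obtain ⟨Mw, hMw⟩ := hrhs w haw hbw
  obtain ⟨Mu, hMu⟩ := hrhs u hau hbu
  have hmrhs : ∀ v : E → W, Adm v →
      Measurable fun k => (-NL v v k - (ν * ‖k‖ ^ 2) • v k + Bp v v k) := by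
    intro v hv
    have m1 := (adm_NL hv hv).meas
    have m2 := (hB.adm v v hv hv).meas
    have m3 : Measurable fun k : E => (ν * ‖k‖ ^ 2) • v k :=
      ((measurable_norm.pow_const 2).const_mul ν).smul hv.meas
    exact (m1.neg.sub m3).add m2
  have henergy := hasDerivAt_energy (T₁ := T₁) (M := Cw4 + Cu4) (M' := Mw + Mu)
    (d := fun t => w t + (-1 : ℝ) • u t)
    (d' := fun t k => (-NL (w t) (w t) k - (ν * ‖k‖ ^ 2) • w t k + Bp (w t) (w t) k)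
        - (-NL (u t) (u t) k - (ν * ‖k‖ ^ 2) • u t k + Bp (u t) (u t) k))
    (fun t ht => (had t ht).meas) hd4
    (fun t ht => (hmrhs _ (haw t (Ioo_subset_Icc_self ht))).sub
      (hmrhs _ (hau t (Ioo_subset_Icc_self ht))))
    (fun t ht k => (norm_sub_le _ _).trans (add_le_add (hMw t (Ioo_subset_Icc_self ht) k)
      (hMu t (Ioo_subset_Icc_self ht) k)))
    (fun t ht k => by
      have q1 := hw.eqn t ⟨ht.1, ht.2.trans hTT'⟩ k
      have q2 := hu.eqn t ⟨ht.1, ht.2.trans hTT⟩ k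
      exact HasDerivAt.congr_deriv (q1.add (q2.const_smul (-1 : ℝ))) (by module))
  have hcont := continuousOn_energy (T₁ := T₁) (M := Cw4 + Cu4)
    (d := fun t => w t + (-1 : ℝ) • u t)
    (fun t ht => (had t ht).meas) hd4
    (fun k => by
      have c1 := (hw.cont k).mono (fun t (ht : t ∈ Icc 0 T₁) => ⟨ht.1, lt_of_le_of_lt ht.2 hTT'⟩)
      have c2 := (hu.cont k).mono (fun t (ht : t ∈ Icc 0 T₁) => ⟨ht.1, lt_of_le_of_lt ht.2 hTT⟩)
      exact c1.add (c2.const_smul (-1 : ℝ)))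
  -- the differential inequality
  obtain ⟨K₁, hK₁⟩ := NL_diag
  obtain ⟨m, K₂, hK₂⟩ := hB.diag
  obtain ⟨D₁, hD₁⟩ := hbu 5
  obtain ⟨D₂, hD₂⟩ := hbu m
  have hineq : ∀ t ∈ Ioo 0 T₁,
      pr (fun k => (-NL (w t) (w t) k - (ν * ‖k‖ ^ 2) • w t k + Bp (w t) (w t) k)
        - (-NL (u t) (u t) k - (ν * ‖k‖ ^ 2) • u t k + Bp (u t) (u t) k)) (w t + (-1 : ℝ) • u t)
      ≤ (K₁ * D₁ + K₂ * D₂) * pr (w t + (-1 : ℝ) • u t) (w t + (-1 : ℝ) • u t) := by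
    intro t ht
    have ht' := Ioo_subset_Icc_self ht
    exact energy_est hB hν (hau t ht') (haw t ht')
      (hK₁ _ _ _ (had t ht') (had t ht') (hau t ht') D₁ (hD₁ t ht'))
      (hK₂ _ _ (had t ht') (hau t ht') D₂ (hD₂ t ht'))
  -- Gronwall
  set L := 2 * (K₁ * D₁ + K₂ * D₂) with hL
  have hanti : AntitoneOn (fun t => Real.exp (-(L * t)) *
      pr (w t + (-1 : ℝ) • u t) (w t + (-1 : ℝ) • u t)) (Icc 0 T₁) := by
    apply antitoneOn_of_deriv_nonpos (convex_Icc _ _)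
    · exact ContinuousOn.mul (Continuous.continuousOn (by fun_prop)) hcont
    · rw [interior_Icc]
      intro t ht
      have e0 : HasDerivAt (fun t : ℝ => Real.exp (-(L * t))) (Real.exp (-(L * t)) * (-(L * 1))) t :=
        (((hasDerivAt_id t).const_mul L).neg).exp
      exact (e0.mul (henergy t ht)).differentiableAt.differentiableWithinAt
    · rw [interior_Icc]
      intro t ht
      have e0 : HasDerivAt (fun t : ℝ => Real.exp (-(L * t))) (Real.exp (-(L * t)) * (-(L * 1))) t :=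
        (((hasDerivAt_id t).const_mul L).neg).exp
      have e1 := e0.mul (henergy t ht)
      have e1' : deriv (fun t => Real.exp (-(L * t)) *
        pr (w t + (-1 : ℝ) • u t) (w t + (-1 : ℝ) • u t)) t = _ := e1.deriv
      rw [e1']
      have e2 := hineq t ht
      have e3 : 0 < Real.exp (-(L * t)) := Real.exp_pos _
      have e4 : Real.exp (-(L * t)) * (-(L * 1)) * pr (w t + (-1 : ℝ) • u t) (w t + (-1 : ℝ) • u t)
        + Real.exp (-(L * t)) * (2 * pr (fun k => (-NL (w t) (w t) k - (ν * ‖k‖ ^ 2) • w t k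
          + Bp (w t) (w t) k) - (-NL (u t) (u t) k - (ν * ‖k‖ ^ 2) • u t k + Bp (u t) (u t) k))
          (w t + (-1 : ℝ) • u t))
        = Real.exp (-(L * t)) * (2 * (pr (fun k => (-NL (w t) (w t) k - (ν * ‖k‖ ^ 2) • w t k
          + Bp (w t) (w t) k) - (-NL (u t) (u t) k - (ν * ‖k‖ ^ 2) • u t k + Bp (u t) (u t) k))
          (w t + (-1 : ℝ) • u t)
          - (K₁ * D₁ + K₂ * D₂) * pr (w t + (-1 : ℝ) • u t) (w t + (-1 : ℝ) • u t))) := by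
        rw [hL]; ring
      refine le_of_eq_of_le e4 ?_
      refine mul_nonpos_of_nonneg_of_nonpos e3.le ?_
      linarith
  have hz0 : w 0 + (-1 : ℝ) • u 0 = 0 := by
    rw [h0]
    module
  have hfin := hanti ⟨le_refl _, hT₁0.le⟩ ⟨ht₀.1, hT₁.le⟩ ht₀.1
  simp only [hz0] at hfin
  have hp0 : pr (0 : E → W) 0 = 0 := by
    unfold pr
    simp
  rw [hp0, mul_zero] at hfin
  have hδ : Adm (w t₀ + (-1 : ℝ) • u t₀) := had t₀ ⟨ht₀.1, hT₁.le⟩
  have hle0 : pr (w t₀ + (-1 : ℝ) • u t₀) (w t₀ + (-1 : ℝ) • u t₀) ≤ 0 := by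
    by_contra hcon
    push Not at hcon
    have := mul_pos (Real.exp_pos (-(L * t₀))) hcon
    linarith
  have hnn : ∀ k, 0 ≤ (inner ℂ ((w t₀ + (-1 : ℝ) • u t₀) k) ((w t₀ + (-1 : ℝ) • u t₀) k)).re :=
    fun k => by
      have h9 := inner_self_nonneg (𝕜 := ℂ) (x := (w t₀ + (-1 : ℝ) • u t₀) k)
      exact h9
  have hz : pr (w t₀ + (-1 : ℝ) • u t₀) (w t₀ + (-1 : ℝ) • u t₀) = 0 :=
    le_antisymm hle0 (integral_nonneg hnn)
  unfold pr at hz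
  rw [integral_eq_zero_iff_of_nonneg hnn (pr_int hδ hδ)] at hz
  filter_upwards [hz] with k hk
  have hk' : (inner ℂ ((w t₀ + (-1 : ℝ) • u t₀) k) ((w t₀ + (-1 : ℝ) • u t₀) k)).re = 0 := hk
  have hk2 : (w t₀ + (-1 : ℝ) • u t₀) k = 0 := by
    have := inner_self_eq_norm_sq (𝕜 := ℂ) ((w t₀ + (-1 : ℝ) • u t₀) k)
    have h9 : ‖(w t₀ + (-1 : ℝ) • u t₀) k‖ ^ 2 = 0 := by
      rw [← this]; exact hk'
    exact norm_eq_zero.1 (pow_eq_zero_iff (two_ne_zero) |>.1 h9)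
  have hk3 : w t₀ k + (-1 : ℝ) • u t₀ k = 0 := hk2
  have : w t₀ k - u t₀ k = 0 := by
    rw [← hk3]; module
  exact sub_eq_zero.1 this

end H706N.JU1

namespace H706N

alias uniq := JU1.uniq

end H706N
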