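import Pool.Agent.Helper706_NS.A1
import Pool.Agent.Helper706_NS.A2
import Pool.Agent.Helper706_NS.A3
import Pool.Agent.Helper706_NS.A4a
import Pool.Agent.Helper706_NS.A4b
import Pool.Agent.Helper706_NS.A5
import Pool.Agent.Helper706_NS.B1
import Pool.Agent.Helper706_NS.B2
import Pool.Agent.Helper706_NS.B3
import Pool.Agent.Helper706_NS.B4
import Pool.Agent.Helper706_NS.B5
import Pool.Agent.Helper706_NS.C1
import Pool.Agent.Helper706_NS.C2
import Pool.Agent.Helper706_NS.C4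
import Pool.Agent.Helper706_NS.D1
import Pool.Agent.Helper706_NS.D3
import Pool.Agent.Helper706_NS.D4
import Pool.Agent.Helper706_NS.U1
import Pool.Agent.Helper706_NS.S1
import Pool.Agent.Helper706_NS.S2
import Pool.Agent.Helper706_NS.S3

/-!
Small energy-conserving perturbations of the Navier-Stokes nonlinearity with self-similar blow-up: assembly.
-/

set_option autoImplicit false

open Set Filter Topology MeasureTheory
open scoped ComplexConjugate ContDiff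

namespace H706N

/-! ### The perturbation -/

/-- The Gaussian profiles. -/
noncomputable def ga (y : ℝ) : ℝ := Real.exp (-(3 / 2) * y ^ 2)
/-- The Gaussian profiles. -/
noncomputable def qa (y : ℝ) : ℝ := Real.exp (-(3 / 2) * (y + 2) ^ 2)
/-- The Gaussian profiles. -/
noncomputable def pa (y : ℝ) : ℝ := Real.exp (-(3 / 2) * (y + 2 / 3) ^ 2)
/-- The Gaussian profiles. -/
noncomputable def qb (y : ℝ) : ℝ := Real.exp (-(3 / 2) * (y + 10 / 3) ^ 2)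
/-- The Gaussian profiles. -/
noncomputable def pb (y : ℝ) : ℝ := (y + 10 / 3) * Real.exp (-(3 / 2) * (y + 10 / 3) ^ 2)

theorem gt_shift (b : ℝ) : Gt fun y => Real.exp (-(3 / 2) * (y + b) ^ 2) where
  cont := by fun_prop
  bd := by
    refine ⟨Real.exp (3 * b ^ 2), fun y => ?_⟩
    rw [abs_of_pos (Real.exp_pos _), ← Real.exp_add]
    refine Real.exp_le_exp.2 ?_
    nlinarith [sq_nonneg (y + 3 * b)]

theorem gt_ga : Gt ga := by
  have h := gt_shift 0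
  simp only [add_zero] at h
  exact h

theorem gt_qa : Gt qa := gt_shift 2
theorem gt_pa : Gt pa := gt_shift (2 / 3)
theorem gt_qb : Gt qb := gt_shift (10 / 3)
theorem gt_pb : Gt pb where
  cont := by unfold pb; fun_prop
  bd := by
    refine ⟨Real.exp (5 * (10 / 3) ^ 2), fun y => ?_⟩
    unfold pb
    rw [abs_mul, abs_of_pos (Real.exp_pos _), ← Real.exp_add]
    have h1 : |y + 10 / 3| ≤ Real.exp ((y + 10 / 3) ^ 2 / 4) := by
      refine le_trans ?_ (Real.add_one_le_exp _)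
      nlinarith [sq_nonneg (|y + 10 / 3| - 2), sq_abs (y + 10 / 3)]
    calc |y + 10 / 3| * Real.exp (-(3 / 2) * (y + 10 / 3) ^ 2)
        ≤ Real.exp ((y + 10 / 3) ^ 2 / 4) * Real.exp (-(3 / 2) * (y + 10 / 3) ^ 2) := by gcongr
      _ = Real.exp ((y + 10 / 3) ^ 2 / 4 + -(3 / 2) * (y + 10 / 3) ^ 2) := (Real.exp_add _ _).symm
      _ ≤ _ := by
        refine Real.exp_le_exp.2 ?_
        nlinarith [sq_nonneg (y + 5 * (10 / 3))]

/-- The perturbation of the nonlinearity. -/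
noncomputable def BpN (c θ₁ θ₂ : ℝ) (V : E → W) (g h : E → W) : E → W :=
  NL (cut c g) h + (θ₁ • bt V ga qa pa g h + θ₂ • bt V ga qb pb g h)

theorem good_NLcut (c : ℝ) : Good fun g h => NL (cut c g) h where
  adm g h hg hh := adm_NL (adm_cut hg c) hh
  lin₁ g g' h hg hg' hh r := by
    have : cut c (g + r • g') = cut c g + r • cut c g' := by
      unfold cut
      rw [Set.indicator_add']
      congr 1
      exact Set.indicator_const_smul (cone c) r g'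
    simp only [this]
    exact NL_lin₁ (adm_cut hg c) (adm_cut hg' c) hh r
  lin₂ g h h' hg hh hh' r := NL_lin₂ (adm_cut hg c) hh hh' r
  skew g h hg hh := NL_skew (adm_cut hg c) hh
  bdd n := by
    obtain ⟨K, hK⟩ := NL_bdd n
    refine ⟨n + 5, K, fun g h hg hh C D hC hD => hK _ _ (adm_cut hg c) hh C D (fun k => ?_) hD⟩
    refine le_trans ?_ (hC k)
    have h1 : ‖cut c g k‖ ≤ ‖g k‖ := norm_indicator_le_norm_self g k
    have h2 : 0 ≤ (1 + ‖k‖) ^ (n + 5) := by positivity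
    exact mul_le_mul_of_nonneg_left h1 h2
  diag := by
    obtain ⟨K, hK⟩ := NL_diag
    refine ⟨5, |K|, fun g h hg hh D hD => ?_⟩
    have h1 := hK (cut c g) g h (adm_cut hg c) hg hh D hD
    have hD0 : 0 ≤ D := le_trans (by positivity) (hD 0)
    have h2 := nrm_cut hg c (a := 0) (by norm_num)
    have h3 := nrm_nonneg 0 g
    have h4 := nrm_nonneg 0 (cut c g)
    calc |pr (NL (cut c g) h) g| ≤ K * D * nrm 0 (cut c g) * nrm 0 g := h1
      _ ≤ |K| * D * nrm 0 (cut c g) * nrm 0 g := by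
        gcongr
        exact le_abs_self K
      _ ≤ |K| * D * nrm 0 g * nrm 0 g := by gcongr
      _ = |K| * D * nrm 0 g ^ 2 := by ring

theorem good_bt {c cV : ℝ} {V : E → W} (hV : Ang c cV V) {a q p : ℝ → ℝ} (ha : Gt a) (hq : Gt q)
    (hp : Gt p) : Good (bt V a q p) where
  adm g h hg hh := adm_bt hV ha hq hp hg hh
  lin₁ g g' h hg hg' hh r := bt_lin₁ hV ha hq hp hg hg' hh r
  lin₂ g h h' hg hh hh' r := bt_lin₂ hV ha hq hp hg hh hh' r
  skew g h hg hh := bt_skew hV ha hq hp hg hh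
  bdd n := bt_bdd hV ha hq hp n
  diag := bt_diag hV ha hq hp

theorem good_add {B₁ B₂ : (E → W) → (E → W) → E → W} (h₁ : Good B₁) (h₂ : Good B₂) (r : ℝ) :
    Good fun g h => B₁ g h + r • B₂ g h where
  adm g h hg hh := adm_add (h₁.adm g h hg hh) (h₂.adm g h hg hh) r
  lin₁ g g' h hg hg' hh c := by
    simp only [h₁.lin₁ g g' h hg hg' hh c, h₂.lin₁ g g' h hg hg' hh c, smul_add]
    rw [smul_comm r c]
    abel
  lin₂ g h h' hg hh hh' c := by
    simp only [h₁.lin₂ g h h' hg hh hh' c, h₂.lin₂ g h h' hg hh hh' c, smul_add]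
    rw [smul_comm r c]
    abel
  skew g h hg hh := by
    rw [pr_add_left (h₁.adm g h hg hh) (h₂.adm g h hg hh) hh r, h₁.skew g h hg hh,
      h₂.skew g h hg hh]
    ring
  bdd n := by
    obtain ⟨m₁, K₁, hK₁⟩ := h₁.bdd n
    obtain ⟨m₂, K₂, hK₂⟩ := h₂.bdd n
    refine ⟨max m₁ m₂, |K₁| + |r| * |K₂|, fun g h hg hh C D hC hD k => ?_⟩
    have hC0 : 0 ≤ C := le_trans (by positivity) (hC 0)
    have hD0 : 0 ≤ D := le_trans (by positivity) (hD 0)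
    have mono : ∀ (m : ℕ) (f : E → W) (X : ℝ), m ≤ max m₁ m₂ →
        (∀ k, (1 + ‖k‖) ^ (max m₁ m₂) * ‖f k‖ ≤ X) → ∀ k, (1 + ‖k‖) ^ m * ‖f k‖ ≤ X := by
      intro m f X hm hX k
      refine le_trans (mul_le_mul_of_nonneg_right ?_ (norm_nonneg _)) (hX k)
      exact pow_le_pow_right₀ (by linarith [norm_nonneg k]) hm
    have e1 := hK₁ g h hg hh C D (mono _ _ _ (le_max_left _ _) hC)
      (mono _ _ _ (le_max_left _ _) hD) k
    have e2 := hK₂ g h hg hh C D (mono _ _ _ (le_max_right _ _) hC)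
      (mono _ _ _ (le_max_right _ _) hD) k
    have hp : 0 ≤ (1 + ‖k‖) ^ n := by positivity
    calc (1 + ‖k‖) ^ n * ‖(B₁ g h + r • B₂ g h) k‖
        ≤ (1 + ‖k‖) ^ n * (‖B₁ g h k‖ + |r| * ‖B₂ g h k‖) := by
          refine mul_le_mul_of_nonneg_left ?_ hp
          refine (norm_add_le _ _).trans ?_
          simp [norm_smul]
      _ = (1 + ‖k‖) ^ n * ‖B₁ g h k‖ + |r| * ((1 + ‖k‖) ^ n * ‖B₂ g h k‖) := by ring
      _ ≤ K₁ * C * D + |r| * (K₂ * C * D) := by gcongr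
      _ ≤ |K₁| * C * D + |r| * (|K₂| * C * D) := by
        gcongr
        · exact le_abs_self _
        · exact le_abs_self _
      _ = (|K₁| + |r| * |K₂|) * C * D := by ring
  diag := by
    obtain ⟨m₁, K₁, hK₁⟩ := h₁.diag
    obtain ⟨m₂, K₂, hK₂⟩ := h₂.diag
    refine ⟨max m₁ m₂, |K₁| + |r| * |K₂|, fun g h hg hh D hD => ?_⟩
    have hD0 : 0 ≤ D := le_trans (by positivity) (hD 0)
    have mono : ∀ (m : ℕ), m ≤ max m₁ m₂ → ∀ k, (1 + ‖k‖) ^ m * ‖h k‖ ≤ D := by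
      intro m hm k
      refine le_trans (mul_le_mul_of_nonneg_right ?_ (norm_nonneg _)) (hD k)
      exact pow_le_pow_right₀ (by linarith [norm_nonneg k]) hm
    have e1 := hK₁ g h hg hh D (mono _ (le_max_left _ _))
    have e2 := hK₂ g h hg hh D (mono _ (le_max_right _ _))
    rw [pr_add_left (h₁.adm g h hg hh) (h₂.adm g h hg hh) hg r]
    calc |pr (B₁ g h) g + r * pr (B₂ g h) g| ≤ |pr (B₁ g h) g| + |r| * |pr (B₂ g h) g| := by
          refine (abs_add_le _ _).trans ?_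
          rw [abs_mul]
      _ ≤ K₁ * D * nrm 0 g ^ 2 + |r| * (K₂ * D * nrm 0 g ^ 2) := by gcongr
      _ ≤ |K₁| * D * nrm 0 g ^ 2 + |r| * (|K₂| * D * nrm 0 g ^ 2) := by
        gcongr
        · exact le_abs_self _
        · exact le_abs_self _
      _ = (|K₁| + |r| * |K₂|) * D * nrm 0 g ^ 2 := by ring

theorem good_BpN {c cV : ℝ} {V : E → W} (hV : Ang c cV V) (θ₁ θ₂ : ℝ) :
    Good (BpN c θ₁ θ₂ V) := by
  have h := good_add (good_add (good_NLcut c) (good_bt hV gt_ga gt_qa gt_pa) θ₁)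
    (good_bt hV gt_ga gt_qb gt_pb) θ₂
  have e : BpN c θ₁ θ₂ V = fun g h => (NL (cut c g) h + θ₁ • bt V ga qa pa g h)
      + θ₂ • bt V ga qb pb g h := by
    funext g h
    unfold BpN
    rw [add_assoc]
  rw [e]
  exact h

theorem BpN_dil {c cV : ℝ} {V : E → W} (hV : Ang c cV V) (θ₁ θ₂ : ℝ) (g h : E → W) {r : ℝ}
    (hr : 0 < r) (k : E) : BpN c θ₁ θ₂ V (dil r g) (dil r h) k = BpN c θ₁ θ₂ V g h (r⁻¹ • k) := by
  unfold BpN
  simp only [Pi.add_apply, Pi.smul_apply]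
  rw [cut_dil c g hr, NL_dil _ _ hr, bt_dil hV _ _ _ _ _ hr, bt_dil hV _ _ _ _ _ hr]

/-- Smallness. -/
theorem BpN_small {e : ℝ × ℝ × ℝ} (he : e.1 + e.2.1 + e.2.2 = 5 / 2) (h1 : -(3 / 2) < e.1)
    (h2 : e.1 < 3 / 2) (h3 : e.2.1 < 5 / 2) (h4 : e.2.2 < 5 / 2) {δ : ℝ} (hδ : 0 < δ) :
    ∃ c₀ > 0, ∀ c ∈ Ioc 0 c₀, ∀ (cV : ℝ) (V : E → W), Ang c cV V → ∃ ε > 0, ∀ θ₁ θ₂ : ℝ,
      |θ₁| ≤ ε → |θ₂| ≤ ε → ∀ f g h, Adm f → Adm g → Adm h →
        |pr (BpN c θ₁ θ₂ V f g) h| ≤ δ * nrm e.1 f * nrm e.2.1 g * nrm e.2.2 h := by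
  obtain ⟨c₀, hc₀, hc⟩ := NL_small he h1 h2 h3 h4 (half_pos hδ)
  refine ⟨c₀, hc₀, fun c hcc cV V hV => ?_⟩
  have h5 : -(3 / 2) < e.2.1 := by linarith
  have h6 : -(3 / 2) < e.2.2 := by linarith
  obtain ⟨C₁, hC₁, hC₁'⟩ := bt_est hV gt_ga gt_qa gt_pa he h1 h5 h6
  obtain ⟨C₂, hC₂, hC₂'⟩ := bt_est hV gt_ga gt_qb gt_pb he h1 h5 h6
  refine ⟨δ / (2 * (C₁ + C₂ + 1)), by positivity, fun θ₁ θ₂ hθ₁ hθ₂ f g h hf hg hh => ?_⟩
  set N := nrm e.1 f * nrm e.2.1 g * nrm e.2.2 h with hN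
  have hN0 : 0 ≤ N := mul_nonneg (mul_nonneg (nrm_nonneg _ _) (nrm_nonneg _ _)) (nrm_nonneg _ _)
  have a1 := hc c hcc f g h hf hg hh
  have a2 := hC₁' f g h hf hg hh
  have a3 := hC₂' f g h hf hg hh
  have m1 := adm_NL (adm_cut hf c) hg
  have m2 := adm_bt hV gt_ga gt_qa gt_pa hf hg
  have m3 := adm_bt hV gt_ga gt_qb gt_pb hf hg
  have e1 : BpN c θ₁ θ₂ V f g = (NL (cut c f) g + θ₁ • bt V ga qa pa f g)
      + θ₂ • bt V ga qb pb f g := by
    unfold BpN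
    rw [add_assoc]
  rw [e1, pr_add_left (adm_add m1 m2 θ₁) m3 hh, pr_add_left m1 m2 hh]
  have k1 : |pr (NL (cut c f) g) h| ≤ δ / 2 * N := by rw [hN]; linarith [a1]
  have k2 : |pr (bt V ga qa pa f g) h| ≤ C₁ * N := by rw [hN]; linarith [a2]
  have k3 : |pr (bt V ga qb pb f g) h| ≤ C₂ * N := by rw [hN]; linarith [a3]
  have hD : 0 < C₁ + C₂ + 1 := by positivity
  calc |pr (NL (cut c f) g) h + θ₁ * pr (bt V ga qa pa f g) h + θ₂ * pr (bt V ga qb pb f g) h|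
      ≤ |pr (NL (cut c f) g) h| + |θ₁| * |pr (bt V ga qa pa f g) h|
          + |θ₂| * |pr (bt V ga qb pb f g) h| := by
        refine (abs_add_le _ _).trans ?_
        rw [abs_mul]
        gcongr
        refine (abs_add_le _ _).trans ?_
        rw [abs_mul]
    _ ≤ δ / 2 * N + δ / (2 * (C₁ + C₂ + 1)) * (C₁ * N) + δ / (2 * (C₁ + C₂ + 1)) * (C₂ * N) := by
        gcongr
    _ = (δ / 2 + δ / (2 * (C₁ + C₂ + 1)) * (C₁ + C₂)) * N := by ring
    _ ≤ δ * N := by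
        refine mul_le_mul_of_nonneg_right ?_ hN0
        have : δ / (2 * (C₁ + C₂ + 1)) * (C₁ + C₂) ≤ δ / 2 := by
          rw [div_mul_eq_mul_div, div_le_div_iff₀ (by positivity) (by norm_num)]
          nlinarith [mul_nonneg hδ.le hC₁, mul_nonneg hδ.le hC₂]
        linarith
    _ = δ * nrm e.1 f * nrm e.2.1 g * nrm e.2.2 h := by rw [hN]; ring

/-! ### The self-similar solution -/

/-- The logarithm of the frequency scale at time `t`. -/
noncomputable def ell (κ T t : ℝ) : ℝ := -(1 / 2) * Real.log (2 * κ * (T - t))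

/-- The Fourier transform of the self-similar solution. -/
noncomputable def uN (V : E → W) (A κ T t : ℝ) : E → W :=
  (A * Real.exp (-(1 / 2) * ell κ T t)) • atm V Fg (ell κ T t)

theorem ell_deriv {κ T t : ℝ} (hκ : 0 < κ) (ht : t < T) :
    HasDerivAt (ell κ T) (κ * Real.exp (2 * ell κ T t)) t := by
  have hX : 0 < 2 * κ * (T - t) := by
    have : 0 < T - t := by linarith
    positivity
  have h1 : HasDerivAt (fun s : ℝ => 2 * κ * (T - s)) (2 * κ * (-1)) t :=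
    ((hasDerivAt_id t).const_sub T).const_mul (2 * κ)
  have h2 := (h1.log hX.ne').const_mul (-(1 / 2) : ℝ)
  have h3 : Real.exp (2 * ell κ T t) = (2 * κ * (T - t))⁻¹ := by
    unfold ell
    rw [show 2 * (-(1 / 2) * Real.log (2 * κ * (T - t))) = -Real.log (2 * κ * (T - t)) by ring,
      Real.exp_neg, Real.exp_log hX]
  rw [h3]
  refine h2.congr_deriv ?_
  field_simp

theorem atm_at_zero (V : E → W) (a : ℝ → ℝ) (σ : ℝ) : atm V a σ 0 = 0 := by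
  unfold atm
  rw [norm_zero, Real.zero_rpow (by norm_num)]
  simp

theorem bt_at_zero (V : E → W) (a q p : ℝ → ℝ) (g h : E → W) : bt V a q p g h 0 = 0 := by
  unfold bt
  simp [atm_at_zero]

theorem uN_eqn {c cV : ℝ} {V : E → W} (hV : Ang c cV V) {ν κ A T t : ℝ} (hκ : κ = 2 * Real.exp 1 * ν)
    (hν : 0 < ν) (hA : 0 < A) (ht : t < T) {θ₁ θ₂ : ℝ}
    (h1 : θ₁ * A * (cV ^ 2 * (Real.pi ^ (3 / 2 : ℝ) / 3 * Real.exp (17 / 6))) = ν * Real.exp 1)
    (h2 : θ₂ * A * (cV ^ 2 * (Real.pi ^ (3 / 2 : ℝ) / 6 * Real.exp (25 / 6))) = κ) (k : E) :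
    HasDerivAt (fun s => uN V A κ T s k)
      (-NL (uN V A κ T t) (uN V A κ T t) k - (ν * ‖k‖ ^ 2) • uN V A κ T t k
        + BpN c θ₁ θ₂ V (uN V A κ T t) (uN V A κ T t) k) t := by
  have hκ0 : 0 < κ := by rw [hκ]; positivity
  have hell := ell_deriv hκ0 ht
  set ℓ := ell κ T t with hℓ
  have hamp : HasDerivAt (fun s => A * Real.exp (-(1 / 2) * ell κ T s))
      (A * (Real.exp (-(1 / 2) * ℓ) * (-(1 / 2) * (κ * Real.exp (2 * ℓ))))) t :=
    ((hell.const_mul (-(1 / 2) : ℝ)).exp).const_mul A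
  have hd := prof_deriv V hamp hell k
  have hcut : cut c (uN V A κ T t) = uN V A κ T t := prof_cut hV _ _
  have hB : BpN c θ₁ θ₂ V (uN V A κ T t) (uN V A κ T t) k = NL (uN V A κ T t) (uN V A κ T t) k
      + (θ₁ • bt V ga qa pa (uN V A κ T t) (uN V A κ T t) k
        + θ₂ • bt V ga qb pb (uN V A κ T t) (uN V A κ T t) k) := by
    unfold BpN
    rw [hcut]
    rfl
  have hfun : (fun s => uN V A κ T s k)
      = fun s => (A * Real.exp (-(1 / 2) * ell κ T s)) • atm V Fg (ell κ T s) k := rfl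
  rw [hfun]
  refine hd.congr_deriv ?_
  rw [hB]
  rcases eq_or_ne k 0 with rfl | hk
  · rw [bt_at_zero, bt_at_zero]
    have hu : uN V A κ T t 0 = 0 := by
      unfold uN
      rw [Pi.smul_apply, atm_at_zero, smul_zero]
    rw [hu, norm_zero, Real.zero_rpow (by norm_num)]
    simp
  · have e1 := bt_prof hV gt_ga gt_qa gt_pa (A * Real.exp (-(1 / 2) * ℓ)) ℓ hk
    have e2 := bt_prof hV gt_ga gt_qb gt_pb (A * Real.exp (-(1 / 2) * ℓ)) ℓ hk
    have p1 := prof1 (Real.log ‖k‖ - ℓ)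
    have p2 := prof2 (Real.log ‖k‖ - ℓ)
    have hnk : 0 < ‖k‖ := norm_pos_iff.2 hk
    set y := Real.log ‖k‖ - ℓ with hy
    have i1 : ∫ σ : ℝ, Real.exp (5 / 2 * σ) * (∫ s : ℝ, ga (s - σ) * Fg s) *
            ((∫ s : ℝ, qa (s - σ) * Fg s) * pa (y - σ)
              - (∫ s : ℝ, pa (s - σ) * Fg s) * qa (y - σ))
        = Real.pi ^ (3 / 2 : ℝ) / 3 * Real.exp (17 / 6) * ((Real.exp (2 * y - 1) - 1) * Fg y) := p1
    have i2 : ∫ σ : ℝ, Real.exp (5 / 2 * σ) * (∫ s : ℝ, ga (s - σ) * Fg s) *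
            ((∫ s : ℝ, qb (s - σ) * Fg s) * pb (y - σ)
              - (∫ s : ℝ, pb (s - σ) * Fg s) * qb (y - σ))
        = Real.pi ^ (3 / 2 : ℝ) / 6 * Real.exp (25 / 6) * (y * Fg y) := p2
    rw [i1] at e1
    rw [i2] at e2
    have hu : uN V A κ T t = (A * Real.exp (-(1 / 2) * ℓ)) • atm V Fg ℓ := rfl
    rw [hu, e1, e2]
    have hu2 : ((A * Real.exp (-(1 / 2) * ℓ)) • atm V Fg ℓ) k
        = ((A * Real.exp (-(1 / 2) * ℓ)) * (‖k‖ ^ (-(3 / 2) : ℝ) * Fg y)) • V k := by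
      rw [Pi.smul_apply]
      unfold atm
      rw [smul_smul]
    rw [hu2]
    have hk2 : ‖k‖ ^ 2 = Real.exp (2 * y) * Real.exp (2 * ℓ) := by
      rw [← Real.exp_add, show 2 * y + 2 * ℓ = Real.log ‖k‖ + Real.log ‖k‖ by rw [hy]; ring,
        Real.exp_add, Real.exp_log hnk, sq]
    rw [hk2]
    have hamp2 : (A * Real.exp (-(1 / 2) * ℓ)) ^ 2 * cV ^ 2 * Real.exp (5 / 2 * ℓ)
        = A * (A * Real.exp (-(1 / 2) * ℓ) * Real.exp (2 * ℓ)) * cV ^ 2 := by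
      have : Real.exp (-(1 / 2) * ℓ) * Real.exp (5 / 2 * ℓ) = Real.exp (2 * ℓ) := by
        rw [← Real.exp_add]; congr 1; ring
      calc _ = A ^ 2 * Real.exp (-(1 / 2) * ℓ) * (Real.exp (-(1 / 2) * ℓ) * Real.exp (5 / 2 * ℓ))
            * cV ^ 2 := by ring
        _ = _ := by rw [this]; ring
    rw [hamp2]
    have hex : Real.exp (2 * y - 1) = Real.exp (2 * y) * (Real.exp 1)⁻¹ := by
      rw [Real.exp_sub, div_eq_mul_inv]
    rw [hex]
    simp only [smul_smul, neg_smul]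
    rw [show ∀ X Y Z U : W, -X - Y + (X + (Z + U)) = -Y + Z + U by intros; abel]
    rw [← neg_smul, ← add_smul, ← add_smul]
    congr 1
    have he1 : Real.exp 1 ≠ 0 := (Real.exp_pos _).ne'
    set a := A * Real.exp (-(1 / 2) * ℓ) with ha
    set R := ‖k‖ ^ (-(3 / 2) : ℝ) with hR
    set P₁ := cV ^ 2 * (Real.pi ^ (3 / 2 : ℝ) / 3 * Real.exp (17 / 6)) with hP₁
    set P₂ := cV ^ 2 * (Real.pi ^ (3 / 2 : ℝ) / 6 * Real.exp (25 / 6)) with hP₂
    have lhs : A * (Real.exp (-(1 / 2) * ℓ) * (-(1 / 2) * (κ * Real.exp (2 * ℓ))))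
        = -(1 / 2) * a * κ * Real.exp (2 * ℓ) := by rw [ha]; ring
    rw [lhs]
    have t1 : θ₁ * (A * (a * Real.exp (2 * ℓ)) * cV ^ 2 * R * (Real.pi ^ (3 / 2 : ℝ) / 3 * Real.exp (17 / 6) *
        ((Real.exp (2 * y) * (Real.exp 1)⁻¹ - 1) * Fg y)))
        = (θ₁ * A * P₁) * (a * Real.exp (2 * ℓ) * R * Fg y) * (Real.exp (2 * y) * (Real.exp 1)⁻¹ - 1) := by
      rw [hP₁]; ring
    have t2 : θ₂ * (A * (a * Real.exp (2 * ℓ)) * cV ^ 2 * R * (Real.pi ^ (3 / 2 : ℝ) / 6 * Real.exp (25 / 6) *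
        (y * Fg y))) = (θ₂ * A * P₂) * (a * Real.exp (2 * ℓ) * R * Fg y) * y := by
      rw [hP₂]; ring
    rw [t1, t2, h1, h2, hκ]
    field_simp
    ring

theorem uN_sol {c cV : ℝ} {V : E → W} (hV : Ang c cV V) {ν κ A T : ℝ} (hκ : κ = 2 * Real.exp 1 * ν)
    (hν : 0 < ν) (hA : 0 < A) {θ₁ θ₂ : ℝ}
    (h1 : θ₁ * A * (cV ^ 2 * (Real.pi ^ (3 / 2 : ℝ) / 3 * Real.exp (17 / 6))) = ν * Real.exp 1)
    (h2 : θ₂ * A * (cV ^ 2 * (Real.pi ^ (3 / 2 : ℝ) / 6 * Real.exp (25 / 6))) = κ) :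
    Sol ν (BpN c θ₁ θ₂ V) T (uN V A κ T) where
  adm t _ := adm_prof hV _ _
  bdd T₁ hT₁ n := by
    have hκ0 : 0 < κ := by rw [hκ]; positivity
    have hcont : ContinuousOn (ell κ T) (Icc 0 T₁) := fun t ht =>
      (ell_deriv hκ0 (ht.2.trans_lt hT₁)).continuousAt.continuousWithinAt
    obtain ⟨L, hL⟩ := isCompact_Icc.exists_bound_of_continuousOn hcont
    obtain ⟨C, hC⟩ := prof_unif hV n L
    refine ⟨A * Real.exp (1 / 2 * L) * C, fun t ht k => ?_⟩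
    have hl := hL t ht
    rw [Real.norm_eq_abs] at hl
    have h3 := hC _ hl k
    have h4 : Real.exp (-(1 / 2) * ell κ T t) ≤ Real.exp (1 / 2 * L) := by
      refine Real.exp_le_exp.2 ?_
      linarith [(abs_le.1 hl).1]
    unfold uN
    rw [Pi.smul_apply, norm_smul, Real.norm_eq_abs, abs_of_pos (by positivity)]
    calc (1 + ‖k‖) ^ n * (A * Real.exp (-(1 / 2) * ell κ T t) * ‖atm V Fg (ell κ T t) k‖)
        = A * Real.exp (-(1 / 2) * ell κ T t) * ((1 + ‖k‖) ^ n * ‖atm V Fg (ell κ T t) k‖) := by ring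
      _ ≤ A * Real.exp (1 / 2 * L) * C := by
        refine mul_le_mul ?_ h3 (by positivity) (by positivity)
        gcongr
  cont k := by
    have hκ0 : 0 < κ := by rw [hκ]; positivity
    intro t ht
    exact (uN_eqn hV hκ hν hA ht.2 h1 h2 k).continuousAt.continuousWithinAt
  eqn t ht k := uN_eqn hV hκ hν hA ht.2 h1 h2 k

theorem exp_ell {κ T t : ℝ} (hκ : 0 < κ) (ht : t < T) :
    Real.exp (ell κ T t) = (Real.sqrt (2 * κ))⁻¹ * (Real.sqrt (T - t))⁻¹ := by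
  have hX : 0 < 2 * κ * (T - t) := by
    have : 0 < T - t := by linarith
    positivity
  unfold ell
  rw [← mul_inv, ← Real.sqrt_mul (by positivity) (T - t)]
  rw [Real.sqrt_eq_rpow, ← Real.rpow_neg hX.le, Real.rpow_def_of_pos hX]
  congr 1
  ring

theorem uN_vel {c cV : ℝ} {V : E → W} (hV : Ang c cV V) {κ A T t : ℝ} (hκ : 0 < κ) (ht : t < T)
    (x : E) : vel (uN V A κ T t) x = (Real.sqrt (T - t))⁻¹ • ((Real.sqrt (2 * κ))⁻¹ •
      vel (A • atm V Fg 0) ((Real.sqrt (2 * κ))⁻¹ • ((Real.sqrt (T - t))⁻¹ • x))) := by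
  have h1 : uN V A κ T t = dil (Real.exp (ell κ T t)) (A • atm V Fg 0) := by
    unfold uN
    rw [prof_dil hV]
    congr 2
    rw [mul_assoc, ← Real.exp_add]
    rw [show -(1 / 2) * ell κ T t + ell κ T t / 2 = 0 by ring, Real.exp_zero, mul_one]
  rw [h1, vel_dil _ (Real.exp_pos _), exp_ell hκ ht]
  simp only [smul_smul]
  rw [mul_comm]

/-! ### Blow-up and maximality -/

theorem vel_congr {g h : E → W} (hgh : g =ᵐ[volume] h) : vel g = vel h := by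
  funext x
  unfold vel fl
  congr 1
  funext i
  congr 1
  refine integral_congr_ae ?_
  filter_upwards [hgh] with k hk
  rw [hk]

theorem vel_bound {g : E → W} {C : ℝ} (h : ∀ k, (1 + ‖k‖) ^ 4 * ‖g k‖ ≤ C) (x : E) :
    ‖vel g x‖ ≤ 3 * (C * ∫ k : E, ((1 + ‖k‖) ^ 4)⁻¹) := by
  have hint : Integrable fun k : E => ((1 + ‖k‖) ^ 4)⁻¹ := by
    refine int_dec (C := 1) ?_ fun k => ?_
    · exact (by fun_prop (disch := intro; positivity) : Continuous fun k : E => ((1 + ‖k‖) ^ 4)⁻¹).aestronglyMeasurable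
    · have : 0 < (1 + ‖k‖) ^ 4 := by positivity
      rw [Real.norm_eq_abs, abs_of_pos (by positivity), mul_inv_cancel₀ this.ne']
  have h1 : ∀ i, |vel g x i| ≤ C * ∫ k : E, ((1 + ‖k‖) ^ 4)⁻¹ := by
    intro i
    have e : vel g x i = (fl (fun k => g k i) x).re := rfl
    rw [e]
    refine (Complex.abs_re_le_norm _).trans ?_
    unfold fl
    refine (norm_integral_le_integral_norm _).trans ?_
    rw [← integral_const_mul]
    refine integral_mono_of_nonneg (Eventually.of_forall fun k => norm_nonneg _)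
      (hint.const_mul C) (Eventually.of_forall fun k => ?_)
    have h2 : 0 < (1 + ‖k‖) ^ 4 := by positivity
    have h3 : ‖g k i‖ ≤ ‖g k‖ := PiLp.norm_apply_le (g k) i
    have h4 : ‖Complex.exp (((inner ℝ k x : ℝ) : ℂ) * Complex.I)‖ = 1 :=
      Complex.norm_exp_ofReal_mul_I _
    simp only [norm_mul, h4, one_mul]
    rw [← div_eq_mul_inv, le_div_iff₀ h2]
    calc ‖g k i‖ * (1 + ‖k‖) ^ 4 ≤ ‖g k‖ * (1 + ‖k‖) ^ 4 := by gcongr
      _ = (1 + ‖k‖) ^ 4 * ‖g k‖ := mul_comm _ _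
      _ ≤ C := h k
  have h5 : ‖vel g x‖ ≤ ∑ i, ‖vel g x i‖ := by
    rw [EuclideanSpace.norm_eq]
    refine Real.sqrt_le_iff.2 ⟨Finset.sum_nonneg fun i _ => norm_nonneg _, ?_⟩
    exact Finset.sum_sq_le_sq_sum_of_nonneg fun i _ => norm_nonneg _
  refine h5.trans ?_
  calc ∑ i, ‖vel g x i‖ ≤ ∑ _i : Fin 3, C * ∫ k : E, ((1 + ‖k‖) ^ 4)⁻¹ :=
        Finset.sum_le_sum fun i _ => by rw [Real.norm_eq_abs]; exact h1 i
    _ = _ := by simp

theorem blow_max {Bp : (E → W) → (E → W) → E → W} (hB : Good Bp) {ν T : ℝ} (hν : 0 ≤ ν)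
    {u : ℝ → E → W} (hu : Sol ν Bp T u)
    (hblow : ∀ M : ℝ, ∃ t ∈ Ico 0 T, ∃ x, M < ‖vel (u t) x‖) {T' : ℝ} {w : ℝ → E → W}
    (hw : Sol ν Bp T' w) (h0 : w 0 = u 0) :
    T' ≤ T ∧ ∀ t ∈ Ico 0 T', vel (w t) = vel (u t) := by
  have key := uniq hB hν hu hw h0
  have hle : T' ≤ T := by
    by_contra hcon
    push Not at hcon
    obtain ⟨C, hC⟩ := hw.bdd T hcon 4
    obtain ⟨t, ht, x, hx⟩ := hblow (3 * (C * ∫ k : E, ((1 + ‖k‖) ^ 4)⁻¹))
    have h1 : vel (w t) = vel (u t) :=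
      vel_congr (key t ⟨ht.1, lt_min ht.2 (ht.2.trans hcon)⟩)
    have h2 := vel_bound (hC t ⟨ht.1, ht.2.le⟩) x
    rw [h1] at h2
    linarith
  exact ⟨hle, fun t ht => vel_congr (key t ⟨ht.1, lt_min (ht.2.trans_le hle) ht.2⟩)⟩

/-- Smallness for finitely many norms. -/
theorem BpN_small_fin (S : Finset (ℝ × ℝ × ℝ))
    (hS : ∀ e ∈ S, e.1 + e.2.1 + e.2.2 = 5 / 2 ∧ -(3 / 2) < e.1 ∧ e.1 < 3 / 2 ∧ e.2.1 < 5 / 2 ∧
      e.2.2 < 5 / 2) {δ : ℝ} (hδ : 0 < δ) :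
    ∃ c₀ > 0, ∀ c ∈ Ioc 0 c₀, ∀ (cV : ℝ) (V : E → W), Ang c cV V → ∃ ε > 0, ∀ θ₁ θ₂ : ℝ,
      |θ₁| ≤ ε → |θ₂| ≤ ε → ∀ e ∈ S, ∀ f g h, Adm f → Adm g → Adm h →
        |pr (BpN c θ₁ θ₂ V f g) h| ≤ δ * nrm e.1 f * nrm e.2.1 g * nrm e.2.2 h := by
  classical
  induction S using Finset.induction_on with
  | empty => exact ⟨1, one_pos, fun c _ cV V _ => ⟨1, one_pos, fun θ₁ θ₂ _ _ e he => by simp at he⟩⟩
  | insert e₀ S _ ih =>
    obtain ⟨c₁, hc₁, h₁⟩ := ih fun e he => hS e (Finset.mem_insert_of_mem he)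
    obtain ⟨a1, a2, a3, a4, a5⟩ := hS e₀ (Finset.mem_insert_self _ _)
    obtain ⟨c₂, hc₂, h₂⟩ := BpN_small a1 a2 a3 a4 a5 hδ
    refine ⟨min c₁ c₂, lt_min hc₁ hc₂, fun c hc cV V hV => ?_⟩
    obtain ⟨ε₁, hε₁, k₁⟩ := h₁ c ⟨hc.1, hc.2.trans (min_le_left _ _)⟩ cV V hV
    obtain ⟨ε₂, hε₂, k₂⟩ := h₂ c ⟨hc.1, hc.2.trans (min_le_right _ _)⟩ cV V hV
    refine ⟨min ε₁ ε₂, lt_min hε₁ hε₂, fun θ₁ θ₂ hθ₁ hθ₂ e he f g h hf hg hh => ?_⟩
    rcases Finset.mem_insert.1 he with rfl | he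
    · exact k₂ θ₁ θ₂ (hθ₁.trans (min_le_right _ _)) (hθ₂.trans (min_le_right _ _)) f g h hf hg hh
    · exact k₁ θ₁ θ₂ (hθ₁.trans (min_le_left _ _)) (hθ₂.trans (min_le_left _ _)) e he f g h hf hg hh


theorem mainNS (ν δ : ℝ) (hν : 0 < ν) (hδ : 0 < δ) (S : Finset (ℝ × ℝ × ℝ))
    (hS : ∀ e ∈ S, e.1 + e.2.1 + e.2.2 = 5 / 2 ∧ -(3 / 2) < e.1 ∧ e.1 < 3 / 2 ∧ e.2.1 < 5 / 2 ∧
      e.2.2 < 5 / 2) :
    ∃ Bp : (E → W) → (E → W) → E → W,
      (∀ g h, Adm g → Adm h → Adm (Bp g h)) ∧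
      (∀ g g' h, Adm g → Adm g' → Adm h → ∀ r : ℝ, Bp (g + r • g') h = Bp g h + r • Bp g' h ∧
        Bp h (g + r • g') = Bp h g + r • Bp h g') ∧
      (∀ g h, Adm g → Adm h → ∀ r : ℝ, 0 < r → ∀ k, Bp (dil r g) (dil r h) k = Bp g h (r⁻¹ • k)) ∧
      (∀ g h, Adm g → Adm h → pr (Bp g h) h = 0) ∧
      (∀ e ∈ S, ∀ f g h, Adm f → Adm g → Adm h →
        |pr (Bp f g) h| ≤ δ * nrm e.1 f * nrm e.2.1 g * nrm e.2.2 h) ∧
      (∀ T u, Sol ν Bp T u → ∃ p, Cls ν T (fun t => vel (u t)) p fun t => vel (Bp (u t) (u t))) ∧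
      ∃ (T : ℝ) (u : ℝ → E → W) (Φ : SchwartzMap E E), 0 < T ∧ Φ ≠ 0 ∧ Sol ν Bp T u ∧
        (∀ t ∈ Ico 0 T, ∀ x, vel (u t) x
          = (Real.sqrt (T - t))⁻¹ • Φ ((Real.sqrt (T - t))⁻¹ • x)) ∧
        ∀ T' w, Sol ν Bp T' w → w 0 = u 0 → T' ≤ T ∧ ∀ t ∈ Ico 0 T', vel (w t) = vel (u t) := by
  obtain ⟨c₀, hc₀, hsm⟩ := BpN_small_fin S hS hδ
  set c := min c₀ 1 with hc
  have hc0 : 0 < c := lt_min hc₀ one_pos
  obtain ⟨V, cV, hV⟩ := exists_Ang hc0 (min_le_right _ _)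
  obtain ⟨ε, hε, hsm⟩ := hsm c ⟨hc0, min_le_left _ _⟩ cV V hV
  set κ := 2 * Real.exp 1 * ν with hκ
  have hκ0 : 0 < κ := by positivity
  have hcV := hV.pos
  set P₁ := cV ^ 2 * (Real.pi ^ (3 / 2 : ℝ) / 3 * Real.exp (17 / 6)) with hP₁
  set P₂ := cV ^ 2 * (Real.pi ^ (3 / 2 : ℝ) / 6 * Real.exp (25 / 6)) with hP₂
  have hP₁0 : 0 < P₁ := by positivity
  have hP₂0 : 0 < P₂ := by positivity
  set A := (ν * Real.exp 1 / P₁ + κ / P₂) / ε with hA
  have hA0 : 0 < A := by positivity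
  set θ₁ := ν * Real.exp 1 / (A * P₁) with hθ₁
  set θ₂ := κ / (A * P₂) with hθ₂
  have h1 : θ₁ * A * P₁ = ν * Real.exp 1 := by rw [hθ₁]; field_simp
  have h2 : θ₂ * A * P₂ = κ := by rw [hθ₂]; field_simp
  have hθ₁0 : 0 < θ₁ := by positivity
  have hθ₂0 : 0 < θ₂ := by positivity
  have hAε : A * ε = ν * Real.exp 1 / P₁ + κ / P₂ := by rw [hA]; field_simp
  have b1 : |θ₁| ≤ ε := by
    rw [abs_of_pos hθ₁0, hθ₁, div_le_iff₀ (by positivity)]
    have : ν * Real.exp 1 = ν * Real.exp 1 / P₁ * P₁ := by field_simp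
    rw [this]
    have h3 : 0 < κ / P₂ := by positivity
    calc ν * Real.exp 1 / P₁ * P₁ ≤ (A * ε) * P₁ := by
          rw [hAε]
          gcongr
          linarith
      _ = ε * (A * P₁) := by ring
  have b2 : |θ₂| ≤ ε := by
    rw [abs_of_pos hθ₂0, hθ₂, div_le_iff₀ (by positivity)]
    have : κ = κ / P₂ * P₂ := by field_simp
    have h3 : 0 < ν * Real.exp 1 / P₁ := by positivity
    calc κ = κ / P₂ * P₂ := this
      _ ≤ (A * ε) * P₂ := by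
          rw [hAε]
          gcongr
          linarith
      _ = ε * (A * P₂) := by ring
  have hgood := good_BpN hV θ₁ θ₂
  have hsol : Sol ν (BpN c θ₁ θ₂ V) 1 (uN V A κ 1) := uN_sol hV hκ hν hA0 h1 h2
  obtain ⟨ψ, hψ⟩ := schw1 hV
  obtain ⟨Φ₀, hΦ₀⟩ := schw2 (A • ψ)
  have hr : (Real.sqrt (2 * κ))⁻¹ ≠ 0 := by positivity
  obtain ⟨Φ, hΦ⟩ := schw_scale Φ₀ hr
  have hΦ₀' : ∀ x, Φ₀ x = vel (A • atm V Fg 0) x := by
    intro x
    rw [hΦ₀]
    congr 1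
    funext k
    rw [Pi.smul_apply, ← hψ k]
    rfl
  have hform : ∀ t ∈ Ico (0 : ℝ) 1, ∀ x, vel (uN V A κ 1 t) x
      = (Real.sqrt (1 - t))⁻¹ • Φ ((Real.sqrt (1 - t))⁻¹ • x) := by
    intro t ht x
    rw [uN_vel hV hκ0 ht.2, hΦ, hΦ₀']
  have hΦne : Φ ≠ 0 := by
    intro hcon
    have hz : ∀ x, vel (fun k => (A • ψ) k) x = 0 := by
      intro x
      rw [← hΦ₀ x]
      have h3 := hΦ ((Real.sqrt (2 * κ)) • x)
      rw [smul_smul, inv_mul_cancel₀ (by positivity), one_smul] at h3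
      rw [hcon] at h3
      have h4 : (Real.sqrt (2 * κ))⁻¹ • Φ₀ x = 0 := h3.symm
      exact (smul_eq_zero.1 h4).resolve_left hr
    have hherm : ∀ k j, (A • ψ) (-k) j = conj ((A • ψ) k j) := by
      intro k j
      have e : ∀ k, (A • ψ) k = (A • atm V Fg 0) k := by
        intro k
        rw [Pi.smul_apply, ← hψ k]
        rfl
      rw [e, e]
      exact (adm_prof hV A 0).herm k j
    have hzero := vel_inj (A • ψ) hherm hz
    have hVz : ∀ k : E, k ≠ 0 → V k = 0 := by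
      intro k hk
      have h3 := hzero k
      have h4 : (A • ψ) k = (A * (‖k‖ ^ (-(3 / 2) : ℝ) * Fg (Real.log ‖k‖ - 0))) • V k := by
        have : (A • ψ) k = A • ψ k := rfl
        rw [this, hψ k]
        unfold atm
        rw [smul_smul]
      rw [h4] at h3
      have hnk : 0 < ‖k‖ := norm_pos_iff.2 hk
      have h5 : A * (‖k‖ ^ (-(3 / 2) : ℝ) * Fg (Real.log ‖k‖ - 0)) ≠ 0 := by
        have : 0 < Fg (Real.log ‖k‖ - 0) := Real.exp_pos _
        positivity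
      exact (smul_eq_zero.1 h3).resolve_left h5
    have hpol := hV.polar (fun _ => 1) measurable_const
    have hl : ∫⁻ k : E, ENNReal.ofReal (‖k‖ ^ (-3 : ℝ) * ‖V k‖ ^ 2) * 1 = 0 := by
      have : ∀ k : E, ENNReal.ofReal (‖k‖ ^ (-3 : ℝ) * ‖V k‖ ^ 2) * 1 = 0 := by
        intro k
        rcases eq_or_ne k 0 with rfl | hk
        · rw [norm_zero, Real.zero_rpow (by norm_num)]
          simp
        · rw [hVz k hk]
          simp
      simp only [this, lintegral_zero]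
    rw [hl] at hpol
    have hpos : 0 < ENNReal.ofReal cV := ENNReal.ofReal_pos.2 hcV
    simp at hpol
    exact absurd hpol (not_le.2 hcV)
  have hblow : ∀ M : ℝ, ∃ t ∈ Ico (0 : ℝ) 1, ∃ x, M < ‖vel (uN V A κ 1 t) x‖ := by
    intro M
    obtain ⟨x₀, hx₀⟩ : ∃ x, Φ x ≠ 0 := by
      by_contra hcon
      push Not at hcon
      exact hΦne (DFunLike.ext _ _ hcon)
    have hn : 0 < ‖Φ x₀‖ := norm_pos_iff.2 hx₀
    -- choose `s = √(1 - t)` small
    set s := min 1 (‖Φ x₀‖ / (|M| + 1)) with hs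
    have hs0 : 0 < s := lt_min one_pos (by positivity)
    have hs1 : s ≤ 1 := min_le_left _ _
    refine ⟨1 - s ^ 2, ⟨by nlinarith, by nlinarith⟩, s • x₀, ?_⟩
    have ht : (1 - s ^ 2) ∈ Ico (0 : ℝ) 1 := ⟨by nlinarith, by nlinarith⟩
    rw [hform _ ht]
    have e : Real.sqrt (1 - (1 - s ^ 2)) = s := by
      rw [show 1 - (1 - s ^ 2) = s ^ 2 by ring, Real.sqrt_sq hs0.le]
    rw [e, smul_smul, inv_mul_cancel₀ hs0.ne', one_smul, norm_smul, norm_inv, Real.norm_eq_abs,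
      abs_of_pos hs0, ← div_eq_inv_mul, lt_div_iff₀ hs0]
    calc M * s ≤ |M| * s := by gcongr; exact le_abs_self M
      _ < (|M| + 1) * s := by nlinarith
      _ ≤ (|M| + 1) * (‖Φ x₀‖ / (|M| + 1)) := by gcongr; exact min_le_right _ _
      _ = ‖Φ x₀‖ := by field_simp
  exact ⟨BpN c θ₁ θ₂ V, hgood.adm,
    fun g g' h hg hg' hh r => ⟨hgood.lin₁ g g' h hg hg' hh r, hgood.lin₂ h g g' hh hg hg' r⟩,
    fun g h _ _ r hr k => BpN_dil hV θ₁ θ₂ g h hr k, hgood.skew,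
    fun e he f g h hf hg hh => hsm θ₁ θ₂ b1 b2 e he f g h hf hg hh,
    fun T u hu => sol_cls hgood hu,
    1, uN V A κ 1, Φ, one_pos, hΦne, hsol, hform,
    fun T' w hw h0 => blow_max hgood hν.le hsol hblow hw h0⟩

end H706N
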